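import Pool.Agent.H64.LQ.Defs

/-!
# DC: compression into the box

`cmp x = (max (-4) (min 4 x.1), λ(‖x.2‖) x.2)` with `λ(r) = 1` for `r ≤ 3/2` and `λ(r) = f(r)/r` for `r ≥ 3/2`, `f(r) = 3/2 + (r - 3/2)/(1 + 2(r - 3/2)) ∈ [3/2, 2)`, `f(r) ≤ r`.
`cmpH (τ, x) = (1-τ) x + τ cmp x`. Both are continuous; `cmp x` is in the box; `cmpH τ` fixes the points with `|x.1| ≤ 4`, `‖x.2‖ ≤ 3/2` (in particular `xb`);
`cmpH τ x = (s', κ x.2)` where `s'` is between `x.1` and its clamp (so `s' = x.1` if `|x.1| ≤ 4`, and `|s'| ≥ 4`, same sign, if `|x.1| ≥ 4`), `0 < κ ≤ 1`, `κ = 1` if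
`‖x.2‖ ≤ 3/2`, and `‖κ x.2‖ ≥ 3/2` if `‖x.2‖ ≥ 3/2`. So it preserves the complement of a long knot: if `cmpH τ x = c t`: if `‖x.2‖ > 3/2` then `‖(c t).2‖ ≥ 3/2 > 1`, impossible
(`‖(c t).2‖ ≤ 1`); if `‖x.2‖ ≤ 3/2` and `|x.1| ≤ 4` then `x = c t`; if `|x.1| > 4`, then `|(c t).1| ≥ 4`, so `|t| ≥ 1` and `(c t).2 = 0`, `x.2 = 0`, and `x = c x.1`.
-/

open scoped ContDiff unitInterval
open Topology Set

namespace LQ

open LK

/-- Radial factor. -/
noncomputable def cmpF (r : ℝ) : ℝ :=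
  if r ≤ 3 / 2 then 1 else (3 / 2 + (r - 3 / 2) / (1 + 2 * (r - 3 / 2))) / r

/-- Compression into the box. -/
noncomputable def cmp (x : V) : V := (max (-4) (min 4 x.1), (cmpF ‖x.2‖ : ℂ) * x.2)

/-- The homotopy from the identity to the compression. -/
noncomputable def cmpH (q : I × V) : V := (1 - (q.1 : ℝ)) • q.2 + (q.1 : ℝ) • cmp q.2

theorem DC_F_eq (r : ℝ) : cmpF r =
    (3 / 2 + (max r (3 / 2) - 3 / 2) / (1 + 2 * (max r (3 / 2) - 3 / 2))) / max r (3 / 2) := by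
  unfold cmpF
  split_ifs with h
  · rw [max_eq_right h]
    norm_num
  · rw [max_eq_left (not_le.1 h).le]

theorem DC_F_one {r : ℝ} (h : r ≤ 3 / 2) : cmpF r = 1 := if_pos h

theorem DC_F_mul {r : ℝ} (h : 3 / 2 ≤ r) :
    cmpF r * r = 3 / 2 + (r - 3 / 2) / (1 + 2 * (r - 3 / 2)) := by
  rw [DC_F_eq, max_eq_left h, div_mul_cancel₀]
  linarith

theorem DC_F_bd {r : ℝ} (h : 3 / 2 ≤ r) : 3 / 2 ≤ cmpF r * r ∧ cmpF r * r < 2 := by
  rw [DC_F_mul h]
  have h1 : 0 ≤ r - 3 / 2 := by linarith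
  have h2 : 0 < 1 + 2 * (r - 3 / 2) := by linarith
  constructor
  · have := div_nonneg h1 h2.le
    linarith
  · have : (r - 3 / 2) / (1 + 2 * (r - 3 / 2)) < 1 / 2 := by
      rw [div_lt_iff₀ h2]
      linarith
    linarith

theorem DC_F_pos (r : ℝ) : 0 < cmpF r := by
  rw [DC_F_eq]
  have h0 : 3 / 2 ≤ max r (3 / 2) := le_max_right _ _
  have h1 : 0 ≤ max r (3 / 2) - 3 / 2 := by linarith
  have h2 : 0 ≤ (max r (3 / 2) - 3 / 2) / (1 + 2 * (max r (3 / 2) - 3 / 2)) :=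
    div_nonneg h1 (by linarith)
  exact div_pos (by linarith) (by linarith)

theorem DC_F_cont : Continuous cmpF := by
  have h : cmpF = fun r : ℝ =>
      (3 / 2 + (max r (3 / 2) - 3 / 2) / (1 + 2 * (max r (3 / 2) - 3 / 2))) / max r (3 / 2) :=
    funext DC_F_eq
  rw [h]
  have hm : Continuous fun r : ℝ => max r (3 / 2) := by fun_prop
  have h0 : ∀ r : ℝ, 3 / 2 ≤ max r (3 / 2) := fun r => le_max_right _ _
  refine Continuous.div (continuous_const.add (Continuous.div (hm.sub continuous_const)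
    (continuous_const.add (continuous_const.mul (hm.sub continuous_const))) fun r => ?_)) hm
    fun r => ?_
  · have := h0 r
    intro h1
    linarith
  · have := h0 r
    intro h1
    linarith

theorem DC_cont : Continuous cmp := by
  unfold cmp
  refine Continuous.prodMk (by fun_prop) ?_
  exact (Complex.continuous_ofReal.comp (DC_F_cont.comp continuous_snd.norm)).mul continuous_snd

theorem DC_contH : Continuous cmpH := by
  unfold cmpH
  have h1 : Continuous fun q : I × V => (q.1 : ℝ) := continuous_subtype_val.comp continuous_fst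
  exact ((continuous_const.sub h1).smul continuous_snd).add
    (h1.smul (DC_cont.comp continuous_snd))

theorem DC_nF (x : V) : ‖(cmpF ‖x.2‖ : ℂ) * x.2‖ = cmpF ‖x.2‖ * ‖x.2‖ := by
  rw [norm_mul, Complex.norm_real, Real.norm_eq_abs, abs_of_pos (DC_F_pos _)]

theorem DC_box (x : V) : InBox (cmp x) := by
  constructor
  · simp only [cmp]
    rw [abs_le]
    exact ⟨le_max_left _ _, max_le (by norm_num) (min_le_left _ _)⟩
  · simp only [cmp]
    rw [DC_nF]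
    rcases le_total ‖x.2‖ (3 / 2) with h | h
    · rw [DC_F_one h]
      linarith
    · exact (DC_F_bd h).2

theorem DC_1 (τ : I) (x : V) :
    (cmpH (τ, x)).1 = (1 - (τ : ℝ)) * x.1 + (τ : ℝ) * max (-4) (min 4 x.1) := by
  simp [cmpH, cmp]

theorem DC_2 (τ : I) (x : V) :
    (cmpH (τ, x)).2 = (((1 - (τ : ℝ)) + (τ : ℝ) * cmpF ‖x.2‖ : ℝ) : ℂ) * x.2 := by
  simp only [cmpH, cmp, Prod.snd_add, Prod.smul_snd, Complex.real_smul]
  push_cast
  ring

theorem DC_fst (τ : I) (x : V) (h : |x.1| ≤ 4) : (cmpH (τ, x)).1 = x.1 := by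
  rw [DC_1, min_eq_right (abs_le.1 h).2, max_eq_right (abs_le.1 h).1]
  ring

theorem DC_snd (τ : I) (x : V) (h : ‖x.2‖ ≤ 3 / 2) : (cmpH (τ, x)).2 = x.2 := by
  rw [DC_2, DC_F_one h]
  push_cast
  ring

theorem DC_fix (τ : I) (x : V) (h : |x.1| ≤ 4) (h' : ‖x.2‖ ≤ 3 / 2) : cmpH (τ, x) = x :=
  Prod.ext (DC_fst τ x h) (DC_snd τ x h')

theorem DC_norm (τ : I) (x : V) (h : 3 / 2 ≤ ‖x.2‖) : 3 / 2 ≤ ‖(cmpH (τ, x)).2‖ := by
  have h0 : (0 : ℝ) ≤ τ := τ.2.1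
  have h1 : (τ : ℝ) ≤ 1 := τ.2.2
  have hp : 0 ≤ (1 - (τ : ℝ)) + (τ : ℝ) * cmpF ‖x.2‖ := by
    have := mul_nonneg h0 (DC_F_pos ‖x.2‖).le
    linarith
  rw [DC_2, norm_mul, Complex.norm_real, Real.norm_eq_abs, abs_of_nonneg hp]
  have h2 : ((1 - (τ : ℝ)) + (τ : ℝ) * cmpF ‖x.2‖) * ‖x.2‖ =
      (1 - (τ : ℝ)) * ‖x.2‖ + (τ : ℝ) * (cmpF ‖x.2‖ * ‖x.2‖) := by ring
  rw [h2]
  have h3 := mul_le_mul_of_nonneg_left h (by linarith : (0 : ℝ) ≤ 1 - (τ : ℝ))
  have h4 := mul_le_mul_of_nonneg_left (DC_F_bd h).1 h0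
  linarith

theorem DC_fst' (τ : I) (x : V) (h : 4 ≤ |x.1|) :
    4 ≤ |(cmpH (τ, x)).1| ∧ |(cmpH (τ, x)).1| ≤ |x.1| ∧ 0 ≤ (cmpH (τ, x)).1 * x.1 := by
  have h0 : (0 : ℝ) ≤ τ := τ.2.1
  have h1 : (τ : ℝ) ≤ 1 := τ.2.2
  rcases le_total 0 x.1 with hx | hx
  · rw [abs_of_nonneg hx] at h ⊢
    have e : (cmpH (τ, x)).1 = (1 - (τ : ℝ)) * x.1 + (τ : ℝ) * 4 := by
      rw [DC_1, min_eq_left h, max_eq_right (by norm_num)]
    have h2 : 4 ≤ (cmpH (τ, x)).1 := by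
      rw [e]
      nlinarith
    have h3 : (cmpH (τ, x)).1 ≤ x.1 := by
      rw [e]
      nlinarith
    rw [abs_of_nonneg (by linarith)]
    exact ⟨h2, h3, mul_nonneg (by linarith) hx⟩
  · rw [abs_of_nonpos hx] at h ⊢
    have e : (cmpH (τ, x)).1 = (1 - (τ : ℝ)) * x.1 + (τ : ℝ) * (-4) := by
      rw [DC_1, min_eq_right (by linarith), max_eq_left (by linarith)]
    have h2 : (cmpH (τ, x)).1 ≤ -4 := by
      rw [e]
      nlinarith
    have h3 : x.1 ≤ (cmpH (τ, x)).1 := by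
      rw [e]
      nlinarith
    rw [abs_of_nonpos (by linarith)]
    exact ⟨by linarith, by linarith, mul_nonneg_of_nonpos_of_nonpos (by linarith) hx⟩

theorem DC_av {c : ℝ → V} (hc : VKnot c) (τ : I) (x : V) (hx : x ∉ range c) :
    cmpH (τ, x) ∉ range c := by
  rintro ⟨t, ht⟩
  have hn : ‖(c t).2‖ ≤ 1 := by
    rcases le_total |t| 1 with h | h
    · have h1 := hc.inBall t h
      have h2 : ‖(c t).2‖ ^ 2 ≤ 1 := by nlinarith [sq_nonneg (c t).1]
      nlinarith [norm_nonneg (c t).2]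
    · rw [hc.standard t h]
      simp
  rcases lt_or_ge (3 / 2) ‖x.2‖ with h | h
  · have h1 := DC_norm τ x h.le
    rw [← ht] at h1
    linarith
  · have hs := DC_snd τ x h
    rcases le_total |x.1| 4 with h4 | h4
    · rw [DC_fix τ x h4 h] at ht
      exact hx ⟨t, ht⟩
    · have h5 := (DC_fst' τ x h4).1
      rw [← ht] at h5 hs
      have ht1 : 1 ≤ |t| := by
        by_contra hcon
        have h6 := hc.inBall t (not_le.1 hcon).le
        have h7 : 16 ≤ (c t).1 ^ 2 := by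
          rw [← sq_abs]
          nlinarith
        nlinarith [sq_nonneg ‖(c t).2‖]
      have h8 : x.2 = 0 := by
        rw [← hs, hc.standard t ht1]
      refine hx ⟨x.1, ?_⟩
      rw [hc.standard x.1 (by linarith)]
      exact Prod.ext rfl h8.symm

end LQ
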