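import Pool.Agent.H64.LQ.D0
import Pool.Agent.H64.LQ.DC

/-!
# D1: every class of the complement is represented by a loop of the box avoiding the thick tube

Let `x = cls γ0`. Step 1 (push off the thick tube). On the tube `Tb = Fh F '' {‖x.2‖ ≤ 2}` use the coordinates `y ↦ Fh F y`: for `τ ∈ I` let
`Q_τ (Fh F (s, p)) = Fh F (s, σ_τ(‖p‖) p/‖p‖)` for `0 < ‖p‖ ≤ 2`, with `σ_τ(r) = (1-τ) r + τ (11/8 + 5 r/16)`, an increasing map with `σ_τ(2) = 2`, `σ_1(r) > 5/4`; and
`Q_τ x = x` for `x ∉ Fh F '' {‖x.2‖ < 2}`. It is well defined and continuous on `(τ, x) ∈ I × (V ∖ range c)`: `Tb` and `V ∖ Fh F '' {‖x.2‖ < 2}` are closed (D0_closed,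
D0_open), their union is everything, on the intersection (`‖p‖ = 2` by injectivity) the two definitions agree, and `(Fh F)⁻¹ : Tb → {‖x.2‖ ≤ 2}` is continuous
(D0_closed). `Fh F (s, p)` is not on `c` iff `p ≠ 0` (D0_core, D0_inj), so `Q_τ` maps `V ∖ range c` to itself, `Q_0 = id`, `Q_1` maps into the complement of `Thick F`, and
`Q_τ xb = xb` (D0_xb). So `γ0 ≃ Q_1 ∘ γ0` in the complement of `c`.
Step 2: compress (DC): `ζ = cmp ∘ Q_1 ∘ γ0`. The homotopy `cmpH τ` preserves the complement of `c` (DC_av) and fixes `xb`. The result avoids `Thick F`: `Thick F ⊆ {‖x.2‖ ≤ 5/4}`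
(D0_thin). Let `x ∉ Thick F`; if `‖x.2‖ > 5/4` then `‖(cmp x).2‖ > 5/4` (`cmp` does not change the second coordinate if `‖x.2‖ ≤ 3/2`, and otherwise the norm is `≥ 3/2`). If
`‖x.2‖ ≤ 5/4`: then `|x.1| < 4` (for `|x.1| ≥ 4`, `x = Fh F x` would be in `Thick F`), and `cmp x = x`.
-/

open scoped ContDiff unitInterval
open Topology Set

namespace LQ

open LK

/-- the radial profile -/
private noncomputable def D1s (τ r : ℝ) : ℝ := (1 - τ) * r + τ * (11 / 8 + 5 * r / 16)

/-- the radial map -/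
private noncomputable def D1r (q : ℝ × V) : V :=
  (q.2.1, ((D1s q.1 ‖q.2.2‖ / ‖q.2.2‖ : ℝ) : ℂ) * q.2.2)

private theorem D1r_cont : ContinuousOn D1r {q : ℝ × V | q.2.2 ≠ 0} := by
  unfold D1r D1s
  apply ContinuousOn.prodMk
  · fun_prop
  · apply ContinuousOn.mul
    · apply Complex.continuous_ofReal.comp_continuousOn
      apply ContinuousOn.div
      · fun_prop
      · fun_prop
      · intro q hq
        exact norm_ne_zero_iff.mpr hq
    · fun_prop

private theorem D1s_pos {τ r : ℝ} (h0 : 0 ≤ τ) (h1 : τ ≤ 1) (hr : 0 < r) : 0 < D1s τ r := by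
  unfold D1s
  rcases eq_or_lt_of_le h0 with h | h
  · rw [← h]
    linarith
  · have h2 : 0 ≤ (1 - τ) * r := mul_nonneg (by linarith) hr.le
    have h3 : 0 < τ * (11 / 8 + 5 * r / 16) := mul_pos h (by linarith)
    linarith

private theorem D1s_le {τ r : ℝ} (h0 : 0 ≤ τ) (h1 : τ ≤ 1) (hr : r ≤ 2) : D1s τ r ≤ 2 := by
  unfold D1s
  have h2 : (1 - τ) * r ≤ (1 - τ) * 2 := mul_le_mul_of_nonneg_left hr (by linarith)
  have h3 : τ * (11 / 8 + 5 * r / 16) ≤ τ * 2 := mul_le_mul_of_nonneg_left (by linarith) h0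
  linarith

private theorem D1r_norm {τ : ℝ} {y : V} (h0 : 0 ≤ τ) (h1 : τ ≤ 1) (hy : y.2 ≠ 0) :
    ‖(D1r (τ, y)).2‖ = D1s τ ‖y.2‖ := by
  have hp : 0 < ‖y.2‖ := norm_pos_iff.mpr hy
  have hs := D1s_pos h0 h1 hp
  show ‖((D1s τ ‖y.2‖ / ‖y.2‖ : ℝ) : ℂ) * y.2‖ = D1s τ ‖y.2‖
  rw [norm_mul, Complex.norm_real, Real.norm_of_nonneg (by positivity)]
  field_simp

private theorem D1r_zero {y : V} (hy : y.2 ≠ 0) : D1r (0, y) = y := by
  have hp : ‖y.2‖ ≠ 0 := norm_ne_zero_iff.mpr hy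
  refine Prod.ext rfl ?_
  show ((D1s 0 ‖y.2‖ / ‖y.2‖ : ℝ) : ℂ) * y.2 = y.2
  have h1 : D1s 0 ‖y.2‖ = ‖y.2‖ := by unfold D1s; ring
  rw [h1, div_self hp]
  simp

private theorem D1r_two {τ : ℝ} {y : V} (hy : ‖y.2‖ = 2) : D1r (τ, y) = y := by
  refine Prod.ext rfl ?_
  show ((D1s τ ‖y.2‖ / ‖y.2‖ : ℝ) : ℂ) * y.2 = y.2
  have h1 : D1s τ ‖y.2‖ = 2 := by rw [hy]; unfold D1s; ring
  rw [h1, hy]
  simp

private abbrev T2 : Type := {x : V // ‖x.2‖ ≤ 2}

private instance : Nonempty T2 := ⟨⟨0, by simp⟩⟩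

private noncomputable def D1e (F : V → V) (x : T2) : V := Fh F x.1

private theorem D1e_ce {c : ℝ → V} {F : V → V} (hF : Fat2 c F) : IsClosedEmbedding (D1e F) :=
  D0_closed hF

open Classical in
private noncomputable def D1Q (F : V → V) (q : ℝ × V) : V :=
  if q.2 ∈ range (D1e F) then Fh F (D1r (q.1, (Function.invFun (D1e F) q.2).1)) else q.2

private theorem D1_inv {c : ℝ → V} {F : V → V} (hF : Fat2 c F) {y : V} (hy : ‖y.2‖ ≤ 2) :
    Function.invFun (D1e F) (Fh F y) = ⟨y, hy⟩ :=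
  Function.leftInverse_invFun (D1e_ce hF).injective ⟨y, hy⟩

private theorem D1Q_mem {c : ℝ → V} {F : V → V} (hF : Fat2 c F) {y : V} (hy : ‖y.2‖ ≤ 2) (τ : ℝ) :
    D1Q F (τ, Fh F y) = Fh F (D1r (τ, y)) := by
  unfold D1Q
  have h1 : Fh F y ∈ range (D1e F) := ⟨⟨y, hy⟩, rfl⟩
  rw [if_pos h1]
  show Fh F (D1r (τ, (Function.invFun (D1e F) (Fh F y)).1)) = _
  rw [D1_inv hF hy]

private theorem D1Q_not {F : V → V} {x : V} (hx : x ∉ range (D1e F)) (τ : ℝ) : D1Q F (τ, x) = x := by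
  unfold D1Q
  rw [if_neg hx]

private theorem D1_inv_cont {c : ℝ → V} {F : V → V} (hF : Fat2 c F) :
    ContinuousOn (Function.invFun (D1e F)) (range (D1e F)) := by
  rw [(D1e_ce hF).isInducing.continuousOn_iff]
  refine ContinuousOn.congr continuousOn_id ?_
  intro x hx
  exact Function.invFun_eq hx

private theorem D1_ne {c : ℝ → V} {F : V → V} (hF : Fat2 (cor c) F) {y : V} (h : Fh F y ∉ range c) :
    y.2 ≠ 0 := by
  intro h0
  apply h
  refine ⟨y.1, ?_⟩
  rw [← D0_core hF y.1]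
  congr 1
  exact Prod.ext rfl h0.symm

private theorem D1Q_cont {c : ℝ → V} {F : V → V} (hF : Fat2 (cor c) F) :
    Continuous (fun q : I × MV c => D1Q F ((q.1 : ℝ), q.2.1)) := by
  set A : Set (I × MV c) := {q | q.2.1 ∈ range (D1e F)} with hA
  set B : Set (I × MV c) := {q | q.2.1 ∉ Fh F '' {x | ‖x.2‖ < 2}} with hB
  have hp : Continuous (fun q : I × MV c => q.2.1) := by fun_prop
  have hAc : IsClosed A := (D1e_ce hF).isClosed_range.preimage hp
  have hopen : IsOpen (Fh F '' {x : V | ‖x.2‖ < 2}) := by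
    apply D0_open hF
    · exact isOpen_lt (by fun_prop) continuous_const
    · intro x hx
      exact hx
  have hBc : IsClosed B := hopen.isClosed_compl.preimage hp
  have hun : A ∪ B = univ := by
    rw [eq_univ_iff_forall]
    intro q
    by_cases h : q.2.1 ∈ Fh F '' {x | ‖x.2‖ < 2}
    · left
      obtain ⟨y, hy, hyq⟩ := h
      exact ⟨⟨y, le_of_lt hy⟩, hyq⟩
    · right
      exact h
  rw [← continuousOn_univ, ← hun]
  refine ContinuousOn.union_of_isClosed ?_ ?_ hAc hBc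
  · have h1 : ContinuousOn (fun q : I × MV c =>
        Fh F (D1r ((q.1 : ℝ), (Function.invFun (D1e F) q.2.1).1))) A := by
      apply (continuous_Fh hF.toFat).comp_continuousOn
      refine D1r_cont.comp ?_ ?_
      · apply ContinuousOn.prodMk
        · fun_prop
        · apply continuous_subtype_val.comp_continuousOn
          exact (D1_inv_cont hF).comp hp.continuousOn (fun q hq => hq)
      · intro q hq
        obtain ⟨y, hy⟩ := hq
        have h2 : Function.invFun (D1e F) q.2.1 = y := by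
          rw [← hy]
          exact Function.leftInverse_invFun (D1e_ce hF).injective y
        show (Function.invFun (D1e F) q.2.1).1.2 ≠ 0
        rw [h2]
        apply D1_ne hF
        have h3 := q.2.2
        rw [← hy] at h3
        exact h3
    refine h1.congr ?_
    intro q hq
    show D1Q F ((q.1 : ℝ), q.2.1) = _
    unfold D1Q
    exact if_pos hq
  · refine ContinuousOn.congr hp.continuousOn ?_
    intro q hq
    show D1Q F ((q.1 : ℝ), q.2.1) = q.2.1
    by_cases h : q.2.1 ∈ range (D1e F)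
    · obtain ⟨y, hy⟩ := h
      have h2 : ‖y.1.2‖ = 2 := by
        apply le_antisymm y.2
        by_contra hlt
        exact hq ⟨y.1, not_le.mp hlt, hy⟩
      have hy' : Fh F y.1 = q.2.1 := hy
      rw [← hy', D1Q_mem hF y.2, D1r_two h2]
    · exact D1Q_not h _

private theorem D1Q_av {c : ℝ → V} {F : V → V} (hF : Fat2 (cor c) F) (τ : I) {x : V} (hx : x ∉ range c) :
    D1Q F ((τ : ℝ), x) ∉ range c := by
  by_cases h : x ∈ range (D1e F)
  · obtain ⟨y, hy⟩ := h
    have hy' : Fh F y.1 = x := hy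
    subst hy'
    rw [D1Q_mem hF y.2]
    have h0 := D1_ne hF hx
    rintro ⟨t, ht⟩
    rw [← D0_core hF t] at ht
    have hn := D1r_norm τ.2.1 τ.2.2 h0
    have h1 : (t, (0 : ℂ)) = D1r ((τ : ℝ), y.1) := by
      apply D0_inj hF _ _ ht
      · show ‖(0 : ℂ)‖ ≤ 2
        simp
      · show ‖(D1r ((τ : ℝ), y.1)).2‖ ≤ 2
        rw [hn]
        exact D1s_le τ.2.1 τ.2.2 y.2
    have h2 := D1s_pos τ.2.1 τ.2.2 (norm_pos_iff.mpr h0)
    rw [← hn, ← h1] at h2
    simp at h2
  · rw [D1Q_not h]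
    exact hx

private theorem D1Q_zero {c : ℝ → V} {F : V → V} (hF : Fat2 (cor c) F) {x : V} (hx : x ∉ range c) :
    D1Q F (0, x) = x := by
  by_cases h : x ∈ range (D1e F)
  · obtain ⟨y, hy⟩ := h
    have hy' : Fh F y.1 = x := hy
    subst hy'
    rw [D1Q_mem hF y.2, D1r_zero (D1_ne hF hx)]
  · exact D1Q_not h _

private theorem D1Q_one {c : ℝ → V} {F : V → V} (hF : Fat2 (cor c) F) {x : V} (hx : x ∉ range c) :
    D1Q F (1, x) ∉ Thick F := by
  by_cases h : x ∈ range (D1e F)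
  · obtain ⟨y, hy⟩ := h
    have hy' : Fh F y.1 = x := hy
    subst hy'
    rw [D1Q_mem hF y.2]
    have h0 := D1_ne hF hx
    have hn := D1r_norm (τ := 1) zero_le_one le_rfl h0
    rintro ⟨w, hw, hw'⟩
    have hw2 : ‖w.2‖ ≤ 5 / 4 := hw
    have h1 : w = D1r (1, y.1) := by
      apply D0_inj hF _ _ hw'
      · show ‖w.2‖ ≤ 2
        linarith
      · show ‖(D1r ((1 : ℝ), y.1)).2‖ ≤ 2
        rw [hn]
        exact D1s_le zero_le_one le_rfl y.2
    rw [h1, hn] at hw2
    unfold D1s at hw2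
    have := norm_nonneg y.1.2
    linarith
  · rw [D1Q_not h]
    rintro ⟨w, hw, hw'⟩
    apply h
    have hw2 : ‖w.2‖ ≤ 5 / 4 := hw
    exact ⟨⟨w, by linarith⟩, hw'⟩

private theorem D1Q_xb {c : ℝ → V} {F : V → V} (hF : Fat2 (cor c) F) (τ : ℝ) : D1Q F (τ, xb) = xb := by
  apply D1Q_not
  rintro ⟨y, hy⟩
  exact D0_xb hF y.1 y.2 hy

private theorem D1_cmp_av {c : ℝ → V} {F : V → V} (hF : Fat2 (cor c) F) {w : V} (hw : w ∉ Thick F) :
    cmp w ∉ Thick F := by
  have e1 : cmpH ((1 : I), w) = cmp w := by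
    unfold cmpH
    simp
  intro hmem
  obtain ⟨y, hy, hy'⟩ := id hmem
  have hn : ‖(cmp w).2‖ ≤ 5 / 4 := by
    rw [← hy']
    exact D0_thin hF y hy
  have h1 : ‖w.2‖ ≤ 3 / 2 := by
    by_contra hcon
    have h2 := DC_norm (1 : I) w (le_of_lt (not_le.mp hcon))
    rw [e1] at h2
    linarith
  have h2 := DC_snd (1 : I) w h1
  rw [e1] at h2
  rw [h2] at hn
  rcases le_total |w.1| 4 with h4 | h4
  · have h5 := DC_fix (1 : I) w h4 h1
    rw [e1] at h5
    rw [h5] at hmem
    exact hw hmem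
  · exact hw ⟨w, hn, D0_std hF w h4⟩

theorem D1 {c : ℝ → V} {F : V → V} (hc : VKnot c) (hF : Fat2 (cor c) F) (x : PiM hc) :
    ∃ (ζ : Path xb xb) (γ : Path (xM hc) (xM hc)), (∀ u, InBox (ζ u)) ∧ (∀ u, ζ u ∉ Thick F) ∧
      (∀ u, (γ u).1 = ζ u) ∧ x = cls γ := by
  have hcH : Continuous cmpH := DC_contH
  have hxb4 : |xb.1| ≤ 4 ∧ ‖xb.2‖ ≤ 3 / 2 := by
    refine ⟨by norm_num [xb], ?_⟩
    simp only [xb]
    rw [show (3 / 2 : ℂ) = ((3 / 2 : ℝ) : ℂ) by push_cast; ring, Complex.norm_real]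
    norm_num
  -- the combined homotopy
  let G : I × MV c → MV c := fun q =>
    ⟨cmpH (q.1, D1Q F ((q.1 : ℝ), q.2.1)), DC_av hc q.1 _ (D1Q_av hF q.1 q.2.2)⟩
  have hG : Continuous G := by
    apply Continuous.subtype_mk
    exact hcH.comp (continuous_fst.prodMk (D1Q_cont hF))
  have hG0 : ∀ y : MV c, G (0, y) = y := by
    intro y
    apply Subtype.ext
    show cmpH ((0 : I), D1Q F (((0 : I) : ℝ), y.1)) = y.1
    rw [show ((0 : I) : ℝ) = 0 from rfl, D1Q_zero hF y.2]
    unfold cmpH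
    simp
  have hGx : ∀ τ : I, G (τ, xM hc) = xM hc := by
    intro τ
    apply Subtype.ext
    show cmpH (τ, D1Q F ((τ : ℝ), xb)) = xb
    rw [D1Q_xb hF]
    exact DC_fix τ xb hxb4.1 hxb4.2
  have hG1 : ∀ y : MV c, InBox (G (1, y)).1 ∧ (G (1, y)).1 ∉ Thick F := by
    intro y
    have e1 : (G (1, y)).1 = cmp (D1Q F (1, y.1)) := by
      show cmpH ((1 : I), D1Q F (((1 : I) : ℝ), y.1)) = _
      rw [show ((1 : I) : ℝ) = 1 from rfl]
      unfold cmpH
      simp
    rw [e1]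
    exact ⟨DC_box _, D1_cmp_av hF (D1Q_one hF y.2)⟩
  induction x using Path.Homotopic.Quotient.ind with
  | mk γ0 =>
    let γ : Path (xM hc) (xM hc) :=
      { toFun := fun u => G (1, γ0 u)
        continuous_toFun := hG.comp (continuous_const.prodMk γ0.continuous)
        source' := by rw [γ0.source]; exact hGx 1
        target' := by rw [γ0.target]; exact hGx 1 }
    let ζ : Path xb xb :=
      { toFun := fun u => (γ u).1
        continuous_toFun := continuous_subtype_val.comp γ.continuous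
        source' := by rw [γ.source]; rfl
        target' := by rw [γ.target]; rfl }
    refine ⟨ζ, γ, fun u => (hG1 (γ0 u)).1, fun u => (hG1 (γ0 u)).2, fun u => rfl, ?_⟩
    have hh : Path.Homotopic γ0 γ := by
      refine ⟨{ toFun := fun q => G (q.1, γ0 q.2)
                continuous_toFun := hG.comp (continuous_fst.prodMk (γ0.continuous.comp continuous_snd))
                map_zero_left := fun u => hG0 (γ0 u)
                map_one_left := fun u => rfl
                prop' := ?_ }⟩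
      intro τ u hu
      show G (τ, γ0 u) = γ0 u
      rcases hu with hu | hu
      · rw [hu, γ0.source]
        exact hGx τ
      · rw [show u = 1 from hu, γ0.target]
        exact hGx τ
    exact congrArg FundamentalGroup.fromPath (Path.Homotopic.Quotient.eq.2 hh)

end LQ
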