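import Pool.Agent.H64.LQ.T8

/-!
# T9: the transport homomorphism

For a path `α` of long knots from `g` to `g'` choose an ambient isotopy `(A, Ai)` (T7). `A_1` maps the complement of `g` homeomorphically onto that of `g'`
(`A(1, g t) = g' t`) and fixes `xb` (T8_norm, far), hence induces a homomorphism `PiM hg →* PiM hg'`; by T8 (with `α = β`) it does not depend on the choice
of the isotopy. This is `Tr hg hg' α`.
T9_spec: for every ambient isotopy covering `α`, `Tr (cls γ) = cls (A_1 ∘ γ)`.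
T9_hom: homotopic paths have the same transport (T8).
T9_trans: `Tr (α.trans β) = Tr β ∘ Tr α`: if `(A, Ai)` covers `α` and `(B, Bi)` covers `β`, then `C(θ, x) = A(2θ, x)` for `θ ≤ 1/2`, `B(2θ - 1, A(1, x))` for `θ ≥ 1/2`
covers `α.trans β` (equivalently `C(θ, x) = B(max 0 (2θ-1), A(min 1 (2θ), x))`, continuous at once).
T9_refl: `Tr (refl) = id` (the constant isotopy).
T9_family: if `γ : C(I × I, V)`, `γ(s, u)` is not on the curve `α s`, `γ(s, 0) = γ(s, 1) = xb`, then `Tr α (cls γ(0,·)) = cls γ(1,·)`: for an ambient isotopy `(A, Ai)` covering `α`,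
`(s, u) ↦ Ai(s, γ(s, u))` is a homotopy of loops in `MV g` (if `Ai(s, y) = g t` then `y = A(s, g t)`, `toE y = (α s).1 t`) from `γ(0,·)` to `Ai_1 ∘ γ(1,·)`; apply
`A_1`.
T9_mer: the meridian (`‖toE (merPt θ)‖² = 4 + 9/4`) is fixed: `Tr (cls m) = cls m'` for the meridian loops `m`, `m'` of the complements of `g`, `g'`.
-/

open scoped ContDiff unitInterval
open Topology Set

namespace LQ

open LK

/-- every element of the fundamental group is the class of a loop -/
theorem T9_surj {X : Type*} [TopologicalSpace X] {x : X} (q : FundamentalGroup X x) :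
    ∃ p : Path x x, cls p = q :=
  Path.Homotopic.Quotient.mk_surjective q

theorem T9_cls {X : Type*} [TopologicalSpace X] {x : X} {p q : Path x x} (h : p.Homotopic q) :
    cls p = cls q :=
  Path.Homotopic.Quotient.eq.2 h

theorem T9_mem {g g' : ℝ → V} {hg : VKnot g} {hg' : VKnot g'} {α : Path (mkK hg) (mkK hg')}
    {A Ai : C(I × V, V)} (hA : Amb hg hg' α A Ai) {x : V} (hx : x ∉ range g) :
    A (1, x) ∉ range g' := by
  rintro ⟨t, ht⟩
  have h1 : toE (g' t) = toE (A (1, g t)) := by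
    have := hA.cover 1 t
    rw [α.target] at this
    exact this
  have h2 : A (1, x) = A (1, g t) := by
    rw [← ht]
    exact toE.injective h1
  have h3 := hA.left 1 x
  rw [h2, hA.left] at h3
  exact hx ⟨t, h3⟩

theorem T9_base {g g' : ℝ → V} {hg : VKnot g} {hg' : VKnot g'} {α : Path (mkK hg) (mkK hg')}
    {A Ai : C(I × V, V)} (hA : Amb hg hg' α A Ai) (θ : I) : A (θ, xb) = xb :=
  hA.far θ xb T8_norm

/-- the homeomorphism of the complements at the end of the isotopy, as a continuous map -/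
noncomputable def T9_f {g g' : ℝ → V} {hg : VKnot g} {hg' : VKnot g'}
    {α : Path (mkK hg) (mkK hg')} {A Ai : C(I × V, V)} (hA : Amb hg hg' α A Ai) :
    C(MV g, MV g') :=
  ⟨fun x => ⟨A (1, x.1), T9_mem hA x.2⟩, by fun_prop⟩

theorem T9_f_base {g g' : ℝ → V} {hg : VKnot g} {hg' : VKnot g'}
    {α : Path (mkK hg) (mkK hg')} {A Ai : C(I × V, V)} (hA : Amb hg hg' α A Ai) :
    T9_f hA (xM hg) = xM hg' :=
  Subtype.ext (T9_base hA 1)

/-- the image of a loop -/
noncomputable def T9_push {g g' : ℝ → V} {hg : VKnot g} {hg' : VKnot g'}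
    {α : Path (mkK hg) (mkK hg')} {A Ai : C(I × V, V)} (hA : Amb hg hg' α A Ai)
    (γ : Path (xM hg) (xM hg)) : Path (xM hg') (xM hg') :=
  (γ.map (T9_f hA).continuous).cast (T9_f_base hA).symm (T9_f_base hA).symm

theorem T9_push_apply {g g' : ℝ → V} {hg : VKnot g} {hg' : VKnot g'}
    {α : Path (mkK hg) (mkK hg')} {A Ai : C(I × V, V)} (hA : Amb hg hg' α A Ai)
    (γ : Path (xM hg) (xM hg)) (u : I) : (T9_push hA γ u).1 = A (1, (γ u).1) := rfl

theorem T9_ex {g g' : ℝ → V} (hg : VKnot g) (hg' : VKnot g') (α : Path (mkK hg) (mkK hg')) :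
    ∃ T : PiM hg →* PiM hg', ∀ (A Ai : C(I × V, V)), Amb hg hg' α A Ai →
      ∀ (γ : Path (xM hg) (xM hg)) (γ1 : Path (xM hg') (xM hg')),
        (∀ u, (γ1 u).1 = A (1, (γ u).1)) → T (cls γ) = cls γ1 := by
  obtain ⟨A0, Ai0, hA0⟩ := T7 hg hg' α
  refine ⟨FundamentalGroup.mapOfEq (T9_f hA0) (T9_f_base hA0), ?_⟩
  intro A Ai hA γ γ1 h1
  have e : FundamentalGroup.mapOfEq (T9_f hA0) (T9_f_base hA0) (cls γ) =
      cls (T9_push hA0 γ) := by
    rw [FundamentalGroup.mapOfEq_apply]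
    rfl
  rw [e]
  exact T9_cls (T8 hg hg' α α (Path.Homotopic.refl α) A0 Ai0 A Ai hA0 hA γ (T9_push hA0 γ) γ1
    (fun u => T9_push_apply hA0 γ u) h1)

/-- The transport homomorphism. -/
noncomputable def Tr {g g' : ℝ → V} (hg : VKnot g) (hg' : VKnot g')
    (α : Path (mkK hg) (mkK hg')) : PiM hg →* PiM hg' := (T9_ex hg hg' α).choose

theorem T9_spec {g g' : ℝ → V} (hg : VKnot g) (hg' : VKnot g') (α : Path (mkK hg) (mkK hg'))
    (A Ai : C(I × V, V)) (hA : Amb hg hg' α A Ai) (γ : Path (xM hg) (xM hg))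
    (γ1 : Path (xM hg') (xM hg')) (h : ∀ u, (γ1 u).1 = A (1, (γ u).1)) :
    Tr hg hg' α (cls γ) = cls γ1 :=
  (T9_ex hg hg' α).choose_spec A Ai hA γ γ1 h

theorem T9_hom {g g' : ℝ → V} (hg : VKnot g) (hg' : VKnot g') (α β : Path (mkK hg) (mkK hg'))
    (h : α.Homotopic β) : Tr hg hg' α = Tr hg hg' β := by
  ext q
  obtain ⟨γ, rfl⟩ := T9_surj q
  obtain ⟨A, Ai, hA⟩ := T7 hg hg' α
  obtain ⟨B, Bi, hB⟩ := T7 hg hg' β
  rw [T9_spec hg hg' α A Ai hA γ (T9_push hA γ) fun u => T9_push_apply hA γ u,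
    T9_spec hg hg' β B Bi hB γ (T9_push hB γ) fun u => T9_push_apply hB γ u]
  exact T9_cls (T8 hg hg' α β h A Ai B Bi hA hB γ _ _ (fun u => T9_push_apply hA γ u)
    fun u => T9_push_apply hB γ u)

theorem T9_amb_trans {g g' g'' : ℝ → V} {hg : VKnot g} {hg' : VKnot g'} {hg'' : VKnot g''}
    {α : Path (mkK hg) (mkK hg')} {β : Path (mkK hg') (mkK hg'')} {A Ai B Bi : C(I × V, V)}
    (hA : Amb hg hg' α A Ai) (hB : Amb hg' hg'' β B Bi) :
    ∃ C Ci : C(I × V, V), Amb hg hg'' (α.trans β) C Ci ∧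
      ∀ x, C (1, x) = B (1, A (1, x)) := by
  set p : I → I := fun θ => projIcc 0 1 zero_le_one (2 * (θ : ℝ)) with hp
  set q : I → I := fun θ => projIcc 0 1 zero_le_one (2 * (θ : ℝ) - 1) with hq
  have hpc : Continuous p := by rw [hp]; fun_prop
  have hqc : Continuous q := by rw [hq]; fun_prop
  have p1 : p 1 = 1 := by
    rw [hp]; exact projIcc_of_right_le _ (by norm_num)
  have q1 : q 1 = 1 := by
    rw [hq]; exact projIcc_of_right_le _ (by norm_num)
  have p0 : p 0 = 0 := by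
    rw [hp]; exact projIcc_of_le_left _ (by norm_num)
  have q0 : ∀ θ : I, (θ : ℝ) ≤ 1 / 2 → q θ = 0 := fun θ h => by
    rw [hq]; exact projIcc_of_le_left _ (by linarith)
  refine ⟨⟨fun z => B (q z.1, A (p z.1, z.2)), by fun_prop⟩,
    ⟨fun z => Ai (p z.1, Bi (q z.1, z.2)), by fun_prop⟩, ⟨?_, ?_, ?_, ?_, ?_⟩, ?_⟩
  · intro θ x
    show Ai (p θ, Bi (q θ, B (q θ, A (p θ, x)))) = x
    rw [hB.left, hA.left]
  · intro θ x
    show B (q θ, A (p θ, Ai (p θ, Bi (q θ, x)))) = x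
    rw [hA.right, hB.right]
  · intro x
    show B (q 0, A (p 0, x)) = x
    rw [q0 0 (by norm_num), p0, hB.zero, hA.zero]
  · intro θ t
    show ((α.trans β) θ).1 t = toE (B (q θ, A (p θ, g t)))
    rw [Path.trans_apply]
    split_ifs with h
    · rw [q0 θ h, hB.zero, hA.cover]
      congr 3
      rw [hp]
      exact (projIcc_of_mem zero_le_one _).symm
    · have h' : (1 : ℝ) ≤ 2 * θ := by linarith
      have e1 : p θ = 1 := by
        rw [hp]; exact projIcc_of_right_le _ h'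
      have e2 : A (1, g t) = g' t := by
        apply toE.injective
        rw [← hA.cover 1 t, α.target]
        rfl
      rw [e1, e2, hB.cover]
      congr 3
      rw [hq]
      exact (projIcc_of_mem zero_le_one _).symm
  · intro θ x hx
    show B (q θ, A (p θ, x)) = x
    rw [hA.far _ x hx, hB.far _ x hx]
  · intro x
    show B (q 1, A (p 1, x)) = B (1, A (1, x))
    rw [p1, q1]

theorem T9_trans {g g' g'' : ℝ → V} (hg : VKnot g) (hg' : VKnot g') (hg'' : VKnot g'')
    (α : Path (mkK hg) (mkK hg')) (β : Path (mkK hg') (mkK hg'')) :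
    Tr hg hg'' (α.trans β) = (Tr hg' hg'' β).comp (Tr hg hg' α) := by
  ext q
  obtain ⟨γ, rfl⟩ := T9_surj q
  obtain ⟨A, Ai, hA⟩ := T7 hg hg' α
  obtain ⟨B, Bi, hB⟩ := T7 hg' hg'' β
  obtain ⟨C, Ci, hC, hC1⟩ := T9_amb_trans hA hB
  rw [MonoidHom.comp_apply,
    T9_spec hg hg' α A Ai hA γ (T9_push hA γ) fun u => T9_push_apply hA γ u,
    T9_spec hg' hg'' β B Bi hB (T9_push hA γ) (T9_push hB (T9_push hA γ))
      fun u => T9_push_apply hB _ u]
  refine T9_spec hg hg'' (α.trans β) C Ci hC γ _ fun u => ?_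
  rw [T9_push_apply, T9_push_apply, hC1]

theorem T9_refl {g : ℝ → V} (hg : VKnot g) :
    Tr hg hg (Path.refl (mkK hg)) = MonoidHom.id _ := by
  ext q
  obtain ⟨γ, rfl⟩ := T9_surj q
  have hA : Amb hg hg (Path.refl (mkK hg)) ⟨fun z : I × V => z.2, continuous_snd⟩
      ⟨fun z : I × V => z.2, continuous_snd⟩ :=
    ⟨fun _ _ => rfl, fun _ _ => rfl, fun _ => rfl, fun _ _ => rfl, fun _ _ _ => rfl⟩
  rw [T9_spec hg hg _ _ _ hA γ γ fun u => rfl]
  rfl

theorem T9_family {g g' : ℝ → V} (hg : VKnot g) (hg' : VKnot g') (α : Path (mkK hg) (mkK hg'))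
    (γ : C(I × I, V)) (h : ∀ s u t, (α s).1 t ≠ toE (γ (s, u)))
    (h0 : ∀ s, γ (s, 0) = xb) (h1 : ∀ s, γ (s, 1) = xb)
    (γ0 : Path (xM hg) (xM hg)) (γ1 : Path (xM hg') (xM hg'))
    (e0 : ∀ u, (γ0 u).1 = γ (0, u)) (e1 : ∀ u, (γ1 u).1 = γ (1, u)) :
    Tr hg hg' α (cls γ0) = cls γ1 := by
  obtain ⟨A, Ai, hA⟩ := T7 hg hg' α
  have hmem : ∀ p : I × I, Ai (p.1, γ p) ∉ range g := by
    rintro ⟨s, u⟩ ⟨t, ht⟩
    refine h s u t ?_
    rw [hA.cover s t, ht, hA.right]
  have hAi0 : ∀ x, Ai (0, x) = x := fun x => by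
    have := hA.left 0 x
    rwa [hA.zero] at this
  have hAib : ∀ s, Ai (s, xb) = xb := fun s => by
    have := hA.left s xb
    rwa [T9_base hA] at this
  let δ : Path (xM hg) (xM hg) :=
    { toFun := fun u => ⟨Ai (1, γ (1, u)), hmem (1, u)⟩
      continuous_toFun := Continuous.subtype_mk (by fun_prop) _
      source' := Subtype.ext (by
        show Ai (1, γ (1, 0)) = xb
        rw [h0, hAib])
      target' := Subtype.ext (by
        show Ai (1, γ (1, 1)) = xb
        rw [h1, hAib]) }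
  have hδ : γ0.Homotopic δ := by
    refine ⟨{ toFun := fun p => ⟨Ai (p.1, γ p), hmem p⟩
              continuous_toFun := Continuous.subtype_mk (by fun_prop) _
              map_zero_left := fun u => Subtype.ext ?_
              map_one_left := fun u => Subtype.ext ?_
              prop' := ?_ }⟩
    · show Ai (0, γ (0, u)) = (γ0 u).1
      rw [hAi0, e0]
    · rfl
    · intro s u hu
      apply Subtype.ext
      show Ai (s, γ (s, u)) = (γ0 u).1
      rcases hu with hu | hu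
      · subst hu
        rw [h0, hAib, γ0.source]
        rfl
      · rw [mem_singleton_iff] at hu
        subst hu
        rw [h1, hAib, γ0.target]
        rfl
  rw [T9_cls hδ]
  refine T9_spec hg hg' α A Ai hA δ γ1 fun u => ?_
  show (γ1 u).1 = A (1, Ai (1, γ (1, u)))
  rw [hA.right, e1]

theorem T9_mer {g g' : ℝ → V} (hg : VKnot g) (hg' : VKnot g') (α : Path (mkK hg) (mkK hg'))
    (m : Path (xM hg) (xM hg)) (m' : Path (xM hg') (xM hg')) (hm : IsMer hg m)
    (hm' : IsMer hg' m') : Tr hg hg' α (cls m) = cls m' := by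
  obtain ⟨A, Ai, hA⟩ := T7 hg hg' α
  refine T9_spec hg hg' α A Ai hA m m' fun u => ?_
  rw [hm' u, hm u, hA.far]
  have h1 := norm_toE_sq (merPt u)
  have h2 : ‖(merPt u).2‖ = 3 / 2 := by
    show ‖(3 / 2 : ℂ) * Complex.exp (2 * Real.pi * (u : ℝ) * Complex.I)‖ = 3 / 2
    rw [norm_mul, show (2 * Real.pi * (u : ℝ) * Complex.I : ℂ) =
      ((2 * Real.pi * (u : ℝ) : ℝ) : ℂ) * Complex.I by push_cast; ring,
      Complex.norm_exp_ofReal_mul_I, show (3 / 2 : ℂ) = ((3 / 2 : ℝ) : ℂ) by push_cast; ring,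
      Complex.norm_real]
    norm_num
  have h3 : (merPt u).1 = -2 := rfl
  rw [h2, h3] at h1
  nlinarith [norm_nonneg (toE (merPt u))]

end LQ
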