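import Pool.Agent.H64.LQ.E0
import Pool.Agent.H64.LQ.T9

/-!
# E2: the loops around the inner knot are dragged along the outer knot

Setting: fat knots `F` (outer), `G` (inner), `H` (third), positions `-1/4 ≤ lo`, `lo + 1/4 ≤ hi ≤ 1/4`, `|c| ≤ 1/4`, and `c` at distance at least `1/4` from the
interval `[lo, hi]`. `gA` is the curve of `Com F G H hi lo c`, `gB` that of `Com F G H lo hi c`, `α` the path of knots
`s ↦ ` curve of `Swp F G H lo hi c (s, 0)`, i.e. `t ↦ Lj F b (Lj G a (Lj H c (t, 0)))` with `b = hi - s(hi - lo)`, `a = lo + s(hi - lo)`.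
All the curves have `‖second coordinate‖ ≤ 5/16` (E0_thin), so the half space `Re x.2 ≥ 3/8` (convex) is never met; it contains `xb` and `Aff a xb = (a - 1/16, 3/8)`.

E2: for a loop `ζ` of the box avoiding the curve `cG`: the transport along `α` of `sig lo ζ` is the loop
`ℓ · sig hi ζ · ℓ⁻¹`, `ℓ = sig lo (ellP F)`.
Proof. Let `D0 = lineP xb (Aff lo eL)` (`Aff lo eL = (lo - 1/8, 3/8)`), and for `a ∈ [lo, hi]` let `hor a` be the straight (horizontal) path from `Aff lo eL` to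
`Aff a xb = (a - 1/16, 3/8)`. Consider the family of loops at `xb`:
`γ_s = D0 · [Lj F b ∘ hor a] · [Lj F b ∘ Aff a ∘ ζ] · [Lj F b ∘ hor a]⁻¹ · D0⁻¹`, `b = hi - s(hi-lo)`, `a = lo + s(hi-lo)` (`Lj F b` fixes `Aff lo eL`, since
`|lo - 1/8 - b| ≥ 1/8`). It avoids the curve of time `s`: `D0` has `Re x.2 ≥ 3/8 > 5/16`; for the rest use injectivity of `Lj F b` on the tube (E0_inj; all the
points considered are in the tube): a point of `hor a` has `‖x.2‖ = 3/8 > 5/16 ≥ ‖inner(t).2‖`; and `Aff a (ζ u) = inner(t) = Lj G a (Lj H c (t, 0))`: if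
`|t - a| ≤ 1/8`, then `Lj H c (t,0) = (t, 0)` (as `|t - c| ≥ 1/8`), `inner(t) = Aff a (cG (32(t - a)))` (E0_axis), so `ζ u` is on `cG`, contradiction. If `|t - a| > 1/8` and
`|t - c| ≥ 1/8`: `inner(t) = (t, 0)` has first coordinate outside of `[a - 1/8, a + 1/8]`, contradiction. If `|t - c| < 1/8`: `inner(t) = Aff c (cH (32 (t - c)))` with first coordinate in
the open interval `(c - 1/8, c + 1/8)` (`cH` is a long knot: `|cH(v).1| ≤ 1` for `|v| ≤ 1` and `cH v = (v, 0)` for `|v| ≥ 1`; this needs `VKnot cH`, given), disjoint from `[a-1/8, a+1/8]`.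
At `s = 0`: `b = hi`, `a = lo`: everything has first coordinate `≤ lo + 1/8 ≤ hi - 1/8`, so `Lj F hi` is the identity there, and `γ_0 = D0 · hor lo · (Aff lo ζ) · ...`;
`D0 · hor lo` is homotopic to `lineP xb (Aff lo xb)` inside the convex set `{Re x.2 ≥ 3/8}`, so `γ_0 ≃ sig lo ζ` in the complement of `gA`.
At `s = 1`: `b = lo`, `a = hi`: `Lj F lo` is the identity on `Aff hi ζ` (first coordinate `≥ hi - 1/8 ≥ lo + 1/8`) and on the part of `hor hi` with first coordinate
`≥ lo + 1/8`. By E0_aff, `Lj F lo` of the horizontal segment from `Aff lo eL` to `Aff lo eR` is `Aff lo ∘ (Fh F ∘ lineP eL eR)`. So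
`D0 · [Lj F lo ∘ hor hi] ≃ lineP xb (Aff lo xb) · [Aff lo ∘ ellP] · lineP (Aff lo xb) xb · lineP xb (Aff hi xb) ≃ ℓ · lineP xb (Aff hi xb)`, all the straight pieces being in the
convex set `{Re x.2 ≥ 3/8}`; hence `γ_1 ≃ ℓ · sig hi ζ · ℓ⁻¹` in the complement of `gB`. Conclude with T9_family.
(Reparametrisations: it is convenient to work with concatenations in the fundamental groupoid of the complement, and to realise the family as
a jointly continuous function by `Path.trans_continuous_family`.)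
-/

open scoped ContDiff unitInterval
open Topology Set

namespace LQ

open LK

private def E2_up {g : ℝ → V} {x y : MV g} (p : I → V) (hc : Continuous p)
    (h : ∀ u, p u ∉ range g) (h0 : p 0 = x.1) (h1 : p 1 = y.1) : Path x y where
  toFun u := ⟨p u, h u⟩
  continuous_toFun := Continuous.subtype_mk hc _
  source' := Subtype.ext h0
  target' := Subtype.ext h1

private theorem E2_trf {g : ℝ → V} {x y z : MV g} (p : Path x y) (q : Path y z) {x' y' z' : V}
    (P : Path x' y') (Q : Path y' z') (f : V → V) (hp : ∀ u, (p u).1 = f (P u))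
    (hq : ∀ u, (q u).1 = f (Q u)) (u : I) : ((p.trans q) u).1 = f ((P.trans Q) u) := by
  rw [Path.trans_apply, Path.trans_apply]
  split_ifs
  · exact hp _
  · exact hq _

private theorem E2_tr {g : ℝ → V} {x y z : MV g} (p : Path x y) (q : Path y z) {x' y' z' : V}
    (P : Path x' y') (Q : Path y' z') (hp : ∀ u, (p u).1 = P u)
    (hq : ∀ u, (q u).1 = Q u) (u : I) : ((p.trans q) u).1 = (P.trans Q) u :=
  E2_trf p q P Q (fun x => x) hp hq u

private theorem E2_mem {x y z : V} (P : Path x y) (Q : Path y z) (S : V → Prop)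
    (hP : ∀ u, S (P u)) (hQ : ∀ u, S (Q u)) (u : I) : S ((P.trans Q) u) := by
  rw [Path.trans_apply]
  split_ifs
  · exact hP _
  · exact hQ _

private theorem E2_line {K : Set V} (hK : Convex ℝ K) {x y : V} (hx : x ∈ K) (hy : y ∈ K)
    (u : I) : lineP x y u ∈ K :=
  hK hx hy (by linarith [u.2.2]) u.2.1 (by ring)

private theorem E2_convf {g : ℝ → V} {f : V → V} (hf : Continuous f) {K : Set V}
    (hK : Convex ℝ K) (hd : ∀ x ∈ K, f x ∉ range g) {x y : MV g} (p q : Path x y) {x' y' : V}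
    (P Q : Path x' y') (hP : ∀ u, P u ∈ K) (hQ : ∀ u, Q u ∈ K)
    (ep : ∀ u, (p u).1 = f (P u)) (eq : ∀ u, (q u).1 = f (Q u)) : p.Homotopic q := by
  refine ⟨{ toFun := fun z => ⟨f ((1 - (z.1 : ℝ)) • P z.2 + (z.1 : ℝ) • Q z.2), hd _ (hK (hP _)
              (hQ _) (by linarith [z.1.2.2]) z.1.2.1 (by ring))⟩
            continuous_toFun := Continuous.subtype_mk (hf.comp (by fun_prop)) _
            map_zero_left := fun u => Subtype.ext ?_
            map_one_left := fun u => Subtype.ext ?_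
            prop' := ?_ }⟩
  · show f ((1 - ((0 : I) : ℝ)) • P u + ((0 : I) : ℝ) • Q u) = (p u).1
    rw [ep]; simp
  · show f ((1 - ((1 : I) : ℝ)) • P u + ((1 : I) : ℝ) • Q u) = (q u).1
    rw [eq]; simp
  · intro s u hu
    apply Subtype.ext
    show f ((1 - (s : ℝ)) • P u + (s : ℝ) • Q u) = (p u).1
    rw [ep]
    have h : Q u = P u := by
      rcases hu with hu | hu
      · subst hu
        rw [P.source, Q.source]
      · rw [mem_singleton_iff] at hu
        subst hu
        rw [P.target, Q.target]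
    rw [h, ← add_smul]
    simp

private theorem E2_G0 {X : Type*} [TopologicalSpace X] {x y z : X} (P : Path x y) (Q : Path y z)
    (L : Path x z) (Z : Path z z) (h : (P.trans Q).Homotopic L) :
    (P.trans ((Q.trans (Z.trans Q.symm)).trans P.symm)).Homotopic
      (L.trans (Z.trans L.symm)) := by
  have h1 : ((P.trans Q).trans (Z.trans (P.trans Q).symm)).Homotopic
      (L.trans (Z.trans L.symm)) :=
    h.hcomp ((Path.Homotopic.refl Z).hcomp h.symm₂)
  refine Path.Homotopic.trans ?_ h1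
  rw [← Path.Homotopic.Quotient.eq, Path.trans_symm]
  simp only [Path.Homotopic.Quotient.mk_trans, Path.Homotopic.Quotient.trans_assoc]

private theorem E2_G1 {X : Type*} [TopologicalSpace X] {x y z : X} (P : Path x y) (Q : Path y z)
    (l : Path x x) (L : Path x z) (Z : Path z z) (h : (P.trans Q).Homotopic (l.trans L)) :
    (P.trans ((Q.trans (Z.trans Q.symm)).trans P.symm)).Homotopic
      (l.trans ((L.trans (Z.trans L.symm)).trans l.symm)) :=
  (E2_G0 P Q _ Z h).trans (E2_G0 l L _ Z (Path.Homotopic.refl _)).symm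

private theorem E2_G2 {X : Type*} [TopologicalSpace X] {x y w z v : X} (D : Path x y)
    (M : Path y w) (T : Path w z) (L : Path x v) (A : Path v y) (B : Path w v) (R : Path x z)
    (h1 : D.Homotopic (L.trans A)) (h2 : T.Homotopic (B.trans (L.symm.trans R))) :
    (D.trans (M.trans T)).Homotopic
      ((L.trans ((A.trans (M.trans B)).trans L.symm)).trans R) := by
  refine Path.Homotopic.trans (h1.hcomp ((Path.Homotopic.refl M).hcomp h2)) ?_
  rw [← Path.Homotopic.Quotient.eq]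
  simp only [Path.Homotopic.Quotient.mk_trans, Path.Homotopic.Quotient.trans_assoc]

private theorem E2_K {cF cG cH : ℝ → V} {F G H : V → V} (hF : Fat2 (cor cF) F)
    (hG : Fat2 (cor cG) G) (hH : Fat2 (cor cH) H) (b a c : ℝ) {x : V}
    (hx : (3 / 8 : ℝ) ≤ x.2.re) (t : ℝ) : x ≠ Com F G H b a c (t, 0) := by
  intro h
  have h1 : ‖(Com F G H b a c (t, 0)).2‖ ≤ 5 / 16 :=
    E0_thin hF _ _ (E0_thin hG _ _ (E0_thin hH _ _ (by simp; norm_num)))
  rw [← h] at h1
  have h2 := Complex.re_le_norm x.2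
  linarith

private theorem E2_far {cF : ℝ → V} {F : V → V} (hF : Fat2 (cor cF) F) {a b : ℝ}
    (hab : 1 / 4 ≤ |a - b|) {x : V} (hx : |x.1| ≤ 4) : Lj F b (Aff a x) = Aff a x := by
  apply E0_std hF
  show 1 / 8 ≤ |x.1 / 32 + a - b|
  have h1 : |a - b| ≤ |x.1 / 32 + a - b| + |x.1 / 32| := by
    have h := abs_sub (x.1 / 32 + a - b) (x.1 / 32)
    rwa [show x.1 / 32 + a - b - x.1 / 32 = a - b by ring] at h
  have h2 : |x.1 / 32| = |x.1| / 32 := by
    rw [abs_div]; norm_num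
  linarith

private theorem E2_lt {c : ℝ → V} (hc : VKnot c) {v : ℝ} (hv : |v| < 4) : |(c v).1| < 4 := by
  by_cases h : |v| ≤ 1
  · have h1 := hc.inBall v h
    have h2 : (c v).1 ^ 2 ≤ 1 := by nlinarith [sq_nonneg ‖(c v).2‖]
    have h3 : |(c v).1| ≤ 1 := by
      rwa [← sq_le_one_iff_abs_le_one]
    linarith
  · rw [hc.standard v (not_le.1 h).le]
    exact hv

private theorem E2_good {cF cG cH : ℝ → V} {F G H : V → V} (hF : Fat2 (cor cF) F)
    (hG : Fat2 (cor cG) G) (hH : Fat2 (cor cH) H) (hcH : VKnot cH) {a c : ℝ} (b : ℝ)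
    (hac : 1 / 4 ≤ |c - a|) (ζ : Path xb xb) (hbox : ∀ u, InBox (ζ u))
    (hav : ∀ u, ζ u ∉ range cG) {w : V} (hw : w.2 = 3 / 8 ∨ ∃ u, w = Aff a (ζ u)) (t : ℝ) :
    Lj F b w ≠ Com F G H b a c (t, 0) := by
  intro h
  have hin : ‖(Lj G a (Lj H c (t, 0))).2‖ ≤ 5 / 16 :=
    E0_thin hG _ _ (E0_thin hH _ _ (by simp; norm_num))
  have ht : w ∈ tube := by
    rcases hw with hw | ⟨u, rfl⟩
    · show ‖w.2‖ ≤ 1 / 2
      rw [hw]
      norm_num
    · show ‖(ζ u).2 / 4‖ ≤ 1 / 2
      have h1 := (hbox u).2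
      rw [norm_div, show ‖(4 : ℂ)‖ = 4 by norm_num]
      linarith
  have h2 : w = Lj G a (Lj H c (t, 0)) :=
    E0_inj hF b ht (show ‖(Lj G a (Lj H c (t, 0))).2‖ ≤ 1 / 2 by linarith) h
  rcases hw with hw | ⟨u, rfl⟩
  · rw [← h2, hw] at hin
    norm_num at hin
  · by_cases hc : |t - c| < 1 / 8
    · have e1 : Lj H c (t, 0) = Aff c (cH (32 * (t - c))) := E0_axis hH c t
      have e2 : |(cH (32 * (t - c))).1| < 4 := by
        apply E2_lt hcH
        rw [abs_mul, abs_of_pos (by norm_num : (0 : ℝ) < 32)]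
        linarith
      rw [e1, E2_far hG hac e2.le] at h2
      have e3 : (ζ u).1 / 32 + a = (cH (32 * (t - c))).1 / 32 + c := congrArg Prod.fst h2
      have e4 := (hbox u).1
      rw [abs_lt] at e2
      rw [abs_le] at e4
      rcases le_abs'.1 hac with h7 | h7 <;> linarith
    · rw [not_lt] at hc
      rw [E0_std hH c (t, 0) hc, E0_axis hG a t] at h2
      refine hav u ⟨32 * (t - a), ?_⟩
      have e1 : (ζ u).1 / 32 + a = (cG (32 * (t - a))).1 / 32 + a := congrArg Prod.fst h2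
      have e2 : (ζ u).2 / 4 = (cG (32 * (t - a))).2 / 4 := congrArg Prod.snd h2
      refine Prod.ext ?_ ?_
      · linarith
      · have h8 : (ζ u).2 / 4 * 4 = (cG (32 * (t - a))).2 / 4 * 4 := by rw [e2]
        rw [div_mul_cancel₀ _ (by norm_num), div_mul_cancel₀ _ (by norm_num)] at h8
        exact h8.symm

private theorem E2_cL {F : V → V} (hF : Continuous F) :
    Continuous (fun q : ℝ × V => Lj F q.1 q.2) := by
  unfold Lj Lmap Linv
  fun_prop

private theorem E2_affline (a : ℝ) (x y : V) (u : I) :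
    Aff a (lineP x y u) = lineP (Aff a x) (Aff a y) u := by
  refine Prod.ext ?_ ?_
  · show ((1 - (u : ℝ)) * x.1 + (u : ℝ) * y.1) / 32 + a =
      (1 - (u : ℝ)) * (x.1 / 32 + a) + (u : ℝ) * (y.1 / 32 + a)
    ring
  · show ((1 - (u : ℝ)) • x.2 + (u : ℝ) • y.2) / 4 =
      (1 - (u : ℝ)) • (x.2 / 4) + (u : ℝ) • (y.2 / 4)
    simp only [Complex.real_smul]
    ring

private theorem E2_K1 : Convex ℝ {x : V | (3 / 8 : ℝ) ≤ x.2.re} := by
  intro x hx y hy p q hp hq hpq
  show (3 / 8 : ℝ) ≤ (p • x.2 + q • y.2).re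
  have h1 : (3 / 8 : ℝ) ≤ x.2.re := hx
  have h2 : (3 / 8 : ℝ) ≤ y.2.re := hy
  simp only [Complex.add_re, Complex.real_smul, Complex.mul_re, Complex.ofReal_re,
    Complex.ofReal_im, zero_mul, sub_zero]
  nlinarith

private theorem E2_K2 : Convex ℝ {x : V | x.2 = 3 / 8} := by
  intro x hx y hy p q hp hq hpq
  show p • x.2 + q • y.2 = 3 / 8
  have h1 : x.2 = 3 / 8 := hx
  have h2 : y.2 = 3 / 8 := hy
  rw [h1, h2, ← add_smul, hpq, one_smul]

private theorem E2_p1 (a : ℝ) : (Aff a xb).2 = 3 / 8 := by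
  show (3 / 2 : ℂ) / 4 = 3 / 8
  norm_num

private theorem E2_p2 (a : ℝ) : (Aff a eL).2 = 3 / 8 := by
  show (3 / 2 : ℂ) / 4 = 3 / 8
  norm_num

private theorem E2_p3 (a : ℝ) : (Aff a eR).2 = 3 / 8 := by
  show (3 / 2 : ℂ) / 4 = 3 / 8
  norm_num

private theorem E2_re {x : V} (h : x.2 = 3 / 8) : x ∈ {x : V | (3 / 8 : ℝ) ≤ x.2.re} := by
  show (3 / 8 : ℝ) ≤ x.2.re
  rw [h]
  norm_num

private theorem E2_xb : xb ∈ {x : V | (3 / 8 : ℝ) ≤ x.2.re} := by
  show (3 / 8 : ℝ) ≤ ((3 / 2 : ℂ)).re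
  norm_num

theorem E2 {cF cG cH : ℝ → V} {F G H : V → V} (hF : Fat2 (cor cF) F) (hG : Fat2 (cor cG) G)
    (hH : Fat2 (cor cH) H) (hcH : VKnot cH) {lo hi c : ℝ} (h1 : -1 / 4 ≤ lo)
    (h2 : lo + 1 / 4 ≤ hi) (h3 : hi ≤ 1 / 4) (h4 : |c| ≤ 1 / 4)
    (h5 : c + 1 / 4 ≤ lo ∨ hi + 1 / 4 ≤ c) {gA gB : ℝ → V} (hA : VKnot gA) (hB : VKnot gB)
    (eA : ∀ t, gA t = Com F G H hi lo c (t, 0)) (eB : ∀ t, gB t = Com F G H lo hi c (t, 0))
    (α : Path (mkK hA) (mkK hB))
    (hα : ∀ (s : I) (t : ℝ), (α s).1 t = toE (Swp F G H lo hi c (s, 0) (t, 0)))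
    (ζ : Path xb xb) (hbox : ∀ u, InBox (ζ u)) (hav : ∀ u, ζ u ∉ range cG)
    (γ : Path (xM hA) (xM hA)) (γ' : Path (xM hB) (xM hB)) (e : ∀ u, (γ u).1 = sig lo ζ u)
    (e' : ∀ u, (γ' u).1 = ((sig lo (ellP hF.toFat)).trans
      ((sig hi ζ).trans (sig lo (ellP hF.toFat)).symm)) u) :
    Tr hA hB α (cls γ) = cls γ' := by
  have hFc : Continuous F := hF.smooth.continuous
  have hLc := E2_cL hFc
  have hL : ∀ b : ℝ, Continuous (Lj F b) := fun b =>
    hLc.comp (continuous_const.prodMk continuous_id)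
  have hac : ∀ x, lo ≤ x → x ≤ hi → 1 / 4 ≤ |c - x| := by
    intro x hx hx'
    rw [le_abs']
    rcases h5 with h5 | h5
    · left; linarith
    · right; linarith
  have fixL : ∀ b, lo ≤ b → Lj F b (Aff lo eL) = Aff lo eL := fun b hb =>
    E0_std hF _ _ (by
      show 1 / 8 ≤ |(-4 : ℝ) / 32 + lo - b|
      rw [abs_of_nonpos (by linarith)]
      linarith)
  have hd : 1 / 4 ≤ |hi - lo| := by
    rw [abs_of_nonneg (by linarith)]
    linarith
  have hd' : 1 / 4 ≤ |lo - hi| := by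
    rw [abs_sub_comm]
    exact hd
  obtain ⟨a, ha⟩ : ∃ a : I → ℝ, ∀ s, a s = lo + s * (hi - lo) := ⟨_, fun _ => rfl⟩
  obtain ⟨b, hb⟩ : ∃ b : I → ℝ, ∀ s, b s = hi - s * (hi - lo) := ⟨_, fun _ => rfl⟩
  have hac' : Continuous a := by
    rw [show a = fun s : I => lo + s * (hi - lo) from funext ha]
    fun_prop
  have hbc' : Continuous b := by
    rw [show b = fun s : I => hi - s * (hi - lo) from funext hb]
    fun_prop
  have hal : ∀ s, lo ≤ a s := fun s => by
    rw [ha]
    nlinarith [s.2.1]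
  have hah : ∀ s, a s ≤ hi := fun s => by
    rw [ha]
    nlinarith [s.2.2]
  have hbl : ∀ s, lo ≤ b s := fun s => by
    rw [hb]
    nlinarith [s.2.2]
  have ha0 : a 0 = lo := by rw [ha]; simp
  have ha1 : a 1 = hi := by rw [ha]; simp
  have hb0 : b 0 = hi := by rw [hb]; simp
  have hb1 : b 1 = lo := by rw [hb]; simp
  obtain ⟨D0, hD0⟩ : ∃ D0 : Path xb (Aff lo eL), D0 = lineP xb (Aff lo eL) := ⟨_, rfl⟩
  have hD0K : ∀ u, D0 u ∈ {x : V | (3 / 8 : ℝ) ≤ x.2.re} := by
    rw [hD0]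
    exact E2_line E2_K1 E2_xb (E2_re (E2_p2 lo))
  let w : ∀ s : I, Path (Aff lo eL) (Aff lo eL) := fun s =>
    (lineP (Aff lo eL) (Aff (a s) xb)).trans ((ζ.map (continuous_Aff (a s))).trans
      (lineP (Aff lo eL) (Aff (a s) xb)).symm)
  let m : ∀ s : I, Path (Aff lo eL) (Aff lo eL) := fun s =>
    ((w s).map (hL (b s))).cast (fixL _ (hbl s)).symm (fixL _ (hbl s)).symm
  have hline : Continuous ↿(fun s : I => lineP (Aff lo eL) (Aff (a s) xb)) := by
    show Continuous (fun p : I × I => (1 - (p.2 : ℝ)) • (Aff lo eL) +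
      (p.2 : ℝ) • (Aff (a p.1) xb))
    unfold Aff
    fun_prop
  have hmap : Continuous ↿(fun s : I => ζ.map (continuous_Aff (a s))) := by
    show Continuous (fun p : I × I => Aff (a p.1) (ζ p.2))
    unfold Aff
    fun_prop
  have hw : Continuous ↿w := Path.trans_continuous_family _ hline _
    (Path.trans_continuous_family _ hmap _ (Path.symm_continuous_family _ hline))
  have hm : Continuous ↿m := by
    show Continuous (fun p : I × I => Lj F (b p.1) (w p.1 p.2))
    exact hLc.comp ((hbc'.comp continuous_fst).prodMk hw)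
  have hDc : Continuous ↿(fun _ : I => D0) := by
    show Continuous (fun p : I × I => D0 p.2)
    fun_prop
  have hΓ : Continuous ↿(fun s : I => D0.trans ((m s).trans D0.symm)) :=
    Path.trans_continuous_family _ hDc _ (Path.trans_continuous_family _ hm _
      (Path.symm_continuous_family _ hDc))
  -- the points of the loops `m s`
  have hwg : ∀ s u, (w s u).2 = 3 / 8 ∨ ∃ u', w s u = Aff (a s) (ζ u') := by
    intro s
    have hl : ∀ u, (lineP (Aff lo eL) (Aff (a s) xb) u).2 = 3 / 8 ∨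
        ∃ u', lineP (Aff lo eL) (Aff (a s) xb) u = Aff (a s) (ζ u') := fun u =>
      Or.inl (E2_line E2_K2 (E2_p2 lo) (E2_p1 (a s)) u)
    exact E2_mem _ _ (fun x : V => x.2 = 3 / 8 ∨ ∃ u', x = Aff (a s) (ζ u')) hl
      (E2_mem _ _ (fun x : V => x.2 = 3 / 8 ∨ ∃ u', x = Aff (a s) (ζ u'))
        (fun u => Or.inr ⟨u, rfl⟩) fun u => hl (σ u))
  have key : ∀ s u t, (α s).1 t ≠ toE ((D0.trans ((m s).trans D0.symm)) u) := by
    intro s u t h
    rw [hα] at h
    have h' : Com F G H (b s) (a s) c (t, 0) = (D0.trans ((m s).trans D0.symm)) u := by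
      have := toE.injective h
      rw [← this, ha, hb]
      rfl
    exact E2_mem D0 _ (fun x => x ≠ Com F G H (b s) (a s) c (t, 0))
      (fun u => E2_K hF hG hH _ _ _ (hD0K u) t)
      (E2_mem (m s) D0.symm (fun x => x ≠ Com F G H (b s) (a s) c (t, 0))
        (fun u => E2_good hF hG hH hcH (b s) (hac _ (hal s) (hah s)) ζ hbox hav (hwg s u) t)
        (fun u => E2_K hF hG hH _ _ _ (hD0K (σ u)) t)) u h'.symm
  -- the two ends
  have kA : ∀ x ∈ {x : V | (3 / 8 : ℝ) ≤ x.2.re}, x ∉ range gA := by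
    rintro x hx ⟨t, ht⟩
    exact E2_K hF hG hH hi lo c hx t (by rw [← ht, eA])
  have kB : ∀ x ∈ {x : V | (3 / 8 : ℝ) ≤ x.2.re}, x ∉ range gB := by
    rintro x hx ⟨t, ht⟩
    exact E2_K hF hG hH lo hi c hx t (by rw [← ht, eB])
  have gdA : ∀ x : V, (x.2 = 3 / 8 ∨ ∃ u', x = Aff lo (ζ u')) → Lj F hi x ∉ range gA := by
    rintro x hx ⟨t, ht⟩
    exact E2_good hF hG hH hcH hi (hac lo le_rfl (by linarith)) ζ hbox hav hx t
      (by rw [← ht, eA])
  have gdB : ∀ x : V, (x.2 = 3 / 8 ∨ ∃ u', x = Aff hi (ζ u')) → Lj F lo x ∉ range gB := by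
    rintro x hx ⟨t, ht⟩
    exact E2_good hF hG hH hcH lo (hac hi (by linarith) le_rfl) ζ hbox hav hx t
      (by rw [← ht, eB])
  have hζA : ∀ u, Lj F hi (Aff lo (ζ u)) = Aff lo (ζ u) := fun u => E2_far hF hd' (hbox u).1
  have hζB : ∀ u, Lj F lo (Aff hi (ζ u)) = Aff hi (ζ u) := fun u => E2_far hF hd (hbox u).1
  have hxbA : Lj F hi (Aff lo xb) = Aff lo xb := E2_far hF hd' (by
    show |(-2 : ℝ)| ≤ 4
    norm_num)
  have hxbB : Lj F lo (Aff hi xb) = Aff hi xb := E2_far hF hd (by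
    show |(-2 : ℝ)| ≤ 4
    norm_num)
  -- the beginning
  obtain ⟨γ0, e0, c0⟩ : ∃ γ0 : Path (xM hA) (xM hA),
      (∀ u, (γ0 u).1 = (D0.trans ((m 0).trans D0.symm)) u) ∧ cls γ = cls γ0 := by
    let y : MV gA := ⟨Aff lo eL, kA _ (E2_re (E2_p2 lo))⟩
    let z : MV gA := ⟨Aff lo xb, kA _ (E2_re (E2_p1 lo))⟩
    let D : Path (xM hA) y := E2_up D0 D0.continuous (fun u => kA _ (hD0K u)) D0.source D0.target
    let hM : Path y z := E2_up (fun u => Lj F hi (lineP (Aff lo eL) (Aff lo xb) u))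
      ((hL hi).comp (lineP _ _).continuous)
      (fun u => gdA _ (Or.inl (E2_line E2_K2 (E2_p2 lo) (E2_p1 lo) u)))
      (by rw [Path.source]; exact fixL hi (by linarith)) (by rw [Path.target]; exact hxbA)
    let ZM : Path z z := E2_up (fun u => Lj F hi (Aff lo (ζ u)))
      ((hL hi).comp ((continuous_Aff lo).comp ζ.continuous))
      (fun u => gdA _ (Or.inr ⟨u, rfl⟩))
      (by rw [ζ.source]; exact hxbA) (by rw [ζ.target]; exact hxbA)
    let L : Path (xM hA) z := E2_up (lineP xb (Aff lo xb)) (lineP _ _).continuous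
      (fun u => kA _ (E2_line E2_K1 E2_xb (E2_re (E2_p1 lo)) u)) (Path.source _) (Path.target _)
    refine ⟨D.trans ((hM.trans (ZM.trans hM.symm)).trans D.symm), ?_, ?_⟩
    · have v1 : ∀ u, (hM u).1 = Lj F (b 0) (lineP (Aff lo eL) (Aff (a 0) xb) u) := fun u => by
        rw [hb0, ha0]; rfl
      have v2 : ∀ u, (ZM u).1 = Lj F (b 0) ((ζ.map (continuous_Aff (a 0))) u) := fun u => by
        rw [hb0, ha0]; rfl
      exact E2_tr D _ D0 _ (fun u => rfl) (E2_tr _ D.symm (m 0) D0.symm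
        (E2_trf hM (ZM.trans hM.symm) _ _ (Lj F (b 0)) v1
          (E2_trf ZM hM.symm _ _ (Lj F (b 0)) v2 fun u => v1 (σ u))) (fun u => rfl))
    · have hγ : γ = L.trans (ZM.trans L.symm) := by
        apply Path.ext
        funext u
        apply Subtype.ext
        rw [e]
        exact (E2_tr L _ (lineP xb (Aff lo xb)) _ (fun _ => rfl) (E2_tr ZM L.symm
          (ζ.map (continuous_Aff lo)) _ (fun u => hζA u) (fun _ => rfl)) u).symm
      rw [hγ]
      refine T9_cls (E2_G0 D hM L ZM ?_).symm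
      refine E2_convf continuous_id E2_K1 kA (D.trans hM) L
        (D0.trans (lineP (Aff lo eL) (Aff lo xb))) (lineP xb (Aff lo xb))
        (E2_mem _ _ (fun x => x ∈ {x : V | (3 / 8 : ℝ) ≤ x.2.re}) hD0K
          (E2_line E2_K1 (E2_re (E2_p2 lo)) (E2_re (E2_p1 lo))))
        (E2_line E2_K1 E2_xb (E2_re (E2_p1 lo)))
        (E2_trf D hM D0 _ id (fun _ => rfl) fun u => ?_) (fun _ => rfl)
      show Lj F hi (lineP (Aff lo eL) (Aff lo xb) u) = lineP (Aff lo eL) (Aff lo xb) u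
      rw [← E2_affline]
      apply E2_far hF hd'
      show |(1 - (u : ℝ)) * (-4) + (u : ℝ) * (-2)| ≤ 4
      rw [abs_le]
      constructor <;> nlinarith [u.2.1, u.2.2]
  -- the end
  obtain ⟨γ1, e1, c1⟩ : ∃ γ1 : Path (xM hB) (xM hB),
      (∀ u, (γ1 u).1 = (D0.trans ((m 1).trans D0.symm)) u) ∧ cls γ1 = cls γ' := by
    let y : MV gB := ⟨Aff lo eL, kB _ (E2_re (E2_p2 lo))⟩
    let r : MV gB := ⟨Aff lo eR, kB _ (E2_re (E2_p3 lo))⟩
    let v : MV gB := ⟨Aff lo xb, kB _ (E2_re (E2_p1 lo))⟩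
    let z : MV gB := ⟨Aff hi xb, kB _ (E2_re (E2_p1 hi))⟩
    let D : Path (xM hB) y := E2_up D0 D0.continuous (fun u => kB _ (hD0K u)) D0.source D0.target
    let hM : Path y z := E2_up (fun u => Lj F lo (lineP (Aff lo eL) (Aff hi xb) u))
      ((hL lo).comp (lineP _ _).continuous)
      (fun u => gdB _ (Or.inl (E2_line E2_K2 (E2_p2 lo) (E2_p1 hi) u)))
      (by rw [Path.source]; exact fixL lo le_rfl) (by rw [Path.target]; exact hxbB)
    let ZM : Path z z := E2_up (fun u => Lj F lo (Aff hi (ζ u)))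
      ((hL lo).comp ((continuous_Aff hi).comp ζ.continuous))
      (fun u => gdB _ (Or.inr ⟨u, rfl⟩))
      (by rw [ζ.source]; exact hxbB) (by rw [ζ.target]; exact hxbB)
    let L : Path (xM hB) v := E2_up (lineP xb (Aff lo xb)) (lineP _ _).continuous
      (fun u => kB _ (E2_line E2_K1 E2_xb (E2_re (E2_p1 lo)) u)) (Path.source _) (Path.target _)
    let R : Path (xM hB) z := E2_up (lineP xb (Aff hi xb)) (lineP _ _).continuous
      (fun u => kB _ (E2_line E2_K1 E2_xb (E2_re (E2_p1 hi)) u)) (Path.source _) (Path.target _)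
    have sR : Lj F lo (Aff lo eR) = Aff lo eR := E0_std hF _ _ (by
      show 1 / 8 ≤ |(4 : ℝ) / 32 + lo - lo|
      rw [abs_of_nonneg (by linarith)]
      linarith)
    let M : Path y r := E2_up (fun u => Lj F lo (lineP (Aff lo eL) (Aff lo eR) u))
      ((hL lo).comp (lineP _ _).continuous)
      (fun u => gdB _ (Or.inl (E2_line E2_K2 (E2_p2 lo) (E2_p3 lo) u)))
      (by rw [Path.source]; exact fixL lo le_rfl) (by rw [Path.target]; exact sR)
    let A : Path v y := E2_up (fun u => Aff lo (lineP xb eL u))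
      ((continuous_Aff lo).comp (lineP _ _).continuous)
      (fun u => kB _ (by
        rw [E2_affline]
        exact E2_line E2_K1 (E2_re (E2_p1 lo)) (E2_re (E2_p2 lo)) u))
      (by rw [Path.source]) (by rw [Path.target])
    let B : Path r v := E2_up (fun u => Aff lo (lineP eR xb u))
      ((continuous_Aff lo).comp (lineP _ _).continuous)
      (fun u => kB _ (by
        rw [E2_affline]
        exact E2_line E2_K1 (E2_re (E2_p3 lo)) (E2_re (E2_p1 lo)) u))
      (by rw [Path.source]) (by rw [Path.target])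
    let T : Path r z := E2_up (lineP (Aff lo eR) (Aff hi xb)) (lineP _ _).continuous
      (fun u => kB _ (E2_line E2_K1 (E2_re (E2_p3 lo)) (E2_re (E2_p1 hi)) u))
      (Path.source _) (Path.target _)
    refine ⟨D.trans ((hM.trans (ZM.trans hM.symm)).trans D.symm), ?_, ?_⟩
    · have v1 : ∀ u, (hM u).1 = Lj F (b 1) (lineP (Aff lo eL) (Aff (a 1) xb) u) := fun u => by
        rw [hb1, ha1]; rfl
      have v2 : ∀ u, (ZM u).1 = Lj F (b 1) ((ζ.map (continuous_Aff (a 1))) u) := fun u => by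
        rw [hb1, ha1]; rfl
      exact E2_tr D _ D0 _ (fun u => rfl) (E2_tr _ D.symm (m 1) D0.symm
        (E2_trf hM (ZM.trans hM.symm) _ _ (Lj F (b 1)) v1
          (E2_trf ZM hM.symm _ _ (Lj F (b 1)) v2 fun u => v1 (σ u))) (fun u => rfl))
    · obtain ⟨l, hl⟩ : ∃ l : Path (xM hB) (xM hB),
        l = L.trans ((A.trans (M.trans B)).trans L.symm) := ⟨_, rfl⟩
      have hlv : ∀ u, (l u).1 = sig lo (ellP hF.toFat) u := by
        rw [hl]
        refine E2_tr L _ (lineP xb (Aff lo xb)) _ (fun _ => rfl)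
          (E2_tr (A.trans (M.trans B)) L.symm ((ellP hF.toFat).map (continuous_Aff lo)) _ ?_
            (fun _ => rfl))
        refine E2_trf A (M.trans B) (lineP xb eL) _ (Aff lo) (fun _ => rfl)
          (E2_trf M B _ (lineP eR xb) (Aff lo) (fun u => ?_) (fun _ => rfl))
        show Lj F lo (lineP (Aff lo eL) (Aff lo eR) u) = Aff lo (Fh F (lineP eL eR u))
        rw [E0_aff, E2_affline]
      have hγ' : γ' = l.trans ((R.trans (ZM.trans R.symm)).trans l.symm) := by
        apply Path.ext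
        funext u
        apply Subtype.ext
        rw [e']
        exact (E2_tr l _ (sig lo (ellP hF.toFat)) _ hlv (E2_tr _ l.symm (sig hi ζ)
          (sig lo (ellP hF.toFat)).symm
          (E2_tr R _ (lineP xb (Aff hi xb)) _ (fun _ => rfl) (E2_tr ZM R.symm
            (ζ.map (continuous_Aff hi)) _ (fun u => hζB u) (fun _ => rfl)))
          (fun u => hlv (σ u))) u).symm
      rw [hγ']
      refine T9_cls (E2_G1 D hM l R ZM ?_)
      have q1 : hM.Homotopic (M.trans T) := by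
        refine E2_convf (hL lo) E2_K2 (fun x hx => gdB x (Or.inl hx)) hM (M.trans T)
          (lineP (Aff lo eL) (Aff hi xb))
          ((lineP (Aff lo eL) (Aff lo eR)).trans (lineP (Aff lo eR) (Aff hi xb)))
          (E2_line E2_K2 (E2_p2 lo) (E2_p1 hi))
          (E2_mem _ _ (fun x => x ∈ {x : V | x.2 = 3 / 8})
            (E2_line E2_K2 (E2_p2 lo) (E2_p3 lo)) (E2_line E2_K2 (E2_p3 lo) (E2_p1 hi)))
          (fun _ => rfl) (E2_trf M T _ _ (Lj F lo) (fun _ => rfl) fun u => ?_)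
        show lineP (Aff lo eR) (Aff hi xb) u = Lj F lo (lineP (Aff lo eR) (Aff hi xb) u)
        refine (E0_std hF _ _ ?_).symm
        show 1 / 8 ≤ |(1 - (u : ℝ)) * (4 / 32 + lo) + (u : ℝ) * (-2 / 32 + hi) - lo|
        refine le_trans ?_ (le_abs_self _)
        nlinarith [u.2.1, u.2.2, mul_nonneg u.2.1 (by linarith : (0 : ℝ) ≤ hi - lo - 1 / 4)]
      have q2 : D.Homotopic (L.trans A) := by
        refine E2_convf continuous_id E2_K1 kB D (L.trans A) D0
          ((lineP xb (Aff lo xb)).trans (lineP (Aff lo xb) (Aff lo eL))) hD0K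
          (E2_mem _ _ (fun x => x ∈ {x : V | (3 / 8 : ℝ) ≤ x.2.re})
            (E2_line E2_K1 E2_xb (E2_re (E2_p1 lo)))
            (E2_line E2_K1 (E2_re (E2_p1 lo)) (E2_re (E2_p2 lo))))
          (fun _ => rfl) (E2_trf L A _ _ id (fun _ => rfl) fun u => E2_affline lo xb eL u)
      have q3 : T.Homotopic (B.trans (L.symm.trans R)) := by
        refine E2_convf continuous_id E2_K1 kB T (B.trans (L.symm.trans R))
          (lineP (Aff lo eR) (Aff hi xb))
          ((lineP (Aff lo eR) (Aff lo xb)).trans ((lineP xb (Aff lo xb)).symm.trans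
            (lineP xb (Aff hi xb))))
          (E2_line E2_K1 (E2_re (E2_p3 lo)) (E2_re (E2_p1 hi)))
          (E2_mem _ _ (fun x => x ∈ {x : V | (3 / 8 : ℝ) ≤ x.2.re})
            (E2_line E2_K1 (E2_re (E2_p3 lo)) (E2_re (E2_p1 lo)))
            (E2_mem _ _ (fun x => x ∈ {x : V | (3 / 8 : ℝ) ≤ x.2.re})
              (fun u => E2_line E2_K1 E2_xb (E2_re (E2_p1 lo)) (σ u))
              (E2_line E2_K1 E2_xb (E2_re (E2_p1 hi)))))
          (fun _ => rfl) (E2_trf B _ _ _ id (fun u => E2_affline lo eR xb u)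
            (E2_trf L.symm R _ _ id (fun _ => rfl) (fun _ => rfl)))
      rw [hl]
      exact ((Path.Homotopic.refl D).hcomp q1).trans (E2_G2 D M T L A B R q2 q3)
  rw [c0, ← c1]
  exact T9_family hA hB α ⟨fun p : I × I => (D0.trans ((m p.1).trans D0.symm)) p.2, hΓ⟩ key
    (fun s => (D0.trans ((m s).trans D0.symm)).source)
    (fun s => (D0.trans ((m s).trans D0.symm)).target) γ0 γ1 e0 e1

end LQ
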