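import Pool.Agent.H64.LQ.E0
import Pool.Agent.H64.LQ.T9

/-!
# E3: the loops around the third knot are fixed

Setting: fat knots `F` (outer), `G` (inner), `H` (third), positions `-1/4 ≤ lo`, `lo + 1/4 ≤ hi ≤ 1/4`, `|c| ≤ 1/4`, and `c` at distance at least `1/4` from the
interval `[lo, hi]`. `gA` is the curve of `Com F G H hi lo c`, `gB` that of `Com F G H lo hi c`, `α` the path of knots
`s ↦ ` curve of `Swp F G H lo hi c (s, 0)`, i.e. `t ↦ Lj F b (Lj G a (Lj H c (t, 0)))` with `b = hi - s(hi - lo)`, `a = lo + s(hi - lo)`.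
All the curves have `‖second coordinate‖ ≤ 5/16` (E0_thin), so the half space `Re x.2 ≥ 3/8` (convex) is never met; it contains `xb` and `Aff a xb = (a - 1/16, 3/8)`.

E3: for a loop `ζ` of the box avoiding the curve `cH`: the transport along `α` of `sig c ζ` is `sig c ζ`.
Proof: T9_family with the constant family `γ(s, ·) = sig c ζ`. It avoids the curve of time `s`: tails: `Re x.2 ≥ 3/8 > 5/16`. A point `Aff c (ζ u)` has first coordinate in
`[c - 1/8, c + 1/8]`. The point `Lj F b (Lj G a (Lj H c (t, 0)))`: if `|t - c| ≤ 1/8`, then `Lj H c (t, 0) = Aff c (cH (32(t - c)))` (E0_axis) has first coordinate in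
`[c-1/8, c+1/8]`, at distance `≥ 1/8` from `a` and `b`, so it is fixed by `Lj G a`, `Lj F b`; equality would put `ζ u` on `cH`. If `|t - c| > 1/8`: `Lj H c (t, 0) = (t, 0)`, and the
first coordinate stays outside of `[c - 1/8, c + 1/8]`: `Lj G a (t,0)` is `(t, 0)` or has `|first - a| ≤ 1/8`; if `|t - a| < 1/8`, then the first coordinate is even in the
open interval `(a - 1/8, a + 1/8)` (E0_axis and `VKnot cG`), disjoint from `[c-1/8, c+1/8]`; applying `Lj F b`: similarly; if `y.1` is outside of `[c-1/8, c+1/8]` then so is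
`(Lj F b y).1`: when `|y.1 - b| ≤ 1/8`, `|(Lj F b y).1 - b| ≤ 1/8`, which meets `[c-1/8,c+1/8]` at most in the common end point `b ± 1/8 = c ∓ 1/8`; the points of that plane are
fixed by `Lj F b`, so by injectivity on the tube (E0_inj) `(Lj F b y).1 = b ± 1/8` implies `y.1 = b ± 1/8`.
-/

open scoped ContDiff unitInterval
open Topology Set

namespace LQ

open LK

theorem E3_sig (a : ℝ) (ζ : Path xb xb) (u : I) :
    (∃ r : I, sig a ζ u = lineP xb (Aff a xb) r) ∨ ∃ v : I, sig a ζ u = Aff a (ζ v) := by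
  have h : sig a ζ u ∈ range (sig a ζ) := mem_range_self u
  have e : range (sig a ζ) = range (lineP xb (Aff a xb)) ∪
      (range (ζ.map (continuous_Aff a)) ∪ range (lineP xb (Aff a xb))) := by
    unfold sig
    rw [Path.trans_range, Path.trans_range, Path.symm_range]
  rw [e] at h
  rcases h with ⟨r, hr⟩ | ⟨v, hv⟩ | ⟨r, hr⟩
  · exact Or.inl ⟨r, hr.symm⟩
  · exact Or.inr ⟨v, hv.symm⟩
  · exact Or.inl ⟨r, hr.symm⟩

theorem E3_tail (a : ℝ) (r : I) : 3 / 8 ≤ ‖(lineP xb (Aff a xb) r).2‖ := by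
  have h1 : ((lineP xb (Aff a xb) r).2).re = (1 - (r : ℝ)) * (3 / 2) + (r : ℝ) * (3 / 8) := by
    show (((1 - (r : ℝ)) • xb + (r : ℝ) • Aff a xb : V).2).re = _
    have e1 : ((1 - (r : ℝ)) • xb + (r : ℝ) • Aff a xb : V).2 =
        (((1 - (r : ℝ)) * (3 / 2) + (r : ℝ) * (3 / 8) : ℝ) : ℂ) := by
      simp only [Prod.snd_add, Prod.smul_snd, xb, Aff, Complex.real_smul]
      push_cast
      ring
    rw [e1, Complex.ofReal_re]
  have h2 := Complex.re_le_norm (lineP xb (Aff a xb) r).2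
  rw [h1] at h2
  have h3 := r.2.2
  nlinarith

theorem E3_out {c' : ℝ → V} {F : V → V} (hF : Fat2 c' F) (b c : ℝ) (hbc : 1 / 4 ≤ |b - c|)
    (y : V) (hy : y ∈ tube) (h : 1 / 8 < |y.1 - c|) : 1 / 8 < |(Lj F b y).1 - c| := by
  by_cases h1 : 1 / 8 ≤ |y.1 - b|
  · rwa [E0_std hF b y h1]
  · by_contra h2
    push Not at h1 h2
    have h3 := E0_near hF b y hy h1.le
    have h4 : |(Lj F b y).1 - b| = 1 / 8 := by
      have h5 := abs_sub_abs_le_abs_sub (b - c) ((Lj F b y).1 - c)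
      have h6 : b - c - ((Lj F b y).1 - c) = -((Lj F b y).1 - b) := by ring
      rw [h6, abs_neg] at h5
      linarith
    have h5 := E0_std hF b (Lj F b y) h4.ge
    have h6 := E0_inj hF b (E0_maps hF b y hy) hy h5
    rw [h6] at h4
    linarith

theorem E3_aff (a : ℝ) {x y : V} (h : Aff a x = Aff a y) : x = y := by
  have h1 := congrArg Prod.fst h
  have h2 := congrArg Prod.snd h
  simp only [Aff] at h1 h2
  refine Prod.ext ?_ ?_
  · linarith
  · have h3 : (4 : ℂ) ≠ 0 := by norm_num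
    field_simp at h2
    exact h2

theorem E3_ne {cF cG cH : ℝ → V} {F G H : V → V} (hF : Fat2 (cor cF) F)
    (hG : Fat2 (cor cG) G) (hH : Fat2 (cor cH) H) {a b c : ℝ} (ha : 1 / 4 ≤ |a - c|)
    (hb : 1 / 4 ≤ |b - c|) (ζ : Path xb xb) (hbox : ∀ u, InBox (ζ u))
    (hav : ∀ u, ζ u ∉ range cH) (u : I) (t : ℝ) : Com F G H b a c (t, 0) ≠ sig c ζ u := by
  intro he
  have ht : ((t, 0) : V) ∈ tube := by
    show ‖(0 : ℂ)‖ ≤ 1 / 2
    simp
  rcases E3_sig c ζ u with ⟨r, hr⟩ | ⟨v, hv⟩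
  · rw [hr] at he
    have h1 : ‖(Com F G H b a c (t, 0)).2‖ ≤ 5 / 16 :=
      E0_thin hF b _ (E0_thin hG a _ (E0_thin hH c (t, 0) (by
        show ‖(0 : ℂ)‖ ≤ 5 / 16
        rw [norm_zero]
        norm_num)))
    rw [he] at h1
    have h2 := E3_tail c r
    linarith
  · rw [hv] at he
    have e0 : Com F G H b a c (t, 0) = Lj F b (Lj G a (Lj H c (t, 0))) := rfl
    rw [e0] at he
    by_cases h1 : |t - c| ≤ 1 / 8
    · have h2 := E0_near hH c (t, 0) ht h1
      have h3 : ∀ d : ℝ, 1 / 4 ≤ |d - c| → 1 / 8 ≤ |(Lj H c (t, 0)).1 - d| := by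
        intro d hd
        have h5 := abs_sub_abs_le_abs_sub (d - c) ((Lj H c (t, 0)).1 - c)
        have h6 : d - c - ((Lj H c (t, 0)).1 - c) = -((Lj H c (t, 0)).1 - d) := by ring
        rw [h6, abs_neg] at h5
        linarith
      rw [E0_std hG a _ (h3 a ha), E0_std hF b _ (h3 b hb), E0_axis hH] at he
      exact hav v ⟨_, E3_aff c he⟩
    · push Not at h1
      rw [E0_std hH c (t, 0) h1.le] at he
      have h2 := E3_out hF b c hb _ (E0_maps hG a (t, 0) ht) (E3_out hG a c ha (t, 0) ht h1)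
      rw [he] at h2
      have h3 := (hbox v).1
      have h4 : (Aff c (ζ v)).1 - c = (ζ v).1 / 32 := by
        simp only [Aff]
        ring
      rw [h4, abs_div, abs_of_pos (by norm_num : (0 : ℝ) < 32)] at h2
      linarith

theorem E3 {cF cG cH : ℝ → V} {F G H : V → V} (hF : Fat2 (cor cF) F) (hG : Fat2 (cor cG) G)
    (hH : Fat2 (cor cH) H) (hcG : VKnot cG) (hcH : VKnot cH) {lo hi c : ℝ} (h1 : -1 / 4 ≤ lo)
    (h2 : lo + 1 / 4 ≤ hi) (h3 : hi ≤ 1 / 4) (h4 : |c| ≤ 1 / 4)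
    (h5 : c + 1 / 4 ≤ lo ∨ hi + 1 / 4 ≤ c) {gA gB : ℝ → V} (hA : VKnot gA) (hB : VKnot gB)
    (eA : ∀ t, gA t = Com F G H hi lo c (t, 0)) (eB : ∀ t, gB t = Com F G H lo hi c (t, 0))
    (α : Path (mkK hA) (mkK hB))
    (hα : ∀ (s : I) (t : ℝ), (α s).1 t = toE (Swp F G H lo hi c (s, 0) (t, 0)))
    (ζ : Path xb xb) (hbox : ∀ u, InBox (ζ u)) (hav : ∀ u, ζ u ∉ range cH)
    (γ : Path (xM hA) (xM hA)) (γ' : Path (xM hB) (xM hB)) (e : ∀ u, (γ u).1 = sig c ζ u)
    (e' : ∀ u, (γ' u).1 = sig c ζ u) : Tr hA hB α (cls γ) = cls γ' := by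
  refine T9_family hA hB α ⟨fun p => sig c ζ p.2, (sig c ζ).continuous.comp continuous_snd⟩
    (fun s u t => ?_) (fun s => ?_) (fun s => ?_) γ γ' (fun u => ?_) (fun u => ?_)
  · intro he
    rw [hα s t] at he
    have h6 := toE.injective he
    have hs0 := s.2.1
    have hs1 := s.2.2
    have hd : 0 ≤ hi - lo := by linarith
    have hm : (s : ℝ) * (hi - lo) ≤ hi - lo := by nlinarith
    have hm0 : 0 ≤ (s : ℝ) * (hi - lo) := mul_nonneg hs0 hd
    refine E3_ne hF hG hH (a := lo + s * (hi - lo)) (b := hi - s * (hi - lo)) ?_ ?_ ζ hbox hav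
      u t h6
    · rcases h5 with h | h
      · rw [abs_of_nonneg (by linarith)]; linarith
      · rw [abs_of_nonpos (by linarith)]; linarith
    · rcases h5 with h | h
      · rw [abs_of_nonneg (by linarith)]; linarith
      · rw [abs_of_nonpos (by linarith)]; linarith
  · exact (sig c ζ).source
  · exact (sig c ζ).target
  · exact e u
  · exact e' u

end LQ
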