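import Pool.Agent.H64.LQ.Defs

/-!
# FR: the framed long knot attached to a tube embedding

`frK hE` is the framed long knot of the constant tube family `E` (LK.K5_framing). FR_eq: if `E = E'` on the tube, equal framed knots (proof of LK.K5,
second part: the derivatives at `(t, 0)` agree as `(t, 0)` is interior to the tube, `K5_tube_nhds`). FR_slice: a member of a tube family over the
square gives a constant tube family (the conditions `std`, `box` hold for all parameters since the family is constant; smoothness by composition with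
`x ↦ (p, x)`). FR_path: `s ↦ frK (T (s, 0))` is a path: by LK.K1 (continuity for the whole family), `K5_phi (fun _ => T p) i (0,0) = K5_phi T i p`
(both are defined from `fderiv (T p) (t, 0)`, `K5_D`). FR_forget: by definition.
-/

open scoped ContDiff unitInterval
open Topology Set

namespace LQ

open LK

/-- The framed long knot of a single tube embedding. -/
noncomputable def frK {E : V → V} (hE : TubeFamily (fun _ : ℝ × ℝ => E)) : FramedLongKnot 3 :=
  ⟨(fun t => toE (E (t, 0)), fun i => K5_phi (fun _ => E) i (0, 0)), K5_framing hE (0, 0)⟩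

theorem FR_eq {E E' : V → V} (hE : TubeFamily (fun _ : ℝ × ℝ => E))
    (hE' : TubeFamily (fun _ : ℝ × ℝ => E')) (h : EqOn E E' tube) : frK hE = frK hE' := by
  have hD : ∀ (w : V) (t : ℝ), K5_D (fun _ => E) w (0, 0) t = K5_D (fun _ => E') w (0, 0) t := by
    intro w t
    have h1 : E =ᶠ[𝓝 ((t, 0) : V)] E' := by
      filter_upwards [K5_tube_nhds t] with x hx
      exact h hx
    show toE (fderiv ℝ E (t, 0) w) = toE (fderiv ℝ E' (t, 0) w)
    rw [h1.fderiv_eq]
  apply Subtype.ext
  apply Prod.ext
  · funext t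
    show toE (E (t, 0)) = toE (E' (t, 0))
    rw [h (K5_tube t)]
  · funext i t
    show K5_phi (fun _ => E) i (0, 0) t = K5_phi (fun _ => E') i (0, 0) t
    simp only [K5_phi, K5_b, K5_c, hD]

theorem FR_slice {T : ℝ × ℝ → V → V} (hT : TubeFamily T) (p : I × I) :
    TubeFamily (fun _ : ℝ × ℝ => T (p.1, p.2)) where
  smooth := by
    have h2 : ContDiff ℝ ∞ (fun q : (ℝ × ℝ) × V =>
        ((((p.1 : ℝ), (p.2 : ℝ)), q.2) : (ℝ × ℝ) × V)) := by fun_prop
    exact hT.smooth.comp h2
  inj := fun _ => hT.inj (p.1, p.2)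
  imm := fun _ => hT.imm (p.1, p.2)
  std := fun _ => hT.std p
  box := fun _ => hT.box p

theorem FR_path {T : ℝ × ℝ → V → V} (hT : TubeFamily T) :
    ∃ P : Path (frK (FR_slice hT (0, 0))) (frK (FR_slice hT (1, 0))),
      ∀ s : I, P s = frK (FR_slice hT (s, 0)) := by
  have hc := K1 (fun p t => toE (T p (t, 0))) (fun i => K5_phi T i) (K5_curve_smooth hT)
      (K5_phi_smooth hT) (K5_framing hT)
  have hs : Continuous (fun s : I => ((s, 0) : I × I)) := by fun_prop
  have hd : Continuous (fun s : I => frK (FR_slice hT (s, 0))) := hc.comp hs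
  exact ⟨⟨⟨_, hd⟩, rfl, rfl⟩, fun s => rfl⟩

theorem FR_forget {E : V → V} (hE : TubeFamily (fun _ : ℝ × ℝ => E)) {g : ℝ → V} (hg : VKnot g)
    (h : ∀ t, g t = E (t, 0)) : forget (frK hE) = mkK hg := by
  apply Subtype.ext
  funext t
  show toE (E (t, 0)) = toE (g t)
  rw [h t]

end LQ
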