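import Pool.Agent.H64.LQ.MG
import Pool.Agent.H64.LQ.DC

/-!
# MB: the homomorphisms from the groups of the summands to the group of the sum

For a box loop `ζ` avoiding `c_i`, `sig (pos i) ζ` avoids the sum: the tail has `Re x.2 ≥ 3/8 > 1/4` (MG_snd); `Aff (pos i) (ζ u)` has first coordinate at distance `≤ 1/8` from `pos i`,
so if it is on the curve, it is `Aff (pos i) (c_i u')` (MG_mem) and `ζ u = c_i u'` (`Aff` is injective).
Define `ι (cls γ) = cls (sig (pos i) (cmp ∘ γ))`: the map `x ↦ Aff (pos i) (cmp x)` is continuous from the complement of `c_i` to the complement of the sum (DC_av with `τ = 1`: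
`cmpH (1, x) = cmp x`, DC_box), it maps `xb` to `Aff (pos i) xb`; so `ι` is the induced homomorphism on fundamental groups followed by the change of base point along the
straight tail (a path in the complement of the sum). For a box loop `ζ` : `cmp ∘ ζ ≃ ζ` through `cmpH τ ∘ ζ`, box loops (the box `|x.1| ≤ 4, ‖x.2‖ < 2` is convex and contains `ζ u` and
`cmp (ζ u)`) avoiding `c_i` (DC_av), so `sig (pos i) (cmp ∘ ζ) ≃ sig (pos i) ζ` in the complement of the sum.
-/

open scoped ContDiff unitInterval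
open Topology Set

namespace LQ

open LK

/-- a path in a subtype over a path -/
theorem MB_trans {X : Type*} [TopologicalSpace X] {S : X → Prop} {x y z : {x : X // S x}}
    {x' y' z' : X} (p : Path x y) (q : Path y z) (p' : Path x' y') (q' : Path y' z')
    (hp : ∀ u, (p u).1 = p' u) (hq : ∀ u, (q u).1 = q' u) (u : I) :
    ((p.trans q) u).1 = (p'.trans q') u := by
  rw [Path.trans_apply, Path.trans_apply]
  split_ifs with h
  · exact hp _
  · exact hq _

theorem MB_symm {X : Type*} [TopologicalSpace X] {S : X → Prop} {x y : {x : X // S x}}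
    {x' y' : X} (p : Path x y) (p' : Path x' y') (hp : ∀ u, (p u).1 = p' u) (u : I) :
    (p.symm u).1 = p'.symm u := by
  rw [Path.symm_apply, Path.symm_apply]
  exact hp _

/-- change of base point -/
theorem MB_base {X : Type*} [TopologicalSpace X] {x y : X} (p : Path x y) :
    ∃ T : FundamentalGroup X y →* FundamentalGroup X x, ∀ γ : Path y y,
      T (cls γ) = cls (p.trans (γ.trans p.symm)) := by
  refine ⟨(FundamentalGroup.fundamentalGroupMulEquivOfPath p.symm).toMonoidHom, fun γ => ?_⟩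
  have h1 : (FundamentalGroup.fundamentalGroupMulEquivOfPath p.symm).toMonoidHom (cls γ) =
      cls (p.symm.symm.trans (γ.trans p.symm)) := rfl
  rw [h1, Path.symm_symm]

theorem MB_cls {X : Type*} [TopologicalSpace X] {x : X} {p q : Path x x} (h : p.Homotopic q) :
    cls p = cls q :=
  Path.Homotopic.Quotient.eq.2 h

theorem MB_inj (a : ℝ) {x y : V} (h : Aff a x = Aff a y) : x = y := by
  have h1 := congrArg Prod.fst h
  have h2 := congrArg Prod.snd h
  simp only [Aff] at h1 h2
  refine Prod.ext (by linarith) ?_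
  have h3 : (4 : ℂ) ≠ 0 := by norm_num
  exact (div_left_inj' h3).1 h2

theorem MB_Aff (D : Tri) (i : Fin 3) {x : V} (h : |x.1| ≤ 4) (hx : x ∉ range (D.c i)) :
    Aff (pos i) x ∉ range (gS D) := by
  intro hm
  have h1 : |(Aff (pos i) x).1 - pos i| ≤ 1 / 8 := by
    have : (Aff (pos i) x).1 - pos i = x.1 / 32 := by
      simp only [Aff]; ring
    rw [this, abs_div, abs_of_pos (by norm_num : (0 : ℝ) < 32)]
    linarith
  obtain ⟨u, -, h2⟩ := MG_mem D i _ hm h1
  exact hx ⟨u, (MB_inj _ h2).symm⟩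

theorem MB_far (D : Tri) {x : V} (h : 3 / 8 ≤ ‖x.2‖) : x ∉ range (gS D) := by
  rintro ⟨t, rfl⟩
  have := MG_snd D t
  linarith

theorem MB_line (a : ℝ) (t : I) : lineP xb (Aff a xb) t =
    ((1 - (t : ℝ)) * (-2) + (t : ℝ) * (-2 / 32 + a),
      (((1 - (t : ℝ)) * (3 / 2) + (t : ℝ) * (3 / 8) : ℝ) : ℂ)) := by
  have h1 : lineP xb (Aff a xb) t = (1 - (t : ℝ)) • xb + (t : ℝ) • Aff a xb := rfl
  rw [h1]
  refine Prod.ext ?_ ?_
  · simp [xb, Aff]
  · simp only [xb, Aff, Prod.snd_add, Prod.smul_snd, Complex.real_smul]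
    push_cast
    ring

theorem MB_line_norm (a : ℝ) (t : I) : 3 / 8 ≤ ‖(lineP xb (Aff a xb) t).2‖ := by
  rw [MB_line]
  simp only [Complex.norm_real]
  have h0 := t.2.1
  have h1 := t.2.2
  rw [Real.norm_eq_abs, abs_of_nonneg (by linarith)]
  linarith

theorem MB_av (D : Tri) (i : Fin 3) (ζ : Path xb xb) (hbox : ∀ u, InBox (ζ u))
    (hav : ∀ u, ζ u ∉ range (D.c i)) (u : I) : sig (pos i) ζ u ∉ range (gS D) := by
  have h1 : sig (pos i) ζ u ∈ range (sig (pos i) ζ) := mem_range_self u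
  rw [sig, Path.trans_range, Path.trans_range, Path.symm_range] at h1
  rcases h1 with ⟨t, ht⟩ | ⟨t, ht⟩ | ⟨t, ht⟩
  · rw [← sig] at ht
    rw [← ht]
    exact MB_far D (MB_line_norm _ t)
  · rw [← sig] at ht
    rw [← ht]
    exact MB_Aff D i (hbox t).1 (hav t)
  · rw [← sig] at ht
    rw [← ht]
    exact MB_far D (MB_line_norm _ t)

/-- the base point of the summand -/
theorem MB_y (D : Tri) (i : Fin 3) : Aff (pos i) xb ∉ range (gS D) := by
  have h := MB_line_norm (pos i) 1
  have h1 : lineP xb (Aff (pos i) xb) 1 = Aff (pos i) xb := (lineP xb (Aff (pos i) xb)).target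
  rw [h1] at h
  exact MB_far D h

/-- the tail -/
noncomputable def MB_tail (D : Tri) (hS : VKnot (gS D)) (i : Fin 3) :
    Path (xM hS) (⟨Aff (pos i) xb, MB_y D i⟩ : MV (gS D)) where
  toFun u := ⟨lineP xb (Aff (pos i) xb) u, MB_far D (MB_line_norm _ u)⟩
  continuous_toFun := Continuous.subtype_mk (lineP xb (Aff (pos i) xb)).continuous _
  source' := Subtype.ext (lineP xb (Aff (pos i) xb)).source
  target' := Subtype.ext (lineP xb (Aff (pos i) xb)).target

theorem MB_xb1 : |xb.1| ≤ 4 := by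
  simp only [xb]
  rw [abs_le]
  constructor <;> norm_num

theorem MB_xb2 : ‖xb.2‖ ≤ 3 / 2 := by
  simp only [xb]
  rw [show (3 / 2 : ℂ) = ((3 / 2 : ℝ) : ℂ) by push_cast; ring, Complex.norm_real]
  norm_num

theorem MB_cmp1 (x : V) : cmpH (1, x) = cmp x := by
  simp [cmpH]

theorem MB_cmp0 (x : V) : cmpH (0, x) = x := by
  simp [cmpH]

/-- homotopies in a subtype -/
theorem MB_mk {X : Type*} [TopologicalSpace X] {S : X → Prop} {x y : {x : X // S x}}
    (γ1 γ2 : Path x y) (K : I × I → X) (hK : Continuous K) (hmem : ∀ p, S (K p))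
    (h0 : ∀ u, K (0, u) = (γ1 u).1) (h1 : ∀ u, K (1, u) = (γ2 u).1)
    (hb0 : ∀ t, K (t, 0) = x.1) (hb1 : ∀ t, K (t, 1) = y.1) : γ1.Homotopic γ2 := by
  refine ⟨{ toFun := fun p => ⟨K p, hmem p⟩
            continuous_toFun := hK.subtype_mk _
            map_zero_left := fun u => Subtype.ext (h0 u)
            map_one_left := fun u => Subtype.ext (h1 u)
            prop' := ?_ }⟩
  intro t u hu
  apply Subtype.ext
  rcases hu with hu | hu
  · subst hu
    simp [hb0]
  · rw [mem_singleton_iff] at hu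
    subst hu
    simp [hb1]

/-- the map of the complements -/
noncomputable def MB_f (D : Tri) (i : Fin 3) : C(MV (D.c i), MV (gS D)) where
  toFun x := ⟨Aff (pos i) (cmp x.1), MB_Aff D i (DC_box _).1 (by
    rw [← MB_cmp1]; exact DC_av (D.hc i) 1 x.1 x.2)⟩
  continuous_toFun := Continuous.subtype_mk
    ((continuous_Aff _).comp (DC_cont.comp continuous_subtype_val)) _

theorem MB_f_base (D : Tri) (i : Fin 3) :
    MB_f D i (xM (D.hc i)) = ⟨Aff (pos i) xb, MB_y D i⟩ := by
  apply Subtype.ext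
  show Aff (pos i) (cmp xb) = Aff (pos i) xb
  rw [← MB_cmp1, DC_fix 1 xb MB_xb1 MB_xb2]

theorem MB_ex (D : Tri) (hS : VKnot (gS D)) (i : Fin 3) :
    ∃ ι : PiM (D.hc i) →* PiM hS, ∀ (ζ : Path xb xb), (∀ u, InBox (ζ u)) →
      ∀ (γ : Path (xM (D.hc i)) (xM (D.hc i))) (γ' : Path (xM hS) (xM hS)),
        (∀ u, (γ u).1 = ζ u) → (∀ u, (γ' u).1 = sig (pos i) ζ u) → ι (cls γ) = cls γ' := by
  obtain ⟨T, hT⟩ := MB_base (MB_tail D hS i)
  refine ⟨T.comp (FundamentalGroup.mapOfEq (MB_f D i) (MB_f_base D i)), ?_⟩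
  intro ζ hbox γ γ' e e'
  have hav : ∀ u, ζ u ∉ range (D.c i) := fun u => by
    rw [← e u]; exact (γ u).2
  let γf : Path (⟨Aff (pos i) xb, MB_y D i⟩ : MV (gS D)) ⟨Aff (pos i) xb, MB_y D i⟩ :=
    (γ.map (MB_f D i).continuous).cast (MB_f_base D i).symm (MB_f_base D i).symm
  have hγf : ∀ u, (γf u).1 = Aff (pos i) (cmp (ζ u)) := fun u => by
    have : (γf u).1 = Aff (pos i) (cmp (γ u).1) := rfl
    rw [this, e]
  let γζ : Path (⟨Aff (pos i) xb, MB_y D i⟩ : MV (gS D)) ⟨Aff (pos i) xb, MB_y D i⟩ :=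
    { toFun := fun u => ⟨Aff (pos i) (ζ u), MB_Aff D i (hbox u).1 (hav u)⟩
      continuous_toFun := Continuous.subtype_mk ((continuous_Aff _).comp ζ.continuous) _
      source' := Subtype.ext (by
        show Aff (pos i) (ζ 0) = _
        rw [ζ.source])
      target' := Subtype.ext (by
        show Aff (pos i) (ζ 1) = _
        rw [ζ.target]) }
  have h1 : γζ.Homotopic γf := by
    refine MB_mk γζ γf (fun p => Aff (pos i) (cmpH (p.1, ζ p.2))) ?_ ?_ ?_ ?_ ?_ ?_
    · have := DC_contH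
      exact (continuous_Aff _).comp (this.comp (by fun_prop))
    · intro p
      refine MB_Aff D i ?_ (DC_av (D.hc i) _ _ (hav _))
      rw [DC_fst _ _ (hbox p.2).1]
      exact (hbox p.2).1
    · intro u
      show Aff (pos i) (cmpH (0, ζ u)) = Aff (pos i) (ζ u)
      rw [MB_cmp0]
    · intro u
      show Aff (pos i) (cmpH (1, ζ u)) = (γf u).1
      rw [MB_cmp1, hγf]
    · intro t
      show Aff (pos i) (cmpH (t, ζ 0)) = Aff (pos i) xb
      rw [ζ.source, DC_fix _ _ MB_xb1 MB_xb2]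
    · intro t
      show Aff (pos i) (cmpH (t, ζ 1)) = Aff (pos i) xb
      rw [ζ.target, DC_fix _ _ MB_xb1 MB_xb2]
  have h2 : (FundamentalGroup.mapOfEq (MB_f D i) (MB_f_base D i)) (cls γ) = cls γf := by
    rw [FundamentalGroup.mapOfEq_apply]
    rfl
  rw [MonoidHom.comp_apply, h2, ← MB_cls h1, hT]
  congr 2
  apply Path.ext
  funext u
  apply Subtype.ext
  rw [e' u, sig]
  exact MB_trans (MB_tail D hS i) (γζ.trans (MB_tail D hS i).symm) (lineP xb (Aff (pos i) xb))
    ((ζ.map (continuous_Aff (pos i))).trans (lineP xb (Aff (pos i) xb)).symm) (fun _ => rfl)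
    (fun u => MB_trans γζ (MB_tail D hS i).symm (ζ.map (continuous_Aff (pos i)))
      (lineP xb (Aff (pos i) xb)).symm (fun _ => rfl)
      (fun u => MB_symm (MB_tail D hS i) (lineP xb (Aff (pos i) xb)) (fun _ => rfl) u) u) u

/-- The homomorphism from the group of the `i`-th summand. -/
noncomputable def io (D : Tri) (hS : VKnot (gS D)) (i : Fin 3) : PiM (D.hc i) →* PiM hS :=
  (MB_ex D hS i).choose

theorem MB (D : Tri) (hS : VKnot (gS D)) (i : Fin 3) (ζ : Path xb xb) (hbox : ∀ u, InBox (ζ u))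
    (γ : Path (xM (D.hc i)) (xM (D.hc i))) (γ' : Path (xM hS) (xM hS))
    (e : ∀ u, (γ u).1 = ζ u) (e' : ∀ u, (γ' u).1 = sig (pos i) ζ u) :
    io D hS i (cls γ) = cls γ' :=
  (MB_ex D hS i).choose_spec ζ hbox γ γ' e e'

theorem MB_exp (t : ℝ) : ‖Complex.exp (2 * Real.pi * t * Complex.I)‖ = 1 := by
  rw [show (2 * Real.pi * t * Complex.I : ℂ) = ((2 * Real.pi * t : ℝ) : ℂ) * Complex.I by
    push_cast; ring, Complex.norm_exp_ofReal_mul_I]

theorem MB_merPt_norm (t : ℝ) : ‖(merPt t).2‖ = 3 / 2 := by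
  show ‖(3 / 2 : ℂ) * Complex.exp (2 * Real.pi * t * Complex.I)‖ = 3 / 2
  rw [norm_mul, MB_exp, mul_one, show (3 / 2 : ℂ) = ((3 / 2 : ℝ) : ℂ) by push_cast; ring,
    Complex.norm_real]
  norm_num

theorem MB_merPt_cont : Continuous merPt := by
  unfold merPt
  fun_prop

theorem MB_merPt_zero : merPt 0 = xb := by
  simp [merPt, xb]

theorem MB_merPt_one : merPt 1 = xb := by
  simp [merPt, xb, Complex.exp_two_pi_mul_I]

/-- the family of circles -/
noncomputable def MB_Phi (a : ℝ) (q : ℝ × ℝ) : V :=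
  ((1 - q.1) * (-2) + q.1 * (-2 / 32 + a),
    ((max (3 / 8) ((1 - q.1) * (3 / 2) + q.1 * (3 / 8)) : ℝ) : ℂ) *
      Complex.exp (2 * Real.pi * q.2 * Complex.I))

theorem MB_Phi_cont (a : ℝ) : Continuous (MB_Phi a) := by
  unfold MB_Phi
  fun_prop

theorem MB_Phi_norm (a : ℝ) (q : ℝ × ℝ) : 3 / 8 ≤ ‖(MB_Phi a q).2‖ := by
  show 3 / 8 ≤ ‖((max (3 / 8) ((1 - q.1) * (3 / 2) + q.1 * (3 / 8)) : ℝ) : ℂ) *
      Complex.exp (2 * Real.pi * q.2 * Complex.I)‖
  rw [norm_mul, MB_exp, mul_one, Complex.norm_real, Real.norm_eq_abs]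
  exact (le_max_left _ _).trans (le_abs_self _)

theorem MB_max {v : ℝ} (h0 : 0 ≤ v) (h1 : v ≤ 1) :
    max (3 / 8) ((1 - v) * (3 / 2) + v * (3 / 8)) = (1 - v) * (3 / 2) + v * (3 / 8) :=
  max_eq_right (by linarith)

theorem MB_Phi_line (a : ℝ) (t : I) : MB_Phi a ((t : ℝ), 0) = lineP xb (Aff a xb) t := by
  rw [MB_line, MB_Phi]
  simp only [MB_max t.2.1 t.2.2]
  simp

theorem MB_Phi_line' (a : ℝ) (t : I) : MB_Phi a ((t : ℝ), 1) = lineP xb (Aff a xb) t := by
  rw [MB_line, MB_Phi]
  simp only [MB_max t.2.1 t.2.2]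
  simp [Complex.exp_two_pi_mul_I]

theorem MB_Phi_circ (a : ℝ) (t : ℝ) : MB_Phi a (1, t) = Aff a (merPt t) := by
  rw [MB_Phi, Aff, merPt]
  refine Prod.ext ?_ ?_
  · simp
  · simp only [MB_max zero_le_one le_rfl]
    push_cast
    ring

theorem MB_Phi_mer (a : ℝ) (t : ℝ) : MB_Phi a (0, t) = merPt t := by
  rw [MB_Phi, merPt]
  refine Prod.ext ?_ ?_
  · simp
  · simp only [MB_max le_rfl zero_le_one]
    push_cast
    ring

/-- the boundary paths of the square -/
noncomputable def MB_P1 : Path ((0, 0) : ℝ × ℝ) (1, 0) where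
  toFun t := ((t : ℝ), 0)
  continuous_toFun := by fun_prop
  source' := by simp
  target' := by simp

noncomputable def MB_P2 : Path ((1, 0) : ℝ × ℝ) (1, 1) where
  toFun t := (1, (t : ℝ))
  continuous_toFun := by fun_prop
  source' := by simp
  target' := by simp

noncomputable def MB_P3 : Path ((0, 1) : ℝ × ℝ) (1, 1) where
  toFun t := ((t : ℝ), 1)
  continuous_toFun := by fun_prop
  source' := by simp
  target' := by simp

noncomputable def MB_Q : Path ((0, 0) : ℝ × ℝ) (0, 1) where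
  toFun t := (0, (t : ℝ))
  continuous_toFun := by fun_prop
  source' := by simp
  target' := by simp

/-- paths in the image -/
theorem MB_im {X Y : Type*} [TopologicalSpace X] [TopologicalSpace Y] (f : X → Y) {x y z : X}
    {x' y' z' : Y} (p : Path x y) (q : Path y z) (p' : Path x' y') (q' : Path y' z')
    (hp : ∀ u, f (p u) = p' u) (hq : ∀ u, f (q u) = q' u) (u : I) :
    f ((p.trans q) u) = (p'.trans q') u := by
  rw [Path.trans_apply, Path.trans_apply]
  split_ifs with h
  · exact hp _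
  · exact hq _

/-- The meridian of a summand is sent to the meridian of the sum. Proof: the meridian `(-2, (3/2) e^{2πiθ})` is a box loop; `sig (pos i) m` is the tail, the circle
`(a - 1/16, (3/8) e^{2πiθ})` and the tail back, homotopic to the circle at `xb` through the circles `(s(v), r(v) e^{2πiθ})`, where `(s(v), r(v))` is the tail; all in
`{‖x.2‖ ≥ 3/8}`, which is disjoint from the curve. -/
theorem MB_mer (D : Tri) (hS : VKnot (gS D)) (i : Fin 3) (m : Path (xM (D.hc i)) (xM (D.hc i)))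
    (m' : Path (xM hS) (xM hS)) (hm : IsMer (D.hc i) m) (hm' : IsMer hS m') :
    io D hS i (cls m) = cls m' := by
  let ζ : Path xb xb :=
    { toFun := fun u => merPt u
      continuous_toFun := MB_merPt_cont.comp continuous_subtype_val
      source' := by simpa using MB_merPt_zero
      target' := by simpa using MB_merPt_one }
  have hζ : ∀ u, ζ u = merPt u := fun _ => rfl
  have hbox : ∀ u, InBox (ζ u) := fun u => by
    refine ⟨?_, ?_⟩
    · show |(-2 : ℝ)| ≤ 4
      rw [abs_le]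
      constructor <;> norm_num
    · rw [hζ, MB_merPt_norm]
      norm_num
  have hav : ∀ u, ζ u ∉ range (D.c i) := fun u => by
    rw [hζ, ← hm u]
    exact (m u).2
  let γ' : Path (xM hS) (xM hS) :=
    { toFun := fun u => ⟨sig (pos i) ζ u, MB_av D i ζ hbox hav u⟩
      continuous_toFun := Continuous.subtype_mk (sig (pos i) ζ).continuous _
      source' := Subtype.ext (sig (pos i) ζ).source
      target' := Subtype.ext (sig (pos i) ζ).target }
  rw [MB D hS i ζ hbox m γ' (fun u => hm u) fun _ => rfl]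
  apply MB_cls
  obtain ⟨F⟩ : (MB_P1.trans (MB_P2.trans MB_P3.symm)).Homotopic MB_Q :=
    SimplyConnectedSpace.paths_homotopic _ _
  have hF0 : ∀ u, F (0, u) = (MB_P1.trans (MB_P2.trans MB_P3.symm)) u := fun u =>
    F.map_zero_left u
  have hF1 : ∀ u, F (1, u) = MB_Q u := fun u => F.map_one_left u
  refine MB_mk γ' m' (fun p => MB_Phi (pos i) (F p)) ((MB_Phi_cont _).comp F.continuous)
    (fun p => MB_far D (MB_Phi_norm _ _)) ?_ ?_ ?_ ?_
  · intro u
    show MB_Phi (pos i) (F (0, u)) = sig (pos i) ζ u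
    rw [hF0, sig]
    refine MB_im (MB_Phi (pos i)) MB_P1 (MB_P2.trans MB_P3.symm) (lineP xb (Aff (pos i) xb))
      ((ζ.map (continuous_Aff (pos i))).trans (lineP xb (Aff (pos i) xb)).symm)
      (fun t => MB_Phi_line _ t) (fun u => ?_) u
    refine MB_im (MB_Phi (pos i)) MB_P2 MB_P3.symm (ζ.map (continuous_Aff (pos i)))
      (lineP xb (Aff (pos i) xb)).symm (fun t => MB_Phi_circ _ t) (fun t => ?_) u
    rw [Path.symm_apply, Path.symm_apply]
    exact MB_Phi_line' _ _
  · intro u
    show MB_Phi (pos i) (F (1, u)) = (m' u).1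
    rw [hF1, hm' u]
    exact MB_Phi_mer _ _
  · intro t
    have h1 : F (t, 0) = (0, 0) := F.source t
    show MB_Phi (pos i) (F (t, 0)) = xb
    rw [h1, MB_Phi_mer, MB_merPt_zero]
  · intro t
    have h1 : F (t, 1) = (0, 1) := F.target t
    show MB_Phi (pos i) (F (t, 1)) = xb
    rw [h1, MB_Phi_mer, MB_merPt_one]

theorem MB_exMer {g : ℝ → V} (hg : VKnot g) : ∃ m : Path (xM hg) (xM hg), IsMer hg m := by
  have h1 : ∀ t : ℝ, ‖(g t).2‖ ≤ 1 := by
    intro t
    rcases le_total |t| 1 with h | h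
    · have := hg.inBall t h
      nlinarith [sq_nonneg (g t).1, norm_nonneg (g t).2]
    · rw [hg.standard t h]
      simp
  have h2 : ∀ u : ℝ, merPt u ∉ range g := by
    rintro u ⟨t, ht⟩
    have h3 := h1 t
    rw [ht, MB_merPt_norm] at h3
    norm_num at h3
  exact ⟨{ toFun := fun u => ⟨merPt u, h2 u⟩
           continuous_toFun := Continuous.subtype_mk
            (MB_merPt_cont.comp continuous_subtype_val) _
           source' := Subtype.ext (by
            show merPt ((0 : I) : ℝ) = xb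
            simpa using MB_merPt_zero)
           target' := Subtype.ext (by
            show merPt ((1 : I) : ℝ) = xb
            simpa using MB_merPt_one) }, fun _ => rfl⟩

end LQ
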