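import Pool.Agent.H64.LQ.E1
import Pool.Agent.H64.LQ.E2
import Pool.Agent.H64.LQ.E3
import Pool.Agent.H64.LQ.FR
import Pool.Agent.H64.LQ.MB
import Pool.Agent.H64.LQ.D1

/-!
# E4: the two full twists and their transports

Notation: `hS : VKnot (gS D)`, base framed knot `x0 = frK` of `Com F0 F1 F2 (-1/4) 0 (1/4)` (E0_const), `forget x0 = mkK hS` (FR_forget).
`p01`: first half: `FR_path` for `Swp F1 F0 F2 (-1/4) 0 (1/4)` (outer `F1` from `0` to `-1/4`, inner `F0` from `-1/4` to `0`, third `F2` at `1/4`), from the framed knot of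
`Com F1 F0 F2 0 (-1/4) (1/4)` to that of `Com F1 F0 F2 (-1/4) 0 (1/4)`; second half: `Swp F0 F1 F2 (-1/4) 0 (1/4)`, from `Com F0 F1 F2 0 (-1/4) (1/4)` to `Com F0 F1 F2 (-1/4) 0 (1/4)`. By
E0_comm (applied to the point `Lj F2 c x` of the tube) and FR_eq the end points match: `Com F1 F0 F2 0 (-1/4) (1/4) = Com F0 F1 F2 (-1/4) 0 (1/4)` on the tube, etc.
`p12`: first half `Swp F2 F1 F0 0 (1/4) (-1/4)` (outer `F2`, inner `F1`, third `F0`), second half `Swp F1 F2 F0 0 (1/4) (-1/4)`; end points: `Com F2 F1 F0 (1/4) 0 (-1/4)` agrees on the tube with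
`Com F0 F1 F2 (-1/4) 0 (1/4)` (three transpositions, all the positions are at distance `≥ 1/4`, E0_comm, E0_maps).
Middle knots: curves `g'` (VKnot by K4/E0_const). The forgotten paths are paths `mkK hS → mkK hg' → mkK hS` with values the curves of `Swp (s, 0)`.
Transport, `p01`: let `ζ0` be a box loop avoiding `Thick F0` (hence `c0`: `range c0 ⊆ Thick F0` by D0_core), `ζ1` one avoiding `Thick F1`, `ζ2` a box loop avoiding `c2`. Write `s_a ζ` for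
`sig a ζ` and concatenation of paths by `·`.
First half (E2 with `F = F1`, `G = F0`, `lo = -1/4`, `hi = 0`, `c = 1/4`; E1; E3): `s_{-1/4} ζ0 ↦ ℓ · s_0 ζ0 · ℓ⁻¹`, `ℓ = s_{-1/4} (ellP F1)`; `s_0 ζ1 ↦ s_{-1/4} ζ1`; `s_{1/4} ζ2 ↦` itself.
Second half (`F = F0`, `G = F1`): `s_0 ζ0 ↦ s_{-1/4} ζ0` (E1); `s_{-1/4} ζ1 ↦ ℓ' · s_0 ζ1 · ℓ'⁻¹`, `ℓ' = s_{-1/4} (ellP F0)` (E2, needs only `ζ1` avoiding `c1`); so also
`ℓ = s_{-1/4} (ellP F1) ↦ ℓ' · s_0 (ellP F1) · ℓ'⁻¹` (`ellP F1` is a box loop avoiding `c1`: its second coordinate is `3/2` on the straight parts, and on the middle part it is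
`Fh F1` of points `(s, 3/2)`, not on the core by injectivity D0_inj, in the box by D0_box; `‖·‖ < 2` strictly: `D0_open`/`D0_inj`: see E4_ell). With
`Li = io i (cls (ellM i))` (`ellM i` the loop `ellP (F i)` in the complement of `c i`; `Li = cls (s_{pos i} (ellP F_i))` by MB) and `cls (p · q) = cls q * cls p`:
`T01 (io 0 y) = W⁻¹ * io 0 y * W`, `W = L0⁻¹ * L1 * L0`; `T01 (io 1 y) = L0⁻¹ * io 1 y * L0`; `T01 (io 2 y) = io 2 y` for all `y` (every `y` is represented as in D1).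
`p12`: in the same way with `(F1, F2)` in place of `(F0, F1)` and `lo = 0`, `hi = 1/4`, `c = -1/4`:
`T12 (io 0 y) = io 0 y`, `T12 (io 1 y) = W'⁻¹ * io 1 y * W'`, `W' = L1⁻¹ * L2 * L1`, `T12 (io 2 y) = L1⁻¹ * io 2 y * L1`.
The transport of the composite path is the composite (T9_trans).
E4_ell: `ellP F` is a box loop (`|x.1| ≤ 4`, `‖x.2‖ < 2`) avoiding the curve. For the middle part, `Fh F (s, 3/2)` with `|s| ≤ 4`: D0_box gives `‖·‖ ≤ 2`; strict inequality: the set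
`Fh F '' {‖x.2‖ < 2}` is open and contained in `{‖x.2‖ ≤ 2}` (D0_tube), hence in its interior `{‖x.2‖ < 2}`.
-/

open scoped ContDiff unitInterval
open Topology Set

namespace LQ

open LK

theorem E4_snd {c : ℝ → V} (hc : VKnot c) (t : ℝ) : ‖(c t).2‖ ≤ 1 := by
  by_cases h : |t| ≤ 1
  · have h1 := hc.inBall t h
    have h2 := sq_nonneg (c t).1
    have h3 := norm_nonneg (c t).2
    nlinarith
  · rw [hc.standard t (not_le.1 h).le]
    simp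

theorem E4_core {c : ℝ → V} {F : V → V} (hF : Fat2 (cor c) F) {x : V} (hx : x ∉ Thick F) :
    x ∉ range c := by
  rintro ⟨t, rfl⟩
  refine hx ⟨(t, 0), ?_, D0_core hF t⟩
  show ‖(0 : ℂ)‖ ≤ 5 / 4
  rw [norm_zero]
  norm_num

theorem E4_tr {X : Type*} [TopologicalSpace X] {x y z : X} (p : Path x y) (q : Path y z)
    {P : X → Prop} (hp : ∀ u, P (p u)) (hq : ∀ u, P (q u)) (u : I) : P ((p.trans q) u) := by
  rw [Path.trans_apply]
  split_ifs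
  · exact hp _
  · exact hq _

theorem E4_line {x y : V} (hx : |x.1| ≤ 4) (hy : |y.1| ≤ 4) (ex : x.2 = (3 / 2 : ℂ))
    (ey : y.2 = (3 / 2 : ℂ)) (u : I) :
    |(lineP x y u).1| ≤ 4 ∧ (lineP x y u).2 = (3 / 2 : ℂ) := by
  have h0 := u.2.1
  have h1 := u.2.2
  have e1 : (lineP x y u).1 = (1 - (u : ℝ)) * x.1 + (u : ℝ) * y.1 := rfl
  have e2 : (lineP x y u).2 = (1 - (u : ℝ)) • x.2 + (u : ℝ) • y.2 := rfl
  constructor
  · rw [e1]
    rw [abs_le] at hx hy ⊢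
    constructor <;> nlinarith
  · rw [e2, ex, ey, ← add_smul]
    simp

theorem E4_32 : ‖(3 / 2 : ℂ)‖ = 3 / 2 := by
  rw [show (3 / 2 : ℂ) = ((3 / 2 : ℝ) : ℂ) by push_cast; ring, Complex.norm_real]
  norm_num

theorem E4_strict {c : ℝ → V} {F : V → V} (hF : Fat2 c F) (x : V) (h : ‖x.2‖ < 2) :
    ‖(Fh F x).2‖ < 2 := by
  have hle := D0_tube hF x h.le
  refine lt_of_le_of_ne hle fun heq => ?_
  have hUo : IsOpen {y : V | ‖y.2‖ < 2} := isOpen_lt (by fun_prop) continuous_const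
  have hO : IsOpen (Fh F '' {y : V | ‖y.2‖ < 2}) := D0_open hF _ hUo fun y hy => hy
  have hmem : Fh F x ∈ Fh F '' {y : V | ‖y.2‖ < 2} := mem_image_of_mem _ h
  have hcont : Continuous fun ε : ℝ => (((Fh F x).1, (1 + ε) • (Fh F x).2) : V) := by fun_prop
  have h0 : (((Fh F x).1, (1 + (0 : ℝ)) • (Fh F x).2) : V) = Fh F x := by simp
  have hev : ∀ᶠ ε in 𝓝 (0 : ℝ), (((Fh F x).1, (1 + ε) • (Fh F x).2) : V) ∈
      Fh F '' {y : V | ‖y.2‖ < 2} := by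
    refine hcont.continuousAt.eventually_mem (hO.mem_nhds ?_)
    rw [h0]
    exact hmem
  obtain ⟨δ, hδ, hδ'⟩ := Metric.eventually_nhds_iff.1 hev
  have h1 := hδ' (y := δ / 2) (by
    rw [dist_zero_right, Real.norm_of_nonneg (by positivity)]
    linarith)
  obtain ⟨y, hy, hye⟩ := h1
  have h2 := D0_tube hF y (le_of_lt hy)
  rw [hye] at h2
  have h3 : ‖(1 + δ / 2) • (Fh F x).2‖ = (1 + δ / 2) * 2 := by
    rw [norm_smul, heq, Real.norm_of_nonneg (by positivity)]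
  have h4 : ‖(1 + δ / 2) • (Fh F x).2‖ ≤ 2 := h2
  rw [h3] at h4
  linarith

theorem E4_ell {c : ℝ → V} {F : V → V} (hF : Fat2 (cor c) F) (hc : VKnot c) (u : I) :
    InBox (ellP hF.toFat u) ∧ ellP hF.toFat u ∉ range c := by
  have hxb1 : |xb.1| ≤ 4 := by norm_num [xb]
  have heL1 : |eL.1| ≤ 4 := by norm_num [eL]
  have heR1 : |eR.1| ≤ 4 := by norm_num [eR]
  have hline : ∀ {x y : V}, |x.1| ≤ 4 → |y.1| ≤ 4 → x.2 = (3 / 2 : ℂ) → y.2 = (3 / 2 : ℂ) →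
      ∀ v : I, InBox (lineP x y v) ∧ lineP x y v ∉ range c := by
    intro x y hx hy ex ey v
    obtain ⟨h1, h2⟩ := E4_line hx hy ex ey v
    refine ⟨⟨h1, by rw [h2, E4_32]; norm_num⟩, ?_⟩
    rintro ⟨t, ht⟩
    have h3 := E4_snd hc t
    rw [ht, h2, E4_32] at h3
    norm_num at h3
  unfold ellP
  refine E4_tr (P := fun x => InBox x ∧ x ∉ range c) _ _ (hline hxb1 heL1 rfl rfl) ?_ u
  refine E4_tr (P := fun x => InBox x ∧ x ∉ range c) _ _ ?_ (hline heR1 hxb1 rfl rfl)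
  intro v
  show InBox (Fh F (lineP eL eR v)) ∧ Fh F (lineP eL eR v) ∉ range c
  obtain ⟨h1, h2⟩ := E4_line heL1 heR1 rfl rfl v
  have h3 : ‖(lineP eL eR v).2‖ < 2 := by
    rw [h2, E4_32]
    norm_num
  refine ⟨⟨(D0_box hF _ h3.le h1).1, E4_strict hF _ h3⟩, ?_⟩
  rintro ⟨t, ht⟩
  rw [← D0_core hF t] at ht
  have h4 : ((t, 0) : V) ∈ {x : V | ‖x.2‖ ≤ 2} := by
    show ‖(0 : ℂ)‖ ≤ 2
    rw [norm_zero]
    norm_num
  have h5 := D0_inj hF h4 h3.le ht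
  have h6 : (0 : ℂ) = (lineP eL eR v).2 := congrArg Prod.snd h5
  rw [h2] at h6
  norm_num at h6

/-- The longitude loop in the complement. -/
noncomputable def ellM {c : ℝ → V} {F : V → V} (hF : Fat2 (cor c) F) (hc : VKnot c) :
    Path (xM hc) (xM hc) where
  toFun u := ⟨ellP hF.toFat u, (E4_ell hF hc u).2⟩
  continuous_toFun := by
    exact (ellP hF.toFat).continuous.subtype_mk _
  source' := Subtype.ext (ellP hF.toFat).source
  target' := Subtype.ext (ellP hF.toFat).target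

/-- The element `Li` of the group of the sum. -/
noncomputable def LL (D : Tri) (hS : VKnot (gS D)) (i : Fin 3) : PiM hS :=
  io D hS i (cls (ellM (D.hF i) (D.hc i)))

/-- The lift of a loop to the complement. -/
noncomputable def E4_lft {g : ℝ → V} (hg : VKnot g) (Z : Path xb xb) (h : ∀ u, Z u ∉ range g) :
    Path (xM hg) (xM hg) where
  toFun u := ⟨Z u, h u⟩
  continuous_toFun := Z.continuous.subtype_mk _
  source' := Subtype.ext Z.source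
  target' := Subtype.ext Z.target

theorem E4_vtr {g : ℝ → V} {hg : VKnot g} {p q : Path (xM hg) (xM hg)} {P Q : Path xb xb}
    (hp : ∀ u, (p u).1 = P u) (hq : ∀ u, (q u).1 = Q u) (u : I) :
    ((p.trans q) u).1 = (P.trans Q) u := by
  rw [Path.trans_apply, Path.trans_apply]
  split_ifs
  · exact hp _
  · exact hq _

theorem E4_vsy {g : ℝ → V} {hg : VKnot g} {p : Path (xM hg) (xM hg)} {P : Path xb xb}
    (hp : ∀ u, (p u).1 = P u) (u : I) : (p.symm u).1 = P.symm u :=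
  hp _

theorem E4_cls_trans {X : Type*} [TopologicalSpace X] {x : X} (p q : Path x x) :
    cls (p.trans q) = cls q * cls p := rfl

theorem E4_cls_symm {X : Type*} [TopologicalSpace X] {x : X} (p : Path x x) :
    cls p.symm = (cls p)⁻¹ := rfl

/-- The inner loops, in group form. -/
theorem E4_conj {cF cG cH : ℝ → V} {F G H : V → V} (hF : Fat2 (cor cF) F) (hG : Fat2 (cor cG) G)
    (hH : Fat2 (cor cH) H) (hcH : VKnot cH) {lo hi c : ℝ} (h1 : -1 / 4 ≤ lo)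
    (h2 : lo + 1 / 4 ≤ hi) (h3 : hi ≤ 1 / 4) (h4 : |c| ≤ 1 / 4)
    (h5 : c + 1 / 4 ≤ lo ∨ hi + 1 / 4 ≤ c) {gA gB : ℝ → V} (hA : VKnot gA) (hB : VKnot gB)
    (eA : ∀ t, gA t = Com F G H hi lo c (t, 0)) (eB : ∀ t, gB t = Com F G H lo hi c (t, 0))
    (α : Path (mkK hA) (mkK hB))
    (hα : ∀ (s : I) (t : ℝ), (α s).1 t = toE (Swp F G H lo hi c (s, 0) (t, 0)))
    (ζ : Path xb xb) (hbox : ∀ u, InBox (ζ u)) (hav : ∀ u, ζ u ∉ range cG)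
    (γ : Path (xM hA) (xM hA)) (γ1 ℓ : Path (xM hB) (xM hB)) (e : ∀ u, (γ u).1 = sig lo ζ u)
    (e1 : ∀ u, (γ1 u).1 = sig hi ζ u) (e2 : ∀ u, (ℓ u).1 = sig lo (ellP hF.toFat) u) :
    Tr hA hB α (cls γ) = (cls ℓ)⁻¹ * cls γ1 * cls ℓ := by
  rw [E2 hF hG hH hcH h1 h2 h3 h4 h5 hA hB eA eB α hα ζ hbox hav γ (ℓ.trans (γ1.trans ℓ.symm)) e
    (E4_vtr e2 (E4_vtr e1 (E4_vsy e2)))]
  rw [E4_cls_trans, E4_cls_trans, E4_cls_symm]

/-- the loops around the knot `c` placed at `a` avoid `g` -/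
def E4_Av (c : ℝ → V) (a : ℝ) (g : ℝ → V) : Prop :=
  ∀ ζ : Path xb xb, (∀ u, InBox (ζ u)) → (∀ u, ζ u ∉ range c) → ∀ u, sig a ζ u ∉ range g

/-- The full twist. -/
theorem E4_gen {ci cj ck : ℝ → V} {Fi Fj Fk : V → V} (hi' : Fat2 (cor ci) Fi)
    (hj' : Fat2 (cor cj) Fj) (hk' : Fat2 (cor ck) Fk) (hci : VKnot ci) (hcj : VKnot cj)
    (hck : VKnot ck) {lo hi c : ℝ} (h1 : -1 / 4 ≤ lo)
    (h2 : lo + 1 / 4 ≤ hi) (h3 : hi ≤ 1 / 4) (h4 : |c| ≤ 1 / 4)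
    (h5 : c + 1 / 4 ≤ lo ∨ hi + 1 / 4 ≤ c) {gA gB : ℝ → V} (hA : VKnot gA) (hB : VKnot gB)
    (eA : ∀ t, gA t = Com Fj Fi Fk hi lo c (t, 0)) (eB : ∀ t, gB t = Com Fj Fi Fk lo hi c (t, 0))
    (eB' : ∀ t, gB t = Com Fi Fj Fk hi lo c (t, 0)) (eA' : ∀ t, gA t = Com Fi Fj Fk lo hi c (t, 0))
    (α1 : Path (mkK hA) (mkK hB))
    (hα1 : ∀ (s : I) (t : ℝ), (α1 s).1 t = toE (Swp Fj Fi Fk lo hi c (s, 0) (t, 0)))
    (α2 : Path (mkK hB) (mkK hA))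
    (hα2 : ∀ (s : I) (t : ℝ), (α2 s).1 t = toE (Swp Fi Fj Fk lo hi c (s, 0) (t, 0)))
    (aBi : E4_Av ci hi gB) (aBj : E4_Av cj lo gB) (aBk : E4_Av ck c gB)
    (Li Lj : Path (xM hA) (xM hA)) (eLi : ∀ u, (Li u).1 = sig lo (ellP hi'.toFat) u)
    (eLj : ∀ u, (Lj u).1 = sig hi (ellP hj'.toFat) u) (ζ : Path xb xb)
    (hbox : ∀ u, InBox (ζ u)) (γ : Path (xM hA) (xM hA)) :
    ((∀ u, ζ u ∉ Thick Fi) → (∀ u, (γ u).1 = sig lo ζ u) →
      Tr hA hA (α1.trans α2) (cls γ) = ((cls Li)⁻¹ * cls Lj * cls Li)⁻¹ * cls γ *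
        ((cls Li)⁻¹ * cls Lj * cls Li)) ∧
    ((∀ u, ζ u ∉ Thick Fj) → (∀ u, (γ u).1 = sig hi ζ u) →
      Tr hA hA (α1.trans α2) (cls γ) = (cls Li)⁻¹ * cls γ * cls Li) ∧
    ((∀ u, ζ u ∉ range ck) → (∀ u, (γ u).1 = sig c ζ u) →
      Tr hA hA (α1.trans α2) (cls γ) = cls γ) := by
  rw [T9_trans hA hB hA α1 α2]
  refine ⟨fun hth e => ?_, fun hth e => ?_, fun hav e => ?_⟩
  · have hav : ∀ u, ζ u ∉ range ci := fun u => E4_core hi' (hth u)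
    have hbj : ∀ u, InBox (ellP hj'.toFat u) := fun u => (E4_ell hj' hcj u).1
    have haj : ∀ u, ellP hj'.toFat u ∉ range cj := fun u => (E4_ell hj' hcj u).2
    rw [MonoidHom.comp_apply, E4_conj hj' hi' hk' hck h1 h2 h3 h4 h5 hA hB eA eB α1 hα1 ζ hbox hav
      γ (E4_lft hB (sig hi ζ) (aBi ζ hbox hav)) (E4_lft hB (sig lo (ellP hj'.toFat))
        (aBj _ hbj haj)) e (fun u => rfl) (fun u => rfl), map_mul, map_mul, map_inv]
    rw [E4_conj hi' hj' hk' hck h1 h2 h3 h4 h5 hB hA eB' eA' α2 hα2 (ellP hj'.toFat) hbj haj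
      (E4_lft hB (sig lo (ellP hj'.toFat)) (aBj _ hbj haj)) Lj Li (fun u => rfl) eLj eLi]
    rw [E1 hi' hj' hk' h1 h2 h3 h4 h5 hB hA eB' eA' α2 hα2 ζ hbox hth
      (E4_lft hB (sig hi ζ) (aBi ζ hbox hav)) γ (fun u => rfl) e]
  · have hav : ∀ u, ζ u ∉ range cj := fun u => E4_core hj' (hth u)
    rw [MonoidHom.comp_apply, E1 hj' hi' hk' h1 h2 h3 h4 h5 hA hB eA eB α1 hα1 ζ hbox hth
      γ (E4_lft hB (sig lo ζ) (aBj ζ hbox hav)) e (fun u => rfl)]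
    exact E4_conj hi' hj' hk' hck h1 h2 h3 h4 h5 hB hA eB' eA' α2 hα2 ζ hbox hav
      (E4_lft hB (sig lo ζ) (aBj ζ hbox hav)) γ Li (fun u => rfl) e eLi
  · rw [MonoidHom.comp_apply, E3 hj' hi' hk' hci hck h1 h2 h3 h4 h5 hA hB eA eB α1 hα1 ζ hbox hav
      γ (E4_lft hB (sig c ζ) (aBk ζ hbox hav)) e (fun u => rfl)]
    exact E3 hi' hj' hk' hcj hck h1 h2 h3 h4 h5 hB hA eB' eA' α2 hα2 ζ hbox hav
      (E4_lft hB (sig c ζ) (aBk ζ hbox hav)) γ (fun u => rfl) e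

/-- The framed path of an exchange. -/
theorem E4_path {cF cG cH : ℝ → V} {F G H : V → V} (hF : Fat2 cF F) (hG : Fat2 cG G)
    (hH : Fat2 cH H) {lo hi c : ℝ} (h1 : |lo| ≤ 1 / 4) (h2 : |hi| ≤ 1 / 4) (h3 : |c| ≤ 1 / 4)
    {EA EB : V → V} (hEA : TubeFamily (fun _ : ℝ × ℝ => EA))
    (hEB : TubeFamily (fun _ : ℝ × ℝ => EB)) (eA : EqOn (Com F G H hi lo c) EA tube)
    (eB : EqOn (Com F G H lo hi c) EB tube) :
    ∃ P : Path (frK hEA) (frK hEB), ∀ (s : I) (t : ℝ),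
      (forget (P s)).1 t = toE (Swp F G H lo hi c (s, 0) (t, 0)) := by
  obtain ⟨P, hP⟩ := FR_path (E0_tube hF hG hH h1 h2 h3)
  have q1 : frK hEA = frK (FR_slice (E0_tube hF hG hH h1 h2 h3) (0, 0)) := by
    refine FR_eq _ _ fun x hx => ?_
    rw [← eA hx]
    show _ = Com F G H (hi - ((0 : I) : ℝ) * (hi - lo)) (lo + ((0 : I) : ℝ) * (hi - lo)) c x
    rw [Set.Icc.coe_zero, zero_mul, sub_zero, add_zero]
  have q2 : frK hEB = frK (FR_slice (E0_tube hF hG hH h1 h2 h3) (1, 0)) := by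
    refine FR_eq _ _ fun x hx => ?_
    rw [← eB hx]
    show _ = Com F G H (hi - ((1 : I) : ℝ) * (hi - lo)) (lo + ((1 : I) : ℝ) * (hi - lo)) c x
    rw [Set.Icc.coe_one, one_mul, sub_sub_cancel, add_sub_cancel]
  refine ⟨P.cast q1 q2, fun s t => ?_⟩
  rw [Path.cast_coe, hP]
  rfl

theorem E4_cast {X Y : Type*} [TopologicalSpace X] [TopologicalSpace Y] {f : X → Y}
    (hf : Continuous f) {x y z : X} (p : Path x y) (q : Path y z) {a b c : Y} (ha : a = f x)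
    (hb : b = f y) (hc : c = f z) : ((p.trans q).map hf).cast ha hc =
      ((p.map hf).cast ha hb).trans ((q.map hf).cast hb hc) := by
  subst ha hb hc
  rw [Path.cast_rfl_rfl, Path.cast_rfl_rfl, Path.cast_rfl_rfl, Path.map_trans]

theorem E4_c1 {cF cG cH : ℝ → V} {F G H : V → V} (hF : Fat2 cF F) (hG : Fat2 cG G)
    (hH : Fat2 cH H) (a b c : ℝ) (h : 1 / 4 ≤ |a - b|) (x : V) (hx : x ∈ tube) :
    Com F G H a b c x = Com G F H b a c x :=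
  E0_comm hF hG a b h _ (E0_maps hH c x hx)

theorem E4_c2 {cG cH : ℝ → V} {F G H : V → V} (hG : Fat2 cG G)
    (hH : Fat2 cH H) (a b c : ℝ) (h : 1 / 4 ≤ |b - c|) (x : V) (hx : x ∈ tube) :
    Com F G H a b c x = Com F H G a c b x :=
  congrArg (Lj F a) (E0_comm hG hH b c h x hx)

/-- permuted data -/
def E4_pm (D : Tri) (f : Fin 3 → Fin 3) : Tri where
  c i := D.c (f i)
  F i := D.F (f i)
  hc i := D.hc (f i)
  hF i := D.hF (f i)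

theorem E4_ax (t : ℝ) : ((t, 0) : V) ∈ tube := by
  show ‖(0 : ℂ)‖ ≤ 1 / 2
  rw [norm_zero]
  norm_num

theorem E4_rep (D : Tri) (hS : VKnot (gS D)) (i : Fin 3)
    (y : PiM (D.hc i)) : ∃ (ζ : Path xb xb) (γ : Path (xM hS) (xM hS)), (∀ u, InBox (ζ u)) ∧
      (∀ u, ζ u ∉ Thick (D.F i)) ∧ (∀ u, (γ u).1 = sig (pos i) ζ u) ∧ io D hS i y = cls γ := by
  obtain ⟨ζ, γ0, hb, hth, e, hy⟩ := D1 (D.hc i) (D.hF i) y
  have hav := MB_av D i ζ hb fun u => E4_core (D.hF i) (hth u)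
  refine ⟨ζ, E4_lft hS (sig (pos i) ζ) hav, hb, hth, fun u => rfl, ?_⟩
  rw [hy]
  exact MB D hS i ζ hb γ0 _ e fun u => rfl

theorem E4_LL (D : Tri) (hS : VKnot (gS D)) (i : Fin 3) :
    ∃ L : Path (xM hS) (xM hS), (∀ u, (L u).1 = sig (pos i) (ellP (D.hF i).toFat) u) ∧
      LL D hS i = cls L := by
  have hb : ∀ u, InBox (ellP (D.hF i).toFat u) := fun u => (E4_ell (D.hF i) (D.hc i) u).1
  have ha : ∀ u, ellP (D.hF i).toFat u ∉ range (D.c i) :=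
    fun u => (E4_ell (D.hF i) (D.hc i) u).2
  refine ⟨E4_lft hS _ (MB_av D i _ hb ha), fun u => rfl, ?_⟩
  exact MB D hS i _ hb _ _ (fun u => rfl) fun u => rfl

theorem E4 (D : Tri) (hS : VKnot (gS D)) :
    ∃ (x0 : FramedLongKnot 3) (h0 : forget x0 = mkK hS) (p01 p12 : Path x0 x0),
      let T01 := Tr hS hS ((p01.map K1_forget).cast h0.symm h0.symm)
      let T12 := Tr hS hS ((p12.map K1_forget).cast h0.symm h0.symm)
      let W01 := (LL D hS 0)⁻¹ * LL D hS 1 * LL D hS 0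
      let W12 := (LL D hS 1)⁻¹ * LL D hS 2 * LL D hS 1
      (∀ y, T01 (io D hS 0 y) = W01⁻¹ * io D hS 0 y * W01) ∧
      (∀ y, T01 (io D hS 1 y) = (LL D hS 0)⁻¹ * io D hS 1 y * LL D hS 0) ∧
      (∀ y, T01 (io D hS 2 y) = io D hS 2 y) ∧
      (∀ y, T12 (io D hS 0 y) = io D hS 0 y) ∧
      (∀ y, T12 (io D hS 1 y) = W12⁻¹ * io D hS 1 y * W12) ∧
      (∀ y, T12 (io D hS 2 y) = (LL D hS 1)⁻¹ * io D hS 2 y * LL D hS 1) := by
  have k0 := D.hF 0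
  have k1 := D.hF 1
  have k2 := D.hF 2
  have n14 : |(-1 / 4 : ℝ)| ≤ 1 / 4 := by rw [abs_of_neg (by norm_num)]; norm_num
  have n0 : |(0 : ℝ)| ≤ 1 / 4 := by rw [abs_zero]; norm_num
  have n41 : |(1 / 4 : ℝ)| ≤ 1 / 4 := by rw [abs_of_pos (by norm_num)]
  have d1 : (1 / 4 : ℝ) ≤ |0 - (-1 / 4)| := by norm_num
  have d1' : (1 / 4 : ℝ) ≤ |(-1 / 4) - 0| := by
    rw [abs_of_neg (by norm_num)]
    norm_num
  have d2 : (1 / 4 : ℝ) ≤ |(-1 / 4) - (1 / 4)| := by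
    rw [abs_of_neg (by norm_num)]
    norm_num
  have d3 : (1 / 4 : ℝ) ≤ |0 - 1 / 4| := by
    rw [abs_of_neg (by norm_num)]
    norm_num
  have d3' : (1 / 4 : ℝ) ≤ |1 / 4 - 0| := by
    rw [abs_of_pos (by norm_num)]
    norm_num
  -- the middle knots
  obtain ⟨D', hD'⟩ : ∃ D', D' = E4_pm D ![1, 0, 2] := ⟨_, rfl⟩
  obtain ⟨D'', hD''⟩ : ∃ D'', D'' = E4_pm D ![0, 2, 1] := ⟨_, rfl⟩
  have hB' : VKnot (gS D') := MG_knot D'
  have hB'' : VKnot (gS D'') := MG_knot D''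
  have g1 : ∀ t, gS D' t = Com (D.F 1) (D.F 0) (D.F 2) (-1 / 4) 0 (1 / 4) (t, 0) := by
    intro t
    rw [hD']
    rfl
  have g2 : ∀ t, gS D'' t = Com (D.F 0) (D.F 2) (D.F 1) (-1 / 4) 0 (1 / 4) (t, 0) := by
    intro t
    rw [hD'']
    rfl
  -- commutations on the tube
  have a1 : EqOn (Com (D.F 1) (D.F 0) (D.F 2) 0 (-1 / 4) (1 / 4))
      (Com (D.F 0) (D.F 1) (D.F 2) (-1 / 4) 0 (1 / 4)) tube := fun x hx =>
    E4_c1 k1 k0 k2 _ _ _ d1 x hx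
  have a2 : EqOn (Com (D.F 0) (D.F 1) (D.F 2) 0 (-1 / 4) (1 / 4))
      (Com (D.F 1) (D.F 0) (D.F 2) (-1 / 4) 0 (1 / 4)) tube := fun x hx =>
    E4_c1 k0 k1 k2 _ _ _ d1 x hx
  have b1 : EqOn (Com (D.F 1) (D.F 2) (D.F 0) 0 (1 / 4) (-1 / 4))
      (Com (D.F 0) (D.F 1) (D.F 2) (-1 / 4) 0 (1 / 4)) tube := fun x hx => by
    rw [← a1 hx]
    exact (E4_c2 k0 k2 _ _ _ d2 x hx).symm
  have b2 : EqOn (Com (D.F 2) (D.F 1) (D.F 0) (1 / 4) 0 (-1 / 4))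
      (Com (D.F 0) (D.F 1) (D.F 2) (-1 / 4) 0 (1 / 4)) tube := fun x hx => by
    rw [← b1 hx]
    exact E4_c1 k2 k1 k0 _ _ _ d3' x hx
  have b3 : EqOn (Com (D.F 2) (D.F 1) (D.F 0) 0 (1 / 4) (-1 / 4))
      (Com (D.F 0) (D.F 2) (D.F 1) (-1 / 4) 0 (1 / 4)) tube := fun x hx => by
    rw [E4_c1 k0 k2 k1 _ _ _ d1' x hx]
    exact (E4_c2 k0 k1 _ _ _ d2 x hx).symm
  have b4 : EqOn (Com (D.F 1) (D.F 2) (D.F 0) (1 / 4) 0 (-1 / 4))
      (Com (D.F 0) (D.F 2) (D.F 1) (-1 / 4) 0 (1 / 4)) tube := fun x hx => by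
    rw [← b3 hx]
    exact E4_c1 k1 k2 k0 _ _ _ d3' x hx
  -- the framed knots
  have hE : TubeFamily (fun _ : ℝ × ℝ => Com (D.F 0) (D.F 1) (D.F 2) (-1 / 4) 0 (1 / 4)) :=
    E0_const k0 k1 k2 n14 n0 n41
  have hE' : TubeFamily (fun _ : ℝ × ℝ => Com (D.F 1) (D.F 0) (D.F 2) (-1 / 4) 0 (1 / 4)) :=
    E0_const k1 k0 k2 n14 n0 n41
  have hE'' : TubeFamily (fun _ : ℝ × ℝ => Com (D.F 0) (D.F 2) (D.F 1) (-1 / 4) 0 (1 / 4)) :=
    E0_const k0 k2 k1 n14 n0 n41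
  have h0 : forget (frK hE) = mkK hS := FR_forget hE hS fun t => rfl
  have h0' : forget (frK hE') = mkK hB' := FR_forget hE' hB' g1
  have h0'' : forget (frK hE'') = mkK hB'' := FR_forget hE'' hB'' g2
  obtain ⟨P1, hP1⟩ := E4_path k1 k0 k2 n14 n0 n41 hE hE' a1 (fun x _ => rfl)
  obtain ⟨P2, hP2⟩ := E4_path k0 k1 k2 n14 n0 n41 hE' hE a2 (fun x _ => rfl)
  obtain ⟨Q1, hQ1⟩ := E4_path k2 k1 k0 n0 n41 n14 hE hE'' b2 b3
  obtain ⟨Q2, hQ2⟩ := E4_path k1 k2 k0 n0 n41 n14 hE'' hE b4 b1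
  obtain ⟨L0, eL0, cL0⟩ := E4_LL D hS 0
  obtain ⟨L1, eL1, cL1⟩ := E4_LL D hS 1
  obtain ⟨L2, eL2, cL2⟩ := E4_LL D hS 2
  -- avoidance for the middle knots
  have v1 : E4_Av (D.c 0) 0 (gS D') := by
    rw [hD']
    exact MB_av (E4_pm D ![1, 0, 2]) 1
  have v2 : E4_Av (D.c 1) (-1 / 4) (gS D') := by
    rw [hD']
    exact MB_av (E4_pm D ![1, 0, 2]) 0
  have v3 : E4_Av (D.c 2) (1 / 4) (gS D') := by
    rw [hD']
    exact MB_av (E4_pm D ![1, 0, 2]) 2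
  have w1 : E4_Av (D.c 1) (1 / 4) (gS D'') := by
    rw [hD'']
    exact MB_av (E4_pm D ![0, 2, 1]) 2
  have w2 : E4_Av (D.c 2) 0 (gS D'') := by
    rw [hD'']
    exact MB_av (E4_pm D ![0, 2, 1]) 1
  have w3 : E4_Av (D.c 0) (-1 / 4) (gS D'') := by
    rw [hD'']
    exact MB_av (E4_pm D ![0, 2, 1]) 0
  have gen1 := fun ζ hb γ => E4_gen k0 k1 k2 (D.hc 0) (D.hc 1) (D.hc 2) (lo := -1 / 4) (hi := 0)
    (c := 1 / 4) (by norm_num) (by norm_num) (by norm_num) n41 (Or.inr (by norm_num)) hS hB'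
    (fun t => (a1 (E4_ax t)).symm) g1 (fun t => (g1 t).trans (a2 (E4_ax t)).symm) (fun t => rfl)
    ((P1.map K1_forget).cast h0.symm h0'.symm) hP1 ((P2.map K1_forget).cast h0'.symm h0.symm) hP2
    v1 v2 v3 L0 L1 eL0 eL1 ζ hb γ
  have gen2 := fun ζ hb γ => E4_gen k1 k2 k0 (D.hc 1) (D.hc 2) (D.hc 0) (lo := 0) (hi := 1 / 4)
    (c := -1 / 4) (by norm_num) (by norm_num) (by norm_num) n14 (Or.inl (by norm_num)) hS hB''
    (fun t => (b2 (E4_ax t)).symm) (fun t => (g2 t).trans (b3 (E4_ax t)).symm)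
    (fun t => (g2 t).trans (b4 (E4_ax t)).symm) (fun t => (b1 (E4_ax t)).symm)
    ((Q1.map K1_forget).cast h0.symm h0''.symm) hQ1
    ((Q2.map K1_forget).cast h0''.symm h0.symm) hQ2
    w1 w2 w3 L1 L2 eL1 eL2 ζ hb γ
  refine ⟨frK hE, h0, P1.trans P2, Q1.trans Q2, ?_⟩
  rw [E4_cast K1_forget P1 P2 h0.symm h0'.symm h0.symm,
    E4_cast K1_forget Q1 Q2 h0.symm h0''.symm h0.symm, cL0, cL1, cL2]
  refine ⟨fun y => ?_, fun y => ?_, fun y => ?_, fun y => ?_, fun y => ?_, fun y => ?_⟩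
  · obtain ⟨ζ, γ, hb, hth, e, hy⟩ := E4_rep D hS 0 y
    rw [hy]
    exact (gen1 ζ hb γ).1 hth e
  · obtain ⟨ζ, γ, hb, hth, e, hy⟩ := E4_rep D hS 1 y
    rw [hy]
    exact (gen1 ζ hb γ).2.1 hth e
  · obtain ⟨ζ, γ, hb, hth, e, hy⟩ := E4_rep D hS 2 y
    rw [hy]
    exact (gen1 ζ hb γ).2.2 (fun u => E4_core k2 (hth u)) e
  · obtain ⟨ζ, γ, hb, hth, e, hy⟩ := E4_rep D hS 0 y
    rw [hy]
    exact (gen2 ζ hb γ).2.2 (fun u => E4_core k0 (hth u)) e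
  · obtain ⟨ζ, γ, hb, hth, e, hy⟩ := E4_rep D hS 1 y
    rw [hy]
    exact (gen2 ζ hb γ).1 hth e
  · obtain ⟨ζ, γ, hb, hth, e, hy⟩ := E4_rep D hS 2 y
    rw [hy]
    exact (gen2 ζ hb γ).2.1 hth e

end LQ
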