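import Pool.Agent.H64.LQ.MEd

/-!
# ME2: from the open sets to the complements of the summands

`κ_i : π₁(OO D i, xb) → PiM (D.hc i)`, induced by the continuous map `x ↦ Afi (pos i) x` (ME2_av) followed by the change of base point along the straight path from `xb` to
`Afi (pos i) xb` (contained in `{Re x.2 ≥ 3/2}`, disjoint from `c_i`).
ME3 (overlap): for a loop `r` at `xb` of the sum contained in `OO D i ∩ OO D j`, `i ≠ j`: all its points have `x.2 ≠ 0`: if `‖x.2‖ ≤ 1/4` then `x.1 ∈ SS i ∩ SS j`, which is contained in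
`(-3/16, -1/16) ∪ (1/16, 3/16)`, where the curve contains the axis (MG_axis'). By FB it has an angle `θ` with `θ 0 = 0`, and `θ 1 = n` is an integer. The loop `sgi (pos i) r` has angle
`0` on the straight parts and that of `r` in the middle, and it is in the far region of FA: where `1/4 < ‖r.2‖` the second coordinate is `> 1`; otherwise `r.1 ∈ SS i ∩ SS j` and
`|32 (r.1 - pos i)| > 1`. So by FA its class is `(cls m_i)^n`, and the same for `j` with the same `n`.
-/

open scoped ContDiff unitInterval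
open Topology Set

namespace LQ

open LK

private theorem ME2_norm {c : ℝ → V} (hc : VKnot c) (t : ℝ) : ‖(c t).2‖ ≤ 1 := by
  by_cases h : |t| ≤ 1
  · have h1 := hc.inBall t h
    have h2 := sq_nonneg (c t).1
    have h3 := norm_nonneg (c t).2
    by_contra hcon
    push Not at hcon
    nlinarith
  · rw [hc.standard t (le_of_lt (not_le.1 h))]
    simp

private theorem ME2_line (a : ℝ) (t : I) : ∃ ρ : ℝ, 3 / 2 ≤ ρ ∧
    (lineP xb (Afi a xb) t).2 = (ρ : ℂ) := by
  refine ⟨(1 - (t : ℝ)) * (3 / 2) + (t : ℝ) * 6, ?_, ?_⟩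
  · have := t.2.1
    linarith
  · show (1 - (t : ℝ)) • (3 / 2 : ℂ) + (t : ℝ) • (4 * (3 / 2) : ℂ) = _
    rw [Complex.real_smul, Complex.real_smul]
    push_cast
    ring

private theorem ME2_far {c : ℝ → V} (hc : VKnot c) {x : V} {ρ : ℝ} (hρ : 3 / 2 ≤ ρ)
    (hx : x.2 = (ρ : ℂ)) : x ∉ range c := by
  rintro ⟨t, ht⟩
  have h1 := ME2_norm hc t
  rw [ht, hx, Complex.norm_real, Real.norm_of_nonneg (by linarith)] at h1
  linarith

/-- the tail, in the complement of a summand -/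
private noncomputable def ME2_tail {c : ℝ → V} (hc : VKnot c) (a : ℝ)
    (ha : Afi a xb ∉ range c) : Path (xM hc) (⟨Afi a xb, ha⟩ : MV c) where
  toFun t := ⟨lineP xb (Afi a xb) t, by
    obtain ⟨ρ, h1, h2⟩ := ME2_line a t
    exact ME2_far hc h1 h2⟩
  continuous_toFun := (lineP xb (Afi a xb)).continuous.subtype_mk _
  source' := Subtype.ext (lineP xb (Afi a xb)).source
  target' := Subtype.ext (lineP xb (Afi a xb)).target

private theorem ME2_conj {X : Type*} [TopologicalSpace X] {x y : X} (q : Path x y)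
    (r : Path y y) : FundamentalGroup.fundamentalGroupMulEquivOfPath q.symm (cls r) =
      cls (q.trans (r.trans q.symm)) := by
  have e : FundamentalGroup.fundamentalGroupMulEquivOfPath q.symm (cls r) =
      cls (q.symm.symm.trans (r.trans q.symm)) := rfl
  rw [e, Path.symm_symm]

private theorem ME2_map {X Y : Type*} [TopologicalSpace X] [TopologicalSpace Y] (f : C(X, Y))
    {x : X} (r : Path x x) : FundamentalGroup.map f x (cls r) = cls (r.map f.continuous) :=
  rfl

private theorem ME2_ext {c : ℝ → V} {x y : MV c} {p q : Path x y}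
    (h : ∀ u, (p u).1 = (q u).1) : p = q :=
  Path.ext (funext fun u => Subtype.ext (h u))

private theorem ME2_tr {c : ℝ → V} {x y z : MV c} (p : Path x y) (q : Path y z) (u : I) :
    (p.trans q u).1 = ((p.map continuous_subtype_val).trans (q.map continuous_subtype_val)) u := by
  rw [← Path.map_trans]
  rfl

theorem ME2 (D : Tri) (hS : VKnot (gS D)) (i : Fin 3) :
    ∃ κ : FundamentalGroup (OO D i) ⟨xM hS, ME0_xb D hS i⟩ →* PiM (D.hc i),
      ∀ (r : Path xb xb) (p : Path (⟨xM hS, ME0_xb D hS i⟩ : OO D i) ⟨xM hS, ME0_xb D hS i⟩)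
        (δ : Path (xM (D.hc i)) (xM (D.hc i))), (∀ u, (p u).1.1 = r u) →
        (∀ u, (δ u).1 = sgi (pos i) r u) → κ (cls p) = cls δ := by
  have hΦ : Continuous (fun y : OO D i =>
      (⟨Afi (pos i) y.1.1, ME2_av D i y.1 y.2⟩ : MV (D.c i))) :=
    ((continuous_Afi (pos i)).comp
      (continuous_subtype_val.comp continuous_subtype_val)).subtype_mk _
  obtain ⟨Φ, hΦe⟩ : ∃ Φ : C(OO D i, MV (D.c i)),
      Φ = ⟨fun y => ⟨Afi (pos i) y.1.1, ME2_av D i y.1 y.2⟩, hΦ⟩ := ⟨_, rfl⟩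
  have ha : Afi (pos i) xb ∉ range (D.c i) := ME2_av D i (xM hS) (ME0_xb D hS i)
  have hb : Φ ⟨xM hS, ME0_xb D hS i⟩ = ⟨Afi (pos i) xb, ha⟩ := by
    rw [hΦe]
    rfl
  have q : Path (xM (D.hc i)) (Φ ⟨xM hS, ME0_xb D hS i⟩) :=
    (ME2_tail (D.hc i) (pos i) ha).cast rfl hb
  obtain ⟨q, hq⟩ : ∃ q : Path (xM (D.hc i)) (Φ ⟨xM hS, ME0_xb D hS i⟩),
      ∀ t, (q t).1 = lineP xb (Afi (pos i) xb) t :=
    ⟨(ME2_tail (D.hc i) (pos i) ha).cast rfl hb, fun t => rfl⟩
  refine ⟨(FundamentalGroup.fundamentalGroupMulEquivOfPath q.symm).toMonoidHom.comp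
    (FundamentalGroup.map Φ _), ?_⟩
  intro r p δ hp hδ
  have e1 : ((FundamentalGroup.fundamentalGroupMulEquivOfPath q.symm).toMonoidHom.comp
      (FundamentalGroup.map Φ _)) (cls p) =
      cls (q.trans ((p.map Φ.continuous).trans q.symm)) := by
    rw [← ME2_conj, ← ME2_map]
    rfl
  rw [e1]
  congr 2
  refine ME2_ext fun u => ?_
  rw [hδ u, ME2_tr, Path.map_trans]
  unfold sgi
  have hb' : (Φ ⟨xM hS, ME0_xb D hS i⟩).1 = Afi (pos i) xb := by rw [hb]
  have key : ∀ (w : V) (hw : (Φ ⟨xM hS, ME0_xb D hS i⟩).1 = w)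
      (Q : Path xb w) (R : Path w w),
      (∀ t, (q t).1 = Q t) → (∀ t, (Φ (p t)).1 = R t) →
      ((q.map continuous_subtype_val).trans (((p.map Φ.continuous).map
        continuous_subtype_val).trans (q.symm.map continuous_subtype_val))) u =
      (Q.trans (R.trans Q.symm)) u := by
    intro w hw Q R hQ hR
    subst hw
    have k1 : q.map continuous_subtype_val = Q := by
      ext1
      funext t
      exact hQ t
    have k2 : (p.map Φ.continuous).map continuous_subtype_val = R := by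
      ext1
      funext t
      exact hR t
    have k3 : q.symm.map continuous_subtype_val = Q.symm := by
      rw [← k1]
      rfl
    rw [k1, k2, k3]
    rfl
  refine key (Afi (pos i) xb) hb' _ _ hq fun t => ?_
  rw [hΦe]
  show Afi (pos i) (p t).1.1 = Afi (pos i) (r t)
  rw [hp t]

private theorem ME2_cases (a : ℝ) (r : Path xb xb) (u : I) :
    (∃ t, sgi a r u = lineP xb (Afi a xb) t) ∨ ∃ t, sgi a r u = Afi a (r t) := by
  have h : sgi a r u ∈ range (sgi a r) := ⟨u, rfl⟩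
  unfold sgi at h
  rw [Path.trans_range, Path.trans_range, Path.symm_range] at h
  rcases h with h | h | h
  · obtain ⟨t, ht⟩ := h
    exact Or.inl ⟨t, ht.symm⟩
  · obtain ⟨t, ht⟩ := h
    exact Or.inr ⟨t, ht.symm⟩
  · obtain ⟨t, ht⟩ := h
    exact Or.inl ⟨t, ht.symm⟩

theorem ME2_sgi (D : Tri) (i : Fin 3) (r : Path xb xb)
    (hr : ∀ u, ∃ x ∈ OO D i, (x : MV (gS D)).1 = r u) (u : I) :
    sgi (pos i) r u ∉ range (D.c i) := by
  rcases ME2_cases (pos i) r u with ⟨t, ht⟩ | ⟨t, ht⟩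
  · rw [ht]
    obtain ⟨ρ, h1, h2⟩ := ME2_line (pos i) t
    exact ME2_far (D.hc i) h1 h2
  · rw [ht]
    obtain ⟨x, hx, he⟩ := hr t
    rw [← he]
    exact ME2_av D i x hx

private theorem ME3_exp (n : ℤ) : Complex.exp (2 * Real.pi * ((n : ℝ) : ℂ) * Complex.I) = 1 := by
  rw [Complex.exp_eq_one_iff]
  exact ⟨n, by push_cast; ring⟩

private theorem ME3_one (D : Tri) (i : Fin 3) (r : Path xb xb)
    (hfar : ∀ u, 1 / 4 < ‖(r u).2‖ ∨ 1 / 16 < |(r u).1 - pos i|) (hne : ∀ u, (r u).2 ≠ 0)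
    (θ : C(I, ℝ)) (hθ : ∀ u, (r u).2 =
      (‖(r u).2‖ : ℂ) * Complex.exp (2 * Real.pi * (θ u) * Complex.I))
    (h0 : θ 0 = 0) (n : ℤ) (h1 : θ 1 = n) (δ m : Path (xM (D.hc i)) (xM (D.hc i)))
    (hδ : ∀ u, (δ u).1 = sgi (pos i) r u) (hm : IsMer (D.hc i) m) : cls δ = cls m ^ n := by
  obtain ⟨θp, hθp⟩ : ∃ θp : Path (0 : ℝ) (n : ℝ), ∀ t, θp t = θ t :=
    ⟨⟨θ, h0, h1⟩, fun _ => rfl⟩
  obtain ⟨Θ, hΘ⟩ : ∃ Θ : Path (0 : ℝ) (n : ℝ),
      Θ = (Path.refl 0).trans (θp.trans (Path.refl (n : ℝ))) := ⟨_, rfl⟩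
  -- the properties of all points
  have key : ∀ u, (1 < ‖(sgi (pos i) r u).2‖ ∨
      (1 < |(sgi (pos i) r u).1| ∧ (sgi (pos i) r u).2 ≠ 0)) ∧
      (sgi (pos i) r u).2 = (‖(sgi (pos i) r u).2‖ : ℂ) *
        Complex.exp (2 * Real.pi * (Θ u) * Complex.I) := by
    intro u
    have h2 : (sgi (pos i) r u, Θ u) ∈ range ((sgi (pos i) r).prod Θ) := ⟨u, rfl⟩
    rw [hΘ] at h2 ⊢
    unfold sgi at h2
    rw [← Path.trans_prod_eq_prod_trans, ← Path.trans_prod_eq_prod_trans, Path.trans_range,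
      Path.trans_range] at h2
    have hline : ∀ (t : I) (k : ℤ) (x : V) (y : ℝ), x = lineP xb (Afi (pos i) xb) t →
        y = (k : ℝ) → (1 < ‖x.2‖ ∨ (1 < |x.1| ∧ x.2 ≠ 0)) ∧
          x.2 = (‖x.2‖ : ℂ) * Complex.exp (2 * Real.pi * y * Complex.I) := by
      intro t k x y hx hy
      obtain ⟨ρ, q1, q2⟩ := ME2_line (pos i) t
      rw [← hx] at q2
      have q3 : ‖x.2‖ = ρ := by
        rw [q2, Complex.norm_real, Real.norm_of_nonneg (by linarith)]
      refine ⟨Or.inl (by rw [q3]; linarith), ?_⟩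
      rw [q3, hy, ME3_exp, mul_one, q2]
    rcases h2 with h2 | h2 | h2
    · obtain ⟨t, ht⟩ := h2
      have e1 : lineP xb (Afi (pos i) xb) t = sgi (pos i) r u := congrArg Prod.fst ht
      have e2 : (0 : ℝ) = ((Path.refl 0).trans (θp.trans (Path.refl (n : ℝ)))) u :=
        congrArg Prod.snd ht
      exact hline t 0 _ _ e1.symm (by rw [← e2]; simp)
    · obtain ⟨t, ht⟩ := h2
      have e1 : Afi (pos i) (r t) = sgi (pos i) r u := congrArg Prod.fst ht
      have e2 : θp t = ((Path.refl 0).trans (θp.trans (Path.refl (n : ℝ)))) u :=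
        congrArg Prod.snd ht
      rw [← e1, ← e2, hθp]
      have e3 : (Afi (pos i) (r t)).2 = 4 * (r t).2 := rfl
      have e4 : (Afi (pos i) (r t)).1 = 32 * ((r t).1 - pos i) := rfl
      have e5 : ‖(4 * (r t).2 : ℂ)‖ = 4 * ‖(r t).2‖ := by
        rw [norm_mul]
        norm_num
      rw [e3, e4, e5]
      refine ⟨?_, ?_⟩
      · rcases hfar t with h | h
        · left
          linarith
        · right
          refine ⟨?_, mul_ne_zero (by norm_num) (hne t)⟩
          rw [abs_mul, abs_of_pos (by norm_num : (0 : ℝ) < 32)]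
          linarith
      · have h3 := hθ t
        push_cast
        calc 4 * (r t).2 = 4 * ((‖(r t).2‖ : ℂ) *
              Complex.exp (2 * Real.pi * (θ t) * Complex.I)) := by rw [← h3]
          _ = _ := by ring
    · obtain ⟨t, ht⟩ := h2
      have e1 : lineP xb (Afi (pos i) xb) (unitInterval.symm t) = sgi (pos i) r u :=
        congrArg Prod.fst ht
      have e2 : (n : ℝ) = ((Path.refl 0).trans (θp.trans (Path.refl (n : ℝ)))) u :=
        congrArg Prod.snd ht
      exact hline _ n _ _ e1.symm e2.symm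
  refine FA (D.hc i) δ (fun u => ?_) Θ.toContinuousMap (fun u => ?_) Θ.source n Θ.target m hm
  · rw [hδ u]
    exact (key u).1
  · rw [hδ u]
    exact (key u).2

private theorem ME3_sep {i j : Fin 3} (hij : i ≠ j) {s : ℝ} (hi : s ∈ SS i) (hj : s ∈ SS j)
    (k : Fin 3) : 1 / 16 < |s - pos k| := by
  have h0 : s ∈ SS 0 ↔ s < -1 / 16 := Iff.rfl
  have h1 : s ∈ SS 1 ↔ |s| < 3 / 16 := Iff.rfl
  have h2 : s ∈ SS 2 ↔ 1 / 16 < s := Iff.rfl
  have hs : (-(3 / 16) < s ∧ s < -(1 / 16)) ∨ (1 / 16 < s ∧ s < 3 / 16) := by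
    fin_cases i <;> fin_cases j
    · exact absurd rfl hij
    · left
      have a := h0.1 hi
      have b := abs_lt.1 (h1.1 hj)
      exact ⟨by linarith [b.1], by linarith⟩
    · have a := h0.1 hi
      have b := h2.1 hj
      linarith
    · left
      have a := h0.1 hj
      have b := abs_lt.1 (h1.1 hi)
      exact ⟨by linarith [b.1], by linarith⟩
    · exact absurd rfl hij
    · right
      have a := h2.1 hj
      have b := abs_lt.1 (h1.1 hi)
      exact ⟨by linarith, by linarith [b.2]⟩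
    · have a := h0.1 hj
      have b := h2.1 hi
      linarith
    · right
      have a := h2.1 hi
      have b := abs_lt.1 (h1.1 hj)
      exact ⟨by linarith, by linarith [b.2]⟩
    · exact absurd rfl hij
  have p0 : pos 0 = -1 / 4 := rfl
  have p1 : pos 1 = 0 := rfl
  have p2 : pos 2 = 1 / 4 := rfl
  rw [lt_abs]
  fin_cases k
  · show 1 / 16 < s - pos 0 ∨ 1 / 16 < -(s - pos 0)
    rw [p0]
    left
    rcases hs with ⟨a, b⟩ | ⟨a, b⟩ <;> linarith
  · show 1 / 16 < s - pos 1 ∨ 1 / 16 < -(s - pos 1)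
    rw [p1]
    rcases hs with ⟨a, b⟩ | ⟨a, b⟩
    · right
      linarith
    · left
      linarith
  · show 1 / 16 < s - pos 2 ∨ 1 / 16 < -(s - pos 2)
    rw [p2]
    right
    rcases hs with ⟨a, b⟩ | ⟨a, b⟩ <;> linarith

theorem ME3 (D : Tri) (i j : Fin 3) (hij : i ≠ j) (r : Path xb xb)
    (hi : ∀ u, ∃ x ∈ OO D i, (x : MV (gS D)).1 = r u)
    (hj : ∀ u, ∃ x ∈ OO D j, (x : MV (gS D)).1 = r u) :
    ∃ n : ℤ,
      (∀ (δ m : Path (xM (D.hc i)) (xM (D.hc i))), (∀ u, (δ u).1 = sgi (pos i) r u) →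
        IsMer (D.hc i) m → cls δ = cls m ^ n) ∧
      (∀ (δ m : Path (xM (D.hc j)) (xM (D.hc j))), (∀ u, (δ u).1 = sgi (pos j) r u) →
        IsMer (D.hc j) m → cls δ = cls m ^ n) := by
  have hor : ∀ u, 1 / 4 < ‖(r u).2‖ ∨ ∀ k, 1 / 16 < |(r u).1 - pos k| := by
    intro u
    obtain ⟨x, hx, he⟩ := hi u
    obtain ⟨y, hy, he'⟩ := hj u
    rcases hx with hx | hx
    · rcases hy with hy | hy
      · right
        rw [he] at hx
        rw [he'] at hy
        exact ME3_sep hij hx hy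
      · left
        rwa [he'] at hy
    · left
      rwa [he] at hx
  have hne : ∀ u, (r u).2 ≠ 0 := by
    intro u h0
    rcases hor u with h | h
    · rw [h0, norm_zero] at h
      norm_num at h
    · have h1 := MG_axis' D (r u).1 fun k => by
        have := h k
        linarith
      have h2 : (((r u).1, 0) : V) = r u := Prod.ext rfl h0.symm
      rw [h2] at h1
      obtain ⟨x, -, he⟩ := hi u
      rw [← he] at h1
      exact x.2 h1
  have hcont : Continuous fun u => (r u).2 := continuous_snd.comp r.continuous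
  obtain ⟨θ, hθ0, hθ⟩ := FB (fun u => (r u).2) hcont hne
    ⟨3 / 2, by norm_num, by
      show (r 0).2 = ((3 / 2 : ℝ) : ℂ)
      rw [r.source]
      show (3 / 2 : ℂ) = _
      push_cast
      ring⟩
  have h1 : ∃ n : ℤ, θ 1 = n := by
    have h2 : (r 1).2 = (‖(r 1).2‖ : ℂ) *
      Complex.exp (2 * Real.pi * (θ 1) * Complex.I) := hθ 1
    rw [r.target] at h2
    have h3 : ‖(xb : V).2‖ = 3 / 2 := by
      show ‖(3 / 2 : ℂ)‖ = 3 / 2
      rw [show (3 / 2 : ℂ) = ((3 / 2 : ℝ) : ℂ) by push_cast; ring, Complex.norm_real]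
      norm_num
    rw [h3] at h2
    have h4 : (xb : V).2 = 3 / 2 := rfl
    rw [h4] at h2
    have h5 : Complex.exp (2 * Real.pi * (θ 1) * Complex.I) = 1 := by
      push_cast at h2
      have h6 : (3 / 2 : ℂ) ≠ 0 := by norm_num
      have h7 : (3 / 2 : ℂ) * 1 = 3 / 2 * Complex.exp (2 * Real.pi * (θ 1) * Complex.I) := by
        rw [mul_one]
        exact h2
      exact (mul_left_cancel₀ h6 h7).symm
    rw [Complex.exp_eq_one_iff] at h5
    obtain ⟨n, hn⟩ := h5
    refine ⟨n, ?_⟩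
    have h8 : (2 * Real.pi * Complex.I : ℂ) ≠ 0 := Complex.two_pi_I_ne_zero
    have h9 : (2 * Real.pi * Complex.I : ℂ) * (θ 1 : ℂ) = (2 * Real.pi * Complex.I) * (n : ℂ) := by
      linear_combination hn
    have h10 := mul_left_cancel₀ h8 h9
    exact_mod_cast h10
  obtain ⟨n, hn⟩ := h1
  refine ⟨n, ?_, ?_⟩
  · intro δ m hδ hm
    exact ME3_one D i r (fun u => (hor u).imp id fun h => h i) hne θ hθ hθ0 n hn δ m hδ hm
  · intro δ m hδ hm
    exact ME3_one D j r (fun u => (hor u).imp id fun h => h j) hne θ hθ hθ0 n hn δ m hδ hm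

end LQ
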