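import Pool.Agent.H64.LQ.VK1

/-!
# VK2: Seifert-van Kampen, existence (arbitrary open cover)

`O` open cover of `X` by sets containing `x`; (hp) every `y` is joined to `x` by a path contained in all the `O i` which contain `y`.
Homomorphisms `f i` of the fundamental groups of the `O i` into `Γ` which agree on the loops contained in `O i ∩ O j` come from a homomorphism on `X`.

Proof. For every `y ∈ X` choose by (hp) a path `h_y` from `x` to `y` contained in every `O i ∋ y`; take `h_x` constant. For a path `p : Path y z` with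
`range p ⊆ O i` put `φ_i(p) = f i (cls (h_y · p · h_z⁻¹))` (a loop in `O i`, as `h_y, h_z` are in `O i`). If `range p ⊆ O i ∩ O j`, then
`h_y, h_z` are in `O i ∩ O j` and `φ_i(p) = φ_j(p)` by the agreement hypothesis. Let `φ(p) = φ_i(p)` for any `i` with `range p ⊆ O i` if there is one, else `1`. Then
`φ = φ_i` on paths in `O i`; multiplicativity: `h_y (p q) h_w⁻¹ ≃ (h_y p h_z⁻¹)(h_z q h_w⁻¹)` in `O i`, and
`cls (r.trans s) = cls s * cls r`; homotopy invariance is clear. Apply VK1 and put `F (cls r) = Φ r` for loops `r` at `x` (well defined by homotopy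
invariance, multiplicative). For a loop in `O i`: `F (cls r) = φ_i(r) = f i (cls p)` as `h_x` is constant.
-/

open scoped ContDiff unitInterval
open Topology Set

namespace LQ

open LK

/-- The lift of a path to a subset. -/
private def VK2_lp {X : Type*} [TopologicalSpace X] (S : Set X) {y z : X} (hy : y ∈ S) (hz : z ∈ S)
    (p : Path y z) (hp : ∀ t, p t ∈ S) : Path (⟨y, hy⟩ : S) ⟨z, hz⟩ where
  toFun t := ⟨p t, hp t⟩
  continuous_toFun := p.continuous.subtype_mk _
  source' := Subtype.ext p.source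
  target' := Subtype.ext p.target

private theorem VK2_mem_trans {X : Type*} [TopologicalSpace X] {S : Set X} {y z w : X}
    {p : Path y z} {q : Path z w} (hp : ∀ t, p t ∈ S) (hq : ∀ t, q t ∈ S) :
    ∀ t, (p.trans q) t ∈ S := by
  intro t
  rw [Path.trans_apply]
  split_ifs
  · exact hp _
  · exact hq _

private theorem VK2_mem_symm {X : Type*} [TopologicalSpace X] {S : Set X} {y z : X}
    {p : Path y z} (hp : ∀ t, p t ∈ S) : ∀ t, p.symm t ∈ S := by
  intro t
  rw [Path.symm_apply]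
  exact hp _

private theorem VK2_lp_trans {X : Type*} [TopologicalSpace X] {S : Set X} {y z w : X}
    (hy : y ∈ S) (hz : z ∈ S) (hw : w ∈ S)
    {p : Path y z} {q : Path z w} (hp : ∀ t, p t ∈ S) (hq : ∀ t, q t ∈ S) :
    VK2_lp S hy hw (p.trans q) (VK2_mem_trans hp hq) =
      (VK2_lp S hy hz p hp).trans (VK2_lp S hz hw q hq) := by
  apply Path.ext
  funext t
  apply Subtype.ext
  show (p.trans q) t = _
  rw [Path.trans_apply, Path.trans_apply]
  split_ifs <;> rfl

private theorem VK2_lp_symm {X : Type*} [TopologicalSpace X] {S : Set X} {y z : X}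
    (hy : y ∈ S) (hz : z ∈ S) {p : Path y z} (hp : ∀ t, p t ∈ S) :
    VK2_lp S hz hy p.symm (VK2_mem_symm hp) = (VK2_lp S hy hz p hp).symm := by
  apply Path.ext
  funext t
  rfl

private theorem VK2_lp_hom {X : Type*} [TopologicalSpace X] {S : Set X} {y z : X}
    (hy : y ∈ S) (hz : z ∈ S) {p q : Path y z} (H : p.Homotopy q) (hH : ∀ t, H t ∈ S)
    (hp : ∀ t, p t ∈ S) (hq : ∀ t, q t ∈ S) :
    (VK2_lp S hy hz p hp).Homotopic (VK2_lp S hy hz q hq) := by
  refine ⟨{ toFun := fun t => ⟨H t, hH t⟩, continuous_toFun := ?_, map_zero_left := ?_,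
            map_one_left := ?_, prop' := ?_ }⟩
  · exact (map_continuous H).subtype_mk _
  · intro t
    exact Subtype.ext (H.apply_zero t)
  · intro t
    exact Subtype.ext (H.apply_one t)
  · intro t u hu
    exact Subtype.ext (H.eq_fst t hu)

/-- The loop attached to a path. -/
private noncomputable def VK2_L {X : Type*} [TopologicalSpace X] {x : X} (h : ∀ y, Path x y) {y z : X}
    (p : Path y z) : Path x x := ((h y).trans p).trans (h z).symm

private theorem VK2_Lmem {X : Type*} [TopologicalSpace X] {x : X} (h : ∀ y, Path x y) {S : Set X}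
    (hS : ∀ y ∈ S, ∀ t, h y t ∈ S) {y z : X} {p : Path y z} (hp : ∀ t, p t ∈ S) :
    ∀ t, VK2_L h p t ∈ S := by
  have hy : y ∈ S := by
    have := hp 0
    rwa [p.source] at this
  have hz : z ∈ S := by
    have := hp 1
    rwa [p.target] at this
  exact VK2_mem_trans (VK2_mem_trans (hS y hy) hp) (VK2_mem_symm (hS z hz))

private theorem VK2_Leq {X : Type*} [TopologicalSpace X] {x : X} (h : ∀ y, Path x y) {S : Set X}
    (hx : x ∈ S) (hS : ∀ y ∈ S, ∀ t, h y t ∈ S) {y z : X} (hy : y ∈ S) (hz : z ∈ S) {p : Path y z}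
    (hp : ∀ t, p t ∈ S) :
    Path.Homotopic.Quotient.mk (VK2_lp S hx hx (VK2_L h p) (VK2_Lmem h hS hp)) =
      ((Path.Homotopic.Quotient.mk (VK2_lp S hx hy (h y) (hS y hy))).trans
        (Path.Homotopic.Quotient.mk (VK2_lp S hy hz p hp))).trans
        (Path.Homotopic.Quotient.mk (VK2_lp S hx hz (h z) (hS z hz))).symm := by
  rw [← Path.Homotopic.Quotient.mk_symm, ← Path.Homotopic.Quotient.mk_trans,
    ← Path.Homotopic.Quotient.mk_trans, ← VK2_lp_trans, ← VK2_lp_symm, ← VK2_lp_trans]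
  rfl

private theorem VK2_mul {X : Type*} [TopologicalSpace X] {x : X} (h : ∀ y, Path x y) {S : Set X}
    (hx : x ∈ S) (hS : ∀ y ∈ S, ∀ t, h y t ∈ S) {y z w : X} {p : Path y z} {q : Path z w}
    (hp : ∀ t, p t ∈ S) (hq : ∀ t, q t ∈ S) (hpq : ∀ t, (p.trans q) t ∈ S) :
    cls (VK2_lp S hx hx (VK2_L h (p.trans q)) (VK2_Lmem h hS hpq)) =
      cls (VK2_lp S hx hx (VK2_L h q) (VK2_Lmem h hS hq)) *
        cls (VK2_lp S hx hx (VK2_L h p) (VK2_Lmem h hS hp)) := by
  have hy : y ∈ S := by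
    have := hp 0
    rwa [p.source] at this
  have hz : z ∈ S := by
    have := hp 1
    rwa [p.target] at this
  have hw : w ∈ S := by
    have := hq 1
    rwa [q.target] at this
  rw [FundamentalGroup.mul_def]
  show Path.Homotopic.Quotient.mk (VK2_lp S hx hx (VK2_L h (p.trans q)) (VK2_Lmem h hS hpq)) =
      (Path.Homotopic.Quotient.mk (VK2_lp S hx hx (VK2_L h p) (VK2_Lmem h hS hp))).trans
      (Path.Homotopic.Quotient.mk (VK2_lp S hx hx (VK2_L h q) (VK2_Lmem h hS hq)))
  rw [VK2_Leq h hx hS hy hw hpq, VK2_Leq h hx hS hy hz hp, VK2_Leq h hx hS hz hw hq,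
    VK2_lp_trans hy hz hw hp hq, Path.Homotopic.Quotient.mk_trans]
  have e : ∀ {a b c : S} (γ : Path.Homotopic.Quotient a b) (δ : Path.Homotopic.Quotient b c),
      γ.symm.trans (γ.trans δ) = δ := by
    intro a b c γ δ
    rw [← Path.Homotopic.Quotient.trans_assoc, Path.Homotopic.Quotient.symm_trans,
      Path.Homotopic.Quotient.refl_trans]
  simp only [Path.Homotopic.Quotient.trans_assoc, e]

private theorem VK2_ho {X : Type*} [TopologicalSpace X] {x : X} (h : ∀ y, Path x y) {S : Set X}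
    (hx : x ∈ S) (hS : ∀ y ∈ S, ∀ t, h y t ∈ S) {y z : X} {p q : Path y z} (H : p.Homotopy q)
    (hH : ∀ t, H t ∈ S) (hp : ∀ t, p t ∈ S) (hq : ∀ t, q t ∈ S) :
    cls (VK2_lp S hx hx (VK2_L h p) (VK2_Lmem h hS hp)) =
      cls (VK2_lp S hx hx (VK2_L h q) (VK2_Lmem h hS hq)) := by
  have hy : y ∈ S := by
    have := hp 0
    rwa [p.source] at this
  have hz : z ∈ S := by
    have := hp 1
    rwa [p.target] at this
  show Path.Homotopic.Quotient.mk (VK2_lp S hx hx (VK2_L h p) (VK2_Lmem h hS hp)) =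
      Path.Homotopic.Quotient.mk (VK2_lp S hx hx (VK2_L h q) (VK2_Lmem h hS hq))
  rw [VK2_Leq h hx hS hy hz hp, VK2_Leq h hx hS hy hz hq,
    Path.Homotopic.Quotient.eq.2 (VK2_lp_hom hy hz H hH hp hq)]

private theorem VK2_base {X : Type*} [TopologicalSpace X] {x : X} (h : ∀ y, Path x y) {S : Set X}
    (hx : x ∈ S) (hS : ∀ y ∈ S, ∀ t, h y t ∈ S) (h0 : ∀ t, h x t = x) {r : Path x x}
    (hr : ∀ t, r t ∈ S) (p : Path (⟨x, hx⟩ : S) ⟨x, hx⟩) (hp : ∀ t, (p t : X) = r t) :
    cls (VK2_lp S hx hx (VK2_L h r) (VK2_Lmem h hS hr)) = cls p := by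
  show Path.Homotopic.Quotient.mk (VK2_lp S hx hx (VK2_L h r) (VK2_Lmem h hS hr)) =
      Path.Homotopic.Quotient.mk p
  have e1 : VK2_lp S hx hx (h x) (hS x hx) = Path.refl _ := by
    apply Path.ext
    funext t
    exact Subtype.ext (h0 t)
  have e2 : VK2_lp S hx hx r hr = p := by
    apply Path.ext
    funext t
    exact Subtype.ext (hp t).symm
  rw [VK2_Leq h hx hS hx hx hr, e1, e2, ← Path.Homotopic.Quotient.mk_symm, Path.refl_symm,
    Path.Homotopic.Quotient.mk_refl, Path.Homotopic.Quotient.refl_trans,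
    Path.Homotopic.Quotient.trans_refl]

private theorem VK2_paths {X : Type*} [TopologicalSpace X] {ι : Type*} (O : ι → Set X) (x : X)
    (hx : ∀ i, x ∈ O i) (hp : ∀ y : X, ∃ p : Path x y, ∀ i, y ∈ O i → range p ⊆ O i) :
    ∃ h : ∀ y, Path x y, (∀ i, ∀ y ∈ O i, ∀ t, h y t ∈ O i) ∧ ∀ t, h x t = x := by
  have key : ∀ y, ∃ p : Path x y, (∀ i, y ∈ O i → ∀ t, p t ∈ O i) ∧ (y = x → ∀ t, p t = x) := by
    intro y
    by_cases hyx : y = x
    · subst hyx
      exact ⟨Path.refl y, fun i h t => h, fun _ t => rfl⟩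
    · obtain ⟨p, hp⟩ := hp y
      exact ⟨p, fun i hi t => hp i hi ⟨t, rfl⟩, fun h => absurd h hyx⟩
  choose h h1 h3 using key
  exact ⟨h, fun i y hy t => h1 y i hy t, h3 x rfl⟩

private theorem VK2_rg {X : Type*} [TopologicalSpace X] {y z : X} {p : Path y z} {S : Set X}
    (h : range p ⊆ S) : ∀ t, p t ∈ S := fun t => h ⟨t, rfl⟩

theorem VK2 {X : Type*} [TopologicalSpace X] {ι : Type*} (O : ι → Set X) (hO : ∀ i, IsOpen (O i))
    (hc : ⋃ i, O i = univ) (x : X) (hx : ∀ i, x ∈ O i)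
    (hp : ∀ y : X, ∃ p : Path x y, ∀ i, y ∈ O i → range p ⊆ O i) {Γ : Type*} [Group Γ]
    (f : ∀ i, FundamentalGroup (O i) ⟨x, hx i⟩ →* Γ)
    (hf : ∀ (i j : ι) (p : Path (⟨x, hx i⟩ : O i) ⟨x, hx i⟩) (q : Path (⟨x, hx j⟩ : O j) ⟨x, hx j⟩),
      (∀ t, (p t : X) = q t) → f i (cls p) = f j (cls q)) :
    ∃ F : FundamentalGroup X x →* Γ,
      ∀ (i : ι) (p : Path (⟨x, hx i⟩ : O i) ⟨x, hx i⟩) (r : Path x x), (∀ t, (p t : X) = r t) →
        F (cls r) = f i (cls p) := by
  classical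
  obtain ⟨h, h1, h0⟩ := VK2_paths O x hx hp
  set φ : ∀ (y z : X), Path y z → Γ := fun y z p =>
    if ha : ∃ i, ∀ t, p t ∈ O i then
      f ha.choose (cls (VK2_lp (O ha.choose) (hx _) (hx _) (VK2_L h p)
        (VK2_Lmem h (h1 _) ha.choose_spec)))
    else 1 with hφ
  have φi : ∀ (i : ι) {y z : X} (p : Path y z) (ha : ∀ t, p t ∈ O i),
      φ y z p = f i (cls (VK2_lp (O i) (hx i) (hx i) (VK2_L h p) (VK2_Lmem h (h1 i) ha))) := by
    intro i y z p ha
    have hex : ∃ i, ∀ t, p t ∈ O i := ⟨i, ha⟩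
    rw [hφ]
    simp only
    rw [dif_pos hex]
    exact hf _ _ _ _ fun t => rfl
  have hH : ∀ {y z : X} {p q : Path y z} (H : p.Homotopy q) {S : Set X}, range H ⊆ S →
      (∀ t, p t ∈ S) ∧ (∀ t, q t ∈ S) ∧ ∀ t, H t ∈ S := by
    intro y z p q H S hS
    refine ⟨fun t => ?_, fun t => ?_, fun t => hS ⟨t, rfl⟩⟩
    · have := hS ⟨(0, t), rfl⟩
      rwa [H.apply_zero t] at this
    · have := hS ⟨(1, t), rfl⟩
      rwa [H.apply_one t] at this
  obtain ⟨Φ, g1, g2, g3⟩ := VK1 O hO hc (fun {y z} p => φ y z p)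
    (by
      intro i y z w p q hp hq
      have hp' := VK2_rg hp
      have hq' := VK2_rg hq
      rw [φi i _ (VK2_mem_trans hp' hq'), φi i _ hp', φi i _ hq',
        VK2_mul h (hx i) (h1 i) hp' hq' (VK2_mem_trans hp' hq'), map_mul])
    (by
      intro i y z p q H hS
      obtain ⟨k1, k2, k3⟩ := hH H hS
      rw [φi i _ k1, φi i _ k2, VK2_ho h (hx i) (h1 i) H k3 k1 k2])
  let F : FundamentalGroup X x →* Γ :=
    { toFun := fun γ => Quotient.lift (fun r : Path x x => Φ r) (fun a b hab => g3 a b hab)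
        (FundamentalGroup.toPath γ)
      map_one' := by
        show Φ (Path.refl x) = 1
        have k1 := g2 (Path.refl x) (Path.refl x)
        have k2 := g3 _ _ (Path.Homotopic.refl_trans (Path.refl x))
        rw [k1] at k2
        exact mul_eq_left.1 k2
      map_mul' := by
        intro γ δ
        induction γ using Quotient.inductionOn with | _ a => ?_
        induction δ using Quotient.inductionOn with | _ b => ?_
        exact g2 b a }
  refine ⟨F, ?_⟩
  intro i p r hpr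
  have hr : ∀ t, r t ∈ O i := fun t => by
    rw [← hpr t]
    exact (p t).2
  have k1 : F (cls r) = Φ r := rfl
  have k2 : Φ r = φ x x r := g1 i r (by rintro _ ⟨t, rfl⟩; exact hr t)
  rw [k1, k2, φi i r hr, VK2_base h (hx i) (h1 i) h0 hr p hpr]

end LQ
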