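import Pool.Agent.H64.LQ.ME1
import Pool.Agent.H64.LQ.ME2
import Pool.Agent.H64.LQ.VK2
import Pool.Agent.H64.LQ.D1

/-!
# ME4: Seifert-van Kampen for the sum, existence

Apply VK2 to the cover `OO D i` (ME0_open, ME0_cover, ME0_xb, ME1) and the homomorphisms `f i ∘ κ_i` (ME2). Agreement: for loops `p` in `OO D i`, `q` in `OO D j` with the same points
`r`: if `i = j` then `p = q` (up to the identification); if `i ≠ j`, by ME3 `κ_i (cls p) = (cls m_i)^n`, `κ_j (cls q) = (cls m_j)^n` (meridian loops exist: MB_exMer), so both sides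
are `x^n`. We get `Φ` with `Φ (cls r) = f i (κ_i (cls p))`. Let `y : PiM (D.hc i)`; by D1 `y = cls γ` for a box loop `ζ` avoiding the curve (`range (D.c i) ⊆ Thick`, D0_core).
`io D hS i y = cls (sig (pos i) ζ)` (MB, MB_av), and `sig (pos i) ζ` is contained in `OO D i` (tails: `Re x.2 ≥ 3/8 > 1/4`; `Aff (pos i) (ζ u)` has first coordinate within `1/8` of `pos i`, in `SS i`). So
`Φ (io y) = f i (κ_i (cls (sig (pos i) ζ))) = f i (cls (sgi (pos i) (sig (pos i) ζ)))` and `sgi a (sig a ζ) = lineP xb (Afi a xb) · lineP (Afi a xb) xb · ζ · back ≃ ζ` in the complement of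
`c_i` (ME0_inv; straight lines in `{Re x.2 ≥ 3/2}`).
-/

open scoped ContDiff unitInterval
open Topology Set

namespace LQ

open LK

/-- straight-line homotopy in the complement of a curve -/
theorem ME4_cvx {g : ℝ → V} {x y : MV g} (P Q : Path x y) (C : Set V) (hC : Convex ℝ C)
    (hg : ∀ z ∈ C, z ∉ range g) (hP : ∀ t, (P t).1 ∈ C) (hQ : ∀ t, (Q t).1 ∈ C) :
    P.Homotopic Q := by
  refine ⟨{ toFun := fun q => ⟨(1 - (q.1 : ℝ)) • (P q.2).1 + (q.1 : ℝ) • (Q q.2).1, ?_⟩
            continuous_toFun := ?_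
            map_zero_left := ?_
            map_one_left := ?_
            prop' := ?_ }⟩
  · exact hg _ (hC (hP q.2) (hQ q.2) (by linarith [q.1.2.2]) q.1.2.1 (by ring))
  · refine Continuous.subtype_mk ?_ _
    fun_prop
  · intro t
    apply Subtype.ext
    simp
  · intro t
    apply Subtype.ext
    simp
  · intro s t ht
    apply Subtype.ext
    have e : P t = Q t := by
      rcases ht with rfl | ht
      · rw [P.source, Q.source]
      · rw [Set.mem_singleton_iff] at ht
        subst ht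
        rw [P.target, Q.target]
    show (1 - (s : ℝ)) • (P t).1 + (s : ℝ) • (Q t).1 = (P t).1
    rw [e, ← add_smul]
    simp

theorem ME4_half {c : ℝ → V} (hc : VKnot c) (z : V) (hz : z ∈ {z : V | 1 < z.2.re}) :
    z ∉ range c := by
  rintro ⟨t, rfl⟩
  have hz' : 1 < (c t).2.re := hz
  have h0 := Complex.re_le_norm (c t).2
  by_cases h : |t| ≤ 1
  · have h1 := hc.inBall t h
    nlinarith [sq_nonneg (c t).1]
  · have h1 := hc.standard t (le_of_lt (not_le.1 h))
    rw [h1] at hz'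
    simp at hz'
    linarith

theorem ME4_convex : Convex ℝ {z : V | 1 < z.2.re} := by
  intro x hx y hy s t hs ht hst
  have hx' : 1 < x.2.re := hx
  have hy' : 1 < y.2.re := hy
  show 1 < (s • x + t • y).2.re
  have e : (s • x + t • y).2.re = s * x.2.re + t * y.2.re := by
    simp
  rw [e]
  rcases hs.eq_or_lt with h | h
  · subst h
    have : t = 1 := by linarith
    subst this
    linarith
  · nlinarith

/-- lift of a path to the complement of a curve -/
noncomputable def ME4_lp {g : ℝ → V} {x y : V} (p : Path x y) (h : ∀ u, p u ∉ range g)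
    {a b : MV g} (ha : a.1 = x) (hb : b.1 = y) : Path a b where
  toFun u := ⟨p u, h u⟩
  continuous_toFun := p.continuous.subtype_mk _
  source' := Subtype.ext (by rw [ha]; exact p.source)
  target' := Subtype.ext (by rw [hb]; exact p.target)

theorem ME4_lineP (x y : V) (u : I) : lineP x y u = (1 - (u : ℝ)) • x + (u : ℝ) • y := rfl

theorem ME4_re1 (a : ℝ) (u : I) : 1 < (lineP xb (Afi a xb) u).2.re := by
  rw [ME4_lineP]
  have e : ((1 - (u : ℝ)) • xb + (u : ℝ) • Afi a xb).2.re =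
      (1 - (u : ℝ)) * (3 / 2) + (u : ℝ) * 6 := by
    simp [xb, Afi]
    norm_num
  rw [e]
  have := u.2.1
  nlinarith

theorem ME4_re0 (a : ℝ) (u : I) : 3 / 8 ≤ (lineP xb (Aff a xb) u).2.re := by
  rw [ME4_lineP]
  have e : ((1 - (u : ℝ)) • xb + (u : ℝ) • Aff a xb).2.re =
      (1 - (u : ℝ)) * (3 / 2) + (u : ℝ) * (3 / 8) := by
    simp [xb, Aff]
    norm_num
  rw [e]
  have := u.2.2
  nlinarith

theorem ME4_re2 (a : ℝ) (u : I) : 1 < (Afi a (lineP xb (Aff a xb) u)).2.re := by
  have e : (Afi a (lineP xb (Aff a xb) u)).2.re = 4 * (lineP xb (Aff a xb) u).2.re := by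
    simp [Afi]
  rw [e]
  have := ME4_re0 a u
  linarith

/-- a property of all the points of a concatenation -/
theorem ME4_trans {X : Type*} [TopologicalSpace X] {x y z : X} (p : Path x y) (q : Path y z)
    (S : X → Prop) (hp : ∀ u, S (p u)) (hq : ∀ u, S (q u)) (u : I) : S ((p.trans q) u) := by
  rw [Path.trans_apply]
  split_ifs
  · exact hp _
  · exact hq _

theorem ME4_symm {X : Type*} [TopologicalSpace X] {x y : X} (p : Path x y)
    (S : X → Prop) (hp : ∀ u, S (p u)) (u : I) : S (p.symm u) := by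
  rw [Path.symm_apply]
  exact hp _

theorem ME4_back {c : ℝ → V} (hc : VKnot c) (a : ℝ) (ζ : Path xb xb)
    (γ δ : Path (xM hc) (xM hc)) (hγ : ∀ u, (γ u).1 = ζ u)
    (hδ : ∀ u, (δ u).1 = sgi a (sig a ζ) u) : cls δ = cls γ := by
  have hinv : Afi a (Aff a xb) = xb := (ME0_inv a xb).1
  have n1 : ∀ u, lineP xb (Afi a xb) u ∉ range c := fun u => ME4_half hc _ (ME4_re1 a u)
  have n2 : ∀ u, ((lineP xb (Aff a xb)).map (continuous_Afi a)) u ∉ range c :=
    fun u => ME4_half hc _ (ME4_re2 a u)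
  let A : MV c := ⟨Afi a xb, by
    have h := n1 1
    rwa [(lineP xb (Afi a xb)).target] at h⟩
  let T1 : Path (xM hc) A := ME4_lp (lineP xb (Afi a xb)) n1 rfl rfl
  let T2 : Path A (xM hc) := ME4_lp ((lineP xb (Aff a xb)).map (continuous_Afi a)) n2 rfl hinv.symm
  have e1 : δ = T1.trans ((T2.trans (γ.trans T2.symm)).trans T1.symm) := by
    apply Path.ext
    funext u
    apply Subtype.ext
    rw [hδ]
    unfold sgi sig
    rw [Path.trans_apply, Path.trans_apply]
    split_ifs with h1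
    · rfl
    · rw [Path.trans_apply, Path.trans_apply]
      split_ifs with h2
      · rw [Path.map_coe, Function.comp_apply, Path.trans_apply, Path.trans_apply]
        split_ifs with h3
        · rfl
        · rw [Path.trans_apply, Path.trans_apply]
          split_ifs with h4
          · rw [Path.map_coe, Function.comp_apply, (ME0_inv a _).1, ← hγ]
          · rfl
      · rfl
  have e2 : (T1.trans T2).Homotopic (Path.refl _) := by
    refine ME4_cvx _ _ {z : V | 1 < z.2.re} ME4_convex (ME4_half hc) ?_ ?_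
    · exact ME4_trans _ _ (fun z : MV c => z.1 ∈ {z : V | 1 < z.2.re}) (fun u => ME4_re1 a u)
        (fun u => ME4_re2 a u)
    · intro u
      show 1 < (xb.2).re
      simp [xb]
      norm_num
  show Path.Homotopic.Quotient.mk δ = Path.Homotopic.Quotient.mk γ
  have e3 : (Path.Homotopic.Quotient.mk T1).trans (Path.Homotopic.Quotient.mk T2) =
      Path.Homotopic.Quotient.refl _ := by
    rw [← Path.Homotopic.Quotient.mk_trans, ← Path.Homotopic.Quotient.mk_refl]
    exact Path.Homotopic.Quotient.eq.2 e2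
  have e4 : (Path.Homotopic.Quotient.mk T2) = (Path.Homotopic.Quotient.mk T1).symm := by
    have h := congrArg (fun w => (Path.Homotopic.Quotient.mk T1).symm.trans w) e3
    rw [← Path.Homotopic.Quotient.trans_assoc, Path.Homotopic.Quotient.symm_trans,
      Path.Homotopic.Quotient.refl_trans, Path.Homotopic.Quotient.trans_refl] at h
    exact h
  rw [e1]
  simp only [Path.Homotopic.Quotient.mk_trans, Path.Homotopic.Quotient.mk_symm]
  rw [e4]
  have k1 : ∀ {a b d : MV c} (γ : Path.Homotopic.Quotient a b) (δ : Path.Homotopic.Quotient a d),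
      γ.trans (γ.symm.trans δ) = δ := by
    intro a b d γ δ
    rw [← Path.Homotopic.Quotient.trans_assoc, Path.Homotopic.Quotient.trans_symm,
      Path.Homotopic.Quotient.refl_trans]
  have k2 : ∀ {a b : MV c} (γ : Path.Homotopic.Quotient a b), γ.symm.symm = γ := by
    intro a b γ
    have h1 := Path.Homotopic.Quotient.symm_trans γ.symm
    have h2 := congrArg (fun w => w.trans γ) h1
    rw [Path.Homotopic.Quotient.trans_assoc, Path.Homotopic.Quotient.symm_trans,
      Path.Homotopic.Quotient.refl_trans, Path.Homotopic.Quotient.trans_refl] at h2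
    exact h2
  rw [k2, Path.Homotopic.Quotient.trans_assoc, Path.Homotopic.Quotient.trans_assoc, k1,
    Path.Homotopic.Quotient.trans_symm, Path.Homotopic.Quotient.trans_refl]

theorem ME4_posSS (i : Fin 3) (s : ℝ) (hs : |s| ≤ 4) : s / 32 + pos i ∈ SS i := by
  rw [abs_le] at hs
  fin_cases i
  · show s / 32 + -1 / 4 < -1 / 16
    linarith [hs.2]
  · show |s / 32 + 0| < 3 / 16
    rw [abs_lt]
    constructor <;> linarith [hs.1, hs.2]
  · show 1 / 16 < s / 32 + 1 / 4
    linarith [hs.1]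

theorem ME4_in (i : Fin 3) (ζ : Path xb xb) (hbox : ∀ u, InBox (ζ u)) (u : I) :
    (sig (pos i) ζ u).1 ∈ SS i ∨ 1 / 4 < ‖(sig (pos i) ζ u).2‖ := by
  have h1 : ∀ u, (lineP xb (Aff (pos i) xb) u).1 ∈ SS i ∨
      1 / 4 < ‖(lineP xb (Aff (pos i) xb) u).2‖ := by
    intro u
    right
    have h2 := ME4_re0 (pos i) u
    have h3 := Complex.re_le_norm (lineP xb (Aff (pos i) xb) u).2
    linarith
  refine ME4_trans _ _ (fun z : V => z.1 ∈ SS i ∨ 1 / 4 < ‖z.2‖) h1 (fun u => ?_) u
  refine ME4_trans _ _ (fun z : V => z.1 ∈ SS i ∨ 1 / 4 < ‖z.2‖) (fun u => ?_) (fun u => ?_) u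
  · left
    exact ME4_posSS i _ (hbox u).1
  · exact ME4_symm _ (fun z : V => z.1 ∈ SS i ∨ 1 / 4 < ‖z.2‖) h1 u

theorem ME4 (D : Tri) (hS : VKnot (gS D)) {Γ : Type*} [Group Γ]
    (f : ∀ i, PiM (D.hc i) →* Γ) (x : Γ)
    (hf : ∀ i (m : Path (xM (D.hc i)) (xM (D.hc i))), IsMer (D.hc i) m → f i (cls m) = x) :
    ∃ Φ : PiM hS →* Γ, ∀ i y, Φ (io D hS i y) = f i y := by
  choose κ hκ using fun i => ME2 D hS i
  -- lifts of the loops `sgi`
  have lift : ∀ (i : Fin 3) (r : Path xb xb)
      (hr : ∀ u, ∃ x ∈ OO D i, (x : MV (gS D)).1 = r u),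
      ∃ δ : Path (xM (D.hc i)) (xM (D.hc i)), ∀ u, (δ u).1 = sgi (pos i) r u := by
    intro i r hr
    exact ⟨ME4_lp (sgi (pos i) r) (ME2_sgi D i r hr) rfl rfl, fun u => rfl⟩
  have agree : ∀ (i j : Fin 3)
      (p : Path (⟨xM hS, ME0_xb D hS i⟩ : OO D i) ⟨xM hS, ME0_xb D hS i⟩)
      (q : Path (⟨xM hS, ME0_xb D hS j⟩ : OO D j) ⟨xM hS, ME0_xb D hS j⟩),
      (∀ t, (p t : MV (gS D)) = q t) →
      ((f i).comp (κ i)) (cls p) = ((f j).comp (κ j)) (cls q) := by
    intro i j p q hpq
    by_cases hij : i = j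
    · subst hij
      have e : p = q := by
        apply Path.ext
        funext t
        exact Subtype.ext (hpq t)
      rw [e]
    · let r : Path xb xb :=
        { toFun := fun u => (p u).1.1
          continuous_toFun := continuous_subtype_val.comp (continuous_subtype_val.comp p.continuous)
          source' := by rw [p.source]; rfl
          target' := by rw [p.target]; rfl }
      have hi : ∀ u, ∃ x ∈ OO D i, (x : MV (gS D)).1 = r u := fun u => ⟨(p u).1, (p u).2, rfl⟩
      have hj : ∀ u, ∃ x ∈ OO D j, (x : MV (gS D)).1 = r u := fun u =>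
        ⟨(q u).1, (q u).2, by rw [← hpq u]; rfl⟩
      obtain ⟨n, n1, n2⟩ := ME3 D i j hij r hi hj
      obtain ⟨δ1, d1⟩ := lift i r hi
      obtain ⟨δ2, d2⟩ := lift j r hj
      obtain ⟨m1, hm1⟩ := MB_exMer (D.hc i)
      obtain ⟨m2, hm2⟩ := MB_exMer (D.hc j)
      rw [MonoidHom.comp_apply, MonoidHom.comp_apply, hκ i r p δ1 (fun u => rfl) d1,
        hκ j r q δ2 (fun u => by rw [← hpq u]; rfl) d2, n1 δ1 m1 d1 hm1, n2 δ2 m2 d2 hm2,
        map_zpow, map_zpow, hf i m1 hm1, hf j m2 hm2]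
  obtain ⟨Φ, hΦ⟩ := VK2 (OO D) (ME0_open D) (ME0_cover D) (xM hS) (ME0_xb D hS) (ME1 D hS)
    (fun i => (f i).comp (κ i)) agree
  refine ⟨Φ, ?_⟩
  intro i y
  obtain ⟨ζ, γ, hbox, hth, hγ, rfl⟩ := D1 (D.hc i) (D.hF i) y
  have hav : ∀ u, ζ u ∉ range (D.c i) := by
    rintro u ⟨t, ht⟩
    refine hth u ⟨(t, 0), ?_, ?_⟩
    · show ‖(0 : ℂ)‖ ≤ 5 / 4
      rw [norm_zero]
      norm_num
    · rw [D0_core (D.hF i), ht]
  have hav' := MB_av D i ζ hbox hav
  let γ' : Path (xM hS) (xM hS) := ME4_lp (sig (pos i) ζ) hav' rfl rfl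
  have hmem : ∀ u, γ' u ∈ OO D i := fun u => ME4_in i ζ hbox u
  let p : Path (⟨xM hS, ME0_xb D hS i⟩ : OO D i) ⟨xM hS, ME0_xb D hS i⟩ :=
    { toFun := fun u => ⟨γ' u, hmem u⟩
      continuous_toFun := γ'.continuous.subtype_mk _
      source' := Subtype.ext γ'.source
      target' := Subtype.ext γ'.target }
  obtain ⟨δ, hδ⟩ := lift i (sig (pos i) ζ) (fun u => ⟨γ' u, hmem u, rfl⟩)
  rw [MB D hS i ζ hbox γ γ' hγ (fun u => rfl), hΦ i p γ' (fun t => rfl), MonoidHom.comp_apply,
    hκ i (sig (pos i) ζ) p δ (fun u => rfl) hδ, ME4_back (D.hc i) (pos i) ζ γ δ hγ hδ]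

end LQ
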