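import Pool.Agent.H64.LQ.Defs

/-!
# VK3: Seifert-van Kampen, generation

`X = A ∪ B` open, `x ∈ A ∩ B`, `A ∩ B` path connected: every loop at `x` is a product of loops contained in `A` and loops
contained in `B`.

Proof. Let `r` be a loop at `x`; choose `n` such that each piece `r_k` over `[k/n, (k+1)/n]` is in `A` or in `B` (Lebesgue), say in `C_k ∈ {A, B}`.
For each `k` choose a path `h_k` from `x` to `r(k/n)` contained in `C_{k-1} ∩ C_k` (`A`, `B` or `A ∩ B`): if `C_{k-1} ≠ C_k` then `r(k/n) ∈ A ∩ B`, use
path-connectedness of `A ∩ B`; if `C_{k-1} = C_k = A` we need a path in `A` from `x` to `r(k/n)`: by induction along the pieces (the piece itself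
continues a path in `A`), or: merge consecutive pieces with the same `C`. (Simplest: first prove: every point `y` of the image `r` lies in the
path component statement needed: by induction on `k`, `r(k/n)` is joined to `x` by a path in `C_k` and by a path in `C_{k-1}`.) Indeed: `r(0) = x`; if `r(k/n)` is
joined to `x` in `C_k`, then so is `r((k+1)/n)` via `r_k`; and if `C_{k+1} ≠ C_k` then `r((k+1)/n) ∈ A ∩ B` is joined to `x` in
`A ∩ B ⊆ C_{k+1}`.
But one needs the SAME path `h_k` in both `C_{k-1}` and `C_k`: if `C_{k-1} ≠ C_k` take it in `A ∩ B`; if they are equal take any path in it. Then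
`r ≃ Π (h_k r_k h_{k+1}⁻¹)` with each factor a loop at `x` in `C_k` (`h_0`, `h_n` constant), and `cls` of the product is a product of the `cls`.
A cleaner way: prove by induction on `n` the statement: for every path `r` from `x` to `y` with `n` good pieces and every path `h` from `x` to `y` in
`C_{n-1}`, `cls (r · h⁻¹)` is in the subgroup.
-/

open scoped ContDiff unitInterval
open Topology Set

namespace LQ

open LK

section VK3aux

variable {X : Type*} [TopologicalSpace X]

/-- the subgroup generated by the loops contained in one of the two sets -/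
private noncomputable abbrev VK3_N (A B : Set X) (x : X) : Subgroup (FundamentalGroup X x) :=
  Subgroup.closure {c : FundamentalGroup X x |
    ∃ s : Path x x, (range s ⊆ A ∨ range s ⊆ B) ∧ c = cls s}

/-- the part of the loop `r` up to time `t` is a product of an element of the subgroup and a path in `C` -/
private def VK3_G (A B C : Set X) {x : X} (r : Path x x) (t : I) : Prop :=
  ∃ s : Path x x, cls s ∈ VK3_N A B x ∧ ∃ h : Path x (r t), range h ⊆ C ∧
    ((r.subpath 0 t).cast r.source.symm rfl).Homotopic (s.trans h)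

private theorem VK3_cast_trans {a a' b c : X} (e : a' = a) (p : Path a b) (q : Path b c) :
    (p.trans q).cast e rfl = (p.cast e rfl).trans q := by
  subst e
  rfl

private theorem VK3_cast_hom {a a' b b' : X} (e : a' = a) (e' : b' = b) {p q : Path a b}
    (h : p.Homotopic q) : (p.cast e e').Homotopic (q.cast e e') := by
  subst e
  subst e'
  exact h

private theorem VK3_trans_cast {a b c c' : X} (e : c' = c) (p : Path a b) (q : Path b c) :
    (p.trans q).cast rfl e = p.trans (q.cast rfl e) := by
  subst e
  rfl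

private theorem VK3_mul {x : X} (s h : Path x x) : cls (s.trans h) = cls h * cls s := rfl

private theorem VK3_mem (A B : Set X) {x : X} {s : Path x x} (h : range s ⊆ A ∨ range s ⊆ B) :
    cls s ∈ VK3_N A B x := Subgroup.subset_closure ⟨s, h, rfl⟩

private theorem VK3_step {A B C : Set X} {x : X} {r : Path x x} {t t' : I} (htt : t ≤ t')
    (hC : Icc t t' ⊆ r ⁻¹' C) (h : VK3_G A B C r t) : VK3_G A B C r t' := by
  obtain ⟨s, hs, h, hh, hp⟩ := h
  refine ⟨s, hs, h.trans (r.subpath t t'), ?_, ?_⟩
  · rw [Path.trans_range, union_subset_iff]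
    refine ⟨hh, ?_⟩
    rw [Path.range_subpath_of_le r t t' htt]
    exact image_subset_iff.2 hC
  · have h1 : ((r.subpath 0 t').cast r.source.symm rfl).Homotopic
        (((r.subpath 0 t).trans (r.subpath t t')).cast r.source.symm rfl) :=
      VK3_cast_hom _ _ (Path.Homotopic.symm ⟨Path.Homotopy.subpathTransSubpath r 0 t t'⟩)
    rw [VK3_cast_trans] at h1
    refine h1.trans ?_
    refine (Path.Homotopic.hcomp hp (Path.Homotopic.refl _)).trans ?_
    exact ⟨Path.Homotopy.transAssoc _ _ _⟩

private theorem VK3_switch {A B C C' : Set X} {x : X} (hC : C = A ∨ C = B) (hC' : C' = A ∨ C' = B)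
    (hxA : x ∈ A) (hxB : x ∈ B) (pAB : IsPathConnected (A ∩ B)) {r : Path x x} {t : I}
    (ht : r t ∈ C) (ht' : r t ∈ C') (h : VK3_G A B C r t) : VK3_G A B C' r t := by
  by_cases hCC : C = C'
  · rwa [← hCC]
  have hAB : r t ∈ A ∩ B := by
    rcases hC with rfl | rfl <;> rcases hC' with rfl | rfl
    · exact absurd rfl hCC
    · exact ⟨ht, ht'⟩
    · exact ⟨ht', ht⟩
    · exact absurd rfl hCC
  have hsub : A ∩ B ⊆ C := by
    rcases hC with rfl | rfl
    · exact inter_subset_left
    · exact inter_subset_right
  have hsub' : A ∩ B ⊆ C' := by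
    rcases hC' with rfl | rfl
    · exact inter_subset_left
    · exact inter_subset_right
  obtain ⟨k, hk⟩ := pAB.joinedIn x ⟨hxA, hxB⟩ (r t) hAB
  have hkr : range k ⊆ A ∩ B := by
    rintro _ ⟨u, rfl⟩
    exact hk u
  obtain ⟨s, hs, h, hh, hp⟩ := h
  have hl : range (h.trans k.symm) ⊆ C := by
    rw [Path.trans_range, Path.symm_range, union_subset_iff]
    exact ⟨hh, hkr.trans hsub⟩
  refine ⟨s.trans (h.trans k.symm), ?_, k, hkr.trans hsub', hp.trans ?_⟩
  · rw [VK3_mul]
    refine mul_mem (VK3_mem A B ?_) hs
    rcases hC with rfl | rfl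
    · exact Or.inl hl
    · exact Or.inr hl
  · have h1 : ((s.trans (h.trans k.symm)).trans k).Homotopic (s.trans ((h.trans k.symm).trans k)) :=
      ⟨Path.Homotopy.transAssoc _ _ _⟩
    have h2 : ((h.trans k.symm).trans k).Homotopic (h.trans (k.symm.trans k)) :=
      ⟨Path.Homotopy.transAssoc _ _ _⟩
    have h3 : (k.symm.trans k).Homotopic (Path.refl _) :=
      Path.Homotopic.symm ⟨Path.Homotopy.reflSymmTrans k⟩
    have h4 : (h.trans (Path.refl _)).Homotopic h := ⟨Path.Homotopy.transRefl h⟩
    have h5 : ((h.trans k.symm).trans k).Homotopic h :=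
      h2.trans ((Path.Homotopic.hcomp (Path.Homotopic.refl h) h3).trans h4)
    exact (h1.trans (Path.Homotopic.hcomp (Path.Homotopic.refl s) h5)).symm

private theorem VK3_zero {A B C : Set X} {x : X} (hC : x ∈ C) (r : Path x x) :
    VK3_G A B C r 0 := by
  refine ⟨Path.refl x, ?_, (Path.refl x).cast rfl r.source, ?_, ?_⟩
  · have h1 : cls (Path.refl x) = 1 := rfl
    rw [h1]
    exact one_mem _
  · rintro _ ⟨u, rfl⟩
    simpa using hC
  · rw [Path.subpath_self]
    have h1 : ((Path.refl (r 0)).cast r.source.symm rfl : Path x (r 0)) =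
        (Path.refl x).cast rfl r.source := by
      ext u
      simp
    rw [h1]
    exact Path.Homotopic.symm ⟨Path.Homotopy.reflTrans _⟩

private theorem VK3_fin {A B C : Set X} {x : X} (hC : C = A ∨ C = B) {r : Path x x}
    (h : VK3_G A B C r 1) : cls r ∈ VK3_N A B x := by
  obtain ⟨s, hs, h, hh, hp⟩ := h
  have h1 : r = (((r.subpath 0 1).cast r.source.symm rfl).cast rfl r.target.symm) := by
    rw [Path.subpath_zero_one]
    ext u
    simp
  have h2 : r.Homotopic (s.trans (h.cast rfl r.target.symm)) := by
    have h3 := VK3_cast_hom (rfl : x = x) r.target.symm hp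
    rw [← h1, VK3_trans_cast] at h3
    exact h3
  have h3 : cls r = cls (s.trans (h.cast rfl r.target.symm)) :=
    congrArg FundamentalGroup.fromPath (Path.Homotopic.Quotient.eq.2 h2)
  rw [h3, VK3_mul]
  refine mul_mem (VK3_mem A B ?_) hs
  have h4 : range (h.cast rfl r.target.symm) ⊆ C := by
    rintro _ ⟨u, rfl⟩
    exact hh ⟨u, rfl⟩
  rcases hC with rfl | rfl
  · exact Or.inl h4
  · exact Or.inr h4

end VK3aux

theorem VK3 {X : Type*} [TopologicalSpace X] (A B : Set X) (hA : IsOpen A) (hB : IsOpen B)
    (hAB : A ∪ B = univ) (x : X) (hxA : x ∈ A) (hxB : x ∈ B) (pAB : IsPathConnected (A ∩ B))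
    (r : FundamentalGroup X x) :
    r ∈ Subgroup.closure {c : FundamentalGroup X x |
      ∃ s : Path x x, (range s ⊆ A ∨ range s ⊆ B) ∧ c = cls s} := by
  obtain ⟨p, hp⟩ := Path.Homotopic.Quotient.mk_surjective r
  have hr : r = cls p := hp.symm
  rw [hr]
  obtain ⟨t, ht0, htm, ⟨N, hN⟩, hc⟩ := exists_monotone_Icc_subset_open_cover_unitInterval
    (c := fun b : Bool => p ⁻¹' (if b then A else B)) (fun b => by
      cases b
      · exact hB.preimage p.continuous
      · exact hA.preimage p.continuous) (fun u _ => by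
      have hu : p u ∈ A ∪ B := hAB ▸ mem_univ _
      rcases hu with hu | hu
      · exact mem_iUnion.2 ⟨true, hu⟩
      · exact mem_iUnion.2 ⟨false, hu⟩)
  have hCC : ∀ b : Bool, (if b then A else B) = A ∨ (if b then A else B) = B := by
    intro b
    cases b
    · exact Or.inr rfl
    · exact Or.inl rfl
  have hx : ∀ b : Bool, x ∈ (if b then A else B) := by
    intro b
    cases b
    · exact hxB
    · exact hxA
  have key : ∀ n : ℕ, ∀ b : Bool, Icc (t n) (t (n + 1)) ⊆ p ⁻¹' (if b then A else B) →
      VK3_G A B (if b then A else B) p (t n) := by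
    intro n
    induction n with
    | zero =>
      intro b _
      rw [ht0]
      exact VK3_zero (hx b) p
    | succ n ih =>
      intro b hb
      obtain ⟨b', hb'⟩ := hc n
      have h1 := VK3_step (htm (Nat.le_succ n)) hb' (ih b' hb')
      refine VK3_switch (hCC b') (hCC b) hxA hxB pAB ?_ ?_ h1
      · exact hb' ⟨htm (Nat.le_succ n), le_rfl⟩
      · exact hb ⟨le_rfl, htm (Nat.le_succ (n + 1))⟩
  obtain ⟨b, hb⟩ := hc N
  have h1 := key N b hb
  rw [hN N le_rfl] at h1
  exact VK3_fin (hCC b) h1

end LQ
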