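import Pool.Agent.H64.LQ.ME1
import Pool.Agent.H64.LQ.ME2
import Pool.Agent.H64.LQ.VK3

/-!
# ME5: Seifert-van Kampen for the sum, generation

By VK3 (cover `OO D i`) it is enough that `cls s` is in the range of `io D hS i` for a loop `s` of the complement contained in `OO D i`. Let `a = pos i`, `r' = sgi a s` (a loop at `xb`),
contained in `O' ∖ range c_i` (ME2_sgi), `O' = {x | x.1 / 32 + a ∈ SS i ∨ 1 < ‖x.2‖}`. The homotopy `cmpH τ ∘ r'` (DC) is a homotopy of loops at `xb` in `O' ∖ range c_i`: `cmpH τ` moves the first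
coordinate towards `[-4, 4]`, which is contained in the interval `32 (SS i - a)` (`(-∞, 6)`, `(-6, 6)`, `(-6, ∞)`), keeps `‖x.2‖ > 1` (DC_snd, DC_norm) and avoids `c_i` (DC_av). Applying
`Aff a` (which maps `O' ∖ range c_i` into the complement of the sum: if `‖x.2‖ > 1` by MG_snd; otherwise `x.1/32 + a ∈ SS i`; if `|x.1| ≤ 4` by MG_mem; if `|x.1| > 4` then `x.2 ≠ 0` (the
axis is on `c_i` there) and the point `Aff a x` with first coordinate in `SS i` at distance `> 1/8` from `a` is not on the sum by MG_axis): `lineP xb (Aff a xb) · Aff a ∘ cmpH τ ∘ r' · back` is a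
homotopy in the complement of the sum from `sig a r'` to `sig a ζ`, `ζ = cmp ∘ r'`, a box loop avoiding `c_i`. And `sig a r' = lineP xb (Aff a xb) · lineP (Aff a xb) xb · s · back ≃ s` (straight lines
in `{Re x.2 ≥ 3/8}`). So `cls s = cls (sig a ζ) = io D hS i (cls ζ)` (MB).
-/

open scoped ContDiff unitInterval
open Topology Set

namespace LQ

open LK

/-- the intervals are separated -/
theorem ME5_SS {i j : Fin 3} {s : ℝ} (h : s ∈ SS i) (h' : |s - pos j| ≤ 1 / 32) : j = i := by
  rw [abs_le] at h'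
  fin_cases i <;> fin_cases j
  · rfl
  · exfalso
    have h1 : s < -1 / 16 := h
    have h2 : -(1 / 32) ≤ s - 0 := h'.1
    linarith
  · exfalso
    have h1 : s < -1 / 16 := h
    have h2 : -(1 / 32) ≤ s - 1 / 4 := h'.1
    linarith
  · exfalso
    have h1 : |s| < 3 / 16 := h
    have h2 : s - (-1 / 4) ≤ 1 / 32 := h'.2
    rw [abs_lt] at h1
    linarith [h1.1]
  · rfl
  · exfalso
    have h1 : |s| < 3 / 16 := h
    have h2 : -(1 / 32) ≤ s - 1 / 4 := h'.1
    rw [abs_lt] at h1
    linarith [h1.2]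
  · exfalso
    have h1 : 1 / 16 < s := h
    have h2 : s - (-1 / 4) ≤ 1 / 32 := h'.2
    linarith
  · exfalso
    have h1 : 1 / 16 < s := h
    have h2 : s - 0 ≤ 1 / 32 := h'.2
    linarith
  · rfl

theorem ME5_pos (i : Fin 3) : pos i ∈ SS i := by
  fin_cases i
  · show (-1 / 4 : ℝ) < -1 / 16
    norm_num
  · show |(0 : ℝ)| < 3 / 16
    norm_num
  · show (1 / 16 : ℝ) < 1 / 4
    norm_num

theorem ME5_conv (i : Fin 3) : (SS i).OrdConnected := by
  fin_cases i
  · show (Iio (-1 / 16 : ℝ)).OrdConnected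
    exact ordConnected_Iio
  · have h : SS ⟨1, by norm_num⟩ = Ioo (-(3 / 16)) (3 / 16 : ℝ) := by
      ext s
      show |s| < 3 / 16 ↔ _
      rw [abs_lt]
      rfl
    show (SS ⟨1, by norm_num⟩).OrdConnected
    rw [h]
    exact ordConnected_Ioo
  · show (Ioi (1 / 16 : ℝ)).OrdConnected
    exact ordConnected_Ioi

theorem ME5_geo (D : Tri) (i : Fin 3) (τ : I) (x : V) (hx : x ∉ range (D.c i))
    (hx' : x.1 / 32 + pos i ∈ SS i ∨ 1 < ‖x.2‖) :
    Aff (pos i) (cmpH (τ, x)) ∉ range (gS D) := by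
  have hy := DC_av (D.hc i) τ x hx
  by_cases h1 : |(cmpH (τ, x)).1| ≤ 4
  · exact MB_Aff D i h1 hy
  rw [not_le] at h1
  have h2 : 4 < |x.1| := by
    by_contra h
    rw [not_lt] at h
    rw [DC_fst τ x h] at h1
    linarith
  obtain ⟨h3, h4, h5⟩ := DC_fst' τ x h2.le
  intro hm
  set y := cmpH (τ, x) with hydef
  have h6 : ‖y.2‖ ≤ 1 := by
    obtain ⟨t, ht⟩ := hm
    have h := MG_snd D t
    rw [ht] at h
    have h7 : (Aff (pos i) y).2 = y.2 / 4 := rfl
    rw [h7, norm_div] at h
    have h8 : ‖(4 : ℂ)‖ = 4 := by simp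
    rw [h8] at h
    linarith
  have h7 : y.2 ≠ 0 := by
    intro h
    apply hy
    refine ⟨y.1, ?_⟩
    rw [(D.hc i).standard y.1 (by linarith)]
    exact Prod.ext rfl h.symm
  have h8 : (Aff (pos i) y).2 ≠ 0 := by
    have h7' : (Aff (pos i) y).2 = y.2 / 4 := rfl
    rw [h7']
    exact div_ne_zero h7 (by norm_num)
  obtain ⟨j, hj⟩ := MG_axis D _ hm h8
  have h9 : (Aff (pos i) y).1 = y.1 / 32 + pos i := rfl
  rw [h9] at hj
  have h10 : ‖x.2‖ < 3 / 2 := by
    by_contra h
    rw [not_lt] at h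
    have := DC_norm τ x h
    rw [← hydef] at this
    linarith
  have h11 : y.2 = x.2 := DC_snd τ x h10.le
  have h12 : x.1 / 32 + pos i ∈ SS i := by
    rcases hx' with h | h
    · exact h
    · rw [h11] at h6
      linarith
  have h13 : y.1 / 32 + pos i ∈ SS i := by
    have hc := ME5_conv i
    have hp := ME5_pos i
    rcases le_total 0 x.1 with h | h
    · have hx1 : |x.1| = x.1 := abs_of_nonneg h
      have hxp : 0 < x.1 := by
        rw [hx1] at h2
        linarith
      have hy1 : 0 ≤ y.1 := by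
        by_contra hn
        rw [not_le] at hn
        have := mul_neg_of_neg_of_pos hn hxp
        linarith
      rw [abs_of_nonneg hy1, hx1] at h4
      refine hc.out hp h12 ⟨?_, ?_⟩ <;> linarith
    · have hx1 : |x.1| = -x.1 := abs_of_nonpos h
      have hxp : x.1 < 0 := by
        rw [hx1] at h2
        linarith
      have hy1 : y.1 ≤ 0 := by
        by_contra hn
        rw [not_le] at hn
        have := mul_neg_of_pos_of_neg hn hxp
        linarith
      rw [abs_of_nonpos hy1, hx1] at h4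
      refine hc.out h12 hp ⟨?_, ?_⟩ <;> linarith
  have h14 := ME5_SS h13 hj
  subst h14
  rw [add_sub_cancel_right, abs_div, abs_of_pos (by norm_num : (0 : ℝ) < 32)] at hj
  linarith

theorem ME5_line (a : ℝ) (t : I) : 3 / 2 ≤ ‖(lineP xb (Afi a xb) t).2‖ := by
  have h1 : lineP xb (Afi a xb) t = (1 - (t : ℝ)) • xb + (t : ℝ) • Afi a xb := rfl
  have h2 : (lineP xb (Afi a xb) t).2 =
      (((1 - (t : ℝ)) * (3 / 2) + (t : ℝ) * 6 : ℝ) : ℂ) := by
    rw [h1]
    simp only [xb, Afi, Prod.snd_add, Prod.smul_snd, Complex.real_smul]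
    push_cast
    ring
  have h0 := t.2.1
  have h1 := t.2.2
  rw [h2, Complex.norm_real, Real.norm_eq_abs, abs_of_nonneg (by linarith)]
  linarith

/-- the transported loop is in the domain of the homotopy -/
theorem ME5_dom (D : Tri) (i : Fin 3) (r : Path xb xb)
    (hr : ∀ u, ∃ x ∈ OO D i, (x : MV (gS D)).1 = r u) (u : I) :
    (sgi (pos i) r u).1 / 32 + pos i ∈ SS i ∨ 1 < ‖(sgi (pos i) r u).2‖ := by
  have h1 : sgi (pos i) r u ∈ range (sgi (pos i) r) := mem_range_self u
  rw [sgi, Path.trans_range, Path.trans_range, Path.symm_range] at h1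
  rcases h1 with ⟨t, ht⟩ | ⟨t, ht⟩ | ⟨t, ht⟩
  · right
    rw [← sgi] at ht
    rw [← ht]
    have := ME5_line (pos i) t
    linarith
  · rw [← sgi] at ht
    rw [← ht]
    obtain ⟨x, hx, hxr⟩ := hr t
    have h2 : (r.map (continuous_Afi (pos i))) t = Afi (pos i) (r t) := rfl
    rw [h2, ← hxr]
    rcases hx with hx | hx
    · left
      have h3 : (Afi (pos i) x.1).1 / 32 + pos i = x.1.1 := by
        simp only [Afi]
        ring
      rw [h3]
      exact hx
    · right
      have h3 : (Afi (pos i) x.1).2 = 4 * x.1.2 := rfl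
      rw [h3, norm_mul]
      have h4 : ‖(4 : ℂ)‖ = 4 := by simp
      rw [h4]
      linarith
  · right
    rw [← sgi] at ht
    rw [← ht]
    have := ME5_line (pos i) t
    linarith

theorem ME5_alg {X : Type*} [TopologicalSpace X] {x y : X} (t : Path x y) (s : Path x x) :
    (t.trans ((t.symm.trans (s.trans t)).trans t.symm)).Homotopic s := by
  apply Path.Homotopic.Quotient.eq.1
  simp only [Path.Homotopic.Quotient.mk_trans, Path.Homotopic.Quotient.mk_symm]
  simp only [Path.Homotopic.Quotient.trans_assoc, Path.Homotopic.Quotient.trans_symm,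
    Path.Homotopic.Quotient.trans_refl]
  rw [← Path.Homotopic.Quotient.trans_assoc, Path.Homotopic.Quotient.trans_symm,
    Path.Homotopic.Quotient.refl_trans]

theorem ME5_Aff_line (a : ℝ) (t : I) :
    Aff a (lineP xb (Afi a xb) t) = (lineP xb (Aff a xb)).symm t := by
  have h1 : lineP xb (Afi a xb) t = (1 - (t : ℝ)) • xb + (t : ℝ) • Afi a xb := rfl
  have h2 : (lineP xb (Aff a xb)).symm t =
    (1 - (1 - (t : ℝ))) • xb + (1 - (t : ℝ)) • Aff a xb := rfl
  rw [h1, h2]
  refine Prod.ext ?_ ?_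
  · simp only [xb, Aff, Afi, Prod.fst_add, Prod.smul_fst, smul_eq_mul]
    ring
  · simp only [xb, Aff, Afi, Prod.snd_add, Prod.smul_snd, Complex.real_smul]
    push_cast
    ring

theorem ME5_loop (D : Tri) (hS : VKnot (gS D)) (i : Fin 3) (s : Path (xM hS) (xM hS))
    (hs : range s ⊆ OO D i) : cls s ∈ range (io D hS i) := by
  let r : Path xb xb := s.map continuous_subtype_val
  have hr : ∀ u, ∃ x ∈ OO D i, (x : MV (gS D)).1 = r u := fun u =>
    ⟨s u, hs (mem_range_self u), rfl⟩
  let r' : Path xb xb := sgi (pos i) r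
  have hr' : ∀ u, r' u ∉ range (D.c i) := fun u => ME2_sgi D i r hr u
  have hdom : ∀ u, (r' u).1 / 32 + pos i ∈ SS i ∨ 1 < ‖(r' u).2‖ := fun u => ME5_dom D i r hr u
  have hcx : cmp xb = xb := by
    rw [← MB_cmp1, DC_fix 1 xb MB_xb1 MB_xb2]
  let ζ : Path xb xb :=
    { toFun := fun u => cmp (r' u)
      continuous_toFun := DC_cont.comp r'.continuous
      source' := by rw [r'.source, hcx]
      target' := by rw [r'.target, hcx] }
  have hζ : ∀ u, ζ u = cmp (r' u) := fun _ => rfl
  have hbox : ∀ u, InBox (ζ u) := fun u => DC_box _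
  have hav : ∀ u, ζ u ∉ range (D.c i) := fun u => by
    rw [hζ, ← MB_cmp1]
    exact DC_av (D.hc i) 1 _ (hr' u)
  let γ : Path (xM (D.hc i)) (xM (D.hc i)) :=
    { toFun := fun u => ⟨ζ u, hav u⟩
      continuous_toFun := ζ.continuous.subtype_mk _
      source' := Subtype.ext ζ.source
      target' := Subtype.ext ζ.target }
  let γ' : Path (xM hS) (xM hS) :=
    { toFun := fun u => ⟨sig (pos i) ζ u, MB_av D i ζ hbox hav u⟩
      continuous_toFun := (sig (pos i) ζ).continuous.subtype_mk _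
      source' := Subtype.ext (sig (pos i) ζ).source
      target' := Subtype.ext (sig (pos i) ζ).target }
  refine ⟨cls γ, ?_⟩
  rw [MB D hS i ζ hbox γ γ' (fun _ => rfl) fun _ => rfl]
  apply MB_cls
  let γζ : Path (⟨Aff (pos i) xb, MB_y D i⟩ : MV (gS D)) ⟨Aff (pos i) xb, MB_y D i⟩ :=
    { toFun := fun u => ⟨Aff (pos i) (ζ u), MB_Aff D i (hbox u).1 (hav u)⟩
      continuous_toFun := Continuous.subtype_mk ((continuous_Aff _).comp ζ.continuous) _
      source' := Subtype.ext (by
        show Aff (pos i) (ζ 0) = _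
        rw [ζ.source])
      target' := Subtype.ext (by
        show Aff (pos i) (ζ 1) = _
        rw [ζ.target]) }
  have e1 : γ' = (MB_tail D hS i).trans (γζ.trans (MB_tail D hS i).symm) := by
    apply Path.ext
    funext u
    apply Subtype.ext
    show sig (pos i) ζ u = _
    rw [sig]
    exact (MB_trans (MB_tail D hS i) (γζ.trans (MB_tail D hS i).symm) (lineP xb (Aff (pos i) xb))
      ((ζ.map (continuous_Aff (pos i))).trans (lineP xb (Aff (pos i) xb)).symm) (fun _ => rfl)
      (fun u => MB_trans γζ (MB_tail D hS i).symm (ζ.map (continuous_Aff (pos i)))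
        (lineP xb (Aff (pos i) xb)).symm (fun _ => rfl)
        (fun u => MB_symm (MB_tail D hS i) (lineP xb (Aff (pos i) xb)) (fun _ => rfl) u) u) u).symm
  have e2 : ∀ u, (((MB_tail D hS i).symm.trans (s.trans (MB_tail D hS i))) u).1 =
      Aff (pos i) (r' u) := by
    intro u
    have h1 : ∀ u, Aff (pos i) (r' u) = ((r'.map (continuous_Aff (pos i))) u) := fun _ => rfl
    have h2 : ∀ u, Aff (pos i) ((sgi (pos i) r) u) =
        (((lineP xb (Aff (pos i) xb)).symm.trans
          (r.trans (lineP xb (Aff (pos i) xb)))) u) := by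
      intro u
      rw [sgi]
      refine MB_im (Aff (pos i)) (lineP xb (Afi (pos i) xb))
        ((r.map (continuous_Afi (pos i))).trans (lineP xb (Afi (pos i) xb)).symm)
        (lineP xb (Aff (pos i) xb)).symm (r.trans (lineP xb (Aff (pos i) xb)))
        (fun t => ME5_Aff_line _ t) (fun t => ?_) u
      refine MB_im (Aff (pos i)) (r.map (continuous_Afi (pos i))) (lineP xb (Afi (pos i) xb)).symm
        r (lineP xb (Aff (pos i) xb)) (fun t => ?_) (fun t => ?_) t
      · exact (ME0_inv (pos i) (r t)).2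
      · have h3 : (lineP xb (Afi (pos i) xb)).symm t = lineP xb (Afi (pos i) xb) (σ t) := rfl
        have h4 : (lineP xb (Aff (pos i) xb)).symm (σ t) = lineP xb (Aff (pos i) xb) (σ (σ t)) :=
          rfl
        rw [h3, ME5_Aff_line, h4, unitInterval.symm_symm]
    show _ = Aff (pos i) ((sgi (pos i) r) u)
    rw [h2]
    exact MB_trans (MB_tail D hS i).symm (s.trans (MB_tail D hS i))
      (lineP xb (Aff (pos i) xb)).symm (r.trans (lineP xb (Aff (pos i) xb)))
      (fun u => MB_symm (MB_tail D hS i) (lineP xb (Aff (pos i) xb)) (fun _ => rfl) u)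
      (fun u => MB_trans s (MB_tail D hS i) r (lineP xb (Aff (pos i) xb)) (fun _ => rfl)
        (fun _ => rfl) u) u
  have h3 : ((MB_tail D hS i).symm.trans (s.trans (MB_tail D hS i))).Homotopic γζ := by
    refine MB_mk _ γζ (fun p => Aff (pos i) (cmpH (p.1, r' p.2))) ?_ ?_ ?_ ?_ ?_ ?_
    · have := DC_contH
      exact (continuous_Aff _).comp (this.comp (by fun_prop))
    · intro p
      exact ME5_geo D i p.1 (r' p.2) (hr' p.2) (hdom p.2)
    · intro u
      show Aff (pos i) (cmpH (0, r' u)) = _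
      rw [MB_cmp0, e2]
    · intro u
      show Aff (pos i) (cmpH (1, r' u)) = Aff (pos i) (ζ u)
      rw [MB_cmp1, hζ]
    · intro t
      show Aff (pos i) (cmpH (t, r' 0)) = Aff (pos i) xb
      rw [r'.source, DC_fix _ _ MB_xb1 MB_xb2]
    · intro t
      show Aff (pos i) (cmpH (t, r' 1)) = Aff (pos i) xb
      rw [r'.target, DC_fix _ _ MB_xb1 MB_xb2]
  rw [e1]
  refine Path.Homotopic.trans (Path.Homotopic.hcomp (Path.Homotopic.refl _)
    (Path.Homotopic.hcomp h3.symm (Path.Homotopic.refl _))) ?_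
  exact ME5_alg _ _

/-- generation for a cover by three open sets -/
theorem ME5_vk {X : Type*} [TopologicalSpace X] (O : Fin 3 → Set X) (hO : ∀ i, IsOpen (O i))
    (hc : ⋃ i, O i = univ) (x : X) (hx : ∀ i, x ∈ O i)
    (hp : ∀ y, ∃ p : Path x y, ∀ i, y ∈ O i → range p ⊆ O i) (N : Subgroup (FundamentalGroup X x))
    (hN : ∀ i (s : Path x x), range s ⊆ O i → cls s ∈ N) (y : FundamentalGroup X x) : y ∈ N := by
  have hA : IsOpen (O 0 ∪ O 1) := (hO 0).union (hO 1)
  have hAB : (O 0 ∪ O 1) ∪ O 2 = univ := by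
    ext z
    refine ⟨fun _ => trivial, fun _ => ?_⟩
    have h : z ∈ ⋃ i, O i := hc ▸ mem_univ z
    rw [mem_iUnion] at h
    obtain ⟨i, hi⟩ := h
    fin_cases i
    · exact Or.inl (Or.inl hi)
    · exact Or.inl (Or.inr hi)
    · exact Or.inr hi
  have pAB : IsPathConnected ((O 0 ∪ O 1) ∩ O 2) := by
    refine ⟨x, ⟨Or.inl (hx 0), hx 2⟩, ?_⟩
    rintro z ⟨hz, hz2⟩
    obtain ⟨p, hp⟩ := hp z
    refine ⟨p, fun t => ?_⟩
    have h2 := hp 2 hz2 (mem_range_self t)
    rcases hz with hz | hz
    · exact ⟨Or.inl (hp 0 hz (mem_range_self t)), h2⟩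
    · exact ⟨Or.inr (hp 1 hz (mem_range_self t)), h2⟩
  have h := VK3 (O 0 ∪ O 1) (O 2) hA (hO 2) hAB x (Or.inl (hx 0)) (hx 2) pAB y
  refine (Subgroup.closure_le N).2 ?_ h
  rintro _ ⟨s, hs | hs, rfl⟩
  · let A : Set X := O 0 ∪ O 1
    let xA : A := ⟨x, Or.inl (hx 0)⟩
    let f : C(A, X) := ⟨Subtype.val, continuous_subtype_val⟩
    let s' : Path xA xA :=
      { toFun := fun t => ⟨s t, hs (mem_range_self t)⟩
        continuous_toFun := s.continuous.subtype_mk _
        source' := Subtype.ext s.source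
        target' := Subtype.ext s.target }
    have pAB' : IsPathConnected ((Subtype.val ⁻¹' (O 0) : Set A) ∩ (Subtype.val ⁻¹' (O 1))) := by
      refine ⟨xA, ⟨hx 0, hx 1⟩, ?_⟩
      rintro z ⟨hz, hz2⟩
      obtain ⟨p, hp⟩ := hp z.1
      have h0 : ∀ t, p t ∈ O 0 := fun t => hp 0 hz (mem_range_self t)
      have h1 : ∀ t, p t ∈ O 1 := fun t => hp 1 hz2 (mem_range_self t)
      refine ⟨{ toFun := fun t => ⟨p t, Or.inl (h0 t)⟩
                continuous_toFun := p.continuous.subtype_mk _
                source' := Subtype.ext p.source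
                target' := Subtype.ext p.target }, fun t => ⟨h0 t, h1 t⟩⟩
    have h1 := VK3 (X := A) (Subtype.val ⁻¹' (O 0)) (Subtype.val ⁻¹' (O 1))
      ((hO 0).preimage continuous_subtype_val) ((hO 1).preimage continuous_subtype_val) (by
        ext z
        refine ⟨fun _ => trivial, fun _ => ?_⟩
        rcases z.2 with hz | hz
        · exact Or.inl hz
        · exact Or.inr hz) xA (hx 0) (hx 1) pAB' (cls s')
    have h2 : (FundamentalGroup.map f xA) (cls s') = cls s := rfl
    have h3 : cls s' ∈ N.comap (FundamentalGroup.map f xA) := by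
      refine (Subgroup.closure_le _).2 ?_ h1
      rintro _ ⟨q, hq, rfl⟩
      have h4 : (FundamentalGroup.map f xA) (cls q) =
        cls (q.map continuous_subtype_val : Path x x) := rfl
      rw [SetLike.mem_coe, Subgroup.mem_comap, h4]
      rcases hq with hq | hq
      · refine hN 0 _ ?_
        rintro _ ⟨t, rfl⟩
        exact hq (mem_range_self t)
      · refine hN 1 _ ?_
        rintro _ ⟨t, rfl⟩
        exact hq (mem_range_self t)
    rw [Subgroup.mem_comap, h2] at h3
    exact h3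
  · exact hN 2 s hs

theorem ME5 (D : Tri) (hS : VKnot (gS D)) (y : PiM hS) :
    y ∈ Subgroup.closure (⋃ i, range (io D hS i)) := by
  refine ME5_vk (OO D) (ME0_open D) (ME0_cover D) (xM hS) (ME0_xb D hS) (ME1 D hS) _ ?_ y
  intro i s hs
  exact Subgroup.subset_closure (mem_iUnion.2 ⟨i, ME5_loop D hS i s hs⟩)

end LQ
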