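import Pool.Agent.H64.LQ.G2g
import Pool.Agent.H64.LQ.VK2
import Pool.Agent.H64.LQ.VK3

/-!
# G2: the fundamental group of the complement of the torus knot

`q = 2k + 1` odd. With `pα, pβ` from G2g, `α = cls pα`, `β = cls pβ`.
(1) Orbit: `δ(t) = act q t (1, i) = (e^{4πit}, i e^{2πiqt})` is contained in `UW ∩ UZ` (`w²/z^q = -1`), its first coordinate has winding number `2`, the second `q`: `cls δ = α^q` and `cls δ = β²`. So
`α^q = β²`. (An orbit loop exists.) (2) Generation: VK3 for the cover `![UW, UZ]` (or indexed by `Bool`), G2s; a loop in `UW` is a power of `α`, one in `UZ` a power of `β` (an angle exists by FB).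
(3) Existence: given `a^q = b²` in `Γ`, let `f_W : π₁(UW) → Γ`, `cls p ↦ a^{winding number of w ∘ p}` (WN for the function `y ↦ y.2` on `UW`, composed with `zpowersHom`) and
`f_Z : cls p ↦ b^{winding number of z ∘ p}`. On a loop in `UW ∩ UZ`: `w²/z^q` takes its values in `ℂ ∖ [0, ∞)`, simply connected, so it has winding number `0`, i.e. `2 n_w = q n_z`, so
`n_z = 2j`, `n_w = q j` (`q` odd) and `a^{qj} = b^{2j}`. VK2 gives `F` with `F α = a`, `F β = b`.
(4) Meridian: `m(t) = Sl (mz t) (mphi t)`, `mz t = 1 - sin(2πt)/4 ∈ [3/4, 5/4]`, `mphi t = (π/2) cos(2πt) ∈ [-π/2, π/2]`. For `t ∈ [0, 1/2]`, `mz ≤ 1`, `φ` from `π/2` to `-π/2`; the point is in `UW`: `z^q/w² = ζ^q e^{-2iφ}/(2 - ζ²)` is a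
positive real only if `φ = 0`, i.e. `t = 1/4`, where it is `(3/4)^q/(2 - 9/16) < 1`. For `t ∈ [1/2, 1]`, `φ` from `-π/2` to `π/2` and the point is in `UZ`: `w²/z^q = (2 - ζ²) e^{2iφ}/ζ^q`, for `φ = 0`, `t = 3/4`,
`(2 - 25/16)/(5/4)^q < 1`. At `t = 1/2`: the point `(1, -i)`. Let `δ0(t) = act q (t/2) (1, i)` from `(1, i)` to `(e^{2πi}, i e^{πiq}) = (1, -i)` (`q` odd), contained in `UW ∩ UZ`. With `P1, P2` the two
halves of `m` (`m ≃ P1 · P2`): `P1 · δ0⁻¹` is a loop in `UW`; winding number of `w`: `-1/2 - q/2 = -(q+1)/2`; `δ0 · P2` is a loop in `UZ`, winding number of `z`: `1 + 0 = 1`. So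
`cls m = cls (P1 δ0⁻¹ · δ0 P2) = β * α^{-(q+1)/2}` (`cls (p.trans q) = cls q * cls p`).
-/

open scoped ContDiff unitInterval
open Topology Set

namespace LQ

open LK

/-- `θ` is an angle of `z`. -/
private def G2_A (z : ℂ) (θ : ℝ) : Prop :=
  z = (‖z‖ : ℂ) * Complex.exp (2 * Real.pi * θ * Complex.I)

private theorem G2_exp_norm (θ : ℝ) : ‖Complex.exp (2 * Real.pi * θ * Complex.I)‖ = 1 := by
  have h2 : (2 * Real.pi * θ * Complex.I) = ((2 * Real.pi * θ : ℝ) : ℂ) * Complex.I := by
    push_cast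
    ring
  rw [h2, Complex.norm_exp_ofReal_mul_I]

private theorem G2_A_mk {z : ℂ} {r θ : ℝ} (hr : 0 ≤ r)
    (h : z = (r : ℂ) * Complex.exp (2 * Real.pi * θ * Complex.I)) : G2_A z θ := by
  have h1 : ‖z‖ = r := by
    rw [h, norm_mul, G2_exp_norm, mul_one, Complex.norm_real, Real.norm_of_nonneg hr]
  unfold G2_A
  rw [h1]
  exact h

private theorem G2_exp_int (θ : ℝ) (n : ℤ) : Complex.exp (2 * Real.pi * ((θ + n : ℝ) : ℂ) * Complex.I) =
    Complex.exp (2 * Real.pi * θ * Complex.I) := by
  rw [Complex.exp_eq_exp_iff_exists_int]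
  exact ⟨n, by push_cast; ring⟩

private theorem G2_A_int {z : ℂ} {θ : ℝ} (n : ℤ) (h : G2_A z θ) : G2_A z (θ + n) := by
  unfold G2_A at *
  rw [G2_exp_int]
  exact h

/-- an integer valued continuous function on the interval is constant -/
private theorem G2_const (g : I → ℝ) (hg : Continuous g) (h : ∀ u, ∃ n : ℤ, g u = n) : g 1 = g 0 := by
  have hr : IsPreconnected (range g) := isPreconnected_range hg
  by_contra hne
  obtain ⟨n0, h0⟩ := h 0
  obtain ⟨n1, h1⟩ := h 1
  have hoc := hr.ordConnected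
  have hkey : ∀ (a b : ℤ), (a : ℝ) ∈ range g → (b : ℝ) ∈ range g → a < b → False := by
    intro a b ha hb hab
    have hab' : (a : ℝ) + 1 ≤ b := by exact_mod_cast hab
    have h2 : (a : ℝ) + 1 / 2 ∈ range g := hoc.out ha hb ⟨by linarith, by linarith⟩
    obtain ⟨u, hu⟩ := h2
    obtain ⟨m, hm⟩ := h u
    rw [hm] at hu
    have h3 : (2 * m : ℝ) = 2 * a + 1 := by linarith
    have h4 : 2 * m = 2 * a + 1 := by exact_mod_cast h3
    omega
  have e0 : (n0 : ℝ) ∈ range g := ⟨0, h0⟩
  have e1 : (n1 : ℝ) ∈ range g := ⟨1, h1⟩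
  rcases lt_trichotomy n0 n1 with hlt | heq | hgt
  · exact hkey _ _ e0 e1 hlt
  · apply hne
    rw [h0, h1, heq]
  · exact hkey _ _ e1 e0 hgt

/-- existence of an angle along a loop -/
private theorem G2_ang {X : Type*} [TopologicalSpace X] {x : X} (p : Path x x) (g : X → ℂ)
    (hg : Continuous fun u => g (p u)) (h0 : ∀ u, g (p u) ≠ 0) :
    ∃ (θ : C(I, ℝ)) (n : ℤ), (∀ u, G2_A (g (p u)) (θ u)) ∧ θ 1 - θ 0 = n := by
  have hx0 : g x ≠ 0 := by
    have := h0 0
    rwa [p.source] at this
  obtain ⟨θ, hθ0, hθ⟩ := FB (fun u => g (p u) / g x) (hg.div_const _)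
    (fun u => div_ne_zero (h0 u) hx0) ⟨1, one_pos, by simp [hx0]⟩
  have h1 : ∃ n : ℤ, θ 1 = n := by
    have e := hθ 1
    simp only [p.target, div_self hx0, norm_one, Complex.ofReal_one, one_mul] at e
    obtain ⟨n, hn⟩ := Complex.exp_eq_one_iff.1 e.symm
    refine ⟨n, ?_⟩
    have hpi : (2 * Real.pi * Complex.I : ℂ) ≠ 0 := Complex.two_pi_I_ne_zero
    have h3 : ((θ 1 : ℝ) : ℂ) * (2 * Real.pi * Complex.I) = (n : ℂ) * (2 * Real.pi * Complex.I) := by
      rw [← hn]
      ring
    have h4 := mul_right_cancel₀ hpi h3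
    exact_mod_cast h4
  obtain ⟨n, hn⟩ := h1
  refine ⟨⟨fun u => θ u + Complex.arg (g x) / (2 * Real.pi), by fun_prop⟩, n, ?_, ?_⟩
  · intro u
    have e : g (p u) = g x * (g (p u) / g x) := by field_simp
    refine G2_A_mk (r := ‖g x‖ * ‖g (p u) / g x‖) (by positivity) ?_
    change g (p u) = ((‖g x‖ * ‖g (p u) / g x‖ : ℝ) : ℂ) *
      Complex.exp (2 * Real.pi * ((θ u + Complex.arg (g x) / (2 * Real.pi) : ℝ) : ℂ) * Complex.I)
    have e2 : (2 * Real.pi * ((θ u + Complex.arg (g x) / (2 * Real.pi) : ℝ) : ℂ) * Complex.I) =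
        2 * Real.pi * (θ u) * Complex.I + Complex.arg (g x) * Complex.I := by
      have : (Real.pi : ℂ) ≠ 0 := by exact_mod_cast Real.pi_ne_zero
      push_cast
      field_simp
    rw [e2, Complex.exp_add]
    push_cast
    calc g (p u) = g x * (g (p u) / g x) := e
      _ = (‖g x‖ * Complex.exp (Complex.arg (g x) * Complex.I)) *
          (((‖g (p u) / g x‖ : ℝ) : ℂ) * Complex.exp (2 * Real.pi * (θ u) * Complex.I)) := by
          rw [Complex.norm_mul_exp_arg_mul_I]
          congr 1
          exact hθ u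
      _ = _ := by ring
  · change θ 1 + Complex.arg (g x) / (2 * Real.pi) - (θ 0 + Complex.arg (g x) / (2 * Real.pi)) = n
    rw [hθ0, hn]
    ring

private theorem G2_tr {X : Type*} [TopologicalSpace X] {x y z : X} (p : Path x y) (p' : Path y z)
    (g : X → ℂ) {a b c : ℝ} (θ : Path a b) (θ' : Path b c) (h : ∀ u, G2_A (g (p u)) (θ u))
    (h' : ∀ u, G2_A (g (p' u)) (θ' u)) : ∀ u, G2_A (g ((p.trans p') u)) ((θ.trans θ') u) := by
  intro u
  rw [Path.trans_apply, Path.trans_apply]
  split_ifs
  · exact h _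
  · exact h' _

private theorem G2_rtr {X : Type*} [TopologicalSpace X] {x y z : X} {p : Path x y} {p' : Path y z}
    {S : Set X} (h : ∀ u, p u ∈ S) (h' : ∀ u, p' u ∈ S) : range (p.trans p') ⊆ S := by
  rw [Path.trans_range, union_subset_iff]
  constructor
  · rintro _ ⟨u, rfl⟩
    exact h u
  · rintro _ ⟨u, rfl⟩
    exact h' u

/-! the orbit -/

private theorem G2_act_pow (q : ℕ) (s : ℝ) :
    (act q s (1, Complex.I)).1 ^ q = -(act q s (1, Complex.I)).2 ^ 2 := by
  unfold act
  simp only [mul_one]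
  rw [mul_pow, Complex.I_sq, ← Complex.exp_nat_mul, ← Complex.exp_nat_mul]
  have : (q : ℂ) * (2 * (2 * Real.pi * s) * Complex.I) =
      ((2 : ℕ) : ℂ) * (q * (2 * Real.pi * s) * Complex.I) := by
    push_cast
    ring
  rw [this]
  ring

private theorem G2_act_ne (q : ℕ) (s : ℝ) : (act q s (1, Complex.I)).1 ≠ 0 ∧
    (act q s (1, Complex.I)).2 ≠ 0 := by
  unfold act
  simp only [mul_one]
  exact ⟨Complex.exp_ne_zero _, mul_ne_zero (Complex.exp_ne_zero _) Complex.I_ne_zero⟩

private theorem G2_act_sph (q : ℕ) (s : ℝ) : OnS (act q s (1, Complex.I)) ∧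
    (act q s (1, Complex.I)).1 ^ q ≠ (act q s (1, Complex.I)).2 ^ 2 := by
  constructor
  · have h1 : ‖(act q s (1, Complex.I)).1‖ = 1 := by
      unfold act
      have : (2 * (2 * Real.pi * s) * Complex.I : ℂ) = ((2 * (2 * Real.pi * s) : ℝ) : ℂ) * Complex.I := by
        push_cast
        ring
      simp only [mul_one]
      rw [this, Complex.norm_exp_ofReal_mul_I]
    have h2 : ‖(act q s (1, Complex.I)).2‖ = 1 := by
      unfold act
      have : (q * (2 * Real.pi * s) * Complex.I : ℂ) = ((q * (2 * Real.pi * s) : ℝ) : ℂ) * Complex.I := by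
        push_cast
        ring
      simp only
      rw [norm_mul, this, Complex.norm_exp_ofReal_mul_I, Complex.norm_I, mul_one]
    unfold OnS
    rw [h1, h2]
    norm_num
  · rw [G2_act_pow]
    intro h
    have h1 : (act q s (1, Complex.I)).2 ^ 2 = 0 := by
      have : (2 : ℂ) * (act q s (1, Complex.I)).2 ^ 2 = 0 := by linear_combination -h
      simpa using this
    exact (G2_act_ne q s).2 (by simpa using h1)

private theorem G2_act_mem (q : ℕ) (s : ℝ) {y : YS q} (hy : y.1 = act q s (1, Complex.I)) :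
    y ∈ UW q ∧ y ∈ UZ q := by
  have h2 := G2_act_pow q s
  have h3 := G2_act_ne q s
  rw [← hy] at h2 h3
  refine ⟨⟨h3.2, fun r hr h => ?_⟩, ⟨h3.1, fun r hr h => ?_⟩⟩
  · rw [h2] at h
    have h4 : ((r : ℂ) + 1) * y.1.2 ^ 2 = 0 := by linear_combination -h
    rcases mul_eq_zero.1 h4 with h5 | h5
    · have h6 : (r + 1 : ℝ) = 0 := by exact_mod_cast h5
      linarith
    · exact h3.2 (by simpa using h5)
  · rw [h2] at h
    have h4 : ((r : ℂ) + 1) * y.1.2 ^ 2 = 0 := by linear_combination h
    rcases mul_eq_zero.1 h4 with h5 | h5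
    · have h6 : (r + 1 : ℝ) = 0 := by exact_mod_cast h5
      linarith
    · exact h3.2 (by simpa using h5)

private theorem G2_act_cont (q : ℕ) : Continuous fun s : ℝ => act q s (1, Complex.I) := by
  unfold act
  fun_prop

private theorem G2_act_ang1 (q : ℕ) (s : ℝ) : G2_A (act q s (1, Complex.I)).1 (2 * s) := by
  refine G2_A_mk zero_le_one ?_
  unfold act
  simp only [mul_one, Complex.ofReal_one, one_mul]
  congr 1
  push_cast
  ring

private theorem G2_act_ang2 (q : ℕ) (s : ℝ) : G2_A (act q s (1, Complex.I)).2 (q * s + 1 / 4) := by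
  refine G2_A_mk zero_le_one ?_
  unfold act
  simp only [Complex.ofReal_one, one_mul]
  have h1 : (2 * Real.pi * ((q * s + 1 / 4 : ℝ) : ℂ) * Complex.I) =
      q * (2 * Real.pi * s) * Complex.I + Real.pi / 2 * Complex.I := by
    push_cast
    ring
  rw [h1, Complex.exp_add, Complex.exp_pi_div_two_mul_I]

/-- winding numbers on the intersection -/
private theorem G2_wind (q : ℕ) (p : Path (y0 q) (y0 q)) (hW : ∀ u, p u ∈ UW q)
    (hZ : ∀ u, p u ∈ UZ q) (θ θ' : C(I, ℝ)) (n n' : ℤ) (h : ∀ u, G2_A (p u).1.2 (θ u))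
    (h' : ∀ u, G2_A (p u).1.1 (θ' u)) (hn : θ 1 - θ 0 = n) (hn' : θ' 1 - θ' 0 = n') :
    2 * n = q * n' := by
  set v : I → ℂ := fun u => -((p u).1.2 ^ 2 / (p u).1.1 ^ q) with hv
  have hz0 : ∀ u, (p u).1.1 ≠ 0 := fun u => (hZ u).1
  have hw0 : ∀ u, (p u).1.2 ≠ 0 := fun u => (hW u).1
  have hvc : Continuous v := by
    have h1 : Continuous fun u => (p u).1.1 := continuous_fst.comp (continuous_subtype_val.comp p.continuous)
    have h2 : Continuous fun u => (p u).1.2 := continuous_snd.comp (continuous_subtype_val.comp p.continuous)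
    exact ((h2.pow 2).div (h1.pow q) fun u => pow_ne_zero _ (hz0 u)).neg
  have hslit : ∀ u, v u ∈ Complex.slitPlane := by
    intro u
    rw [Complex.mem_slitPlane_iff_not_le_zero, Complex.le_def]
    intro hle
    -- `v = -s` with `s ≥ 0` real
    obtain ⟨s, hs, hvs⟩ : ∃ s : ℝ, 0 ≤ s ∧ (p u).1.2 ^ 2 = s * (p u).1.1 ^ q := by
      refine ⟨-(v u).re, by simpa using hle.1, ?_⟩
      have h1 : v u = ((v u).re : ℂ) := Complex.ext (by simp) (by simpa using hle.2)
      have h2 : (p u).1.2 ^ 2 / (p u).1.1 ^ q = ((-(v u).re : ℝ) : ℂ) := by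
        push_cast
        rw [← h1, hv]
        simp
      rw [← h2, div_mul_cancel₀ _ (pow_ne_zero _ (hz0 u))]
    rcases le_or_gt 1 s with h1 | h1
    · exact (hZ u).2 s h1 hvs
    · rcases hs.eq_or_lt with h2 | h2
      · rw [← h2, Complex.ofReal_zero, zero_mul] at hvs
        exact hw0 u (by simpa using hvs)
      · refine (hW u).2 s⁻¹ ((one_le_inv₀ h2).2 h1.le) ?_
        rw [hvs, ← mul_assoc, ← Complex.ofReal_mul, inv_mul_cancel₀ h2.ne']
        simp
  have hac : Continuous fun u => Complex.arg (v u) := by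
    rw [continuous_iff_continuousAt]
    intro u
    exact (Complex.continuousAt_arg (hslit u)).comp hvc.continuousAt
  have hconst := G2_const (fun u => 2 * θ u - q * θ' u - 1 / 2 - Complex.arg (v u) / (2 * Real.pi))
    (by fun_prop) (by
      intro u
      have e1 := h u
      have e2 := h' u
      unfold G2_A at e1 e2
      have e3 : v u = (‖v u‖ : ℂ) * Complex.exp (Complex.arg (v u) * Complex.I) :=
        (Complex.norm_mul_exp_arg_mul_I _).symm
      have hnv : ‖v u‖ = ‖(p u).1.2‖ ^ 2 / ‖(p u).1.1‖ ^ q := by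
        rw [hv]
        simp only [norm_neg, norm_div, norm_pow]
      have hnz : (‖(p u).1.1‖ : ℂ) ≠ 0 := by
        simpa using hz0 u
      have hnw : (‖(p u).1.2‖ : ℂ) ≠ 0 := by
        simpa using hw0 u
      -- two expressions of `v`
      have e4 : v u = (‖v u‖ : ℂ) * Complex.exp (2 * Real.pi * ((2 * θ u - q * θ' u - 1 / 2 : ℝ) : ℂ) *
          Complex.I) := by
        rw [hnv]
        have h3 : (2 * Real.pi * ((2 * θ u - q * θ' u - 1 / 2 : ℝ) : ℂ) * Complex.I) =
            ((2 : ℕ) : ℂ) * (2 * Real.pi * (θ u) * Complex.I) -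
              (q : ℂ) * (2 * Real.pi * (θ' u) * Complex.I) - Real.pi * Complex.I := by
          push_cast
          ring
        rw [h3, Complex.exp_sub, Complex.exp_sub, Complex.exp_nat_mul, Complex.exp_nat_mul,
          Complex.exp_pi_mul_I, hv]
        simp only
        conv_lhs => rw [e1, e2, mul_pow, mul_pow]
        have h4 : Complex.exp (2 * Real.pi * (θ' u) * Complex.I) ≠ 0 := Complex.exp_ne_zero _
        push_cast
        field_simp
      have hvn : (‖v u‖ : ℂ) ≠ 0 := by
        have : v u ≠ 0 := Complex.slitPlane_ne_zero (hslit u)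
        simpa using this
      have e5 : Complex.exp (2 * Real.pi * ((2 * θ u - q * θ' u - 1 / 2 : ℝ) : ℂ) * Complex.I) =
          Complex.exp (Complex.arg (v u) * Complex.I) :=
        mul_left_cancel₀ hvn (e4.symm.trans e3)
      obtain ⟨k, hk⟩ := Complex.exp_eq_exp_iff_exists_int.1 e5
      refine ⟨k, ?_⟩
      have hpi : (2 * Real.pi * Complex.I : ℂ) ≠ 0 := Complex.two_pi_I_ne_zero
      have h5 : ((2 * θ u - q * θ' u - 1 / 2 - Complex.arg (v u) / (2 * Real.pi) : ℝ) : ℂ) *
          (2 * Real.pi * Complex.I) = (k : ℂ) * (2 * Real.pi * Complex.I) := by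
        have hp : (Real.pi : ℂ) ≠ 0 := by exact_mod_cast Real.pi_ne_zero
        have h6 : ((2 * θ u - q * θ' u - 1 / 2 - Complex.arg (v u) / (2 * Real.pi) : ℝ) : ℂ) *
          (2 * Real.pi * Complex.I) = 2 * Real.pi * ((2 * θ u - q * θ' u - 1 / 2 : ℝ) : ℂ) * Complex.I -
            Complex.arg (v u) * Complex.I := by
          push_cast
          field_simp
        rw [h6, hk]
        ring
      have h7 := mul_right_cancel₀ hpi h5
      exact_mod_cast h7)
  have hv01 : v 1 = v 0 := by
    rw [hv]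
    simp only [p.source, p.target]
  rw [hv01] at hconst
  have h8 : (2 * n : ℝ) = q * n' := by
    rw [← hn, ← hn']
    linarith
  exact_mod_cast h8

private theorem G2_mul {X : Type*} [TopologicalSpace X] {x : X} (s h : Path x x) :
    cls (s.trans h) = cls h * cls s := rfl

private theorem G2_split {X : Type*} [TopologicalSpace X] {x y : X} (p d : Path x y) (p' : Path y x) :
    cls (p.trans p') = cls (d.trans p') * cls (p.trans d.symm) := by
  rw [← G2_mul]
  unfold cls
  congr 1
  rw [Path.Homotopic.Quotient.mk_trans, Path.Homotopic.Quotient.mk_trans,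
    Path.Homotopic.Quotient.mk_trans, Path.Homotopic.Quotient.mk_trans,
    Path.Homotopic.Quotient.mk_symm, Path.Homotopic.Quotient.trans_assoc,
    ← Path.Homotopic.Quotient.trans_assoc (Path.Homotopic.Quotient.mk d).symm,
    Path.Homotopic.Quotient.symm_trans, Path.Homotopic.Quotient.refl_trans]

/-- the points of the meridian -/
private theorem G2_slice (q : ℕ) {y : YS q} {t : ℝ} (hy : y.1 = Sl (mz t) (mphi t)) :
    (Real.sin (2 * Real.pi * t) ≥ 0 → y ∈ UW q) ∧ (Real.sin (2 * Real.pi * t) ≤ 0 → y ∈ UZ q) := by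
  have hs1 := Real.sin_le_one (2 * Real.pi * t)
  have hs2 := Real.neg_one_le_sin (2 * Real.pi * t)
  set s0 := Real.sin (2 * Real.pi * t) with hs0
  have hz : mz t = 1 - s0 / 4 := rfl
  have hy1 : y.1.1 = (mz t : ℂ) := by rw [hy]; rfl
  have hy2 : y.1.2 = (Real.sqrt (2 - mz t ^ 2) : ℂ) * Complex.exp (mphi t * Complex.I) := by
    rw [hy]; rfl
  have hpos : 0 < 2 - mz t ^ 2 := by rw [hz]; nlinarith
  have hzpos : 0 < mz t := by rw [hz]; linarith
  have hsq : 0 < Real.sqrt (2 - mz t ^ 2) := Real.sqrt_pos.2 hpos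
  have hy22 : y.1.2 ^ 2 = ((2 - mz t ^ 2 : ℝ) : ℂ) * Complex.exp (2 * mphi t * Complex.I) := by
    rw [hy2, mul_pow, ← Complex.exp_nat_mul, ← Complex.ofReal_pow, Real.sq_sqrt hpos.le]
    congr 2
    push_cast
    ring
  have hnorm2 : ‖y.1.2 ^ 2‖ = 2 - mz t ^ 2 := by
    have : (2 * mphi t * Complex.I : ℂ) = ((2 * mphi t : ℝ) : ℂ) * Complex.I := by push_cast; ring
    rw [hy22, norm_mul, this, Complex.norm_exp_ofReal_mul_I, mul_one, Complex.norm_real,
      Real.norm_of_nonneg hpos.le]
  have hnorm1 : ‖y.1.1 ^ q‖ = mz t ^ q := by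
    rw [hy1, norm_pow, Complex.norm_real, Real.norm_of_nonneg hzpos.le]
  have hne2 : y.1.2 ≠ 0 := by
    rw [hy2]
    refine mul_ne_zero ?_ (Complex.exp_ne_zero _)
    exact_mod_cast hsq.ne'
  have hne1 : y.1.1 ≠ 0 := by
    rw [hy1]
    exact_mod_cast hzpos.ne'
  -- the case `s0 = 0`
  have hzero : s0 = 0 → y.1.1 = 1 ∧ y.1.2 ^ 2 = -1 := by
    intro h0
    have hz1 : mz t = 1 := by rw [hz, h0]; norm_num
    have hcos : Real.cos (2 * Real.pi * t) ^ 2 = 1 := by
      have := Real.sin_sq_add_cos_sq (2 * Real.pi * t)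
      rw [← hs0, h0] at this
      linarith
    refine ⟨by rw [hy1, hz1]; simp, ?_⟩
    rw [hy22, hz1]
    have hm : mphi t = Real.pi / 2 * Real.cos (2 * Real.pi * t) := rfl
    have hcos' : Real.cos (2 * Real.pi * t) = 1 ∨ Real.cos (2 * Real.pi * t) = -1 := by
      have h0' : (Real.cos (2 * Real.pi * t) - 1) * (Real.cos (2 * Real.pi * t) + 1) = 0 := by
        linear_combination hcos
      rcases mul_eq_zero.1 h0' with h1 | h1
      · exact Or.inl (by linarith)
      · exact Or.inr (by linarith)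
    rcases hcos' with h1 | h1
    · rw [hm, h1]
      have : (2 * ((Real.pi / 2 * 1 : ℝ) : ℂ) * Complex.I) = Real.pi * Complex.I := by
        push_cast
        ring
      rw [this, Complex.exp_pi_mul_I]
      norm_num
    · rw [hm, h1]
      have : (2 * ((Real.pi / 2 * -1 : ℝ) : ℂ) * Complex.I) = -(Real.pi * Complex.I) := by
        push_cast
        ring
      rw [this, Complex.exp_neg, Complex.exp_pi_mul_I]
      norm_num
  constructor
  · intro hge
    refine ⟨hne2, fun r hr h => ?_⟩
    have h1 := congrArg norm h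
    rw [norm_mul, hnorm1, hnorm2, Complex.norm_real, Real.norm_of_nonneg (by linarith)] at h1
    have hzle : mz t ≤ 1 := by rw [hz]; linarith
    have h2 : mz t ^ q ≤ 1 := pow_le_one₀ hzpos.le hzle
    rcases hge.eq_or_lt with h3 | h3
    · obtain ⟨e1, e2⟩ := hzero h3.symm
      rw [e1, e2, one_pow] at h
      have h5 : (1 : ℝ) = -r := by
        have : (1 : ℂ) = ((-r : ℝ) : ℂ) := by rw [h]; push_cast; ring
        exact_mod_cast this
      linarith
    · have h4 : 1 < 2 - mz t ^ 2 := by rw [hz]; nlinarith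
      have h5 : 2 - mz t ^ 2 ≤ r * (2 - mz t ^ 2) := le_mul_of_one_le_left hpos.le hr
      linarith
  · intro hle
    refine ⟨hne1, fun r hr h => ?_⟩
    have h1 := congrArg norm h
    rw [norm_mul, hnorm1, hnorm2, Complex.norm_real, Real.norm_of_nonneg (by linarith)] at h1
    have hzge : 1 ≤ mz t := by rw [hz]; linarith
    have h2 : 1 ≤ mz t ^ q := one_le_pow₀ hzge
    rcases hle.eq_or_lt with h3 | h3
    · obtain ⟨e1, e2⟩ := hzero h3
      rw [e1, e2, one_pow, mul_one] at h
      have h5 : (-1 : ℝ) = r := by exact_mod_cast h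
      linarith
    · have h4 : 2 - mz t ^ 2 < 1 := by rw [hz]; nlinarith
      have h5 : mz t ^ q ≤ r * mz t ^ q := le_mul_of_one_le_left (by linarith) hr
      linarith

/-- lift of a path -/
private def G2_lift {X : Type*} [TopologicalSpace X] {S : Set X} {x : X} (hx : x ∈ S) (p : Path x x)
    (hp : ∀ u, p u ∈ S) : Path (⟨x, hx⟩ : S) ⟨x, hx⟩ where
  toFun t := ⟨p t, hp t⟩
  continuous_toFun := p.continuous.subtype_mk _
  source' := Subtype.ext p.source
  target' := Subtype.ext p.target

/-- a homomorphism given by a winding number -/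
private theorem G2_hom {q : ℕ} {S : Set (YS q)} (hx : y0 q ∈ S) (g : S → ℂ) (hg : Continuous g)
    (hg0 : ∀ y, g y ≠ 0) {Γ : Type} [Group Γ] (a : Γ) :
    ∃ f : FundamentalGroup S ⟨y0 q, hx⟩ →* Γ, ∀ (p : Path (⟨y0 q, hx⟩ : S) ⟨y0 q, hx⟩)
      (θ : C(I, ℝ)) (n : ℤ), (∀ u, G2_A (g (p u)) (θ u)) → θ 1 - θ 0 = n → f (cls p) = a ^ n := by
  obtain ⟨W, hW⟩ := WN (⟨y0 q, hx⟩ : S) ⟨g, hg⟩ hg0
  refine ⟨(zpowersHom Γ a).comp W, fun p θ n h hn => ?_⟩
  have h1 := hW p θ n h hn
  rw [MonoidHom.comp_apply, h1, zpowersHom_apply]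
  rfl

theorem G2 (q : ℕ) (hq : Odd q) : ∃ α β : FundamentalGroup (YS q) (y0 q), α ^ q = β ^ 2 ∧
    Subgroup.closure {α, β} = ⊤ ∧
    (∀ (Γ : Type) [Group Γ] (a b : Γ), a ^ q = b ^ 2 →
      ∃ F : FundamentalGroup (YS q) (y0 q) →* Γ, F α = a ∧ F β = b) ∧
    (∀ δ : Path (y0 q) (y0 q), IsOrb q δ → cls δ = α ^ q) ∧
    (∀ m : Path (y0 q) (y0 q), IsM q m → cls m = β * (α ^ ((q + 1) / 2))⁻¹) := by
  obtain ⟨pα, pβ, hα, hβ, ⟨θα, hα1, hα2⟩, ⟨θβ, hβ1, hβ2⟩, KW, KZ⟩ := G2g q hq
  have horb : ∀ δ : Path (y0 q) (y0 q), IsOrb q δ → cls δ = cls pα ^ q ∧ cls δ = cls pβ ^ 2 := by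
    intro δ hδ
    constructor
    · have h1 := KW δ ⟨fun u => q * (u : ℝ) + 1 / 4, by fun_prop⟩ q
        (by
          rintro _ ⟨u, rfl⟩
          exact (G2_act_mem q u (hδ u)).1)
        (fun u => by
          have := G2_act_ang2 q u
          rw [← hδ u] at this
          exact this)
        (by simp)
      rw [h1, zpow_natCast]
    · have h1 := KZ δ ⟨fun u => 2 * (u : ℝ), by fun_prop⟩ (2 : ℕ)
        (by
          rintro _ ⟨u, rfl⟩
          exact (G2_act_mem q u (hδ u)).2)
        (fun u => by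
          have := G2_act_ang1 q u
          rw [← hδ u] at this
          exact this)
        (by simp)
      rw [h1, zpow_natCast]
  -- an orbit loop
  let δ1 : Path (y0 q) (y0 q) :=
    { toFun := fun t => ⟨act q t (1, Complex.I), G2_act_sph q t⟩
      continuous_toFun := ((G2_act_cont q).comp continuous_subtype_val).subtype_mk _
      source' := by
        apply Subtype.ext
        change act q ((0 : I) : ℝ) (1, Complex.I) = (1, Complex.I)
        unfold act
        simp
      target' := by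
        apply Subtype.ext
        change act q ((1 : I) : ℝ) (1, Complex.I) = (1, Complex.I)
        unfold act
        have h1 : Complex.exp (2 * (2 * Real.pi * ((1 : I) : ℝ)) * Complex.I) = 1 := by
          rw [Complex.exp_eq_one_iff]
          exact ⟨2, by push_cast; simp; ring⟩
        have h2 : Complex.exp (q * (2 * Real.pi * ((1 : I) : ℝ)) * Complex.I) = 1 := by
          rw [Complex.exp_eq_one_iff]
          exact ⟨q, by push_cast; simp; ring⟩
        rw [h1, h2]
        simp }
  have hδ1 : IsOrb q δ1 := fun t => rfl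
  have hrel : cls pα ^ q = cls pβ ^ 2 := (horb δ1 hδ1).1.symm.trans (horb δ1 hδ1).2
  have hcW : ∀ y : YS q, Continuous fun y : YS q => y.1.2 := fun _ =>
    continuous_snd.comp continuous_subtype_val
  have hc2 : Continuous fun y : YS q => y.1.2 := continuous_snd.comp continuous_subtype_val
  have hc1 : Continuous fun y : YS q => y.1.1 := continuous_fst.comp continuous_subtype_val
  have hb := G2s_base q
  refine ⟨cls pα, cls pβ, hrel, ?_, ?_, fun δ hδ => (horb δ hδ).1, ?_⟩
  · -- generation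
    rw [eq_top_iff]
    intro r _
    have hpc : IsPathConnected (UW q ∩ UZ q) := by
      refine ⟨y0 q, hb, fun {y} hy => ?_⟩
      obtain ⟨p, hp1, hp2⟩ := G2s_path q hq y
      exact ⟨p, fun u => ⟨hp1 hy.1 ⟨u, rfl⟩, hp2 hy.2 ⟨u, rfl⟩⟩⟩
    have h1 := VK3 (UW q) (UZ q) (G2s_open q).1 (G2s_open q).2 (G2s_cover q) (y0 q) hb.1 hb.2 hpc r
    refine (Subgroup.closure_le _).2 ?_ h1
    rintro _ ⟨s, hs, rfl⟩
    rcases hs with hs | hs
    · obtain ⟨θ, n, h2, h3⟩ := G2_ang s (fun y => y.1.2) (hc2.comp s.continuous)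
        (fun u => (hs ⟨u, rfl⟩).1)
      rw [KW s θ n hs h2 h3]
      exact zpow_mem (Subgroup.subset_closure (by simp)) n
    · obtain ⟨θ, n, h2, h3⟩ := G2_ang s (fun y => y.1.1) (hc1.comp s.continuous)
        (fun u => (hs ⟨u, rfl⟩).1)
      rw [KZ s θ n hs h2 h3]
      exact zpow_mem (Subgroup.subset_closure (by simp)) n
  · -- universal property
    intro Γ _ a b hab
    obtain ⟨fW, hfW⟩ := G2_hom hb.1 (fun y : UW q => y.1.1.2) (hc2.comp continuous_subtype_val)
      (fun y => y.2.1) a
    obtain ⟨fZ, hfZ⟩ := G2_hom hb.2 (fun y : UZ q => y.1.1.1) (hc1.comp continuous_subtype_val)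
      (fun y => y.2.1) b
    have hcross : ∀ (p : Path (⟨y0 q, hb.1⟩ : UW q) ⟨y0 q, hb.1⟩)
        (p' : Path (⟨y0 q, hb.2⟩ : UZ q) ⟨y0 q, hb.2⟩), (∀ t, (p t : YS q) = p' t) →
        fW (cls p) = fZ (cls p') := by
      intro p p' hpp
      obtain ⟨θ, n, h2, h3⟩ := G2_ang p (fun y => y.1.1.2)
        ((hc2.comp continuous_subtype_val).comp p.continuous) (fun u => (p u).2.1)
      obtain ⟨θ', n', h2', h3'⟩ := G2_ang p' (fun y => y.1.1.1)
        ((hc1.comp continuous_subtype_val).comp p'.continuous) (fun u => (p' u).2.1)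
      rw [hfW p θ n h2 h3, hfZ p' θ' n' h2' h3']
      let p0 : Path (y0 q) (y0 q) := p.map continuous_subtype_val
      have hp0 : ∀ u, p0 u = (p u : YS q) := fun u => rfl
      have h4 := G2_wind q p0 (fun u => (p u).2) (fun u => by
        rw [hp0, hpp u]
        exact (p' u).2) θ θ' n n' h2 (fun u => by
        rw [hp0, hpp u]
        exact h2' u) h3 h3'
      obtain ⟨k, hk⟩ := hq
      have h5 : ∃ j : ℤ, n' = 2 * j := by
        have h6 : 2 * n = (2 * k + 1) * n' := by
          rw [h4, hk]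
          push_cast
          ring
        exact ⟨n - k * n', by linarith⟩
      obtain ⟨j, hj⟩ := h5
      have h6 : n = q * j := by
        rw [hj] at h4
        linarith
      rw [h6, hj, zpow_mul, zpow_mul, zpow_natCast, hab]
      congr 1
      exact_mod_cast (zpow_natCast b 2).symm
    obtain ⟨F, hF⟩ := VK2 (fun i : Bool => cond i (UW q) (UZ q)) (by
        intro i
        cases i
        · exact (G2s_open q).2
        · exact (G2s_open q).1)
      (by
        rw [eq_univ_iff_forall]
        intro y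
        have h1 : y ∈ UW q ∪ UZ q := by
          rw [G2s_cover]
          exact mem_univ y
        rcases h1 with h1 | h1
        · exact mem_iUnion.2 ⟨true, h1⟩
        · exact mem_iUnion.2 ⟨false, h1⟩)
      (y0 q) (by
        intro i
        cases i
        · exact hb.2
        · exact hb.1)
      (by
        intro y
        obtain ⟨p, hp1, hp2⟩ := G2s_path q hq y
        refine ⟨p, fun i => ?_⟩
        cases i
        · exact hp2
        · exact hp1)
      (fun i => match i with
        | true => fW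
        | false => fZ)
      (by
        intro i j p p' hpp
        cases i <;> cases j
        · have : p = p' := by
            apply Path.ext
            funext t
            exact Subtype.ext (hpp t)
          rw [this]
        · exact (hcross p' p fun t => (hpp t).symm).symm
        · exact hcross p p' hpp
        · have : p = p' := by
            apply Path.ext
            funext t
            exact Subtype.ext (hpp t)
          rw [this])
    refine ⟨F, ?_, ?_⟩
    · have h1 := hF true (G2_lift hb.1 pα fun u => hα ⟨u, rfl⟩) pα (fun t => rfl)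
      rw [h1]
      have h2 := hfW (G2_lift hb.1 pα fun u => hα ⟨u, rfl⟩) θα 1 hα2 (by rw [hα1]; simp)
      rw [zpow_one] at h2
      exact h2
    · have h1 := hF false (G2_lift hb.2 pβ fun u => hβ ⟨u, rfl⟩) pβ (fun t => rfl)
      rw [h1]
      have h2 := hfZ (G2_lift hb.2 pβ fun u => hβ ⟨u, rfl⟩) θβ 1 hβ2 (by rw [hβ1]; simp)
      rw [zpow_one] at h2
      exact h2
  · -- meridian
    intro m hm
    have hhalf : ((1 / 2 : ℝ)) ∈ I := ⟨by norm_num, by norm_num⟩
    let ym : YS q := m ⟨1 / 2, hhalf⟩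
    have hmem1 : ∀ u : I, (u : ℝ) / 2 ∈ I := fun u =>
      ⟨by linarith [u.2.1], by linarith [u.2.2]⟩
    have hmem2 : ∀ u : I, (1 + (u : ℝ)) / 2 ∈ I := fun u =>
      ⟨by linarith [u.2.1], by linarith [u.2.2]⟩
    let P1 : Path (y0 q) ym :=
      { toFun := fun u => m ⟨(u : ℝ) / 2, hmem1 u⟩
        continuous_toFun := m.continuous.comp ((continuous_subtype_val.div_const 2).subtype_mk _)
        source' := by
          have : (⟨((0 : I) : ℝ) / 2, hmem1 0⟩ : I) = 0 := Subtype.ext (by simp)
          rw [this, m.source]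
        target' := by
          have : (⟨((1 : I) : ℝ) / 2, hmem1 1⟩ : I) = ⟨1 / 2, hhalf⟩ := Subtype.ext (by simp)
          rw [this] }
    let P2 : Path ym (y0 q) :=
      { toFun := fun u => m ⟨(1 + (u : ℝ)) / 2, hmem2 u⟩
        continuous_toFun := m.continuous.comp
          (((continuous_const.add continuous_subtype_val).div_const 2).subtype_mk _)
        source' := by
          have : (⟨(1 + ((0 : I) : ℝ)) / 2, hmem2 0⟩ : I) = ⟨1 / 2, hhalf⟩ := Subtype.ext (by simp)
          rw [this]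
        target' := by
          have : (⟨(1 + ((1 : I) : ℝ)) / 2, hmem2 1⟩ : I) = 1 := Subtype.ext (by norm_num)
          rw [this, m.target] }
    have hym : ym.1 = (1, -Complex.I) := by
      have h1 : ym.1 = Sl (mz (1 / 2)) (mphi (1 / 2)) := hm ⟨1 / 2, hhalf⟩
      rw [h1]
      have h2 : mz (1 / 2) = 1 := by
        unfold mz
        rw [show 2 * Real.pi * (1 / 2) = Real.pi by ring, Real.sin_pi]
        norm_num
      have h3 : mphi (1 / 2) = -(Real.pi / 2) := by
        unfold mphi
        rw [show 2 * Real.pi * (1 / 2) = Real.pi by ring, Real.cos_pi]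
        ring
      rw [h2, h3]
      unfold Sl
      have h4 : Complex.exp (((-(Real.pi / 2) : ℝ) : ℂ) * Complex.I) = -Complex.I := by
        have : (((-(Real.pi / 2) : ℝ) : ℂ) * Complex.I) = -(Real.pi / 2 * Complex.I) := by
          push_cast
          ring
        rw [this, Complex.exp_neg, Complex.exp_pi_div_two_mul_I, Complex.inv_I]
      rw [h4]
      norm_num
    obtain ⟨k, hk⟩ := hq
    let δ0 : Path (y0 q) ym :=
      { toFun := fun u => ⟨act q ((u : ℝ) / 2) (1, Complex.I), G2_act_sph q _⟩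
        continuous_toFun :=
          ((G2_act_cont q).comp (continuous_subtype_val.div_const 2)).subtype_mk _
        source' := by
          apply Subtype.ext
          change act q (((0 : I) : ℝ) / 2) (1, Complex.I) = (1, Complex.I)
          unfold act
          simp
        target' := by
          apply Subtype.ext
          change act q (((1 : I) : ℝ) / 2) (1, Complex.I) = ym.1
          rw [hym]
          unfold act
          have h1 : Complex.exp (2 * (2 * Real.pi * ((((1 : I) : ℝ) / 2 : ℝ) : ℂ)) * Complex.I) = 1 := by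
            rw [Complex.exp_eq_one_iff]
            exact ⟨1, by push_cast; simp; ring⟩
          have h2 : Complex.exp (q * (2 * Real.pi * ((((1 : I) : ℝ) / 2 : ℝ) : ℂ)) * Complex.I) = -1 := by
            have e : (q * (2 * Real.pi * ((((1 : I) : ℝ) / 2 : ℝ) : ℂ)) * Complex.I) =
                (k : ℤ) * (2 * Real.pi * Complex.I) + Real.pi * Complex.I := by
              rw [hk]
              push_cast
              simp
              ring
            rw [e, Complex.exp_add, Complex.exp_int_mul_two_pi_mul_I, Complex.exp_pi_mul_I, one_mul]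
          rw [h1, h2]
          simp }
    have hmP : m = P1.trans P2 := by
      apply Path.ext
      funext t
      rw [Path.trans_apply]
      split_ifs with h
      · change m t = m _
        congr 1
        apply Subtype.ext
        change (t : ℝ) = 2 * (t : ℝ) / 2
        ring
      · change m t = m _
        congr 1
        apply Subtype.ext
        change (t : ℝ) = (1 + (2 * (t : ℝ) - 1)) / 2
        ring
    have hP1 : ∀ u, (P1 u).1 = Sl (mz ((u : ℝ) / 2)) (mphi ((u : ℝ) / 2)) := fun u => hm _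
    have hP2 : ∀ u, (P2 u).1 = Sl (mz ((1 + (u : ℝ)) / 2)) (mphi ((1 + (u : ℝ)) / 2)) := fun u => hm _
    have hD : ∀ u, (δ0 u).1 = act q ((u : ℝ) / 2) (1, Complex.I) := fun u => rfl
    have hP1W : ∀ u, P1 u ∈ UW q := by
      intro u
      refine (G2_slice q (hP1 u)).1 ?_
      apply Real.sin_nonneg_of_nonneg_of_le_pi
      · have := u.2.1
        positivity
      · have h1 := u.2.2
        have h2 := Real.pi_pos
        nlinarith
    have hP2Z : ∀ u, P2 u ∈ UZ q := by
      intro u
      refine (G2_slice q (hP2 u)).2 ?_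
      have e : 2 * Real.pi * ((1 + (u : ℝ)) / 2) = Real.pi * u + Real.pi := by ring
      rw [e, Real.sin_add_pi]
      have : 0 ≤ Real.sin (Real.pi * u) := by
        apply Real.sin_nonneg_of_nonneg_of_le_pi
        · have := u.2.1
          positivity
        · have h1 := u.2.2
          have h2 := Real.pi_pos
          nlinarith
      linarith
    have hDW : ∀ u, δ0 u ∈ UW q := fun u => (G2_act_mem q _ (hD u)).1
    have hDZ : ∀ u, δ0 u ∈ UZ q := fun u => (G2_act_mem q _ (hD u)).2
    -- angle of the second coordinate along `P1` and `δ0.symm`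
    let a1 : Path (1 / 4 : ℝ) (-1 / 4) :=
      { toFun := fun u => Real.cos (Real.pi * u) / 4
        continuous_toFun := by fun_prop
        source' := by simp
        target' := by simp [Real.cos_pi] }
    let a2 : Path (-1 / 4 : ℝ) (1 / 4 + (-((k : ℤ) + 1) : ℤ)) :=
      { toFun := fun u => (q * ((1 - (u : ℝ)) / 2) + 1 / 4) + ((-((k : ℤ) + 1) : ℤ) : ℝ)
        continuous_toFun := by fun_prop
        source' := by
          rw [hk]
          push_cast
          simp
          ring
        target' := by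
          push_cast
          simp }
    have ha1 : ∀ u, G2_A (P1 u).1.2 (a1 u) := by
      intro u
      refine G2_A_mk (Real.sqrt_nonneg (2 - mz ((u : ℝ) / 2) ^ 2)) ?_
      rw [hP1]
      unfold Sl
      change _ = _ * Complex.exp (2 * Real.pi * ((Real.cos (Real.pi * u) / 4 : ℝ) : ℂ) * Complex.I)
      unfold mphi
      rw [show 2 * Real.pi * ((u : ℝ) / 2) = Real.pi * u by ring]
      push_cast
      ring_nf
    have ha2 : ∀ u, G2_A (δ0.symm u).1.2 (a2 u) := by
      intro u
      have h1 := G2_A_int (-((k : ℤ) + 1)) (G2_act_ang2 q ((1 - (u : ℝ)) / 2))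
      exact h1
    have hL1 := KW (P1.trans δ0.symm) (a1.trans a2).toContinuousMap (-((k : ℤ) + 1))
      (G2_rtr hP1W fun u => hDW _)
      (G2_tr P1 δ0.symm (fun y : YS q => y.1.2) a1 a2 ha1 ha2)
      (by
        change (a1.trans a2) 1 - (a1.trans a2) 0 = _
        rw [(a1.trans a2).source, (a1.trans a2).target]
        ring)
    -- angle of the first coordinate along `δ0` and `P2`
    let b1 : Path (0 : ℝ) 1 :=
      { toFun := fun u => 2 * ((u : ℝ) / 2)
        continuous_toFun := by fun_prop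
        source' := by simp
        target' := by simp }
    have hb1 : ∀ u, G2_A (δ0 u).1.1 (b1 u) := fun u => G2_act_ang1 q ((u : ℝ) / 2)
    have hb2 : ∀ u, G2_A (P2 u).1.1 ((Path.refl (1 : ℝ)) u) := by
      intro u
      have hz : 0 ≤ mz ((1 + (u : ℝ)) / 2) := by
        unfold mz
        linarith [Real.sin_le_one (2 * Real.pi * ((1 + (u : ℝ)) / 2))]
      refine G2_A_mk hz ?_
      rw [hP2]
      change (mz ((1 + (u : ℝ)) / 2) : ℂ) = _ * Complex.exp (2 * Real.pi * ((1 : ℝ) : ℂ) * Complex.I)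
      rw [Complex.ofReal_one, mul_one, Complex.exp_two_pi_mul_I, mul_one]
    have hL2 := KZ (δ0.trans P2) (b1.trans (Path.refl (1 : ℝ))).toContinuousMap 1
      (G2_rtr hDZ hP2Z)
      (G2_tr δ0 P2 (fun y : YS q => y.1.1) b1 (Path.refl (1 : ℝ)) hb1 hb2)
      (by
        change (b1.trans (Path.refl (1 : ℝ))) 1 - (b1.trans (Path.refl (1 : ℝ))) 0 = _
        rw [Path.source, Path.target]
        simp)
    rw [hmP, G2_split P1 δ0 P2, hL1, hL2, zpow_one]
    congr 1
    have h9 : (q + 1) / 2 = k + 1 := by omega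
    rw [h9, zpow_neg, inv_inj]
    exact_mod_cast zpow_natCast (cls pα) (k + 1)

end LQ
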