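import Pool.Agent.H64.LQ.Defs

/-!
# FA: loops of the far region

FB: a continuous `f : I → ℂ` without zero with `f 0` real positive has a continuous angle `θ : I → ℝ`, `θ 0 = 0`, `f u = ‖f u‖ e^{2πiθ(u)}`. (Path lifting for the covering
`exp` or `Circle`/`AddCircle`; e.g. `AddCircle`/`Circle.exp` covering: Mathlib `isCoveringMap` statements in Mathlib/Analysis/SpecialFunctions/Complex/Circle.lean,
Mathlib/Topology/Covering/AddCircle.lean, Mathlib/Analysis/Complex/CoveringMap.lean; or by hand: uniform continuity and `Complex.log` on small pieces.)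
FA: a loop `γ` at `xb` in the region `R = {x | 1 < ‖x.2‖ ∨ (1 < |x.1| ∧ x.2 ≠ 0)}` (which avoids `c`, a long knot), with angle `θ` of the second coordinate, `θ 0 = 0`, `θ 1 = n`, has class
`(cls m)^n`. Proof: in the coordinates `(s, ρ, θ)` (`x.2 = ρ e^{2πiθ}`), the region is `{ρ > 1} ∪ {|s| > 1, ρ > 0}`. Homotopy 1: `ρ ↦ ρ + v` for `v ∈ [0, 2]`, then all the points have
`ρ > 2`: the base point moves along `(-2, 3/2 + v)`. Homotopy 2: straight-line homotopy in `(s, ρ, θ)` (the set `{ρ > 2}` is convex) from the resulting loop to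
`(−2, 7/2, n u)`. Homotopy 3: `ρ` back from `7/2` to `3/2` at `s = -2`. The base point moves up and down the same segment, so the result is homotopic rel. base point (the family
of loops with moving base point `β(v)`, `v ∈ [0,1]`, `β` followed by its inverse being null-homotopic). Directly: the homotopy
`(v, u) ↦ (s_v(u), ρ_v(u), θ_v(u))` with `ρ_v(u) = (1-v) ρ(u) + v (3/2) + 8 v (1 - v) · min(u, 1-u)·K`... choose any formula with fixed end points; e.g. first homotopy (fixed end points)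
`ρ(u) ↦ ρ(u) + v K φ(u)` hmm: the points with `|s| ≤ 1` have `ρ > 1`. Alternative with fixed end points: (i) replace `ρ(u)` by `max(ρ(u), 3/2)` through
`(1-v) ρ + v max(ρ, 3/2)` (end points `3/2` fixed, stays in `R` since `ρ` increases); (ii) then all the points have `ρ ≥ 3/2`, a convex set in `(s, ρ, θ)`: straight-line
homotopy to `(-2, 3/2, n u)`. The last loop is the `n`-th power of the meridian `m` (`u ↦ (-2, 3/2, n u)` is homotopic to the `n`-fold concatenation; in `(s,ρ,θ)` coordinates the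
path `u ↦ n u` in `ℝ` is homotopic to any other path from `0` to `n`).
-/

open scoped ContDiff unitInterval
open Topology Set

namespace LQ

open LK

theorem FA_cls {X : Type*} [TopologicalSpace X] {x : X} {p q : Path x x} (h : p.Homotopic q) :
    cls p = cls q := by
  unfold cls
  rw [Path.Homotopic.Quotient.eq.2 h]

theorem FB (f : I → ℂ) (hf : Continuous f) (h0 : ∀ u, f u ≠ 0) (hp : ∃ r : ℝ, 0 < r ∧ f 0 = r) :
    ∃ θ : C(I, ℝ), θ 0 = 0 ∧
      ∀ u, f u = (‖f u‖ : ℂ) * Complex.exp (2 * Real.pi * (θ u) * Complex.I) := by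
  obtain ⟨r, hr, hr0⟩ := hp
  let γ : C(I, {z : ℂ // z ≠ 0}) := ⟨fun u => ⟨f u, h0 u⟩, hf.subtype_mk _⟩
  have hγ : γ 0 = (fun z : ℂ ↦ (⟨_, z.exp_ne_zero⟩ : {z : ℂ // z ≠ 0})) (Real.log r : ℂ) := by
    apply Subtype.ext
    change f 0 = Complex.exp (Real.log r : ℂ)
    rw [hr0, ← Complex.ofReal_exp, Real.exp_log hr]
  obtain ⟨Γ, hΓ, hΓ0⟩ := Complex.isCoveringMap_exp.exists_path_lifts γ (Real.log r : ℂ) hγ
  have hl : ∀ u, Complex.exp (Γ u) = f u := fun u => congrArg Subtype.val (congrFun hΓ u)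
  refine ⟨⟨fun u => (Γ u).im / (2 * Real.pi), (Complex.continuous_im.comp Γ.continuous).div_const _⟩,
    ?_, ?_⟩
  · change (Γ 0).im / (2 * Real.pi) = 0
    rw [hΓ0, Complex.ofReal_im, zero_div]
  · intro u
    have h1 : ‖f u‖ = Real.exp (Γ u).re := by rw [← hl, Complex.norm_exp]
    have h2 : (2 * Real.pi * (((Γ u).im / (2 * Real.pi) : ℝ) : ℂ) * Complex.I) = (Γ u).im * Complex.I := by
      have : (Real.pi : ℂ) ≠ 0 := by exact_mod_cast Real.pi_ne_zero
      push_cast
      field_simp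
    change f u = (‖f u‖ : ℂ) * Complex.exp (2 * Real.pi * (((Γ u).im / (2 * Real.pi) : ℝ) : ℂ) * Complex.I)
    rw [h1, h2, Complex.ofReal_exp, ← Complex.exp_add, Complex.re_add_im, hl]

/-- The point with the polar coordinates `s, ρ, θ`. -/
noncomputable def FA_P (s ρ θ : ℝ) : V := (s, (ρ : ℂ) * Complex.exp (2 * Real.pi * θ * Complex.I))

theorem FA_Pcont {A : Type*} [TopologicalSpace A] {s ρ θ : A → ℝ} (hs : Continuous s)
    (hρ : Continuous ρ) (hθ : Continuous θ) : Continuous fun a => FA_P (s a) (ρ a) (θ a) := by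
  unfold FA_P
  fun_prop

theorem FA_norm (s ρ θ : ℝ) (h : 0 ≤ ρ) : ‖(FA_P s ρ θ).2‖ = ρ := by
  unfold FA_P
  have h2 : (2 * Real.pi * θ * Complex.I) = ((2 * Real.pi * θ : ℝ) : ℂ) * Complex.I := by
    push_cast
    ring
  rw [norm_mul, h2, Complex.norm_exp_ofReal_mul_I, mul_one, Complex.norm_real, Real.norm_of_nonneg h]

theorem FA_avoid {c : ℝ → V} (hc : VKnot c) {s ρ θ : ℝ} (h0 : 0 ≤ ρ)
    (h : 1 < ρ ∨ (1 < |s| ∧ 0 < ρ)) : FA_P s ρ θ ∉ range c := by
  rintro ⟨t, ht⟩
  have hn := FA_norm s ρ θ h0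
  have hs : (FA_P s ρ θ).1 = s := rfl
  by_cases h1 : |t| ≤ 1
  · have h2 := hc.inBall t h1
    rw [ht, hn, hs] at h2
    rcases h with h | h
    · nlinarith [sq_nonneg s]
    · have := sq_abs s
      nlinarith [sq_nonneg ρ, h.1]
  · have h2 := hc.standard t (le_of_lt (not_le.1 h1))
    rw [ht] at h2
    have h3 : ‖(FA_P s ρ θ).2‖ = 0 := by
      rw [h2]
      simp
    rw [hn] at h3
    rcases h with h | h
    · linarith
    · exact absurd h3 h.2.ne'

theorem FA_per (s ρ θ : ℝ) (n : ℤ) : FA_P s ρ (θ + n) = FA_P s ρ θ := by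
  unfold FA_P
  have h : Complex.exp (2 * Real.pi * ((θ + n : ℝ) : ℂ) * Complex.I) =
      Complex.exp (2 * Real.pi * θ * Complex.I) := by
    rw [Complex.exp_eq_exp_iff_exists_int]
    exact ⟨n, by push_cast; ring⟩
  rw [h]

theorem FA_base : FA_P (-2) (3 / 2) 0 = xb := by
  unfold FA_P xb
  simp

theorem FA_baseZ (n : ℤ) : FA_P (-2) (3 / 2) n = xb := by
  rw [← FA_base, ← FA_per (-2) (3 / 2) 0 n, zero_add]

theorem FA_hom {c : ℝ → V} (hc : VKnot c) (γ₀ γ₁ : Path (xM hc) (xM hc)) (s ρ θ : I × I → ℝ)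
    (hs : Continuous s) (hρ : Continuous ρ) (hθ : Continuous θ) (hρ0 : ∀ p, 0 ≤ ρ p)
    (hR : ∀ p, 1 < ρ p ∨ (1 < |s p| ∧ 0 < ρ p))
    (h0 : ∀ u, (γ₀ u).1 = FA_P (s (0, u)) (ρ (0, u)) (θ (0, u)))
    (h1 : ∀ u, (γ₁ u).1 = FA_P (s (1, u)) (ρ (1, u)) (θ (1, u)))
    (h2 : ∀ v, FA_P (s (v, 0)) (ρ (v, 0)) (θ (v, 0)) = xb)
    (h3 : ∀ v, FA_P (s (v, 1)) (ρ (v, 1)) (θ (v, 1)) = xb) : cls γ₀ = cls γ₁ := by
  apply FA_cls
  refine ⟨{ toFun := fun p => ⟨FA_P (s p) (ρ p) (θ p), FA_avoid hc (hρ0 p) (hR p)⟩,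
            continuous_toFun := (FA_Pcont hs hρ hθ).subtype_mk _, map_zero_left := ?_,
            map_one_left := ?_, prop' := ?_ }⟩
  · intro u
    exact Subtype.ext (h0 u).symm
  · intro u
    exact Subtype.ext (h1 u).symm
  · intro v u hu
    have hx : (xM hc).1 = xb := rfl
    rcases hu with hu | hu
    · subst hu
      apply Subtype.ext
      refine (h2 v).trans ?_
      change xb = (γ₀ 0).1
      rw [γ₀.source]
      rfl
    · have hu' : u = 1 := hu
      subst hu'
      apply Subtype.ext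
      refine (h3 v).trans ?_
      change xb = (γ₀ 1).1
      rw [γ₀.target]
      rfl

/-- Two loops of the meridian circle with the same winding number. -/
theorem FA_lin {c : ℝ → V} (hc : VKnot c) (γ₀ γ₁ : Path (xM hc) (xM hc)) (a b : C(I, ℝ)) (n : ℤ)
    (ha0 : a 0 = 0) (hb0 : b 0 = 0) (ha1 : a 1 = n) (hb1 : b 1 = n)
    (h0 : ∀ u, (γ₀ u).1 = FA_P (-2) (3 / 2) (a u))
    (h1 : ∀ u, (γ₁ u).1 = FA_P (-2) (3 / 2) (b u)) : cls γ₀ = cls γ₁ := by
  refine FA_hom hc γ₀ γ₁ (fun _ => -2) (fun _ => 3 / 2)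
    (fun p => (1 - (p.1 : ℝ)) * a p.2 + (p.1 : ℝ) * b p.2) continuous_const continuous_const
    (by fun_prop) (fun _ => by norm_num) (fun _ => Or.inl (by norm_num)) ?_ ?_ ?_ ?_
  · intro u
    rw [h0]
    simp
  · intro u
    rw [h1]
    simp
  · intro v
    simp only [ha0, hb0, mul_zero, add_zero]
    exact FA_base
  · intro v
    simp only [ha1, hb1]
    rw [show (1 - (v : ℝ)) * (n : ℝ) + (v : ℝ) * n = n by ring]
    exact FA_baseZ n

/-- The loop with the angle `n u`. -/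
noncomputable def FA_pw {c : ℝ → V} (hc : VKnot c) (n : ℤ) : Path (xM hc) (xM hc) where
  toFun u := ⟨FA_P (-2) (3 / 2) (n * u), FA_avoid hc (by norm_num) (Or.inl (by norm_num))⟩
  continuous_toFun := by
    refine (FA_Pcont continuous_const continuous_const ?_).subtype_mk _
    fun_prop
  source' := by
    apply Subtype.ext
    simp only [Icc.coe_zero, mul_zero]
    exact FA_base
  target' := by
    apply Subtype.ext
    simp only [Icc.coe_one, mul_one]
    exact FA_baseZ n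

theorem FA_step {c : ℝ → V} (hc : VKnot c) (m : Path (xM hc) (xM hc)) (hm : IsMer hc m) (n : ℤ) :
    cls (FA_pw hc (n + 1)) = cls m * cls (FA_pw hc n) := by
  change _ = cls ((FA_pw hc n).trans m)
  refine FA_lin hc _ _ ⟨fun u => ((n + 1 : ℤ) : ℝ) * u, by fun_prop⟩
    ⟨fun u => n * min (2 * (u : ℝ)) 1 + max (2 * (u : ℝ) - 1) 0, by fun_prop⟩ (n + 1) ?_ ?_ ?_ ?_ ?_ ?_
  · simp
  · simp
  · simp
  · simp only [ContinuousMap.coe_mk, Icc.coe_one]
    norm_num
  · intro u
    rfl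
  · intro u
    rw [Path.trans_apply]
    simp only [ContinuousMap.coe_mk]
    split_ifs with h
    · have h1 : (2 : ℝ) * u ≤ 1 := by linarith
      rw [min_eq_left h1, max_eq_right (by linarith), add_zero]
      rfl
    · have h1 : (1 : ℝ) ≤ 2 * u := by linarith
      rw [min_eq_right h1, max_eq_left (by linarith), mul_one, hm, add_comm, FA_per]
      unfold merPt FA_P
      push_cast
      rfl

theorem FA_pow {c : ℝ → V} (hc : VKnot c) (m : Path (xM hc) (xM hc)) (hm : IsMer hc m) (n : ℤ) :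
    cls (FA_pw hc n) = cls m ^ n := by
  have h0 : cls (FA_pw hc 0) = 1 := by
    have h : FA_pw hc 0 = Path.refl _ := by
      apply Path.ext
      funext u
      apply Subtype.ext
      change FA_P (-2) (3 / 2) (((0 : ℤ) : ℝ) * u) = xb
      rw [Int.cast_zero, zero_mul]
      exact FA_base
    rw [h]
    rfl
  induction n using Int.induction_on with
  | zero => rw [h0, zpow_zero]
  | succ i ih => rw [FA_step hc m hm, ih, add_comm, zpow_add, zpow_one]
  | pred i ih =>
    have h := FA_step hc m hm (-i - 1)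
    rw [sub_add_cancel, ih] at h
    rw [sub_eq_neg_add, zpow_add, h, zpow_neg_one, inv_mul_cancel_left, add_comm]
    congr 1
    

theorem FA {c : ℝ → V} (hc : VKnot c) (γ : Path (xM hc) (xM hc))
    (hfar : ∀ u, 1 < ‖(γ u).1.2‖ ∨ (1 < |(γ u).1.1| ∧ (γ u).1.2 ≠ 0)) (θ : C(I, ℝ))
    (hθ : ∀ u, (γ u).1.2 =
      (‖(γ u).1.2‖ : ℂ) * Complex.exp (2 * Real.pi * (θ u) * Complex.I))
    (h0 : θ 0 = 0) (n : ℤ) (h1 : θ 1 = n) (m : Path (xM hc) (xM hc)) (hm : IsMer hc m) :
    cls γ = cls m ^ n := by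
  have hs : Continuous fun u : I => (γ u).1.1 :=
    continuous_fst.comp (continuous_subtype_val.comp γ.continuous)
  have hρ : Continuous fun u : I => ‖(γ u).1.2‖ :=
    (continuous_snd.comp (continuous_subtype_val.comp γ.continuous)).norm
  have hγ : ∀ u, (γ u).1 = FA_P (γ u).1.1 ‖(γ u).1.2‖ (θ u) := fun u =>
    Prod.ext rfl (hθ u)
  have hs0 : (γ 0).1.1 = -2 := by
    rw [γ.source]
    rfl
  have hs1 : (γ 1).1.1 = -2 := by
    rw [γ.target]
    rfl
  have hn : ‖(xM hc).1.2‖ = 3 / 2 := by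
    have h := FA_norm (-2) (3 / 2) 0 (by norm_num)
    rw [FA_base] at h
    exact h
  have hρ0 : ‖(γ 0).1.2‖ = 3 / 2 := by
    rw [γ.source]
    exact hn
  have hρ1 : ‖(γ 1).1.2‖ = 3 / 2 := by
    rw [γ.target]
    exact hn
  -- the intermediate loop
  let γ' : Path (xM hc) (xM hc) :=
    { toFun := fun u => ⟨FA_P (γ u).1.1 (max ‖(γ u).1.2‖ (3 / 2)) (θ u),
        FA_avoid hc (le_max_of_le_right (by norm_num))
          (Or.inl (lt_of_lt_of_le (by norm_num) (le_max_right _ _)))⟩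
      continuous_toFun := (FA_Pcont hs (hρ.max continuous_const) θ.continuous).subtype_mk _
      source' := by
        apply Subtype.ext
        change FA_P (γ 0).1.1 (max ‖(γ 0).1.2‖ (3 / 2)) (θ 0) = xb
        rw [hs0, hρ0, h0, max_self]
        exact FA_base
      target' := by
        apply Subtype.ext
        change FA_P (γ 1).1.1 (max ‖(γ 1).1.2‖ (3 / 2)) (θ 1) = xb
        rw [hs1, hρ1, h1, max_self]
        exact FA_baseZ n }
  have e1 : cls γ = cls γ' := by
    refine FA_hom hc γ γ' (fun p => (γ p.2).1.1)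
      (fun p => (1 - (p.1 : ℝ)) * ‖(γ p.2).1.2‖ + (p.1 : ℝ) * max ‖(γ p.2).1.2‖ (3 / 2))
      (fun p => θ p.2) (hs.comp continuous_snd) ?_ (θ.continuous.comp continuous_snd) ?_ ?_ ?_ ?_ ?_ ?_
    · have h := hρ.comp (continuous_snd (X := I) (Y := I))
      have h' : Continuous fun p : I × I => ‖(γ p.2).1.2‖ := h
      fun_prop
    · intro p
      have := p.1.2.1
      have := p.1.2.2
      have h4 := norm_nonneg (γ p.2).1.2
      have h5 : 0 ≤ max ‖(γ p.2).1.2‖ (3 / 2) := le_max_of_le_left h4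
      have : 0 ≤ 1 - (p.1 : ℝ) := by linarith
      positivity
    · intro p
      have h6 := p.1.2.1
      have h7 := p.1.2.2
      have h4 : ‖(γ p.2).1.2‖ ≤ max ‖(γ p.2).1.2‖ (3 / 2) := le_max_left _ _
      have h5 : ‖(γ p.2).1.2‖ ≤
          (1 - (p.1 : ℝ)) * ‖(γ p.2).1.2‖ + (p.1 : ℝ) * max ‖(γ p.2).1.2‖ (3 / 2) := by
        nlinarith
      rcases hfar p.2 with h | h
      · exact Or.inl (lt_of_lt_of_le h h5)
      · exact Or.inr ⟨h.1, lt_of_lt_of_le (norm_pos_iff.2 h.2) h5⟩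
    · intro u
      simp only [Icc.coe_zero, sub_zero, one_mul, zero_mul, add_zero]
      exact hγ u
    · intro u
      simp only [Icc.coe_one, sub_self, one_mul, zero_mul, zero_add]
      rfl
    · intro v
      simp only [hs0, hρ0, h0, max_self]
      rw [show (1 - (v : ℝ)) * (3 / 2) + (v : ℝ) * (3 / 2) = 3 / 2 by ring]
      exact FA_base
    · intro v
      simp only [hs1, hρ1, h1, max_self]
      rw [show (1 - (v : ℝ)) * (3 / 2) + (v : ℝ) * (3 / 2) = 3 / 2 by ring]
      exact FA_baseZ n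
  have e2 : cls γ' = cls (FA_pw hc n) := by
    refine FA_hom hc γ' _ (fun p => (1 - (p.1 : ℝ)) * (γ p.2).1.1 + (p.1 : ℝ) * (-2))
      (fun p => (1 - (p.1 : ℝ)) * max ‖(γ p.2).1.2‖ (3 / 2) + (p.1 : ℝ) * (3 / 2))
      (fun p => (1 - (p.1 : ℝ)) * θ p.2 + (p.1 : ℝ) * (n * (p.2 : ℝ))) ?_ ?_ ?_ ?_ ?_ ?_ ?_ ?_ ?_
    · have h := hs.comp (continuous_snd (X := I) (Y := I))
      have h' : Continuous fun p : I × I => (γ p.2).1.1 := h
      fun_prop
    · have h := hρ.comp (continuous_snd (X := I) (Y := I))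
      have h' : Continuous fun p : I × I => ‖(γ p.2).1.2‖ := h
      fun_prop
    · fun_prop
    · intro p
      have := p.1.2.1
      have := p.1.2.2
      have h5 : (0 : ℝ) ≤ max ‖(γ p.2).1.2‖ (3 / 2) := le_max_of_le_right (by norm_num)
      have : 0 ≤ 1 - (p.1 : ℝ) := by linarith
      positivity
    · intro p
      have h6 := p.1.2.1
      have h7 := p.1.2.2
      have h5 : (3 / 2 : ℝ) ≤ max ‖(γ p.2).1.2‖ (3 / 2) := le_max_right _ _
      left
      nlinarith
    · intro u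
      simp only [Icc.coe_zero, sub_zero, one_mul, zero_mul, add_zero]
      rfl
    · intro u
      simp only [Icc.coe_one, sub_self, one_mul, zero_mul, zero_add]
      rfl
    · intro v
      simp only [hs0, hρ0, h0, max_self, Icc.coe_zero, mul_zero, add_zero]
      rw [show (1 - (v : ℝ)) * (3 / 2) + (v : ℝ) * (3 / 2) = 3 / 2 by ring,
        show (1 - (v : ℝ)) * (-2) + (v : ℝ) * (-2) = -2 by ring]
      exact FA_base
    · intro v
      simp only [hs1, hρ1, h1, max_self, Icc.coe_one, mul_one]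
      rw [show (1 - (v : ℝ)) * (3 / 2) + (v : ℝ) * (3 / 2) = 3 / 2 by ring,
        show (1 - (v : ℝ)) * (-2) + (v : ℝ) * (-2) = -2 by ring,
        show (1 - (v : ℝ)) * (n : ℝ) + (v : ℝ) * n = n by ring]
      exact FA_baseZ n
  rw [e1, e2, FA_pow hc m hm]

end LQ
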