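import Pool.Agent.H64.LQ.GDefs
import Pool.Agent.H64.LQ.FA
import Pool.Agent.H64.LQ.E4

/-!
# G3: the orbit is a parallel of the knot

`TorM q c H Hi` and `F` with `Fat2 (cor c) F`. The orbit loop of `H xb`, `ω(t) = act q t (H xb)`, avoids the torus knot (the action preserves it) and `P = (1,1)`, so `Hi ∘ ω` is a loop at `xb` in the
complement of `c`. Claim: its class is `(cls mer)^{k1} * ℓ^e * (cls mer)^{k2}`, `e = ±1`, `ℓ = cls (ellM hF hc)`.
Far region `R = {x | 1 < ‖x.2‖ ∨ (1 < |x.1| ∧ x.2 ≠ 0)}` (path connected, disjoint from `c`), `R2 = {x | 4 < |x.1| ∨ 2 < ‖x.2‖}`, tube `T = Fh F '' {‖x.2‖ < 2}` (open, D0_open, contains `range c`).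
(0) `act q t` is an isometry for the euclidean norm of `ℂ × ℂ`, `act q t (1,1) = K(2πt)`.
(1) There is `δ' > 0` such that the points `y ∈ S`, `y ≠ P`, `‖y - P‖ < δ'` satisfy `Hi y ∈ R2` (the complement of `R2` is compact and its image misses `P`).
(2) `h : (0, 1) → ℝ` defined by `c (h φ) = Hi (K (2πφ))` (G1a_mem-type: `K(2πφ)` is on the torus knot and `≠ P`, so `Hi` of it is on `c`): a continuous bijection (`c : ℝ → range c` is a
homeomorphism: `Hi`, `H` continuous, `c` closed embedding (LK.K0)), hence strictly monotone. Choose `φ1 ∈ (0, 1/2)` with `‖K(2πφ) - P‖ < δ'/2` for `φ ∈ (0, φ1] ∪ [1 - φ1, 1)`. There `|h φ| > 4` (`c t` with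
`|t| ≤ 4` has `|(c t).1| ≤ 4`, `‖(c t).2‖ ≤ 1`, not in `R2`). By monotonicity and surjectivity `h` has opposite signs at `φ1` and `φ2 = 1 - φ1`.
(3) Let `ε3 > 0` be small: smaller than `δ'/2`; such that for `y` within `ε3` (euclidean) of the compact arc `K([2πφ1, 2πφ2])`, `y ∈ S`, `y ≠ P` and `Hi y ∈ T` (the arc is compact in the open set `H(T)` of
`S`); and such that for `y ∈ S` within `ε3` of `K(2πφ1)` the first coordinate of `Hi y` has the sign of `h φ1` and same for `φ2` (continuity of `Hi` at these points, `Hi (K(2πφ_i)) = (h φ_i, 0)`).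
Choose `y3 ∈ YS q` with `‖y3 - P‖ < ε3` (e.g. `Sl 1 η`, small `η`), `b3 = Hi y3 ∈ R2 ∖ range c ⊆ R`, `σ` a path in `R` from `xb` to `b3`.
(4) By the action square `(s, t) ↦ Hi (act q t (H (σ s)))`, `Hi ∘ ω ≃ σ · (Hi ∘ ω3) · σ⁻¹`, `ω3(t) = act q t y3`. For every `t`, `‖ω3(t) - K(2πt)‖ = ‖y3 - P‖ < ε3`. So for `t ∈ [0, φ1] ∪ [φ2, 1]`,
`Hi (ω3 t) ∈ R2 ∖ range c ⊆ R`, for `t ∈ [φ1, φ2]`, `Hi (ω3 t) ∈ T ∖ range c`; the points `e1 = Hi (ω3 φ1)`, `e2 = Hi (ω3 φ2)` are in `T ∩ R2`, hence of the form `(s_i, p_i)`, `|s_i| > 4`,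
`0 < ‖p_i‖ < 2` (D0_tube: `T ⊆ {‖x.2‖ ≤ 2}`; `Fh F` is the identity for `|x.1| ≥ 4`, D0_box), with `s_1, s_2` of opposite signs.
(5) Suppose `s_1 < -4 < 4 < s_2` (the other case gives the inverse: reverse the roles). The middle piece `Z_b` of `Hi ∘ ω3` is a path in `T ∖ range c = Fh F '' {0 < ‖p‖ < 2}`, i.e. `Z_b = Fh F ∘ Z'`,
`Z'` a path in `ℝ × (punctured disc)` from `(s_1, p_1)` to `(s_2, p_2)` (continuity of the inverse of `Fh F` on the tube: D0_closed). Choose a path `P1` from `e1` to `eL = (-4, 3/2)` in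
`{s ≤ -4, 0 < ‖p‖ < 2}` and a path `P2` from `eR = (4, 3/2)` to `e2` in `{s ≥ 4, 0 < ‖p‖ < 2}` with angle such that `P1 · lineP eL eR · P2` has the same total angle as `Z'`; then `Z'` is homotopic to it in
`ℝ × (punctured disc)` (straight-line homotopy in `(s, log ‖p‖, angle)`). Applying `Fh F`: `Z_b ≃ P1 · (Fh F ∘ lineP eL eR) · P2` in the complement of `c`.
(6) So `Hi ∘ ω ≃ [σ · Z_a · P1 · lineP eL xb] · [ellP] · [lineP xb eR · P2 · Z_c · σ⁻¹]`; the first and third brackets are loops at `xb` in `R` (the segments have second coordinate `3/2`),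
hence powers of the meridian by FA, FB. (`cls` reverses the order of products, which does not matter for the form of the statement.)
-/

open scoped ContDiff unitInterval
open Topology Set

namespace LQ

open LK

/-- The far region. -/
def G3_R : Set V := {x | 1 < ‖x.2‖ ∨ (1 < |x.1| ∧ x.2 ≠ 0)}

theorem G3_ne {x : V} (h : x ∈ G3_R) : x.2 ≠ 0 := by
  rcases h with h | h
  · intro e
    rw [e, norm_zero] at h
    linarith
  · exact h.2

/-- polar form -/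
theorem G3_pol (x : V) : ∃ θ : ℝ, x = FA_P x.1 ‖x.2‖ θ := by
  refine ⟨Complex.arg x.2 / (2 * Real.pi), ?_⟩
  refine Prod.ext rfl ?_
  show x.2 = (‖x.2‖ : ℂ) * Complex.exp (2 * Real.pi * ((Complex.arg x.2 / (2 * Real.pi) : ℝ) : ℂ) * Complex.I)
  have : (Real.pi : ℂ) ≠ 0 := by exact_mod_cast Real.pi_ne_zero
  have h2 : (2 * Real.pi * ((Complex.arg x.2 / (2 * Real.pi) : ℝ) : ℂ) * Complex.I) =
      Complex.arg x.2 * Complex.I := by
    push_cast
    field_simp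
  rw [h2, Complex.norm_mul_exp_arg_mul_I]

theorem G3_memP {s ρ θ : ℝ} (h0 : 0 ≤ ρ) (h : 1 < ρ ∨ (1 < |s| ∧ 0 < ρ)) : FA_P s ρ θ ∈ G3_R := by
  have hn := FA_norm s ρ θ h0
  rcases h with h | h
  · left
    rw [hn]
    exact h
  · right
    refine ⟨h.1, ?_⟩
    rw [← norm_pos_iff, hn]
    exact h.2

theorem G3_join (x : V) (hx : x ∈ G3_R) : JoinedIn G3_R xb x := by
  obtain ⟨θ, hθ⟩ := G3_pol x
  set ρ := ‖x.2‖ with hρ
  have hρ0 : 0 < ρ := norm_pos_iff.2 (G3_ne hx)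
  have hR : 1 < ρ ∨ (1 < |x.1| ∧ 0 < ρ) := by
    rcases hx with h | h
    · exact Or.inl h
    · exact Or.inr ⟨h.1, hρ0⟩
  have h1 : JoinedIn G3_R (FA_P x.1 (max ρ (3 / 2)) θ) x := by
    refine JoinedIn.ofLine (f := fun v => FA_P x.1 ((1 - v) * max ρ (3 / 2) + v * ρ) θ) ?_ ?_ ?_ ?_
    · exact (FA_Pcont continuous_const (by fun_prop) continuous_const).continuousOn
    · simp
    · show FA_P x.1 ((1 - 1) * max ρ (3 / 2) + 1 * ρ) θ = x
      rw [sub_self, zero_mul, one_mul, zero_add]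
      exact hθ.symm
    · rintro _ ⟨v, ⟨hv0, hv1⟩, rfl⟩
      have h5 : ρ ≤ (1 - v) * max ρ (3 / 2) + v * ρ := by
        have h4 := le_max_left ρ (3 / 2)
        nlinarith
      refine G3_memP (hρ0.le.trans h5) ?_
      rcases hR with h | h
      · exact Or.inl (lt_of_lt_of_le h h5)
      · exact Or.inr ⟨h.1, lt_of_lt_of_le h.2 h5⟩
  have h2 : JoinedIn G3_R xb (FA_P x.1 (max ρ (3 / 2)) θ) := by
    refine JoinedIn.ofLine (f := fun v => FA_P ((1 - v) * (-2) + v * x.1)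
      ((1 - v) * (3 / 2) + v * max ρ (3 / 2)) (v * θ)) ?_ ?_ ?_ ?_
    · exact (FA_Pcont (by fun_prop) (by fun_prop) (by fun_prop)).continuousOn
    · simp only [sub_zero, one_mul, zero_mul, add_zero]
      exact FA_base
    · simp
    · rintro _ ⟨v, ⟨hv0, hv1⟩, rfl⟩
      have h5 : (3 / 2 : ℝ) ≤ (1 - v) * (3 / 2) + v * max ρ (3 / 2) := by
        have h4 := le_max_right ρ (3 / 2)
        nlinarith
      refine G3_memP (by linarith) (Or.inl (by linarith))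
  exact h2.trans h1

/-- every loop of the far region is a power of the meridian -/
theorem G3_far {c : ℝ → V} (hc : VKnot c) (γ : Path (xM hc) (xM hc))
    (hfar : ∀ u, (γ u).1 ∈ G3_R) (m : Path (xM hc) (xM hc)) (hm : IsMer hc m) :
    ∃ n : ℤ, cls γ = cls m ^ n := by
  have hcont : Continuous fun u : I => (γ u).1.2 :=
    continuous_snd.comp (continuous_subtype_val.comp γ.continuous)
  have hx2 : (xM hc).1.2 = ((3 / 2 : ℝ) : ℂ) := by
    show (3 / 2 : ℂ) = _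
    push_cast
    ring
  have h0 : (γ 0).1.2 = ((3 / 2 : ℝ) : ℂ) := by rw [γ.source, hx2]
  have h1 : (γ 1).1.2 = ((3 / 2 : ℝ) : ℂ) := by rw [γ.target, hx2]
  obtain ⟨θ, hθ0, hθ⟩ := FB (fun u => (γ u).1.2) hcont (fun u => G3_ne (hfar u))
    ⟨3 / 2, by norm_num, h0⟩
  have h2 := hθ 1
  simp only [h1] at h2
  have h3 : ‖((3 / 2 : ℝ) : ℂ)‖ = 3 / 2 := by
    rw [Complex.norm_real]
    norm_num
  rw [h3] at h2
  have h4 : Complex.exp (2 * Real.pi * (θ 1) * Complex.I) = 1 := by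
    have h5 : ((3 / 2 : ℝ) : ℂ) ≠ 0 := by
      rw [Ne, Complex.ofReal_eq_zero]
      norm_num
    exact mul_left_cancel₀ h5 (by rw [← h2, mul_one])
  rw [Complex.exp_eq_one_iff] at h4
  obtain ⟨n, hn⟩ := h4
  have h6 : θ 1 = n := by
    have hpi : (2 * Real.pi * Complex.I : ℂ) ≠ 0 := Complex.two_pi_I_ne_zero
    have h7 : ((θ 1 : ℝ) : ℂ) = n := by
      apply mul_right_cancel₀ hpi
      rw [← hn]
      ring
    exact_mod_cast h7
  exact ⟨n, FA hc γ hfar θ hθ hθ0 n h6 m hm⟩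

/-! ### the middle part -/

theorem G3_avoid {c : ℝ → V} (hc : VKnot c) {x : V} (h : x ∈ G3_R) : x ∉ range c := by
  obtain ⟨θ, hθ⟩ := G3_pol x
  rw [hθ]
  refine FA_avoid hc (norm_nonneg _) ?_
  rcases h with h | h
  · exact Or.inl h
  · exact Or.inr ⟨h.1, norm_pos_iff.2 h.2⟩

theorem G3_tubeav {c : ℝ → V} {F : V → V} (hF : Fat2 (cor c) F) {x : V} (h : ‖x.2‖ < 2)
    (h0 : x.2 ≠ 0) : Fh F x ∉ range c := by
  rintro ⟨t, ht⟩
  rw [← D0_core hF t] at ht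
  have h4 : ((t, 0) : V) ∈ {x : V | ‖x.2‖ ≤ 2} := by
    show ‖(0 : ℂ)‖ ≤ 2
    rw [norm_zero]
    norm_num
  have h5 := D0_inj hF h4 h.le ht
  exact h0 (congrArg Prod.snd h5).symm

theorem G3_eLR : eL ∈ G3_R ∧ eR ∈ G3_R := by
  constructor
  · left
    show 1 < ‖(3 / 2 : ℂ)‖
    rw [E4_32]
    norm_num
  · left
    show 1 < ‖(3 / 2 : ℂ)‖
    rw [E4_32]
    norm_num

noncomputable def G3_mL {c : ℝ → V} (hc : VKnot c) : MV c := ⟨eL, G3_avoid hc G3_eLR.1⟩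

noncomputable def G3_mR {c : ℝ → V} (hc : VKnot c) : MV c := ⟨eR, G3_avoid hc G3_eLR.2⟩

theorem G3_line {x y : V} (ex : x.2 = (3 / 2 : ℂ)) (ey : y.2 = (3 / 2 : ℂ)) (v : I) :
    (lineP x y v).2 = (3 / 2 : ℂ) := by
  show ((1 - (v : ℝ)) • x + (v : ℝ) • y).2 = 3 / 2
  rw [Prod.snd_add, Prod.smul_snd, Prod.smul_snd, ex, ey, ← add_smul]
  simp

theorem G3_lineR {x y : V} (ex : x.2 = (3 / 2 : ℂ)) (ey : y.2 = (3 / 2 : ℂ)) (v : I) :
    lineP x y v ∈ G3_R := by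
  left
  rw [G3_line ex ey v, E4_32]
  norm_num

/-- the parallel line in the tube -/
noncomputable def G3_LM {c : ℝ → V} {F : V → V} (hF : Fat2 (cor c) F) (hc : VKnot c) :
    Path (G3_mL hc) (G3_mR hc) where
  toFun v := ⟨Fh F (lineP eL eR v), G3_tubeav hF
    (by rw [G3_line rfl rfl v, E4_32]; norm_num) (by rw [G3_line rfl rfl v]; norm_num)⟩
  continuous_toFun := ((continuous_Fh hF.toFat).comp (lineP eL eR).continuous).subtype_mk _
  source' := by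
    apply Subtype.ext
    show Fh F (lineP eL eR 0) = eL
    rw [(lineP eL eR).source]
    exact Fh_eL hF.toFat
  target' := by
    apply Subtype.ext
    show Fh F (lineP eL eR 1) = eR
    rw [(lineP eL eR).target]
    exact Fh_eR hF.toFat

/-- straight segments at height `3/2` in the complement -/
noncomputable def G3_seg {c : ℝ → V} (hc : VKnot c) (x y : V) (ex : x.2 = (3 / 2 : ℂ))
    (ey : y.2 = (3 / 2 : ℂ)) (hx : x ∉ range c) (hy : y ∉ range c) :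
    Path (⟨x, hx⟩ : MV c) ⟨y, hy⟩ where
  toFun v := ⟨lineP x y v, G3_avoid hc (G3_lineR ex ey v)⟩
  continuous_toFun := (lineP x y).continuous.subtype_mk _
  source' := Subtype.ext (lineP x y).source
  target' := Subtype.ext (lineP x y).target

theorem G3_vtr {c : ℝ → V} {x y z : MV c} {x' y' z' : V} (p : Path x y) (q : Path y z)
    (P : Path x' y') (Q : Path y' z') (hp : ∀ u, (p u).1 = P u) (hq : ∀ u, (q u).1 = Q u) (u : I) :
    ((p.trans q) u).1 = (P.trans Q) u := by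
  rw [Path.trans_apply, Path.trans_apply]
  split_ifs
  · exact hp _
  · exact hq _

theorem G3_ell {c : ℝ → V} {F : V → V} (hF : Fat2 (cor c) F) (hc : VKnot c) :
    ∃ (a : Path (xM hc) (G3_mL hc)) (b : Path (G3_mR hc) (xM hc)),
      (∀ u, (a u).1 ∈ G3_R) ∧ (∀ u, (b u).1 ∈ G3_R) ∧
      ellM hF hc = a.trans ((G3_LM hF hc).trans b) := by
  refine ⟨G3_seg hc xb eL rfl rfl (xb_notMem hc) (G3_avoid hc G3_eLR.1),
    G3_seg hc eR xb rfl rfl (G3_avoid hc G3_eLR.2) (xb_notMem hc),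
    fun u => G3_lineR rfl rfl u, fun u => G3_lineR rfl rfl u, ?_⟩
  apply Path.ext
  funext u
  apply Subtype.ext
  exact (G3_vtr _ _ _ _ (fun _ => rfl) (G3_vtr _ _ _ _ (fun _ => rfl) (fun _ => rfl)) u).symm

/-! ### coordinates of the tube -/

noncomputable def G3_rho (v : ℝ) : ℝ := 2 * (Real.exp v / (1 + Real.exp v))

theorem G3_rho_pos (v : ℝ) : 0 < G3_rho v ∧ G3_rho v < 2 := by
  unfold G3_rho
  have h := Real.exp_pos v
  have h1 : Real.exp v / (1 + Real.exp v) < 1 := by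
    rw [div_lt_one (by positivity)]
    linarith
  constructor
  · positivity
  · linarith

theorem G3_rho_cont : Continuous G3_rho := by
  unfold G3_rho
  refine continuous_const.mul (Real.continuous_exp.div (continuous_const.add Real.continuous_exp) ?_)
  intro v
  have h := Real.exp_pos v
  positivity

theorem G3_rho_inv {r : ℝ} (h0 : 0 < r) (h2 : r < 2) : G3_rho (Real.log (r / (2 - r))) = r := by
  unfold G3_rho
  have h3 : 0 < 2 - r := by linarith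
  rw [Real.exp_log (by positivity)]
  field_simp
  ring

theorem G3_Pne {s ρ θ : ℝ} (h : 0 < ρ) : (FA_P s ρ θ).2 ≠ 0 := by
  rw [← norm_pos_iff, FA_norm s ρ θ h.le]
  exact h

noncomputable def G3_J {c : ℝ → V} {F : V → V} (hF : Fat2 (cor c) F) : C(ℝ × ℝ × ℝ, MV c) :=
  ⟨fun p => ⟨Fh F (FA_P p.1 (G3_rho p.2.1) p.2.2), G3_tubeav hF
    (by rw [FA_norm _ _ _ (G3_rho_pos _).1.le]; exact (G3_rho_pos _).2) (G3_Pne (G3_rho_pos _).1)⟩,
    ((continuous_Fh hF.toFat).comp (FA_Pcont continuous_fst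
      (G3_rho_cont.comp (continuous_fst.comp continuous_snd))
      (continuous_snd.comp continuous_snd))).subtype_mk _⟩

/-- segments -/
noncomputable def G3_sg {W : Type*} [AddCommGroup W] [Module ℝ W] [TopologicalSpace W]
    [ContinuousAdd W] [ContinuousSMul ℝ W] (x y : W) : Path x y where
  toFun t := (1 - (t : ℝ)) • x + (t : ℝ) • y
  continuous_toFun := by fun_prop
  source' := by simp
  target' := by simp

theorem G3_mtr {X Y : Type*} [TopologicalSpace X] [TopologicalSpace Y] {f : X → Y}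
    {x y z : X} {x' y' z' : Y} (p : Path x y) (q : Path y z)
    (P : Path x' y') (Q : Path y' z') (hp : ∀ u, f (p u) = P u) (hq : ∀ u, f (q u) = Q u) (u : I) :
    f ((p.trans q) u) = (P.trans Q) u := by
  rw [Path.trans_apply, Path.trans_apply]
  split_ifs
  · exact hp _
  · exact hq _

theorem G3_P0 (s : ℝ) : FA_P s (3 / 2) 0 = (s, (3 / 2 : ℂ)) := by
  unfold FA_P
  simp

theorem G3_id {c : ℝ → V} {F : V → V} (hF : Fat2 (cor c) F) {y : V} (h : ‖y.2‖ < 2)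
    (h4 : 4 < |(Fh F y).1|) : Fh F y = y ∧ 4 < |y.1| := by
  have h5 : 4 < |y.1| := by
    by_contra hcon
    push Not at hcon
    have := (D0_box hF y h.le hcon).1
    linarith
  exact ⟨D0_std hF y h5.le, h5⟩

theorem G3_mid {c : ℝ → V} {F : V → V} (hF : Fat2 (cor c) F) (hc : VKnot c) {e1 e2 : MV c}
    (B : Path e1 e2) (hB : ∀ u, (B u).1 ∈ Fh F '' {x | ‖x.2‖ < 2}) (h1 : e1.1.1 < -4)
    (h2 : 4 < e2.1.1) :
    ∃ (P1 : Path e1 (G3_mL hc)) (P2 : Path (G3_mR hc) e2), (∀ u, (P1 u).1 ∈ G3_R) ∧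
      (∀ u, (P2 u).1 ∈ G3_R) ∧ B.Homotopic (P1.trans ((G3_LM hF hc).trans P2)) := by
  choose Z hZ2 hZ using hB
  have hZ2' : ∀ u, ‖(Z u).2‖ < 2 := hZ2
  have hBc : Continuous fun u : I => (B u).1 := continuous_subtype_val.comp B.continuous
  have hZc : Continuous Z := by
    have h3 : Continuous (fun u : I => (⟨Z u, (hZ2' u).le⟩ : {x : V // ‖x.2‖ ≤ 2})) := by
      rw [(D0_closed hF).isInducing.continuous_iff]
      have h4 : ((fun x : {x : V // ‖x.2‖ ≤ 2} => Fh F x.1) ∘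
          (fun u : I => (⟨Z u, (hZ2' u).le⟩ : {x : V // ‖x.2‖ ≤ 2}))) = fun u : I => (B u).1 := by
        funext u
        exact hZ u
      rw [h4]
      exact hBc
    exact continuous_subtype_val.comp h3
  have hZ0 : ∀ u, (Z u).2 ≠ 0 := by
    intro u hu
    apply (B u).2
    rw [← hZ u]
    refine ⟨(Z u).1, ?_⟩
    rw [← D0_core hF]
    congr 1
    exact Prod.ext rfl hu.symm
  have hz2c : Continuous fun u : I => (Z u).2 := continuous_snd.comp hZc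
  -- the angle
  obtain ⟨θ', -, hθ'⟩ := FB (fun u => (Z u).2 / (Z 0).2) (hz2c.div_const _)
    (fun u => div_ne_zero (hZ0 u) (hZ0 0)) ⟨1, one_pos, by
      show (Z 0).2 / (Z 0).2 = ((1 : ℝ) : ℂ)
      rw [div_self (hZ0 0), Complex.ofReal_one]⟩
  obtain ⟨θ0, hθ0⟩ := G3_pol (Z 0)
  let θ : C(I, ℝ) := ⟨fun u => θ' u + θ0, by fun_prop⟩
  have hθ : ∀ u, Z u = FA_P (Z u).1 ‖(Z u).2‖ (θ u) := by
    intro u
    refine Prod.ext rfl ?_
    have h3 := hθ' u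
    have h4 : (Z 0).2 = (‖(Z 0).2‖ : ℂ) * Complex.exp (2 * Real.pi * θ0 * Complex.I) :=
      congrArg Prod.snd hθ0
    have h5 : ((‖(Z 0).2‖ : ℝ) : ℂ) ≠ 0 := by
      rw [Ne, Complex.ofReal_eq_zero, norm_eq_zero]
      exact hZ0 0
    show (Z u).2 = (‖(Z u).2‖ : ℂ) * Complex.exp (2 * Real.pi * ((θ' u + θ0 : ℝ) : ℂ) * Complex.I)
    have h6 : (2 * Real.pi * ((θ' u + θ0 : ℝ) : ℂ) * Complex.I) =
        2 * Real.pi * (θ' u) * Complex.I + 2 * Real.pi * θ0 * Complex.I := by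
      push_cast
      ring
    rw [h6, Complex.exp_add]
    have h7 : (Z u).2 = ((Z u).2 / (Z 0).2) * (Z 0).2 := (div_mul_cancel₀ _ (hZ0 0)).symm
    rw [norm_div, Complex.ofReal_div] at h3
    have h8 : (Z u).2 = (‖(Z u).2‖ : ℂ) / (‖(Z 0).2‖ : ℂ) *
        Complex.exp (2 * Real.pi * (θ' u) * Complex.I) *
        ((‖(Z 0).2‖ : ℂ) * Complex.exp (2 * Real.pi * θ0 * Complex.I)) := by
      rw [← h4]
      rw [← h3]
      exact h7
    rw [h8]
    have h9 : (‖(‖(Z u).2‖ : ℂ) / (‖(Z 0).2‖ : ℂ) *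
        Complex.exp (2 * Real.pi * (θ' u) * Complex.I) *
        ((‖(Z 0).2‖ : ℂ) * Complex.exp (2 * Real.pi * θ0 * Complex.I))‖ : ℝ) = ‖(Z u).2‖ := by
      rw [← h8]
    rw [h9]
    field_simp
  have hρ : ∀ u, 0 < ‖(Z u).2‖ := fun u => norm_pos_iff.2 (hZ0 u)
  have hvc : Continuous fun u : I => Real.log (‖(Z u).2‖ / (2 - ‖(Z u).2‖)) := by
    refine Continuous.log (hz2c.norm.div (continuous_const.sub hz2c.norm) ?_) ?_
    · intro u
      have := hZ2' u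
      intro h
      linarith
    · intro u
      have h3 := hZ2' u
      have h4 := hρ u
      have h5 : 0 < 2 - ‖(Z u).2‖ := by linarith
      positivity
  let v : I → ℝ := fun u => Real.log (‖(Z u).2‖ / (2 - ‖(Z u).2‖))
  have hv : ∀ u, G3_rho (v u) = ‖(Z u).2‖ := fun u => G3_rho_inv (hρ u) (hZ2' u)
  have hJ : ∀ u, G3_J hF ((Z u).1, v u, θ u) = B u := by
    intro u
    apply Subtype.ext
    show Fh F (FA_P (Z u).1 (G3_rho (v u)) (θ u)) = _
    rw [hv, ← hθ, hZ]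
  let Bt : Path (((Z 0).1, v 0, θ 0) : ℝ × ℝ × ℝ) ((Z 1).1, v 1, θ 1) :=
    { toFun := fun u => ((Z u).1, v u, θ u)
      continuous_toFun := (continuous_fst.comp hZc).prodMk (hvc.prodMk θ.continuous)
      source' := rfl
      target' := rfl }
  -- end points
  have e1' : (Fh F (Z 0)) = e1.1 := by rw [hZ, B.source]
  have e2' : (Fh F (Z 1)) = e2.1 := by rw [hZ, B.target]
  obtain ⟨i1, j1⟩ := G3_id hF (hZ2' 0) (by rw [e1', abs_of_neg (by linarith)]; linarith)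
  obtain ⟨i2, j2⟩ := G3_id hF (hZ2' 1) (by rw [e2', abs_of_pos (by linarith)]; linarith)
  have k1 : (Z 0).1 < -4 := by rw [← i1, e1']; exact h1
  have k2 : 4 < (Z 1).1 := by rw [← i2, e2']; exact h2
  let vs : ℝ := Real.log ((3 / 2) / (2 - 3 / 2))
  have hvs : G3_rho vs = 3 / 2 := G3_rho_inv (by norm_num) (by norm_num)
  have hJL : G3_mL hc = G3_J hF ((-4 : ℝ), vs, (0 : ℝ)) := by
    apply Subtype.ext
    show eL = Fh F (FA_P (-4) (G3_rho vs) 0)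
    rw [hvs, G3_P0]
    exact (Fh_eL hF.toFat).symm
  have hJR : G3_mR hc = G3_J hF ((4 : ℝ), vs, (0 : ℝ)) := by
    apply Subtype.ext
    show eR = Fh F (FA_P 4 (G3_rho vs) 0)
    rw [hvs, G3_P0]
    exact (Fh_eR hF.toFat).symm
  have hJ0 : e1 = G3_J hF ((Z 0).1, v 0, θ 0) := by rw [hJ, B.source]
  have hJ1 : e2 = G3_J hF ((Z 1).1, v 1, θ 1) := by rw [hJ, B.target]
  let S1 : Path (((Z 0).1, v 0, θ 0) : ℝ × ℝ × ℝ) (-4, vs, 0) := G3_sg _ _
  let SL : Path ((-4, vs, 0) : ℝ × ℝ × ℝ) (4, vs, 0) := G3_sg _ _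
  let S2 : Path ((4, vs, 0) : ℝ × ℝ × ℝ) ((Z 1).1, v 1, θ 1) := G3_sg _ _
  let P1 : Path e1 (G3_mL hc) := (S1.map (G3_J hF).continuous).cast hJ0 hJL
  let P2 : Path (G3_mR hc) e2 := (S2.map (G3_J hF).continuous).cast hJR hJ1
  have hst : ∀ p : ℝ × ℝ × ℝ, 4 ≤ |p.1| → (G3_J hF p).1 ∈ G3_R := by
    intro p hp
    show Fh F (FA_P p.1 (G3_rho p.2.1) p.2.2) ∈ G3_R
    rw [D0_std hF _ hp]
    exact G3_memP (G3_rho_pos _).1.le (Or.inr ⟨by linarith, (G3_rho_pos _).1⟩)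
  refine ⟨P1, P2, ?_, ?_, ?_⟩
  · intro u
    refine hst (S1 u) ?_
    have hu0 := u.2.1
    have hu1 := u.2.2
    have h3 : (S1 u).1 = (1 - (u : ℝ)) * (Z 0).1 + (u : ℝ) * (-4) := rfl
    rw [h3, le_abs]
    right
    nlinarith
  · intro u
    refine hst (S2 u) ?_
    have hu0 := u.2.1
    have hu1 := u.2.2
    have h3 : (S2 u).1 = (1 - (u : ℝ)) * 4 + (u : ℝ) * (Z 1).1 := rfl
    rw [h3, le_abs]
    left
    nlinarith
  · have hh : Bt.Homotopic (S1.trans (SL.trans S2)) := SimplyConnectedSpace.paths_homotopic _ _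
    have hh2 := (hh.map (G3_J hF)).pathCast hJ0 hJ1
    have g1 : (Bt.map (G3_J hF).continuous).cast hJ0 hJ1 = B := by
      apply Path.ext
      funext u
      exact hJ u
    have g2 : ((S1.trans (SL.trans S2)).map (G3_J hF).continuous).cast hJ0 hJ1 =
        P1.trans ((G3_LM hF hc).trans P2) := by
      apply Path.ext
      funext u
      refine G3_mtr (f := G3_J hF) _ _ _ _ (fun _ => rfl) (G3_mtr _ _ _ _ ?_ (fun _ => rfl)) u
      intro w
      apply Subtype.ext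
      show Fh F (FA_P ((1 - (w : ℝ)) * (-4) + (w : ℝ) * 4)
        (G3_rho ((1 - (w : ℝ)) * vs + (w : ℝ) * vs)) ((1 - (w : ℝ)) * 0 + (w : ℝ) * 0)) =
        Fh F (lineP eL eR w)
      have q1 : (1 - (w : ℝ)) * vs + (w : ℝ) * vs = vs := by ring
      have q2 : (1 - (w : ℝ)) * 0 + (w : ℝ) * 0 = 0 := by ring
      rw [q1, q2, hvs, G3_P0]
      congr 1
      refine Prod.ext ?_ (G3_line rfl rfl w).symm
      rfl
    rw [g1, g2] at hh2
    exact hh2

theorem G3_can {X : Type*} [TopologicalSpace X] {x y z : X} (a : Path.Homotopic.Quotient x y)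
    (w : Path.Homotopic.Quotient y z) : (a.symm).trans (a.trans w) = w := by
  rw [← Path.Homotopic.Quotient.trans_assoc, Path.Homotopic.Quotient.symm_trans,
    Path.Homotopic.Quotient.refl_trans]

theorem G3_can' {X : Type*} [TopologicalSpace X] {x y z : X} (a : Path.Homotopic.Quotient y x)
    (w : Path.Homotopic.Quotient y z) : a.trans (a.symm.trans w) = w := by
  rw [← Path.Homotopic.Quotient.trans_assoc, Path.Homotopic.Quotient.trans_symm,
    Path.Homotopic.Quotient.refl_trans]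

theorem G3_alg {X : Type*} [TopologicalSpace X] {x e1 e2 L R : X} (A : Path x e1)
    (B : Path e1 e2) (C : Path e2 x) (P1 : Path e1 L) (M : Path L R) (P2 : Path R e2)
    (a : Path x L) (b : Path R x) (hBP : B.Homotopic (P1.trans (M.trans P2))) :
    cls (A.trans (B.trans C)) = cls (b.symm.trans (P2.trans C)) * cls (a.trans (M.trans b)) *
      cls (A.trans (P1.trans a.symm)) := by
  rw [← E4_cls_trans, ← E4_cls_trans]
  refine congrArg FundamentalGroup.fromPath ?_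
  simp only [Path.Homotopic.Quotient.mk_trans, Path.Homotopic.Quotient.mk_symm]
  rw [Path.Homotopic.Quotient.eq.2 hBP]
  simp only [Path.Homotopic.Quotient.mk_trans, Path.Homotopic.Quotient.trans_assoc, G3_can,
    G3_can']

theorem G3_tr3 {X : Type*} [TopologicalSpace X] {x y z w : X} (p : Path x y) (q : Path y z)
    (r : Path z w) {P : X → Prop} (hp : ∀ u, P (p u)) (hq : ∀ u, P (q u)) (hr : ∀ u, P (r u))
    (u : I) : P ((p.trans (q.trans r)) u) :=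
  E4_tr p (q.trans r) hp (E4_tr q r hq hr) u

theorem G3_comb {c : ℝ → V} {F : V → V} (hF : Fat2 (cor c) F) (hc : VKnot c)
    (mer : Path (xM hc) (xM hc)) (hm : IsMer hc mer) {e1 e2 : MV c} (A : Path (xM hc) e1)
    (B : Path e1 e2) (C : Path e2 (xM hc)) (hA : ∀ u, (A u).1 ∈ G3_R) (hC : ∀ u, (C u).1 ∈ G3_R)
    (hB : ∀ u, (B u).1 ∈ Fh F '' {x | ‖x.2‖ < 2}) (h1 : e1.1.1 < -4) (h2 : 4 < e2.1.1) :
    ∃ k1 k2 : ℤ, cls (A.trans (B.trans C)) =
      cls mer ^ k1 * cls (ellM hF hc) * cls mer ^ k2 := by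
  obtain ⟨P1, P2, hP1, hP2, hBP⟩ := G3_mid hF hc B hB h1 h2
  obtain ⟨a, b, ha, hb, hab⟩ := G3_ell hF hc
  have q1 : ∀ u, ((A.trans (P1.trans a.symm)) u).1 ∈ G3_R :=
    G3_tr3 (P := fun x : MV c => x.1 ∈ G3_R) A P1 a.symm hA hP1 (fun z => ha _)
  have q2 : ∀ u, ((b.symm.trans (P2.trans C)) u).1 ∈ G3_R :=
    G3_tr3 (P := fun x : MV c => x.1 ∈ G3_R) b.symm P2 C (fun z => hb _) hP2 hC
  obtain ⟨n1, hn1⟩ := G3_far hc _ q1 mer hm
  obtain ⟨n2, hn2⟩ := G3_far hc _ q2 mer hm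
  have h3 := G3_alg A B C P1 (G3_LM hF hc) P2 a b hBP
  rw [hn1, hn2, ← hab] at h3
  exact ⟨n2, n1, h3⟩

theorem G3_comb' {c : ℝ → V} {F : V → V} (hF : Fat2 (cor c) F) (hc : VKnot c)
    (mer : Path (xM hc) (xM hc)) (hm : IsMer hc mer) {e1 e2 : MV c} (A : Path (xM hc) e1)
    (B : Path e1 e2) (C : Path e2 (xM hc)) (hA : ∀ u, (A u).1 ∈ G3_R) (hC : ∀ u, (C u).1 ∈ G3_R)
    (hB : ∀ u, (B u).1 ∈ Fh F '' {x | ‖x.2‖ < 2}) (h1 : 4 < e1.1.1) (h2 : e2.1.1 < -4) :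
    ∃ k1 k2 : ℤ, cls (A.trans (B.trans C)) =
      cls mer ^ k1 * (cls (ellM hF hc))⁻¹ * cls mer ^ k2 := by
  obtain ⟨k1, k2, h⟩ := G3_comb hF hc mer hm C.symm B.symm A.symm (fun u => hC _) (fun u => hA _)
    (fun u => hB _) h2 h1
  refine ⟨-k2, -k1, ?_⟩
  have hcl : cls (C.symm.trans (B.symm.trans A.symm)) = (cls (A.trans (B.trans C)))⁻¹ := by
    rw [← E4_cls_symm, Path.trans_symm, Path.trans_symm]
    refine congrArg FundamentalGroup.fromPath ?_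
    simp only [Path.Homotopic.Quotient.mk_trans, Path.Homotopic.Quotient.trans_assoc]
  rw [hcl] at h
  rw [← inv_inj, h]
  group

/-! ### the action and the knot -/

theorem G3_e2 (t : ℝ) : ‖Complex.exp (2 * (2 * Real.pi * t) * Complex.I)‖ = 1 := by
  rw [show (2 * (2 * Real.pi * t) * Complex.I : ℂ) = ((2 * (2 * Real.pi * t) : ℝ) : ℂ) * Complex.I by
    push_cast; ring]
  exact Complex.norm_exp_ofReal_mul_I _

theorem G3_eq (q : ℕ) (t : ℝ) : ‖Complex.exp (q * (2 * Real.pi * t) * Complex.I)‖ = 1 := by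
  rw [show (q * (2 * Real.pi * t) * Complex.I : ℂ) = ((q * (2 * Real.pi * t) : ℝ) : ℂ) * Complex.I by
    push_cast; ring]
  exact Complex.norm_exp_ofReal_mul_I _

theorem G3_actS (q : ℕ) (t : ℝ) {y : ℂ × ℂ} (h : OnS y) : OnS (act q t y) := by
  unfold OnS act at *
  simp only [norm_mul, G3_e2, G3_eq, one_mul]
  exact h

theorem G3_expq (q : ℕ) (t : ℝ) : Complex.exp (2 * (2 * Real.pi * t) * Complex.I) ^ q =
    Complex.exp (q * (2 * Real.pi * t) * Complex.I) ^ 2 := by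
  rw [← Complex.exp_nat_mul, ← Complex.exp_nat_mul]
  congr 1
  push_cast
  ring

theorem G3_actk (q : ℕ) (t : ℝ) {y : ℂ × ℂ} (h : y.1 ^ q ≠ y.2 ^ 2) :
    (act q t y).1 ^ q ≠ (act q t y).2 ^ 2 := by
  unfold act
  simp only [mul_pow]
  rw [G3_expq]
  intro h2
  apply h
  exact mul_left_cancel₀ (pow_ne_zero _ (Complex.exp_ne_zero _)) h2

theorem G3_actd (q : ℕ) (t : ℝ) (y z : ℂ × ℂ) : ‖act q t y - act q t z‖ = ‖y - z‖ := by
  unfold act
  rw [Prod.norm_def, Prod.norm_def]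
  simp only [Prod.fst_sub, Prod.snd_sub, ← mul_sub, norm_mul, G3_e2, G3_eq, one_mul]

theorem G3_actP (q : ℕ) (t : ℝ) : act q t (1, 1) = KK q (2 * Real.pi * t) := by
  unfold act KK
  simp only [mul_one]
  push_cast
  rfl

theorem G3_act0 (q : ℕ) (y : ℂ × ℂ) : act q 0 y = y := by
  unfold act
  simp

theorem G3_act1 (q : ℕ) (y : ℂ × ℂ) : act q 1 y = y := by
  unfold act
  have h1 : Complex.exp (2 * (2 * Real.pi * (1 : ℝ)) * Complex.I) = 1 := by
    rw [Complex.exp_eq_one_iff]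
    exact ⟨2, by push_cast; ring⟩
  have h2 : Complex.exp (q * (2 * Real.pi * (1 : ℝ)) * Complex.I) = 1 := by
    rw [Complex.exp_eq_one_iff]
    exact ⟨q, by push_cast; ring⟩
  rw [h1, h2, one_mul, one_mul]

theorem G3_actc (q : ℕ) : Continuous fun p : ℝ × (ℂ × ℂ) => act q p.1 p.2 := by
  unfold act
  fun_prop

theorem G3_KS (q : ℕ) (t : ℝ) : OnS (KK q (2 * Real.pi * t)) := by
  rw [← G3_actP]
  apply G3_actS
  unfold OnS
  norm_num

theorem G3_Kk (q : ℕ) (t : ℝ) : (KK q (2 * Real.pi * t)).1 ^ q = (KK q (2 * Real.pi * t)).2 ^ 2 := by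
  rw [← G3_actP]
  unfold act
  simp only [mul_one]
  exact G3_expq q t

theorem G3_Kc (q : ℕ) : Continuous fun t : ℝ => KK q (2 * Real.pi * t) := by
  unfold KK
  fun_prop

theorem G3_Kinj {q : ℕ} (hq : Odd q) {a b : ℝ} (h : KK q (2 * Real.pi * a) = KK q (2 * Real.pi * b)) :
    ∃ n : ℤ, a = b + n := by
  unfold KK at h
  have h1 := congrArg Prod.fst h
  have h2 := congrArg Prod.snd h
  simp only at h1 h2
  rw [Complex.exp_eq_exp_iff_exists_int] at h1 h2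
  obtain ⟨n, hn⟩ := h1
  obtain ⟨m, hm⟩ := h2
  have hpi : (2 * Real.pi * Complex.I : ℂ) ≠ 0 := Complex.two_pi_I_ne_zero
  have h3 : ((2 * a : ℝ) : ℂ) = ((2 * b + n : ℝ) : ℂ) := by
    apply mul_right_cancel₀ hpi
    push_cast at hn ⊢
    linear_combination hn
  have h4 : ((q * a : ℝ) : ℂ) = ((q * b + m : ℝ) : ℂ) := by
    apply mul_right_cancel₀ hpi
    push_cast at hm ⊢
    linear_combination hm
  have h5 : 2 * a = 2 * b + n := by exact_mod_cast h3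
  have h6 : q * a = q * b + m := by exact_mod_cast h4
  have h7 : (q : ℝ) * n = 2 * m := by
    linear_combination (2 : ℝ) * h6 - (q : ℝ) * h5
  have h8 : (q : ℤ) * n = 2 * m := by exact_mod_cast h7
  have h9 : Even ((q : ℤ) * n) := ⟨m, by rw [h8]; ring⟩
  rw [Int.even_mul] at h9
  have h10 : Even n := by
    rcases h9 with h9 | h9
    · exfalso
      have h11 : Even q := by exact_mod_cast h9
      exact (Nat.not_even_iff_odd.2 hq) h11
    · exact h9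
  obtain ⟨k, hk⟩ := h10
  refine ⟨k, ?_⟩
  rw [hk] at h5
  push_cast at h5
  linarith

theorem G3_K0 (q : ℕ) : KK q (2 * Real.pi * 0) = (1, 1) := by
  unfold KK
  simp

theorem G3_K1 (q : ℕ) : KK q (2 * Real.pi * 1) = (1, 1) := by
  rw [← G3_actP, G3_act1]

theorem G3_Kne {q : ℕ} (hq : Odd q) {a : ℝ} (h0 : 0 < a) (h1 : a < 1) :
    KK q (2 * Real.pi * a) ≠ (1, 1) := by
  rw [← G3_K0 q]
  intro h
  obtain ⟨n, hn⟩ := G3_Kinj hq h
  rw [zero_add] at hn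
  rw [hn] at h0 h1
  have h2 : (0 : ℤ) < n := by exact_mod_cast h0
  have h3 : n < (1 : ℤ) := by exact_mod_cast h1
  omega

/-! ### the map `Hi` -/

theorem G3_dist {q : ℕ} {c : ℝ → V} {H : V → ℂ × ℂ} {Hi : ℂ × ℂ → V} (h : TorM q c H Hi)
    (R : ℝ) : ∃ δ : ℝ, 0 < δ ∧ ∀ y, OnS y → y ≠ (1, 1) → ‖y - (1, 1)‖ < δ → R < ‖Hi y‖ := by
  have hK : IsCompact (H '' Metric.closedBall (0 : V) R) :=
    (isCompact_closedBall 0 R).image h.contH
  have hP : ((1, 1) : ℂ × ℂ) ∈ (H '' Metric.closedBall (0 : V) R)ᶜ := by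
    rintro ⟨x, -, hx⟩
    exact (h.mem x).2 hx
  obtain ⟨δ, hδ, hb⟩ := Metric.isOpen_iff.1 hK.isClosed.isOpen_compl _ hP
  refine ⟨δ, hδ, fun y hy hne hd => ?_⟩
  by_contra hcon
  push Not at hcon
  refine hb (mem_ball_iff_norm.2 hd) ⟨Hi y, ?_, h.right y hy hne⟩
  rw [mem_closedBall_zero_iff]
  exact hcon

theorem G3_neP {q : ℕ} {y : ℂ × ℂ} (h : y.1 ^ q ≠ y.2 ^ 2) : y ≠ (1, 1) := by
  rintro rfl
  simp at h

theorem G3_notc {q : ℕ} {c : ℝ → V} {H : V → ℂ × ℂ} {Hi : ℂ × ℂ → V} (h : TorM q c H Hi)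
    {y : ℂ × ℂ} (hy : OnS y) (hk : y.1 ^ q ≠ y.2 ^ 2) : Hi y ∉ range c := by
  intro h2
  rw [h.iff, h.right y hy (G3_neP hk)] at h2
  exact hk h2

theorem G3_R4 {c : ℝ → V} (hc : VKnot c) {x : V} (hx : x ∉ range c) (h4 : 4 < ‖x‖) :
    x ∈ G3_R := by
  rw [Prod.norm_def, lt_max_iff] at h4
  rcases h4 with h4 | h4
  · right
    rw [Real.norm_eq_abs] at h4
    refine ⟨by linarith, fun h0 => hx ⟨x.1, ?_⟩⟩
    rw [hc.standard x.1 (by linarith)]
    exact Prod.ext rfl h0.symm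
  · left
    linarith

/-- points of the knot near the end -/
theorem G3_onK {q : ℕ} {c : ℝ → V} {H : V → ℂ × ℂ} {Hi : ℂ × ℂ → V} (h : TorM q c H Hi)
    {t : ℝ} (hne : KK q (2 * Real.pi * t) ≠ (1, 1)) (h4 : 4 < ‖Hi (KK q (2 * Real.pi * t))‖) :
    Hi (KK q (2 * Real.pi * t)) = ((Hi (KK q (2 * Real.pi * t))).1, 0) ∧
      4 < |(Hi (KK q (2 * Real.pi * t))).1| := by
  have h1 : Hi (KK q (2 * Real.pi * t)) ∈ range c := by
    rw [h.iff, h.right _ (G3_KS q t) hne]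
    exact G3_Kk q t
  obtain ⟨s, hs⟩ := h1
  rw [← hs] at h4 ⊢
  by_cases h5 : |s| ≤ 1
  · exfalso
    have h6 := h.knot.inBall s h5
    rw [Prod.norm_def, lt_max_iff, Real.norm_eq_abs] at h4
    have h7 := sq_abs (c s).1
    have h8 := norm_nonneg (c s).2
    have h9 := abs_nonneg (c s).1
    rcases h4 with h4 | h4
    · nlinarith
    · nlinarith
  · push Not at h5
    have h6 := h.knot.standard s h5.le
    rw [h6] at h4 ⊢
    refine ⟨rfl, ?_⟩
    rw [Prod.norm_def, norm_zero, lt_max_iff, Real.norm_eq_abs] at h4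
    rcases h4 with h4 | h4
    · exact h4
    · linarith

theorem G3_sgn0 {g : ℝ → ℝ} (hg : ContinuousOn g (Ioo 0 1)) {p1 p2 : ℝ} (h0 : 0 < p1)
    (h12 : p1 < p2) (h1 : p2 < 1) (hz1 : ∀ t, 0 < t → t ≤ p1 → g t ≠ 0)
    (hz2 : ∀ t, p2 ≤ t → t < 1 → g t ≠ 0) (hb1 : ∀ M : ℝ, ∃ t, 0 < t ∧ t ≤ p1 ∧ M < |g t|)
    (hb2 : ∀ M : ℝ, ∃ t, p2 ≤ t ∧ t < 1 ∧ M < |g t|)
    (hi : ∀ a b, 0 < a → a ≤ p1 → p2 ≤ b → b < 1 → g a ≠ g b) (hp1 : 0 < g p1) (hp2 : 0 < g p2) :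
    False := by
  obtain ⟨t1, a1, a2, a3⟩ := hb1 (max (g p1) (g p2))
  obtain ⟨t2, b1, b2, b3⟩ := hb2 (max (g p1) (g p2))
  have c1 : ContinuousOn g (Icc t1 p1) := hg.mono fun x hx =>
    ⟨lt_of_lt_of_le a1 hx.1, lt_of_le_of_lt hx.2 (h12.trans h1)⟩
  have c2 : ContinuousOn g (Icc p2 t2) := hg.mono fun x hx =>
    ⟨lt_of_lt_of_le (h0.trans h12) hx.1, lt_of_le_of_lt hx.2 b2⟩
  have d1 : 0 < g t1 := by
    by_contra hcon
    push Not at hcon
    obtain ⟨x, hx, hx0⟩ := intermediate_value_Icc a2 c1 ⟨hcon, hp1.le⟩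
    exact hz1 x (lt_of_lt_of_le a1 hx.1) hx.2 hx0
  have d2 : 0 < g t2 := by
    by_contra hcon
    push Not at hcon
    obtain ⟨x, hx, hx0⟩ := intermediate_value_Icc' b1 c2 ⟨hcon, hp2.le⟩
    exact hz2 x hx.1 (lt_of_le_of_lt hx.2 b2) hx0
  rw [abs_of_pos d1] at a3
  rw [abs_of_pos d2] at b3
  obtain ⟨x, hx, hx0⟩ : max (g p1) (g p2) ∈ g '' Icc t1 p1 :=
    intermediate_value_Icc' a2 c1 ⟨le_max_left _ _, a3.le⟩
  obtain ⟨y, hy, hy0⟩ : max (g p1) (g p2) ∈ g '' Icc p2 t2 :=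
    intermediate_value_Icc b1 c2 ⟨le_max_right _ _, b3.le⟩
  exact hi x y (lt_of_lt_of_le a1 hx.1) hx.2 hy.1 (lt_of_le_of_lt hy.2 b2) (hx0.trans hy0.symm)

theorem G3_phi {q : ℕ} (hq : Odd q) {c : ℝ → V} {H : V → ℂ × ℂ} {Hi : ℂ × ℂ → V}
    (h : TorM q c H Hi) : ∃ δ φ : ℝ, 0 < δ ∧ 0 < φ ∧ φ < 1 / 2 ∧
      (∀ y, OnS y → y ≠ (1, 1) → ‖y - (1, 1)‖ < δ → 4 < ‖Hi y‖) ∧
      (∀ t, (0 ≤ t ∧ t ≤ φ) ∨ (1 - φ ≤ t ∧ t ≤ 1) → ‖KK q (2 * Real.pi * t) - (1, 1)‖ < δ / 2) ∧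
      ((4 < (Hi (KK q (2 * Real.pi * φ))).1 ∧ (Hi (KK q (2 * Real.pi * (1 - φ)))).1 < -4) ∨
       ((Hi (KK q (2 * Real.pi * φ))).1 < -4 ∧ 4 < (Hi (KK q (2 * Real.pi * (1 - φ)))).1)) := by
  obtain ⟨δ, hδ, hfar⟩ := G3_dist h 4
  have hc := G3_Kc q
  have hn0 : ∀ ε : ℝ, 0 < ε → ∃ φ : ℝ, 0 < φ ∧ φ < 1 / 2 ∧
      ∀ t, (0 ≤ t ∧ t ≤ φ) ∨ (1 - φ ≤ t ∧ t ≤ 1) → ‖KK q (2 * Real.pi * t) - (1, 1)‖ < ε := by
    intro ε hε
    obtain ⟨d1, hd1, h1⟩ := Metric.continuous_iff.1 hc 0 ε hε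
    obtain ⟨d2, hd2, h2⟩ := Metric.continuous_iff.1 hc 1 ε hε
    have m1 := min_le_left (min d1 d2) 1
    have m2 := min_le_right (min d1 d2) 1
    have m3 := min_le_left d1 d2
    have m4 := min_le_right d1 d2
    have m5 : 0 < min (min d1 d2) 1 := by positivity
    refine ⟨min (min d1 d2) 1 / 3, by positivity, by linarith, ?_⟩
    rintro t (⟨ht0, ht1⟩ | ⟨ht0, ht1⟩)
    · have := h1 t (by rw [Real.dist_eq, sub_zero, abs_of_nonneg ht0]; linarith)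
      rw [G3_K0, dist_eq_norm] at this
      exact this
    · have := h2 t (by rw [Real.dist_eq, abs_of_nonpos (by linarith)]; linarith)
      rw [G3_K1, dist_eq_norm] at this
      exact this
  obtain ⟨φ, hφ0, hφ1, hφ⟩ := hn0 (δ / 2) (by linarith)
  refine ⟨δ, φ, hδ, hφ0, hφ1, hfar, hφ, ?_⟩
  -- the sign argument
  let g : ℝ → ℝ := fun t => (Hi (KK q (2 * Real.pi * t))).1
  have hg : ContinuousOn g (Ioo 0 1) := by
    refine continuous_fst.comp_continuousOn (h.contHi.comp hc.continuousOn ?_)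
    intro t ht
    exact ⟨G3_KS q t, G3_Kne hq ht.1 ht.2⟩
  have hk : ∀ t, 0 < t → t < 1 → (t ≤ φ ∨ 1 - φ ≤ t) →
      Hi (KK q (2 * Real.pi * t)) = (g t, 0) ∧ 4 < |g t| := by
    intro t h0 h1 h2
    refine G3_onK h (G3_Kne hq h0 h1) (hfar _ (G3_KS q t) (G3_Kne hq h0 h1) ?_)
    have h3 := hφ t (h2.imp (fun h => ⟨h0.le, h⟩) (fun h => ⟨h, h1.le⟩))
    linarith
  have hz1 : ∀ t, 0 < t → t ≤ φ → g t ≠ 0 := by
    intro t h0 h1 h2
    have := (hk t h0 (by linarith) (Or.inl h1)).2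
    rw [h2, abs_zero] at this
    linarith
  have hz2 : ∀ t, 1 - φ ≤ t → t < 1 → g t ≠ 0 := by
    intro t h0 h1 h2
    have := (hk t (by linarith) h1 (Or.inr h0)).2
    rw [h2, abs_zero] at this
    linarith
  have hb : ∀ M : ℝ, ∃ r : ℝ, 0 < r ∧ r ≤ φ ∧ ∀ t, 0 < t → t < 1 → (t ≤ r ∨ 1 - r ≤ t) →
      M < |g t| := by
    intro M
    obtain ⟨d, hd, hM⟩ := G3_dist h (max M 0)
    obtain ⟨r, hr0, hr1, hr⟩ := hn0 d hd
    have m1 := min_le_left r φ
    have m2 := min_le_right r φ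
    refine ⟨min r φ, by positivity, m2, fun t h0 h1 h2 => ?_⟩
    have h3 := hM _ (G3_KS q t) (G3_Kne hq h0 h1) (hr t
      (h2.imp (fun h => ⟨h0.le, by linarith⟩) (fun h => ⟨by linarith, h1.le⟩)))
    rw [(hk t h0 h1 (h2.imp (fun h => by linarith) (fun h => by linarith))).1, Prod.norm_def,
      norm_zero, lt_max_iff, Real.norm_eq_abs] at h3
    rcases h3 with h3 | h3
    · exact lt_of_le_of_lt (le_max_left _ _) h3
    · exact absurd h3 (not_lt.2 (le_max_right _ _))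
  have hb1 : ∀ M : ℝ, ∃ t, 0 < t ∧ t ≤ φ ∧ M < |g t| := by
    intro M
    obtain ⟨r, hr0, hr1, hr⟩ := hb M
    exact ⟨r, hr0, hr1, hr r hr0 (by linarith) (Or.inl le_rfl)⟩
  have hb2 : ∀ M : ℝ, ∃ t, 1 - φ ≤ t ∧ t < 1 ∧ M < |g t| := by
    intro M
    obtain ⟨r, hr0, hr1, hr⟩ := hb M
    exact ⟨1 - r, by linarith, by linarith, hr (1 - r) (by linarith) (by linarith) (Or.inr le_rfl)⟩
  have hi : ∀ a b, 0 < a → a ≤ φ → 1 - φ ≤ b → b < 1 → g a ≠ g b := by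
    intro a b ha0 ha1 hb0 hb1 hab
    have h1 := (hk a ha0 (by linarith) (Or.inl ha1)).1
    have h2 := (hk b (by linarith) hb1 (Or.inr hb0)).1
    have h3 : Hi (KK q (2 * Real.pi * a)) = Hi (KK q (2 * Real.pi * b)) := by rw [h1, h2, hab]
    have h4 := congrArg H h3
    rw [h.right _ (G3_KS q a) (G3_Kne hq ha0 (by linarith)),
      h.right _ (G3_KS q b) (G3_Kne hq (by linarith) hb1)] at h4
    obtain ⟨n, hn⟩ := G3_Kinj hq h4
    have h5 : (n : ℝ) < 0 := by linarith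
    have h6 : (-1 : ℝ) < n := by linarith
    have h7 : n < (0 : ℤ) := by exact_mod_cast h5
    have h8 : (-1 : ℤ) < n := by exact_mod_cast h6
    omega
  have k1 := (hk φ hφ0 (by linarith) (Or.inl le_rfl)).2
  have k2 := (hk (1 - φ) (by linarith) (by linarith) (Or.inr le_rfl)).2
  have hpos := G3_sgn0 hg hφ0 (by linarith) (by linarith) hz1 hz2 hb1 hb2 hi
  have hneg := G3_sgn0 (g := fun t => -g t) hg.neg hφ0 (by linarith) (by linarith)
    (fun t h0 h1 => neg_ne_zero.2 (hz1 t h0 h1)) (fun t h0 h1 => neg_ne_zero.2 (hz2 t h0 h1))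
    (by simpa only [abs_neg] using hb1) (by simpa only [abs_neg] using hb2)
    (fun a b h1 h2 h3 h4 h5 => hi a b h1 h2 h3 h4 (neg_injective h5))
  rw [lt_abs] at k1 k2
  rcases k1 with k1 | k1 <;> rcases k2 with k2 | k2
  · exact (hpos (by linarith) (by linarith)).elim
  · exact Or.inl ⟨k1, by show g (1 - φ) < -4; linarith⟩
  · exact Or.inr ⟨by show g φ < -4; linarith, k2⟩
  · exact (hneg (by show 0 < -g φ; linarith) (by show 0 < -g (1 - φ); linarith)).elim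

/-- points near the middle arc -/
theorem G3_arc {q : ℕ} (hq : Odd q) {c : ℝ → V} {H : V → ℂ × ℂ} {Hi : ℂ × ℂ → V}
    (h : TorM q c H Hi) {T : Set V} (hT : IsOpen T) (hcT : range c ⊆ T) {a b : ℝ} (ha : 0 < a)
    (hb : b < 1) : ∃ ε : ℝ, 0 < ε ∧ ∀ y, OnS y → y ≠ (1, 1) → ∀ t, a ≤ t → t ≤ b →
      ‖y - KK q (2 * Real.pi * t)‖ < ε → Hi y ∈ T := by
  obtain ⟨U, hU, hUT⟩ := (continuousOn_iff'.1 h.contHi) T hT
  have hK : IsCompact ((fun t : ℝ => KK q (2 * Real.pi * t)) '' Icc a b) :=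
    isCompact_Icc.image (G3_Kc q)
  have hsub : (fun t : ℝ => KK q (2 * Real.pi * t)) '' Icc a b ⊆ U := by
    rintro _ ⟨t, ht, rfl⟩
    have hne := G3_Kne hq (lt_of_lt_of_le ha ht.1) (lt_of_le_of_lt ht.2 hb)
    have h1 : KK q (2 * Real.pi * t) ∈ Hi ⁻¹' T ∩ {y | OnS y ∧ y ≠ (1, 1)} := by
      refine ⟨hcT ?_, G3_KS q t, hne⟩
      rw [h.iff, h.right _ (G3_KS q t) hne]
      exact G3_Kk q t
    rw [hUT] at h1
    exact h1.1
  obtain ⟨ε, hε, hth⟩ := hK.exists_thickening_subset_open hU hsub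
  refine ⟨ε, hε, fun y hy hne t h0 h1 hd => ?_⟩
  have h2 : y ∈ U := hth (Metric.mem_thickening_iff.2
    ⟨_, ⟨t, ⟨h0, h1⟩, rfl⟩, by rw [dist_eq_norm]; exact hd⟩)
  have h3 : y ∈ Hi ⁻¹' T ∩ {y | OnS y ∧ y ≠ (1, 1)} := by
    rw [hUT]
    exact ⟨h2, hy, hne⟩
  exact h3.1

theorem G3_near {q : ℕ} (hq : Odd q) {c : ℝ → V} {H : V → ℂ × ℂ} {Hi : ℂ × ℂ → V}
    (h : TorM q c H Hi) {t : ℝ} (h0 : 0 < t) (h1 : t < 1) : ∃ ε : ℝ, 0 < ε ∧
      ∀ y, OnS y → y ≠ (1, 1) → ‖y - KK q (2 * Real.pi * t)‖ < ε →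
        (4 < (Hi (KK q (2 * Real.pi * t))).1 → 4 < (Hi y).1) ∧
        ((Hi (KK q (2 * Real.pi * t))).1 < -4 → (Hi y).1 < -4) := by
  by_cases hr : 4 < |(Hi (KK q (2 * Real.pi * t))).1|
  · obtain ⟨ε, hε, hd⟩ := Metric.continuousOn_iff.1 h.contHi _ ⟨G3_KS q t, G3_Kne hq h0 h1⟩
      (|(Hi (KK q (2 * Real.pi * t))).1| - 4) (by linarith)
    refine ⟨ε, hε, fun y hy hne hy2 => ?_⟩
    have h2 := hd y ⟨hy, hne⟩ (by rw [dist_eq_norm]; exact hy2)
    have h3 : |(Hi y).1 - (Hi (KK q (2 * Real.pi * t))).1| <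
        |(Hi (KK q (2 * Real.pi * t))).1| - 4 := by
      refine lt_of_le_of_lt ?_ h2
      rw [Prod.dist_eq, Real.dist_eq]
      exact le_max_left _ _
    rw [abs_lt] at h3
    constructor
    · intro h4
      rw [abs_of_pos (by linarith)] at h3
      linarith [h3.1]
    · intro h4
      rw [abs_of_neg (by linarith)] at h3
      linarith [h3.2]
  · refine ⟨1, one_pos, fun y hy hne hy2 => ⟨fun h4 => absurd ?_ hr, fun h4 => absurd ?_ hr⟩⟩
    · exact lt_of_lt_of_le h4 (le_abs_self _)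
    · exact lt_of_lt_of_le (by linarith) (neg_le_abs _)

/-- a point near `P` off the knot -/
theorem G3_y3 (q : ℕ) {ε : ℝ} (hε : 0 < ε) : ∃ y : ℂ × ℂ, OnS y ∧ y.1 ^ q ≠ y.2 ^ 2 ∧
    ‖y - (1, 1)‖ < ε := by
  have hc : Continuous fun η : ℝ => Complex.exp (η * Complex.I) := by fun_prop
  obtain ⟨d, hd, h1⟩ := Metric.continuous_iff.1 hc 0 ε hε
  have m1 := min_le_left d 1
  have m2 := min_le_right d 1
  have m3 : 0 < min d 1 := by positivity
  set η : ℝ := min d 1 / 2 with hη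
  have h2 := h1 η (by rw [Real.dist_eq, sub_zero, abs_of_pos (by positivity)]; linarith)
  refine ⟨(1, Complex.exp (η * Complex.I)), ?_, ?_, ?_⟩
  · unfold OnS
    simp only [norm_one, Complex.norm_exp_ofReal_mul_I]
    norm_num
  · simp only [one_pow]
    rw [← Complex.exp_nat_mul]
    intro h3
    have h4 := h3.symm
    rw [Complex.exp_eq_one_iff] at h4
    obtain ⟨n, hn⟩ := h4
    have hI : (Complex.I : ℂ) ≠ 0 := Complex.I_ne_zero
    have h5 : ((2 * η : ℝ) : ℂ) = ((n * (2 * Real.pi) : ℝ) : ℂ) := by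
      apply mul_right_cancel₀ hI
      push_cast at hn ⊢
      linear_combination hn
    have h6 : 2 * η = n * (2 * Real.pi) := by exact_mod_cast h5
    have hpi := Real.pi_gt_three
    have h7 : (0 : ℝ) < n := by
      by_contra hcon
      push Not at hcon
      nlinarith
    have h8 : (n : ℝ) < 1 := by
      by_contra hcon
      push Not at hcon
      nlinarith
    have h9 : (0 : ℤ) < n := by exact_mod_cast h7
    have h10 : n < (1 : ℤ) := by exact_mod_cast h8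
    omega
  · rw [Prod.norm_def, max_lt_iff]
    constructor
    · simp only [Prod.fst_sub, sub_self, norm_zero]
      exact hε
    · rw [dist_eq_norm] at h2
      simpa using h2

/-- The orbit loop of `H xb`, pulled back to the complement of `c`. -/
def IsOrbM {q : ℕ} {c : ℝ → V} {H : V → ℂ × ℂ} {Hi : ℂ × ℂ → V} (h : TorM q c H Hi)
    (om : Path (xM h.knot) (xM h.knot)) : Prop := ∀ t : I, H (om t).1 = act q t (H xb)

theorem G3 {q : ℕ} (hq : Odd q) {c : ℝ → V} {H : V → ℂ × ℂ} {Hi : ℂ × ℂ → V}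
    (h : TorM q c H Hi) {F : V → V} (hF : Fat2 (cor c) F)
    (om mer : Path (xM h.knot) (xM h.knot)) (hom : IsOrbM h om) (hm : IsMer h.knot mer) :
    ∃ k1 k2 e : ℤ, (e = 1 ∨ e = -1) ∧
      cls om = cls mer ^ k1 * cls (ellM hF h.knot) ^ e * cls mer ^ k2 := by
  obtain ⟨δ, φ, hδ, hφ0, hφ1, hfar, hnear, hsgn⟩ := G3_phi hq h
  have hTo : IsOpen (Fh F '' {x : V | ‖x.2‖ < 2}) :=
    D0_open hF _ (isOpen_lt (by fun_prop) continuous_const) fun _ hx => hx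
  have hcT : range c ⊆ Fh F '' {x : V | ‖x.2‖ < 2} := by
    rintro _ ⟨t, rfl⟩
    refine ⟨(t, 0), ?_, D0_core hF t⟩
    show ‖(0 : ℂ)‖ < 2
    rw [norm_zero]
    norm_num
  obtain ⟨ε0, hε0, h0T⟩ := G3_arc hq h hTo hcT hφ0 (by linarith : 1 - φ < 1)
  obtain ⟨ε1, hε1, h1s⟩ := G3_near hq h hφ0 (by linarith : φ < 1)
  obtain ⟨ε2, hε2, h2s⟩ := G3_near hq h (by linarith : 0 < 1 - φ) (by linarith : 1 - φ < 1)
  obtain ⟨y3, hy3S, hy3k, hy3⟩ := G3_y3 q (ε := min (min ε0 (δ / 2)) (min ε1 ε2)) (by positivity)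
  rw [lt_min_iff, lt_min_iff, lt_min_iff] at hy3
  obtain ⟨⟨n0, nδ⟩, n1, n2⟩ := hy3
  -- the orbit of y3
  have oS : ∀ t : ℝ, OnS (act q t y3) := fun t => G3_actS q t hy3S
  have oK : ∀ t : ℝ, (act q t y3).1 ^ q ≠ (act q t y3).2 ^ 2 := fun t => G3_actk q t hy3k
  have oD : ∀ t : ℝ, ‖act q t y3 - KK q (2 * Real.pi * t)‖ = ‖y3 - (1, 1)‖ := fun t => by
    rw [← G3_actP, G3_actd]
  have oR : ∀ t : ℝ, (0 ≤ t ∧ t ≤ φ) ∨ (1 - φ ≤ t ∧ t ≤ 1) → Hi (act q t y3) ∈ G3_R := by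
    intro t ht
    refine G3_R4 h.knot (G3_notc h (oS t) (oK t)) (hfar _ (oS t) (G3_neP (oK t)) ?_)
    have e1 := hnear t ht
    have e2 := oD t
    have e3 : act q t y3 - (1, 1) = (act q t y3 - KK q (2 * Real.pi * t)) +
        (KK q (2 * Real.pi * t) - (1, 1)) := by abel
    rw [e3]
    refine lt_of_le_of_lt (norm_add_le _ _) ?_
    rw [e2]
    linarith
  have oT : ∀ t : ℝ, φ ≤ t → t ≤ 1 - φ → Hi (act q t y3) ∈ Fh F '' {x : V | ‖x.2‖ < 2} :=
    fun t h1 h2 => h0T _ (oS t) (G3_neP (oK t)) t h1 h2 (by rw [oD]; exact n0)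
  -- the path τ
  have hb3 : Hi y3 ∈ G3_R := by
    have := oR 0 (Or.inl ⟨le_rfl, hφ0.le⟩)
    rwa [G3_act0] at this
  obtain ⟨τ, hτ⟩ := G3_join (Hi y3) hb3
  -- the square
  let pI : ℝ → I := Set.projIcc 0 1 zero_le_one
  have hpI : Continuous pI := continuous_projIcc
  have kS : ∀ p : ℝ × ℝ, OnS (act q p.2 (H (τ (pI p.1)))) := fun p =>
    G3_actS q _ (h.mem _).1
  have kK : ∀ p : ℝ × ℝ, (act q p.2 (H (τ (pI p.1)))).1 ^ q ≠
      (act q p.2 (H (τ (pI p.1)))).2 ^ 2 := fun p => by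
    refine G3_actk q _ fun hcon => ?_
    exact G3_avoid h.knot (hτ (pI p.1)) ((h.iff _).2 hcon)
  let K : ℝ × ℝ → MV c := fun p => ⟨Hi (act q p.2 (H (τ (pI p.1)))), G3_notc h (kS p) (kK p)⟩
  have hK : Continuous K := by
    refine Continuous.subtype_mk ?_ _
    have hin : Continuous fun p : ℝ × ℝ => act q p.2 (H (τ (pI p.1))) :=
      (G3_actc q).comp (f := fun p : ℝ × ℝ => (p.2, H (τ (pI p.1)))) (continuous_snd.prodMk
        (h.contH.comp (τ.continuous.comp (hpI.comp continuous_fst))))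
    exact h.contHi.comp_continuous hin fun p => ⟨kS p, G3_neP (kK p)⟩
  have pI0 : pI 0 = 0 := Set.projIcc_left _
  have pI1 : pI 1 = 1 := Set.projIcc_right _
  have K0 : ∀ s : ℝ, (K (s, 0)).1 = τ (pI s) := fun s => by
    show Hi (act q 0 (H (τ (pI s)))) = _
    rw [G3_act0, h.left]
  have K1 : ∀ s : ℝ, (K (s, 1)).1 = τ (pI s) := fun s => by
    show Hi (act q 1 (H (τ (pI s)))) = _
    rw [G3_act1, h.left]
  have K3 : ∀ t : ℝ, (K (1, t)).1 = Hi (act q t y3) := fun t => by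
    show Hi (act q t (H (τ (pI 1)))) = _
    rw [pI1, τ.target, h.right _ hy3S (G3_neP hy3k)]
  have hx0 : xM h.knot = K (0, 0) := by
    apply Subtype.ext
    rw [K0, pI0, τ.source]
    rfl
  have hx1 : xM h.knot = K (0, 1) := by
    apply Subtype.ext
    rw [K1, pI0, τ.source]
    rfl
  let α : Path ((0, 0) : ℝ × ℝ) (1, φ) := (G3_sg (0, 0) (1, 0)).trans (G3_sg (1, 0) (1, φ))
  let β : Path ((1, φ) : ℝ × ℝ) (1, 1 - φ) := G3_sg _ _
  let γ : Path ((1, 1 - φ) : ℝ × ℝ) (0, 1) :=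
    (G3_sg (1, 1 - φ) (1, 1)).trans (G3_sg (1, 1) (0, 1))
  let A : Path (xM h.knot) (K (1, φ)) := (α.map hK).cast hx0 rfl
  let B : Path (K (1, φ)) (K (1, 1 - φ)) := β.map hK
  let C : Path (K (1, 1 - φ)) (xM h.knot) := (γ.map hK).cast rfl hx1
  have hh : (G3_sg ((0, 0) : ℝ × ℝ) (0, 1)).Homotopic (α.trans (β.trans γ)) :=
    SimplyConnectedSpace.paths_homotopic _ _
  have hh2 := (hh.map (⟨K, hK⟩ : C(ℝ × ℝ, MV c))).pathCast hx0 hx1
  have g1 : ((G3_sg ((0, 0) : ℝ × ℝ) (0, 1)).map hK).cast hx0 hx1 = om := by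
    apply Path.ext
    funext u
    apply Subtype.ext
    show Hi (act q ((1 - (u : ℝ)) * 0 + (u : ℝ) * 1)
      (H (τ (pI ((1 - (u : ℝ)) * 0 + (u : ℝ) * 0))))) = (om u).1
    have q1 : (1 - (u : ℝ)) * 0 + (u : ℝ) * 1 = u := by ring
    have q2 : (1 - (u : ℝ)) * 0 + (u : ℝ) * 0 = 0 := by ring
    rw [q1, q2, pI0, τ.source, ← hom u, h.left]
  have g2 : ((α.trans (β.trans γ)).map hK).cast hx0 hx1 = A.trans (B.trans C) := by
    apply Path.ext
    funext u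
    exact G3_mtr (f := K) _ _ _ _ (fun _ => rfl) (G3_mtr _ _ _ _ (fun _ => rfl) (fun _ => rfl)) u
  have hom2 : cls om = cls (A.trans (B.trans C)) := by
    refine FA_cls ?_
    rw [← g1, ← g2]
    exact hh2
  have hA : ∀ u, (A u).1 ∈ G3_R := by
    intro u
    refine E4_tr (P := fun p : ℝ × ℝ => (K p).1 ∈ G3_R) (G3_sg (0, 0) (1, 0))
      (G3_sg (1, 0) (1, φ)) ?_ ?_ u
    · intro w
      have q1 : (G3_sg ((0, 0) : ℝ × ℝ) (1, 0)) w = ((w : ℝ), 0) := by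
        show ((1 - (w : ℝ)) * 0 + (w : ℝ) * 1, (1 - (w : ℝ)) * 0 + (w : ℝ) * 0) = _
        ext <;> simp
      rw [q1, K0]
      exact hτ _
    · intro w
      have q1 : (G3_sg ((1, 0) : ℝ × ℝ) (1, φ)) w = (1, (w : ℝ) * φ) := by
        show ((1 - (w : ℝ)) * 1 + (w : ℝ) * 1, (1 - (w : ℝ)) * 0 + (w : ℝ) * φ) = _
        ext <;> simp
      rw [q1, K3]
      have w0 := w.2.1
      have w1 := w.2.2
      exact oR _ (Or.inl ⟨by positivity, by nlinarith⟩)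
  have hC : ∀ u, (C u).1 ∈ G3_R := by
    intro u
    refine E4_tr (P := fun p : ℝ × ℝ => (K p).1 ∈ G3_R) (G3_sg (1, 1 - φ) (1, 1))
      (G3_sg (1, 1) (0, 1)) ?_ ?_ u
    · intro w
      have q1 : (G3_sg ((1, 1 - φ) : ℝ × ℝ) (1, 1)) w =
          (1, (1 - (w : ℝ)) * (1 - φ) + (w : ℝ)) := by
        show ((1 - (w : ℝ)) * 1 + (w : ℝ) * 1, (1 - (w : ℝ)) * (1 - φ) + (w : ℝ) * 1) = _
        ext <;> simp
      rw [q1, K3]
      have w0 := w.2.1
      have w1 := w.2.2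
      exact oR _ (Or.inr ⟨by nlinarith, by nlinarith⟩)
    · intro w
      have q1 : (G3_sg ((1, 1) : ℝ × ℝ) (0, 1)) w = (1 - (w : ℝ), 1) := by
        show ((1 - (w : ℝ)) * 1 + (w : ℝ) * 0, (1 - (w : ℝ)) * 1 + (w : ℝ) * 1) = _
        ext <;> simp
      rw [q1, K1]
      exact hτ _
  have hB : ∀ u, (B u).1 ∈ Fh F '' {x : V | ‖x.2‖ < 2} := by
    intro u
    have q1 : (G3_sg ((1, φ) : ℝ × ℝ) (1, 1 - φ)) u =
        (1, (1 - (u : ℝ)) * φ + (u : ℝ) * (1 - φ)) := by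
      show ((1 - (u : ℝ)) * 1 + (u : ℝ) * 1, (1 - (u : ℝ)) * φ + (u : ℝ) * (1 - φ)) = _
      ext <;> simp
    show (K ((G3_sg ((1, φ) : ℝ × ℝ) (1, 1 - φ)) u)).1 ∈ _
    rw [q1, K3]
    have w0 := u.2.1
    have w1 := u.2.2
    exact oT _ (by nlinarith) (by nlinarith)
  have s1 := h1s _ (oS φ) (G3_neP (oK φ)) (by rw [oD]; exact n1)
  have s2 := h2s _ (oS (1 - φ)) (G3_neP (oK (1 - φ))) (by rw [oD]; exact n2)
  rcases hsgn with ⟨a1, a2⟩ | ⟨a1, a2⟩
  · obtain ⟨k1, k2, hk⟩ := G3_comb' hF h.knot mer hm A B C hA hC hB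
      (by rw [K3]; exact s1.1 a1) (by rw [K3]; exact s2.2 a2)
    refine ⟨k1, k2, -1, Or.inr rfl, ?_⟩
    rw [hom2, hk, zpow_neg_one]
  · obtain ⟨k1, k2, hk⟩ := G3_comb hF h.knot mer hm A B C hA hC hB
      (by rw [K3]; exact s1.2 a1) (by rw [K3]; exact s2.1 a2)
    refine ⟨k1, k2, 1, Or.inl rfl, ?_⟩
    rw [hom2, hk, zpow_one]

end LQ
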