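import Pool.Agent.H64.LQ.GDefs
import Pool.Agent.H64.LQ.FA
import Pool.Agent.H64.LQ.G2

/-!
# G4: matching the meridians

`TorM q c H Hi`. There is a path `τ` from `y0` to `H xb` in `YS q` such that `[τ · H(mer) · τ⁻¹]` is `(cls m)^{±1}`, `m` the meridian loop of the sphere model (IsM).
Far region: `R = {x | 1 < ‖x.2‖ ∨ (1 < |x.1| ∧ x.2 ≠ 0)}`, disjoint from `c`, path connected (every point is joined to `xb` in `R`: rotate `x.2` to be real positive, increase it to be `> 1`, move straight).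
(1) There is `η ∈ (0, 1/4)` such that every point `y` of `YS q` with `‖y - (1,1)‖ ≤ 3η` is `H x` with `x ∈ R`: the set `{x | |x.1| ≤ 1, ‖x.2‖ ≤ 1}` is compact, its image by `H` is compact and does not contain
`(1,1)`, so it is at distance `> 3η` from `(1,1)`; then `x = Hi y` has `|x.1| > 1` or `‖x.2‖ > 1`, and it is not on `c`, so `x.2 ≠ 0` when `|x.1| > 1`, `‖x.2‖ ≤ 1` (the axis points are on `c`).
(2) Small loop: `m2(t) = Sl (1 - η sin 2πt) (η cos 2πt)`, based at `y2 = Sl 1 η`, in `YS q` (`Sl ζ φ` with `0 < ζ < √2`, `|φ| < π` is on the torus knot iff `(ζ, φ) = (1, 0)`: `z = ζ > 0`, `z^q = w²` and the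
sphere equation force `ζ = 1`, `w = ±1`) and within `3η` of `(1,1)`. `m ≃ τ1 · m2 · τ1⁻¹` with `τ1(t) = Sl 1 ((1-t) π/2 + t η)`: all in the slice, where
`(ζ, φ) = (1, 0) + ρ-scaled`: the family `Sl (1 - x_s sin 2πt) (y_s cos 2πt)`, `x_s` from `1/4` to `η`, `y_s` from `π/2` to `η`, of loops with base point `Sl 1 y_s`.
(3) `b2 = Hi y2 ∈ R`; let `σ` be a path in `R` from `xb` to `b2`. The loop `σ · (Hi ∘ m2) · σ⁻¹` is in `R`, so by FA its class in `PiM hc` is `(cls mer)^n` for some integer `n` (angle by FB).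
(4) Put `τ = τ1 · (H ∘ σ)⁻¹`, from `y0` to `H xb`, and `Θ (cls γ) = cls (τ · (H ∘ γ) · τ⁻¹)`, a homomorphism `PiM hc →* π₁(YS q, y0)`. `Θ ((cls mer)^n) = cls (τ1 · m2 · τ1⁻¹) = cls m`. Let
`ab : π₁(YS q, y0) →* Multiplicative ℤ` with `ab α = 2`, `ab β = q` (G2). `ab (cls m) = q - (q + 1) = -1`. So `n · ab(Θ (cls mer)) = -1`, `n = ±1`, and `Θ (cls mer) = (cls m)^n` for
`n = ±1`.
-/

open scoped ContDiff unitInterval
open Topology Set

namespace LQ

open LK

/-- `H` as a map between the complements. -/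
noncomputable def HM {q : ℕ} {c : ℝ → V} {H : V → ℂ × ℂ} {Hi : ℂ × ℂ → V} (h : TorM q c H Hi) :
    C(MV c, YS q) :=
  ⟨fun x => ⟨H x.1, (h.mem x.1).1, fun e => x.2 ((h.iff x.1).2 e)⟩,
    (h.contH.comp continuous_subtype_val).subtype_mk _⟩

/-- paths with the same values -/
theorem G4_cast {X : Type*} [TopologicalSpace X] {x y x' y' : X} {p q : Path x y}
    {p' q' : Path x' y'} (hp : ∀ t, p' t = p t) (hq : ∀ t, q' t = q t) (h : p.Homotopic q) :
    p'.Homotopic q' := by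
  have hx : x = x' := by rw [← p.source, ← p'.source, hp]
  have hy : y = y' := by rw [← p.target, ← p'.target, hp]
  subst hx
  subst hy
  have e1 : p' = p := Path.ext (funext hp)
  have e2 : q' = q := Path.ext (funext hq)
  rw [e1, e2]
  exact h

/-- a homotopy of loops with moving base point -/
theorem G4_move {X : Type*} [TopologicalSpace X] (K : C(ℝ × ℝ, X)) {a b : X}
    (β : Path a b) (γ₀ : Path a a) (γ₁ : Path b b)
    (hb0 : ∀ s : I, K ((s : ℝ), 0) = β s) (hb1 : ∀ s : I, K ((s : ℝ), 1) = β s)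
    (h0 : ∀ u : I, K (0, (u : ℝ)) = γ₀ u) (h1 : ∀ u : I, K (1, (u : ℝ)) = γ₁ u) :
    γ₀.Homotopic (β.trans (γ₁.trans β.symm)) := by
  let P : Path ((0, 0) : ℝ × ℝ) (0, 1) :=
    { toFun := fun u => (0, (u : ℝ))
      continuous_toFun := by fun_prop
      source' := by simp
      target' := by simp }
  let A : Path ((0, 0) : ℝ × ℝ) (1, 0) :=
    { toFun := fun u => ((u : ℝ), 0)
      continuous_toFun := by fun_prop
      source' := by simp
      target' := by simp }
  let B : Path ((1, 0) : ℝ × ℝ) (1, 1) :=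
    { toFun := fun u => (1, (u : ℝ))
      continuous_toFun := by fun_prop
      source' := by simp
      target' := by simp }
  let C : Path ((0, 1) : ℝ × ℝ) (1, 1) :=
    { toFun := fun u => ((u : ℝ), 1)
      continuous_toFun := by fun_prop
      source' := by simp
      target' := by simp }
  have h := (SimplyConnectedSpace.paths_homotopic P (A.trans (B.trans C.symm))).map K
  refine G4_cast ?_ ?_ h
  · intro t
    exact (h0 t).symm
  · intro t
    have e : ((A.trans (B.trans C.symm)).map K.continuous) t = K ((A.trans (B.trans C.symm)) t) := rfl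
    rw [e, Path.trans_apply, Path.trans_apply]
    split_ifs with h2
    · exact (hb0 _).symm
    · rw [Path.trans_apply, Path.trans_apply]
      split_ifs with h3
      · exact (h1 _).symm
      · exact (hb1 _).symm

/-- points of the slice -/
theorem G4_sl {q : ℕ} (hq : Odd q) {ζ φ : ℝ} (h0 : 0 < ζ) (h2 : ζ ^ 2 < 2)
    (hφ : |φ| ≤ Real.pi / 2) (hne : ζ ≠ 1 ∨ φ ≠ 0) :
    OnS (Sl ζ φ) ∧ (Sl ζ φ).1 ^ q ≠ (Sl ζ φ).2 ^ 2 := by
  have hq0 : q ≠ 0 := by
    rintro rfl
    exact absurd hq (by decide)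
  have hs : 0 ≤ 2 - ζ ^ 2 := by linarith
  have n1 : ‖(Sl ζ φ).1‖ = ζ := by
    show ‖(ζ : ℂ)‖ = ζ
    rw [Complex.norm_real, Real.norm_of_nonneg h0.le]
  have n2 : ‖(Sl ζ φ).2‖ = Real.sqrt (2 - ζ ^ 2) := by
    show ‖(Real.sqrt (2 - ζ ^ 2) : ℂ) * Complex.exp (φ * Complex.I)‖ = _
    rw [norm_mul, Complex.norm_exp_ofReal_mul_I, mul_one, Complex.norm_real,
      Real.norm_of_nonneg (Real.sqrt_nonneg _)]
  constructor
  · show ‖(Sl ζ φ).1‖ ^ 2 + ‖(Sl ζ φ).2‖ ^ 2 = 2
    rw [n1, n2, Real.sq_sqrt hs]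
    ring
  · intro e
    have e1 : ζ ^ q = 2 - ζ ^ 2 := by
      have h3 := congrArg norm e
      rw [norm_pow, norm_pow, n1, n2, Real.sq_sqrt hs] at h3
      exact h3
    have h1 : ζ = 1 := by
      rcases lt_trichotomy ζ 1 with h | h | h
      · have h3 := pow_lt_one₀ h0.le h hq0
        nlinarith
      · exact h
      · have h3 := one_lt_pow₀ h hq0
        nlinarith
    rcases hne with hne | hne
    · exact hne h1
    · subst h1
      have e2 : (Sl 1 φ).2 = Complex.exp (φ * Complex.I) := by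
        show (Real.sqrt (2 - 1 ^ 2) : ℂ) * Complex.exp (φ * Complex.I) = _
        norm_num
      have e3 : (Sl 1 φ).1 = 1 := by
        show ((1 : ℝ) : ℂ) = 1
        norm_num
      rw [e2, e3, one_pow, ← Complex.exp_nat_mul] at e
      have e4 : (((2 : ℕ) : ℂ) * (φ * Complex.I)) = ((2 * φ : ℝ) : ℂ) * Complex.I := by
        push_cast
        ring
      rw [e4] at e
      have e5 := congrArg Complex.re e
      rw [Complex.exp_ofReal_mul_I_re, Complex.one_re] at e5
      have hpi := Real.pi_pos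
      rw [abs_le] at hφ
      have e6 := (Real.cos_eq_one_iff_of_lt_of_lt (x := 2 * φ) (by linarith) (by linarith)).1 e5.symm
      exact hne (by linarith)

theorem G4_slc {A : Type*} [TopologicalSpace A] {ζ φ : A → ℝ} (h1 : Continuous ζ)
    (h2 : Continuous φ) : Continuous fun a => Sl (ζ a) (φ a) := by
  unfold Sl
  fun_prop

/-- the clamp -/
noncomputable def G4_cl (s : ℝ) : ℝ := max 0 (min 1 s)

theorem G4_cl_mem (s : ℝ) : 0 ≤ G4_cl s ∧ G4_cl s ≤ 1 :=
  ⟨le_max_left _ _, max_le zero_le_one (min_le_left _ _)⟩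

theorem G4_cl_zero : G4_cl 0 = 0 := by unfold G4_cl; norm_num

theorem G4_cl_one : G4_cl 1 = 1 := by unfold G4_cl; norm_num

noncomputable def G4_X (η s : ℝ) : ℝ := 1 / 4 + G4_cl s * (η - 1 / 4)

noncomputable def G4_Y (η s : ℝ) : ℝ := Real.pi / 2 + G4_cl s * (η - Real.pi / 2)

theorem G4_X_mem {η : ℝ} (h0 : 0 < η) (h1 : η < 1 / 4) (s : ℝ) :
    η ≤ G4_X η s ∧ G4_X η s ≤ 1 / 4 := by
  obtain ⟨h2, h3⟩ := G4_cl_mem s
  unfold G4_X
  constructor <;> nlinarith

theorem G4_Y_mem {η : ℝ} (h0 : 0 < η) (h1 : η < 1 / 4) (s : ℝ) :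
    η ≤ G4_Y η s ∧ G4_Y η s ≤ Real.pi / 2 := by
  obtain ⟨h2, h3⟩ := G4_cl_mem s
  have := Real.pi_gt_three
  unfold G4_Y
  constructor <;> nlinarith

theorem G4_K_mem {q : ℕ} (hq : Odd q) {η : ℝ} (h0 : 0 < η) (h1 : η < 1 / 4) (p : ℝ × ℝ) :
    OnS (Sl (1 - G4_X η p.1 * Real.sin (2 * Real.pi * p.2))
      (G4_Y η p.1 * Real.cos (2 * Real.pi * p.2))) ∧
    (Sl (1 - G4_X η p.1 * Real.sin (2 * Real.pi * p.2))
      (G4_Y η p.1 * Real.cos (2 * Real.pi * p.2))).1 ^ q ≠
    (Sl (1 - G4_X η p.1 * Real.sin (2 * Real.pi * p.2))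
      (G4_Y η p.1 * Real.cos (2 * Real.pi * p.2))).2 ^ 2 := by
  obtain ⟨a1, a2⟩ := G4_X_mem h0 h1 p.1
  obtain ⟨b1, b2⟩ := G4_Y_mem h0 h1 p.1
  set x := G4_X η p.1
  set y := G4_Y η p.1
  have s1 := Real.sin_le_one (2 * Real.pi * p.2)
  have s2 := Real.neg_one_le_sin (2 * Real.pi * p.2)
  have c1 := Real.cos_le_one (2 * Real.pi * p.2)
  have c2 := Real.neg_one_le_cos (2 * Real.pi * p.2)
  have hsc := Real.sin_sq_add_cos_sq (2 * Real.pi * p.2)
  set sn := Real.sin (2 * Real.pi * p.2)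
  set cs := Real.cos (2 * Real.pi * p.2)
  have hx : 0 < x := lt_of_lt_of_le h0 a1
  have hy : 0 < y := lt_of_lt_of_le h0 b1
  have l1 : x * sn ≤ 1 / 4 := by nlinarith
  have l2 : -(1 / 4) ≤ x * sn := by nlinarith
  apply G4_sl hq
  · linarith
  · nlinarith
  · rw [abs_mul, abs_of_pos hy]
    have : |cs| ≤ 1 := abs_le.2 ⟨c2, c1⟩
    nlinarith [abs_nonneg cs]
  · by_contra hcon
    push Not at hcon
    obtain ⟨e1, e2⟩ := hcon
    have e3 : x * sn = 0 := by linarith
    have e4 : sn = 0 := by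
      rcases mul_eq_zero.1 e3 with h | h
      · exact absurd h hx.ne'
      · exact h
    have e5 : cs = 0 := by
      rcases mul_eq_zero.1 e2 with h | h
      · exact absurd h hy.ne'
      · exact h
    rw [e4, e5] at hsc
    norm_num at hsc

/-- the family of loops in the slice -/
noncomputable def G4_K {q : ℕ} (hq : Odd q) {η : ℝ} (h0 : 0 < η) (h1 : η < 1 / 4) :
    C(ℝ × ℝ, YS q) :=
  ⟨fun p => ⟨_, G4_K_mem hq h0 h1 p⟩, by
    refine (G4_slc ?_ ?_).subtype_mk _
    · unfold G4_X G4_cl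
      fun_prop
    · unfold G4_Y G4_cl
      fun_prop⟩

theorem G4_K_val {q : ℕ} (hq : Odd q) {η : ℝ} (h0 : 0 < η) (h1 : η < 1 / 4) (s t : ℝ) :
    (G4_K hq h0 h1 (s, t)).1 = Sl (1 - G4_X η s * Real.sin (2 * Real.pi * t))
      (G4_Y η s * Real.cos (2 * Real.pi * t)) := rfl

theorem G4_K_one {q : ℕ} (hq : Odd q) {η : ℝ} (h0 : 0 < η) (h1 : η < 1 / 4) (s : ℝ) :
    G4_K hq h0 h1 (s, 1) = G4_K hq h0 h1 (s, 0) := by
  apply Subtype.ext
  rw [G4_K_val, G4_K_val]
  simp

theorem G4_K_zero {q : ℕ} (hq : Odd q) {η : ℝ} (h0 : 0 < η) (h1 : η < 1 / 4) (t : ℝ) :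
    (G4_K hq h0 h1 (0, t)).1 = Sl (mz t) (mphi t) := by
  rw [G4_K_val]
  unfold G4_X G4_Y mz mphi
  rw [G4_cl_zero]
  congr 1 <;> ring

theorem G4_K_base {q : ℕ} (hq : Odd q) {η : ℝ} (h0 : 0 < η) (h1 : η < 1 / 4) :
    G4_K hq h0 h1 (0, 0) = y0 q := by
  apply Subtype.ext
  rw [G4_K_zero]
  unfold mz mphi Sl y0
  have e : Complex.exp (((Real.pi / 2 * Real.cos (2 * Real.pi * 0) : ℝ) : ℂ) * Complex.I) =
      Complex.I := by
    simp only [mul_zero, Real.cos_zero, mul_one]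
    push_cast
    exact Complex.exp_pi_div_two_mul_I
  rw [e]
  simp
  norm_num

/-- the inverse of `HM` -/
noncomputable def G4_HI {q : ℕ} {c : ℝ → V} {H : V → ℂ × ℂ} {Hi : ℂ × ℂ → V}
    (h : TorM q c H Hi) : C(YS q, MV c) :=
  ⟨fun y => ⟨Hi y.1, fun e => y.2.2 (by
    have hne : y.1 ≠ (1, 1) := by
      intro e'
      apply y.2.2
      rw [e']
      simp
    have := (h.iff _).1 e
    rwa [h.right y.1 y.2.1 hne] at this)⟩, by
    refine Continuous.subtype_mk ?_ _
    refine h.contHi.comp_continuous continuous_subtype_val ?_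
    intro y
    refine ⟨y.2.1, ?_⟩
    intro e'
    apply y.2.2
    rw [e']
    simp⟩

theorem G4_HM_HI {q : ℕ} {c : ℝ → V} {H : V → ℂ × ℂ} {Hi : ℂ × ℂ → V}
    (h : TorM q c H Hi) (y : YS q) : HM h (G4_HI h y) = y := by
  apply Subtype.ext
  show H (Hi y.1) = y.1
  apply h.right _ y.2.1
  intro e'
  apply y.2.2
  rw [e']
  simp

/-- the far region -/
def G4_R (x : V) : Prop := 1 < ‖x.2‖ ∨ (1 < |x.1| ∧ x.2 ≠ 0)

theorem G4_far {q : ℕ} {c : ℝ → V} {H : V → ℂ × ℂ} {Hi : ℂ × ℂ → V}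
    (h : TorM q c H Hi) : ∃ η : ℝ, 0 < η ∧ η < 1 / 4 ∧
      ∀ y : YS q, ‖y.1 - (1, 1)‖ ≤ 8 * η → G4_R (G4_HI h y).1 := by
  have hK : IsCompact (Metric.closedBall (0 : V) 1) := isCompact_closedBall _ _
  have hne : (Metric.closedBall (0 : V) 1).Nonempty := ⟨0, by simp⟩
  obtain ⟨x₀, hx₀, hmin⟩ := hK.exists_isMinOn hne
    (f := fun x => ‖H x - (1, 1)‖) (by
      have := h.contH
      fun_prop)
  have hpos : 0 < ‖H x₀ - (1, 1)‖ := by
    rw [norm_pos_iff, sub_ne_zero]
    exact (h.mem x₀).2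
  refine ⟨min (1 / 8) (‖H x₀ - (1, 1)‖ / 16), by positivity,
    lt_of_le_of_lt (min_le_left _ _) (by norm_num), ?_⟩
  intro y hy
  have h1 : ‖y.1 - (1, 1)‖ < ‖H x₀ - (1, 1)‖ := by
    have := min_le_right (1 / 8) (‖H x₀ - (1, 1)‖ / 16)
    linarith
  have h2 : (G4_HI h y).1 ∉ Metric.closedBall (0 : V) 1 := by
    intro hm
    have h3 : ‖H x₀ - (1, 1)‖ ≤ ‖H (G4_HI h y).1 - (1, 1)‖ := hmin hm
    have h4 : H (G4_HI h y).1 = y.1 := congrArg Subtype.val (G4_HM_HI h y)
    rw [h4] at h3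
    linarith
  rw [mem_closedBall_zero_iff, Prod.norm_def, sup_le_iff, not_and_or, not_le, not_le] at h2
  by_cases h5 : 1 < ‖(G4_HI h y).1.2‖
  · exact Or.inl h5
  · right
    have h6 : 1 < ‖(G4_HI h y).1.1‖ := h2.resolve_right h5
    rw [Real.norm_eq_abs] at h6
    refine ⟨h6, ?_⟩
    intro h7
    apply (G4_HI h y).2
    refine ⟨(G4_HI h y).1.1, ?_⟩
    rw [h.knot.standard _ h6.le]
    exact Prod.ext rfl h7.symm

theorem G4_near {ζ φ η : ℝ} (h0 : 0 < η) (h1 : η < 1 / 4) (hζ : |ζ - 1| ≤ η) (hφ : |φ| ≤ η) :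
    ‖Sl ζ φ - (1, 1)‖ ≤ 8 * η := by
  rw [abs_le] at hζ
  have h2 : 0 ≤ 2 - ζ ^ 2 := by nlinarith
  have e1 : (Sl ζ φ - (1, 1)).1 = ((ζ - 1 : ℝ) : ℂ) := by
    show (ζ : ℂ) - 1 = _
    push_cast
    ring
  have e2 : (Sl ζ φ - (1, 1)).2 = (Real.sqrt (2 - ζ ^ 2) : ℂ) * (Complex.exp (Complex.I * φ) - 1) +
      ((Real.sqrt (2 - ζ ^ 2) - 1 : ℝ) : ℂ) := by
    show (Real.sqrt (2 - ζ ^ 2) : ℂ) * Complex.exp (φ * Complex.I) - 1 = _
    push_cast
    rw [mul_comm (φ : ℂ) Complex.I]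
    ring
  have h3 : Real.sqrt (2 - ζ ^ 2) ≤ 2 := by
    rw [Real.sqrt_le_left (by norm_num)]
    nlinarith
  have h4 : |Real.sqrt (2 - ζ ^ 2) - 1| ≤ 3 * η := by
    have h5 : (Real.sqrt (2 - ζ ^ 2) - 1) * (Real.sqrt (2 - ζ ^ 2) + 1) = 1 - ζ ^ 2 := by
      have := Real.sq_sqrt h2
      nlinarith
    have h6 : 0 ≤ Real.sqrt (2 - ζ ^ 2) := Real.sqrt_nonneg _
    have h7 : |Real.sqrt (2 - ζ ^ 2) - 1| * (Real.sqrt (2 - ζ ^ 2) + 1) = |1 - ζ ^ 2| := by
      rw [← h5, abs_mul, abs_of_pos (by linarith : 0 < Real.sqrt (2 - ζ ^ 2) + 1)]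
    have h8 : |1 - ζ ^ 2| ≤ 3 * η := by
      rw [abs_le]
      constructor <;> nlinarith
    have h9 := abs_nonneg (Real.sqrt (2 - ζ ^ 2) - 1)
    nlinarith
  rw [Prod.norm_def, sup_le_iff, e1, e2]
  constructor
  · rw [Complex.norm_real, Real.norm_eq_abs, abs_le]
    constructor <;> linarith
  · refine (norm_add_le _ _).trans ?_
    rw [norm_mul, Complex.norm_real, Complex.norm_real, Real.norm_eq_abs, Real.norm_eq_abs,
      abs_of_nonneg (Real.sqrt_nonneg _)]
    have h5 : ‖Complex.exp (Complex.I * φ) - 1‖ ≤ |φ| := by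
      have := Real.norm_exp_I_mul_ofReal_sub_one_le (x := φ)
      rwa [Real.norm_eq_abs] at this
    have h6 := norm_nonneg (Complex.exp (Complex.I * φ) - 1)
    have h7 := Real.sqrt_nonneg (2 - ζ ^ 2)
    nlinarith

theorem G4_R_P {s ρ θ : ℝ} (h0 : 0 ≤ ρ) (h : 1 < ρ ∨ (1 < |s| ∧ 0 < ρ)) : G4_R (FA_P s ρ θ) := by
  have h1 := FA_norm s ρ θ h0
  rcases h with h | h
  · left
    rw [h1]
    exact h
  · right
    refine ⟨h.1, ?_⟩
    rw [← norm_pos_iff, h1]
    exact h.2

theorem G4_join (x : V) (hx : G4_R x) : JoinedIn {x : V | G4_R x} xb x := by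
  set ρ : ℝ := ‖x.2‖ with hρ
  have hρ0 : 0 < ρ := by
    rcases hx with h | h
    · rw [hρ]
      linarith
    · exact norm_pos_iff.2 h.2
  set θ : ℝ := Complex.arg x.2 / (2 * Real.pi) with hθ
  have hxP : FA_P x.1 ρ θ = x := by
    unfold FA_P
    have h1 : (2 * Real.pi * θ * Complex.I : ℂ) = (Complex.arg x.2 : ℂ) * Complex.I := by
      have : (Real.pi : ℂ) ≠ 0 := by exact_mod_cast Real.pi_ne_zero
      rw [hθ]
      push_cast
      field_simp
    rw [h1, hρ, Complex.norm_mul_exp_arg_mul_I]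
  have hR : 1 < ρ ∨ (1 < |x.1| ∧ 0 < ρ) := by
    rcases hx with h | h
    · exact Or.inl h
    · exact Or.inr ⟨h.1, hρ0⟩
  have j1 : JoinedIn {x : V | G4_R x} xb (FA_P x.1 (max ρ (3 / 2)) θ) := by
    refine JoinedIn.ofLine (f := fun v : ℝ => FA_P (-2 + v * (x.1 + 2))
      (3 / 2 + v * (max ρ (3 / 2) - 3 / 2)) (v * θ)) ?_ ?_ ?_ ?_
    · exact (FA_Pcont (by fun_prop) (by fun_prop) (by fun_prop)).continuousOn
    · simp only [zero_mul, add_zero]
      exact FA_base
    · simp only [one_mul]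
      congr 1 <;> ring
    · rintro _ ⟨v, hv, rfl⟩
      have h3 : 3 / 2 ≤ max ρ (3 / 2) := le_max_right _ _
      have h4 : 0 ≤ v * (max ρ (3 / 2) - 3 / 2) := mul_nonneg hv.1 (by linarith)
      exact G4_R_P (by linarith) (Or.inl (by linarith))
  have j2 : JoinedIn {x : V | G4_R x} (FA_P x.1 (max ρ (3 / 2)) θ) x := by
    refine JoinedIn.ofLine (f := fun v : ℝ => FA_P x.1
      ((1 - v) * max ρ (3 / 2) + v * ρ) θ) ?_ ?_ ?_ ?_
    · exact (FA_Pcont (by fun_prop) (by fun_prop) (by fun_prop)).continuousOn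
    · simp only [zero_mul, add_zero, sub_zero, one_mul]
    · simp only [sub_self, zero_mul, zero_add, one_mul]
      exact hxP
    · rintro _ ⟨v, hv, rfl⟩
      have h3 : ρ ≤ max ρ (3 / 2) := le_max_left _ _
      have h4 : ρ ≤ (1 - v) * max ρ (3 / 2) + v * ρ := by
        nlinarith [hv.1, hv.2]
      refine G4_R_P (by linarith) ?_
      rcases hR with h | h
      · exact Or.inl (by linarith)
      · exact Or.inr ⟨h.1, by linarith⟩
  exact j1.trans j2

theorem G4_avoid {c : ℝ → V} (hc : VKnot c) {x : V} (hx : G4_R x) : x ∉ range c := by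
  rintro ⟨t, rfl⟩
  by_cases h1 : |t| ≤ 1
  · have h2 := hc.inBall t h1
    rcases hx with h | h
    · nlinarith [sq_nonneg (c t).1]
    · have := sq_abs (c t).1
      nlinarith [sq_nonneg ‖(c t).2‖, h.1]
  · have h2 := hc.standard t (le_of_lt (not_le.1 h1))
    rw [h2] at hx
    rcases hx with h | h
    · simp at h
      linarith
    · exact h.2 rfl

theorem G4_trans {X : Type*} [TopologicalSpace X] {x y z : X} (p : Path x y) (q : Path y z)
    (S : X → Prop) (hp : ∀ u, S (p u)) (hq : ∀ u, S (q u)) (u : I) : S ((p.trans q) u) := by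
  rw [Path.trans_apply]
  split_ifs
  · exact hp _
  · exact hq _

theorem G4_alg {X : Type*} [TopologicalSpace X] {x y z : X} (t : Path x y) (s : Path z y)
    (m : Path y y) :
    cls ((t.trans s.symm).trans ((s.trans (m.trans s.symm)).trans (t.trans s.symm).symm)) =
      cls (t.trans (m.trans t.symm)) := by
  apply Path.Homotopic.Quotient.eq.2
  apply Path.Homotopic.Quotient.eq.1
  have k1 : ∀ {a b d : X} (γ : Path.Homotopic.Quotient a b) (δ : Path.Homotopic.Quotient a d),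
      γ.trans (γ.symm.trans δ) = δ := by
    intro a b d γ δ
    rw [← Path.Homotopic.Quotient.trans_assoc, Path.Homotopic.Quotient.trans_symm,
      Path.Homotopic.Quotient.refl_trans]
  have k1' : ∀ {a b d : X} (γ : Path.Homotopic.Quotient a b) (δ : Path.Homotopic.Quotient b d),
      γ.symm.trans (γ.trans δ) = δ := by
    intro a b d γ δ
    rw [← Path.Homotopic.Quotient.trans_assoc, Path.Homotopic.Quotient.symm_trans,
      Path.Homotopic.Quotient.refl_trans]
  rw [Path.trans_symm, Path.symm_symm]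
  simp only [Path.Homotopic.Quotient.mk_trans, Path.Homotopic.Quotient.mk_symm,
    Path.Homotopic.Quotient.trans_assoc]
  rw [k1', k1']

/-- conjugation of the image of a loop -/
noncomputable def G4_T {X Y : Type*} [TopologicalSpace X] [TopologicalSpace Y] (f : C(X, Y))
    {x : X} {y : Y} (τ : Path y (f x)) : FundamentalGroup X x →* FundamentalGroup Y y :=
  (FundamentalGroup.fundamentalGroupMulEquivOfPath τ.symm).toMonoidHom.comp
    (FundamentalGroup.map f x)

theorem G4_T_cls {X Y : Type*} [TopologicalSpace X] [TopologicalSpace Y] (f : C(X, Y))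
    {x : X} {y : Y} (τ : Path y (f x)) (p : Path x x) :
    G4_T f τ (cls p) = cls (τ.trans ((p.map f.continuous).trans τ.symm)) := by
  have e : G4_T f τ (cls p) = cls (τ.symm.symm.trans ((p.map f.continuous).trans τ.symm)) := rfl
  rw [e, Path.symm_symm]

theorem G4 {q : ℕ} (hq : Odd q) {c : ℝ → V} {H : V → ℂ × ℂ} {Hi : ℂ × ℂ → V}
    (h : TorM q c H Hi) : ∃ (τ : Path (y0 q) (HM h (xM h.knot))) (e : ℤ), (e = 1 ∨ e = -1) ∧
    ∀ (mer : Path (xM h.knot) (xM h.knot)) (m : Path (y0 q) (y0 q)), IsMer h.knot mer → IsM q m →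
      cls (τ.trans ((mer.map (HM h).continuous).trans τ.symm)) = cls m ^ e := by
  obtain ⟨η, hη0, hη1, hfar⟩ := G4_far h
  let K := G4_K hq hη0 hη1
  let b2 : MV c := G4_HI h (K (1, 0))
  have hb2 : HM h b2 = K (1, 0) := G4_HM_HI h _
  -- the points of the small loop are far
  have hK1 : ∀ t : ℝ, G4_R (G4_HI h (K (1, t))).1 := by
    intro t
    apply hfar
    show ‖Sl (1 - G4_X η 1 * Real.sin (2 * Real.pi * t))
      (G4_Y η 1 * Real.cos (2 * Real.pi * t)) - (1, 1)‖ ≤ 8 * η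
    have e1 : G4_X η 1 = η := by unfold G4_X; rw [G4_cl_one]; ring
    have e2 : G4_Y η 1 = η := by unfold G4_Y; rw [G4_cl_one]; ring
    rw [e1, e2]
    apply G4_near hη0 hη1
    · have e3 : 1 - η * Real.sin (2 * Real.pi * t) - 1 = -(η * Real.sin (2 * Real.pi * t)) := by ring
      rw [e3, abs_neg, abs_mul, abs_of_pos hη0]
      have := Real.abs_sin_le_one (2 * Real.pi * t)
      nlinarith
    · rw [abs_mul, abs_of_pos hη0]
      have := Real.abs_cos_le_one (2 * Real.pi * t)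
      nlinarith
  -- the path in the far region
  have hJ := G4_join b2.1 (hK1 0)
  let sg : Path (xM h.knot) b2 :=
    { toFun := fun u => ⟨hJ.somePath u, G4_avoid h.knot (hJ.somePath_mem u)⟩
      continuous_toFun := hJ.somePath.continuous.subtype_mk _
      source' := Subtype.ext hJ.somePath.source
      target' := Subtype.ext hJ.somePath.target }
  have hsgR : ∀ u, G4_R (sg u).1 := fun u => hJ.somePath_mem u
  -- the small loop
  let m2 : Path b2 b2 :=
    { toFun := fun u => G4_HI h (K (1, (u : ℝ)))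
      continuous_toFun := (G4_HI h).continuous.comp (K.continuous.comp (by fun_prop))
      source' := by simp [b2]
      target' := by
        show G4_HI h (K (1, ((1 : I) : ℝ))) = b2
        rw [Icc.coe_one]
        show G4_HI h (K (1, 1)) = G4_HI h (K (1, 0))
        rw [show K (1, 1) = K (1, 0) from G4_K_one hq hη0 hη1 1] }
  have hm2R : ∀ u, G4_R (m2 u).1 := fun u => hK1 u
  let γ : Path (xM h.knot) (xM h.knot) := sg.trans (m2.trans sg.symm)
  have hγR : ∀ u, G4_R (γ u).1 := by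
    refine G4_trans _ _ (fun z : MV c => G4_R z.1) hsgR ?_
    refine G4_trans _ _ (fun z : MV c => G4_R z.1) hm2R ?_
    intro u
    rw [Path.symm_apply]
    exact hsgR _
  -- the angle
  have hg : Continuous fun u : I => (γ u).1.2 :=
    continuous_snd.comp (continuous_subtype_val.comp γ.continuous)
  have hg0 : (γ 0).1.2 = ((3 / 2 : ℝ) : ℂ) := by
    rw [γ.source]
    show (3 / 2 : ℂ) = _
    push_cast
    ring
  have hg1 : (γ 1).1.2 = ((3 / 2 : ℝ) : ℂ) := by
    rw [γ.target]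
    show (3 / 2 : ℂ) = _
    push_cast
    ring
  obtain ⟨θ, hθ0, hθ⟩ := FB (fun u => (γ u).1.2) hg (by
    intro u
    rcases hγR u with h1 | h1
    · rw [← norm_pos_iff]
      linarith
    · exact h1.2) ⟨3 / 2, by norm_num, hg0⟩
  obtain ⟨n, hn⟩ : ∃ n : ℤ, θ 1 = n := by
    have h1 := hθ 1
    simp only [hg1] at h1
    rw [Complex.norm_real, Real.norm_of_nonneg (by norm_num : (0 : ℝ) ≤ 3 / 2)] at h1
    have h2 : Complex.exp (2 * Real.pi * (θ 1) * Complex.I) = 1 := by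
      have h3 : (((3 / 2 : ℝ) : ℂ)) ≠ 0 := by norm_num
      have h4 : (((3 / 2 : ℝ) : ℂ)) * Complex.exp (2 * Real.pi * (θ 1) * Complex.I) =
          (((3 / 2 : ℝ) : ℂ)) * 1 := by rw [mul_one]; exact h1.symm
      exact mul_left_cancel₀ h3 h4
    rw [Complex.exp_eq_one_iff] at h2
    obtain ⟨n, hn⟩ := h2
    refine ⟨n, ?_⟩
    have h3 : (2 * Real.pi * Complex.I : ℂ) ≠ 0 := Complex.two_pi_I_ne_zero
    have h4 : (2 * Real.pi * Complex.I : ℂ) * (θ 1 : ℂ) = (2 * Real.pi * Complex.I : ℂ) * (n : ℂ) := by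
      linear_combination hn
    have h5 := mul_left_cancel₀ h3 h4
    exact_mod_cast h5
  have hFA : ∀ mer, IsMer h.knot mer → cls γ = cls mer ^ n := fun mer hmer =>
    FA h.knot γ hγR θ hθ hθ0 n hn mer hmer
  -- the path of the base points
  let τ1 : Path (y0 q) (HM h b2) :=
    { toFun := fun s => K ((s : ℝ), 0)
      continuous_toFun := K.continuous.comp (by fun_prop)
      source' := by
        rw [Icc.coe_zero]
        exact G4_K_base hq hη0 hη1
      target' := by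
        rw [Icc.coe_one]
        exact hb2.symm }
  let τ : Path (y0 q) (HM h (xM h.knot)) := τ1.trans (sg.map (HM h).continuous).symm
  have hmove : ∀ m : Path (y0 q) (y0 q), IsM q m →
      cls m = cls (τ1.trans ((m2.map (HM h).continuous).trans τ1.symm)) := by
    intro m hm
    apply Path.Homotopic.Quotient.eq.2
    refine G4_move K τ1 m _ (fun s => rfl) (fun s => G4_K_one hq hη0 hη1 s) ?_ ?_
    · intro u
      apply Subtype.ext
      rw [hm u]
      exact G4_K_zero hq hη0 hη1 u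
    · intro u
      exact (G4_HM_HI h _).symm
  have hΘγ : G4_T (HM h) τ (cls γ) = cls (τ1.trans ((m2.map (HM h).continuous).trans τ1.symm)) := by
    rw [G4_T_cls]
    have e : γ.map (HM h).continuous = (sg.map (HM h).continuous).trans
        ((m2.map (HM h).continuous).trans (sg.map (HM h).continuous).symm) := by
      show (sg.trans (m2.trans sg.symm)).map (HM h).continuous = _
      rw [Path.map_trans, Path.map_trans, Path.map_symm]
    rw [e]
    exact G4_alg τ1 (sg.map (HM h).continuous) (m2.map (HM h).continuous)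
  -- the abelianisation
  obtain ⟨α, β, -, -, hF, -, hmer⟩ := G2 q hq
  obtain ⟨F, hFα, hFβ⟩ := hF (Multiplicative ℤ) (Multiplicative.ofAdd 2) (Multiplicative.ofAdd (q : ℤ))
    (by
      rw [← ofAdd_nsmul, ← ofAdd_nsmul]
      congr 1
      simp only [nsmul_eq_mul]
      push_cast
      ring)
  have hFm : ∀ m : Path (y0 q) (y0 q), IsM q m → F (cls m) = Multiplicative.ofAdd (-1) := by
    intro m hm
    rw [hmer m hm, map_mul, map_inv, map_pow, hFα, hFβ, ← ofAdd_nsmul, ← ofAdd_neg, ← ofAdd_add]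
    congr 1
    obtain ⟨k, rfl⟩ := hq
    have : (2 * k + 1 + 1) / 2 = k + 1 := by omega
    rw [this]
    simp only [nsmul_eq_mul]
    push_cast
    ring
  -- existence of the meridians
  have hmer0 : IsMer h.knot (FA_pw h.knot 1) := by
    intro u
    show FA_P (-2) (3 / 2) (((1 : ℤ) : ℝ) * u) = merPt u
    unfold FA_P merPt
    push_cast
    rw [one_mul]
  let m0 : Path (y0 q) (y0 q) :=
    { toFun := fun u => K (0, (u : ℝ))
      continuous_toFun := K.continuous.comp (by fun_prop)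
      source' := by
        rw [Icc.coe_zero]
        exact G4_K_base hq hη0 hη1
      target' := by
        rw [Icc.coe_one]
        exact (G4_K_one hq hη0 hη1 0).trans (G4_K_base hq hη0 hη1) }
  have hm0 : IsM q m0 := fun u => G4_K_zero hq hη0 hη1 u
  have hkey : ∀ (mer : Path (xM h.knot) (xM h.knot)) (m : Path (y0 q) (y0 q)),
      IsMer h.knot mer → IsM q m → G4_T (HM h) τ (cls mer) ^ n = cls m := by
    intro mer m h1 h2
    rw [← map_zpow, ← hFA mer h1, hΘγ, ← hmove m h2]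
  have hn1 : n = 1 ∨ n = -1 := by
    have h1 := congrArg F (hkey _ _ hmer0 hm0)
    rw [map_zpow, hFm m0 hm0] at h1
    have h2 := congrArg Multiplicative.toAdd h1
    rw [toAdd_zpow, toAdd_ofAdd, smul_eq_mul] at h2
    have h3 : IsUnit n := by
      refine IsUnit.of_mul_eq_one (-(Multiplicative.toAdd (F (G4_T (HM h) τ (cls (FA_pw h.knot 1)))))) ?_
      linarith
    exact Int.isUnit_iff.1 h3
  refine ⟨τ, n, hn1, ?_⟩
  intro mer m h1 h2
  rw [← hkey mer m h1 h2]
  show cls (τ.trans ((mer.map (HM h).continuous).trans τ.symm)) = _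
  rw [← G4_T_cls]
  rcases hn1 with e | e
  · rw [e]
    simp
  · rw [e]
    simp

end LQ
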