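import Pool.Agent.H64.LQ.G1d
import Pool.Agent.H64.LQ.G2
import Pool.Agent.H64.LQ.G3
import Pool.Agent.H64.LQ.G4

/-!
# GK: the group of the long torus knot

`c, H, Hi` from G1d (`TorM`). `Θ (cls γ) = cls (τ · H∘γ · τ⁻¹)` with `τ` from G4 is an isomorphism `PiM hc ≃* π₁(YS q, y0)`: `HM h` is a homeomorphism `MV c ≃ YS q` (inverse `Hi`: `YS q` does not contain
`(1,1)`; continuity by contHi, `right`, `left`, `iff`), followed by the change of base point. Let `α0, β0` be the generators of G2 and `m0 = cls m` (a loop `m` with IsM exists: `Sl (mz t) (mphi t)` is in `YS q`),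
`m0 = β0 α0^{-(q+1)/2}`; `Θ (cls mer) = m0^e`, `e = ±1`.
If `e = -1`: put `α = Θ⁻¹ α0`, `β = Θ⁻¹ β0`: `α^{(q+1)/2} β⁻¹ = Θ⁻¹ (m0⁻¹) = cls mer`. If `e = 1`: put `α = Θ⁻¹ (β0 α0⁻¹ β0⁻¹)`, `β = Θ⁻¹ (β0⁻¹)`: `α^{(q+1)/2} β⁻¹ = Θ⁻¹ (β0 α0^{-(q+1)/2} β0⁻¹ β0) = Θ⁻¹ m0 = cls mer`;
`α^q = Θ⁻¹ (β0 α0^{-q} β0⁻¹) = Θ⁻¹ (β0⁻²) = β²`; `{α, β}` generates; universal property: given `a^q = b²` take `F0` with `F0 α0 = b a⁻¹ b⁻¹`-type elements: we need `F α = a`, `F β = b`: `F0 β0 = b⁻¹`,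
`F0 α0 = b a⁻¹ b⁻¹`... check: `F0 (β0 α0⁻¹ β0⁻¹) = b⁻¹ (b a b⁻¹) b = a`, and `(b a⁻¹ b⁻¹)^q = b a^{-q} b⁻¹ = b^{-2} = (b⁻¹)²`, fine.
Longitude: the orbit loop `ω` of `H xb` in the complement of `c` (exists: `act q t (H xb)` stays in `YS q`). `Θ (cls ω) = cls (τ · orbit of H xb · τ⁻¹) = cls (orbit of y0) = α0^q` (action square
`(s, t) ↦ act q t (τ s)` in `YS q`), G2. So `α^q = (cls ω)^{±1}` (`e = -1`: `+`; `e = 1`: `Θ(α^q) = β0 α0^{-q} β0⁻¹ = α0^{-q}` as `α0^q = β0²` commutes with `β0`). By G3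
`cls ω = μ^{k1} ℓ^{e'} μ^{k2}`. Since `α^q = β²` is central (commutes with the generators), `ℓ^{e'} = μ^{-k1} (cls ω) μ^{-k2} = μ^{-k1-k2} cls ω`, so `ℓ = μ^k (α^q)^{e''}`, `e'' = ±1`.
-/

open scoped ContDiff unitInterval
open Topology Set

namespace LQ

open LK

theorem GK_ns {q : ℕ} (y : YS q) : OnS y.1 ∧ y.1 ≠ (1, 1) := by
  refine ⟨y.2.1, fun e => y.2.2 ?_⟩
  rw [e]
  simp

/-- the inverse of `HM` -/
noncomputable def GK_Hi {q : ℕ} {c : ℝ → V} {H : V → ℂ × ℂ} {Hi : ℂ × ℂ → V}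
    (h : TorM q c H Hi) : C(YS q, MV c) :=
  ⟨fun y => ⟨Hi y.1, fun hr => y.2.2 (by
    have h1 := (h.iff _).1 hr
    rw [h.right _ (GK_ns y).1 (GK_ns y).2] at h1
    exact h1)⟩,
    (ContinuousOn.comp_continuous h.contHi continuous_subtype_val
      (fun y => GK_ns y)).subtype_mk _⟩

theorem GK_l {q : ℕ} {c : ℝ → V} {H : V → ℂ × ℂ} {Hi : ℂ × ℂ → V} (h : TorM q c H Hi)
    (x : MV c) : GK_Hi h (HM h x) = x := Subtype.ext (h.left x.1)

theorem GK_r {q : ℕ} {c : ℝ → V} {H : V → ℂ × ℂ} {Hi : ℂ × ℂ → V} (h : TorM q c H Hi)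
    (y : YS q) : HM h (GK_Hi h y) = y := Subtype.ext (h.right _ (GK_ns y).1 (GK_ns y).2)

theorem GK_bij {q : ℕ} {c : ℝ → V} {H : V → ℂ × ℂ} {Hi : ℂ × ℂ → V} (h : TorM q c H Hi) :
    Function.Bijective (FundamentalGroup.map (HM h) (xM h.knot)) := by
  constructor
  · intro a b hab
    obtain ⟨p, rfl⟩ := T9_surj a
    obtain ⟨r, rfl⟩ := T9_surj b
    have h1 : cls (p.map (HM h).continuous) = cls (r.map (HM h).continuous) := hab
    obtain ⟨F⟩ := Path.Homotopic.Quotient.eq.1 h1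
    have hF0 : ∀ u, F (0, u) = HM h (p u) := fun u => F.map_zero_left u
    have hF1 : ∀ u, F (1, u) = HM h (r u) := fun u => F.map_one_left u
    refine MB_cls (MB_mk p r (fun t => (GK_Hi h (F t)).1) ?_ (fun t => (GK_Hi h (F t)).2)
      ?_ ?_ ?_ ?_)
    · exact continuous_subtype_val.comp ((GK_Hi h).continuous.comp F.continuous)
    · intro u
      show (GK_Hi h (F (0, u))).1 = (p u).1
      rw [hF0, GK_l]
    · intro u
      show (GK_Hi h (F (1, u))).1 = (r u).1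
      rw [hF1, GK_l]
    · intro t
      have h2 : F (t, 0) = HM h (xM h.knot) := F.source t
      show (GK_Hi h (F (t, 0))).1 = (xM h.knot).1
      rw [h2, GK_l]
    · intro t
      have h2 : F (t, 1) = HM h (xM h.knot) := F.target t
      show (GK_Hi h (F (t, 1))).1 = (xM h.knot).1
      rw [h2, GK_l]
  · intro b
    obtain ⟨s, rfl⟩ := T9_surj b
    refine ⟨cls { toFun := fun u => GK_Hi h (s u)
                  continuous_toFun := (GK_Hi h).continuous.comp s.continuous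
                  source' := ?_
                  target' := ?_ }, ?_⟩
    · show GK_Hi h (s 0) = _
      rw [s.source, GK_l]
    · show GK_Hi h (s 1) = _
      rw [s.target, GK_l]
    · have h3 : ∀ p : Path (xM h.knot) (xM h.knot), (∀ u, HM h (p u) = s u) →
          FundamentalGroup.map (HM h) (xM h.knot) (cls p) = cls s := by
        intro p hp
        have h4 : p.map (HM h).continuous = s := by
          apply Path.ext
          funext u
          exact hp u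
        show cls (p.map (HM h).continuous) = cls s
        rw [h4]
      exact h3 _ fun u => GK_r h (s u)

theorem GK_Th {q : ℕ} {c : ℝ → V} {H : V → ℂ × ℂ} {Hi : ℂ × ℂ → V} (h : TorM q c H Hi)
    (τ : Path (y0 q) (HM h (xM h.knot))) :
    ∃ Θ : PiM h.knot ≃* FundamentalGroup (YS q) (y0 q), ∀ γ : Path (xM h.knot) (xM h.knot),
      Θ (cls γ) = cls (τ.trans ((γ.map (HM h).continuous).trans τ.symm)) := by
  refine ⟨(MulEquiv.ofBijective _ (GK_bij h)).trans
    (FundamentalGroup.fundamentalGroupMulEquivOfPath τ.symm), fun γ => ?_⟩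
  have h1 : ((MulEquiv.ofBijective _ (GK_bij h)).trans
    (FundamentalGroup.fundamentalGroupMulEquivOfPath τ.symm)) (cls γ) =
      cls (τ.symm.symm.trans ((γ.map (HM h).continuous).trans τ.symm)) := rfl
  rw [h1, Path.symm_symm]

theorem GK_nexp (x : ℝ) : ‖Complex.exp (x * Complex.I)‖ = 1 := Complex.norm_exp_ofReal_mul_I x

theorem GK_Sl_on {ζ φ : ℝ} (h : ζ ^ 2 ≤ 2) : OnS (Sl ζ φ) := by
  unfold OnS Sl
  simp only
  rw [norm_mul, GK_nexp, mul_one, Complex.norm_real, Complex.norm_real, Real.norm_eq_abs,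
    Real.norm_eq_abs, sq_abs, sq_abs, Real.sq_sqrt (by linarith)]
  ring

theorem GK_Sl_ne {q : ℕ} {t : ℝ} : (Sl (mz t) (mphi t)).1 ^ q ≠ (Sl (mz t) (mphi t)).2 ^ 2 := by
  intro e
  have hs1 := Real.sin_le_one (2 * Real.pi * t)
  have hs2 := Real.neg_one_le_sin (2 * Real.pi * t)
  have hsc := Real.sin_sq_add_cos_sq (2 * Real.pi * t)
  have hc1 := Real.cos_le_one (2 * Real.pi * t)
  have hc2 := Real.neg_one_le_cos (2 * Real.pi * t)
  have hζ : mz t = 1 - Real.sin (2 * Real.pi * t) / 4 := rfl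
  have hφ : mphi t = Real.pi / 2 * Real.cos (2 * Real.pi * t) := rfl
  generalize Real.sin (2 * Real.pi * t) = s at *
  generalize Real.cos (2 * Real.pi * t) = c at *
  generalize mz t = ζ at *
  generalize mphi t = φ at *
  have hζ1 : 3 / 4 ≤ ζ := by rw [hζ]; linarith
  have hζ2 : ζ ≤ 5 / 4 := by rw [hζ]; linarith
  have hζ0 : 0 < ζ := by linarith
  have hζs : ζ ^ 2 ≤ 25 / 16 := by nlinarith
  have e1 : ((ζ ^ q : ℝ) : ℂ) = ((2 - ζ ^ 2 : ℝ) : ℂ) * Complex.exp ((2 * φ : ℝ) * Complex.I) := by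
    have e2 : (Sl ζ φ).1 ^ q = ((ζ ^ q : ℝ) : ℂ) := by
      show ((ζ : ℂ)) ^ q = _
      push_cast
      rfl
    have e3 : (Sl ζ φ).2 ^ 2 = ((2 - ζ ^ 2 : ℝ) : ℂ) * Complex.exp ((2 * φ : ℝ) * Complex.I) := by
      show ((Real.sqrt (2 - ζ ^ 2) : ℂ) * Complex.exp (φ * Complex.I)) ^ 2 = _
      rw [mul_pow, ← Complex.exp_nat_mul, ← Complex.ofReal_pow, Real.sq_sqrt (by linarith)]
      congr 2
      push_cast
      ring
    rw [← e2, ← e3, e]
  rw [Complex.exp_mul_I] at e1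
  have hre := congrArg Complex.re e1
  have him := congrArg Complex.im e1
  rw [← Complex.ofReal_cos, ← Complex.ofReal_sin] at hre him
  rw [Complex.re_ofReal_mul, Complex.ofReal_re] at hre
  rw [Complex.im_ofReal_mul, Complex.ofReal_im] at him
  have hre' : ζ ^ q = (2 - ζ ^ 2) * Real.cos (2 * φ) := by
    rw [hre]
    simp only [Complex.add_re, Complex.mul_re, Complex.ofReal_re, Complex.ofReal_im, Complex.I_re,
      Complex.I_im, mul_zero, mul_one, sub_zero, add_zero]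
  have him' : 0 = (2 - ζ ^ 2) * Real.sin (2 * φ) := by
    rw [him]
    simp only [Complex.add_im, Complex.mul_im, Complex.ofReal_re, Complex.ofReal_im, Complex.I_re,
      Complex.I_im, mul_zero, mul_one, add_zero, zero_add]
  have hp : 0 < 2 - ζ ^ 2 := by linarith
  have hsin : Real.sin (2 * φ) = 0 := by
    rcases mul_eq_zero.mp him'.symm with h | h
    · linarith
    · exact h
  have hcos0 : 0 < Real.cos (2 * φ) := by
    have h1 : 0 < ζ ^ q := pow_pos hζ0 q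
    rw [hre'] at h1
    exact (mul_pos_iff_of_pos_left hp).mp h1
  have hcos : Real.cos (2 * φ) = 1 := by
    have h1 := Real.sin_sq_add_cos_sq (2 * φ)
    rw [hsin] at h1
    nlinarith
  have hpi := Real.pi_pos
  have hφ0 : 2 * φ = 0 := by
    refine (Real.cos_eq_one_iff_of_lt_of_lt ?_ ?_).mp hcos
    · rw [hφ]
      nlinarith
    · rw [hφ]
      nlinarith
  have hc0 : c = 0 := by
    rw [hφ] at hφ0
    have h1 : Real.pi * c = 0 := by linarith
    rcases mul_eq_zero.mp h1 with h | h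
    · linarith
    · exact h
  rw [hcos, mul_one] at hre'
  rw [hc0] at hsc
  have hs3 : (s - 1) * (s + 1) = 0 := by nlinarith
  rcases mul_eq_zero.mp hs3 with h | h
  · have h1 : ζ = 3 / 4 := by rw [hζ]; linarith
    rw [h1] at hre'
    have h2 : ((3 : ℝ) / 4) ^ q ≤ 1 := pow_le_one₀ (by norm_num) (by norm_num)
    norm_num at hre'
    linarith
  · have h1 : ζ = 5 / 4 := by rw [hζ]; linarith
    rw [h1] at hre'
    have h2 : 1 ≤ ((5 : ℝ) / 4) ^ q := one_le_pow₀ (by norm_num)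
    norm_num at hre'
    linarith

theorem GK_mz_sq (t : ℝ) : mz t ^ 2 ≤ 2 := by
  have hs1 := Real.sin_le_one (2 * Real.pi * t)
  have hs2 := Real.neg_one_le_sin (2 * Real.pi * t)
  unfold mz
  nlinarith

theorem GK_Sl_base : Sl 1 (Real.pi / 2) = (1, Complex.I) := by
  unfold Sl
  refine Prod.ext ?_ ?_
  · simp
  · have h1 : (2 - (1 : ℝ) ^ 2) = 1 := by norm_num
    simp only [h1, Real.sqrt_one, Complex.ofReal_one, one_mul]
    push_cast
    exact Complex.exp_pi_div_two_mul_I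

theorem GK_m (q : ℕ) : ∃ m : Path (y0 q) (y0 q), IsM q m := by
  refine ⟨{ toFun := fun t => ⟨Sl (mz t) (mphi t), GK_Sl_on (GK_mz_sq t), GK_Sl_ne⟩
            continuous_toFun := ?_
            source' := ?_
            target' := ?_ }, fun t => rfl⟩
  · refine Continuous.subtype_mk ?_ _
    unfold Sl mz mphi
    fun_prop
  · apply Subtype.ext
    show Sl (mz ((0 : I) : ℝ)) (mphi ((0 : I) : ℝ)) = (1, Complex.I)
    rw [← GK_Sl_base]
    simp [mz, mphi]
  · apply Subtype.ext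
    show Sl (mz ((1 : I) : ℝ)) (mphi ((1 : I) : ℝ)) = (1, Complex.I)
    rw [← GK_Sl_base]
    simp [mz, mphi]

theorem GK_act_on (q : ℕ) (t : ℝ) {y : ℂ × ℂ} (h : OnS y ∧ y.1 ^ q ≠ y.2 ^ 2) :
    OnS (act q t y) ∧ (act q t y).1 ^ q ≠ (act q t y).2 ^ 2 := by
  have h1 : Complex.exp (2 * (2 * Real.pi * t) * Complex.I) =
      Complex.exp ((2 * (2 * Real.pi * t) : ℝ) * Complex.I) := by
    push_cast
    rfl
  have h2 : Complex.exp (q * (2 * Real.pi * t) * Complex.I) =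
      Complex.exp ((q * (2 * Real.pi * t) : ℝ) * Complex.I) := by
    push_cast
    rfl
  constructor
  · unfold OnS act
    simp only
    rw [norm_mul, norm_mul, h1, h2, GK_nexp, GK_nexp, one_mul, one_mul]
    exact h.1
  · intro e
    apply h.2
    unfold act at e
    simp only at e
    rw [mul_pow, mul_pow, ← Complex.exp_nat_mul, ← Complex.exp_nat_mul] at e
    have h3 : (q : ℂ) * (2 * (2 * Real.pi * t) * Complex.I) =
        ((2 : ℕ) : ℂ) * (q * (2 * Real.pi * t) * Complex.I) := by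
      push_cast
      ring
    rw [h3] at e
    exact mul_left_cancel₀ (Complex.exp_ne_zero _) e

/-- the action on the complement -/
@[irreducible] noncomputable def GK_A (q : ℕ) (t : ℝ) (y : YS q) : YS q :=
  ⟨act q t y.1, GK_act_on q t y.2⟩

theorem GK_A_val (q : ℕ) (t : ℝ) (y : YS q) : (GK_A q t y).1 = act q t y.1 := by
  unfold GK_A
  rfl

theorem GK_A_cont (q : ℕ) : Continuous fun p : ℝ × YS q => GK_A q p.1 p.2 := by
  unfold GK_A act
  refine Continuous.subtype_mk ?_ _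
  fun_prop

theorem GK_A_zero (q : ℕ) (y : YS q) : GK_A q 0 y = y := by
  apply Subtype.ext
  rw [GK_A_val]
  unfold act
  simp

theorem GK_A_one (q : ℕ) (y : YS q) : GK_A q 1 y = y := by
  apply Subtype.ext
  rw [GK_A_val]
  unfold act
  have h1 : Complex.exp (2 * (2 * Real.pi * (1 : ℝ)) * Complex.I) = 1 := by
    have := Complex.exp_int_mul_two_pi_mul_I 2
    rw [← this]
    congr 1
    push_cast
    ring
  have h2 : Complex.exp (q * (2 * Real.pi * (1 : ℝ)) * Complex.I) = 1 := by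
    have := Complex.exp_int_mul_two_pi_mul_I q
    rw [← this]
    congr 1
    push_cast
    ring
  rw [h1, h2, one_mul, one_mul]

theorem GK_A_cont1 (q : ℕ) (y : YS q) : Continuous fun t : I => GK_A q (t : ℝ) y := by
  have h1 : Continuous fun t : I => (((t : ℝ), y) : ℝ × YS q) :=
    continuous_subtype_val.prodMk continuous_const
  exact (GK_A_cont q).comp h1

/-- the orbit of a point -/
noncomputable def GK_orb (q : ℕ) (y : YS q) : Path y y where
  toFun t := GK_A q (t : ℝ) y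
  continuous_toFun := GK_A_cont1 q y
  source' := by
    show GK_A q ((0 : I) : ℝ) y = y
    rw [show ((0 : I) : ℝ) = 0 from rfl, GK_A_zero]
  target' := by
    show GK_A q ((1 : I) : ℝ) y = y
    rw [show ((1 : I) : ℝ) = 1 from rfl, GK_A_one]

theorem GK_orb_apply (q : ℕ) (y : YS q) (t : I) : GK_orb q y t = GK_A q (t : ℝ) y := rfl

/-- the orbit of `H xb` in the complement of `c` -/
noncomputable def GK_om {q : ℕ} {c : ℝ → V} {H : V → ℂ × ℂ} {Hi : ℂ × ℂ → V}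
    (h : TorM q c H Hi) : Path (xM h.knot) (xM h.knot) where
  toFun t := GK_Hi h (GK_A q (t : ℝ) (HM h (xM h.knot)))
  continuous_toFun := (GK_Hi h).continuous.comp (GK_A_cont1 q _)
  source' := by
    show GK_Hi h (GK_A q ((0 : I) : ℝ) (HM h (xM h.knot))) = _
    rw [show ((0 : I) : ℝ) = 0 from rfl, GK_A_zero, GK_l]
  target' := by
    show GK_Hi h (GK_A q ((1 : I) : ℝ) (HM h (xM h.knot))) = _
    rw [show ((1 : I) : ℝ) = 1 from rfl, GK_A_one, GK_l]

theorem GK_om_apply {q : ℕ} {c : ℝ → V} {H : V → ℂ × ℂ} {Hi : ℂ × ℂ → V}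
    (h : TorM q c H Hi) (t : I) :
    GK_om h t = GK_Hi h (GK_A q (t : ℝ) (HM h (xM h.knot))) := rfl

theorem GK_om_orb {q : ℕ} {c : ℝ → V} {H : V → ℂ × ℂ} {Hi : ℂ × ℂ → V}
    (h : TorM q c H Hi) : IsOrbM h (GK_om h) := fun t => by
  have h1 : HM h (GK_om h t) = GK_A q (t : ℝ) (HM h (xM h.knot)) := by
    rw [GK_om_apply, GK_r]
  have h2 := congrArg Subtype.val h1
  rw [GK_A_val] at h2
  exact h2

theorem GK_sq_gen {X : Type*} [TopologicalSpace X] {S : X → Prop} (f : ℝ × ℝ → {x : X // S x})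
    (hf : Continuous f) {a b : {x : X // S x}} (τ : Path a b) (ρ : Path b b) (δ : Path a a)
    (h1 : ∀ t : I, f ((t : ℝ), 0) = τ t) (h2 : ∀ t : I, f (1, (t : ℝ)) = ρ t)
    (h3 : ∀ t : I, f ((t : ℝ), 1) = τ t) (h4 : ∀ t : I, f (0, (t : ℝ)) = δ t) :
    cls (τ.trans (ρ.trans τ.symm)) = cls δ := by
  apply MB_cls
  obtain ⟨F⟩ : (MB_P1.trans (MB_P2.trans MB_P3.symm)).Homotopic MB_Q :=
    SimplyConnectedSpace.paths_homotopic _ _
  have hF0 : ∀ u, F (0, u) = (MB_P1.trans (MB_P2.trans MB_P3.symm)) u := fun u =>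
    F.map_zero_left u
  have hF1 : ∀ u, F (1, u) = MB_Q u := fun u => F.map_one_left u
  refine MB_mk _ _ (fun p => (f (F p)).1)
    (continuous_subtype_val.comp (hf.comp F.continuous)) (fun p => (f (F p)).2) ?_ ?_ ?_ ?_
  · intro u
    show (f (F (0, u))).1 = _
    rw [hF0]
    refine congrArg Subtype.val ?_
    refine MB_im f MB_P1 (MB_P2.trans MB_P3.symm) τ (ρ.trans τ.symm) (fun t => h1 t)
      (fun u => ?_) u
    refine MB_im f MB_P2 MB_P3.symm ρ τ.symm (fun t => h2 t) (fun t => ?_) u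
    rw [Path.symm_apply, Path.symm_apply]
    exact h3 _
  · intro u
    show (f (F (1, u))).1 = (δ u).1
    rw [hF1]
    exact congrArg Subtype.val (h4 u)
  · intro t
    have h5 : F (t, 0) = (0, 0) := F.source t
    show (f (F (t, 0))).1 = a.1
    rw [h5]
    have h6 := h1 0
    rw [τ.source] at h6
    exact congrArg Subtype.val h6
  · intro t
    have h5 : F (t, 1) = (0, 1) := F.target t
    show (f (F (t, 1))).1 = a.1
    rw [h5]
    have h6 := h3 0
    rw [τ.source] at h6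
    exact congrArg Subtype.val h6

theorem GK_sq {q : ℕ} {c : ℝ → V} {H : V → ℂ × ℂ} {Hi : ℂ × ℂ → V} (h : TorM q c H Hi)
    (τ : Path (y0 q) (HM h (xM h.knot))) :
    cls (τ.trans (((GK_om h).map (HM h).continuous).trans τ.symm)) = cls (GK_orb q (y0 q)) := by
  have hf : Continuous (fun p : ℝ × ℝ => GK_A q p.2 (τ.extend p.1)) := (GK_A_cont q).comp
    (continuous_snd.prodMk (τ.continuous_extend.comp continuous_fst))
  have e0 : τ.extend 0 = y0 q := τ.extend_zero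
  have e1 : τ.extend 1 = HM h (xM h.knot) := τ.extend_one
  have et : ∀ t : I, τ.extend (t : ℝ) = τ t := fun t => τ.extend_apply t.2
  refine GK_sq_gen _ hf τ _ _ ?_ ?_ ?_ ?_
  · intro t
    simp only
    rw [GK_A_zero, et]
  · intro t
    simp only
    rw [e1, Path.map_coe, Function.comp_apply, GK_om_apply, GK_r]
  · intro t
    simp only
    rw [GK_A_one, et]
  · intro t
    simp only
    rw [e0, GK_orb_apply]

theorem GK_grp {P Q : Type} [Group P] [Group Q] (Θ : P ≃* Q) (q k : ℕ) (α0 β0 : Q)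
    (hr : α0 ^ q = β0 ^ 2) (hg : Subgroup.closure {α0, β0} = ⊤)
    (hu : ∀ (Γ : Type) [Group Γ] (a b : Γ), a ^ q = b ^ 2 → ∃ F : Q →* Γ, F α0 = a ∧ F β0 = b)
    (μ w : P) (e : ℤ) (he : e = 1 ∨ e = -1) (hμ : Θ μ = (β0 * (α0 ^ k)⁻¹) ^ e)
    (hw : Θ w = α0 ^ q) :
    ∃ α β : P, α ^ q = β ^ 2 ∧ Subgroup.closure {α, β} = ⊤ ∧
      (∀ (Γ : Type) [Group Γ] (a b : Γ), a ^ q = b ^ 2 → ∃ F : P →* Γ, F α = a ∧ F β = b) ∧
      α ^ k * β⁻¹ = μ ∧ (α ^ q = w ∨ α ^ q = w⁻¹) := by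
  have hcom : β0 * α0 ^ q * β0⁻¹ = α0 ^ q := by
    rw [hr]
    group
  have hgen : ∀ α β : P, α0 ∈ Subgroup.closure {Θ α, Θ β} → β0 ∈ Subgroup.closure {Θ α, Θ β} →
      Subgroup.closure {α, β} = ⊤ := by
    intro α β h1 h2
    have h3 : Subgroup.closure {Θ α, Θ β} = ⊤ := by
      rw [eq_top_iff, ← hg, Subgroup.closure_le]
      rintro x (rfl | rfl)
      · exact h1
      · exact h2
    have h4 : (Subgroup.closure {α, β}).map Θ.toMonoidHom = ⊤ := by
      rw [MonoidHom.map_closure, Set.image_pair]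
      exact h3
    rw [eq_top_iff]
    intro x _
    have h5 : Θ x ∈ (Subgroup.closure {α, β}).map Θ.toMonoidHom := by
      rw [h4]
      exact Subgroup.mem_top _
    obtain ⟨y, hy, hxy⟩ := h5
    have h6 : y = x := Θ.injective hxy
    rwa [← h6]
  rcases he with rfl | rfl
  · refine ⟨Θ.symm (β0 * α0⁻¹ * β0⁻¹), Θ.symm β0⁻¹, ?_, ?_, ?_, ?_, ?_⟩
    · rw [← map_pow, ← map_pow, conj_pow, inv_pow, inv_pow, hr]
      congr 1
      group
    · apply hgen
      · rw [Θ.apply_symm_apply, Θ.apply_symm_apply]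
        have h1 : β0⁻¹ ∈ Subgroup.closure {β0 * α0⁻¹ * β0⁻¹, β0⁻¹} :=
          Subgroup.subset_closure (by simp)
        have h2 : β0 * α0⁻¹ * β0⁻¹ ∈ Subgroup.closure {β0 * α0⁻¹ * β0⁻¹, β0⁻¹} :=
          Subgroup.subset_closure (by simp)
        have h3 : β0⁻¹ * (β0 * α0⁻¹ * β0⁻¹)⁻¹ * (β0⁻¹)⁻¹ = α0 := by group
        have h4 := mul_mem (mul_mem h1 (inv_mem h2)) (inv_mem h1)
        rwa [h3] at h4
      · rw [Θ.apply_symm_apply, Θ.apply_symm_apply]
        have h1 : β0⁻¹ ∈ Subgroup.closure {β0 * α0⁻¹ * β0⁻¹, β0⁻¹} :=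
          Subgroup.subset_closure (by simp)
        simpa using inv_mem h1
    · intro Γ _ a b hab
      obtain ⟨F, h1, h2⟩ := hu Γ (b * a⁻¹ * b⁻¹) b⁻¹ (by
        rw [conj_pow, inv_pow, inv_pow, hab]
        group)
      refine ⟨F.comp Θ.toMonoidHom, ?_, ?_⟩
      · show F (Θ (Θ.symm (β0 * α0⁻¹ * β0⁻¹))) = a
        rw [Θ.apply_symm_apply, map_mul, map_mul, map_inv, map_inv, h1, h2]
        group
      · show F (Θ (Θ.symm β0⁻¹)) = b
        rw [Θ.apply_symm_apply, map_inv, h2, inv_inv]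
    · apply Θ.injective
      rw [hμ, map_mul, map_pow, map_inv, Θ.apply_symm_apply, Θ.apply_symm_apply, conj_pow,
        inv_pow, zpow_one]
      group
    · right
      apply Θ.injective
      rw [map_inv, hw, map_pow, Θ.apply_symm_apply, conj_pow, inv_pow]
      calc β0 * (α0 ^ q)⁻¹ * β0⁻¹ = (β0 * α0 ^ q * β0⁻¹)⁻¹ := by group
        _ = (α0 ^ q)⁻¹ := by rw [hcom]
  · refine ⟨Θ.symm α0, Θ.symm β0, ?_, ?_, ?_, ?_, ?_⟩
    · rw [← map_pow, ← map_pow, hr]
    · apply hgen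
      · rw [Θ.apply_symm_apply, Θ.apply_symm_apply]
        exact Subgroup.subset_closure (by simp)
      · rw [Θ.apply_symm_apply, Θ.apply_symm_apply]
        exact Subgroup.subset_closure (by simp)
    · intro Γ _ a b hab
      obtain ⟨F, h1, h2⟩ := hu Γ a b hab
      refine ⟨F.comp Θ.toMonoidHom, ?_, ?_⟩
      · show F (Θ (Θ.symm α0)) = a
        rw [Θ.apply_symm_apply, h1]
      · show F (Θ (Θ.symm β0)) = b
        rw [Θ.apply_symm_apply, h2]
    · apply Θ.injective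
      rw [hμ, map_mul, map_pow, map_inv, Θ.apply_symm_apply, Θ.apply_symm_apply, zpow_neg,
        zpow_one]
      group
    · left
      apply Θ.injective
      rw [hw, map_pow, Θ.apply_symm_apply]

theorem GK_long {P : Type*} [Group P] {q : ℕ} {α β μ l w : P} (hr : α ^ q = β ^ 2)
    (hg : Subgroup.closure {α, β} = ⊤) (hw : α ^ q = w ∨ α ^ q = w⁻¹) {k1 k2 e1 : ℤ}
    (he : e1 = 1 ∨ e1 = -1) (h : w = μ ^ k1 * l ^ e1 * μ ^ k2) :
    ∃ k e : ℤ, (e = 1 ∨ e = -1) ∧ l = μ ^ k * (α ^ q) ^ e := by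
  have hc : ∀ x : P, Commute (α ^ q) x := by
    intro x
    have h1 : Subgroup.closure {α, β} ≤ Subgroup.centralizer {α ^ q} := by
      rw [Subgroup.closure_le]
      rintro y (rfl | rfl)
      · rw [SetLike.mem_coe, Subgroup.mem_centralizer_singleton_iff]
        exact (Commute.pow_self y q).symm.eq
      · rw [SetLike.mem_coe, Subgroup.mem_centralizer_singleton_iff, hr]
        exact (Commute.pow_self y 2).symm.eq
    have h2 : x ∈ Subgroup.centralizer {α ^ q} := h1 (by rw [hg]; exact Subgroup.mem_top x)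
    rw [Subgroup.mem_centralizer_singleton_iff] at h2
    exact h2.symm
  generalize α ^ q = z at *
  obtain ⟨s, hs, hws⟩ : ∃ s : ℤ, (s = 1 ∨ s = -1) ∧ w = z ^ s := by
    rcases hw with hw | hw
    · exact ⟨1, Or.inl rfl, by rw [zpow_one, hw]⟩
    · exact ⟨-1, Or.inr rfl, by rw [zpow_neg, zpow_one, hw, inv_inv]⟩
  have h1 : l ^ e1 = μ ^ (-k1 - k2) * z ^ s := by
    have h2 : l ^ e1 = (μ ^ k1)⁻¹ * w * (μ ^ k2)⁻¹ := by
      rw [h]
      group
    have h3 : Commute (z ^ s) ((μ ^ k2)⁻¹) := (hc _).zpow_left s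
    rw [h2, hws, mul_assoc, h3.eq, ← mul_assoc, zpow_sub, zpow_neg]
  rcases he with rfl | rfl
  · refine ⟨-k1 - k2, s, hs, ?_⟩
    rw [zpow_one] at h1
    exact h1
  · refine ⟨k1 + k2, -s, ?_, ?_⟩
    · rcases hs with rfl | rfl
      · right; rfl
      · left; rfl
    · rw [zpow_neg, zpow_one] at h1
      have h2 : l = (μ ^ (-k1 - k2) * z ^ s)⁻¹ := by rw [← h1, inv_inv]
      have h3 : Commute (z ^ (-s)) (μ ^ (k1 + k2)) := (hc _).zpow_left (-s)
      rw [h2, mul_inv_rev, ← zpow_neg, ← zpow_neg, ← h3.eq]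
      congr 2
      ring

theorem GK (q : ℕ) (hq : Odd q) (h3 : 3 ≤ q) : ∃ (c : ℝ → V) (hc : VKnot c) (α β : PiM hc),
    α ^ q = β ^ 2 ∧ Subgroup.closure {α, β} = ⊤ ∧
    (∀ (Γ : Type) [Group Γ] (a b : Γ), a ^ q = b ^ 2 → ∃ F : PiM hc →* Γ, F α = a ∧ F β = b) ∧
    (∀ m : Path (xM hc) (xM hc), IsMer hc m → α ^ ((q + 1) / 2) * β⁻¹ = cls m) ∧
    (∀ (F : V → V) (hF : Fat2 (cor c) F) (m : Path (xM hc) (xM hc)), IsMer hc m →
      ∃ k e : ℤ, (e = 1 ∨ e = -1) ∧ cls (ellM hF hc) = cls m ^ k * (α ^ q) ^ e) := by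
  obtain ⟨c, H, Hi, h⟩ := G1d q hq h3
  obtain ⟨τ, e, he, hτ⟩ := G4 hq h
  obtain ⟨α0, β0, hr, hg, hu, ho, hm⟩ := G2 q hq
  obtain ⟨Θ, hΘ⟩ := GK_Th h τ
  obtain ⟨m, hmM⟩ := GK_m q
  obtain ⟨mer, hmer⟩ := MB_exMer h.knot
  have h1 : Θ (cls mer) = (β0 * (α0 ^ ((q + 1) / 2))⁻¹) ^ e := by
    rw [hΘ, hτ mer m hmer hmM, hm m hmM]
  have h2 : Θ (cls (GK_om h)) = α0 ^ q := by
    rw [hΘ, GK_sq]
    refine ho (GK_orb q (y0 q)) fun t => ?_
    rw [GK_orb_apply, GK_A_val]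
    rfl
  obtain ⟨α, β, a1, a2, a3, a4, a5⟩ :=
    GK_grp Θ q ((q + 1) / 2) α0 β0 hr hg hu (cls mer) (cls (GK_om h)) e he h1 h2
  refine ⟨c, h.knot, α, β, a1, a2, a3, ?_, ?_⟩
  · intro m' hm'
    have h4 : m' = mer := by
      apply Path.ext
      funext u
      apply Subtype.ext
      rw [hm' u, hmer u]
    rw [h4]
    exact a4
  · intro F hF m' hm'
    obtain ⟨k1, k2, e1, he1, h5⟩ := G3 hq h hF (GK_om h) m' (GK_om_orb h) hm'
    exact GK_long a1 a2 a5 he1 h5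

end LQ
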