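import Pool.Agent.H64.LQ.Defs

/-!
# K2s: the fat knot with the extra bounds

Same construction as LK.K2 (Pool/Agent/H64/LK/K2.lean; its lemmas `K2_e_*`, `K2_rho_*` can be used), with
`ε = min δ (1/(8B))` instead of `min δ (1/(4B))`: `F(s, y) = e(s) + M s (ρ(s) y)`, `e = cor c`, `ρ = K2_rho ε`.
thin: for `|s| ≤ 1/4` on the tube: `‖(e s).2‖ ≤ 1/4` (`(e s).1² + ‖(e s).2‖² ≤ 1/16`) and `‖M s (ε y)‖ ≤ B ε / 2 ≤ 1/16`, sum `≤ 5/16`.
ends: for `|s| ≥ 1/4`, `F(s, y) = (s, ρ(s) y)`, `0 < ε ≤ ρ(s) ≤ 1` and `ρ(s) = ε ≤ 1/8` for `|s| ≤ 1/2`.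
-/

open scoped ContDiff unitInterval
open Topology Set

namespace LQ

open LK

theorem K2s {c : ℝ → V} (hc : VKnot c) : ∃ F : V → V, Fat2 (cor c) F := by
  obtain ⟨N, hN, hNstd, hNind⟩ := K2a hc
  set M : ℝ → (ℂ →L[ℝ] V) := fun t => N (4 * t) with hM
  have hMs : ContDiff ℝ ∞ M := hN.comp (contDiff_const.mul contDiff_id)
  have hMstd : ∀ t, 1 / 4 ≤ |t| → ∀ y, M t y = (0, y) := by
    intro t ht y
    refine hNstd (4 * t) ?_ y
    rw [abs_mul, abs_of_pos (by norm_num : (0 : ℝ) < 4)]; linarith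
  have hMind : ∀ t (r : ℝ) (y : ℂ), r • deriv (K2_e c) t + M t y = 0 → r = 0 ∧ y = 0 := by
    intro t r y h
    rw [K2_e_deriv hc] at h
    exact hNind (4 * t) r y h
  obtain ⟨δ, hδ, hinj, himm⟩ := K2b (K2_e_knot hc) hMs hMind
  obtain ⟨B0, hB0⟩ := (isCompact_Icc (a := (-1 : ℝ)) (b := 1)).exists_bound_of_continuousOn
    hMs.continuous.continuousOn
  set B : ℝ := max B0 1 with hB
  have hB1 : 1 ≤ B := le_max_right _ _
  have hBM : ∀ t, |t| ≤ 1 → ‖M t‖ ≤ B := fun t ht =>
    (hB0 t (abs_le.1 ht)).trans (le_max_left _ _)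
  set ε : ℝ := min δ (1 / (8 * B)) with hε
  have hε0 : 0 < ε := lt_min hδ (by positivity)
  have hεδ : ε ≤ δ := min_le_left _ _
  have hεB8 : ε * B ≤ 1 / 8 := by
    have h1 : ε ≤ 1 / (8 * B) := min_le_right _ _
    have h2 : (1 / (8 * B)) * B = 1 / 8 := by field_simp
    nlinarith [mul_le_mul_of_nonneg_right h1 (by linarith : (0 : ℝ) ≤ B)]
  have hεB : ε * B ≤ 1 / 4 := by linarith
  have hε8 : ε ≤ 1 / 8 := by nlinarith
  have hε1 : ε ≤ 1 := by linarith
  set F : V → V := fun x => K2_e c x.1 + M x.1 (K2_rho ε x.1 • x.2) with hF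
  have hFs : ContDiff ℝ ∞ F :=
    ((K2_e_contDiff hc).comp contDiff_fst).add ((hMs.comp contDiff_fst).clm_apply
      (((K2_rho_contDiff ε).comp contDiff_fst).smul contDiff_snd))
  have hA : ∀ x : V, 1 / 4 ≤ |x.1| → F x = (x.1, K2_rho ε x.1 • x.2) := by
    intro x hx
    simp only [hF]
    rw [K2_e_std hc hx, hMstd _ hx]
    ext1 <;> simp
  have hBF : ∀ x : V, |x.1| ≤ 1 / 2 → F x = K2_e c x.1 + M x.1 (ε • x.2) := by
    intro x hx
    simp only [hF]
    rw [K2_rho_small ε hx]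
  have htub : ∀ x : V, x ∈ tube → ‖ε • x.2‖ ≤ ε / 2 := by
    intro x hx
    have h1 : ‖x.2‖ ≤ 1 / 2 := hx
    rw [norm_smul, Real.norm_of_nonneg hε0.le]
    nlinarith
  have hC : ∀ x : V, x ∈ tube → |x.1| ≤ 1 / 4 → |(F x).1| ≤ 3 / 8 ∧ ‖(F x).2‖ ≤ 3 / 8 := by
    intro x hx hx1
    have h1 := K2_e_ball hc hx1
    have h2 : ‖M x.1 (ε • x.2)‖ ≤ 1 / 8 := by
      have h3 : ‖M x.1 (ε • x.2)‖ ≤ B * (ε / 2) :=
        ((M x.1).le_opNorm _).trans
          (mul_le_mul (hBM _ (by linarith)) (htub x hx) (norm_nonneg _) (by linarith))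
      nlinarith
    have h3 : |(M x.1 (ε • x.2)).1| ≤ 1 / 8 := (norm_fst_le _).trans h2
    have h4 : ‖(M x.1 (ε • x.2)).2‖ ≤ 1 / 8 := (norm_snd_le _).trans h2
    have h5 : |(K2_e c x.1).1| ≤ 1 / 4 := by
      refine abs_le_of_sq_le_sq ?_ (by norm_num)
      have := sq_nonneg ‖(K2_e c x.1).2‖
      nlinarith
    have h6 : ‖(K2_e c x.1).2‖ ≤ 1 / 4 := by
      refine (abs_le_of_sq_le_sq' (b := (1 / 4 : ℝ)) ?_ (by norm_num)).2
      have := sq_nonneg (K2_e c x.1).1
      nlinarith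
    rw [hBF x (by linarith)]
    constructor
    · rw [Prod.fst_add]
      exact (abs_add_le _ _).trans (by linarith)
    · rw [Prod.snd_add]
      exact (norm_add_le _ _).trans (by linarith)
  have hcross : ∀ x y : V, y ∈ tube → 1 / 2 < |x.1| → |y.1| < 1 / 4 → F x ≠ F y := by
    intro x y hy hx1 hy1 h
    have h1 := (hC y hy hy1.le).1
    rw [← h, hA x (by linarith)] at h1
    have h2 : |x.1| ≤ 3 / 8 := h1
    linarith
  have hD : ∀ x : V, x ∈ tube → |x.1| ≤ 1 / 4 → ‖(F x).2‖ ≤ 5 / 16 := by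
    intro x hx hx1
    have h1 := K2_e_ball hc hx1
    have h2 : ‖M x.1 (ε • x.2)‖ ≤ 1 / 16 := by
      have h3 : ‖M x.1 (ε • x.2)‖ ≤ B * (ε / 2) :=
        ((M x.1).le_opNorm _).trans
          (mul_le_mul (hBM _ (by linarith)) (htub x hx) (norm_nonneg _) (by linarith))
      nlinarith
    have h4 : ‖(M x.1 (ε • x.2)).2‖ ≤ 1 / 16 := (norm_snd_le _).trans h2
    have h6 : ‖(K2_e c x.1).2‖ ≤ 1 / 4 := by
      refine (abs_le_of_sq_le_sq' (b := (1 / 4 : ℝ)) ?_ (by norm_num)).2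
      have := sq_nonneg (K2_e c x.1).1
      nlinarith
    rw [hBF x (by linarith), Prod.snd_add]
    exact (norm_add_le _ _).trans (by linarith)
  refine ⟨F, ⟨⟨hFs, ?_, ?_, ?_, ?_, ?_⟩, hD, K2_rho ε,
    fun s => ⟨hε0.trans_le (K2_rho_ge hε1 _), K2_rho_le hε1 _⟩, ?_, ?_⟩⟩
  · intro x hx y hy hxy
    by_cases hx2 : |x.1| ≤ 1 / 2
    · by_cases hy2 : |y.1| ≤ 1 / 2
      · rw [hBF x hx2, hBF y hy2] at hxy
        have hmx : ((x.1, ε • x.2) : V) ∈ {x : V | |x.1| ≤ 1 ∧ ‖x.2‖ ≤ δ} :=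
          ⟨by show |x.1| ≤ 1; linarith, by
            show ‖ε • x.2‖ ≤ δ
            have := htub x hx
            linarith⟩
        have hmy : ((y.1, ε • y.2) : V) ∈ {x : V | |x.1| ≤ 1 ∧ ‖x.2‖ ≤ δ} :=
          ⟨by show |y.1| ≤ 1; linarith, by
            show ‖ε • y.2‖ ≤ δ
            have := htub y hy
            linarith⟩
        have h1 := hinj hmx hmy hxy
        obtain ⟨h2, h3⟩ := Prod.mk.inj h1
        ext1
        · exact h2
        · exact smul_right_injective ℂ hε0.ne' h3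
      · push Not at hy2
        by_cases hx4 : |x.1| < 1 / 4
        · exact absurd hxy.symm (hcross y x hx hy2 hx4)
        · push Not at hx4
          rw [hA x hx4, hA y (by linarith)] at hxy
          obtain ⟨h2, h3⟩ := Prod.mk.inj hxy
          rw [h2] at h3
          ext1
          · exact h2
          · exact smul_right_injective ℂ (hε0.trans_le (K2_rho_ge hε1 _)).ne' h3
    · push Not at hx2
      by_cases hy4 : |y.1| < 1 / 4
      · exact absurd hxy (hcross x y hy hx2 hy4)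
      · push Not at hy4
        rw [hA x (by linarith), hA y hy4] at hxy
        obtain ⟨h2, h3⟩ := Prod.mk.inj hxy
        rw [h2] at h3
        ext1
        · exact h2
        · exact smul_right_injective ℂ (hε0.trans_le (K2_rho_ge hε1 _)).ne' h3
  · intro x hx
    by_cases hx2 : |x.1| < 1 / 2
    · set S : V →L[ℝ] V := (ContinuousLinearMap.fst ℝ ℝ ℂ).prod
        (ε • ContinuousLinearMap.snd ℝ ℝ ℂ) with hS
      have h1 : F =ᶠ[𝓝 x] (fun x : V => K2_e c x.1 + M x.1 x.2) ∘ S := by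
        have hop : IsOpen {x : V | |x.1| < 1 / 2} :=
          isOpen_lt (continuous_fst.abs) continuous_const
        filter_upwards [hop.mem_nhds hx2] with z hz
        rw [hBF z (le_of_lt hz)]
        rfl
      have hSx : S x = (x.1, ε • x.2) := rfl
      have hPd : DifferentiableAt ℝ (fun x : V => K2_e c x.1 + M x.1 x.2) (S x) := by
        have : ContDiff ℝ ∞ (fun x : V => K2_e c x.1 + M x.1 x.2) :=
          ((K2_e_contDiff hc).comp contDiff_fst).add ((hMs.comp contDiff_fst).clm_apply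
            contDiff_snd)
        exact this.differentiable (by simp) _
      rw [h1.fderiv_eq, fderiv_comp x hPd S.differentiableAt, ContinuousLinearMap.fderiv]
      have h2 : Function.Injective (fderiv ℝ (fun x : V => K2_e c x.1 + M x.1 x.2) (S x)) := by
        rw [hSx]
        refine himm _ ?_ ?_
        · show |x.1| ≤ 1
          linarith
        · show ‖ε • x.2‖ ≤ δ
          have := htub x hx
          linarith
      have h3 : Function.Injective S := by
        refine (injective_iff_map_eq_zero _).2 fun v hv => ?_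
        have h4 : v.1 = 0 := congrArg Prod.fst hv
        have h5 : ε • v.2 = 0 := congrArg Prod.snd hv
        ext1
        · exact h4
        · exact (smul_eq_zero.1 h5).resolve_left hε0.ne'
      intro v w hvw
      exact h3 (h2 hvw)
    · push Not at hx2
      have h1 : F =ᶠ[𝓝 x] (fun x : V => ((x.1, K2_rho ε x.1 • x.2) : V)) := by
        have hop : IsOpen {x : V | 1 / 4 < |x.1|} :=
          isOpen_lt continuous_const (continuous_fst.abs)
        have hmem : x ∈ {x : V | 1 / 4 < |x.1|} := by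
          show 1 / 4 < |x.1|
          linarith
        filter_upwards [hop.mem_nhds hmem] with z hz
        exact hA z (le_of_lt hz)
      rw [h1.fderiv_eq]
      exact K2_imm_aux (K2_rho_contDiff ε) x (hε0.trans_le (K2_rho_ge hε1 _)).ne'
  · intro x hx
    rw [hA x (by linarith), K2_rho_large ε hx, one_smul]
  · intro x hx hx1
    rcases le_total (|x.1|) (1 / 4) with h | h
    · obtain ⟨h1, h2⟩ := hC x hx h
      exact ⟨by linarith, by linarith⟩
    · rw [hA x h]
      refine ⟨hx1, ?_⟩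
      have h1 : ‖x.2‖ ≤ 1 / 2 := hx
      have h2 := K2_rho_le hε1 x.1
      have h3 : 0 < K2_rho ε x.1 := hε0.trans_le (K2_rho_ge hε1 _)
      show ‖K2_rho ε x.1 • x.2‖ ≤ 1 / 2
      rw [norm_smul, Real.norm_of_nonneg h3.le]
      nlinarith [norm_nonneg x.2]
  · intro t
    simp only [hF, smul_zero, map_zero, add_zero]
    rfl
  · intro s hs
    rw [K2_rho_small ε hs]
    linarith
  · intro x _ hx
    rw [hA x hx, Complex.real_smul]

end LQ
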