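import Pool.Agent.H64.LQ.Defs

/-!
# D0: the unscaled fat knot

`Fh F x = 4 F(x/4)`. From `Fat2 (cor c) F` (tube of radius `1/2` becomes `{‖x.2‖ ≤ 2}`):
* core: `Fh F (t, 0) = 4 cor c (t/4) = c t`. * std: `F x = x` for `|x.1| ≥ 1`. * ends: for `1 ≤ |x.1|`, `‖x.2‖ ≤ 2`, `Fh F x = (x.1, ρ(x.1/4) x.2)`.
* thin: if `‖x.2‖ ≤ 5/4` then `‖(Fh F x).2‖ ≤ 5/4` (for `|x.1| ≤ 1` by `thin`: `4 · 5/16`; otherwise by `ends`).
* box: `|x.1| ≤ 4`, `‖x.2‖ ≤ 2` imply the same for `Fh F x` ; for `|x.1| ≥ 4` it is the identity: so `{‖x.2‖ ≤ 2}` is mapped to itself.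
* D0_closed: the restriction of `Fh F` to the closed set `{‖x.2‖ ≤ 2}` is a closed embedding: continuous, injective, proper (identity outside of a compact set: for
  `|x.1| ≥ 4`).
* D0_open: the image of the open tube `{‖x.2‖ < 2}` is open: `F` has injective, hence invertible, derivative at each point of the tube (same dimensions), so it is
  an open map near it (`HasStrictFDerivAt.map_nhds_eq_of_equiv` or `..toOpenPartialHomeomorph`; `F` smooth gives strict differentiability).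
* D0_xb: `xb = (-2, 3/2)` is not in the image of `{‖x.2‖ ≤ 2}`: if `Fh F y = xb`, then `|y.1| < 1` is impossible since then by `thin` on the tube... (for `|y.1| ≤ 1` use `thin`:
  `‖(Fh F y).2‖ ≤ 5/4 < 3/2`); so `|y.1| ≥ 1`, `y.1 = -2`, and `ρ(-1/2) ≤ 1/2`, so the second coordinate has norm `≤ (1/2) · 2 = 1 < 3/2`.
-/

open scoped ContDiff unitInterval
open Topology Set

namespace LQ

open LK


theorem D0_q1 (x : V) : ((1 / 4 : ℝ) • x).1 = x.1 / 4 := by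
  rw [Prod.smul_fst, smul_eq_mul]
  ring

theorem D0_q2 (x : V) : ‖((1 / 4 : ℝ) • x).2‖ = ‖x.2‖ / 4 := by
  rw [Prod.smul_snd, norm_smul]
  norm_num
  ring

theorem D0_a1 (x : V) : |((1 / 4 : ℝ) • x).1| = |x.1| / 4 := by
  rw [D0_q1, abs_div]
  norm_num

theorem D0_tb (x : V) (h : ‖x.2‖ ≤ 2) : (1 / 4 : ℝ) • x ∈ tube := by
  show ‖((1 / 4 : ℝ) • x).2‖ ≤ 1 / 2
  rw [D0_q2]
  linarith

theorem D0_f1 (F : V → V) (x : V) : (Fh F x).1 = 4 * (F ((1 / 4 : ℝ) • x)).1 := rfl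

theorem D0_f2 (F : V → V) (x : V) : ‖(Fh F x).2‖ = 4 * ‖(F ((1 / 4 : ℝ) • x)).2‖ := by
  show ‖((4 : ℝ) • F ((1 / 4 : ℝ) • x)).2‖ = _
  rw [Prod.smul_snd, norm_smul]
  norm_num

theorem D0_core {c : ℝ → V} {F : V → V} (hF : Fat2 (cor c) F) (t : ℝ) : Fh F (t, 0) = c t := by
  have h1 : (1 / 4 : ℝ) • ((t, 0) : V) = (t / 4, 0) := by
    ext <;> simp
    ring
  unfold Fh
  rw [h1, hF.core]
  unfold cor
  rw [smul_smul]
  norm_num
  congr 1
  ring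

theorem D0_inj {c : ℝ → V} {F : V → V} (hF : Fat2 c F) : InjOn (Fh F) {x | ‖x.2‖ ≤ 2} := by
  intro x hx y hy hxy
  unfold Fh at hxy
  have h1 := smul_right_injective V (by norm_num : (4 : ℝ) ≠ 0) hxy
  have h2 := hF.inj (D0_tb x hx) (D0_tb y hy) h1
  exact smul_right_injective V (by norm_num : (1 / 4 : ℝ) ≠ 0) h2

theorem D0_std {c : ℝ → V} {F : V → V} (hF : Fat2 c F) (x : V) (h : 4 ≤ |x.1|) : Fh F x = x := by
  unfold Fh
  rw [hF.std _ (by rw [D0_a1]; linarith), smul_smul]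
  norm_num

theorem D0_ends {c : ℝ → V} {F : V → V} (hF : Fat2 c F) (x : V) (h : ‖x.2‖ ≤ 2) (h' : 1 ≤ |x.1|) :
    (Fh F x).1 = x.1 ∧ ‖(Fh F x).2‖ ≤ ‖x.2‖ ∧ (|x.1| ≤ 2 → ‖(Fh F x).2‖ ≤ 1 / 2 * ‖x.2‖) := by
  obtain ⟨ρ, h1, h2, h3⟩ := hF.ends
  have h4 := h3 _ (D0_tb x h) (by rw [D0_a1]; linarith)
  have e : ‖((ρ ((1 / 4 : ℝ) • x).1 : ℂ) * ((1 / 4 : ℝ) • x).2)‖ =
      ρ (x.1 / 4) * (‖x.2‖ / 4) := by
    rw [norm_mul, D0_q2, D0_q1, Complex.norm_real, Real.norm_eq_abs, abs_of_pos (h1 _).1]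
  refine ⟨?_, ?_, ?_⟩
  · rw [D0_f1, h4, D0_q1]
    ring
  · rw [D0_f2, h4, e]
    have h5 := (h1 (x.1 / 4)).2
    have h6 := norm_nonneg x.2
    nlinarith
  · intro h7
    rw [D0_f2, h4, e]
    have h5 := h2 (x.1 / 4) (by rw [abs_div]; norm_num; linarith)
    have h6 := norm_nonneg x.2
    nlinarith

theorem D0_mid {c : ℝ → V} {F : V → V} (hF : Fat2 c F) (x : V) (h : ‖x.2‖ ≤ 2) (h' : |x.1| ≤ 1) :
    ‖(Fh F x).2‖ ≤ 5 / 4 := by
  have h1 := hF.thin _ (D0_tb x h) (by rw [D0_a1]; linarith)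
  rw [D0_f2]
  linarith

theorem D0_thin {c : ℝ → V} {F : V → V} (hF : Fat2 c F) (x : V) (h : ‖x.2‖ ≤ 5 / 4) :
    ‖(Fh F x).2‖ ≤ 5 / 4 := by
  rcases le_total |x.1| 1 with h1 | h1
  · exact D0_mid hF x (by linarith) h1
  · exact ((D0_ends hF x (by linarith) h1).2.1).trans h

theorem D0_box {c : ℝ → V} {F : V → V} (hF : Fat2 c F) (x : V) (h : ‖x.2‖ ≤ 2) (h' : |x.1| ≤ 4) :
    |(Fh F x).1| ≤ 4 ∧ ‖(Fh F x).2‖ ≤ 2 := by
  obtain ⟨h1, h2⟩ := hF.box _ (D0_tb x h) (by rw [D0_a1]; linarith)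
  rw [D0_f1, D0_f2, abs_mul]
  norm_num
  constructor <;> linarith

theorem D0_tube {c : ℝ → V} {F : V → V} (hF : Fat2 c F) (x : V) (h : ‖x.2‖ ≤ 2) :
    ‖(Fh F x).2‖ ≤ 2 := by
  rcases le_total |x.1| 4 with h1 | h1
  · exact (D0_box hF x h h1).2
  · rw [D0_std hF x h1]
    exact h

theorem D0_clt : IsClosed {x : V | ‖x.2‖ ≤ 2} :=
  isClosed_le (continuous_snd.norm) continuous_const

theorem D0_closed {c : ℝ → V} {F : V → V} (hF : Fat2 c F) :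
    IsClosedEmbedding (fun x : {x : V // ‖x.2‖ ≤ 2} => Fh F x.1) := by
  have hcont := continuous_Fh hF.toFat
  apply IsClosedEmbedding.of_continuous_injective_isClosedMap
  · exact hcont.comp continuous_subtype_val
  · intro x y hxy
    exact Subtype.ext (D0_inj hF x.2 y.2 hxy)
  · intro S hS
    have hS' : IsClosed (Subtype.val '' S : Set V) :=
      (D0_clt.isClosedEmbedding_subtypeVal).isClosedMap _ hS
    have hsub : ∀ x ∈ (Subtype.val '' S : Set V), ‖x.2‖ ≤ 2 := by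
      rintro _ ⟨y, _, rfl⟩
      exact y.2
    have himg : (fun x : {x : V // ‖x.2‖ ≤ 2} => Fh F x.1) '' S =
        Fh F '' ((Subtype.val '' S) ∩ {x : V | |x.1| ≤ 4}) ∪
        ((Subtype.val '' S) ∩ {x : V | 4 ≤ |x.1|}) := by
      ext z
      constructor
      · rintro ⟨x, hx, rfl⟩
        rcases le_total |x.1.1| 4 with h1 | h1
        · left
          exact ⟨x.1, ⟨⟨x, hx, rfl⟩, h1⟩, rfl⟩
        · right
          show Fh F x.1 ∈ _
          rw [D0_std hF x.1 h1]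
          exact ⟨⟨x, hx, rfl⟩, h1⟩
      · rintro (⟨_, ⟨⟨x, hx, rfl⟩, h1⟩, rfl⟩ | ⟨⟨x, hx, rfl⟩, h1⟩)
        · exact ⟨x, hx, rfl⟩
        · exact ⟨x, hx, D0_std hF x.1 h1⟩
    rw [himg]
    apply IsClosed.union
    · apply IsCompact.isClosed
      apply IsCompact.image _ hcont
      apply Metric.isCompact_of_isClosed_isBounded
      · exact hS'.inter (isClosed_le (continuous_fst.abs) continuous_const)
      · apply (Metric.isBounded_closedBall (x := (0 : V)) (r := 4)).subset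
        rintro x ⟨h1, h2⟩
        rw [mem_closedBall_zero_iff, Prod.norm_def, max_le_iff]
        exact ⟨h2, (hsub x h1).trans (by norm_num)⟩
    · exact hS'.inter (isClosed_le continuous_const (continuous_fst.abs))

theorem D0_open {c : ℝ → V} {F : V → V} (hF : Fat2 c F) (U : Set V) (hU : IsOpen U)
    (h : ∀ x ∈ U, ‖x.2‖ < 2) : IsOpen (Fh F '' U) := by
  rw [isOpen_iff_mem_nhds]
  rintro _ ⟨x, hx, rfl⟩
  have h1 : HasStrictFDerivAt F (fderiv ℝ F ((1 / 4 : ℝ) • x)) ((1 / 4 : ℝ) • x) :=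
    (hF.smooth.contDiffAt).hasStrictFDerivAt (by simp)
  have h2 := hF.imm _ (D0_tb x (h x hx).le)
  have h3 : Function.Surjective (fderiv ℝ F ((1 / 4 : ℝ) • x)) :=
    (LinearMap.injective_iff_surjective
      (f := ((fderiv ℝ F ((1 / 4 : ℝ) • x)) : V →ₗ[ℝ] V))).mp h2
  have h4 := h1.map_nhds_eq_of_surj (LinearMap.range_eq_top.mpr h3)
  have e1 : Filter.map (fun y : V => (1 / 4 : ℝ) • y) (𝓝 x) = 𝓝 ((1 / 4 : ℝ) • x) :=
    (Homeomorph.smulOfNeZero (1 / 4 : ℝ) (by norm_num)).map_nhds_eq x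
  have e2 : Filter.map (fun y : V => (4 : ℝ) • y) (𝓝 (F ((1 / 4 : ℝ) • x))) =
      𝓝 ((4 : ℝ) • F ((1 / 4 : ℝ) • x)) :=
    (Homeomorph.smulOfNeZero (4 : ℝ) (by norm_num)).map_nhds_eq _
  have h5 : Filter.map (Fh F) (𝓝 x) = 𝓝 (Fh F x) := by
    show Filter.map ((fun y : V => (4 : ℝ) • y) ∘ F ∘ (fun y : V => (1 / 4 : ℝ) • y)) (𝓝 x) = _
    rw [← Filter.map_map, ← Filter.map_map, e1, h4, e2]
    rfl
  rw [← h5]
  exact Filter.image_mem_map (hU.mem_nhds hx)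

theorem D0_xb {c : ℝ → V} {F : V → V} (hF : Fat2 c F) (x : V) (h : ‖x.2‖ ≤ 2) : Fh F x ≠ xb := by
  intro he
  have h1 : (Fh F x).1 = -2 := by rw [he]; rfl
  have h2 : ‖(Fh F x).2‖ = 3 / 2 := by
    rw [he]
    show ‖(3 / 2 : ℂ)‖ = 3 / 2
    rw [show (3 / 2 : ℂ) = ((3 / 2 : ℝ) : ℂ) by push_cast; ring, Complex.norm_real]
    norm_num
  rcases le_total |x.1| 1 with h3 | h3
  · have h4 := D0_mid hF x h h3
    linarith
  · obtain ⟨h4, h5, h6⟩ := D0_ends hF x h h3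
    rw [h4] at h1
    have h7 := h6 (by rw [h1]; norm_num)
    linarith

end LQ
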