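import Pool.Agent.H64.LK.K5
import Pool.Agent.H64.LK.K2
import Pool.Agent.H64.LK.T4

/-!
# Stage 2 (rational version of MP_fbf562_gt): definitions (helper64)

Sum of three long torus knots, transport on the fundamental group of the complement.
-/

open scoped ContDiff unitInterval
open Topology Set

namespace LQ

open LK

/-- The class of a loop in the fundamental group (multiplication `p * q = q.trans p`). -/
abbrev cls {X : Type*} [TopologicalSpace X] {x : X} (p : Path x x) : FundamentalGroup X x :=
  FundamentalGroup.fromPath (Path.Homotopic.Quotient.mk p)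

/-- Base point. -/
noncomputable def xb : V := (-2, 3 / 2)

/-- The complement of a curve in the model. -/
abbrev MV (g : ℝ → V) : Type := {x : V // x ∉ range g}

theorem xb_notMem {g : ℝ → V} (hg : VKnot g) : xb ∉ range g := by
  rintro ⟨t, ht⟩
  by_cases h : |t| ≤ 1
  · have h1 := hg.inBall t h
    rw [ht] at h1
    simp only [xb] at h1
    have h2 : ‖(3 / 2 : ℂ)‖ = 3 / 2 := by
      rw [show (3 / 2 : ℂ) = ((3 / 2 : ℝ) : ℂ) by push_cast; ring, Complex.norm_real]
      norm_num
    rw [h2] at h1
    norm_num at h1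
  · have h1 := hg.standard t (le_of_lt (not_le.1 h))
    rw [ht] at h1
    have h2 := congrArg Prod.snd h1
    simp [xb] at h2

/-- The base point of the complement. -/
noncomputable def xM {g : ℝ → V} (hg : VKnot g) : MV g := ⟨xb, xb_notMem hg⟩

/-- The fundamental group of the complement of a long knot of the model. -/
abbrev PiM {g : ℝ → V} (hg : VKnot g) : Type := FundamentalGroup (MV g) (xM hg)

/-- A point of the meridian circle. -/
noncomputable def merPt (θ : ℝ) : V := (-2, 3 / 2 * Complex.exp (2 * Real.pi * θ * Complex.I))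

/-- `m` is the meridian loop of the complement. -/
def IsMer {g : ℝ → V} (hg : VKnot g) (m : Path (xM hg) (xM hg)) : Prop :=
  ∀ θ : I, (m θ).1 = merPt θ

/-- A fat knot with the extra bounds used for nested tubes: the tube of radius `5/16` is mapped to
itself. -/
structure Fat2 (c : ℝ → V) (F : V → V) : Prop extends Fat c F where
  thin : ∀ x ∈ tube, |x.1| ≤ 1 / 4 → ‖(F x).2‖ ≤ 5 / 16
  ends : ∃ ρ : ℝ → ℝ, (∀ s, 0 < ρ s ∧ ρ s ≤ 1) ∧ (∀ s, |s| ≤ 1 / 2 → ρ s ≤ 1 / 2) ∧
    ∀ x ∈ tube, 1 / 4 ≤ |x.1| → F x = (x.1, (ρ x.1 : ℂ) * x.2)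

/-- The fat knot `F` placed at `a`. -/
noncomputable def Lj (F : V → V) (a : ℝ) (x : V) : V := Lmap a (F (Linv a x))

/-- The affine map carrying the unscaled knot to the summand at `a`. -/
noncomputable def Aff (a : ℝ) (x : V) : V := (x.1 / 32 + a, x.2 / 4)

/-- The unscaled fat knot. -/
noncomputable def Fh (F : V → V) (x : V) : V := (4 : ℝ) • F ((1 / 4 : ℝ) • x)

/-- The core of the fat knot attached to `c`. -/
noncomputable def cor (c : ℝ → V) (t : ℝ) : V := (1 / 4 : ℝ) • c (4 * t)

/-- The data of three fat knots. -/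
structure Tri where
  c : Fin 3 → ℝ → V
  F : Fin 3 → V → V
  hc : ∀ i, VKnot (c i)
  hF : ∀ i, Fat2 (cor (c i)) (F i)

/-- The standard positions. -/
noncomputable def pos : Fin 3 → ℝ := ![-1 / 4, 0, 1 / 4]

/-- Composition of three fat knots `F, G, H` at the positions `a, b, c`. -/
noncomputable def Com (F G H : V → V) (a b c : ℝ) (x : V) : V := Lj F a (Lj G b (Lj H c x))

/-- The sum of the three knots. -/
noncomputable def gS (D : Tri) (t : ℝ) : V :=
  Com (D.F 0) (D.F 1) (D.F 2) (-1 / 4) 0 (1 / 4) (t, 0)

/-- Points of the box. -/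
def InBox (x : V) : Prop := |x.1| ≤ 4 ∧ ‖x.2‖ < 2

/-- The thick tube about the curve. -/
def Thick (F : V → V) : Set V := Fh F '' {x | ‖x.2‖ ≤ 5 / 4}

/-- The straight path from `x` to `y`. -/
noncomputable def lineP (x y : V) : Path x y where
  toFun t := (1 - (t : ℝ)) • x + (t : ℝ) • y
  continuous_toFun := by fun_prop
  source' := by simp
  target' := by simp

theorem continuous_Aff (a : ℝ) : Continuous (Aff a) := by
  unfold Aff
  fun_prop

/-- The loop `ζ` (at `xb`) carried to the summand at `a`, with its tail to `xb`. -/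
noncomputable def sig (a : ℝ) (ζ : Path xb xb) : Path xb xb :=
  (lineP xb (Aff a xb)).trans ((ζ.map (continuous_Aff a)).trans (lineP xb (Aff a xb)).symm)

theorem continuous_Fh {c : ℝ → V} {F : V → V} (hF : Fat c F) : Continuous (Fh F) := by
  unfold Fh
  have h := hF.smooth.continuous
  exact (h.comp (continuous_id.const_smul (1 / 4 : ℝ))).const_smul (4 : ℝ)

/-- The end points of the horizontal line. -/
noncomputable def eL : V := (-4, 3 / 2)

noncomputable def eR : V := (4, 3 / 2)

theorem Fh_eL {c : ℝ → V} {F : V → V} (hF : Fat c F) : Fh F eL = eL := by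
  unfold Fh
  rw [hF.std _ (by simp [eL]), smul_smul]
  norm_num

theorem Fh_eR {c : ℝ → V} {F : V → V} (hF : Fat c F) : Fh F eR = eR := by
  unfold Fh
  rw [hF.std _ (by simp [eR]), smul_smul]
  norm_num

/-- The parallel (longitude) loop of the fat knot `F`: along the tube at the offset `3/2`, closed
by a straight segment. -/
noncomputable def ellP {c : ℝ → V} {F : V → V} (hF : Fat c F) : Path xb xb :=
  (lineP xb eL).trans
    ((((lineP eL eR).map (continuous_Fh hF)).cast (Fh_eL hF).symm (Fh_eR hF).symm).trans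
      (lineP eR xb))

end LQ
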