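import Pool.Agent.H64.LQ.Defs
import Pool.Agent.H64.LK.K3

/-!
# E0: compositions of fat knots

Elementary facts on `Lj F a = L_a ∘ F ∘ L_a⁻¹` (compare LK.K3, file Pool/Agent/H64/LK/K3.lean, whose lemmas on `cj` with `θ = 0` are
similar). (1) `F` maps the tube to itself (box, std), so does `Lj F a`; it is injective on the tube with injective derivative there; it
is the identity at the points with `|x.1 - a| ≥ 1/8`; on the tube, if `|x.1 - a| ≤ 1/8` then `|(Lj F a x).1 - a| ≤ 1/8`.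
(2) thin tube: if `‖x.2‖ ≤ 5/16` then `‖(Lj F a x).2‖ ≤ 5/16` (thin for `|8(x.1 - a)| ≤ 1/4`, otherwise ends with `ρ ≤ 1`).
(3) if `|a - b| ≥ 1/4`, `Lj F a` and `Lj G b` commute on the tube: a point `x` with `|x.1 - a| ≤ 1/8` has `|x.1 - b| ≥ 1/8`, so `Lj G b x = x`, and
`y = Lj F a x` has `|y.1 - a| ≤ 1/8`, so `Lj G b y = y`; symmetric; otherwise both fix `x`.
(4) `Swp F G H lo hi c p = Com F G H (hi - p.1 (hi - lo)) (lo + p.1 (hi - lo)) c`: jointly smooth; for `p ∈ I × I` the positions are in `[-1/4, 1/4]`, so the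
map is the identity for `|x.1| ≥ 1/2` and preserves `{|x.1| ≤ 1/2} ∩ tube`. 
(5) value on the axis: `Lj F a (t, 0) = L_a (cor cF (8 (t - a))) = Aff a (cF (32 (t - a)))` (`cor c u = (1/4) c(4u)`), equal to `(t, 0)` if
`|t - a| ≥ 1/32`.
(6) `Aff a ∘ Fh F = Lj F a ∘ Aff a`.
-/

open scoped ContDiff unitInterval
open Topology Set

namespace LQ

open LK

/-- The exchange family: `F` goes from `hi` to `lo` (outer), `G` from `lo` to `hi` (inner). -/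
noncomputable def Swp (F G H : V → V) (lo hi c : ℝ) (p : ℝ × ℝ) : V → V :=
  Com F G H (hi - p.1 * (hi - lo)) (lo + p.1 * (hi - lo)) c

theorem E0_cj (F : V → V) (a : ℝ) (x : V) : cj F a 0 x = Lj F a x := by
  unfold cj Lj
  rw [neg_zero, K3_rot_zero, K3_rot_zero]

theorem E0_cj' (F : V → V) (a : ℝ) : cj F a 0 = Lj F a := funext fun x => E0_cj F a x

theorem E0_std {c : ℝ → V} {F : V → V} (hF : Fat2 c F) (a : ℝ) (x : V) (h : 1 / 8 ≤ |x.1 - a|) :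
    Lj F a x = x := by
  rw [← E0_cj]
  exact K3_cj_fix hF.toFat a 0 h

theorem E0_near {c : ℝ → V} {F : V → V} (hF : Fat2 c F) (a : ℝ) (x : V) (hx : x ∈ tube)
    (h : |x.1 - a| ≤ 1 / 8) : |(Lj F a x).1 - a| ≤ 1 / 8 := by
  rw [← E0_cj]
  exact K3_cj_near hF.toFat a 0 hx h

theorem E0_maps {c : ℝ → V} {F : V → V} (hF : Fat2 c F) (a : ℝ) (x : V) (hx : x ∈ tube) :
    Lj F a x ∈ tube := by
  rw [← E0_cj]
  exact K3_tube_cj hF.toFat a 0 hx

theorem E0_thin {c : ℝ → V} {F : V → V} (hF : Fat2 c F) (a : ℝ) (x : V) (hx : ‖x.2‖ ≤ 5 / 16) :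
    ‖(Lj F a x).2‖ ≤ 5 / 16 := by
  show ‖(F (Linv a x)).2‖ ≤ 5 / 16
  have ht : Linv a x ∈ tube := by
    show ‖x.2‖ ≤ 1 / 2
    linarith
  rcases le_total |(Linv a x).1| (1 / 4) with h | h
  · exact hF.thin _ ht h
  · obtain ⟨ρ, hρ, -, hρe⟩ := hF.ends
    rw [hρe _ ht h]
    show ‖(ρ (Linv a x).1 : ℂ) * x.2‖ ≤ 5 / 16
    obtain ⟨h1, h2⟩ := hρ (Linv a x).1
    rw [norm_mul, Complex.norm_real, Real.norm_of_nonneg h1.le]
    have := norm_nonneg x.2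
    nlinarith

theorem E0_inj {c : ℝ → V} {F : V → V} (hF : Fat2 c F) (a : ℝ) : InjOn (Lj F a) tube := by
  rw [← E0_cj']
  exact K3_cj_inj hF.toFat a 0

theorem E0_far {a b : ℝ} (h : 1 / 4 ≤ |a - b|) {y : ℝ} (hy : |y - a| ≤ 1 / 8) :
    1 / 8 ≤ |y - b| := by
  have h1 := abs_sub_le a y b
  rw [abs_sub_comm a y] at h1
  linarith

theorem E0_comm1 {c c' : ℝ → V} {F G : V → V} (hF : Fat2 c F) (hG : Fat2 c' G) (a b : ℝ)
    (h : 1 / 4 ≤ |a - b|) (x : V) (hx : x ∈ tube) (hxa : |x.1 - a| ≤ 1 / 8) :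
    Lj F a (Lj G b x) = Lj G b (Lj F a x) := by
  rw [E0_std hG b x (E0_far h hxa), E0_std hG b (Lj F a x) (E0_far h (E0_near hF a x hx hxa))]

theorem E0_comm {c c' : ℝ → V} {F G : V → V} (hF : Fat2 c F) (hG : Fat2 c' G) (a b : ℝ)
    (h : 1 / 4 ≤ |a - b|) (x : V) (hx : x ∈ tube) : Lj F a (Lj G b x) = Lj G b (Lj F a x) := by
  rcases le_total |x.1 - a| (1 / 8) with h1 | h1
  · exact E0_comm1 hF hG a b h x hx h1
  · rcases le_total |x.1 - b| (1 / 8) with h2 | h2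
    · exact (E0_comm1 hG hF b a (by rwa [abs_sub_comm]) x hx h2).symm
    · rw [E0_std hF a x h1, E0_std hG b x h2, E0_std hF a x h1]

theorem E0_axis {c : ℝ → V} {F : V → V} (hF : Fat2 (cor c) F) (a t : ℝ) :
    Lj F a (t, 0) = Aff a (c (32 * (t - a))) := by
  have h1 : Linv a (t, 0) = (8 * (t - a), 0) := rfl
  show Lmap a (F (Linv a (t, 0))) = Aff a (c (32 * (t - a)))
  rw [h1, hF.core]
  unfold cor Aff Lmap
  have h2 : (4 : ℝ) * (8 * (t - a)) = 32 * (t - a) := by ring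
  rw [h2]
  refine Prod.ext ?_ ?_
  · show (1 / 4 : ℝ) * (c (32 * (t - a))).1 / 8 + a = (c (32 * (t - a))).1 / 32 + a
    ring
  · show (1 / 4 : ℝ) • (c (32 * (t - a))).2 = (c (32 * (t - a))).2 / 4
    rw [Complex.real_smul]
    push_cast
    ring

theorem E0_aff (F : V → V) (a : ℝ) (x : V) : Aff a (Fh F x) = Lj F a (Aff a x) := by
  have h1 : Linv a (Aff a x) = (1 / 4 : ℝ) • x := by
    refine Prod.ext ?_ ?_
    · show 8 * (x.1 / 32 + a - a) = (1 / 4 : ℝ) * x.1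
      ring
    · show x.2 / 4 = (1 / 4 : ℝ) • x.2
      rw [Complex.real_smul]
      push_cast
      ring
  show Aff a ((4 : ℝ) • F ((1 / 4 : ℝ) • x)) = Lmap a (F (Linv a (Aff a x)))
  rw [h1]
  refine Prod.ext ?_ ?_
  · show (4 : ℝ) * (F ((1 / 4 : ℝ) • x)).1 / 32 + a = (F ((1 / 4 : ℝ) • x)).1 / 8 + a
    ring
  · show (4 : ℝ) • (F ((1 / 4 : ℝ) • x)).2 / 4 = (F ((1 / 4 : ℝ) • x)).2
    rw [Complex.real_smul]
    push_cast
    ring

theorem E0_smooth1 {F : V → V} (hF : ContDiff ℝ ∞ F) :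
    ContDiff ℝ ∞ (fun q : ℝ × V => Lj F q.1 q.2) :=
  K3_Lmap_contDiff.comp (contDiff_fst.prodMk (hF.comp K3_Linv_contDiff))

theorem E0_smooth {F : V → V} (hF : ContDiff ℝ ∞ F) (a : ℝ) : ContDiff ℝ ∞ (Lj F a) := by
  rw [← E0_cj']
  exact K3_cj_smooth hF a 0

theorem E0_imm {c : ℝ → V} {F : V → V} (hF : Fat2 c F) (a : ℝ) {x : V} (hx : x ∈ tube) :
    Function.Injective (fderiv ℝ (Lj F a) x) := by
  rw [← E0_cj']
  exact K3_cj_imm hF.toFat a 0 hx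

theorem E0_half {c : ℝ → V} {F : V → V} (hF : Fat2 c F) {a : ℝ} (ha : |a| ≤ 1 / 4) {x : V}
    (hx : 1 / 2 ≤ |x.1|) : Lj F a x = x := by
  rw [← E0_cj]
  exact K3_cj_half hF.toFat a 0 ha hx

theorem E0_box {c : ℝ → V} {F : V → V} (hF : Fat2 c F) {a : ℝ} (ha : |a| ≤ 1 / 4) {x : V}
    (hxt : x ∈ tube) (hx : |x.1| ≤ 1 / 2) : |(Lj F a x).1| ≤ 1 / 2 := by
  rw [← E0_cj]
  exact K3_cj_box hF.toFat a 0 ha hxt hx

theorem E0_gen {cF cG cH : ℝ → V} {F G H : V → V} (hF : Fat2 cF F) (hG : Fat2 cG G)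
    (hH : Fat2 cH H) {A B C : ℝ × ℝ → ℝ} (hA : ContDiff ℝ ∞ A) (hB : ContDiff ℝ ∞ B)
    (hC : ContDiff ℝ ∞ C) (h1 : ∀ p : I × I, |A (p.1, p.2)| ≤ 1 / 4)
    (h2 : ∀ p : I × I, |B (p.1, p.2)| ≤ 1 / 4) (h3 : ∀ p : I × I, |C (p.1, p.2)| ≤ 1 / 4) :
    TubeFamily (fun p => Com F G H (A p) (B p) (C p)) := by
  refine ⟨?_, ?_, ?_, ?_, ?_⟩
  · have e1 : ContDiff ℝ ∞ (fun q : (ℝ × ℝ) × V => Lj H (C q.1) q.2) :=
      (E0_smooth1 hH.smooth).comp ((hC.comp contDiff_fst).prodMk contDiff_snd)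
    have e2 : ContDiff ℝ ∞ (fun q : (ℝ × ℝ) × V => Lj G (B q.1) (Lj H (C q.1) q.2)) :=
      (E0_smooth1 hG.smooth).comp ((hB.comp contDiff_fst).prodMk e1)
    exact (E0_smooth1 hF.smooth).comp ((hA.comp contDiff_fst).prodMk e2)
  · intro p x hx y hy h
    have m1 := E0_maps hH (C p) x hx
    have m2 := E0_maps hH (C p) y hy
    exact E0_inj hH _ hx hy (E0_inj hG _ m1 m2 (E0_inj hF _ (E0_maps hG _ _ m1)
      (E0_maps hG _ _ m2) h))
  · intro p x hx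
    have m1 := E0_maps hH (C p) x hx
    have m2 := E0_maps hG (B p) _ m1
    have s1 := E0_smooth hH.smooth (C p)
    have s2 := E0_smooth hG.smooth (B p)
    have s3 := E0_smooth hF.smooth (A p)
    exact K3_inj_comp (s2.comp s1) s3 (K3_inj_comp s1 s2 (E0_imm hH _ hx) (E0_imm hG _ m1))
      (E0_imm hF _ m2)
  · intro p x hx
    show Lj F (A (p.1, p.2)) (Lj G (B (p.1, p.2)) (Lj H (C (p.1, p.2)) x)) = x
    rw [E0_half hH (h3 p) hx, E0_half hG (h2 p) hx, E0_half hF (h1 p) hx]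
  · intro p x hxt hx
    have m1 := E0_maps hH (C (p.1, p.2)) x hxt
    have m2 := E0_maps hG (B (p.1, p.2)) _ m1
    exact ⟨E0_box hF (h1 p) m2 (E0_box hG (h2 p) m1 (E0_box hH (h3 p) hxt hx)),
      E0_maps hF _ _ m2⟩

theorem E0_tube {cF cG cH : ℝ → V} {F G H : V → V} (hF : Fat2 cF F) (hG : Fat2 cG G)
    (hH : Fat2 cH H) {lo hi c : ℝ} (h1 : |lo| ≤ 1 / 4) (h2 : |hi| ≤ 1 / 4) (h3 : |c| ≤ 1 / 4) :
    TubeFamily (Swp F G H lo hi c) := by
  have hlo := abs_le.1 h1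
  have hhi := abs_le.1 h2
  refine E0_gen hF hG hH (A := fun p => hi - p.1 * (hi - lo)) (B := fun p => lo + p.1 * (hi - lo))
    (C := fun _ => c) (by fun_prop) (by fun_prop) contDiff_const ?_ ?_ (fun _ => h3)
  · intro p
    obtain ⟨h4, h5⟩ := p.1.2
    show |hi - (p.1 : ℝ) * (hi - lo)| ≤ 1 / 4
    rw [abs_le]
    constructor <;> nlinarith
  · intro p
    obtain ⟨h4, h5⟩ := p.1.2
    show |lo + (p.1 : ℝ) * (hi - lo)| ≤ 1 / 4
    rw [abs_le]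
    constructor <;> nlinarith

theorem E0_const {cF cG cH : ℝ → V} {F G H : V → V} (hF : Fat2 cF F) (hG : Fat2 cG G)
    (hH : Fat2 cH H) {a b c : ℝ} (h1 : |a| ≤ 1 / 4) (h2 : |b| ≤ 1 / 4) (h3 : |c| ≤ 1 / 4) :
    TubeFamily (fun _ : ℝ × ℝ => Com F G H a b c) := by
  exact E0_gen hF hG hH (A := fun _ => a) (B := fun _ => b) (C := fun _ => c) contDiff_const
    contDiff_const contDiff_const (fun _ => h1) (fun _ => h2) (fun _ => h3)

end LQ
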