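import Pool.Agent.H64.LQ.E0
import Pool.Agent.H64.LQ.T9

/-!
# E1: the loops around the outer knot are translated

Setting: fat knots `F` (outer), `G` (inner), `H` (third), positions `-1/4 ≤ lo`, `lo + 1/4 ≤ hi ≤ 1/4`, `|c| ≤ 1/4`, and `c` at distance at least `1/4` from the
interval `[lo, hi]`. `gA` is the curve of `Com F G H hi lo c`, `gB` that of `Com F G H lo hi c`, `α` the path of knots
`s ↦ ` curve of `Swp F G H lo hi c (s, 0)`, i.e. `t ↦ Lj F b (Lj G a (Lj H c (t, 0)))` with `b = hi - s(hi - lo)`, `a = lo + s(hi - lo)`.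
All the curves have `‖second coordinate‖ ≤ 5/16` (E0_thin), so the half space `Re x.2 ≥ 3/8` (convex) is never met; it contains `xb` and `Aff a xb = (a - 1/16, 3/8)`.

E1: for a loop `ζ` of the box avoiding `Thick F`: the transport along `α` of `sig hi ζ` is `sig lo ζ`.
Proof: T9_family with `γ(s, ·) = sig b(s) ζ` (jointly continuous in `(s, u)`: `sig a ζ u` is given by explicit formulas on `[0,1/2]`, `[1/2,3/4]`, `[3/4,1]`, or use
`Path.trans_continuous_family`). It avoids the curve: let `y = inner(t) = Lj G a (Lj H c (t, 0))`, `‖y.2‖ ≤ 5/16`. The tails have `Re x.2 ≥ 3/8`. For a point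
`Aff b (ζ u)`: its first coordinate is in `[b - 1/8, b + 1/8]`. Suppose `Lj F b y = Aff b (ζ u)`. If `|y.1 - b| ≤ 1/8`: `y = Aff b y'` with `‖y'.2‖ = 4 ‖y.2‖ ≤ 5/4` and
`Lj F b y = Aff b (Fh F y')` (E0_aff), so `ζ u = Fh F y' ∈ Thick F`, contradiction. If `|y.1 - b| > 1/8` then `Lj F b y = y` has first coordinate outside of
`[b - 1/8, b + 1/8]`, contradiction.
-/

open scoped ContDiff unitInterval
open Topology Set

namespace LQ

open LK

theorem E1_sig (ζ : Path xb xb) : Continuous fun q : ℝ × I => sig q.1 ζ q.2 := by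
  have h1 : Continuous ↿(fun a : ℝ => lineP xb (Aff a xb)) := by
    show Continuous fun q : ℝ × I => (1 - (q.2 : ℝ)) • xb + (q.2 : ℝ) • Aff q.1 xb
    unfold Aff
    fun_prop
  have h2 : Continuous ↿(fun a : ℝ => ζ.map (continuous_Aff a)) := by
    show Continuous fun q : ℝ × I => Aff q.1 (ζ q.2)
    unfold Aff
    fun_prop
  exact Path.trans_continuous_family _ h1 _
    (Path.trans_continuous_family _ h2 _ (Path.symm_continuous_family _ h1))

theorem E1_line (a : ℝ) {x : V} (hx : x ∈ range (lineP xb (Aff a xb))) : 3 / 8 ≤ x.2.re := by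
  obtain ⟨t, rfl⟩ := hx
  have h0 := t.2.1
  have h1 := t.2.2
  show 3 / 8 ≤ ((1 - (t : ℝ)) • xb + (t : ℝ) • Aff a xb).2.re
  have e : ((1 - (t : ℝ)) • xb + (t : ℝ) • Aff a xb).2.re =
      (1 - (t : ℝ)) * (3 / 2) + (t : ℝ) * (3 / 8) := by
    simp [xb, Aff]
    left
    norm_num
  rw [e]
  nlinarith

theorem E1_cases (a : ℝ) (ζ : Path xb xb) (u : I) :
    (∃ v, sig a ζ u = Aff a (ζ v)) ∨ 3 / 8 ≤ (sig a ζ u).2.re := by
  have h : sig a ζ u ∈ range (sig a ζ) := ⟨u, rfl⟩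
  unfold sig at h ⊢
  rw [Path.trans_range, Path.trans_range, Path.symm_range] at h
  rcases h with h | h | h
  · exact Or.inr (E1_line a h)
  · left
    obtain ⟨v, hv⟩ := h
    exact ⟨v, hv.symm⟩
  · exact Or.inr (E1_line a h)

theorem E1_Aff_inj (a : ℝ) {x y : V} (h : Aff a x = Aff a y) : x = y := by
  unfold Aff at h
  have h1 := congrArg Prod.fst h
  have h2 := congrArg Prod.snd h
  simp only at h1 h2
  refine Prod.ext (by linarith) ?_
  have h3 : (4 : ℂ) ≠ 0 := by norm_num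
  field_simp at h2
  exact h2

theorem E1_avoid {cF cG cH : ℝ → V} {F G H : V → V} (hF : Fat2 cF F) (hG : Fat2 cG G)
    (hH : Fat2 cH H) (b a c : ℝ) (ζ : Path xb xb) (hth : ∀ u, ζ u ∉ Thick F) (t : ℝ) (u : I) :
    Com F G H b a c (t, 0) ≠ sig b ζ u := by
  intro he
  have y2 : ‖(Lj G a (Lj H c (t, 0))).2‖ ≤ 5 / 16 :=
    E0_thin hG a _ (E0_thin hH c _ (by norm_num))
  rcases E1_cases b ζ u with ⟨v, hv⟩ | hv
  · rw [hv] at he
    set y := Lj G a (Lj H c (t, 0)) with hy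
    have e1 : Aff b (32 * (y.1 - b), 4 * y.2) = y := by
      unfold Aff
      refine Prod.ext ?_ ?_
      · show 32 * (y.1 - b) / 32 + b = y.1
        ring
      · show 4 * y.2 / 4 = y.2
        ring
    have e2 : Aff b (Fh F (32 * (y.1 - b), 4 * y.2)) = Aff b (ζ v) := by
      rw [E0_aff, e1]
      exact he
    apply hth v
    refine ⟨(32 * (y.1 - b), 4 * y.2), ?_, E1_Aff_inj b e2⟩
    show ‖4 * y.2‖ ≤ 5 / 4
    rw [norm_mul]
    have : ‖(4 : ℂ)‖ = 4 := by norm_num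
    rw [this]
    linarith
  · have h1 : ‖(Com F G H b a c (t, 0)).2‖ ≤ 5 / 16 := E0_thin hF b _ y2
    rw [he] at h1
    have h2 := Complex.re_le_norm (sig b ζ u).2
    linarith


theorem E1_tst (hi lo : ℝ) : Continuous fun q : I × I => ((hi - (q.1 : ℝ) * (hi - lo), q.2) : ℝ × I) := by
  have h1 : Continuous fun q : I × I => (q.1 : ℝ) := continuous_subtype_val.comp continuous_fst
  exact (continuous_const.sub (h1.mul continuous_const)).prodMk continuous_snd

theorem E1_sig2 (hi lo : ℝ) (ζ : Path xb xb) : ∃ Γ : C(I × I, V), ∀ s u, Γ (s, u) = sig (hi - (s : ℝ) * (hi - lo)) ζ u := by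
  have h := (E1_sig ζ).comp (E1_tst hi lo)
  simp only [Function.comp_def] at h
  refine ⟨⟨_, h⟩, ?_⟩
  intro s u
  simp only [ContinuousMap.coe_mk]

theorem E1 {cF cG cH : ℝ → V} {F G H : V → V} (hF : Fat2 (cor cF) F) (hG : Fat2 (cor cG) G)
    (hH : Fat2 (cor cH) H) {lo hi c : ℝ} (h1 : -1 / 4 ≤ lo) (h2 : lo + 1 / 4 ≤ hi)
    (h3 : hi ≤ 1 / 4) (h4 : |c| ≤ 1 / 4) (h5 : c + 1 / 4 ≤ lo ∨ hi + 1 / 4 ≤ c)
    {gA gB : ℝ → V} (hA : VKnot gA) (hB : VKnot gB) (eA : ∀ t, gA t = Com F G H hi lo c (t, 0))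
    (eB : ∀ t, gB t = Com F G H lo hi c (t, 0)) (α : Path (mkK hA) (mkK hB))
    (hα : ∀ (s : I) (t : ℝ), (α s).1 t = toE (Swp F G H lo hi c (s, 0) (t, 0)))
    (ζ : Path xb xb) (hbox : ∀ u, InBox (ζ u)) (hth : ∀ u, ζ u ∉ Thick F)
    (γ : Path (xM hA) (xM hA)) (γ' : Path (xM hB) (xM hB)) (e : ∀ u, (γ u).1 = sig hi ζ u)
    (e' : ∀ u, (γ' u).1 = sig lo ζ u) : Tr hA hB α (cls γ) = cls γ' := by
  obtain ⟨Γ, hΓ⟩ := E1_sig2 hi lo ζ
  refine T9_family hA hB α Γ ?_ ?_ ?_ γ γ' ?_ ?_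
  · intro s u t h
    rw [hα, hΓ] at h
    exact E1_avoid hF hG hH (hi - (s : ℝ) * (hi - lo)) (lo + (s : ℝ) * (hi - lo)) c ζ hth t u
      (toE.injective h)
  · intro s
    rw [hΓ, Path.source]
  · intro s
    rw [hΓ, Path.target]
  · intro u
    rw [e u, hΓ]
    congr 2
    simp
  · intro u
    rw [e' u, hΓ]
    congr 2
    simp

end LQ
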