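import Pool.Agent.H64.LQ.GDefs

/-!
# G1a: stereographic charts and the torus knot in the chart centred at `P = (1, 1)`

Elementary algebra. With `n = nsq x`: `‖(Em q x).1‖² + ‖(Em q x).2‖² = 2((1-n)² + 4n)/(1+n)² = 2` (`(2/N)²... : (8/N²)((2y0 - q y2)² + (q y0 + 2 y2)²) = 8 (y0² + y2²)`, `N² = 4 + q²`).
`Emi (Em x) = x` (`1 + (Re z + Re w)/2 = 2/(1+n)`), `Em (Emi y) = y` for `y` on the sphere, `y ≠ (-1,-1)` (then `1 + (Re z + Re w)/2 ≠ 0`: `Re z + Re w = -2` and `|z|² + |w|² = 2` force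
`z = w = -1` by Cauchy-Schwarz). `Em (inv3 x) = Ep x` for `x ≠ 0` (`nsq (inv3 x) = 1/nsq x`). `Ep 0 = (-1, -1)`, `Em 0 = (1, 1)`. `Em x = (-1,-1)` never happens, `Em x = (1,1)` iff `x = 0`.
The curve `kk q θ = Emi (K(θ))`, `q` odd: `1 + (cos 2θ + cos qθ)/2 > 0` always (`cos 2θ = -1` gives `θ = π/2 + jπ`, where `cos qθ = 0`), so `kk` is smooth; `2π`-periodic;
`Em (kk θ) = K θ`; `kk θ = kk θ'` iff `K θ = K θ'` iff `θ - θ' ∈ 2πℤ` (`e^{2i(θ-θ')} = 1` and `e^{iq(θ-θ')} = 1`, `q` odd); `kk 0 = 0`; `deriv kk 0 = (m₀, 0)`: first component `(4 + q²)/(N√2 · 2) = N/(2√2)`,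
the others: derivative of `cos 2θ - cos qθ` at `0` is `0` and `-2q + 2q = 0`. `deriv kk θ ≠ 0`: `K = Em ∘ kk` and `K' θ ≠ 0` (`|K'| ² = 4 + q²`), chain rule (`Em` smooth).
-/

open scoped ContDiff unitInterval
open Topology Set

namespace LQ

open LK

theorem G1a_Npos (q : ℕ) : 0 < Nq q := Real.sqrt_pos.2 (by positivity)

theorem G1a_Nsq (q : ℕ) : Nq q ^ 2 = 4 + (q : ℝ) ^ 2 := Real.sq_sqrt (by positivity)

theorem G1a_s2 : (Real.sqrt 2) ^ 2 = 2 := Real.sq_sqrt (by norm_num)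

theorem G1a_s2pos : 0 < Real.sqrt 2 := Real.sqrt_pos.2 (by norm_num)

theorem G1a_OnS_iff (y : ℂ × ℂ) :
    OnS y ↔ y.1.re ^ 2 + y.1.im ^ 2 + (y.2.re ^ 2 + y.2.im ^ 2) = 2 := by
  unfold OnS
  rw [Complex.sq_norm, Complex.sq_norm, Complex.normSq_apply, Complex.normSq_apply]
  constructor <;> intro h <;> linarith

theorem G1a_nsq (x : V) : nsq x = x.1 ^ 2 + (x.2.re ^ 2 + x.2.im ^ 2) := by
  unfold nsq
  rw [Complex.sq_norm, Complex.normSq_apply]
  ring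

theorem G1a_nsq_nonneg (x : V) : 0 ≤ nsq x := by
  unfold nsq
  positivity

theorem G1a_re (a b c : ℝ) : (((a : ℝ) + (b : ℝ) * Complex.I) / ((c : ℝ) : ℂ)).re = a / c := by
  rw [Complex.div_ofReal_re]
  simp

theorem G1a_im (a b c : ℝ) : (((a : ℝ) + (b : ℝ) * Complex.I) / ((c : ℝ) : ℂ)).im = b / c := by
  rw [Complex.div_ofReal_im]
  simp

theorem G1a_e1 (q : ℕ) (x : V) : (Em q x).1.re = (1 - nsq x + 2 * x.2.re) / (1 + nsq x) :=
  G1a_re _ _ _

theorem G1a_e2 (q : ℕ) (x : V) :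
    (Em q x).1.im = (2 * Real.sqrt 2 / Nq q * (2 * x.1 - q * x.2.im)) / (1 + nsq x) :=
  G1a_im _ _ _

theorem G1a_e3 (q : ℕ) (x : V) : (Em q x).2.re = (1 - nsq x - 2 * x.2.re) / (1 + nsq x) :=
  G1a_re _ _ _

theorem G1a_e4 (q : ℕ) (x : V) :
    (Em q x).2.im = (2 * Real.sqrt 2 / Nq q * (q * x.1 + 2 * x.2.im)) / (1 + nsq x) :=
  G1a_im _ _ _

theorem G1a_f1 (q : ℕ) (x : V) : (Ep q x).1.re = (nsq x - 1 + 2 * x.2.re) / (1 + nsq x) :=
  G1a_re _ _ _

theorem G1a_f2 (q : ℕ) (x : V) :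
    (Ep q x).1.im = (2 * Real.sqrt 2 / Nq q * (2 * x.1 - q * x.2.im)) / (1 + nsq x) :=
  G1a_im _ _ _

theorem G1a_f3 (q : ℕ) (x : V) : (Ep q x).2.re = (nsq x - 1 - 2 * x.2.re) / (1 + nsq x) :=
  G1a_re _ _ _

theorem G1a_f4 (q : ℕ) (x : V) :
    (Ep q x).2.im = (2 * Real.sqrt 2 / Nq q * (q * x.1 + 2 * x.2.im)) / (1 + nsq x) :=
  G1a_im _ _ _

/-- the denominator of the stereographic projection -/
theorem G1a_den (y : ℂ × ℂ) (hy : OnS y) (h : y ≠ (-1, -1)) :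
    1 + (y.1.re + y.2.re) / 2 ≠ 0 := by
  intro h0
  apply h
  rw [G1a_OnS_iff] at hy
  have h1 : y.1.re + y.2.re = -2 := by linarith
  have h2 : y.2.re = -2 - y.1.re := by linarith
  rw [h2] at hy
  have h3 : 2 * (y.1.re + 1) ^ 2 + y.1.im ^ 2 + y.2.im ^ 2 = 0 := by nlinarith
  have h4 : y.1.re = -1 := by
    have : (y.1.re + 1) ^ 2 = 0 := by
      nlinarith [sq_nonneg y.1.im, sq_nonneg y.2.im, sq_nonneg (y.1.re + 1)]
    have := pow_eq_zero_iff (two_ne_zero) |>.1 this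
    linarith
  have h5 : y.1.im = 0 := by
    have : y.1.im ^ 2 = 0 := by
      nlinarith [sq_nonneg y.1.im, sq_nonneg y.2.im, sq_nonneg (y.1.re + 1)]
    exact pow_eq_zero_iff (two_ne_zero) |>.1 this
  have h6 : y.2.im = 0 := by
    have : y.2.im ^ 2 = 0 := by
      nlinarith [sq_nonneg y.1.im, sq_nonneg y.2.im, sq_nonneg (y.1.re + 1)]
    exact pow_eq_zero_iff (two_ne_zero) |>.1 this
  refine Prod.ext (Complex.ext ?_ ?_) (Complex.ext ?_ ?_)
  · rw [h4]; simp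
  · rw [h5]; simp
  · rw [h2, h4]; norm_num
  · rw [h6]; simp

theorem G1a_OnS (q : ℕ) (x : V) : OnS (Em q x) := by
  rw [G1a_OnS_iff, G1a_e1, G1a_e2, G1a_e3, G1a_e4]
  have hN := G1a_Nsq q
  have hN0 := (G1a_Npos q).ne'
  have hs := G1a_s2
  have hn : 1 + nsq x ≠ 0 := by
    have := G1a_nsq_nonneg x
    linarith
  have hx := G1a_nsq x
  have h1 : (2 * Real.sqrt 2 / Nq q * (2 * x.1 - q * x.2.im)) ^ 2 +
      (2 * Real.sqrt 2 / Nq q * (q * x.1 + 2 * x.2.im)) ^ 2 = 8 * (x.1 ^ 2 + x.2.im ^ 2) := by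
    have e : (2 * Real.sqrt 2 / Nq q * (2 * x.1 - q * x.2.im)) ^ 2 +
      (2 * Real.sqrt 2 / Nq q * (q * x.1 + 2 * x.2.im)) ^ 2 =
      4 * Real.sqrt 2 ^ 2 / Nq q ^ 2 * ((4 + (q : ℝ) ^ 2) * (x.1 ^ 2 + x.2.im ^ 2)) := by
      field_simp
      ring
    rw [e, hs, hN]
    have : (4 + (q : ℝ) ^ 2) ≠ 0 := by positivity
    field_simp
    ring
  simp only [div_pow]
  rw [← add_div, ← add_div, ← add_div, div_eq_iff (by positivity)]
  nlinarith [h1, hx]

theorem G1a_OnSp (q : ℕ) (x : V) : OnS (Ep q x) := by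
  have h := G1a_OnS q x
  rw [G1a_OnS_iff, G1a_e1, G1a_e2, G1a_e3, G1a_e4] at h
  rw [G1a_OnS_iff, G1a_f1, G1a_f2, G1a_f3, G1a_f4]
  have e1 : (nsq x - 1 + 2 * x.2.re) / (1 + nsq x) = -((1 - nsq x - 2 * x.2.re) / (1 + nsq x)) := by
    rw [← neg_div]; congr 1; ring
  have e2 : (nsq x - 1 - 2 * x.2.re) / (1 + nsq x) = -((1 - nsq x + 2 * x.2.re) / (1 + nsq x)) := by
    rw [← neg_div]; congr 1; ring
  rw [e1, e2, neg_sq, neg_sq]
  linarith

theorem G1a_left (q : ℕ) (x : V) : Emi q (Em q x) = x := by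
  have hN := G1a_Nsq q
  have hN0 := (G1a_Npos q).ne'
  have hs := G1a_s2
  have hs0 := G1a_s2pos.ne'
  have hn : 1 + nsq x ≠ 0 := by
    have := G1a_nsq_nonneg x
    linarith
  have hD : 1 + ((Em q x).1.re + (Em q x).2.re) / 2 = 2 / (1 + nsq x) := by
    rw [G1a_e1, G1a_e3]
    field_simp
    ring
  unfold Emi
  rw [hD]
  refine Prod.ext ?_ (Complex.ext ?_ ?_)
  · show (2 * (Em q x).1.im + q * (Em q x).2.im) / (Nq q * Real.sqrt 2 * (2 / (1 + nsq x))) = x.1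
    rw [G1a_e2, G1a_e4]
    have e : 2 * (2 * Real.sqrt 2 / Nq q * (2 * x.1 - q * x.2.im) / (1 + nsq x)) +
      q * (2 * Real.sqrt 2 / Nq q * (q * x.1 + 2 * x.2.im) / (1 + nsq x)) =
      2 * Real.sqrt 2 / Nq q * ((4 + (q : ℝ) ^ 2) * x.1) / (1 + nsq x) := by
      ring
    rw [e, ← hN]
    field_simp
  · show ((Em q x).1.re - (Em q x).2.re) / (2 * (2 / (1 + nsq x))) = x.2.re
    rw [G1a_e1, G1a_e3]
    field_simp
    ring
  · show (-q * (Em q x).1.im + 2 * (Em q x).2.im) / (Nq q * Real.sqrt 2 * (2 / (1 + nsq x))) =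
      x.2.im
    rw [G1a_e2, G1a_e4]
    have e : -(q : ℝ) * (2 * Real.sqrt 2 / Nq q * (2 * x.1 - q * x.2.im) / (1 + nsq x)) +
      2 * (2 * Real.sqrt 2 / Nq q * (q * x.1 + 2 * x.2.im) / (1 + nsq x)) =
      2 * Real.sqrt 2 / Nq q * ((4 + (q : ℝ) ^ 2) * x.2.im) / (1 + nsq x) := by
      ring
    rw [e, ← hN]
    field_simp

theorem G1a_right (q : ℕ) (y : ℂ × ℂ) (hy : OnS y) (h : y ≠ (-1, -1)) : Em q (Emi q y) = y := by
  have hN := G1a_Nsq q
  have hN0 := (G1a_Npos q).ne'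
  have hs := G1a_s2
  have hs0 := G1a_s2pos.ne'
  have hD := G1a_den y hy h
  rw [G1a_OnS_iff] at hy
  set D := 1 + (y.1.re + y.2.re) / 2 with hDdef
  have x1 : (Emi q y).1 = (2 * y.1.im + q * y.2.im) / (Nq q * Real.sqrt 2 * D) := rfl
  have x2 : (Emi q y).2.re = (y.1.re - y.2.re) / (2 * D) := rfl
  have x3 : (Emi q y).2.im = (-q * y.1.im + 2 * y.2.im) / (Nq q * Real.sqrt 2 * D) := rfl
  have h1 : ((2 * y.1.im + q * y.2.im) / (Nq q * Real.sqrt 2 * D)) ^ 2 +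
      ((-q * y.1.im + 2 * y.2.im) / (Nq q * Real.sqrt 2 * D)) ^ 2 =
      (y.1.im ^ 2 + y.2.im ^ 2) / (2 * D ^ 2) := by
    have e : ((2 * y.1.im + q * y.2.im) / (Nq q * Real.sqrt 2 * D)) ^ 2 +
      ((-q * y.1.im + 2 * y.2.im) / (Nq q * Real.sqrt 2 * D)) ^ 2 =
      ((4 + (q : ℝ) ^ 2) * (y.1.im ^ 2 + y.2.im ^ 2)) / (Nq q ^ 2 * (Real.sqrt 2 ^ 2 * D ^ 2)) := by
      field_simp
      ring
    rw [e, hs, ← hN]
    field_simp
  have hn : 1 + nsq (Emi q y) = 2 / D := by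
    rw [G1a_nsq, x1, x2, x3]
    have e : 1 + (((2 * y.1.im + q * y.2.im) / (Nq q * Real.sqrt 2 * D)) ^ 2 +
      (((y.1.re - y.2.re) / (2 * D)) ^ 2 +
      ((-q * y.1.im + 2 * y.2.im) / (Nq q * Real.sqrt 2 * D)) ^ 2)) =
      1 + ((y.1.re - y.2.re) / (2 * D)) ^ 2 + (y.1.im ^ 2 + y.2.im ^ 2) / (2 * D ^ 2) := by
      rw [← h1]; ring
    rw [e]
    field_simp
    rw [hDdef]
    nlinarith [hy]
  have hn' : nsq (Emi q y) = 2 / D - 1 := by linarith
  have hN2 : ∀ t : ℝ, 2 * Real.sqrt 2 / Nq q * (t / (Nq q * Real.sqrt 2 * D)) =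
      2 * t / ((4 + (q : ℝ) ^ 2) * D) := by
    intro t
    rw [← hN]
    field_simp
  have h4 : (4 + (q : ℝ) ^ 2) ≠ 0 := by positivity
  refine Prod.ext (Complex.ext ?_ ?_) (Complex.ext ?_ ?_)
  · rw [G1a_e1, hn, hn', x2, div_eq_iff (by positivity)]
    field_simp
    rw [hDdef]
    ring
  · rw [G1a_e2, hn, x1, x3, div_eq_iff (by positivity)]
    have e : 2 * Real.sqrt 2 / Nq q * (2 * ((2 * y.1.im + q * y.2.im) / (Nq q * Real.sqrt 2 * D)) -
        q * ((-q * y.1.im + 2 * y.2.im) / (Nq q * Real.sqrt 2 * D))) =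
        2 * Real.sqrt 2 / Nq q * (((4 + (q : ℝ) ^ 2) * y.1.im) / (Nq q * Real.sqrt 2 * D)) := by
      ring
    rw [e, hN2]
    field_simp
  · rw [G1a_e3, hn, hn', x2, div_eq_iff (by positivity)]
    field_simp
    rw [hDdef]
    ring
  · rw [G1a_e4, hn, x1, x3, div_eq_iff (by positivity)]
    have e : 2 * Real.sqrt 2 / Nq q * (q * ((2 * y.1.im + q * y.2.im) / (Nq q * Real.sqrt 2 * D)) +
        2 * ((-q * y.1.im + 2 * y.2.im) / (Nq q * Real.sqrt 2 * D))) =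
        2 * Real.sqrt 2 / Nq q * (((4 + (q : ℝ) ^ 2) * y.2.im) / (Nq q * Real.sqrt 2 * D)) := by
      ring
    rw [e, hN2]
    field_simp

theorem G1a_ne (q : ℕ) (x : V) : Em q x ≠ (-1, -1) := by
  intro h
  have h1 := congrArg (fun y : ℂ × ℂ => y.1.re) h
  have h2 := congrArg (fun y : ℂ × ℂ => y.2.re) h
  simp only [Complex.neg_re, Complex.one_re] at h1 h2
  rw [G1a_e1] at h1
  rw [G1a_e3] at h2
  have hn : 1 + nsq x ≠ 0 := by
    have := G1a_nsq_nonneg x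
    linarith
  rw [div_eq_iff hn] at h1 h2
  linarith

theorem G1a_nsq_pos (x : V) (hx : x ≠ 0) : 0 < nsq x := by
  rcases (G1a_nsq_nonneg x).eq_or_lt with h | h
  · exfalso
    apply hx
    have h' := h.symm
    unfold nsq at h'
    have h1 : x.1 ^ 2 = 0 := by nlinarith [sq_nonneg x.1, sq_nonneg ‖x.2‖]
    have h2 : ‖x.2‖ ^ 2 = 0 := by nlinarith [sq_nonneg x.1, sq_nonneg ‖x.2‖]
    refine Prod.ext ?_ ?_
    · exact pow_eq_zero_iff (two_ne_zero) |>.1 h1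
    · exact norm_eq_zero.1 (pow_eq_zero_iff (two_ne_zero) |>.1 h2)
  · exact h

theorem G1a_nsq_inv (x : V) (hx : x ≠ 0) : nsq (inv3 x) = (nsq x)⁻¹ := by
  have h0 := G1a_nsq_pos x hx
  have e1 : (inv3 x).1 = (nsq x)⁻¹ * x.1 := rfl
  have e2 : (inv3 x).2 = ((nsq x)⁻¹ : ℝ) • x.2 := rfl
  have e3 : nsq (inv3 x) = (nsq x)⁻¹ ^ 2 * nsq x := by
    have : nsq (inv3 x) = (inv3 x).1 ^ 2 + ‖(inv3 x).2‖ ^ 2 := rfl
    rw [this, e1, e2, norm_smul, Real.norm_eq_abs, mul_pow, mul_pow, sq_abs]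
    show _ = (nsq x)⁻¹ ^ 2 * (x.1 ^ 2 + ‖x.2‖ ^ 2)
    ring
  rw [e3]
  field_simp

theorem G1a_inv (q : ℕ) (x : V) (hx : x ≠ 0) : Em q (inv3 x) = Ep q x := by
  have h0 := G1a_nsq_pos x hx
  have h0' := h0.ne'
  have e1 : (inv3 x).1 = (nsq x)⁻¹ * x.1 := rfl
  have e2 : (inv3 x).2 = ((nsq x)⁻¹ : ℝ) • x.2 := rfl
  have e3 : (inv3 x).2.re = (nsq x)⁻¹ * x.2.re := by rw [e2, Complex.smul_re, smul_eq_mul]
  have e4 : (inv3 x).2.im = (nsq x)⁻¹ * x.2.im := by rw [e2, Complex.smul_im, smul_eq_mul]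
  have hn := G1a_nsq_inv x hx
  have hn1 : 1 + nsq x ≠ 0 := by linarith
  have hn2 : 1 + (nsq x)⁻¹ ≠ 0 := by positivity
  have hN0 := (G1a_Npos q).ne'
  refine Prod.ext (Complex.ext ?_ ?_) (Complex.ext ?_ ?_)
  · rw [G1a_e1, G1a_f1, hn, e3]
    field_simp
    ring
  · rw [G1a_e2, G1a_f2, hn, e1, e4]
    field_simp
    ring
  · rw [G1a_e3, G1a_f3, hn, e3]
    field_simp
    ring
  · rw [G1a_e4, G1a_f4, hn, e1, e4]
    field_simp
    ring

theorem G1a_zero (q : ℕ) : Em q 0 = (1, 1) ∧ Ep q 0 = (-1, -1) := by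
  have h : nsq (0 : V) = 0 := by simp [nsq]
  constructor
  · refine Prod.ext (Complex.ext ?_ ?_) (Complex.ext ?_ ?_)
    · rw [G1a_e1, h]; simp
    · rw [G1a_e2, h]; simp
    · rw [G1a_e3, h]; simp
    · rw [G1a_e4, h]; simp
  · refine Prod.ext (Complex.ext ?_ ?_) (Complex.ext ?_ ?_)
    · rw [G1a_f1, h]; simp
    · rw [G1a_f2, h]; simp
    · rw [G1a_f3, h]; simp
    · rw [G1a_f4, h]; simp

theorem G1a_cont_nsq : Continuous nsq := by
  unfold nsq
  fun_prop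

theorem G1a_n1 (x : V) : ((1 + nsq x : ℝ) : ℂ) ≠ 0 := by
  have := G1a_nsq_nonneg x
  exact Complex.ofReal_ne_zero.2 (by linarith)

theorem G1a_contEm (q : ℕ) : Continuous (Em q) ∧ Continuous (Ep q) := by
  have hc := G1a_cont_nsq
  constructor
  · unfold Em
    refine Continuous.prodMk (Continuous.div ?_ ?_ G1a_n1) (Continuous.div ?_ ?_ G1a_n1) <;>
      fun_prop
  · unfold Ep
    refine Continuous.prodMk (Continuous.div ?_ ?_ G1a_n1) (Continuous.div ?_ ?_ G1a_n1) <;>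
      fun_prop

theorem G1a_Emi_eq (q : ℕ) : Emi q = fun y => ((2 * y.1.im + q * y.2.im) /
      (Nq q * Real.sqrt 2 * (1 + (y.1.re + y.2.re) / 2)),
    ((((y.1.re - y.2.re) / (2 * (1 + (y.1.re + y.2.re) / 2)) : ℝ) : ℂ) +
      (((-q * y.1.im + 2 * y.2.im) / (Nq q * Real.sqrt 2 * (1 + (y.1.re + y.2.re) / 2)) : ℝ) : ℂ) *
        Complex.I)) := by
  funext y
  exact Prod.ext rfl (Complex.mk_eq_add_mul_I _ _)

theorem G1a_contEmi (q : ℕ) : ContinuousOn (Emi q) {y | OnS y ∧ y ≠ (-1, -1)} := by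
  have hN0 := (G1a_Npos q).ne'
  have hs0 := G1a_s2pos.ne'
  rw [G1a_Emi_eq]
  have hd : ∀ y ∈ {y : ℂ × ℂ | OnS y ∧ y ≠ (-1, -1)}, 1 + (y.1.re + y.2.re) / 2 ≠ 0 :=
    fun y hy => G1a_den y hy.1 hy.2
  have hd1 : ∀ y ∈ {y : ℂ × ℂ | OnS y ∧ y ≠ (-1, -1)},
      Nq q * Real.sqrt 2 * (1 + (y.1.re + y.2.re) / 2) ≠ 0 :=
    fun y hy => mul_ne_zero (mul_ne_zero hN0 hs0) (hd y hy)
  have hd2 : ∀ y ∈ {y : ℂ × ℂ | OnS y ∧ y ≠ (-1, -1)},
      2 * (1 + (y.1.re + y.2.re) / 2) ≠ 0 :=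
    fun y hy => mul_ne_zero two_ne_zero (hd y hy)
  have c1 : ContinuousOn (fun y : ℂ × ℂ => (2 * y.1.im + q * y.2.im) /
      (Nq q * Real.sqrt 2 * (1 + (y.1.re + y.2.re) / 2))) {y | OnS y ∧ y ≠ (-1, -1)} :=
    ContinuousOn.div (by fun_prop) (by fun_prop) hd1
  have c2 : ContinuousOn (fun y : ℂ × ℂ => (y.1.re - y.2.re) / (2 * (1 + (y.1.re + y.2.re) / 2)))
      {y | OnS y ∧ y ≠ (-1, -1)} :=
    ContinuousOn.div (by fun_prop) (by fun_prop) hd2
  have c3 : ContinuousOn (fun y : ℂ × ℂ => (-q * y.1.im + 2 * y.2.im) /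
      (Nq q * Real.sqrt 2 * (1 + (y.1.re + y.2.re) / 2))) {y | OnS y ∧ y ≠ (-1, -1)} :=
    ContinuousOn.div (by fun_prop) (by fun_prop) hd1
  exact c1.prodMk ((Complex.continuous_ofReal.comp_continuousOn c2).add
    ((Complex.continuous_ofReal.comp_continuousOn c3).mul continuousOn_const))

theorem G1a_exp_re (t : ℝ) : (Complex.exp (t * Complex.I)).re = Real.cos t :=
  Complex.exp_ofReal_mul_I_re t

theorem G1a_exp_im (t : ℝ) : (Complex.exp (t * Complex.I)).im = Real.sin t :=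
  Complex.exp_ofReal_mul_I_im t

theorem G1a_KK (q : ℕ) (θ : ℝ) : KK q θ =
    (Complex.exp (((2 * θ : ℝ) : ℂ) * Complex.I), Complex.exp (((q * θ : ℝ) : ℂ) * Complex.I)) := by
  unfold KK
  push_cast
  rfl

theorem G1a_KKOnS (q : ℕ) (θ : ℝ) : OnS (KK q θ) := by
  rw [G1a_KK]
  unfold OnS
  rw [Complex.norm_exp_ofReal_mul_I, Complex.norm_exp_ofReal_mul_I]
  norm_num

theorem G1a_KKpow (q : ℕ) (θ : ℝ) : (KK q θ).1 ^ q = (KK q θ).2 ^ 2 := by
  unfold KK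
  rw [← Complex.exp_nat_mul, ← Complex.exp_nat_mul]
  congr 1
  push_cast
  ring

theorem G1a_KKne (q : ℕ) (hq : Odd q) (θ : ℝ) : KK q θ ≠ (-1, -1) := by
  intro h
  have h1 := G1a_KKpow q θ
  rw [h] at h1
  simp only [hq.neg_one_pow] at h1
  norm_num at h1

theorem G1a_KKden (q : ℕ) (hq : Odd q) (θ : ℝ) :
    1 + (Real.cos (2 * θ) + Real.cos (q * θ)) / 2 ≠ 0 := by
  have h := G1a_den _ (G1a_KKOnS q θ) (G1a_KKne q hq θ)
  rw [G1a_KK] at h
  simp only [G1a_exp_re] at h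
  exact h

theorem G1a_kk (q : ℕ) : kk q = fun θ => ((2 * Real.sin (2 * θ) + q * Real.sin (q * θ)) /
      (Nq q * Real.sqrt 2 * (1 + (Real.cos (2 * θ) + Real.cos (q * θ)) / 2)),
    ((((Real.cos (2 * θ) - Real.cos (q * θ)) /
        (2 * (1 + (Real.cos (2 * θ) + Real.cos (q * θ)) / 2)) : ℝ) : ℂ) +
      (((-q * Real.sin (2 * θ) + 2 * Real.sin (q * θ)) /
        (Nq q * Real.sqrt 2 * (1 + (Real.cos (2 * θ) + Real.cos (q * θ)) / 2)) : ℝ) : ℂ) *
        Complex.I)) := by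
  funext θ
  unfold kk
  rw [G1a_Emi_eq, G1a_KK]
  simp only [G1a_exp_re, G1a_exp_im]

theorem G1a_smooth (q : ℕ) (hq : Odd q) : ContDiff ℝ ∞ (kk q) := by
  have hN0 := (G1a_Npos q).ne'
  have hs0 := G1a_s2pos.ne'
  rw [G1a_kk]
  have hd := G1a_KKden q hq
  have hd1 : ∀ θ : ℝ, Nq q * Real.sqrt 2 * (1 + (Real.cos (2 * θ) + Real.cos (q * θ)) / 2) ≠ 0 :=
    fun θ => mul_ne_zero (mul_ne_zero hN0 hs0) (hd θ)
  have hd2 : ∀ θ : ℝ, 2 * (1 + (Real.cos (2 * θ) + Real.cos (q * θ)) / 2) ≠ 0 :=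
    fun θ => mul_ne_zero two_ne_zero (hd θ)
  have c2 : ContDiff ℝ ∞ (fun θ : ℝ => Real.cos (2 * θ)) :=
    Real.contDiff_cos.comp (contDiff_const.mul contDiff_id)
  have cq : ContDiff ℝ ∞ (fun θ : ℝ => Real.cos (q * θ)) :=
    Real.contDiff_cos.comp (contDiff_const.mul contDiff_id)
  have s2 : ContDiff ℝ ∞ (fun θ : ℝ => Real.sin (2 * θ)) :=
    Real.contDiff_sin.comp (contDiff_const.mul contDiff_id)
  have sq : ContDiff ℝ ∞ (fun θ : ℝ => Real.sin (q * θ)) :=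
    Real.contDiff_sin.comp (contDiff_const.mul contDiff_id)
  have cD : ContDiff ℝ ∞ (fun θ : ℝ => 1 + (Real.cos (2 * θ) + Real.cos (q * θ)) / 2) :=
    contDiff_const.add ((c2.add cq).div_const 2)
  have k1 : ContDiff ℝ ∞ (fun θ : ℝ => (2 * Real.sin (2 * θ) + q * Real.sin (q * θ)) /
      (Nq q * Real.sqrt 2 * (1 + (Real.cos (2 * θ) + Real.cos (q * θ)) / 2))) :=
    ((contDiff_const.mul s2).add (contDiff_const.mul sq)).div (contDiff_const.mul cD) hd1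
  have k2 : ContDiff ℝ ∞ (fun θ : ℝ => (Real.cos (2 * θ) - Real.cos (q * θ)) /
        (2 * (1 + (Real.cos (2 * θ) + Real.cos (q * θ)) / 2))) :=
    (c2.sub cq).div (contDiff_const.mul cD) hd2
  have k3 : ContDiff ℝ ∞ (fun θ : ℝ => (-q * Real.sin (2 * θ) + 2 * Real.sin (q * θ)) /
        (Nq q * Real.sqrt 2 * (1 + (Real.cos (2 * θ) + Real.cos (q * θ)) / 2))) :=
    ((contDiff_const.mul s2).add (contDiff_const.mul sq)).div (contDiff_const.mul cD) hd1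
  exact k1.prodMk ((Complex.ofRealCLM.contDiff.comp k2).add
    ((Complex.ofRealCLM.contDiff.comp k3).mul contDiff_const))

theorem G1a_KKper (q : ℕ) (θ : ℝ) (n : ℤ) : KK q (θ + 2 * Real.pi * n) = KK q θ := by
  unfold KK
  refine Prod.ext ?_ ?_
  · show Complex.exp (2 * ((θ + 2 * Real.pi * n : ℝ) : ℂ) * Complex.I) =
      Complex.exp (2 * (θ : ℂ) * Complex.I)
    rw [Complex.exp_eq_exp_iff_exists_int]
    exact ⟨2 * n, by push_cast; ring⟩
  · show Complex.exp (q * ((θ + 2 * Real.pi * n : ℝ) : ℂ) * Complex.I) =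
      Complex.exp (q * (θ : ℂ) * Complex.I)
    rw [Complex.exp_eq_exp_iff_exists_int]
    exact ⟨q * n, by push_cast; ring⟩

theorem G1a_period (q : ℕ) (θ : ℝ) : kk q (θ + 2 * Real.pi) = kk q θ := by
  have h := G1a_KKper q θ 1
  unfold kk
  have e : θ + 2 * Real.pi * ((1 : ℤ) : ℝ) = θ + 2 * Real.pi := by push_cast; ring
  rw [e] at h
  rw [h]

theorem G1a_Em (q : ℕ) (hq : Odd q) (θ : ℝ) : Em q (kk q θ) = KK q θ :=
  G1a_right q _ (G1a_KKOnS q θ) (G1a_KKne q hq θ)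

theorem G1a_inj (q : ℕ) (hq : Odd q) (θ θ' : ℝ) (h : kk q θ = kk q θ') :
    ∃ n : ℤ, θ = θ' + 2 * Real.pi * n := by
  have h1 : KK q θ = KK q θ' := by rw [← G1a_Em q hq θ, h, G1a_Em q hq θ']
  have h2 := congrArg Prod.fst h1
  have h3 := congrArg Prod.snd h1
  unfold KK at h2 h3
  simp only at h2 h3
  rw [Complex.exp_eq_exp_iff_exists_int] at h2 h3
  obtain ⟨a, ha⟩ := h2
  obtain ⟨b, hb⟩ := h3
  have ha' : θ = θ' + Real.pi * a := by
    have e : (2 * (θ : ℂ)) * Complex.I = (2 * (θ' + Real.pi * a)) * Complex.I := by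
      rw [ha]; ring
    have e2 := mul_right_cancel₀ Complex.I_ne_zero e
    have e3 : (θ : ℂ) = ((θ' + Real.pi * a : ℝ) : ℂ) := by
      push_cast
      linear_combination e2 / 2
    exact_mod_cast e3
  have hb' : (q : ℝ) * θ = q * θ' + 2 * Real.pi * b := by
    have e : ((q : ℂ) * (θ : ℂ)) * Complex.I = (q * θ' + 2 * Real.pi * b) * Complex.I := by
      rw [hb]; ring
    have e2 := mul_right_cancel₀ Complex.I_ne_zero e
    have e3 : (((q : ℝ) * θ : ℝ) : ℂ) = ((q * θ' + 2 * Real.pi * b : ℝ) : ℂ) := by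
      push_cast
      exact e2
    exact_mod_cast e3
  have hab : (q : ℤ) * a = 2 * b := by
    have e : (q : ℝ) * a = 2 * b := by
      have hpi := Real.pi_pos.ne'
      have e1 : Real.pi * ((q : ℝ) * a) = Real.pi * (2 * b) := by
        rw [ha'] at hb'
        linarith
      exact mul_left_cancel₀ hpi e1
    exact_mod_cast e
  have hev : Even a := by
    have h5 : Even ((q : ℤ) * a) := ⟨b, by rw [hab]; ring⟩
    rcases Int.even_mul.1 h5 with h6 | h6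
    · exfalso
      have h7 : Even q := by exact_mod_cast h6
      exact (Nat.not_even_iff_odd.2 hq) h7
    · exact h6
  obtain ⟨n, hn⟩ := hev
  refine ⟨n, ?_⟩
  rw [ha', hn]
  push_cast
  ring

theorem G1a_zero' (q : ℕ) : kk q 0 = 0 := by
  rw [G1a_kk]
  refine Prod.ext ?_ (Complex.ext ?_ ?_)
  · simp
  · simp
  · simp

theorem G1a_deriv0 (q : ℕ) (hq : Odd q) : deriv (kk q) 0 = (mq q, 0) := by
  have hN0 := (G1a_Npos q).ne'
  have hs0 := G1a_s2pos.ne'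
  have hN := G1a_Nsq q
  rw [G1a_kk]
  have c2 : HasDerivAt (fun θ : ℝ => Real.cos (2 * θ)) 0 0 := by
    have h := ((hasDerivAt_id (0 : ℝ)).const_mul 2).cos
    convert! h using 1
    simp
  have cq : HasDerivAt (fun θ : ℝ => Real.cos (q * θ)) 0 0 := by
    have h := ((hasDerivAt_id (0 : ℝ)).const_mul (q : ℝ)).cos
    convert! h using 1
    simp
  have s2 : HasDerivAt (fun θ : ℝ => Real.sin (2 * θ)) 2 0 := by
    have h := ((hasDerivAt_id (0 : ℝ)).const_mul 2).sin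
    convert! h using 1
    simp
  have sq : HasDerivAt (fun θ : ℝ => Real.sin (q * θ)) q 0 := by
    have h := ((hasDerivAt_id (0 : ℝ)).const_mul (q : ℝ)).sin
    convert! h using 1
    simp
  have cD : HasDerivAt (fun θ : ℝ => 1 + (Real.cos (2 * θ) + Real.cos (q * θ)) / 2) 0 0 := by
    have h := ((c2.add cq).div_const 2).const_add 1
    convert! h using 1
    simp
  have hd := G1a_KKden q hq 0
  have hD0 : 1 + (Real.cos (2 * 0) + Real.cos (q * 0)) / 2 = 2 := by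
    simp
    norm_num
  have k1 : HasDerivAt (fun θ : ℝ => (2 * Real.sin (2 * θ) + q * Real.sin (q * θ)) /
      (Nq q * Real.sqrt 2 * (1 + (Real.cos (2 * θ) + Real.cos (q * θ)) / 2))) (mq q) 0 := by
    have h := ((s2.const_mul 2).add (sq.const_mul (q : ℝ))).div (cD.const_mul (Nq q * Real.sqrt 2))
      (mul_ne_zero (mul_ne_zero hN0 hs0) hd)
    convert! h using 1
    rw [hD0]
    unfold mq
    simp only [mul_zero, sub_zero]
    have e : (2 * 2 + (q : ℝ) * q) = Nq q ^ 2 := by rw [hN]; ring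
    rw [e]
    field_simp
  have k2 : HasDerivAt (fun θ : ℝ => (Real.cos (2 * θ) - Real.cos (q * θ)) /
        (2 * (1 + (Real.cos (2 * θ) + Real.cos (q * θ)) / 2))) 0 0 := by
    have h := (c2.sub cq).div (cD.const_mul 2) (mul_ne_zero two_ne_zero hd)
    convert! h using 1
    simp
  have k3 : HasDerivAt (fun θ : ℝ => (-q * Real.sin (2 * θ) + 2 * Real.sin (q * θ)) /
        (Nq q * Real.sqrt 2 * (1 + (Real.cos (2 * θ) + Real.cos (q * θ)) / 2))) 0 0 := by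
    have h := ((s2.const_mul (-q : ℝ)).add (sq.const_mul 2)).div (cD.const_mul (Nq q * Real.sqrt 2))
      (mul_ne_zero (mul_ne_zero hN0 hs0) hd)
    convert! h using 1
    simp only [mul_zero, sub_zero]
    have e : (-(q : ℝ) * 2 + 2 * q) = 0 := by ring
    rw [e]
    simp
  have h := k1.prodMk (k2.ofReal_comp.add (k3.ofReal_comp.mul_const Complex.I))
  exact h.deriv.trans (by simp)

theorem G1a_diffEm (q : ℕ) : Differentiable ℝ (Em q) := by
  have e : nsq = fun x : V => x.1 ^ 2 + (x.2.re ^ 2 + x.2.im ^ 2) := funext G1a_nsq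
  have hre : Differentiable ℝ (fun x : V => x.2.re) :=
    Complex.reCLM.differentiable.comp differentiable_snd
  have him : Differentiable ℝ (fun x : V => x.2.im) :=
    Complex.imCLM.differentiable.comp differentiable_snd
  have h1 : Differentiable ℝ (fun x : V => x.1) := differentiable_fst
  have hn : Differentiable ℝ nsq := by
    rw [e]
    exact (h1.pow 2).add ((hre.pow 2).add (him.pow 2))
  have hof : ∀ f : V → ℝ, Differentiable ℝ f → Differentiable ℝ (fun x => ((f x : ℝ) : ℂ)) :=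
    fun f hf => Complex.ofRealCLM.differentiable.comp hf
  have hi : Differentiable ℝ (fun x : V => (((1 + nsq x : ℝ) : ℂ))⁻¹) :=
    Differentiable.inv (hof _ ((differentiable_const _).add hn)) G1a_n1
  have ha : Differentiable ℝ (fun x : V => (((1 - nsq x + 2 * x.2.re : ℝ) : ℂ) +
      ((2 * Real.sqrt 2 / Nq q * (2 * x.1 - q * x.2.im) : ℝ) : ℂ) * Complex.I)) :=
    (hof _ (((differentiable_const _).sub hn).add (hre.const_mul 2))).add
      ((hof _ (((h1.const_mul 2).sub (him.const_mul _)).const_mul _)).mul_const _)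
  have hb : Differentiable ℝ (fun x : V => (((1 - nsq x - 2 * x.2.re : ℝ) : ℂ) +
      ((2 * Real.sqrt 2 / Nq q * (q * x.1 + 2 * x.2.im) : ℝ) : ℂ) * Complex.I)) :=
    (hof _ (((differentiable_const _).sub hn).sub (hre.const_mul 2))).add
      ((hof _ (((h1.const_mul _).add (him.const_mul 2)).const_mul _)).mul_const _)
  exact (ha.mul hi).prodMk (hb.mul hi)

theorem G1a_deriv (q : ℕ) (hq : Odd q) (θ : ℝ) : deriv (kk q) θ ≠ 0 := by
  intro h
  have hk : DifferentiableAt ℝ (kk q) θ :=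
    ((G1a_smooth q hq).differentiable (by simp)) θ
  have h1 : HasDerivAt (Em q ∘ kk q) (fderiv ℝ (Em q) (kk q θ) (deriv (kk q) θ)) θ :=
    ((G1a_diffEm q) (kk q θ)).hasFDerivAt.comp_hasDerivAt θ hk.hasDerivAt
  have h2 : Em q ∘ kk q = KK q := funext (G1a_Em q hq)
  rw [h2, h, map_zero] at h1
  have h3 : HasDerivAt (fun t : ℝ => (KK q t).1) 0 θ := by
    have h9 := (hasFDerivAt_fst (𝕜 := ℝ) (p := KK q θ)).comp_hasDerivAt θ h1
    rw [map_zero] at h9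
    exact h9
  have h4 : HasDerivAt (fun t : ℝ => Complex.exp (2 * (t : ℂ) * Complex.I))
      (Complex.exp (2 * (θ : ℂ) * Complex.I) * (2 * Complex.I)) θ := by
    have h5 : HasDerivAt (fun t : ℝ => (2 * (t : ℂ) * Complex.I)) (2 * Complex.I) θ := by
      have h6 := (((hasDerivAt_id θ).ofReal_comp).const_mul (2 : ℂ)).mul_const Complex.I
      convert! h6 using 1
      simp
    exact h5.cexp
  have h7 := h4.unique h3
  have h8 : Complex.exp (2 * (θ : ℂ) * Complex.I) * (2 * Complex.I) ≠ 0 :=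
    mul_ne_zero (Complex.exp_ne_zero _) (mul_ne_zero two_ne_zero Complex.I_ne_zero)
  exact h8 h7

/-- The points of the torus knot. -/
theorem G1a_mem (q : ℕ) (hq : Odd q) (y : ℂ × ℂ) (hy : OnS y) :
    y.1 ^ q = y.2 ^ 2 ↔ ∃ θ : ℝ, 0 ≤ θ ∧ θ < 2 * Real.pi ∧ y = KK q θ := by
  constructor
  · intro h
    have hn : ‖y.1‖ ^ q = ‖y.2‖ ^ 2 := by rw [← norm_pow, h, norm_pow]
    unfold OnS at hy
    rw [← hn] at hy
    have hz : ‖y.1‖ = 1 := by
      rcases lt_trichotomy ‖y.1‖ 1 with h1 | h1 | h1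
      · exfalso
        have h2 : ‖y.1‖ ^ 2 < 1 := pow_lt_one₀ (norm_nonneg _) h1 two_ne_zero
        have h3 : ‖y.1‖ ^ q ≤ 1 := pow_le_one₀ (norm_nonneg _) h1.le
        linarith
      · exact h1
      · exfalso
        have h2 : 1 < ‖y.1‖ ^ 2 := one_lt_pow₀ h1 two_ne_zero
        have h3 : 1 ≤ ‖y.1‖ ^ q := one_le_pow₀ h1.le
        linarith
    have hw : ‖y.2‖ = 1 := by
      rw [hz, one_pow] at hn
      have : ‖y.2‖ ^ 2 = 1 ^ 2 := by rw [← hn]; norm_num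
      exact (pow_left_inj₀ (norm_nonneg _) zero_le_one two_ne_zero).1 this
    obtain ⟨α, hα⟩ : ∃ α : ℝ, y.1 = Complex.exp (α * Complex.I) := by
      refine ⟨Complex.arg y.1, ?_⟩
      have h5 := Complex.norm_mul_exp_arg_mul_I y.1
      rw [hz, Complex.ofReal_one, one_mul] at h5
      exact h5.symm
    obtain ⟨β, hβ⟩ : ∃ β : ℝ, y.2 = Complex.exp (β * Complex.I) := by
      refine ⟨Complex.arg y.2, ?_⟩
      have h5 := Complex.norm_mul_exp_arg_mul_I y.2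
      rw [hw, Complex.ofReal_one, one_mul] at h5
      exact h5.symm
    rw [hα, hβ, ← Complex.exp_nat_mul, ← Complex.exp_nat_mul,
      Complex.exp_eq_exp_iff_exists_int] at h
    obtain ⟨k, hk⟩ := h
    have hk' : (q : ℝ) * α = 2 * β + 2 * Real.pi * k := by
      have e : ((q : ℂ) * (α : ℂ)) * Complex.I = (2 * β + 2 * Real.pi * k) * Complex.I := by
        have hk2 := hk
        push_cast at hk2
        linear_combination hk2
      have e2 := mul_right_cancel₀ Complex.I_ne_zero e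
      have e3 : (((q : ℝ) * α : ℝ) : ℂ) = ((2 * β + 2 * Real.pi * k : ℝ) : ℂ) := by
        push_cast
        exact e2
      exact_mod_cast e3
    obtain ⟨m, hm⟩ := hq
    -- the parameter
    have hy2 : y = KK q (α / 2 + Real.pi * k) := by
      unfold KK
      refine Prod.ext ?_ ?_
      · rw [hα]
        show _ = Complex.exp (2 * ((α / 2 + Real.pi * k : ℝ) : ℂ) * Complex.I)
        rw [Complex.exp_eq_exp_iff_exists_int]
        exact ⟨-k, by push_cast; ring⟩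
      · rw [hβ]
        show _ = Complex.exp (q * ((α / 2 + Real.pi * k : ℝ) : ℂ) * Complex.I)
        rw [Complex.exp_eq_exp_iff_exists_int]
        refine ⟨-(m + 1) * k, ?_⟩
        have hk3 : (β : ℂ) = (q * α) / 2 - Real.pi * k := by
          have : β = (q * α) / 2 - Real.pi * k := by linarith
          rw [this]
          push_cast
          ring
        rw [hk3, hm]
        push_cast
        ring
    set θ := α / 2 + Real.pi * k with hθ
    have hpi : 0 < 2 * Real.pi := by positivity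
    refine ⟨θ + 2 * Real.pi * ((-⌊θ / (2 * Real.pi)⌋ : ℤ) : ℝ), ?_, ?_, ?_⟩
    · have h5 := Int.floor_le (θ / (2 * Real.pi))
      rw [le_div_iff₀ hpi] at h5
      push_cast
      linarith
    · have h5 := Int.lt_floor_add_one (θ / (2 * Real.pi))
      rw [div_lt_iff₀ hpi] at h5
      push_cast
      linarith
    · rw [G1a_KKper]
      exact hy2
  · rintro ⟨θ, -, -, rfl⟩
    exact G1a_KKpow q θ

end LQ
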