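import Pool.Agent.H64.LQ.Defs

/-!
# G1b: extending a small displacement to a homeomorphism (McShane)

`k, d : S → V` (any set `S`), `ρ0 ≥ 0`, `‖d s - d s'‖ ≤ (1/4) ‖k s - k s'‖` and `‖d s‖ ≤ (1/4) max (ρ0 - ‖k s‖) 0`. Then there is a homeomorphism `Θ` of `V` with
`Θ (k s) = k s + d s` and `Θ y = y` for `ρ0 ≤ ‖y‖`.
Proof. The three real functions `k s ↦ (d s).1, re (d s).2, im (d s).2` are well defined and `1/4`-Lipschitz on the set `range k` (`‖·‖` is the sup norm of `ℝ × ℂ`); extend them to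
`1/4`-Lipschitz functions `E_j : V → ℝ` (`LipschitzOnWith.extend_real`), and put `D_j y = max (-b y) (min (b y) (E_j y))` with `b y = (1/4) max (ρ0 - ‖y‖) 0`, again
`1/4`-Lipschitz (min, max of such). On `range k` it is unchanged by the second hypothesis. `D = (D_0, D_1 + i D_2)` satisfies `‖D x - D y‖ ≤ (√2/4) ‖x - y‖ ≤ (1/2) ‖x - y‖` and `D y = 0` for
`‖y‖ ≥ ρ0`. So `Θ = id + D` is a homeomorphism: injective with `‖Θ x - Θ y‖ ≥ (1/2) ‖x - y‖` (so the inverse is continuous), surjective by the contraction principle (`x = y - D x`;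
`ContractingWith`, or `ApproximatesLinearOn.toHomeomorph`).
-/

open scoped ContDiff unitInterval
open Topology Set

namespace LQ

open LK

theorem G1b_ext {S : Type*} (k d : S → V) (ρ0 : ℝ)
    (h1 : ∀ s s', ‖d s - d s'‖ ≤ 1 / 4 * ‖k s - k s'‖)
    (h2 : ∀ s, ‖d s‖ ≤ 1 / 4 * max (ρ0 - ‖k s‖) 0) (φ : V → ℝ)
    (hφ : ∀ u v, |φ u - φ v| ≤ ‖u - v‖) (hφ0 : ∀ u, |φ u| ≤ ‖u‖) :
    ∃ D : V → ℝ, (∀ x y, |D x - D y| ≤ 1 / 4 * ‖x - y‖) ∧ (∀ s, D (k s) = φ (d s)) ∧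
      ∀ y, ρ0 ≤ ‖y‖ → D y = 0 := by
  classical
  obtain ⟨f, hf⟩ : ∃ f : V → ℝ, ∀ s, f (k s) = φ (d s) := by
    refine ⟨fun y => if h : ∃ s, k s = y then φ (d h.choose) else 0, fun s => ?_⟩
    have h : ∃ s', k s' = k s := ⟨s, rfl⟩
    simp only [h, dif_pos]
    have h3 := h.choose_spec
    have h4 := h1 h.choose s
    rw [h3, sub_self, norm_zero, mul_zero] at h4
    have h5 : d h.choose = d s := by
      rw [← sub_eq_zero, ← norm_le_zero_iff]
      exact h4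
    rw [h5]
  have hfL : LipschitzOnWith (1 / 4) f (Set.range k) := by
    apply LipschitzOnWith.of_dist_le_mul
    rintro _ ⟨s, rfl⟩ _ ⟨s', rfl⟩
    rw [hf, hf, Real.dist_eq, dist_eq_norm]
    refine (hφ _ _).trans ((h1 s s').trans (le_of_eq ?_))
    norm_num
  obtain ⟨E, hE, hEf⟩ := hfL.extend_real
  have hEk : ∀ s, E (k s) = φ (d s) := fun s => by
    rw [← hEf ⟨s, rfl⟩, hf]
  have hEL : ∀ x y, |E x - E y| ≤ 1 / 4 * ‖x - y‖ := by
    intro x y
    have := hE.dist_le_mul x y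
    rw [Real.dist_eq, dist_eq_norm] at this
    refine this.trans (le_of_eq ?_)
    norm_num
  obtain ⟨b, hb⟩ : ∃ b : V → ℝ, ∀ y, b y = 1 / 4 * max (ρ0 - ‖y‖) 0 := ⟨_, fun _ => rfl⟩
  have hb0 : ∀ y, 0 ≤ b y := fun y => by rw [hb]; positivity
  have hbL : ∀ x y, |b x - b y| ≤ 1 / 4 * ‖x - y‖ := by
    intro x y
    rw [hb, hb, ← mul_sub, abs_mul, abs_of_nonneg (by norm_num : (0 : ℝ) ≤ 1 / 4)]
    refine mul_le_mul_of_nonneg_left ?_ (by norm_num)
    refine (abs_max_sub_max_le_abs _ _ _).trans ?_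
    rw [show ρ0 - ‖x‖ - (ρ0 - ‖y‖) = -(‖x‖ - ‖y‖) by ring, abs_neg]
    exact abs_norm_sub_norm_le x y
  refine ⟨fun y => max (-b y) (min (b y) (E y)), ?_, ?_, ?_⟩
  · intro x y
    refine (abs_max_sub_max_le_max _ _ _ _).trans (max_le ?_ ?_)
    · rw [show -b x - -b y = -(b x - b y) by ring, abs_neg]
      exact hbL x y
    · exact (abs_min_sub_min_le_max _ _ _ _).trans (max_le (hbL x y) (hEL x y))
  · intro s
    have h3 : |φ (d s)| ≤ b (k s) := by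
      rw [hb]
      exact (hφ0 _).trans (h2 s)
    rw [abs_le] at h3
    show max (-b (k s)) (min (b (k s)) (E (k s))) = φ (d s)
    rw [hEk, min_eq_right h3.2, max_eq_right h3.1]
  · intro y hy
    have h3 : b y = 0 := by
      rw [hb, max_eq_right (by linarith), mul_zero]
    show max (-b y) (min (b y) (E y)) = 0
    rw [h3, neg_zero]
    exact max_eq_left (min_le_left _ _)

theorem G1b {S : Type*} (k d : S → V) (ρ0 : ℝ)
    (h1 : ∀ s s', ‖d s - d s'‖ ≤ 1 / 4 * ‖k s - k s'‖)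
    (h2 : ∀ s, ‖d s‖ ≤ 1 / 4 * max (ρ0 - ‖k s‖) 0) :
    ∃ Θ : V ≃ₜ V, (∀ s, Θ (k s) = k s + d s) ∧ ∀ y, ρ0 ≤ ‖y‖ → Θ y = y := by
  obtain ⟨D0, hD0, hk0, hz0⟩ := G1b_ext k d ρ0 h1 h2 (fun v => v.1)
    (fun u v => by
      rw [← Real.norm_eq_abs, ← Prod.fst_sub]; exact norm_fst_le _)
    (fun u => by rw [← Real.norm_eq_abs]; exact norm_fst_le _)
  obtain ⟨D1, hD1, hk1, hz1⟩ := G1b_ext k d ρ0 h1 h2 (fun v => v.2.re)
    (fun u v => by
      rw [← Complex.sub_re, ← Prod.snd_sub]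
      exact (Complex.abs_re_le_norm _).trans (norm_snd_le _))
    (fun u => (Complex.abs_re_le_norm _).trans (norm_snd_le _))
  obtain ⟨D2, hD2, hk2, hz2⟩ := G1b_ext k d ρ0 h1 h2 (fun v => v.2.im)
    (fun u v => by
      rw [← Complex.sub_im, ← Prod.snd_sub]
      exact (Complex.abs_im_le_norm _).trans (norm_snd_le _))
    (fun u => (Complex.abs_im_le_norm _).trans (norm_snd_le _))
  obtain ⟨D, hD⟩ : ∃ D : V → V, ∀ y, D y = (D0 y, (⟨D1 y, D2 y⟩ : ℂ)) := ⟨_, fun _ => rfl⟩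
  have hL : ∀ x y, ‖D x - D y‖ ≤ 1 / 2 * ‖x - y‖ := by
    intro x y
    rw [hD, hD]
    refine norm_prod_le_iff.2 ⟨?_, ?_⟩
    · show ‖D0 x - D0 y‖ ≤ _
      rw [Real.norm_eq_abs]
      have := hD0 x y
      have := norm_nonneg (x - y)
      linarith
    · show ‖(⟨D1 x, D2 x⟩ : ℂ) - ⟨D1 y, D2 y⟩‖ ≤ _
      refine (Complex.norm_le_abs_re_add_abs_im _).trans ?_
      show |D1 x - D1 y| + |D2 x - D2 y| ≤ _
      have := hD1 x y
      have := hD2 x y
      linarith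
  have hA : ApproximatesLinearOn (fun y => y + D y)
      ((ContinuousLinearEquiv.refl ℝ V : V ≃L[ℝ] V) : V →L[ℝ] V) Set.univ (1 / 2) := by
    intro x _ y _
    have e : (x + D x) - (y + D y) - ((ContinuousLinearEquiv.refl ℝ V : V ≃L[ℝ] V) : V →L[ℝ] V) (x - y)
        = D x - D y := by
      show (x + D x) - (y + D y) - (x - y) = D x - D y
      abel
    rw [e]
    refine (hL x y).trans (le_of_eq ?_)
    norm_num
  have hc : (1 / 2 : NNReal) < ‖(((ContinuousLinearEquiv.refl ℝ V).symm : V ≃L[ℝ] V) : V →L[ℝ] V)‖₊⁻¹ := by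
    have e : (((ContinuousLinearEquiv.refl ℝ V).symm : V ≃L[ℝ] V) : V →L[ℝ] V) = ContinuousLinearMap.id ℝ V := rfl
    rw [e]
    have h3 : ‖ContinuousLinearMap.id ℝ V‖₊ = 1 := by
      rw [← NNReal.coe_inj]
      simp
    rw [h3, inv_one]
    rw [← NNReal.coe_lt_coe]
    norm_num
  refine ⟨hA.toHomeomorph _ (Or.inr hc), ?_, ?_⟩
  · intro s
    show k s + D (k s) = k s + d s
    rw [hD, hk0, hk1, hk2]
  · intro y hy
    show y + D y = y
    rw [hD, hz0 y hy, hz1 y hy, hz2 y hy]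
    exact add_zero y

end LQ
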