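import Pool.Agent.H64.LQ.G1a
import Pool.Agent.H64.LQ.G1b

/-!
# G1c: straightening the torus knot near `P`

We look for a smooth `2π`-periodic `kt : ℝ → V` with `kt θ = (2 m₀ tan (θ/2), 0)` near `θ = 0` and a homeomorphism `Θ` of `V` with `Θ (kk θ) = kt θ`, `Θ y = y` for `‖y‖ ≥ 1/2`.
Put `e(θ) = (2 m₀ tan(θ/2), 0) - kk θ`, smooth on `(-π, π)`, `e(0) = 0`, `e'(0) = 0` (G1a_deriv0; `d/dθ (2 m₀ tan (θ/2)) = m₀` at `0`). For `0 < r < 1` let
`χ_r(θ) = smoothTransition ((cos θ - cos r) / (cos (r/2) - cos r))`: smooth, `2π`-periodic, `1` for `|θ| ≤ r/2` (mod `2π`), `0` for `r ≤ |θ| ≤ π`. `kt = kk + χ_r e` (`e` extended by the same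
formula, with `tan (θ/2)`, `2π`-periodic; it is only used where `χ_r ≠ 0`), smooth. `d = χ_r e`.
(1) bi-Lipschitz: there is `C ≥ 1` with `|θ - θ'| ≤ C ‖kk θ - kk θ'‖` for all `θ, θ'` with `|θ - θ'| ≤ π` (compactness: as in LK.T1 with the averaged derivative
`q(θ, θ') = ‖∫₀¹ kk'(θ' + u(θ - θ')) du‖ > 0` on `{|θ| ≤ 2π, |θ'| ≤ 2π·, |θ-θ'| ≤ π}`: for `θ ≠ θ'` it is `‖kk θ - kk θ'‖/|θ - θ'| > 0` by G1a_inj, for `θ = θ'` it is `‖kk' θ‖ > 0`.)
(2) `‖d'(θ)‖ ≤ ε(r) → 0` as `r → 0`: on `|θ| ≤ r`, `‖e(θ)‖ ≤ C' θ²`, `‖e'(θ)‖ ≤ C' |θ|` and `|χ_r'| ≤ C''/r` (`|sin θ| ≤ r`, `cos(r/2) - cos r ≥ c r²`), so `‖d'‖ ≤ (C''/r) C' r² + C' r`. Hence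
`‖d θ - d θ'‖ ≤ ε(r) |θ - θ'| ≤ C ε(r) ‖kk θ - kk θ'‖ ≤ (1/4) ‖kk θ - kk θ'‖` for `r` small, first for `|θ - θ'| ≤ π`, then in general by periodicity.
(3) `‖d θ‖ ≤ (1/4) max (1/2 - ‖kk θ‖) 0`: `d θ = 0` unless `|θ| < r` (mod `2π`), where `‖kk θ‖ ≤ C r ≤ 1/4` and `‖d θ‖ ≤ C' r² ≤ 1/16`, for `r` small.
So G1b gives `Θ` (`ρ0 = 1/2`). (4) `kt' ≠ 0`: `‖kt'‖ ≥ ‖kk'‖ - ‖d'‖ > 0` for `r` small (`‖kk'‖` is bounded below by compactness and periodicity).
-/

open scoped ContDiff unitInterval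
open Topology Set

namespace LQ

open LK

/-- the bump -/
noncomputable def G1c_f : ContDiffBump (0 : ℝ) := ⟨1, 2, one_pos, one_lt_two⟩

/-- the cut-off -/
noncomputable def G1c_chi (r θ : ℝ) : ℝ := G1c_f (Real.sin (θ / 2) / r)

/-- the displacement -/
noncomputable def G1c_d (e : ℝ → V) (r θ : ℝ) : V := G1c_chi r θ • e θ

theorem G1c_lip : ∃ C : ℝ, 0 ≤ C ∧ ∀ x y : ℝ, |G1c_f x - G1c_f y| ≤ C * |x - y| := by
  obtain ⟨C, hC⟩ := ContDiff.lipschitzWith_of_hasCompactSupport (𝕂 := ℝ) G1c_f.hasCompactSupport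
    (G1c_f.contDiff (n := 1)) (by simp)
  refine ⟨C, C.2, fun x y => ?_⟩
  have h := hC.dist_le_mul x y
  rwa [Real.dist_eq, Real.dist_eq] at h

theorem G1c_rep (θ : ℝ) : ∃ θ₀ : ℝ, ∃ n : ℤ, |θ₀| ≤ Real.pi ∧ θ = θ₀ + n * (2 * Real.pi) := by
  have hp := Real.two_pi_pos
  refine ⟨toIocMod hp (-Real.pi) θ, toIocDiv hp (-Real.pi) θ, ?_, ?_⟩
  · have h := toIocMod_mem_Ioc hp (-Real.pi) θ
    rw [abs_le]
    exact ⟨h.1.le, by linarith [h.2]⟩
  · have h := toIocMod_add_toIocDiv_zsmul hp (-Real.pi) θ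
    rw [zsmul_eq_mul] at h
    exact h.symm

theorem G1c_supp {r θ : ℝ} (hr : 0 < r) (hθ : |θ| ≤ Real.pi) (h : G1c_chi r θ ≠ 0) :
    |θ| < 2 * Real.pi * r := by
  have hpi := Real.pi_pos
  have h1 : |Real.sin (θ / 2) / r| < 2 := by
    by_contra hcon
    apply h
    unfold G1c_chi
    apply G1c_f.zero_of_le_dist
    rw [Real.dist_eq, sub_zero]
    exact not_lt.mp hcon
  rw [abs_div, abs_of_pos hr, div_lt_iff₀ hr] at h1
  have h2 : 2 / Real.pi * |θ / 2| ≤ |Real.sin (θ / 2)| := by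
    apply Real.mul_abs_le_abs_sin
    rw [abs_div, abs_of_pos (by norm_num : (0 : ℝ) < 2)]
    linarith
  rw [abs_div, abs_of_pos (by norm_num : (0 : ℝ) < 2)] at h2
  have h3 : 2 / Real.pi * (|θ| / 2) = |θ| / Real.pi := by field_simp
  rw [h3] at h2
  have h4 : |θ| / Real.pi < 2 * r := lt_of_le_of_lt h2 h1
  rw [div_lt_iff₀ hpi] at h4
  linarith

theorem G1c_chi_le (r θ : ℝ) : |G1c_chi r θ| ≤ 1 := by
  unfold G1c_chi
  rw [abs_of_nonneg G1c_f.nonneg]
  exact G1c_f.le_one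

theorem G1c_chi_one {r θ : ℝ} (hr : 0 < r) (h : |θ| ≤ r) : G1c_chi r θ = 1 := by
  unfold G1c_chi
  apply G1c_f.one_of_mem_closedBall
  rw [Metric.mem_closedBall, Real.dist_eq, sub_zero]
  show |Real.sin (θ / 2) / r| ≤ 1
  rw [abs_div, abs_of_pos hr, div_le_iff₀ hr, one_mul]
  have h1 : |Real.sin (θ / 2)| ≤ |θ / 2| := Real.abs_sin_le_abs
  rw [abs_div, abs_of_pos (by norm_num : (0 : ℝ) < 2)] at h1
  have := abs_nonneg θ
  linarith

theorem G1c_chi_per (r θ : ℝ) : G1c_chi r (θ + 2 * Real.pi) = G1c_chi r θ := by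
  unfold G1c_chi
  have h1 : (θ + 2 * Real.pi) / 2 = θ / 2 + Real.pi := by ring
  rw [h1, Real.sin_add_pi, neg_div]
  exact G1c_f.neg _

theorem G1c_chi_smooth (r : ℝ) : ContDiff ℝ ∞ (G1c_chi r) := by
  unfold G1c_chi
  apply G1c_f.contDiff.comp
  apply ContDiff.div_const
  apply Real.contDiff_sin.comp
  exact contDiff_id.div_const 2

theorem G1c_pint {k : ℝ → V} (kper : ∀ θ, k (θ + 2 * Real.pi) = k θ) (n : ℤ) (θ : ℝ) :
    k (θ + n * (2 * Real.pi)) = k θ := by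
  have h : Function.Periodic k (2 * Real.pi) := kper
  exact h.int_mul n θ

theorem G1c_strict {k : ℝ → V} {v : V} (h : HasStrictDerivAt k v 0) {ε : ℝ} (hε : 0 < ε) :
    ∃ s : ℝ, 0 < s ∧ ∀ x y : ℝ, |x| < s → |y| < s → ‖k x - k y - (x - y) • v‖ ≤ ε * |x - y| := by
  obtain ⟨s, hs, h1⟩ := h.hasStrictFDerivAt.approximates_deriv_on_nhds (c := ⟨ε, hε.le⟩) (Or.inr hε)
  obtain ⟨δ, hδ, h2⟩ := Metric.mem_nhds_iff.mp hs
  refine ⟨δ, hδ, fun x y hx hy => ?_⟩
  have h3 := h1 x (h2 (by rw [Metric.mem_ball, Real.dist_eq, sub_zero]; exact hx)) y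
    (h2 (by rw [Metric.mem_ball, Real.dist_eq, sub_zero]; exact hy))
  have h4 : (ContinuousLinearMap.toSpanSingleton ℝ v) (x - y) = (x - y) • v := by simp
  rw [h4] at h3
  simp only [Real.norm_eq_abs] at h3
  exact h3

theorem G1c_core (k e : ℝ → V) (m0 : ℝ) (hm : 0 < m0) (hk : ContDiff ℝ ∞ k)
    (kper : ∀ θ, k (θ + 2 * Real.pi) = k θ) (eper : ∀ θ, e (θ + 2 * Real.pi) = e θ)
    (kinj : ∀ θ θ', k θ = k θ' → ∃ n : ℤ, θ = θ' + 2 * Real.pi * n) (k0 : k 0 = 0)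
    (kd : deriv k 0 = (m0, 0)) (he : HasStrictDerivAt e 0 0) (e0 : e 0 = 0) :
    ∃ r : ℝ, 0 < r ∧ r ≤ 1 / 8 ∧
      (∀ θ θ', ‖G1c_d e r θ - G1c_d e r θ'‖ ≤ 1 / 4 * ‖k θ - k θ'‖) ∧
      ∀ θ, ‖G1c_d e r θ‖ ≤ 1 / 4 * max (1 / 2 - ‖k θ‖) 0 := by
  have hpi := Real.pi_pos
  obtain ⟨C, hC0, hC⟩ := G1c_lip
  have hden : 0 < 8 * (Real.pi * C + 1) := by positivity
  set ε : ℝ := m0 / (8 * (Real.pi * C + 1)) with hε
  have hε0 : 0 < ε := div_pos hm hden
  obtain ⟨s1, hs1, he1⟩ := G1c_strict he hε0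
  have hks : HasStrictDerivAt k (m0, 0) 0 := by
    rw [← kd]
    exact (hk.contDiffAt (x := 0)).hasStrictDerivAt (by simp)
  obtain ⟨s2, hs2, hk2⟩ := G1c_strict hks (half_pos hm)
  obtain ⟨s3, hs3, hk3⟩ : ∃ s3 : ℝ, 0 < s3 ∧ ∀ x : ℝ, |x| < s3 → ‖k x‖ < 1 / 4 := by
    have hc := hk.continuous.continuousAt (x := (0 : ℝ))
    obtain ⟨δ, hδ, h⟩ := Metric.continuousAt_iff.mp hc (1 / 4) (by norm_num)
    refine ⟨δ, hδ, fun x hx => ?_⟩
    have h1 := h (x := x) (by rw [Real.dist_eq, sub_zero]; exact hx)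
    rwa [k0, dist_zero_right] at h1
  obtain ⟨s, hs, hs1', hs2', hs3', hs4'⟩ : ∃ s : ℝ, 0 < s ∧ s ≤ s1 ∧ s ≤ s2 ∧ s ≤ s3 ∧ s ≤ 1 :=
    ⟨min (min s1 s2) (min s3 1), by positivity,
      (min_le_left _ _).trans (min_le_left _ _), (min_le_left _ _).trans (min_le_right _ _),
      (min_le_right _ _).trans (min_le_left _ _), (min_le_right _ _).trans (min_le_right _ _)⟩
  -- Lipschitz bounds
  have heL : ∀ x y : ℝ, |x| < s → |y| < s → ‖e x - e y‖ ≤ ε * |x - y| := by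
    intro x y hx hy
    have h := he1 x y (lt_of_lt_of_le hx hs1') (lt_of_lt_of_le hy hs1')
    rwa [smul_zero, sub_zero] at h
  have hkL : ∀ x y : ℝ, |x| < s → |y| < s → m0 / 2 * |x - y| ≤ ‖k x - k y‖ := by
    intro x y hx hy
    have h := hk2 x y (lt_of_lt_of_le hx hs2') (lt_of_lt_of_le hy hs2')
    have h1 : ‖(x - y) • ((m0, 0) : V)‖ = m0 * |x - y| := by
      rw [norm_smul, Prod.norm_mk, norm_zero, Real.norm_eq_abs, Real.norm_eq_abs, abs_of_pos hm,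
        max_eq_left hm.le, mul_comm]
    have h2 : ‖(x - y) • ((m0, 0) : V)‖ ≤ ‖k x - k y‖ + ‖k x - k y - (x - y) • ((m0, 0) : V)‖ := by
      have h3 : (x - y) • ((m0, 0) : V) = (k x - k y) - (k x - k y - (x - y) • ((m0, 0) : V)) := by
        abel
      calc ‖(x - y) • ((m0, 0) : V)‖
          = ‖(k x - k y) - (k x - k y - (x - y) • ((m0, 0) : V))‖ := by rw [← h3]
        _ ≤ _ := norm_sub_le _ _
    rw [h1] at h2
    linarith
  -- compactness
  obtain ⟨c, hc, hcK⟩ : ∃ c : ℝ, 0 < c ∧ ∀ x y : ℝ, |x| ≤ s / 2 → s ≤ |y| → |y| ≤ Real.pi →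
      c ≤ ‖k x - k y‖ := by
    have hK : IsCompact ({p : ℝ × ℝ | |p.1| ≤ s / 2 ∧ s ≤ |p.2| ∧ |p.2| ≤ Real.pi}) := by
      apply (isCompact_Icc (a := ((-(s / 2), -Real.pi) : ℝ × ℝ)) (b := (s / 2, Real.pi))).of_isClosed_subset
      · exact (isClosed_le continuous_fst.abs continuous_const).inter
          ((isClosed_le continuous_const continuous_snd.abs).inter
            (isClosed_le continuous_snd.abs continuous_const))
      · rintro ⟨x, y⟩ ⟨h1, -, h3⟩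
        rw [abs_le] at h1 h3
        exact ⟨⟨h1.1, h3.1⟩, ⟨h1.2, h3.2⟩⟩
    obtain ⟨c, hc, h⟩ := hK.exists_forall_le' (f := fun p : ℝ × ℝ => ‖k p.1 - k p.2‖) (a := 0)
      (by
        apply Continuous.continuousOn
        have := hk.continuous
        fun_prop) (by
        rintro ⟨x, y⟩ ⟨h1, h2, h3⟩
        simp only at h1 h2 h3 ⊢
        rw [norm_pos_iff, sub_ne_zero]
        intro heq
        obtain ⟨n, hn⟩ := kinj x y heq
        have hn0 : n = 0 := by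
          by_contra hn0
          have h4 : (1 : ℝ) ≤ |(n : ℝ)| := by
            rw [← Int.cast_abs]
            exact_mod_cast Int.one_le_abs hn0
          have h5 : |2 * Real.pi * (n : ℝ)| ≤ |x| + |y| := by
            have : 2 * Real.pi * (n : ℝ) = x - y := by linarith
            rw [this]
            exact abs_sub _ _
          rw [abs_mul, abs_of_pos Real.two_pi_pos] at h5
          have h6 := Real.pi_gt_three
          nlinarith
        rw [hn0] at hn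
        simp at hn
        rw [hn] at h1
        linarith)
    exact ⟨c, hc, fun x y h1 h2 h3 => h (x, y) ⟨h1, h2, h3⟩⟩
  obtain ⟨r, hr, hr8, hrs, hrc, hr16⟩ : ∃ r : ℝ, 0 < r ∧ r ≤ 1 / 8 ∧ 2 * Real.pi * r ≤ s / 2 ∧
      ε * (2 * Real.pi * r) ≤ c / 4 ∧ ε * (2 * Real.pi * r) ≤ 1 / 16 := by
    refine ⟨min (min (1 / 8) (s / (4 * Real.pi))) (min (c / (8 * Real.pi * ε)) (1 / (32 * Real.pi * ε))),
      by positivity, (min_le_left _ _).trans (min_le_left _ _), ?_, ?_, ?_⟩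
    · have h := (min_le_left (min (1 / 8) (s / (4 * Real.pi)))
        (min (c / (8 * Real.pi * ε)) (1 / (32 * Real.pi * ε)))).trans (min_le_right _ _)
      rw [le_div_iff₀ (by positivity)] at h
      linarith
    · have h := (min_le_right (min (1 / 8) (s / (4 * Real.pi)))
        (min (c / (8 * Real.pi * ε)) (1 / (32 * Real.pi * ε)))).trans (min_le_left _ _)
      rw [le_div_iff₀ (by positivity)] at h
      linarith
    · have h := (min_le_right (min (1 / 8) (s / (4 * Real.pi)))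
        (min (c / (8 * Real.pi * ε)) (1 / (32 * Real.pi * ε)))).trans (min_le_right _ _)
      rw [le_div_iff₀ (by positivity)] at h
      linarith
  have hsup : ∀ θ, |θ| ≤ Real.pi → G1c_chi r θ ≠ 0 → |θ| < s ∧ |θ| ≤ s / 2 ∧
      ‖e θ‖ ≤ ε * (2 * Real.pi * r) := by
    intro θ hθ hχ
    have h1 := G1c_supp hr hθ hχ
    have h2 : |θ| < s := by linarith
    refine ⟨h2, by linarith, ?_⟩
    have h3 := heL θ 0 h2 (by rw [abs_zero]; exact hs)
    rw [e0, sub_zero, sub_zero] at h3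
    exact h3.trans (mul_le_mul_of_nonneg_left h1.le hε0.le)
  have hd : ∀ θ, ‖G1c_d e r θ‖ ≤ ‖e θ‖ := by
    intro θ
    unfold G1c_d
    rw [norm_smul, Real.norm_eq_abs]
    have := G1c_chi_le r θ
    have := norm_nonneg (e θ)
    nlinarith
  have hkey : ∀ θ θ', |θ| ≤ Real.pi → |θ'| ≤ Real.pi → G1c_chi r θ ≠ 0 →
      ‖G1c_d e r θ - G1c_d e r θ'‖ ≤ 1 / 4 * ‖k θ - k θ'‖ := by
    intro θ θ' hθ hθ' hχ
    obtain ⟨h1, h2, h3⟩ := hsup θ hθ hχ
    by_cases h4 : |θ'| < s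
    · have h5 : G1c_d e r θ - G1c_d e r θ' =
          (G1c_chi r θ - G1c_chi r θ') • e θ + G1c_chi r θ' • (e θ - e θ') := by
        unfold G1c_d
        rw [sub_smul, smul_sub]
        abel
      have h6 : |G1c_chi r θ - G1c_chi r θ'| ≤ C * (|θ - θ'| / (2 * r)) := by
        refine (hC _ _).trans (mul_le_mul_of_nonneg_left ?_ hC0)
        rw [← sub_div, abs_div, abs_of_pos hr, div_le_div_iff₀ hr (by positivity)]
        have h7 : |Real.sin (θ / 2) - Real.sin (θ' / 2)| ≤ |θ / 2 - θ' / 2| := by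
          have := Real.abs_sin_sub_sin_le (θ / 2) (θ' / 2)
          exact this
        have h8 : |θ / 2 - θ' / 2| = |θ - θ'| / 2 := by
          rw [← sub_div, abs_div, abs_of_pos (by norm_num : (0 : ℝ) < 2)]
        rw [h8] at h7
        nlinarith
      have h9 : ‖G1c_d e r θ - G1c_d e r θ'‖ ≤
          C * (|θ - θ'| / (2 * r)) * (ε * (2 * Real.pi * r)) + 1 * (ε * |θ - θ'|) := by
        rw [h5]
        refine (norm_add_le _ _).trans (add_le_add ?_ ?_)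
        · rw [norm_smul, Real.norm_eq_abs]
          exact mul_le_mul h6 h3 (norm_nonneg _) (by positivity)
        · rw [norm_smul, Real.norm_eq_abs]
          exact mul_le_mul (G1c_chi_le _ _) (heL _ _ h1 h4) (norm_nonneg _) (by norm_num)
      have h10 : C * (|θ - θ'| / (2 * r)) * (ε * (2 * Real.pi * r)) + 1 * (ε * |θ - θ'|) =
          m0 / 8 * |θ - θ'| := by
        rw [hε]
        field_simp
      rw [h10] at h9
      have h11 := hkL θ θ' h1 h4
      linarith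
    · have h5 : G1c_chi r θ' = 0 := by
        by_contra hne
        exact h4 (hsup θ' hθ' hne).1
      have h6 : G1c_d e r θ' = 0 := by
        unfold G1c_d
        rw [h5, zero_smul]
      rw [h6, sub_zero]
      have h7 := hcK θ θ' h2 (not_lt.mp h4) hθ'
      have h8 := hd θ
      linarith
  have dper : ∀ θ, G1c_d e r (θ + 2 * Real.pi) = G1c_d e r θ := by
    intro θ
    unfold G1c_d
    rw [G1c_chi_per, eper]
  refine ⟨r, hr, hr8, ?_, ?_⟩
  · intro θ θ'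
    obtain ⟨θ0, n, h0, hn⟩ := G1c_rep θ
    obtain ⟨θ1, n', h1, hn'⟩ := G1c_rep θ'
    rw [hn, hn', G1c_pint dper, G1c_pint dper, G1c_pint kper, G1c_pint kper]
    by_cases h2 : G1c_chi r θ0 = 0
    · by_cases h3 : G1c_chi r θ1 = 0
      · unfold G1c_d
        rw [h2, h3, zero_smul, zero_smul, sub_zero, norm_zero]
        positivity
      · rw [norm_sub_rev, norm_sub_rev (k θ0)]
        exact hkey _ _ h1 h0 h3
    · exact hkey _ _ h0 h1 h2
  · intro θ
    obtain ⟨θ0, n, h0, hn⟩ := G1c_rep θ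
    rw [hn, G1c_pint dper, G1c_pint kper]
    by_cases h2 : G1c_chi r θ0 = 0
    · unfold G1c_d
      rw [h2, zero_smul, norm_zero]
      have := le_max_right (1 / 2 - ‖k θ0‖) 0
      positivity
    · obtain ⟨h3, h4, h5⟩ := hsup θ0 h0 h2
      have h6 := hk3 θ0 (lt_of_lt_of_le h3 hs3')
      have h7 := le_max_left (1 / 2 - ‖k θ0‖) 0
      have h8 := hd θ0
      linarith

theorem G1c_der {k d : ℝ → V} (h : ∀ θ θ', ‖d θ - d θ'‖ ≤ 1 / 4 * ‖k θ - k θ'‖)
    (hk : Differentiable ℝ k) (hd : Differentiable ℝ d) (θ : ℝ) (hne : deriv k θ ≠ 0) :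
    deriv (fun t => k t + d t) θ ≠ 0 := by
  have h1 := (hk θ).hasDerivAt
  have h2 := (hd θ).hasDerivAt
  have h3 : ‖deriv d θ‖ ≤ 1 / 4 * ‖deriv k θ‖ := by
    have h4 := (hasDerivAt_iff_tendsto_slope.mp h1).norm.const_mul (1 / 4)
    have h5 := (hasDerivAt_iff_tendsto_slope.mp h2).norm
    refine le_of_tendsto_of_tendsto' h5 h4 fun x => ?_
    rw [slope_def_module, slope_def_module, norm_smul, norm_smul]
    have h6 := h x θ
    have h7 := norm_nonneg ((x - θ)⁻¹)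
    nlinarith
  have h4 : deriv (fun t => k t + d t) θ = deriv k θ + deriv d θ := (h1.add h2).deriv
  rw [h4]
  intro h5
  have h6 : ‖deriv k θ‖ = ‖deriv d θ‖ := by
    rw [eq_neg_of_add_eq_zero_left h5, norm_neg]
  have h7 : 0 < ‖deriv k θ‖ := norm_pos_iff.mpr hne
  linarith

theorem G1c_mq (q : ℕ) : 0 < mq q := by
  unfold mq Nq
  positivity

theorem G1c (q : ℕ) (hq : Odd q) : ∃ (kt : ℝ → V) (Θ : V ≃ₜ V) (ε : ℝ), 0 < ε ∧ ε < 1 ∧
    ContDiff ℝ ∞ kt ∧ (∀ θ, kt (θ + 2 * Real.pi) = kt θ) ∧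
    (∀ θ, |θ| < ε → kt θ = (2 * mq q * Real.tan (θ / 2), 0)) ∧ (∀ θ, deriv kt θ ≠ 0) ∧
    (∀ θ, Θ (kk q θ) = kt θ) ∧ (∀ y, 1 / 2 ≤ ‖y‖ → Θ y = y) := by
  set e : ℝ → V := fun θ => (2 * mq q * Real.tan (θ / 2), 0) - kk q θ with he
  have hks := G1a_smooth q hq
  have hper := G1a_period q
  have eper : ∀ θ, e (θ + 2 * Real.pi) = e θ := by
    intro θ
    simp only [he]
    rw [hper θ, show (θ + 2 * Real.pi) / 2 = θ / 2 + Real.pi by ring, Real.tan_add_pi]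
  have hL : ∀ θ : ℝ, Real.cos (θ / 2) ≠ 0 →
      ContDiffAt ℝ ∞ (fun θ : ℝ => ((2 * mq q * Real.tan (θ / 2), 0) : V)) θ := by
    intro θ hθ
    apply ContDiffAt.prodMk
    · apply contDiffAt_const.mul
      exact ContDiffAt.comp (g := Real.tan) θ (Real.contDiffAt_tan.mpr hθ)
        (contDiffAt_id.div_const (2 : ℝ))
    · exact contDiffAt_const
  have hLd : HasStrictDerivAt (fun θ : ℝ => ((2 * mq q * Real.tan (θ / 2), 0) : V)) (mq q, 0) 0 := by
    apply HasStrictDerivAt.prodMk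
    · have h1 : HasStrictDerivAt (fun θ : ℝ => θ / 2) (1 / 2) 0 := (hasStrictDerivAt_id 0).div_const 2
      have h2 : HasStrictDerivAt Real.tan (1 / Real.cos ((0 : ℝ) / 2) ^ 2) ((0 : ℝ) / 2) :=
        Real.hasStrictDerivAt_tan (by simp)
      have h3 := (h2.comp (0 : ℝ) h1).const_mul (2 * mq q)
      have h4 : 2 * mq q * (1 / Real.cos ((0 : ℝ) / 2) ^ 2 * (1 / 2)) = mq q := by
        rw [zero_div, Real.cos_zero]
        ring
      rw [h4] at h3
      exact h3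
    · exact hasStrictDerivAt_const _ _
  have hed : HasStrictDerivAt e 0 0 := by
    have h1 : HasStrictDerivAt (kk q) (mq q, 0) 0 := by
      rw [← G1a_deriv0 q hq]
      exact (hks.contDiffAt (x := 0)).hasStrictDerivAt (by simp)
    have h2 := hLd.sub h1
    rw [sub_self] at h2
    exact h2
  have e0 : e 0 = 0 := by
    simp only [he]
    rw [G1a_zero']
    simp
  obtain ⟨r, hr, hr8, hb1, hb2⟩ := G1c_core (kk q) e (mq q) (G1c_mq q) hks hper eper
    (G1a_inj q hq) (G1a_zero' q) (G1a_deriv0 q hq) hed e0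
  have dsm : ContDiff ℝ ∞ (G1c_d e r) := by
    rw [contDiff_iff_contDiffAt]
    intro θ
    by_cases hθ : Real.cos (θ / 2) = 0
    · have hev : G1c_d e r =ᶠ[𝓝 θ] fun _ => 0 := by
        have hc : ContinuousAt (fun x : ℝ => |Real.sin (x / 2) / r|) θ := by
          apply Continuous.continuousAt
          fun_prop
        have h1 : (2 : ℝ) < |Real.sin (θ / 2) / r| := by
          have h2 := Real.sin_sq_add_cos_sq (θ / 2)
          rw [hθ] at h2
          have h3 : |Real.sin (θ / 2)| = 1 := by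
            rw [← sq_abs] at h2
            have := abs_nonneg (Real.sin (θ / 2))
            nlinarith
          rw [abs_div, h3, abs_of_pos hr, lt_div_iff₀ hr]
          linarith
        filter_upwards [hc.eventually (lt_mem_nhds h1)] with x hx
        have h4 : G1c_chi r x = 0 := by
          unfold G1c_chi
          apply G1c_f.zero_of_le_dist
          rw [Real.dist_eq, sub_zero]
          exact le_of_lt hx
        unfold G1c_d
        rw [h4, zero_smul]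
      exact contDiffAt_const.congr_of_eventuallyEq hev
    · exact ((G1c_chi_smooth r).contDiffAt).smul ((hL θ hθ).sub hks.contDiffAt)
  have dper : ∀ θ, G1c_d e r (θ + 2 * Real.pi) = G1c_d e r θ := by
    intro θ
    unfold G1c_d
    rw [G1c_chi_per, eper]
  obtain ⟨Θ, hΘ1, hΘ2⟩ := G1b (kk q) (G1c_d e r) (1 / 2) hb1 hb2
  refine ⟨fun θ => kk q θ + G1c_d e r θ, Θ, r, hr, by linarith, hks.add dsm, ?_, ?_, ?_, hΘ1, hΘ2⟩
  · intro θ
    simp only
    rw [hper, dper]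
  · intro θ hθ
    simp only
    unfold G1c_d
    rw [G1c_chi_one hr hθ.le, one_smul]
    simp only [he]
    abel
  · intro θ
    exact G1c_der hb1 (hks.differentiable (by simp)) (dsm.differentiable (by simp)) θ
      (G1a_deriv q hq θ)

end LQ
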