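import Pool.Agent.H64.LQ.G1c

/-!
# G1d: the long torus knot and its complement

With `kt, Θ, ε` from G1c put `th(t) = 2 arccot (2 m₀ t) = π - 2 arctan (2 m₀ t) ∈ (0, 2π)`, smooth, strictly decreasing with nonzero derivative, onto `(0, 2π)`, and
`ct(t) = inv3 (kt (th t))`. (1) `kt θ = 0` iff `θ ∈ 2πℤ`: `kt θ = Θ (kk θ)`, `Θ 0 = Θ (kk 0) = kt 0 = 0`, `kk θ = 0 = kk 0` iff `θ ∈ 2πℤ`. So `ct` is smooth (`inv3` is smooth away from `0`), injective
(`kt` is injective on `[0, 2π)`), `ct' ≠ 0` (`inv3` is an involution of `V ∖ {0}`, smooth, hence its derivative is injective). (2) For `t ≥ T0` large, `0 < th t < ε`, and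
`kt (th t) = (2 m₀ tan (th t / 2), 0) = (1/t, 0)` as `tan (arccot x) = 1/x`, so `ct t = (t, 0)`; for `t ≤ -T0`, use `th t - 2π ∈ (-ε, 0)` and periodicity, `tan (th t/2 - π) = tan (th t / 2) = 1/t` again.
(3) Choose `L ≥ max T0 1` with `nsq (ct t) ≤ L²` for `|t| ≤ T0` (compactness). Put `c t = (1/L) ct (L t)`: a long knot of the model (for `|t| ≤ 1`: if `|L t| ≤ T0` norm `≤ 1`; otherwise
`c t = (t, 0)`).
(4) `Hc x = Ep x` if `‖x‖ ≤ 1`, `Em (Θ.symm (inv3 x))` otherwise. For `0 < ‖x‖ ≤ 1`: `‖inv3 x‖ = ‖x‖/nsq x ≥ 1/(2‖x‖) ≥ 1/2` (`nsq x ≤ 2 ‖x‖²`), so `Θ.symm (inv3 x) = inv3 x` and both formulas agree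
(G1a_inv). So `Hc` is continuous (near `0` it is `Ep`, elsewhere the second formula is valid for all `x ≠ 0`). `Hc x ≠ (1,1)`: `Em y = (1,1)` only for `y = 0`, `Θ.symm y = 0` iff `y = 0`, `inv3 x ≠ 0`;
`Ep x ≠ (1, 1)`. Inverse: `Hci y = inv3 (Θ (Emi y))` for `y ≠ (-1,-1)` (note `Emi y ≠ 0` as `y ≠ (1,1)`, so `Θ (Emi y) ≠ 0`) and `Hci (-1,-1) = 0`; near `(-1,-1)`, `‖Emi y‖` is large and
`Hci y = inv3 (Emi y)` tends to `0`. `H x = Hc (L • x)`, `Hi y = (1/L) • Hci y`.
(5) `H (c t) = Em (Θ.symm (kt (th (L t)))) = Em (kk (th (L t))) = K (th (L t))` (`inv3 (inv3 y) = y`). Conversely if `H x` is on the torus knot, `H x = K θ` with `0 ≤ θ < 2π` (G1a_mem), `θ ≠ 0` as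
`H x ≠ (1,1) = K 0`, so `θ = th (L t)` for some `t`, `H x = H (c t)` and `x = c t`.
(6) far: `‖x‖ → ∞`: `inv3 (L x) → 0`, `Θ.symm` continuous with `Θ.symm 0 = 0`, `Em 0 = (1,1)`.
-/

open scoped ContDiff unitInterval
open Topology Set

namespace LQ

open LK

private theorem G1d_le (x : V) : ‖x‖ ^ 2 ≤ nsq x := by
  unfold nsq
  rw [Prod.norm_def, Real.norm_eq_abs]
  rcases max_cases |x.1| ‖x.2‖ with h | h
  · rw [h.1, sq_abs]; nlinarith [sq_nonneg ‖x.2‖]
  · rw [h.1]; nlinarith [sq_nonneg x.1]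

private theorem G1d_ge (x : V) : nsq x ≤ 2 * ‖x‖ ^ 2 := by
  have h1 := norm_fst_le x
  have h2 := norm_snd_le x
  rw [Real.norm_eq_abs] at h1
  unfold nsq
  have h3 : x.1 ^ 2 ≤ ‖x‖ ^ 2 := by
    rw [← sq_abs]; exact pow_le_pow_left₀ (abs_nonneg _) h1 2
  have h4 : ‖x.2‖ ^ 2 ≤ ‖x‖ ^ 2 := pow_le_pow_left₀ (norm_nonneg _) h2 2
  linarith

private theorem G1d_pos {x : V} (hx : x ≠ 0) : 0 < nsq x :=
  lt_of_lt_of_le (pow_pos (norm_pos_iff.2 hx) 2) (G1d_le x)

private theorem G1d_nsq_smul (r : ℝ) (x : V) : nsq (r • x) = r ^ 2 * nsq x := by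
  unfold nsq
  rw [Prod.smul_fst, Prod.smul_snd, norm_smul, Real.norm_eq_abs, mul_pow, sq_abs, smul_eq_mul]
  ring

private theorem G1d_inv_inv (x : V) : inv3 (inv3 x) = x := by
  by_cases hx : x = 0
  · subst hx; simp [inv3]
  · have h := G1d_pos hx
    unfold inv3
    rw [G1d_nsq_smul, smul_smul, show ((nsq x)⁻¹ ^ 2 * nsq x)⁻¹ * (nsq x)⁻¹ = 1 by field_simp,
      one_smul]

private theorem G1d_inv_zero : inv3 0 = 0 := by simp [inv3]

private theorem G1d_inv_ne {x : V} (hx : x ≠ 0) : inv3 x ≠ 0 := by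
  intro h
  apply hx
  rw [← G1d_inv_inv x, h, G1d_inv_zero]

private theorem G1d_norm_inv (x : V) : ‖inv3 x‖ = (nsq x)⁻¹ * ‖x‖ := by
  unfold inv3
  rw [norm_smul, Real.norm_eq_abs, abs_inv, abs_of_nonneg]
  unfold nsq; positivity

private theorem G1d_inv_le {x : V} (hx : x ≠ 0) : ‖inv3 x‖ ≤ ‖x‖⁻¹ := by
  have h := G1d_pos hx
  have h1 := G1d_le x
  have h2 := norm_pos_iff.2 hx
  rw [G1d_norm_inv, inv_mul_le_iff₀ h, ← div_eq_mul_inv, le_div_iff₀ h2]
  nlinarith

private theorem G1d_inv_ge {x : V} (hx : x ≠ 0) (h1 : ‖x‖ ≤ 1) : 1 / 2 ≤ ‖inv3 x‖ := by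
  have h := G1d_pos hx
  have h3 := G1d_ge x
  have h2 := norm_pos_iff.2 hx
  rw [G1d_norm_inv, ← div_eq_inv_mul, div_le_div_iff₀ two_pos h]
  nlinarith

private theorem G1d_nsq_smooth : ContDiff ℝ ∞ nsq := by
  unfold nsq
  exact (contDiff_fst.pow 2).add ((contDiff_norm_sq ℝ).comp contDiff_snd)

private theorem G1d_inv_smooth {x : V} (hx : x ≠ 0) : ContDiffAt ℝ ∞ inv3 x := by
  unfold inv3
  exact ((G1d_nsq_smooth.contDiffAt).inv (G1d_pos hx).ne').smul contDiffAt_id

private theorem G1d_th_deriv (m t : ℝ) : HasDerivAt (fun t : ℝ => Real.pi - 2 * Real.arctan (2 * m * t))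
    (-(2 * (1 / (1 + (2 * m * t) ^ 2) * (2 * m)))) t := by
  have h1 : HasDerivAt (fun t : ℝ => 2 * m * t) (2 * m) t := by
    simpa using (hasDerivAt_id t).const_mul (2 * m)
  have h2 := (h1.arctan).const_mul 2
  exact h2.const_sub Real.pi

private theorem G1d_mq (q : ℕ) : 0 < mq q := by
  unfold mq Nq
  positivity

private theorem G1d_tan {m t : ℝ} :
    Real.tan ((Real.pi - 2 * Real.arctan (2 * m * t)) / 2) = (2 * m * t)⁻¹ := by
  rw [show (Real.pi - 2 * Real.arctan (2 * m * t)) / 2 = Real.pi / 2 - Real.arctan (2 * m * t) by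
    ring, Real.tan_pi_div_two_sub, Real.tan_arctan]

theorem G1d (q : ℕ) (hq : Odd q) (h3 : 3 ≤ q) : ∃ (c : ℝ → V) (H : V → ℂ × ℂ) (Hi : ℂ × ℂ → V),
    TorM q c H Hi := by
  obtain ⟨kt, Θ, ε, hε0, hε1, hkt, hper, hloc, hder, hΘ, hfix⟩ := G1c q hq
  have hm := G1d_mq q
  set m := mq q with hmdef
  have hpi := Real.pi_pos
  -- values at zero
  have hkt0 : kt 0 = 0 := by
    rw [hloc 0 (by simpa using hε0)]; simp
  have hΘ0 : Θ 0 = 0 := by
    have h := hΘ 0
    rwa [G1a_zero' q, hkt0] at h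
  have hΘs0 : Θ.symm 0 = 0 := by
    rw [Homeomorph.symm_apply_eq, hΘ0]
  have hktinj : ∀ a b : ℝ, 0 ≤ a → a < 2 * Real.pi → 0 ≤ b → b < 2 * Real.pi → kt a = kt b →
      a = b := by
    intro a b ha0 ha1 hb0 hb1 hab
    rw [← hΘ a, ← hΘ b] at hab
    obtain ⟨n, hn⟩ := G1a_inj q hq a b (Θ.injective hab)
    have h1 : n = 0 := by
      have h2 : (n : ℝ) < 1 := by
        by_contra hc
        push Not at hc
        nlinarith
      have h4 : (-1 : ℝ) < n := by
        by_contra hc
        push Not at hc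
        nlinarith
      have h5 : n < 1 := by exact_mod_cast h2
      have h6 : -1 < n := by exact_mod_cast h4
      omega
    rw [hn, h1]; simp
  -- the function th
  set th : ℝ → ℝ := fun t => Real.pi - 2 * Real.arctan (2 * m * t) with hth
  have th0 : ∀ t, 0 < th t := fun t => by
    have := Real.arctan_lt_pi_div_two (2 * m * t)
    simp only [hth]; linarith
  have th1 : ∀ t, th t < 2 * Real.pi := fun t => by
    have := Real.neg_pi_div_two_lt_arctan (2 * m * t)
    simp only [hth]; linarith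
  have thinj : ∀ s t, th s = th t → s = t := by
    intro s t hst
    simp only [hth] at hst
    have h1 : Real.arctan (2 * m * s) = Real.arctan (2 * m * t) := by linarith
    have h2 := Real.arctan_injective h1
    have h4 : (2 * m) ≠ 0 := by positivity
    exact mul_left_cancel₀ h4 h2
  have thsurj : ∀ θ, 0 < θ → θ < 2 * Real.pi → ∃ t, th t = θ := by
    intro θ h1 h2
    refine ⟨Real.tan ((Real.pi - θ) / 2) / (2 * m), ?_⟩
    simp only [hth]
    rw [mul_div_cancel₀ _ (by positivity : (2 * m) ≠ 0), Real.arctan_tan (by linarith) (by linarith)]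
    ring
  have thsm : ContDiff ℝ ∞ th := by
    simp only [hth]
    exact contDiff_const.sub (contDiff_const.mul
      (Real.contDiff_arctan.comp (contDiff_const.mul contDiff_id)))
  have hne : ∀ t, kt (th t) ≠ 0 := by
    intro t h
    have h1 := hktinj (th t) 0 (th0 t).le (th1 t) le_rfl (by positivity) (by rw [h, hkt0])
    exact (th0 t).ne' h1
  set ct : ℝ → V := fun t => inv3 (kt (th t)) with hct
  have ctne : ∀ t, ct t ≠ 0 := fun t => G1d_inv_ne (hne t)
  have ctsm : ContDiff ℝ ∞ ct := by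
    rw [contDiff_iff_contDiffAt]
    intro t
    exact (G1d_inv_smooth (hne t)).comp t (hkt.comp thsm).contDiffAt
  have ctinj : ∀ s t, ct s = ct t → s = t := by
    intro s t hst
    have h1 : kt (th s) = kt (th t) := by
      rw [← G1d_inv_inv (kt (th s)), ← G1d_inv_inv (kt (th t))]
      exact congrArg inv3 hst
    exact thinj s t (hktinj _ _ (th0 s).le (th1 s) (th0 t).le (th1 t) h1)
  have ctder : ∀ t, deriv ct t ≠ 0 := by
    intro t h0
    have hd : HasDerivAt ct 0 t := by
      have := (ctsm.differentiable (by simp) t).hasDerivAt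
      rwa [h0] at this
    have hi : HasFDerivAt inv3 (fderiv ℝ inv3 (ct t)) (ct t) :=
      ((G1d_inv_smooth (ctne t)).differentiableAt (by simp)).hasFDerivAt
    have h1 := hi.comp_hasDerivAt t hd
    have e : inv3 ∘ ct = fun t => kt (th t) := by
      funext s; simp only [Function.comp, hct]; exact G1d_inv_inv _
    rw [e, map_zero] at h1
    have h2 := HasDerivAt.scomp t ((hkt.differentiable (by simp) (th t)).hasDerivAt)
      (G1d_th_deriv m t)
    have h4 := h1.unique h2
    have h5 := smul_eq_zero.1 h4.symm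
    rcases h5 with h5 | h5
    · have : (0 : ℝ) < 2 * (1 / (1 + (2 * m * t) ^ 2) * (2 * m)) := by positivity
      linarith
    · exact hder _ h5
  -- standard ends
  obtain ⟨T0, hT0, hT1⟩ : ∃ T0 : ℝ, 0 < T0 ∧ ∀ s, T0 ≤ s → (Real.pi - ε) / 2 < Real.arctan (2 * m * s) := by
    have h1 : 0 < Real.tan ((Real.pi - ε) / 2) := by
      apply Real.tan_pos_of_pos_of_lt_pi_div_two
      · have := Real.pi_gt_three; linarith
      · linarith
    refine ⟨Real.tan ((Real.pi - ε) / 2) / (2 * m) + 1, by positivity, ?_⟩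
    intro s hs
    have h2 : Real.tan ((Real.pi - ε) / 2) < 2 * m * s := by
      have h5 : Real.tan ((Real.pi - ε) / 2) / (2 * m) < s := by linarith
      rw [div_lt_iff₀ (by positivity)] at h5
      linarith
    have h4 := Real.arctan_strictMono h2
    rwa [Real.arctan_tan (by have := Real.pi_gt_three; linarith) (by linarith)] at h4
  have hinvt : ∀ t : ℝ, t ≠ 0 → inv3 ((2 * m * (2 * m * t)⁻¹ : ℝ), (0 : ℂ)) = (t, 0) := by
    intro t ht
    have e1 : 2 * m * (2 * m * t)⁻¹ = t⁻¹ := by field_simp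
    rw [e1]
    unfold inv3 nsq
    simp only [norm_zero]
    ext <;> simp
    field_simp
  have ctstd : ∀ t, T0 ≤ |t| → ct t = (t, 0) := by
    intro t ht
    have ht0 : t ≠ 0 := by
      rintro rfl
      rw [abs_zero] at ht
      linarith
    have key : kt (th t) = ((2 * m * (2 * m * t)⁻¹ : ℝ), (0 : ℂ)) := by
      rcases le_or_gt 0 t with h0 | h0
      · rw [abs_of_nonneg h0] at ht
        have h1 := hT1 t ht
        rw [hloc (th t) (by rw [abs_of_pos (th0 t)]; simp only [hth]; linarith)]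
        simp only [hth]
        rw [G1d_tan]
      · rw [abs_of_neg h0] at ht
        have h1 := hT1 (-t) ht
        rw [show 2 * m * -t = -(2 * m * t) by ring, Real.arctan_neg] at h1
        have h2 : kt (th t) = kt (th t - 2 * Real.pi) := by
          rw [← hper (th t - 2 * Real.pi)]
          congr 1; ring
        have h4 : |th t - 2 * Real.pi| < ε := by
          rw [abs_of_neg (by linarith [th1 t])]
          simp only [hth]; linarith
        rw [h2, hloc _ h4]
        simp only [hth]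
        rw [show (Real.pi - 2 * Real.arctan (2 * m * t) - 2 * Real.pi) / 2 =
          (Real.pi - 2 * Real.arctan (2 * m * t)) / 2 - Real.pi by ring, Real.tan_sub_pi, G1d_tan]
    simp only [hct]
    rw [key, hinvt t ht0]
  -- the constant L
  obtain ⟨L, hL1, hLT, hLb⟩ : ∃ L : ℝ, 1 ≤ L ∧ T0 ≤ L ∧ ∀ t, |t| ≤ T0 → nsq (ct t) ≤ L ^ 2 := by
    have hc : ContinuousOn (fun t => nsq (ct t)) (Icc (-T0) T0) :=
      (G1d_nsq_smooth.continuous.comp ctsm.continuous).continuousOn
    obtain ⟨B, hB⟩ := (isCompact_Icc.image_of_continuousOn hc).bddAbove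
    refine ⟨max (max 1 T0) B, le_max_of_le_left (le_max_left _ _),
      le_max_of_le_left (le_max_right _ _), ?_⟩
    intro t ht
    have h1 : nsq (ct t) ≤ B := hB ⟨t, abs_le.1 ht, rfl⟩
    have h2 : B ≤ max (max 1 T0) B := le_max_right _ _
    have h4 : 1 ≤ max (max 1 T0) B := le_max_of_le_left (le_max_left _ _)
    nlinarith
  have hL0 : 0 < L := by linarith
  -- the homeomorphism
  classical
  set Hc : V → ℂ × ℂ := fun x => if x = 0 then (-1, -1) else Em q (Θ.symm (inv3 x)) with hHc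
  set Hci : ℂ × ℂ → V := fun y => if y = (-1, -1) then 0 else inv3 (Θ (Emi q y)) with hHci
  have Hc0 : Hc 0 = (-1, -1) := by simp [hHc]
  have Hcne : ∀ x, x ≠ 0 → Hc x = Em q (Θ.symm (inv3 x)) := fun x hx => by simp [hHc, hx]
  have Hci0 : Hci (-1, -1) = 0 := by simp [hHci]
  have Hcine : ∀ y, y ≠ (-1, -1) → Hci y = inv3 (Θ (Emi q y)) := fun y hy => by simp [hHci, hy]
  have HcEp : ∀ x, ‖x‖ ≤ 1 → Hc x = Ep q x := by
    intro x hx
    by_cases h0 : x = 0
    · rw [h0, Hc0, (G1a_zero q).2]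
    · rw [Hcne x h0, ← G1a_inv q x h0]
      congr 1
      rw [Homeomorph.symm_apply_eq]
      exact (hfix _ (G1d_inv_ge h0 hx)).symm
  have EmInj : ∀ a b, Em q a = Em q b → a = b := by
    intro a b hab
    rw [← G1a_left q a, ← G1a_left q b, hab]
  have Hcmem : ∀ x, OnS (Hc x) ∧ Hc x ≠ (1, 1) := by
    intro x
    by_cases h0 : x = 0
    · rw [h0]
      constructor
      · rw [Hc0, ← (G1a_zero q).2]; exact G1a_OnSp q 0
      · rw [Hc0]
        intro h
        have := congrArg (fun y : ℂ × ℂ => y.1.re) h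
        norm_num at this
    · rw [Hcne x h0]
      refine ⟨G1a_OnS q _, ?_⟩
      intro h
      rw [← (G1a_zero q).1] at h
      have h1 := EmInj _ _ h
      rw [Homeomorph.symm_apply_eq, hΘ0] at h1
      exact G1d_inv_ne h0 h1
  have Hleft : ∀ x, Hci (Hc x) = x := by
    intro x
    by_cases h0 : x = 0
    · rw [h0, Hc0, Hci0]
    · rw [Hcne x h0, Hcine _ (G1a_ne q _), G1a_left, Homeomorph.apply_symm_apply, G1d_inv_inv]
  have Emine : ∀ y, OnS y → y ≠ (1, 1) → y ≠ (-1, -1) → Θ (Emi q y) ≠ 0 := by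
    intro y hy h1 h2 h
    rw [← hΘ0] at h
    have h4 := Θ.injective h
    apply h1
    rw [← G1a_right q y hy h2, h4, (G1a_zero q).1]
  have Hright : ∀ y, OnS y → y ≠ (1, 1) → Hc (Hci y) = y := by
    intro y hy h1
    by_cases h0 : y = (-1, -1)
    · rw [h0, Hci0, Hc0]
    · rw [Hcine y h0, Hcne _ (G1d_inv_ne (Emine y hy h1 h0)), G1d_inv_inv,
        Homeomorph.symm_apply_apply, G1a_right q y hy h0]
  have Hcont : Continuous Hc := by
    rw [continuous_iff_continuousAt]
    intro x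
    by_cases h0 : x = 0
    · subst h0
      have h1 : Hc =ᶠ[𝓝 0] Ep q := by
        filter_upwards [Metric.ball_mem_nhds (0 : V) one_pos] with x hx
        exact HcEp x (le_of_lt (by simpa using hx))
      exact (G1a_contEm q).2.continuousAt.congr h1.symm
    · have h1 : Hc =ᶠ[𝓝 x] fun x => Em q (Θ.symm (inv3 x)) := by
        filter_upwards [isOpen_ne.mem_nhds h0] with x hx
        exact Hcne x hx
      refine ContinuousAt.congr ?_ h1.symm
      exact ((G1a_contEm q).1.comp Θ.symm.continuous).continuousAt.comp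
        (G1d_inv_smooth h0).continuousAt
  have Hicont : ContinuousOn Hci {y | OnS y ∧ y ≠ (1, 1)} := by
    intro y hy
    by_cases h0 : y = (-1, -1)
    · subst h0
      rw [ContinuousWithinAt, Hci0, Metric.tendsto_nhds]
      intro e he
      set R : ℝ := max 1 (2 / e) with hR
      have hRpos : 0 < R := lt_of_lt_of_le one_pos (le_max_left _ _)
      have hcomp : IsCompact (Em q '' Metric.closedBall (0 : V) R) :=
        (isCompact_closedBall _ _).image (G1a_contEm q).1
      have hnot : ((-1, -1) : ℂ × ℂ) ∉ Em q '' Metric.closedBall (0 : V) R := by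
        rintro ⟨x, -, hx⟩
        exact G1a_ne q x hx
      have hmem := hcomp.isClosed.isOpen_compl.mem_nhds hnot
      filter_upwards [mem_nhdsWithin_of_mem_nhds hmem, self_mem_nhdsWithin] with y hy1 hy2
      by_cases h1 : y = (-1, -1)
      · rw [h1, Hci0]; simpa using he
      · rw [Hcine y h1]
        have h2 : R < ‖Emi q y‖ := by
          by_contra hcon
          push Not at hcon
          apply hy1
          exact ⟨Emi q y, by simpa using hcon, G1a_right q y hy2.1 h1⟩
        have hR1 : 1 ≤ R := le_max_left _ _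
        have hR2 : 2 / e ≤ R := le_max_right _ _
        rw [hfix _ (by linarith)]
        have h4 : Emi q y ≠ 0 := by
          intro h; rw [h, norm_zero] at h2; linarith
        rw [dist_zero_right]
        have h5 := G1d_inv_le h4
        have h6 : ‖Emi q y‖⁻¹ < e := by
          rw [inv_lt_comm₀ (by linarith) he]
          have h7 : e⁻¹ < 2 / e := by
            rw [inv_eq_one_div]
            exact div_lt_div_of_pos_right (by norm_num) he
          linarith
        linarith
    · have h1 : Hci =ᶠ[𝓝[{y | OnS y ∧ y ≠ (1, 1)}] y] fun y => inv3 (Θ (Emi q y)) := by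
        filter_upwards [mem_nhdsWithin_of_mem_nhds (isOpen_ne.mem_nhds h0)] with z hz
        exact Hcine z hz
      refine ContinuousWithinAt.congr_of_eventuallyEq ?_ h1 (Hcine y h0)
      have h2 : ContinuousWithinAt (Emi q) {y | OnS y ∧ y ≠ (1, 1)} y := by
        have h4 := G1a_contEmi q y ⟨hy.1, h0⟩
        rw [ContinuousWithinAt] at h4 ⊢
        refine h4.mono_left ?_
        rw [nhdsWithin, nhdsWithin]
        apply le_inf inf_le_left
        have h5 : {z : ℂ × ℂ | z ≠ (-1, -1)} ∈ 𝓝 y := isOpen_ne.mem_nhds h0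
        have h6 : {z : ℂ × ℂ | z ≠ (-1, -1)} ∩ {y | OnS y ∧ y ≠ (1, 1)} ∈
            𝓝 y ⊓ Filter.principal {y | OnS y ∧ y ≠ (1, 1)} :=
          Filter.inter_mem_inf h5 (Filter.mem_principal_self _)
        rw [Filter.le_principal_iff]
        exact Filter.mem_of_superset h6 (fun z hz => ⟨hz.2.1, hz.1⟩)
      have h4 : ContinuousAt (fun z => inv3 (Θ z)) (Emi q y) := by
        have h5 : ContinuousAt inv3 (Θ (Emi q y)) :=
          (G1d_inv_smooth (Emine y hy.1 hy.2 h0)).continuousAt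
        exact ContinuousAt.comp (f := fun z => Θ z) h5 Θ.continuous.continuousAt
      exact h4.comp_continuousWithinAt h2
  have HcK : ∀ t, Hc (ct t) = KK q (th t) := by
    intro t
    rw [Hcne _ (ctne t)]
    simp only [hct]
    rw [G1d_inv_inv, ← G1a_Em q hq]
    congr 1
    rw [Homeomorph.symm_apply_eq]
    exact (hΘ _).symm
  have hstd : ∀ t : ℝ, 1 ≤ |t| → L⁻¹ • ct (L * t) = (t, 0) := by
    intro t ht
    rw [ctstd (L * t) (by rw [abs_mul, abs_of_pos hL0]; nlinarith)]
    ext <;> simp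
    field_simp
  refine ⟨fun t => L⁻¹ • ct (L * t), fun x => Hc (L • x), fun y => L⁻¹ • Hci y, ?_⟩
  constructor
  · -- knot
    constructor
    · exact (contDiff_const (c := L⁻¹)).smul (ctsm.comp ((contDiff_const (c := L)).mul contDiff_id))
    · intro t
      have h1 : HasDerivAt (fun t : ℝ => L * t) L t := by
        simpa using (hasDerivAt_id t).const_mul L
      have h2 := (HasDerivAt.scomp t ((ctsm.differentiable (by simp) (L * t)).hasDerivAt) h1).const_smul L⁻¹
      have h4 : deriv (fun t => L⁻¹ • ct (L * t)) t = L⁻¹ • L • deriv ct (L * t) := h2.deriv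
      rw [h4, smul_smul, inv_mul_cancel₀ hL0.ne', one_smul]
      exact ctder _
    · intro s t hst
      have h1 : ct (L * s) = ct (L * t) := smul_right_injective V (inv_ne_zero hL0.ne') hst
      exact mul_left_cancel₀ hL0.ne' (ctinj _ _ h1)
    · exact hstd
    · intro t ht
      rcases le_or_gt |L * t| T0 with h | h
      · have h1 := hLb _ h
        change nsq (L⁻¹ • ct (L * t)) ≤ 1
        rw [G1d_nsq_smul, inv_pow, inv_mul_le_iff₀ (by positivity), mul_one]
        exact h1
      · have h1 : L⁻¹ • ct (L * t) = ((t : ℝ), (0 : ℂ)) := by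
          rw [ctstd (L * t) h.le]
          ext <;> simp
          field_simp
        simp only [h1]
        rw [norm_zero, ← sq_abs t]
        have := abs_nonneg t
        nlinarith
  · exact Hcont.comp (continuous_const_smul L)
  · exact Hicont.const_smul L⁻¹
  · intro x; exact Hcmem _
  · intro x
    beta_reduce
    rw [Hleft, smul_smul, inv_mul_cancel₀ hL0.ne', one_smul]
  · intro y hy h1
    beta_reduce
    rw [smul_smul, mul_inv_cancel₀ hL0.ne', one_smul, Hright y hy h1]
  · intro x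
    beta_reduce
    constructor
    · rintro ⟨t, rfl⟩
      rw [G1a_mem q hq _ (Hcmem _).1]
      refine ⟨th (L * t), (th0 _).le, th1 _, ?_⟩
      beta_reduce
      rw [smul_smul, mul_inv_cancel₀ hL0.ne', one_smul, HcK]
    · intro h
      obtain ⟨θ, h0, h1, h2⟩ := (G1a_mem q hq _ (Hcmem _).1).1 h
      have h4 : θ ≠ 0 := by
        rintro rfl
        apply (Hcmem (L • x)).2
        rw [h2]
        simp [KK]
      obtain ⟨t, ht⟩ := thsurj θ (lt_of_le_of_ne h0 h4.symm) h1
      rw [← ht, ← HcK] at h2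
      have h5 : L • x = ct t := by
        rw [← Hleft (L • x), h2, Hleft]
      refine ⟨L⁻¹ * t, ?_⟩
      beta_reduce
      rw [← mul_assoc, mul_inv_cancel₀ hL0.ne', one_mul, ← h5, smul_smul, inv_mul_cancel₀ hL0.ne',
        one_smul]
  · intro e he
    have hc : ContinuousAt (fun z => Em q (Θ.symm z)) 0 :=
      ((G1a_contEm q).1.comp Θ.symm.continuous).continuousAt
    rw [Metric.continuousAt_iff] at hc
    obtain ⟨δ, hδ, hd⟩ := hc e he
    refine ⟨δ⁻¹ + 1, ?_⟩
    intro x hx
    have hδ' : 0 < δ⁻¹ := inv_pos.2 hδ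
    have hx0 : 0 < ‖x‖ := by linarith
    have h1 : ‖L • x‖ = L * ‖x‖ := by rw [norm_smul, Real.norm_eq_abs, abs_of_pos hL0]
    have h2 : δ⁻¹ < ‖L • x‖ := by rw [h1]; nlinarith
    have h4 : L • x ≠ 0 := by
      intro h; rw [h, norm_zero] at h2; linarith
    beta_reduce
    rw [Hcne _ h4]
    have h5 : ‖inv3 (L • x)‖ < δ := by
      refine lt_of_le_of_lt (G1d_inv_le h4) ?_
      rw [inv_lt_comm₀ (by linarith) hδ]
      exact h2
    have h6 := hd (x := inv3 (L • x)) (by rw [dist_zero_right]; exact h5)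
    rw [hΘs0, (G1a_zero q).1, dist_eq_norm] at h6
    exact h6

end LQ
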