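import Pool.Agent.H64.LQ.FA

/-!
# WN: the winding number homomorphism

`f : X → ℂ` continuous without zero, `x : X`. There is a homomorphism `W : FundamentalGroup X x →* Multiplicative ℤ` such that for every loop `p` at `x` and every angle
`θ : C(I, ℝ)` of `f ∘ p` (i.e. `f (p u) = ‖f (p u)‖ e^{2πiθ(u)}`), `W (cls p) = θ 1 - θ 0` (an integer).
Proof. Existence of angles: FB applied to `u ↦ f (p u) / f x`·`‖f x‖` and adding a constant. Two angles of the same loop differ by a constant integer (a continuous integer valued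
function on `I`), so `θ 1 - θ 0` does not depend on `θ`; it is an integer since `f (p 1) = f (p 0)`. Homotopy invariance: for a homotopy `H : I × I → X` of loops the function
`(s, u) ↦ f (H (s, u)) / ‖..‖` has a continuous angle on the square (lifting for the covering `exp` or `Circle.exp`; or: the integer `n(s)` is locally constant in `s`, because two loops in
`ℂ ∖ {0}` with `‖f - g‖ < ‖f‖` pointwise have the same winding number: the quotient `g/f` stays in the right half plane where `arg` is continuous). Additivity: concatenate the angles.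
-/

open scoped ContDiff unitInterval
open Topology Set

namespace LQ

open LK

section

variable {X : Type*} [TopologicalSpace X] {x : X} (f : C(X, ℂ)) (hf : ∀ y, f y ≠ 0)

/-- the image of a loop -/
noncomputable def WN_g (p : Path x x) : C(I, {z : ℂ // z ≠ 0}) where
  toFun u := ⟨f (p u), hf _⟩
  continuous_toFun := Continuous.subtype_mk (f.continuous.comp p.continuous) _

theorem WN_hom {p q : Path x x} (h : p.Homotopic q) :
    (WN_g f hf p).HomotopicRel (WN_g f hf q) {0, 1} := by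
  obtain ⟨F⟩ := h
  have h0 : ∀ u, F (0, u) = p u := fun u => F.map_zero_left u
  have h1 : ∀ u, F (1, u) = q u := fun u => F.map_one_left u
  have h2 : ∀ t, F (t, 0) = x := fun t => F.source t
  have h3 : ∀ t, F (t, 1) = x := fun t => F.target t
  refine ⟨{ toFun := fun v => ⟨f (F v), hf _⟩
            continuous_toFun := Continuous.subtype_mk (f.continuous.comp F.continuous) _
            map_zero_left := fun u => Subtype.ext ?_
            map_one_left := fun u => Subtype.ext ?_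
            prop' := ?_ }⟩
  · show f (F (0, u)) = f (p u)
    rw [h0]
  · show f (F (1, u)) = f (q u)
    rw [h1]
  · intro t u hu
    apply Subtype.ext
    show f (F (t, u)) = f (p u)
    rcases hu with hu | hu
    · subst hu
      rw [h2, p.source]
    · rw [mem_singleton_iff] at hu
      subst hu
      rw [h3, p.target]

include hf in
theorem WN_key {p q : Path x x} (h : p.Homotopic q) (Γ Γ' : C(I, ℂ))
    (hΓ : ∀ u, Complex.exp (Γ u) = f (p u)) (hΓ' : ∀ u, Complex.exp (Γ' u) = f (q u)) :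
    Γ 1 - Γ 0 = Γ' 1 - Γ' 0 := by
  have e0 : Complex.exp (Γ 0) = Complex.exp (Γ' 0) := by
    rw [hΓ, hΓ', p.source, q.source]
  obtain ⟨n, hn⟩ := Complex.exp_eq_exp_iff_exists_int.1 e0
  let Γ2 : C(I, ℂ) := ⟨fun u => Γ' u + n * (2 * Real.pi * Complex.I), by fun_prop⟩
  have hΓ2 : ∀ u, Complex.exp (Γ2 u) = f (q u) := fun u => by
    rw [← hΓ']
    exact Complex.exp_eq_exp_iff_exists_int.2 ⟨n, rfl⟩
  have e1 : Γ2 0 = Γ 0 := hn.symm
  have cov := Complex.isCoveringMap_exp
  have hp0 : WN_g f hf p 0 = ⟨Complex.exp (Γ 0), Complex.exp_ne_zero _⟩ :=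
    Subtype.ext (hΓ 0).symm
  have hq0 : WN_g f hf q 0 = ⟨Complex.exp (Γ 0), Complex.exp_ne_zero _⟩ := by
    apply Subtype.ext
    show f (q 0) = Complex.exp (Γ 0)
    rw [← e1, hΓ2]
  have l1 : Γ = cov.liftPath (WN_g f hf p) (Γ 0) hp0 :=
    (cov.eq_liftPath_iff' _).2 ⟨funext fun u => Subtype.ext (hΓ u), rfl⟩
  have l2 : Γ2 = cov.liftPath (WN_g f hf q) (Γ 0) hq0 :=
    (cov.eq_liftPath_iff' _).2 ⟨funext fun u => Subtype.ext (hΓ2 u), e1⟩
  have e2 : Γ 1 = Γ2 1 := by
    rw [l2]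
    have := cov.liftPath_apply_one_eq_of_homotopicRel (WN_hom f hf h) (Γ 0) hp0 hq0
    rw [← this, ← l1]
  have e3 : Γ2 1 = Γ' 1 + n * (2 * Real.pi * Complex.I) := rfl
  rw [e2, e3, hn]
  ring

include hf in
theorem WN_ex (p : Path x x) : ∃ Γ : C(I, ℂ), ∀ u, Complex.exp (Γ u) = f (p u) := by
  obtain ⟨Γ, hΓ, -⟩ := Complex.isCoveringMap_exp.exists_path_lifts (WN_g f hf p)
    (Complex.log (f (p 0))) (Subtype.ext (Complex.exp_log (hf _)).symm)
  exact ⟨Γ, fun u => congrArg Subtype.val (congrFun hΓ u)⟩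

include hf in
theorem WN_int (p : Path x x) : ∃ n : ℤ, ∀ Γ : C(I, ℂ), (∀ u, Complex.exp (Γ u) = f (p u)) →
    Γ 1 - Γ 0 = n * (2 * Real.pi * Complex.I) := by
  obtain ⟨Γ, hΓ⟩ := WN_ex f hf p
  have e0 : Complex.exp (Γ 1) = Complex.exp (Γ 0) := by
    rw [hΓ, hΓ, p.source, p.target]
  obtain ⟨n, hn⟩ := Complex.exp_eq_exp_iff_exists_int.1 e0
  refine ⟨n, fun Γ' hΓ' => ?_⟩
  rw [WN_key f hf (Path.Homotopic.refl p) Γ' Γ hΓ' hΓ, hn]
  ring

/-- the winding number -/
noncomputable def WN_N (p : Path x x) : ℤ := (WN_int f hf p).choose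

theorem WN_N_spec (p : Path x x) (Γ : C(I, ℂ)) (hΓ : ∀ u, Complex.exp (Γ u) = f (p u)) :
    Γ 1 - Γ 0 = WN_N f hf p * (2 * Real.pi * Complex.I) :=
  (WN_int f hf p).choose_spec Γ hΓ

theorem WN_cancel {a b : ℤ} (h : (a : ℂ) * (2 * Real.pi * Complex.I) =
    b * (2 * Real.pi * Complex.I)) : a = b := by
  have h1 := mul_right_cancel₀ Complex.two_pi_I_ne_zero h
  exact_mod_cast h1

theorem WN_N_hom {p q : Path x x} (h : p.Homotopic q) : WN_N f hf p = WN_N f hf q := by
  obtain ⟨Γ, hΓ⟩ := WN_ex f hf p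
  obtain ⟨Γ', hΓ'⟩ := WN_ex f hf q
  apply WN_cancel
  rw [← WN_N_spec f hf p Γ hΓ, ← WN_N_spec f hf q Γ' hΓ']
  exact WN_key f hf h Γ Γ' hΓ hΓ'

theorem WN_N_trans (p q : Path x x) : WN_N f hf (p.trans q) = WN_N f hf p + WN_N f hf q := by
  obtain ⟨Γ, hΓ⟩ := WN_ex f hf p
  obtain ⟨Γ', hΓ'⟩ := WN_ex f hf q
  have e0 : Complex.exp (Γ 1) = Complex.exp (Γ' 0) := by
    rw [hΓ, hΓ', p.target, q.source]
  obtain ⟨k, hk⟩ := Complex.exp_eq_exp_iff_exists_int.1 e0
  let P : Path (Γ 0) (Γ 1) := ⟨Γ, rfl, rfl⟩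
  let Q : Path (Γ 1) (Γ' 1 + k * (2 * Real.pi * Complex.I)) :=
    ⟨⟨fun u => Γ' u + k * (2 * Real.pi * Complex.I), by fun_prop⟩, hk.symm, rfl⟩
  have h1 : ∀ u, Complex.exp ((P.trans Q) u) = f ((p.trans q) u) := by
    intro u
    rw [Path.trans_apply, Path.trans_apply]
    split_ifs with h
    · exact hΓ _
    · rw [← hΓ']
      exact Complex.exp_eq_exp_iff_exists_int.2 ⟨k, rfl⟩
  have h2 := WN_N_spec f hf (p.trans q) (P.trans Q).toContinuousMap h1
  have h3 : (P.trans Q).toContinuousMap 1 = Γ' 1 + k * (2 * Real.pi * Complex.I) :=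
    (P.trans Q).target
  have h4 : (P.trans Q).toContinuousMap 0 = Γ 0 := (P.trans Q).source
  rw [h3, h4] at h2
  have h5 := WN_N_spec f hf p Γ hΓ
  have h6 := WN_N_spec f hf q Γ' hΓ'
  apply WN_cancel
  push_cast
  rw [← h2, add_mul, ← h5, ← h6, hk]
  ring

end

theorem WN {X : Type*} [TopologicalSpace X] (x : X) (f : C(X, ℂ)) (hf : ∀ y, f y ≠ 0) :
    ∃ W : FundamentalGroup X x →* Multiplicative ℤ, ∀ (p : Path x x) (θ : C(I, ℝ)) (n : ℤ),
      (∀ u, f (p u) = (‖f (p u)‖ : ℂ) * Complex.exp (2 * Real.pi * (θ u) * Complex.I)) →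
      θ 1 - θ 0 = n → W (cls p) = Multiplicative.ofAdd n := by
  have hsurj : ∀ g : FundamentalGroup X x, ∃ p : Path x x, cls p = g := fun g =>
    Path.Homotopic.Quotient.mk_surjective g
  choose r hr using hsurj
  have hW : ∀ p : Path x x, WN_N f hf (r (cls p)) = WN_N f hf p := fun p =>
    WN_N_hom f hf (Path.Homotopic.Quotient.exact (hr (cls p)))
  refine ⟨MonoidHom.mk' (fun g => Multiplicative.ofAdd (WN_N f hf (r g))) ?_, ?_⟩
  · intro a b
    obtain ⟨p, rfl⟩ : ∃ p : Path x x, cls p = a := ⟨r a, hr a⟩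
    obtain ⟨q, rfl⟩ : ∃ q : Path x x, cls q = b := ⟨r b, hr b⟩
    have h1 : cls p * cls q = cls (q.trans p) := rfl
    rw [h1, hW, hW, hW, WN_N_trans, ← ofAdd_add, add_comm]
  · intro p θ n hθ hn
    show Multiplicative.ofAdd (WN_N f hf (r (cls p))) = Multiplicative.ofAdd n
    rw [hW]
    congr 1
    have hne : ∀ u, ‖f (p u)‖ ≠ 0 := fun u => norm_ne_zero_iff.2 (hf _)
    let Γ : C(I, ℂ) :=
      { toFun := fun u => ((Real.log ‖f (p u)‖ : ℝ) : ℂ) + 2 * Real.pi * (θ u) * Complex.I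
        continuous_toFun := by
          have h1 : Continuous fun u : I => Real.log ‖f (p u)‖ :=
            Continuous.log ((f.continuous.comp p.continuous).norm) hne
          have h2 : Continuous fun u : I => ((Real.log ‖f (p u)‖ : ℝ) : ℂ) :=
            Complex.continuous_ofReal.comp h1
          exact h2.add (by fun_prop) }
    have hΓ : ∀ u, Complex.exp (Γ u) = f (p u) := by
      intro u
      show Complex.exp (((Real.log ‖f (p u)‖ : ℝ) : ℂ) + 2 * Real.pi * (θ u) * Complex.I) = _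
      rw [Complex.exp_add, ← Complex.ofReal_exp,
        Real.exp_log (lt_of_le_of_ne (norm_nonneg _) (hne u).symm), ← hθ u]
    have h1 := WN_N_spec f hf p Γ hΓ
    have h2 : Γ 1 - Γ 0 = n * (2 * Real.pi * Complex.I) := by
      show (((Real.log ‖f (p 1)‖ : ℝ) : ℂ) + 2 * Real.pi * (θ 1) * Complex.I) -
        (((Real.log ‖f (p 0)‖ : ℝ) : ℂ) + 2 * Real.pi * (θ 0) * Complex.I) = _
      rw [p.source, p.target]
      have h3 : (n : ℂ) = (θ 1 : ℂ) - θ 0 := by
        rw [← Complex.ofReal_sub, hn]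
        push_cast
        rfl
      rw [h3]
      ring
    exact WN_cancel (h1.symm.trans h2)

end LQ
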