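import Pool.Agent.H64.LQ.G2s
import Pool.Agent.H64.LQ.WN

/-!
# G2g: the loops of the two open sets

`σ(t) = (1 - t, i √(2 - (1-t)²))` from `y0` to `(0, √2 i)` in `UW` (`z^q/w² ≤ 0` real), `ρ(t) = (0, √2 i e^{2πit})`; `α = cls (σ · ρ · σ⁻¹)`. A loop `p` at `y0` contained in `UW`, with `n` = winding number of its
second coordinate (angle `θ` of `w ∘ p`, `θ 1 - θ 0 = n`) satisfies `cls p = α^n`: the deformation `h_s(z, w) = ((1-s) z, √(2 - (1-s)²|z|²) w/|w|)` of `UW` (well defined on the sphere, `w ≠ 0`;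
`z^q/w²` is multiplied by a factor in `[0, 1]`) moves `y0` along `σ`; so `p ≃ σ · h_1 ∘ p · σ⁻¹` in `UW`; `h_1 ∘ p = (0, √2 w/|w|)` is a loop in a circle with winding number `n`, homotopic to
the `n`-th power of `ρ` (straight-line homotopy of angles). In the same way `σ'(t) = (√(2 - (1-t)²), i (1-t))`, `ρ'(t) = (√2 e^{2πit}, 0)`, `β = cls (σ' · ρ' · σ'⁻¹)` and a loop
contained in `UZ` whose first coordinate has winding number `n` has class `β^n`. The representatives of `α`, `β` are themselves contained in `UW`, `UZ`, with winding numbers `1`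
(second, resp. first coordinate).
-/

open scoped ContDiff unitInterval
open Topology Set

namespace LQ

open LK

section G2gabs

variable {X : Type*} [TopologicalSpace X] {x0 : X}

/-- polar coordinates about the base point -/
structure G2g_Pol (x0 : X) where
  D : Set (ℂ × ℝ)
  P : D → X
  cont : Continuous P
  star : ∀ (a : ℂ) (θ s : ℝ), (a, θ) ∈ D → 0 ≤ s → s ≤ 1 → ((s : ℂ) * a, θ) ∈ D
  zero : ∀ θ : ℝ, ((0 : ℂ), θ) ∈ D
  per : ∀ (a : ℂ) (θ : ℝ) (n : ℤ), (a, θ) ∈ D → (a, θ + n) ∈ D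
  perP : ∀ (a : ℂ) (θ : ℝ) (n : ℤ) (h : (a, θ) ∈ D) (h' : (a, θ + n) ∈ D),
    P ⟨(a, θ + n), h'⟩ = P ⟨(a, θ), h⟩
  a0 : ℂ
  t0 : ℝ
  base : (a0, t0) ∈ D
  baseP : P ⟨(a0, t0), base⟩ = x0
  inj : ∀ (a : ℂ) (θ : ℝ) (h : (a, θ) ∈ D), P ⟨(a, θ), h⟩ = x0 → a = a0 ∧ ∃ k : ℤ, θ = t0 + k

/-- the time change -/
noncomputable def G2g_c (u : ℝ) : ℝ := max 0 (min 1 (2 * u - 1 / 2))

/-- the radius -/
noncomputable def G2g_tau (u : ℝ) : ℝ := max 0 (max (1 - 4 * u) (4 * u - 3))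

theorem G2g_c_cont : Continuous G2g_c := by
  unfold G2g_c
  fun_prop

theorem G2g_tau_cont : Continuous G2g_tau := by
  unfold G2g_tau
  fun_prop

theorem G2g_c_nonneg (u : ℝ) : 0 ≤ G2g_c u := le_max_left _ _

theorem G2g_c_le (u : ℝ) : G2g_c u ≤ 1 := max_le zero_le_one (min_le_left _ _)

theorem G2g_c0 : G2g_c 0 = 0 := by
  unfold G2g_c
  norm_num

theorem G2g_c1 : G2g_c 1 = 1 := by
  unfold G2g_c
  norm_num

theorem G2g_tau0 : G2g_tau 0 = 1 := by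
  unfold G2g_tau
  norm_num

theorem G2g_tau1 : G2g_tau 1 = 1 := by
  unfold G2g_tau
  norm_num

theorem G2g_tau_nonneg (u : ℝ) : 0 ≤ G2g_tau u := le_max_left _ _

theorem G2g_tau_le (u : I) : G2g_tau u ≤ 1 := by
  have h1 := u.2.1
  have h2 := u.2.2
  unfold G2g_tau
  refine max_le zero_le_one (max_le (by linarith) (by linarith))

theorem G2g_cases (u : ℝ) : G2g_tau u = 0 ∨ G2g_c u = 0 ∨ G2g_c u = 1 := by
  unfold G2g_tau G2g_c
  rcases le_or_gt u (1 / 4) with h | h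
  · right; left
    rw [max_eq_left]
    exact (min_le_right _ _).trans (by linarith)
  · rcases le_or_gt (3 / 4) u with h' | h'
    · right; right
      rw [min_eq_left (by linarith), max_eq_right zero_le_one]
    · left
      rw [max_eq_left]
      exact max_le (by linarith) (by linarith)

/-- homotopy in polar coordinates -/
theorem G2g_hom (Q : G2g_Pol x0) (p q : Path x0 x0) (F : I × I → ℂ × ℝ) (hF : Continuous F)
    (hD : ∀ v, F v ∈ Q.D) (h0 : ∀ u, p u = Q.P ⟨F (0, u), hD _⟩)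
    (h1 : ∀ u, q u = Q.P ⟨F (1, u), hD _⟩) (h2 : ∀ v, Q.P ⟨F (v, 0), hD _⟩ = x0)
    (h3 : ∀ v, Q.P ⟨F (v, 1), hD _⟩ = x0) : cls p = cls q := by
  apply FA_cls
  refine ⟨{ toFun := fun v => Q.P ⟨F v, hD v⟩,
            continuous_toFun := Q.cont.comp (hF.subtype_mk _), map_zero_left := ?_,
            map_one_left := ?_, prop' := ?_ }⟩
  · intro u
    exact (h0 u).symm
  · intro u
    exact (h1 u).symm
  · intro v u hu
    rcases hu with hu | hu
    · subst hu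
      refine (h2 v).trans ?_
      exact p.source.symm
    · have hu' : u = 1 := hu
      subst hu'
      refine (h3 v).trans ?_
      exact p.target.symm

theorem G2g_congr (Q : G2g_Pol x0) {v v' : ℂ × ℝ} (h : v = v') (h1 : v ∈ Q.D) (h2 : v' ∈ Q.D) :
    Q.P ⟨v, h1⟩ = Q.P ⟨v', h2⟩ := by
  subst h
  rfl

theorem G2g_ray (Q : G2g_Pol x0) (s : ℝ) (h0 : 0 ≤ s) (h1 : s ≤ 1) (k : ℤ) :
    ((s : ℂ) * Q.a0, Q.t0 + k) ∈ Q.D := Q.per _ _ _ (Q.star _ _ _ Q.base h0 h1)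

theorem G2g_memL (Q : G2g_Pol x0) (n : ℤ) (u : I) :
    (((G2g_tau u : ℝ) : ℂ) * Q.a0, Q.t0 + n * G2g_c u) ∈ Q.D := by
  rcases G2g_cases u with h | h | h
  · rw [h, Complex.ofReal_zero, zero_mul]
    exact Q.zero _
  · rw [h]
    have := G2g_ray Q (G2g_tau u) (G2g_tau_nonneg _) (G2g_tau_le u) 0
    simpa using this
  · rw [h]
    have := G2g_ray Q (G2g_tau u) (G2g_tau_nonneg _) (G2g_tau_le u) n
    simpa using this

/-- the standard loop -/
noncomputable def G2g_L (Q : G2g_Pol x0) (n : ℤ) : Path x0 x0 where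
  toFun u := Q.P ⟨(((G2g_tau u : ℝ) : ℂ) * Q.a0, Q.t0 + n * G2g_c u), G2g_memL Q n u⟩
  continuous_toFun := by
    refine Q.cont.comp (Continuous.subtype_mk ?_ _)
    have h1 := G2g_tau_cont
    have h2 := G2g_c_cont
    fun_prop
  source' := by
    have h : ((((G2g_tau (0 : I) : ℝ) : ℂ)) * Q.a0, Q.t0 + n * G2g_c (0 : I)) = (Q.a0, Q.t0) := by
      rw [Icc.coe_zero, G2g_tau0, G2g_c0]
      simp
    refine Eq.trans (G2g_congr Q h _ Q.base) Q.baseP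
  target' := by
    have h : ((((G2g_tau (1 : I) : ℝ) : ℂ)) * Q.a0, Q.t0 + n * G2g_c (1 : I)) =
        (Q.a0, Q.t0 + n) := by
      rw [Icc.coe_one, G2g_tau1, G2g_c1]
      simp
    refine Eq.trans (G2g_congr Q h _ (Q.per _ _ _ Q.base)) ?_
    rw [Q.perP _ _ _ Q.base]
    exact Q.baseP

theorem G2g_main (Q : G2g_Pol x0) (p : Path x0 x0) (a : C(I, ℂ)) (θ : C(I, ℝ)) (n : ℤ)
    (hD : ∀ u, (a u, θ u) ∈ Q.D) (hp : ∀ u, p u = Q.P ⟨(a u, θ u), hD u⟩)
    (hn : θ 1 - θ 0 = n) : cls p = cls (G2g_L Q n) := by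
  have ha0 := Q.inj _ _ (hD 0) (by rw [← hp, p.source])
  have ha1 := Q.inj _ _ (hD 1) (by rw [← hp, p.target])
  obtain ⟨ha0, k, hk⟩ := ha0
  obtain ⟨ha1, -⟩ := ha1
  have hθ1 : θ 1 = θ 0 + n := by linarith
  -- time change as a map into the interval
  let C : C(I, I) := ⟨fun u => ⟨G2g_c u, G2g_c_nonneg _, G2g_c_le _⟩,
    (G2g_c_cont.comp continuous_subtype_val).subtype_mk _⟩
  have hC0 : C 0 = 0 := Subtype.ext (by change G2g_c (0 : I) = 0; rw [Icc.coe_zero]; exact G2g_c0)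
  have hC1 : C 1 = 1 := Subtype.ext (by change G2g_c (1 : I) = 1; rw [Icc.coe_one]; exact G2g_c1)
  have hCc : ∀ u, ((C u : I) : ℝ) = G2g_c u := fun _ => rfl
  -- the intermediate loop
  have hkey : ∀ u : I, (((G2g_tau u : ℝ) : ℂ) * a (C u), θ (C u)) =
      (((G2g_tau u : ℝ) : ℂ) * Q.a0, θ (C u)) := by
    intro u
    rcases G2g_cases u with h | h | h
    · rw [h, Complex.ofReal_zero, zero_mul, zero_mul]
    · have : C u = 0 := Subtype.ext h
      rw [this, ha0]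
    · have : C u = 1 := Subtype.ext h
      rw [this, ha1]
  have hDC : ∀ u : I, (((G2g_tau u : ℝ) : ℂ) * a (C u), θ (C u)) ∈ Q.D := fun u =>
    Q.star _ _ _ (hD _) (G2g_tau_nonneg _) (G2g_tau_le u)
  have hDC' : ∀ u : I, (((G2g_tau u : ℝ) : ℂ) * Q.a0, θ (C u)) ∈ Q.D := fun u => by
    rw [← hkey]
    exact hDC u
  have hst : ∀ h : (((G2g_tau (0 : I) : ℝ) : ℂ) * a (C 0), θ (C 0)) ∈ Q.D,
      Q.P ⟨_, h⟩ = x0 := by
    intro h
    have e : (((G2g_tau (0 : I) : ℝ) : ℂ) * a (C 0), θ (C 0)) = (a 0, θ 0) := by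
      rw [hC0, Icc.coe_zero, G2g_tau0]
      simp
    rw [G2g_congr Q e h (hD 0), ← hp, p.source]
  have htt : ∀ h : (((G2g_tau (1 : I) : ℝ) : ℂ) * a (C 1), θ (C 1)) ∈ Q.D,
      Q.P ⟨_, h⟩ = x0 := by
    intro h
    have e : (((G2g_tau (1 : I) : ℝ) : ℂ) * a (C 1), θ (C 1)) = (a 1, θ 1) := by
      rw [hC1, Icc.coe_one, G2g_tau1]
      simp
    rw [G2g_congr Q e h (hD 1), ← hp, p.target]
  let m : Path x0 x0 :=
    { toFun := fun u => Q.P ⟨_, hDC u⟩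
      continuous_toFun := by
        refine Q.cont.comp (Continuous.subtype_mk ?_ _)
        have h1 := G2g_tau_cont
        fun_prop
      source' := hst _
      target' := htt _ }
  have e1 : cls p = cls m := by
    let S : I × I → I := fun v => ⟨(1 - (v.1 : ℝ)) * v.2 + v.1 * C v.2, by
      have h1 := v.1.2.1
      have h2 := v.1.2.2
      have h3 := v.2.2.1
      have h4 := v.2.2.2
      have h5 := (C v.2).2.1
      have h6 := (C v.2).2.2
      constructor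
      · have : 0 ≤ 1 - (v.1 : ℝ) := by linarith
        positivity
      · nlinarith⟩
    have hS : Continuous S := by
      refine Continuous.subtype_mk ?_ _
      fun_prop
    have hS0 : ∀ u, S (0, u) = u := fun u => Subtype.ext (by
      change (1 - ((0 : I) : ℝ)) * u + ((0 : I) : ℝ) * C u = u
      simp)
    have hS1 : ∀ u, S (1, u) = C u := fun u => Subtype.ext (by
      change (1 - ((1 : I) : ℝ)) * u + ((1 : I) : ℝ) * C u = C u
      simp)
    have hS2 : ∀ v, S (v, 0) = 0 := fun v => Subtype.ext (by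
      change (1 - (v : ℝ)) * ((0 : I) : ℝ) + (v : ℝ) * C 0 = ((0 : I) : ℝ)
      rw [hC0]
      simp)
    have hS3 : ∀ v, S (v, 1) = 1 := fun v => Subtype.ext (by
      change (1 - (v : ℝ)) * ((1 : I) : ℝ) + (v : ℝ) * C 1 = ((1 : I) : ℝ)
      rw [hC1]
      simp)
    refine G2g_hom Q p m (fun v => (((1 - (v.1 : ℝ) + v.1 * G2g_tau v.2 : ℝ) : ℂ) * a (S v), θ (S v)))
      ?_ ?_ ?_ ?_ ?_ ?_
    · have h1 := G2g_tau_cont
      fun_prop
    · intro v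
      have h1 := v.1.2.1
      have h2 := v.1.2.2
      have h3 := G2g_tau_nonneg v.2
      have h4 := G2g_tau_le v.2
      refine Q.star _ _ _ (hD _) ?_ ?_
      · have : 0 ≤ 1 - (v.1 : ℝ) := by linarith
        positivity
      · nlinarith
    · intro u
      rw [hp]
      apply G2g_congr
      simp only [hS0, Icc.coe_zero, sub_zero, zero_mul, add_zero, Complex.ofReal_one, one_mul]
    · intro u
      change Q.P ⟨_, hDC u⟩ = _
      apply G2g_congr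
      simp only [hS1, Icc.coe_one, sub_self, one_mul, zero_add]
    · intro v
      refine Eq.trans (G2g_congr Q ?_ _ (hD 0)) ((hp 0).symm.trans p.source)
      simp only [hS2, Icc.coe_zero, G2g_tau0]
      simp
    · intro v
      refine Eq.trans (G2g_congr Q ?_ _ (hD 1)) ((hp 1).symm.trans p.target)
      simp only [hS3, Icc.coe_one, G2g_tau1]
      simp
  have e2 : cls m = cls (G2g_L Q n) := by
    have hmem : ∀ (v u : I), (((G2g_tau u : ℝ) : ℂ) * Q.a0,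
        (1 - (v : ℝ)) * θ (C u) + v * (θ 0 + n * G2g_c u)) ∈ Q.D := by
      intro v u
      rcases G2g_cases u with h | h | h
      · rw [h, Complex.ofReal_zero, zero_mul]
        exact Q.zero _
      · have h5 : C u = 0 := Subtype.ext h
        have h6 := G2g_ray Q (G2g_tau u) (G2g_tau_nonneg _) (G2g_tau_le u) k
        have h7 : (1 - (v : ℝ)) * θ (C u) + v * (θ 0 + n * G2g_c u) = Q.t0 + k := by
          rw [h5, h, hk]
          ring
        rw [h7]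
        exact h6
      · have h5 : C u = 1 := Subtype.ext h
        have h6 := G2g_ray Q (G2g_tau u) (G2g_tau_nonneg _) (G2g_tau_le u) (k + n)
        have h7 : (1 - (v : ℝ)) * θ (C u) + v * (θ 0 + n * G2g_c u) = Q.t0 + ((k + n : ℤ) : ℝ) := by
          rw [h5, h, hθ1, hk]
          push_cast
          ring
        rw [h7]
        exact h6
    refine G2g_hom Q m _ (fun v => (((G2g_tau v.2 : ℝ) : ℂ) * Q.a0,
        (1 - (v.1 : ℝ)) * θ (C v.2) + v.1 * (θ 0 + n * G2g_c v.2))) ?_ (fun v => hmem v.1 v.2)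
      ?_ ?_ ?_ ?_
    · have h1 := G2g_tau_cont
      have h2 := G2g_c_cont
      fun_prop
    · intro u
      change Q.P ⟨_, hDC u⟩ = _
      apply G2g_congr
      rw [hkey]
      simp
    · intro u
      change Q.P ⟨_, G2g_memL Q n u⟩ = _
      rw [← Q.perP _ _ k (G2g_memL Q n u) (Q.per _ _ _ (G2g_memL Q n u))]
      apply G2g_congr
      simp only [Icc.coe_one, hk]
      refine Prod.ext rfl ?_
      simp only
      ring
    · intro v
      refine Eq.trans (G2g_congr Q ?_ _ (Q.per _ _ k Q.base)) ((Q.perP _ _ k Q.base _).trans Q.baseP)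
      simp only [hC0, Icc.coe_zero, G2g_tau0, G2g_c0, hk]
      refine Prod.ext (by simp) ?_
      simp only
      ring
    · intro v
      refine Eq.trans (G2g_congr Q ?_ _ (Q.per _ _ (k + n) Q.base))
        ((Q.perP _ _ (k + n) Q.base _).trans Q.baseP)
      simp only [hC1, Icc.coe_one, G2g_tau1, G2g_c1, hθ1, hk]
      refine Prod.ext (by simp) ?_
      push_cast
      ring
  exact e1.trans e2

theorem G2g_step (Q : G2g_Pol x0) (n : ℤ) :
    cls (G2g_L Q (n + 1)) = cls (G2g_L Q 1) * cls (G2g_L Q n) := by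
  change _ = cls ((G2g_L Q n).trans (G2g_L Q 1))
  symm
  have hq1 : ∀ u : I, ((min (2 * (u : ℝ)) 1) ∈ I) := fun u =>
    ⟨le_min (by have := u.2.1; linarith) zero_le_one, min_le_right _ _⟩
  have hq2 : ∀ u : I, ((max (2 * (u : ℝ) - 1) 0) ∈ I) := fun u =>
    ⟨le_max_right _ _, max_le (by have := u.2.2; linarith) zero_le_one⟩
  have h1c := G2g_tau_cont
  have h2c := G2g_c_cont
  have hkey : ∀ u : I, (((G2g_tau (min (2 * (u : ℝ)) 1) * G2g_tau (max (2 * (u : ℝ) - 1) 0) : ℝ) : ℂ)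
      * Q.a0, Q.t0 + n * G2g_c (min (2 * (u : ℝ)) 1) + G2g_c (max (2 * (u : ℝ) - 1) 0)) =
      if (u : ℝ) ≤ 1 / 2 then
        (((G2g_tau (min (2 * (u : ℝ)) 1) : ℝ) : ℂ) * Q.a0,
          Q.t0 + n * G2g_c (min (2 * (u : ℝ)) 1))
      else (((G2g_tau (max (2 * (u : ℝ) - 1) 0) : ℝ) : ℂ) * Q.a0,
          Q.t0 + (1 : ℤ) * G2g_c (max (2 * (u : ℝ) - 1) 0) + n) := by
    intro u
    split_ifs with h
    · have e : max (2 * (u : ℝ) - 1) 0 = 0 := max_eq_right (by linarith)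
      rw [e, G2g_tau0, G2g_c0]
      simp
    · have e : min (2 * (u : ℝ)) 1 = 1 := min_eq_right (by linarith)
      rw [e, G2g_tau1, G2g_c1]
      refine Prod.ext (by simp) ?_
      push_cast
      ring
  have hmem : ∀ u : I, (((G2g_tau (min (2 * (u : ℝ)) 1) * G2g_tau (max (2 * (u : ℝ) - 1) 0) : ℝ) : ℂ)
      * Q.a0, Q.t0 + n * G2g_c (min (2 * (u : ℝ)) 1) + G2g_c (max (2 * (u : ℝ) - 1) 0)) ∈ Q.D := by
    intro u
    rw [hkey]
    split_ifs with h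
    · exact G2g_memL Q n ⟨_, hq1 u⟩
    · exact Q.per _ _ _ (G2g_memL Q 1 ⟨_, hq2 u⟩)
  refine G2g_main Q _
    ⟨fun u => ((G2g_tau (min (2 * (u : ℝ)) 1) * G2g_tau (max (2 * (u : ℝ) - 1) 0) : ℝ) : ℂ) * Q.a0,
      by fun_prop⟩
    ⟨fun u => Q.t0 + n * G2g_c (min (2 * (u : ℝ)) 1) + G2g_c (max (2 * (u : ℝ) - 1) 0),
      by fun_prop⟩ (n + 1) hmem ?_ ?_
  · intro u
    rw [Path.trans_apply]
    split_ifs with h
    · change Q.P ⟨_, G2g_memL Q n _⟩ = _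
      apply G2g_congr
      refine Eq.trans ?_ (hkey u).symm
      rw [if_pos h, min_eq_left (by linarith)]
    · change Q.P ⟨_, G2g_memL Q 1 _⟩ = _
      have h6 := G2g_memL Q 1 ⟨_, hq2 u⟩
      have h5 : max (2 * (u : ℝ) - 1) 0 = 2 * u - 1 := max_eq_left (by linarith)
      refine Eq.trans ?_ ((Q.perP _ _ n h6 (Q.per _ _ n h6)).symm.trans ?_)
      · apply G2g_congr
        simp only [h5]
      · apply G2g_congr
        refine Eq.trans ?_ (hkey u).symm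
        rw [if_neg h]
  · simp only [ContinuousMap.coe_mk, Icc.coe_one, Icc.coe_zero]
    norm_num [G2g_c0, G2g_c1]
    ring

theorem G2g_pow (Q : G2g_Pol x0) (n : ℤ) : cls (G2g_L Q n) = cls (G2g_L Q 1) ^ n := by
  have h0 : cls (G2g_L Q 0) = 1 := by
    have h := G2g_main Q (Path.refl x0) ⟨fun _ => Q.a0, continuous_const⟩
      ⟨fun _ => Q.t0, continuous_const⟩ 0 (fun _ => Q.base) (fun _ => Q.baseP.symm) (by simp)
    rw [← h]
    rfl
  induction n using Int.induction_on with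
  | zero => rw [h0, zpow_zero]
  | succ i ih => rw [G2g_step, ih, add_comm, zpow_add, zpow_one]
  | pred i ih =>
    have h := G2g_step Q (-i - 1)
    rw [sub_add_cancel, ih] at h
    rw [sub_eq_neg_add, zpow_add, h, zpow_neg_one, inv_mul_cancel_left]
    rw [add_comm]
    congr 1

end G2gabs

/-- the polar factor -/
noncomputable def G2g_pc (a : ℂ) (θ : ℝ) : ℂ :=
  ((Real.sqrt (2 - ‖a‖ ^ 2) : ℝ) : ℂ) * Complex.exp (2 * Real.pi * θ * Complex.I)

theorem G2g_pc_cont : Continuous fun v : ℂ × ℝ => G2g_pc v.1 v.2 := by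
  unfold G2g_pc
  fun_prop

theorem G2g_pc_norm (a : ℂ) (θ : ℝ) : ‖G2g_pc a θ‖ = Real.sqrt (2 - ‖a‖ ^ 2) := by
  unfold G2g_pc
  have h2 : (2 * Real.pi * θ * Complex.I) = ((2 * Real.pi * θ : ℝ) : ℂ) * Complex.I := by
    push_cast
    ring
  rw [norm_mul, h2, Complex.norm_exp_ofReal_mul_I, mul_one, Complex.norm_real,
    Real.norm_of_nonneg (Real.sqrt_nonneg _)]

theorem G2g_pc_ne {a : ℂ} (h : ‖a‖ ^ 2 < 2) (θ : ℝ) : G2g_pc a θ ≠ 0 := by
  rw [← norm_ne_zero_iff, G2g_pc_norm]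
  exact (Real.sqrt_pos.2 (by linarith)).ne'

theorem G2g_pc_sq {a : ℂ} (h : ‖a‖ ^ 2 < 2) (θ : ℝ) : ‖G2g_pc a θ‖ ^ 2 = 2 - ‖a‖ ^ 2 := by
  rw [G2g_pc_norm, Real.sq_sqrt (by linarith)]

theorem G2g_pc_per (a : ℂ) (θ : ℝ) (n : ℤ) : G2g_pc a (θ + n) = G2g_pc a θ := by
  unfold G2g_pc
  have h : Complex.exp (2 * Real.pi * ((θ + n : ℝ) : ℂ) * Complex.I) =
      Complex.exp (2 * Real.pi * θ * Complex.I) := by
    rw [Complex.exp_eq_exp_iff_exists_int]
    exact ⟨n, by push_cast; ring⟩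
  rw [h]

/-- the polar domain -/
def G2g_D (m n : ℕ) : Set (ℂ × ℝ) :=
  {v | ‖v.1‖ ^ 2 < 2 ∧ ∀ r : ℝ, 1 ≤ r → v.1 ^ m ≠ r * G2g_pc v.1 v.2 ^ n}

theorem G2g_star {m n : ℕ} (hm : m ≠ 0) (a : ℂ) (θ s : ℝ) (h : (a, θ) ∈ G2g_D m n) (h0 : 0 ≤ s)
    (h1 : s ≤ 1) : ((s : ℂ) * a, θ) ∈ G2g_D m n := by
  obtain ⟨h2, h3⟩ := h
  have h2' : ‖a‖ ^ 2 < 2 := h2
  have hn : ‖(s : ℂ) * a‖ ^ 2 = s ^ 2 * ‖a‖ ^ 2 := by
    rw [norm_mul, Complex.norm_real, Real.norm_of_nonneg h0, mul_pow]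
  have hs2 : s ^ 2 ≤ 1 := pow_le_one₀ h0 h1
  have h4 : ‖(s : ℂ) * a‖ ^ 2 < 2 := by
    rw [hn]
    nlinarith [sq_nonneg ‖a‖]
  refine ⟨h4, ?_⟩
  intro r hr heq
  have heq' : ((s : ℂ) * a) ^ m = r * G2g_pc ((s : ℂ) * a) θ ^ n := heq
  have hne := G2g_pc_ne h4 θ
  rcases h0.eq_or_lt with h5 | h5
  · rw [← h5] at heq' hne
    rw [Complex.ofReal_zero, zero_mul, zero_pow hm] at heq'
    rw [Complex.ofReal_zero, zero_mul] at hne
    have h6 : (r : ℂ) ≠ 0 := by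
      rw [Ne, Complex.ofReal_eq_zero]
      linarith
    exact (mul_ne_zero h6 (pow_ne_zero _ hne)) heq'.symm
  · -- compare
    set A := Real.sqrt (2 - ‖a‖ ^ 2) with hA
    set B := Real.sqrt (2 - ‖(s : ℂ) * a‖ ^ 2) with hB
    have hA0 : 0 < A := Real.sqrt_pos.2 (by linarith)
    have hAB : A ≤ B := Real.sqrt_le_sqrt (by rw [hn]; nlinarith [sq_nonneg ‖a‖])
    have e1 : G2g_pc ((s : ℂ) * a) θ = ((B / A : ℝ) : ℂ) * G2g_pc a θ := by
      unfold G2g_pc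
      rw [← hA, ← hB, ← mul_assoc, ← Complex.ofReal_mul, div_mul_cancel₀ _ hA0.ne']
    have hsm : (0 : ℝ) < s ^ m := pow_pos h5 m
    have hsm1 : s ^ m ≤ 1 := pow_le_one₀ h0 h1
    have hBA : 1 ≤ B / A := (one_le_div hA0).2 hAB
    have hBAn : 1 ≤ (B / A) ^ n := one_le_pow₀ hBA
    refine h3 (r * (B / A) ^ n / s ^ m) ?_ ?_
    · rw [one_le_div hsm]
      have : 1 ≤ r * (B / A) ^ n := by nlinarith
      linarith
    · have hsm' : ((s : ℂ) ^ m) ≠ 0 := pow_ne_zero _ (by exact_mod_cast h5.ne')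
      have e2 : (s : ℂ) ^ m * a ^ m = r * ((B / A : ℝ) : ℂ) ^ n * G2g_pc a θ ^ n := by
        rw [← mul_pow, heq', e1, mul_pow]
        ring
      change a ^ m = _ * G2g_pc a θ ^ n
      rw [← mul_right_inj' hsm', e2]
      push_cast
      field_simp

theorem G2g_zero {m n : ℕ} (hm : m ≠ 0) (θ : ℝ) : ((0 : ℂ), θ) ∈ G2g_D m n := by
  have h4 : ‖(0 : ℂ)‖ ^ 2 < 2 := by simp
  refine ⟨h4, ?_⟩
  intro r hr heq
  have heq' : (0 : ℂ) ^ m = r * G2g_pc 0 θ ^ n := heq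
  rw [zero_pow hm] at heq'
  have h6 : (r : ℂ) ≠ 0 := by
    rw [Ne, Complex.ofReal_eq_zero]
    linarith
  exact (mul_ne_zero h6 (pow_ne_zero _ (G2g_pc_ne h4 θ))) heq'.symm

theorem G2g_per {m n : ℕ} (a : ℂ) (θ : ℝ) (k : ℤ) (h : (a, θ) ∈ G2g_D m n) :
    (a, θ + k) ∈ G2g_D m n := by
  refine ⟨h.1, ?_⟩
  have := h.2
  simp only [G2g_pc_per] at this ⊢
  exact this

theorem G2g_pc_inj {a : ℂ} (h : ‖a‖ ^ 2 < 2) {θ θ' : ℝ} (he : G2g_pc a θ = G2g_pc a θ') :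
    ∃ k : ℤ, θ = θ' + k := by
  unfold G2g_pc at he
  have h1 : ((Real.sqrt (2 - ‖a‖ ^ 2) : ℝ) : ℂ) ≠ 0 := by
    rw [Ne, Complex.ofReal_eq_zero]
    exact (Real.sqrt_pos.2 (by linarith)).ne'
  have h2 := mul_left_cancel₀ h1 he
  rw [Complex.exp_eq_exp_iff_exists_int] at h2
  obtain ⟨k, hk⟩ := h2
  refine ⟨k, ?_⟩
  have hpi : (2 * Real.pi * Complex.I : ℂ) ≠ 0 := Complex.two_pi_I_ne_zero
  have h3 : (2 * Real.pi * Complex.I : ℂ) * (θ : ℂ) = (2 * Real.pi * Complex.I) * ((θ' : ℂ) + k) := by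
    linear_combination hk
  have h4 := mul_left_cancel₀ hpi h3
  exact_mod_cast h4

theorem G2g_pc_1 : G2g_pc 1 (1 / 4) = Complex.I := by
  unfold G2g_pc
  have h : (2 * Real.pi * ((1 / 4 : ℝ) : ℂ) * Complex.I) = ((Real.pi / 2 : ℝ) : ℂ) * Complex.I := by
    push_cast
    ring
  rw [h]
  have : (2 : ℝ) - ‖(1 : ℂ)‖ ^ 2 = 1 := by
    rw [norm_one]
    norm_num
  rw [this, Real.sqrt_one]
  push_cast
  rw [Complex.exp_pi_div_two_mul_I, one_mul]

theorem G2g_pc_I : G2g_pc Complex.I 0 = 1 := by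
  unfold G2g_pc
  have : (2 : ℝ) - ‖Complex.I‖ ^ 2 = 1 := by
    rw [Complex.norm_I]
    norm_num
  rw [this, Real.sqrt_one]
  simp

theorem G2g_lt1 : ‖(1 : ℂ)‖ ^ 2 < 2 := by
  rw [norm_one]
  norm_num

theorem G2g_ltI : ‖Complex.I‖ ^ 2 < 2 := by
  rw [Complex.norm_I]
  norm_num

theorem G2g_baseW (q : ℕ) : ((1 : ℂ), (1 / 4 : ℝ)) ∈ G2g_D q 2 := by
  refine ⟨G2g_lt1, ?_⟩
  intro r hr heq
  have heq' : (1 : ℂ) ^ q = r * G2g_pc 1 (1 / 4) ^ 2 := heq
  rw [G2g_pc_1, one_pow, Complex.I_sq] at heq'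
  have h1 : (1 : ℝ) = -r := by
    have : ((1 : ℝ) : ℂ) = ((-r : ℝ) : ℂ) := by
      push_cast
      rw [heq']
      ring
    exact_mod_cast this
  linarith

theorem G2g_baseZ (q : ℕ) : (Complex.I, (0 : ℝ)) ∈ G2g_D 2 q := by
  refine ⟨G2g_ltI, ?_⟩
  intro r hr heq
  have heq' : Complex.I ^ 2 = r * G2g_pc Complex.I 0 ^ q := heq
  rw [G2g_pc_I, one_pow, Complex.I_sq] at heq'
  have h1 : (-1 : ℝ) = r := by
    have : ((-1 : ℝ) : ℂ) = (r : ℂ) := by
      push_cast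
      rw [heq']
      ring
    exact_mod_cast this
  linarith

/-- polar coordinates of `UW` -/
noncomputable def G2g_PW (q : ℕ) (hq : q ≠ 0) : G2g_Pol (y0 q) where
  D := G2g_D q 2
  P v := ⟨(v.1.1, G2g_pc v.1.1 v.1.2), by
    refine ⟨?_, ?_⟩
    · change ‖v.1.1‖ ^ 2 + ‖G2g_pc v.1.1 v.1.2‖ ^ 2 = 2
      rw [G2g_pc_sq v.2.1]
      ring
    · have h := v.2.2 1 le_rfl
      rw [Complex.ofReal_one, one_mul] at h
      exact h⟩
  cont := by
    refine Continuous.subtype_mk ?_ _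
    have h := G2g_pc_cont.comp (continuous_subtype_val (p := fun v : ℂ × ℝ => v ∈ G2g_D q 2))
    exact (continuous_fst.comp continuous_subtype_val).prodMk h
  star := G2g_star hq
  zero := G2g_zero hq
  per := G2g_per
  perP a θ n h h' := Subtype.ext (Prod.ext rfl (G2g_pc_per a θ n))
  a0 := 1
  t0 := 1 / 4
  base := G2g_baseW q
  baseP := Subtype.ext (Prod.ext rfl G2g_pc_1)
  inj a θ h he := by
    have h1 : a = 1 := congrArg (fun y : YS q => y.1.1) he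
    have h2 : G2g_pc a θ = Complex.I := congrArg (fun y : YS q => y.1.2) he
    subst h1
    refine ⟨rfl, ?_⟩
    rw [← G2g_pc_1] at h2
    exact G2g_pc_inj G2g_lt1 h2

/-- polar coordinates of `UZ` -/
noncomputable def G2g_PZ (q : ℕ) : G2g_Pol (y0 q) where
  D := G2g_D 2 q
  P v := ⟨(G2g_pc v.1.1 v.1.2, v.1.1), by
    refine ⟨?_, ?_⟩
    · change ‖G2g_pc v.1.1 v.1.2‖ ^ 2 + ‖v.1.1‖ ^ 2 = 2
      rw [G2g_pc_sq v.2.1]
      ring
    · have h := v.2.2 1 le_rfl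
      rw [Complex.ofReal_one, one_mul] at h
      exact fun e => h e.symm⟩
  cont := by
    refine Continuous.subtype_mk ?_ _
    have h := G2g_pc_cont.comp (continuous_subtype_val (p := fun v : ℂ × ℝ => v ∈ G2g_D 2 q))
    exact h.prodMk (continuous_fst.comp continuous_subtype_val)
  star := G2g_star two_ne_zero
  zero := G2g_zero two_ne_zero
  per := G2g_per
  perP a θ n h h' := Subtype.ext (Prod.ext (G2g_pc_per a θ n) rfl)
  a0 := Complex.I
  t0 := 0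
  base := G2g_baseZ q
  baseP := Subtype.ext (Prod.ext G2g_pc_I rfl)
  inj a θ h he := by
    have h1 : a = Complex.I := congrArg (fun y : YS q => y.1.2) he
    have h2 : G2g_pc a θ = 1 := congrArg (fun y : YS q => y.1.1) he
    subst h1
    refine ⟨rfl, ?_⟩
    rw [← G2g_pc_I] at h2
    exact G2g_pc_inj G2g_ltI h2

theorem G2g_angle (w : ℂ) (θ : ℝ) (h : ‖w‖ ^ 2 < 2) : G2g_pc w θ =
    (‖G2g_pc w θ‖ : ℂ) * Complex.exp (2 * Real.pi * θ * Complex.I) := by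
  rw [G2g_pc_norm]
  rfl

theorem G2g_polar {z w : ℂ} {θ : ℝ} (h : ‖z‖ ^ 2 + ‖w‖ ^ 2 = 2)
    (hw : w = (‖w‖ : ℂ) * Complex.exp (2 * Real.pi * θ * Complex.I)) : w = G2g_pc z θ := by
  unfold G2g_pc
  have h1 : Real.sqrt (2 - ‖z‖ ^ 2) = ‖w‖ := by
    rw [show 2 - ‖z‖ ^ 2 = ‖w‖ ^ 2 by linarith, Real.sqrt_sq (norm_nonneg _)]
  rw [h1]
  exact hw

theorem G2g (q : ℕ) (hq : Odd q) : ∃ (pα pβ : Path (y0 q) (y0 q)), range pα ⊆ UW q ∧
    range pβ ⊆ UZ q ∧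
    (∃ θ : C(I, ℝ), θ 1 - θ 0 = 1 ∧ ∀ u, (pα u).1.2 =
      (‖(pα u).1.2‖ : ℂ) * Complex.exp (2 * Real.pi * (θ u) * Complex.I)) ∧
    (∃ θ : C(I, ℝ), θ 1 - θ 0 = 1 ∧ ∀ u, (pβ u).1.1 =
      (‖(pβ u).1.1‖ : ℂ) * Complex.exp (2 * Real.pi * (θ u) * Complex.I)) ∧
    (∀ (p : Path (y0 q) (y0 q)) (θ : C(I, ℝ)) (n : ℤ), range p ⊆ UW q →
      (∀ u, (p u).1.2 = (‖(p u).1.2‖ : ℂ) * Complex.exp (2 * Real.pi * (θ u) * Complex.I)) →
      θ 1 - θ 0 = n → cls p = cls pα ^ n) ∧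
    (∀ (p : Path (y0 q) (y0 q)) (θ : C(I, ℝ)) (n : ℤ), range p ⊆ UZ q →
      (∀ u, (p u).1.1 = (‖(p u).1.1‖ : ℂ) * Complex.exp (2 * Real.pi * (θ u) * Complex.I)) →
      θ 1 - θ 0 = n → cls p = cls pβ ^ n) := by
  have hq0 : q ≠ 0 := by
    rintro rfl
    exact absurd hq (by decide)
  have h2c := G2g_c_cont
  refine ⟨G2g_L (G2g_PW q hq0) 1, G2g_L (G2g_PZ q) 1, ?_, ?_, ?_, ?_, ?_, ?_⟩
  · rintro _ ⟨u, rfl⟩
    have h := G2g_memL (G2g_PW q hq0) 1 u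
    exact ⟨G2g_pc_ne h.1 _, h.2⟩
  · rintro _ ⟨u, rfl⟩
    have h := G2g_memL (G2g_PZ q) 1 u
    exact ⟨G2g_pc_ne h.1 _, h.2⟩
  · refine ⟨⟨fun u => (G2g_PW q hq0).t0 + ((1 : ℤ) : ℝ) * G2g_c u, by fun_prop⟩, ?_, ?_⟩
    · simp only [ContinuousMap.coe_mk, Icc.coe_one, Icc.coe_zero, G2g_c0, G2g_c1]
      push_cast
      ring
    · intro u
      exact G2g_angle _ _ (G2g_memL (G2g_PW q hq0) 1 u).1
  · refine ⟨⟨fun u => (G2g_PZ q).t0 + ((1 : ℤ) : ℝ) * G2g_c u, by fun_prop⟩, ?_, ?_⟩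
    · simp only [ContinuousMap.coe_mk, Icc.coe_one, Icc.coe_zero, G2g_c0, G2g_c1]
      push_cast
      ring
    · intro u
      exact G2g_angle _ _ (G2g_memL (G2g_PZ q) 1 u).1
  · intro p θ n hp hθ hn
    rw [← G2g_pow]
    have hpol : ∀ u, (p u).1.2 = G2g_pc (p u).1.1 (θ u) := fun u =>
      G2g_polar (p u).2.1 (hθ u)
    have hlt : ∀ u, ‖(p u).1.1‖ ^ 2 < 2 := by
      intro u
      have h1 : ‖(p u).1.1‖ ^ 2 + ‖(p u).1.2‖ ^ 2 = 2 := (p u).2.1
      have h2 : (p u).1.2 ≠ 0 := (hp ⟨u, rfl⟩).1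
      have h3 : 0 < ‖(p u).1.2‖ ^ 2 := by positivity
      linarith
    have hD : ∀ u, ((p u).1.1, θ u) ∈ (G2g_PW q hq0).D := by
      intro u
      refine ⟨hlt u, ?_⟩
      intro r hr
      have h1 := (hp ⟨u, rfl⟩).2 r hr
      rw [hpol] at h1
      exact h1
    refine G2g_main (G2g_PW q hq0) p ⟨fun u => (p u).1.1,
      continuous_fst.comp (continuous_subtype_val.comp p.continuous)⟩ θ n hD ?_ hn
    intro u
    exact Subtype.ext (Prod.ext rfl (hpol u))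
  · intro p θ n hp hθ hn
    rw [← G2g_pow]
    have hpol : ∀ u, (p u).1.1 = G2g_pc (p u).1.2 (θ u) := fun u =>
      G2g_polar (by
        have h : ‖(p u).1.1‖ ^ 2 + ‖(p u).1.2‖ ^ 2 = 2 := (p u).2.1
        linarith) (hθ u)
    have hlt : ∀ u, ‖(p u).1.2‖ ^ 2 < 2 := by
      intro u
      have h1 : ‖(p u).1.1‖ ^ 2 + ‖(p u).1.2‖ ^ 2 = 2 := (p u).2.1
      have h2 : (p u).1.1 ≠ 0 := (hp ⟨u, rfl⟩).1
      have h3 : 0 < ‖(p u).1.1‖ ^ 2 := by positivity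
      linarith
    have hD : ∀ u, ((p u).1.2, θ u) ∈ (G2g_PZ q).D := by
      intro u
      refine ⟨hlt u, ?_⟩
      intro r hr
      have h1 := (hp ⟨u, rfl⟩).2 r hr
      rw [hpol] at h1
      exact h1
    refine G2g_main (G2g_PZ q) p ⟨fun u => (p u).1.2,
      continuous_snd.comp (continuous_subtype_val.comp p.continuous)⟩ θ n hD ?_ hn
    intro u
    exact Subtype.ext (Prod.ext (hpol u) rfl)

end LQ
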