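import Pool.Agent.H64.LQ.GDefs

/-!
# G2s: the two open sets of the sphere model

`UW = {w ≠ 0, z^q/w² ∉ [1, ∞)}`, `UZ = {z ≠ 0, w²/z^q ∉ [1, ∞)}`. Open: preimages of the open set `ℂ ∖ [1, ∞)` under maps continuous where the denominator is nonzero. They cover `YS q`: if `w = 0`
then `z ≠ 0` and `y ∈ UZ`; if `z = 0`, `y ∈ UW`; otherwise, if `y ∉ UW`, `z^q = r w²` with `r ≥ 1`, and if `y ∉ UZ`, `w² = r' z^q`, `r' ≥ 1`, so `r r' = 1`, `r = r' = 1`, `z^q = w²`, excluded.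
G2s_path (connectivity): every `y` is joined to `y0` by a path contained in each of `UW`, `UZ` which contains `y`.
For `v ≠ 0, 1`-type computations use the moves on the sphere: (i) change the moduli: `(z, w) ↦ (a z/|z|, √(2 - a²) w/|w|)`, `a` from `|z|` to `a1`: multiplies `w²/z^q` by a positive real; (ii) rotate.
Case `y ∈ UW ∩ UZ`: `z, w ≠ 0`, `v = w²/z^q ∉ [0, ∞)`: move (i) to `a = 1` (`v` stays off `[0,∞)`), then `v = e^{iχ}`, `0 < χ < 2π`, rotate `w` by `e^{i s (π - χ)/2}`: `v = e^{i(χ + s(π - χ))}` stays off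
`[0, ∞)`, and ends at `v = -1`: `|z| = |w| = 1`, `w² = -z^q`. Such points are `act q t (1, i)` for some `t` (`z = e^{iα}`, `w = ± i e^{iqα/2}`; `t = α/4π` or `α/4π + 1/2`, `q` odd); follow the orbit
`act q (s t) (1, i)`, contained in `UW ∩ UZ` (`v = -1`).
Case `y ∈ UW`, `y ∉ UZ`: path in `UW`: `(z, w) ↦ (s z, √(2 - s²|z|²) w/|w|)`, `s` from `1` to `0` (`z^q/w²` is multiplied by a factor in `[0, 1]`, stays off `[1, ∞)`), then rotate `(0, w)` to `(0, √2 i)`,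
then `(1 - s, i √(2 - (1-s)²))` back to `y0` (`z^q/w²` negative real or `0`). Case `y ∈ UZ`, `y ∉ UW`: symmetric.
-/

open scoped ContDiff unitInterval
open Topology Set

namespace LQ

open LK

private theorem G2s_ray : IsClosed {v : ℂ | ∃ r : ℝ, 1 ≤ r ∧ v = r} := by
  have h := Complex.isUniformEmbedding_ofReal.isClosedEmbedding.isClosedMap (Ici (1 : ℝ)) isClosed_Ici
  have e : {v : ℂ | ∃ r : ℝ, 1 ≤ r ∧ v = r} = (fun r : ℝ => (r : ℂ)) '' Ici 1 := by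
    ext v
    constructor
    · rintro ⟨r, hr, rfl⟩
      exact ⟨r, hr, rfl⟩
    · rintro ⟨r, hr, rfl⟩
      exact ⟨r, hr, rfl⟩
  rw [e]
  exact h

theorem G2s_open (q : ℕ) : IsOpen (UW q) ∧ IsOpen (UZ q) := by
  constructor
  · have hU : IsOpen {y : YS q | y.1.2 ≠ 0} :=
      isOpen_ne_fun (by fun_prop) continuous_const
    have hf : ContinuousOn (fun y : YS q => y.1.1 ^ q / y.1.2 ^ 2) {y : YS q | y.1.2 ≠ 0} := by
      refine ContinuousOn.div (by fun_prop) (by fun_prop) ?_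
      intro y hy
      exact pow_ne_zero 2 hy
    have h := hf.isOpen_inter_preimage hU G2s_ray.isOpen_compl
    convert h using 1
    ext y
    constructor
    · rintro ⟨h1, h2⟩
      refine ⟨h1, ?_⟩
      rintro ⟨r, hr, hv⟩
      exact h2 r hr ((div_eq_iff (pow_ne_zero 2 h1)).1 hv)
    · rintro ⟨h1, h2⟩
      refine ⟨h1, fun r hr hv => h2 ⟨r, hr, ?_⟩⟩
      exact (div_eq_iff (pow_ne_zero 2 h1)).2 hv
  · have hU : IsOpen {y : YS q | y.1.1 ≠ 0} :=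
      isOpen_ne_fun (by fun_prop) continuous_const
    have hf : ContinuousOn (fun y : YS q => y.1.2 ^ 2 / y.1.1 ^ q) {y : YS q | y.1.1 ≠ 0} := by
      refine ContinuousOn.div (by fun_prop) (by fun_prop) ?_
      intro y hy
      exact pow_ne_zero q hy
    have h := hf.isOpen_inter_preimage hU G2s_ray.isOpen_compl
    convert h using 1
    ext y
    constructor
    · rintro ⟨h1, h2⟩
      refine ⟨h1, ?_⟩
      rintro ⟨r, hr, hv⟩
      exact h2 r hr ((div_eq_iff (pow_ne_zero q h1)).1 hv)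
    · rintro ⟨h1, h2⟩
      refine ⟨h1, fun r hr hv => h2 ⟨r, hr, ?_⟩⟩
      exact (div_eq_iff (pow_ne_zero q h1)).2 hv

theorem G2s_cover (q : ℕ) : UW q ∪ UZ q = univ := by
  ext y
  refine ⟨fun _ => trivial, fun _ => ?_⟩
  have hS : ‖y.1.1‖ ^ 2 + ‖y.1.2‖ ^ 2 = 2 := y.2.1
  by_cases hw : y.1.2 = 0
  · right
    have hz : y.1.1 ≠ 0 := by
      intro h
      rw [h, hw] at hS
      norm_num at hS
    refine ⟨hz, fun r hr h => ?_⟩
    rw [hw, zero_pow two_ne_zero] at h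
    have h1 : (r : ℂ) ≠ 0 := by
      have : r ≠ 0 := by linarith
      exact_mod_cast this
    exact mul_ne_zero h1 (pow_ne_zero q hz) h.symm
  by_cases hz : y.1.1 = 0
  · left
    refine ⟨hw, fun r hr h => ?_⟩
    rw [hz, norm_zero] at hS
    have h1 : ‖(r : ℂ) * y.1.2 ^ 2‖ = r * 2 := by
      rw [norm_mul, norm_pow, Complex.norm_real, Real.norm_of_nonneg (by linarith)]
      have : ‖y.1.2‖ ^ 2 = 2 := by linarith
      rw [this]
    have h2 : ‖y.1.1 ^ q‖ ≤ 1 := by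
      rw [hz, norm_pow, norm_zero]
      exact pow_le_one₀ le_rfl zero_le_one
    rw [h, h1] at h2
    linarith
  by_contra hn
  have hn1 : y ∉ UW q := fun h => hn (Or.inl h)
  have hn2 : y ∉ UZ q := fun h => hn (Or.inr h)
  have h1 : ∃ r : ℝ, 1 ≤ r ∧ y.1.1 ^ q = r * y.1.2 ^ 2 := by
    by_contra h
    push Not at h
    exact hn1 ⟨hw, h⟩
  have h2 : ∃ r : ℝ, 1 ≤ r ∧ y.1.2 ^ 2 = r * y.1.1 ^ q := by
    by_contra h
    push Not at h
    exact hn2 ⟨hz, h⟩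
  obtain ⟨r, hr, h3⟩ := h1
  obtain ⟨r', hr', h4⟩ := h2
  have h5 : ((r' * r - 1 : ℝ) : ℂ) * y.1.2 ^ 2 = 0 := by
    rw [h3] at h4
    push_cast
    linear_combination -h4
  have h6 : (r' * r - 1 : ℝ) = 0 := by
    rcases mul_eq_zero.1 h5 with h | h
    · exact_mod_cast h
    · exact absurd h (pow_ne_zero 2 hw)
  have h7 : r = 1 := by nlinarith
  apply y.2.2
  rw [h3, h7]
  simp

theorem G2s_base (q : ℕ) : y0 q ∈ UW q ∧ y0 q ∈ UZ q := by
  constructor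
  · refine ⟨Complex.I_ne_zero, fun r hr h => ?_⟩
    change (1 : ℂ) ^ q = r * Complex.I ^ 2 at h
    rw [one_pow, Complex.I_sq] at h
    have h1 : (1 : ℝ) = r * (-1) := by exact_mod_cast h
    linarith
  · refine ⟨one_ne_zero, fun r hr h => ?_⟩
    change Complex.I ^ 2 = (r : ℂ) * (1 : ℂ) ^ q at h
    rw [one_pow, Complex.I_sq] at h
    have h1 : (-1 : ℝ) = r * 1 := by exact_mod_cast h
    linarith

/-- the ambient sets -/
private def G2s_W (q : ℕ) : Set (ℂ × ℂ) :=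
  {x | OnS x ∧ x.2 ≠ 0 ∧ ∀ r : ℝ, 1 ≤ r → x.1 ^ q ≠ r * x.2 ^ 2}

private def G2s_Z (q : ℕ) : Set (ℂ × ℂ) :=
  {x | OnS x ∧ x.1 ≠ 0 ∧ ∀ r : ℝ, 1 ≤ r → x.2 ^ 2 ≠ r * x.1 ^ q}

private theorem G2s_lift (q : ℕ) (S : Set (ℂ × ℂ)) (hS : IsPathConnected S)
    (h0 : ((1, Complex.I) : ℂ × ℂ) ∈ S) (y : YS q) (hy : y.1 ∈ S)
    (hsub : ∀ x ∈ S, OnS x ∧ x.1 ^ q ≠ x.2 ^ 2) :
    ∃ p : Path (y0 q) y, ∀ t, (p t).1 ∈ S := by
  have h := hS.joinedIn _ h0 _ hy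
  have hm := h.somePath_mem
  have hc : Continuous (fun t : I => (⟨h.somePath t, hsub _ (hm t)⟩ : YS q)) :=
    h.somePath.continuous.subtype_mk _
  exact ⟨⟨⟨fun t => ⟨h.somePath t, hsub _ (hm t)⟩, hc⟩, Subtype.ext h.somePath.source,
    Subtype.ext h.somePath.target⟩, hm⟩

private theorem G2s_exp (t : ℝ) : ‖Complex.exp (t * Complex.I)‖ = 1 :=
  Complex.norm_exp_ofReal_mul_I t

private theorem G2s_polar (z : ℂ) : ∃ α : ℝ, z = (‖z‖ : ℂ) * Complex.exp (α * Complex.I) :=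
  ⟨Complex.arg z, (Complex.norm_mul_exp_arg_mul_I z).symm⟩

/-- parametrisation of the intersection -/
private theorem G2s_WZ (q : ℕ) (hq : Odd q) : IsPathConnected (G2s_W q ∩ G2s_Z q) := by
  have h1 : IsPathConnected (Ioo (0 : ℝ) (Real.sqrt 2) ×ˢ
      {p : ℝ × ℝ | 0 < 2 * p.2 - q * p.1 ∧ 2 * p.2 - q * p.1 < 2 * Real.pi} :
        Set (ℝ × ℝ × ℝ)) := by
    refine Convex.isPathConnected ?_ ⟨(1, 0, Real.pi / 2), ?_⟩
    · refine (convex_Ioo _ _).prod ?_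
      have hl : IsLinearMap ℝ (fun p : ℝ × ℝ => 2 * p.2 - q * p.1) := by
        constructor
        · intro x y
          simp only [Prod.fst_add, Prod.snd_add]
          ring
        · intro c x
          simp only [Prod.smul_fst, Prod.smul_snd, smul_eq_mul]
          ring
      exact (convex_halfSpace_gt hl 0).inter (convex_halfSpace_lt hl (2 * Real.pi))
    · refine ⟨⟨one_pos, ?_⟩, ?_⟩
      · show (1 : ℝ) < Real.sqrt 2
        rw [Real.lt_sqrt (by norm_num)]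
        norm_num
      · have := Real.pi_pos
        constructor
        · show 0 < 2 * (Real.pi / 2) - q * 0
          linarith
        · show 2 * (Real.pi / 2) - q * 0 < 2 * Real.pi
          linarith
  have h2 : Continuous (fun x : ℝ × ℝ × ℝ =>
      (((x.1 : ℂ) * Complex.exp (x.2.1 * Complex.I),
        (Real.sqrt (2 - x.1 ^ 2) : ℂ) * Complex.exp (x.2.2 * Complex.I)) : ℂ × ℂ)) := by
    fun_prop
  have h3 := h1.image h2
  convert h3 using 1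
  ext x
  constructor
  · rintro ⟨⟨hS, hw, hW⟩, -, hz, hZ⟩
    have hS' : ‖x.1‖ ^ 2 + ‖x.2‖ ^ 2 = 2 := hS
    have hz0 : 0 < ‖x.1‖ := norm_pos_iff.2 hz
    have hw0 : 0 < ‖x.2‖ := norm_pos_iff.2 hw
    obtain ⟨α, hα⟩ := G2s_polar x.1
    obtain ⟨β, hβ⟩ := G2s_polar x.2
    -- the angle
    obtain ⟨k, hk⟩ : ∃ k : ℤ, 0 < 2 * β - q * α - 2 * Real.pi * k ∧
        2 * β - q * α - 2 * Real.pi * k < 2 * Real.pi := by
      have hpi := Real.pi_pos
      set χ := 2 * β - q * α with hχ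
      set k : ℤ := ⌊χ / (2 * Real.pi)⌋ with hk
      have e1 : (k : ℝ) ≤ χ / (2 * Real.pi) := Int.floor_le _
      have e2 : χ / (2 * Real.pi) < k + 1 := Int.lt_floor_add_one _
      rw [le_div_iff₀ (by positivity)] at e1
      rw [div_lt_iff₀ (by positivity)] at e2
      refine ⟨k, ?_, by linarith⟩
      refine lt_of_le_of_ne (by linarith) ?_
      intro h0
      -- then the quotient is a positive real
      have e3 : x.2 ^ 2 = ((‖x.2‖ ^ 2 / ‖x.1‖ ^ q : ℝ) : ℂ) * x.1 ^ q := by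
        have hz1 : (‖x.1‖ : ℂ) ^ q ≠ 0 := pow_ne_zero q (by exact_mod_cast hz0.ne')
        have e4 : Complex.exp (β * Complex.I) ^ 2 = Complex.exp (α * Complex.I) ^ q := by
          rw [← Complex.exp_nat_mul, ← Complex.exp_nat_mul]
          have e5 : ((2 : ℕ) : ℂ) * (β * Complex.I) =
              (q : ℂ) * (α * Complex.I) + k * (2 * Real.pi * Complex.I) := by
            have e6 : 2 * β = q * α + k * (2 * Real.pi) := by linarith
            have e7 : (2 * β : ℂ) = q * α + k * (2 * Real.pi) := by exact_mod_cast e6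
            push_cast
            linear_combination e7 * Complex.I
          rw [e5, Complex.exp_add, Complex.exp_int_mul_two_pi_mul_I, mul_one]
        rw [hα, hβ]
        simp only [mul_pow, e4]
        rw [← hα, ← hβ]
        push_cast
        field_simp
      have e4 : 0 < ‖x.2‖ ^ 2 / ‖x.1‖ ^ q := by positivity
      rcases le_total 1 (‖x.2‖ ^ 2 / ‖x.1‖ ^ q) with h | h
      · exact hZ _ h e3
      · refine hW (‖x.2‖ ^ 2 / ‖x.1‖ ^ q)⁻¹ ((one_le_inv₀ e4).2 h) ?_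
        rw [e3]
        have e5 : ((‖x.2‖ ^ 2 / ‖x.1‖ ^ q : ℝ) : ℂ) ≠ 0 := by exact_mod_cast e4.ne'
        rw [← mul_assoc, ← Complex.ofReal_mul, inv_mul_cancel₀ e4.ne', Complex.ofReal_one, one_mul]
    obtain ⟨m, hm⟩ := hq
    refine ⟨(‖x.1‖, α + 2 * Real.pi * k, β + 2 * Real.pi * (k * m)), ⟨⟨hz0, ?_⟩, ?_⟩, ?_⟩
    · rw [Real.lt_sqrt hz0.le]
      nlinarith
    · have e1 : (q : ℝ) = 2 * m + 1 := by exact_mod_cast hm
      have e2 : 2 * (β + 2 * Real.pi * (k * m)) - q * (α + 2 * Real.pi * k) =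
          2 * β - q * α - 2 * Real.pi * k := by
        rw [e1]
        ring
      show 0 < 2 * (β + 2 * Real.pi * (k * m)) - q * (α + 2 * Real.pi * k) ∧
        2 * (β + 2 * Real.pi * (k * m)) - q * (α + 2 * Real.pi * k) < 2 * Real.pi
      rw [e2]
      exact hk
    · have e1 : Real.sqrt (2 - ‖x.1‖ ^ 2) = ‖x.2‖ := by
        rw [show 2 - ‖x.1‖ ^ 2 = ‖x.2‖ ^ 2 by linarith]
        exact Real.sqrt_sq hw0.le
      refine Prod.ext ?_ ?_
      · show (‖x.1‖ : ℂ) * Complex.exp (((α + 2 * Real.pi * k : ℝ) : ℂ) * Complex.I) = x.1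
        have e3 : ((α + 2 * Real.pi * k : ℝ) : ℂ) * Complex.I =
            α * Complex.I + k * (2 * Real.pi * Complex.I) := by
          push_cast
          ring
        rw [e3, Complex.exp_add, Complex.exp_int_mul_two_pi_mul_I, mul_one, ← hα]
      · show (Real.sqrt (2 - ‖x.1‖ ^ 2) : ℂ) *
          Complex.exp (((β + 2 * Real.pi * (k * m) : ℝ) : ℂ) * Complex.I) = x.2
        have e3 : ((β + 2 * Real.pi * (k * m) : ℝ) : ℂ) * Complex.I =
            β * Complex.I + ((k * m : ℤ) : ℂ) * (2 * Real.pi * Complex.I) := by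
          push_cast
          ring
        rw [e1, e3, Complex.exp_add, Complex.exp_int_mul_two_pi_mul_I, mul_one, ← hβ]
  · rintro ⟨⟨a, α, β⟩, ⟨⟨ha0, ha2⟩, hχ0, hχ1⟩, rfl⟩
    change 0 < 2 * β - q * α at hχ0
    change 2 * β - q * α < 2 * Real.pi at hχ1
    change 0 < a at ha0
    have ha3 : a ^ 2 < 2 := by
      have := (Real.lt_sqrt ha0.le).1 ha2
      exact this
    have hb : 0 < Real.sqrt (2 - a ^ 2) := Real.sqrt_pos.2 (by linarith)
    have hS : OnS ((a : ℂ) * Complex.exp (α * Complex.I),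
        (Real.sqrt (2 - a ^ 2) : ℂ) * Complex.exp (β * Complex.I)) := by
      show ‖(a : ℂ) * Complex.exp (α * Complex.I)‖ ^ 2 +
        ‖(Real.sqrt (2 - a ^ 2) : ℂ) * Complex.exp (β * Complex.I)‖ ^ 2 = 2
      rw [norm_mul, norm_mul, G2s_exp, G2s_exp, mul_one, mul_one, Complex.norm_real,
        Complex.norm_real, Real.norm_of_nonneg ha0.le, Real.norm_of_nonneg hb.le,
        Real.sq_sqrt (by linarith)]
      ring
    have hz : (a : ℂ) * Complex.exp (α * Complex.I) ≠ 0 :=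
      mul_ne_zero (by exact_mod_cast ha0.ne') (Complex.exp_ne_zero _)
    have hw : (Real.sqrt (2 - a ^ 2) : ℂ) * Complex.exp (β * Complex.I) ≠ 0 :=
      mul_ne_zero (by exact_mod_cast hb.ne') (Complex.exp_ne_zero _)
    have key : ∀ r : ℝ, 0 < r →
        ((Real.sqrt (2 - a ^ 2) : ℂ) * Complex.exp (β * Complex.I)) ^ 2 ≠
          r * ((a : ℂ) * Complex.exp (α * Complex.I)) ^ q := by
      intro r hr h
      rw [mul_pow, mul_pow, ← Complex.exp_nat_mul, ← Complex.exp_nat_mul] at h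
      have h4 : ‖(Real.sqrt (2 - a ^ 2) : ℂ) ^ 2 * Complex.exp (((2 : ℕ) : ℂ) * (β * Complex.I))‖ =
          Real.sqrt (2 - a ^ 2) ^ 2 := by
        rw [show ((2 : ℕ) : ℂ) * (β * Complex.I) = ((2 * β : ℝ) : ℂ) * Complex.I by
          push_cast; ring, norm_mul, G2s_exp, mul_one, norm_pow, Complex.norm_real,
          Real.norm_of_nonneg hb.le]
      have h5 : ‖(r : ℂ) * ((a : ℂ) ^ q * Complex.exp ((q : ℂ) * (α * Complex.I)))‖ = r * a ^ q := by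
        rw [show (q : ℂ) * (α * Complex.I) = ((q * α : ℝ) : ℂ) * Complex.I by
          push_cast; ring, norm_mul, norm_mul, G2s_exp, mul_one, norm_pow, Complex.norm_real,
          Complex.norm_real, Real.norm_of_nonneg hr.le, Real.norm_of_nonneg ha0.le]
      have h6 : Real.sqrt (2 - a ^ 2) ^ 2 = r * a ^ q := by
        rw [← h4, ← h5, h]
      have h7 : ((Real.sqrt (2 - a ^ 2) ^ 2 : ℝ) : ℂ) = r * (a : ℂ) ^ q := by
        rw [h6]
        push_cast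
        ring
      have h8 : ((Real.sqrt (2 - a ^ 2) ^ 2 : ℝ) : ℂ) ≠ 0 := by
        exact_mod_cast (pow_pos hb 2).ne'
      have h9 : Complex.exp (((2 : ℕ) : ℂ) * (β * Complex.I)) =
          Complex.exp ((q : ℂ) * (α * Complex.I)) := by
        refine mul_left_cancel₀ h8 ?_
        have h10 : ((Real.sqrt (2 - a ^ 2) ^ 2 : ℝ) : ℂ) *
            Complex.exp (((2 : ℕ) : ℂ) * (β * Complex.I)) =
            (r * (a : ℂ) ^ q) * Complex.exp ((q : ℂ) * (α * Complex.I)) := by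
          rw [mul_assoc, ← h, Complex.ofReal_pow]
        rw [h10, h7]
      rw [Complex.exp_eq_exp_iff_exists_int] at h9
      obtain ⟨n, hn⟩ := h9
      have h10 : ((2 * β - q * α : ℝ) : ℂ) = ((n * (2 * Real.pi) : ℝ) : ℂ) := by
        have h11 : ((2 * β - q * α : ℝ) : ℂ) * Complex.I =
            ((n * (2 * Real.pi) : ℝ) : ℂ) * Complex.I := by
          push_cast
          push_cast at hn
          linear_combination hn
        exact mul_right_cancel₀ Complex.I_ne_zero h11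
      have h11 : 2 * β - q * α = n * (2 * Real.pi) := by exact_mod_cast h10
      rw [h11] at hχ0 hχ1
      have hpi := Real.pi_pos
      have h12 : (0 : ℝ) < n := by
        by_contra hn
        rw [not_lt] at hn
        nlinarith
      have h13 : (n : ℝ) < 1 := by
        by_contra hn
        rw [not_lt] at hn
        nlinarith
      have h14 : 0 < n := by exact_mod_cast h12
      have h15 : n < 1 := by exact_mod_cast h13
      omega
    refine ⟨⟨hS, hw, fun r hr h => ?_⟩, hS, hz, fun r hr => key r (by linarith)⟩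
    have hr0 : 0 < r := by linarith
    refine key r⁻¹ (inv_pos.2 hr0) ?_
    change ((a : ℂ) * Complex.exp (α * Complex.I)) ^ q =
      r * ((Real.sqrt (2 - a ^ 2) : ℂ) * Complex.exp (β * Complex.I)) ^ 2 at h
    rw [h, ← mul_assoc, ← Complex.ofReal_mul, inv_mul_cancel₀ hr0.ne', Complex.ofReal_one, one_mul]

private theorem G2s_norm (z : ℂ) (t : ℝ) : ‖z * Complex.exp (t * Complex.I)‖ = ‖z‖ := by
  rw [norm_mul, G2s_exp, mul_one]

private theorem G2s_W_path (q : ℕ) (hq : q ≠ 0) : IsPathConnected (G2s_W q) := by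
  have h1 : IsPathConnected ({ζ : ℂ | ‖ζ‖ ^ 2 < 2 ∧
      ∀ r : ℝ, 1 ≤ r → ζ ^ q ≠ ((r * (2 - ‖ζ‖ ^ 2) : ℝ) : ℂ)} ×ˢ (univ : Set ℝ)) := by
    refine StarConvex.isPathConnected (a := (0, 0)) ?_ ⟨⟨?_, ?_⟩, trivial⟩
    · rintro ⟨ζ, β⟩ ⟨⟨h2, h3⟩, -⟩ a s ha hs has
      refine ⟨?_, trivial⟩
      have e1 : (a • ((0, 0) : ℂ × ℝ) + s • (ζ, β)).1 = (s : ℂ) * ζ := by
        simp
      show ‖(a • ((0, 0) : ℂ × ℝ) + s • (ζ, β)).1‖ ^ 2 < 2 ∧ ∀ r : ℝ, 1 ≤ r →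
        (a • ((0, 0) : ℂ × ℝ) + s • (ζ, β)).1 ^ q ≠
          ((r * (2 - ‖(a • ((0, 0) : ℂ × ℝ) + s • (ζ, β)).1‖ ^ 2) : ℝ) : ℂ)
      rw [e1]
      have hs1 : s ≤ 1 := by linarith
      have e2 : ‖(s : ℂ) * ζ‖ = s * ‖ζ‖ := by
        rw [norm_mul, Complex.norm_real, Real.norm_of_nonneg hs]
      rw [e2]
      change ‖ζ‖ ^ 2 < 2 at h2
      have e3 : (s * ‖ζ‖) ^ 2 ≤ ‖ζ‖ ^ 2 := by
        rw [mul_pow]
        have : s ^ 2 ≤ 1 := pow_le_one₀ hs hs1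
        nlinarith [sq_nonneg ‖ζ‖]
      refine ⟨by linarith, fun r hr h => ?_⟩
      rcases hs.eq_or_lt with h0 | h0
      · rw [← h0] at h
        simp only [Complex.ofReal_zero, zero_mul, zero_pow hq] at h
        have h4 : (0 : ℝ) = r * (2 - 0 ^ 2) := by exact_mod_cast h
        nlinarith
      · have hsq : 0 < s ^ q := pow_pos h0 q
        have hsq1 : s ^ q ≤ 1 := pow_le_one₀ hs hs1
        refine h3 (r * (2 - (s * ‖ζ‖) ^ 2) / (s ^ q * (2 - ‖ζ‖ ^ 2))) ?_ ?_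
        · rw [le_div_iff₀ (mul_pos hsq (by linarith))]
          have e4 : s ^ q * (2 - ‖ζ‖ ^ 2) ≤ 2 - ‖ζ‖ ^ 2 :=
            mul_le_of_le_one_left (by linarith) hsq1
          have e5 : 2 - (s * ‖ζ‖) ^ 2 ≤ r * (2 - (s * ‖ζ‖) ^ 2) :=
            le_mul_of_one_le_left (by linarith) hr
          linarith
        · have h4 : (2 - ‖ζ‖ ^ 2 : ℝ) ≠ 0 := by linarith
          have e4 : r * (2 - (s * ‖ζ‖) ^ 2) / (s ^ q * (2 - ‖ζ‖ ^ 2)) * (2 - ‖ζ‖ ^ 2) =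
              r * (2 - (s * ‖ζ‖) ^ 2) * (s ^ q)⁻¹ := by
            field_simp
          show ζ ^ q = ((r * (2 - (s * ‖ζ‖) ^ 2) / (s ^ q * (2 - ‖ζ‖ ^ 2)) * (2 - ‖ζ‖ ^ 2) : ℝ) : ℂ)
          rw [e4, Complex.ofReal_mul, ← h, mul_pow]
          push_cast
          have h5 : (s : ℂ) ^ q ≠ 0 := by exact_mod_cast hsq.ne'
          field_simp
    · show ‖(0 : ℂ)‖ ^ 2 < 2
      rw [norm_zero]
      norm_num
    · intro r hr h
      simp only [norm_zero, zero_pow hq] at h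
      have h4 : (0 : ℝ) = r * (2 - 0 ^ 2) := by exact_mod_cast h
      nlinarith
  have h2 : Continuous (fun x : ℂ × ℝ =>
      ((x.1 * Complex.exp (((2 * x.2 / q : ℝ) : ℂ) * Complex.I),
        (Real.sqrt (2 - ‖x.1‖ ^ 2) : ℂ) * Complex.exp (x.2 * Complex.I)) : ℂ × ℂ)) := by
    fun_prop
  have hqr : (q : ℝ) ≠ 0 := by exact_mod_cast hq
  have hexp : ∀ β : ℝ, Complex.exp (((2 * β / q : ℝ) : ℂ) * Complex.I) ^ q =
      Complex.exp (β * Complex.I) ^ 2 := by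
    intro β
    rw [← Complex.exp_nat_mul, ← Complex.exp_nat_mul]
    congr 1
    have hqc : (q : ℂ) ≠ 0 := by exact_mod_cast hq
    push_cast
    field_simp
  have h3 := h1.image h2
  convert h3 using 1
  ext x
  constructor
  · rintro ⟨hS, hw, hW⟩
    have hS' : ‖x.1‖ ^ 2 + ‖x.2‖ ^ 2 = 2 := hS
    have hw0 : 0 < ‖x.2‖ := norm_pos_iff.2 hw
    obtain ⟨β, hβ⟩ := G2s_polar x.2
    have e0 : ‖x.1 * Complex.exp (((-(2 * β / q) : ℝ) : ℂ) * Complex.I)‖ = ‖x.1‖ := G2s_norm _ _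
    have e1 : 2 - ‖x.1‖ ^ 2 = ‖x.2‖ ^ 2 := by linarith
    have e2 : Complex.exp (((-(2 * β / q) : ℝ) : ℂ) * Complex.I) *
        Complex.exp (((2 * β / q : ℝ) : ℂ) * Complex.I) = 1 := by
      rw [← Complex.exp_add]
      have : ((-(2 * β / q) : ℝ) : ℂ) * Complex.I + ((2 * β / q : ℝ) : ℂ) * Complex.I = 0 := by
        push_cast
        ring
      rw [this, Complex.exp_zero]
    refine ⟨(x.1 * Complex.exp (((-(2 * β / q) : ℝ) : ℂ) * Complex.I), β), ⟨⟨?_, ?_⟩, trivial⟩, ?_⟩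
    · show ‖x.1 * Complex.exp (((-(2 * β / q) : ℝ) : ℂ) * Complex.I)‖ ^ 2 < 2
      rw [e0]
      have := pow_pos hw0 2
      linarith
    · intro r hr h
      change (x.1 * Complex.exp (((-(2 * β / q) : ℝ) : ℂ) * Complex.I)) ^ q = ((r * (2 -
        ‖x.1 * Complex.exp (((-(2 * β / q) : ℝ) : ℂ) * Complex.I)‖ ^ 2) : ℝ) : ℂ) at h
      rw [e0, e1] at h
      apply hW r hr
      have e3 : x.1 ^ q = (x.1 * Complex.exp (((-(2 * β / q) : ℝ) : ℂ) * Complex.I)) ^ q *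
          Complex.exp (((2 * β / q : ℝ) : ℂ) * Complex.I) ^ q := by
        rw [← mul_pow, mul_assoc, e2, mul_one]
      rw [e3, h, hexp]
      nth_rewrite 2 [hβ]
      push_cast
      ring
    · refine Prod.ext ?_ ?_
      · show x.1 * Complex.exp (((-(2 * β / q) : ℝ) : ℂ) * Complex.I) *
          Complex.exp (((2 * β / q : ℝ) : ℂ) * Complex.I) = x.1
        rw [mul_assoc, e2, mul_one]
      · show (Real.sqrt (2 - ‖x.1 * Complex.exp (((-(2 * β / q) : ℝ) : ℂ) * Complex.I)‖ ^ 2) : ℂ) *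
          Complex.exp (β * Complex.I) = x.2
        rw [e0, e1, Real.sqrt_sq hw0.le, ← hβ]
  · rintro ⟨⟨ζ, β⟩, ⟨⟨h4, h5⟩, -⟩, rfl⟩
    change ‖ζ‖ ^ 2 < 2 at h4
    have hb : 0 < Real.sqrt (2 - ‖ζ‖ ^ 2) := Real.sqrt_pos.2 (by linarith)
    refine ⟨?_, ?_, ?_⟩
    · show ‖ζ * Complex.exp (((2 * β / q : ℝ) : ℂ) * Complex.I)‖ ^ 2 +
        ‖(Real.sqrt (2 - ‖ζ‖ ^ 2) : ℂ) * Complex.exp (β * Complex.I)‖ ^ 2 = 2
      rw [G2s_norm, G2s_norm, Complex.norm_real, Real.norm_of_nonneg hb.le,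
        Real.sq_sqrt (by linarith)]
      ring
    · exact mul_ne_zero (by exact_mod_cast hb.ne') (Complex.exp_ne_zero _)
    · intro r hr h
      change (ζ * Complex.exp (((2 * β / q : ℝ) : ℂ) * Complex.I)) ^ q =
        r * ((Real.sqrt (2 - ‖ζ‖ ^ 2) : ℂ) * Complex.exp (β * Complex.I)) ^ 2 at h
      apply h5 r hr
      rw [mul_pow, hexp, mul_pow, ← mul_assoc] at h
      have h6 := mul_right_cancel₀ (pow_ne_zero 2 (Complex.exp_ne_zero _)) h
      show ζ ^ q = ((r * (2 - ‖ζ‖ ^ 2) : ℝ) : ℂ)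
      rw [h6, Complex.ofReal_mul, ← Complex.ofReal_pow, Real.sq_sqrt (by linarith)]

private theorem G2s_Z_path (q : ℕ) : IsPathConnected (G2s_Z q) := by
  have h1 : IsPathConnected ({ξ : ℂ | ‖ξ‖ ^ 2 < 2 ∧
      ∀ r : ℝ, 1 ≤ r → ξ ^ 2 ≠ ((r * Real.sqrt (2 - ‖ξ‖ ^ 2) ^ q : ℝ) : ℂ)} ×ˢ
        (univ : Set ℝ)) := by
    refine StarConvex.isPathConnected (a := (0, 0)) ?_ ⟨⟨?_, ?_⟩, trivial⟩
    · rintro ⟨ξ, β⟩ ⟨⟨h2, h3⟩, -⟩ a s ha hs has
      refine ⟨?_, trivial⟩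
      have e1 : (a • ((0, 0) : ℂ × ℝ) + s • (ξ, β)).1 = (s : ℂ) * ξ := by
        simp
      show ‖(a • ((0, 0) : ℂ × ℝ) + s • (ξ, β)).1‖ ^ 2 < 2 ∧ ∀ r : ℝ, 1 ≤ r →
        (a • ((0, 0) : ℂ × ℝ) + s • (ξ, β)).1 ^ 2 ≠
          ((r * Real.sqrt (2 - ‖(a • ((0, 0) : ℂ × ℝ) + s • (ξ, β)).1‖ ^ 2) ^ q : ℝ) : ℂ)
      rw [e1]
      have hs1 : s ≤ 1 := by linarith
      have e2 : ‖(s : ℂ) * ξ‖ = s * ‖ξ‖ := by
        rw [norm_mul, Complex.norm_real, Real.norm_of_nonneg hs]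
      rw [e2]
      change ‖ξ‖ ^ 2 < 2 at h2
      have e3 : (s * ‖ξ‖) ^ 2 ≤ ‖ξ‖ ^ 2 := by
        rw [mul_pow]
        have : s ^ 2 ≤ 1 := pow_le_one₀ hs hs1
        nlinarith [sq_nonneg ‖ξ‖]
      refine ⟨by linarith, fun r hr h => ?_⟩
      have hA : 0 < Real.sqrt (2 - ‖ξ‖ ^ 2) := Real.sqrt_pos.2 (by linarith)
      have hB : Real.sqrt (2 - ‖ξ‖ ^ 2) ≤ Real.sqrt (2 - (s * ‖ξ‖) ^ 2) :=
        Real.sqrt_le_sqrt (by linarith)
      have hAq := pow_pos hA q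
      have hBq : Real.sqrt (2 - ‖ξ‖ ^ 2) ^ q ≤ Real.sqrt (2 - (s * ‖ξ‖) ^ 2) ^ q :=
        pow_le_pow_left₀ hA.le hB q
      rcases hs.eq_or_lt with h0 | h0
      · rw [← h0] at h
        simp only [Complex.ofReal_zero, zero_mul, zero_pow two_ne_zero] at h
        have h4 : (0 : ℝ) = r * Real.sqrt (2 - 0) ^ q := by exact_mod_cast h
        have h5 : 0 < Real.sqrt (2 - 0) ^ q := pow_pos (Real.sqrt_pos.2 (by norm_num)) q
        nlinarith
      · have hsq : 0 < s ^ 2 := pow_pos h0 2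
        have hsq1 : s ^ 2 ≤ 1 := pow_le_one₀ hs hs1
        refine h3 (r * Real.sqrt (2 - (s * ‖ξ‖) ^ 2) ^ q /
          (s ^ 2 * Real.sqrt (2 - ‖ξ‖ ^ 2) ^ q)) ?_ ?_
        · rw [le_div_iff₀ (mul_pos hsq hAq)]
          have e4 : s ^ 2 * Real.sqrt (2 - ‖ξ‖ ^ 2) ^ q ≤ Real.sqrt (2 - ‖ξ‖ ^ 2) ^ q :=
            mul_le_of_le_one_left hAq.le hsq1
          have e5 : Real.sqrt (2 - (s * ‖ξ‖) ^ 2) ^ q ≤
              r * Real.sqrt (2 - (s * ‖ξ‖) ^ 2) ^ q :=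
            le_mul_of_one_le_left (hAq.le.trans hBq) hr
          linarith
        · have e4 : r * Real.sqrt (2 - (s * ‖ξ‖) ^ 2) ^ q /
              (s ^ 2 * Real.sqrt (2 - ‖ξ‖ ^ 2) ^ q) * Real.sqrt (2 - ‖ξ‖ ^ 2) ^ q =
              r * Real.sqrt (2 - (s * ‖ξ‖) ^ 2) ^ q * (s ^ 2)⁻¹ := by
            field_simp
          show ξ ^ 2 = ((r * Real.sqrt (2 - (s * ‖ξ‖) ^ 2) ^ q /
            (s ^ 2 * Real.sqrt (2 - ‖ξ‖ ^ 2) ^ q) * Real.sqrt (2 - ‖ξ‖ ^ 2) ^ q : ℝ) : ℂ)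
          rw [e4, Complex.ofReal_mul, ← h, mul_pow]
          push_cast
          have h5 : (s : ℂ) ≠ 0 := by exact_mod_cast h0.ne'
          field_simp
    · show ‖(0 : ℂ)‖ ^ 2 < 2
      rw [norm_zero]
      norm_num
    · intro r hr h
      simp only [norm_zero, zero_pow two_ne_zero] at h
      have h4 : (0 : ℝ) = r * Real.sqrt (2 - 0) ^ q := by exact_mod_cast h
      have h5 : 0 < Real.sqrt (2 - 0) ^ q := pow_pos (Real.sqrt_pos.2 (by norm_num)) q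
      nlinarith
  have h2 : Continuous (fun x : ℂ × ℝ =>
      (((Real.sqrt (2 - ‖x.1‖ ^ 2) : ℂ) * Complex.exp (x.2 * Complex.I),
        x.1 * Complex.exp (((q * x.2 / 2 : ℝ) : ℂ) * Complex.I)) : ℂ × ℂ)) := by
    fun_prop
  have hexp : ∀ β : ℝ, Complex.exp (((q * β / 2 : ℝ) : ℂ) * Complex.I) ^ 2 =
      Complex.exp (β * Complex.I) ^ q := by
    intro β
    rw [← Complex.exp_nat_mul, ← Complex.exp_nat_mul]
    congr 1
    push_cast
    field_simp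
  have h3 := h1.image h2
  convert h3 using 1
  ext x
  constructor
  · rintro ⟨hS, hw, hW⟩
    have hS' : ‖x.1‖ ^ 2 + ‖x.2‖ ^ 2 = 2 := hS
    have hw0 : 0 < ‖x.1‖ := norm_pos_iff.2 hw
    obtain ⟨β, hβ⟩ := G2s_polar x.1
    have e0 : ‖x.2 * Complex.exp (((-(q * β / 2) : ℝ) : ℂ) * Complex.I)‖ = ‖x.2‖ := G2s_norm _ _
    have e1 : 2 - ‖x.2‖ ^ 2 = ‖x.1‖ ^ 2 := by linarith
    have e2 : Complex.exp (((-(q * β / 2) : ℝ) : ℂ) * Complex.I) *
        Complex.exp (((q * β / 2 : ℝ) : ℂ) * Complex.I) = 1 := by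
      rw [← Complex.exp_add]
      have : ((-(q * β / 2) : ℝ) : ℂ) * Complex.I + ((q * β / 2 : ℝ) : ℂ) * Complex.I = 0 := by
        push_cast
        ring
      rw [this, Complex.exp_zero]
    refine ⟨(x.2 * Complex.exp (((-(q * β / 2) : ℝ) : ℂ) * Complex.I), β), ⟨⟨?_, ?_⟩, trivial⟩, ?_⟩
    · show ‖x.2 * Complex.exp (((-(q * β / 2) : ℝ) : ℂ) * Complex.I)‖ ^ 2 < 2
      rw [e0]
      have := pow_pos hw0 2
      linarith
    · intro r hr h
      change (x.2 * Complex.exp (((-(q * β / 2) : ℝ) : ℂ) * Complex.I)) ^ 2 = ((r * Real.sqrt (2 -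
        ‖x.2 * Complex.exp (((-(q * β / 2) : ℝ) : ℂ) * Complex.I)‖ ^ 2) ^ q : ℝ) : ℂ) at h
      rw [e0, e1, Real.sqrt_sq hw0.le] at h
      apply hW r hr
      have e3 : x.2 ^ 2 = (x.2 * Complex.exp (((-(q * β / 2) : ℝ) : ℂ) * Complex.I)) ^ 2 *
          Complex.exp (((q * β / 2 : ℝ) : ℂ) * Complex.I) ^ 2 := by
        rw [← mul_pow, mul_assoc, e2, mul_one]
      rw [e3, h, hexp]
      nth_rewrite 2 [hβ]
      push_cast
      ring
    · refine Prod.ext ?_ ?_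
      · show (Real.sqrt (2 - ‖x.2 * Complex.exp (((-(q * β / 2) : ℝ) : ℂ) * Complex.I)‖ ^ 2) : ℂ) *
          Complex.exp (β * Complex.I) = x.1
        rw [e0, e1, Real.sqrt_sq hw0.le, ← hβ]
      · show x.2 * Complex.exp (((-(q * β / 2) : ℝ) : ℂ) * Complex.I) *
          Complex.exp (((q * β / 2 : ℝ) : ℂ) * Complex.I) = x.2
        rw [mul_assoc, e2, mul_one]
  · rintro ⟨⟨ξ, β⟩, ⟨⟨h4, h5⟩, -⟩, rfl⟩
    change ‖ξ‖ ^ 2 < 2 at h4
    have hb : 0 < Real.sqrt (2 - ‖ξ‖ ^ 2) := Real.sqrt_pos.2 (by linarith)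
    refine ⟨?_, ?_, ?_⟩
    · show ‖(Real.sqrt (2 - ‖ξ‖ ^ 2) : ℂ) * Complex.exp (β * Complex.I)‖ ^ 2 +
        ‖ξ * Complex.exp (((q * β / 2 : ℝ) : ℂ) * Complex.I)‖ ^ 2 = 2
      rw [G2s_norm, G2s_norm, Complex.norm_real, Real.norm_of_nonneg hb.le,
        Real.sq_sqrt (by linarith)]
      ring
    · exact mul_ne_zero (by exact_mod_cast hb.ne') (Complex.exp_ne_zero _)
    · intro r hr h
      change (ξ * Complex.exp (((q * β / 2 : ℝ) : ℂ) * Complex.I)) ^ 2 =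
        r * ((Real.sqrt (2 - ‖ξ‖ ^ 2) : ℂ) * Complex.exp (β * Complex.I)) ^ q at h
      apply h5 r hr
      rw [mul_pow, hexp, mul_pow, ← mul_assoc] at h
      have h6 := mul_right_cancel₀ (pow_ne_zero q (Complex.exp_ne_zero _)) h
      show ξ ^ 2 = ((r * Real.sqrt (2 - ‖ξ‖ ^ 2) ^ q : ℝ) : ℂ)
      rw [h6, Complex.ofReal_mul, Complex.ofReal_pow]

theorem G2s_path (q : ℕ) (hq : Odd q) (y : YS q) : ∃ p : Path (y0 q) y,
    (y ∈ UW q → range p ⊆ UW q) ∧ (y ∈ UZ q → range p ⊆ UZ q) := by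
  have hq0 : q ≠ 0 := by
    rintro rfl
    exact absurd hq (by decide)
  have hW : ∀ x ∈ G2s_W q, OnS x ∧ x.1 ^ q ≠ x.2 ^ 2 := by
    rintro x ⟨h1, -, h2⟩
    refine ⟨h1, fun h => h2 1 le_rfl ?_⟩
    rw [h, Complex.ofReal_one, one_mul]
  have hZ : ∀ x ∈ G2s_Z q, OnS x ∧ x.1 ^ q ≠ x.2 ^ 2 := by
    rintro x ⟨h1, -, h2⟩
    refine ⟨h1, fun h => h2 1 le_rfl ?_⟩
    rw [h, Complex.ofReal_one, one_mul]
  have h0W : ((1, Complex.I) : ℂ × ℂ) ∈ G2s_W q := ⟨(y0 q).2.1, (G2s_base q).1⟩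
  have h0Z : ((1, Complex.I) : ℂ × ℂ) ∈ G2s_Z q := ⟨(y0 q).2.1, (G2s_base q).2⟩
  have hyW : y ∈ UW q → y.1 ∈ G2s_W q := fun h => ⟨y.2.1, h⟩
  have hyZ : y ∈ UZ q → y.1 ∈ G2s_Z q := fun h => ⟨y.2.1, h⟩
  by_cases h1 : y ∈ UW q
  · by_cases h2 : y ∈ UZ q
    · obtain ⟨p, hp⟩ := G2s_lift q (G2s_W q ∩ G2s_Z q) (G2s_WZ q hq) ⟨h0W, h0Z⟩ y
        ⟨hyW h1, hyZ h2⟩ fun x hx => hW x hx.1
      refine ⟨p, fun _ => ?_, fun _ => ?_⟩
      · rintro _ ⟨t, rfl⟩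
        exact (hp t).1.2
      · rintro _ ⟨t, rfl⟩
        exact (hp t).2.2
    · obtain ⟨p, hp⟩ := G2s_lift q (G2s_W q) (G2s_W_path q hq0) h0W y (hyW h1) hW
      refine ⟨p, fun _ => ?_, fun h => absurd h h2⟩
      rintro _ ⟨t, rfl⟩
      exact (hp t).2
  · have h2 : y ∈ UZ q := by
      have h : y ∈ UW q ∪ UZ q := G2s_cover q ▸ mem_univ y
      exact h.resolve_left h1
    obtain ⟨p, hp⟩ := G2s_lift q (G2s_Z q) (G2s_Z_path q) h0Z y (hyZ h2) hZ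
    refine ⟨p, fun h => absurd h h1, fun _ => ?_⟩
    rintro _ ⟨t, rfl⟩
    exact (hp t).2

end LQ
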