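import Pool.Agent.H64.LQ.Defs

/-!
# GDefs: the sphere model of the complement of the torus knot `T(2, q)` (definitions)
-/

open scoped ContDiff unitInterval
open Topology Set

namespace LQ

open LK

/-- The sphere `|z|² + |w|² = 2`. -/
def OnS (y : ℂ × ℂ) : Prop := ‖y.1‖ ^ 2 + ‖y.2‖ ^ 2 = 2

/-- The complement of the torus knot `z^q = w^2` in the sphere. -/
abbrev YS (q : ℕ) : Type := {y : ℂ × ℂ // OnS y ∧ y.1 ^ q ≠ y.2 ^ 2}

/-- Base point `(1, i)`. -/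
noncomputable def y0 (q : ℕ) : YS q :=
  ⟨(1, Complex.I), by
    constructor
    · simp only [OnS, norm_one, Complex.norm_I]; norm_num
    · simp only [one_pow, Complex.I_sq]; norm_num⟩

/-- The point `K(θ) = (e^{2iθ}, e^{iqθ})` of the torus knot. -/
noncomputable def KK (q : ℕ) (θ : ℝ) : ℂ × ℂ :=
  (Complex.exp (2 * θ * Complex.I), Complex.exp (q * θ * Complex.I))

/-- The circle action, `t ∈ ℝ/ℤ`. -/
noncomputable def act (q : ℕ) (t : ℝ) (y : ℂ × ℂ) : ℂ × ℂ :=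
  (Complex.exp (2 * (2 * Real.pi * t) * Complex.I) * y.1,
    Complex.exp (q * (2 * Real.pi * t) * Complex.I) * y.2)

/-- `N = √(4 + q²)`. -/
noncomputable def Nq (q : ℕ) : ℝ := Real.sqrt (4 + (q : ℝ) ^ 2)

/-- `m₀ = N / (2√2)`. -/
noncomputable def mq (q : ℕ) : ℝ := Nq q / (2 * Real.sqrt 2)

/-- Square of the euclidean norm. -/
noncomputable def nsq (x : V) : ℝ := x.1 ^ 2 + ‖x.2‖ ^ 2

/-- The inversion. -/
noncomputable def inv3 (x : V) : V := (nsq x)⁻¹ • x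

/-- Inverse stereographic projection centred at `P = (1, 1)` (from `-P`). -/
noncomputable def Em (q : ℕ) (x : V) : ℂ × ℂ :=
  ((((1 - nsq x + 2 * x.2.re : ℝ) : ℂ) +
      ((2 * Real.sqrt 2 / Nq q * (2 * x.1 - q * x.2.im) : ℝ) : ℂ) * Complex.I) / ((1 + nsq x : ℝ) : ℂ),
   (((1 - nsq x - 2 * x.2.re : ℝ) : ℂ) +
      ((2 * Real.sqrt 2 / Nq q * (q * x.1 + 2 * x.2.im) : ℝ) : ℂ) * Complex.I) / ((1 + nsq x : ℝ) : ℂ))

/-- Inverse stereographic projection centred at `-P` (from `P`). -/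
noncomputable def Ep (q : ℕ) (x : V) : ℂ × ℂ :=
  ((((nsq x - 1 + 2 * x.2.re : ℝ) : ℂ) +
      ((2 * Real.sqrt 2 / Nq q * (2 * x.1 - q * x.2.im) : ℝ) : ℂ) * Complex.I) / ((1 + nsq x : ℝ) : ℂ),
   (((nsq x - 1 - 2 * x.2.re : ℝ) : ℂ) +
      ((2 * Real.sqrt 2 / Nq q * (q * x.1 + 2 * x.2.im) : ℝ) : ℂ) * Complex.I) / ((1 + nsq x : ℝ) : ℂ))

/-- Stereographic projection from `-P`. -/
noncomputable def Emi (q : ℕ) (y : ℂ × ℂ) : V :=
  ((2 * y.1.im + q * y.2.im) / (Nq q * Real.sqrt 2 * (1 + (y.1.re + y.2.re) / 2)),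
    ⟨(y.1.re - y.2.re) / (2 * (1 + (y.1.re + y.2.re) / 2)),
      (-q * y.1.im + 2 * y.2.im) / (Nq q * Real.sqrt 2 * (1 + (y.1.re + y.2.re) / 2))⟩)

/-- The torus knot in the chart centred at `P`. -/
noncomputable def kk (q : ℕ) (θ : ℝ) : V := Emi q (KK q θ)

/-- The model of the complement: `c` is a long knot of the model and `H : V ≃ S ∖ {P}` carries it to the torus knot. -/
structure TorM (q : ℕ) (c : ℝ → V) (H : V → ℂ × ℂ) (Hi : ℂ × ℂ → V) : Prop where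
  knot : VKnot c
  contH : Continuous H
  contHi : ContinuousOn Hi {y | OnS y ∧ y ≠ (1, 1)}
  mem : ∀ x, OnS (H x) ∧ H x ≠ (1, 1)
  left : ∀ x, Hi (H x) = x
  right : ∀ y, OnS y → y ≠ (1, 1) → H (Hi y) = y
  iff : ∀ x, x ∈ range c ↔ (H x).1 ^ q = (H x).2 ^ 2
  far : ∀ ε : ℝ, 0 < ε → ∃ R : ℝ, ∀ x : V, R ≤ ‖x‖ → ‖H x - (1, 1)‖ < ε

/-- The open set `{w ≠ 0, z^q/w² ∉ [1, ∞)}`. -/
def UW (q : ℕ) : Set (YS q) := {y | y.1.2 ≠ 0 ∧ ∀ r : ℝ, 1 ≤ r → y.1.1 ^ q ≠ r * y.1.2 ^ 2}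

/-- The open set `{z ≠ 0, w²/z^q ∉ [1, ∞)}`. -/
def UZ (q : ℕ) : Set (YS q) := {y | y.1.1 ≠ 0 ∧ ∀ r : ℝ, 1 ≤ r → y.1.2 ^ 2 ≠ r * y.1.1 ^ q}

/-- The slice `z > 0` of the sphere. -/
noncomputable def Sl (ζ φ : ℝ) : ℂ × ℂ := ((ζ : ℂ), (Real.sqrt (2 - ζ ^ 2) : ℂ) * Complex.exp (φ * Complex.I))

/-- The orbit loop of `y0`. -/
def IsOrb (q : ℕ) (δ : Path (y0 q) (y0 q)) : Prop := ∀ t : I, (δ t).1 = act q t (1, Complex.I)

/-- First coordinate data of the meridian loop of the sphere model: around `(ζ, φ) = (1, 0)` in the slice, passing first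
through `ζ < 1`. -/
noncomputable def mz (t : ℝ) : ℝ := 1 - Real.sin (2 * Real.pi * t) / 4

noncomputable def mphi (t : ℝ) : ℝ := Real.pi / 2 * Real.cos (2 * Real.pi * t)

/-- The meridian loop at `y0`. -/
def IsM (q : ℕ) (m : Path (y0 q) (y0 q)) : Prop := ∀ t : I, (m t).1 = Sl (mz t) (mphi t)

end LQ
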