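import Pool.Agent.H64.LQ.MEd

/-!
# ME1: connectivity of the cover

Every `y ∈ MV (gS D)` is joined to `xM hS` by a path contained in all the `OO D i ∋ y`.
(a) `1/4 < ‖y.2‖`: all the `OO D i` contain `W = {1/4 < ‖x.2‖}`, which is path connected (rotate the second coordinate, then straight) and disjoint from the curve (MG_snd).
(b) `‖y.2‖ ≤ 1/4` and `|y.1 - pos i| ≥ 1/32` for all `i`: then `y.2 ≠ 0` (MG_axis'); move radially `(y.1, λ y.2)`, `λ ≥ 1`, until the norm is `> 1/4`: the first coordinate is constant, so the path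
stays in every `OO D i ∋ y` (those with `y.1 ∈ SS i`), and it avoids the curve (MG_axis: the curve is on the axis there); then (a).
(c) `|y.1 - pos i| < 1/32` for some `i`: then `y.1` is in `SS i` only, so exactly the set `OO D i` contains `y` (if `‖y.2‖ ≤ 1/4`). Let `y' = Afi (pos i) y`, not on `c_i` (ME2_av), `|y'.1| < 1`,
`‖y'.2‖ ≤ 1`. General position: the map `(t, r) ↦ y' + r • (c_i t - y')` from `ℝ × ℝ` to `V` is `C^1` and `finrank (ℝ × ℝ) = 2 < 3`, so the complement of its range is dense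
(`ContDiff.dense_compl_range_of_finrank_lt_finrank`); choose `w` in it with `|w.1| < 1`, `1 < ‖w.2‖ < 2` (a nonempty open condition). The segment from `y'` to `w` does not meet `c_i`: if
`c_i t = y' + λ (w - y')` then `λ ≠ 0` (`y'` is not on the curve) and `w = y' + λ⁻¹ (c_i t - y')`, contradiction. Its image by `Aff (pos i)` has first coordinate within `1/32` of `pos i`, hence
is contained in `OO D i` and avoids the sum (MG_mem: a point of the sum with first coordinate near `pos i` is `Aff (pos i) (c_i u)`); its end point has `‖·.2‖ > 1/4`; then (a).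
-/

open scoped ContDiff unitInterval
open Topology Set

namespace LQ

open LK

/-- the outside of the thin tube is path connected -/
private theorem ME1_W : IsPathConnected {x : V | 1 / 4 < ‖x.2‖} := by
  have h1 : IsPathConnected (univ ×ˢ (Ioi (1 / 4 : ℝ) ×ˢ univ) : Set (ℝ × ℝ × ℝ)) := by
    refine Convex.isPathConnected ?_ ⟨(0, 1, 0), ?_⟩
    · exact convex_univ.prod ((convex_Ioi _).prod convex_univ)
    · refine ⟨trivial, ?_, trivial⟩
      show (1 / 4 : ℝ) < 1
      norm_num
  have h2 : Continuous (fun q : ℝ × ℝ × ℝ =>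
      ((q.1, (q.2.1 : ℂ) * Complex.exp (q.2.2 * Complex.I)) : V)) := by
    fun_prop
  have h3 := h1.image h2
  convert h3 using 1
  ext x
  simp only [mem_ofPred_eq, mem_image, mem_prod, mem_univ, mem_Ioi, true_and, and_true,
    Prod.exists]
  constructor
  · intro hx
    refine ⟨x.1, ‖x.2‖, Complex.arg x.2, hx, ?_⟩
    rw [Complex.norm_mul_exp_arg_mul_I]
  · rintro ⟨s, r, θ, hr, rfl⟩
    show 1 / 4 < ‖(r : ℂ) * Complex.exp (θ * Complex.I)‖
    rw [norm_mul, Complex.norm_exp_ofReal_mul_I, mul_one, Complex.norm_real]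
    exact hr.trans_le (le_abs_self r)

private theorem ME1_xb : xb ∈ {x : V | 1 / 4 < ‖x.2‖} := by
  show 1 / 4 < ‖(3 / 2 : ℂ)‖
  have h2 : ‖(3 / 2 : ℂ)‖ = 3 / 2 := by
    rw [show (3 / 2 : ℂ) = ((3 / 2 : ℝ) : ℂ) by push_cast; ring, Complex.norm_real]
    norm_num
  rw [h2]
  norm_num

/-- the intervals of radius `1/32` -/
private theorem ME1_SS {i : Fin 3} {s : ℝ} (h : |s - pos i| ≤ 1 / 32) :
    s ∈ SS i ∧ ∀ j, s ∈ SS j → j = i := by
  rw [abs_le] at h
  fin_cases i
  · simp only [pos, Fin.zero_eta, Matrix.cons_val_zero] at h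
    refine ⟨?_, ?_⟩
    · show s < -1 / 16
      linarith
    · intro j hj
      fin_cases j
      · rfl
      · exfalso
        have h1 : |s| < 3 / 16 := hj
        rw [abs_lt] at h1
        linarith
      · exfalso
        have h1 : 1 / 16 < s := hj
        linarith
  · simp only [pos, Fin.mk_one, Matrix.cons_val_one, Matrix.cons_val_zero] at h
    refine ⟨?_, ?_⟩
    · show |s| < 3 / 16
      rw [abs_lt]
      constructor <;> linarith
    · intro j hj
      fin_cases j
      · exfalso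
        have h1 : s < -1 / 16 := hj
        linarith
      · rfl
      · exfalso
        have h1 : 1 / 16 < s := hj
        linarith
  · simp only [pos, Fin.reduceFinMk, Matrix.cons_val] at h
    refine ⟨?_, ?_⟩
    · show 1 / 16 < s
      linarith
    · intro j hj
      fin_cases j
      · exfalso
        have h1 : s < -1 / 16 := hj
        linarith
      · exfalso
        have h1 : |s| < 3 / 16 := hj
        rw [abs_lt] at h1
        linarith
      · rfl

/-- general position -/
private theorem ME1_gp {c : ℝ → V} (hc : VKnot c) {y : V} (hy : y ∉ range c) :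
    ∃ w : V, |w.1| < 1 ∧ 1 < ‖w.2‖ ∧ ∀ lam ∈ Icc (0 : ℝ) 1, y + lam • (w - y) ∉ range c := by
  have h1 : ContDiff ℝ 1 (fun q : ℝ × ℝ => y + q.2 • (c q.1 - y)) := by
    have h2 : ContDiff ℝ 1 c := hc.smooth.of_le (by exact_mod_cast le_top)
    exact contDiff_const.add (contDiff_snd.smul ((h2.comp contDiff_fst).sub contDiff_const))
  have hd := h1.dense_compl_range_of_finrank_lt_finrank (by
    simp only [Module.finrank_prod, Module.finrank_self, Complex.finrank_real_complex]
    norm_num)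
  have hO : IsOpen {w : V | |w.1| < 1 ∧ 1 < ‖w.2‖} :=
    (isOpen_lt (f := fun w : V => |w.1|) (g := fun _ => (1 : ℝ)) (by fun_prop)
      continuous_const).inter
      (isOpen_lt (f := fun _ : V => (1 : ℝ)) (g := fun w : V => ‖w.2‖) continuous_const
        (by fun_prop))
  obtain ⟨w, hw, hw'⟩ := hd.inter_open_nonempty _ hO ⟨((0 : ℝ), (2 : ℂ)), by
    show |(0 : ℝ)| < 1 ∧ 1 < ‖(2 : ℂ)‖
    rw [abs_zero]
    norm_num⟩
  refine ⟨w, hw.1, hw.2, ?_⟩
  rintro lam - ⟨t, ht⟩
  by_cases h0 : lam = 0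
  · rw [h0, zero_smul, add_zero] at ht
    exact hy ⟨t, ht⟩
  · apply hw'
    refine ⟨(t, lam⁻¹), ?_⟩
    show y + lam⁻¹ • (c t - y) = w
    rw [ht, add_sub_cancel_left, smul_smul, inv_mul_cancel₀ h0, one_smul, add_sub_cancel]

private theorem ME1_join (D : Tri) (y : V) (hy : y ∉ range (gS D)) :
    JoinedIn {x : V | x ∉ range (gS D) ∧ ∀ i, (y.1 ∈ SS i ∨ 1 / 4 < ‖y.2‖) →
      (x.1 ∈ SS i ∨ 1 / 4 < ‖x.2‖)} xb y := by
  obtain ⟨B, hB⟩ : ∃ B : Set V, B = {x : V | x ∉ range (gS D) ∧
      ∀ i, (y.1 ∈ SS i ∨ 1 / 4 < ‖y.2‖) → (x.1 ∈ SS i ∨ 1 / 4 < ‖x.2‖)} := ⟨_, rfl⟩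
  rw [← hB]
  have hWB : {x : V | 1 / 4 < ‖x.2‖} ⊆ B := by
    intro x hx
    rw [hB]
    refine ⟨?_, fun i _ => Or.inr hx⟩
    rintro ⟨t, ht⟩
    have h1 := MG_snd D t
    rw [ht] at h1
    exact absurd hx (not_lt.2 h1)
  have hW : ∀ z : V, 1 / 4 < ‖z.2‖ → JoinedIn B xb z := fun z hz =>
    (ME1_W.joinedIn xb ME1_xb z hz).mono hWB
  by_cases h1 : 1 / 4 < ‖y.2‖
  · exact hW y h1
  by_cases h2 : ∃ i, |y.1 - pos i| ≤ 1 / 32
  · -- near a summand
    obtain ⟨i, hi⟩ := h2
    obtain ⟨hi1, hi2⟩ := ME1_SS hi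
    have hav := ME2_av D i ⟨y, hy⟩ (Or.inl hi1)
    obtain ⟨w, hw1, hw2, hw⟩ := ME1_gp (D.hc i) hav
    obtain ⟨y', hy'⟩ : ∃ y' : V, y' = Afi (pos i) y := ⟨_, rfl⟩
    have hy'1 : |y'.1| ≤ 1 := by
      rw [hy']
      show |32 * (y.1 - pos i)| ≤ 1
      rw [abs_mul, abs_of_pos (by norm_num : (0 : ℝ) < 32)]
      linarith
    have hw' : ∀ lam ∈ Icc (0 : ℝ) 1, y' + lam • (w - y') ∉ range (D.c i) := by
      rw [hy']
      exact hw
    have hseg : ∀ lam ∈ Icc (0 : ℝ) 1, Aff (pos i) (y' + lam • (w - y')) ∈ B := by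
      intro lam hl
      have e1 : |(y' + lam • (w - y')).1| ≤ 1 := by
        have e2 : (y' + lam • (w - y')).1 = (1 - lam) * y'.1 + lam * w.1 := by
          simp only [Prod.fst_add, Prod.smul_fst, Prod.fst_sub, smul_eq_mul]
          ring
        rw [e2]
        calc |(1 - lam) * y'.1 + lam * w.1| ≤ |(1 - lam) * y'.1| + |lam * w.1| := abs_add_le _ _
          _ = (1 - lam) * |y'.1| + lam * |w.1| := by
              rw [abs_mul, abs_mul, abs_of_nonneg hl.1, abs_of_nonneg (sub_nonneg.2 hl.2)]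
          _ ≤ (1 - lam) * 1 + lam * 1 :=
              add_le_add (mul_le_mul_of_nonneg_left hy'1 (sub_nonneg.2 hl.2))
                (mul_le_mul_of_nonneg_left hw1.le hl.1)
          _ = 1 := by ring
      have e3 : |(Aff (pos i) (y' + lam • (w - y'))).1 - pos i| ≤ 1 / 32 := by
        show |(y' + lam • (w - y')).1 / 32 + pos i - pos i| ≤ 1 / 32
        rw [add_sub_cancel_right, abs_div, abs_of_pos (by norm_num : (0 : ℝ) < 32)]
        linarith
      rw [hB]
      refine ⟨?_, ?_⟩
      · intro hr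
        obtain ⟨u, -, hu⟩ := MG_mem D i _ hr (e3.trans (by norm_num))
        have e4 := congrArg (Afi (pos i)) hu
        rw [(ME0_inv _ _).1, (ME0_inv _ _).1] at e4
        exact hw' lam hl ⟨u, e4.symm⟩
      · intro j hj
        rcases hj with hj | hj
        · have := hi2 j hj
          rw [this]
          exact Or.inl (ME1_SS e3).1
        · exact absurd hj h1
    have hjoin : JoinedIn B y (Aff (pos i) w) := by
      refine JoinedIn.ofLine (f := fun lam => Aff (pos i) (y' + lam • (w - y'))) ?_ ?_ ?_ ?_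
      · exact ((continuous_Aff (pos i)).comp (by fun_prop)).continuousOn
      · show Aff (pos i) (y' + (0 : ℝ) • (w - y')) = y
        rw [zero_smul, add_zero, hy', (ME0_inv _ _).2]
      · show Aff (pos i) (y' + (1 : ℝ) • (w - y')) = Aff (pos i) w
        rw [one_smul, add_sub_cancel]
      · rintro x ⟨lam, hl, rfl⟩
        exact hseg lam hl
    have hz : 1 / 4 < ‖(Aff (pos i) w).2‖ := by
      show 1 / 4 < ‖w.2 / 4‖
      rw [norm_div]
      norm_num
      linarith
    exact (hW _ hz).trans hjoin.symm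
  · -- away from the summands
    push Not at h2
    have hy2 : y.2 ≠ 0 := by
      intro h0
      apply hy
      have : y = (y.1, 0) := Prod.ext rfl h0
      rw [this]
      exact MG_axis' D y.1 fun i => (h2 i).le
    have hn : 0 < ‖y.2‖ := norm_pos_iff.2 hy2
    have hn4 : ‖y.2‖ ≤ 1 / 4 := not_lt.1 h1
    obtain ⟨μ, hμ⟩ : ∃ μ : ℝ, μ = 1 / ‖y.2‖ := ⟨_, rfl⟩
    have hμ1 : 1 ≤ μ := by
      rw [hμ, le_div_iff₀ hn]
      linarith
    have hseg : ∀ lam ∈ Icc (0 : ℝ) 1, ((y.1, (1 + lam * (μ - 1)) • y.2) : V) ∈ B := by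
      intro lam hl
      have e1 : 1 ≤ 1 + lam * (μ - 1) := by
        have := mul_nonneg hl.1 (sub_nonneg.2 hμ1)
        linarith
      rw [hB]
      refine ⟨?_, ?_⟩
      · intro hr
        obtain ⟨i, hi⟩ := MG_axis D _ hr (by
          show (1 + lam * (μ - 1)) • y.2 ≠ 0
          exact smul_ne_zero (by linarith) hy2)
        exact absurd hi (not_le.2 (h2 i))
      · intro j hj
        rcases hj with hj | hj
        · exact Or.inl hj
        · exact absurd hj h1
    have hjoin : JoinedIn B y (y.1, μ • y.2) := by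
      refine JoinedIn.ofLine (f := fun lam : ℝ => ((y.1, (1 + lam * (μ - 1)) • y.2) : V)) ?_ ?_ ?_ ?_
      · exact Continuous.continuousOn (by fun_prop)
      · show ((y.1, (1 + (0 : ℝ) * (μ - 1)) • y.2) : V) = y
        rw [zero_mul, add_zero, one_smul]
      · show ((y.1, (1 + (1 : ℝ) * (μ - 1)) • y.2) : V) = (y.1, μ • y.2)
        rw [one_mul, add_sub_cancel]
      · rintro x ⟨lam, hl, rfl⟩
        exact hseg lam hl
    have hz : 1 / 4 < ‖((y.1, μ • y.2) : V).2‖ := by
      show 1 / 4 < ‖μ • y.2‖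
      rw [norm_smul, Real.norm_of_nonneg (by linarith), hμ, one_div_mul_cancel hn.ne']
      norm_num
    exact (hW _ hz).trans hjoin.symm

theorem ME1 (D : Tri) (hS : VKnot (gS D)) (y : MV (gS D)) :
    ∃ p : Path (xM hS) y, ∀ i, y ∈ OO D i → range p ⊆ OO D i := by
  have h := ME1_join D y.1 y.2
  have hm := h.somePath_mem
  have hc : Continuous (fun t : I => (⟨h.somePath t, (hm t).1⟩ : MV (gS D))) :=
    h.somePath.continuous.subtype_mk _
  refine ⟨⟨⟨fun t => ⟨h.somePath t, (hm t).1⟩, hc⟩, ?_, ?_⟩, ?_⟩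
  · exact Subtype.ext (h.somePath.source)
  · exact Subtype.ext (h.somePath.target)
  · rintro i hi x ⟨t, rfl⟩
    exact (hm t).2 i hi

end LQ
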