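import Pool.Agent.H64.LQ.MB
import Pool.Agent.H64.LQ.FA

/-!
# MEd: the open sets of the Seifert-van Kampen cover of the sum (definitions)

`M = MV (gS D)`; open sets `OO D i = {x | x.1.1 ∈ SS i ∨ 1/4 < ‖x.1.2‖}`, `SS 0 = {s < -1/16}`, `SS 1 = {|s| < 3/16}`, `SS 2 = {1/16 < s}`.
`Afi a` is the inverse of `Aff a`. ME2_av: if `Afi (pos i) x = c_i u` with `x ∈ OO D i`: if `1/4 < ‖x.2‖`, then `‖(c_i u).2‖ > 1`, impossible; otherwise `x.1 ∈ SS i`; if `|u| ≤ 4`, `x` is on the
curve (MG_mem'); if `|u| > 4`, `c_i u = (u, 0)` and `x = (u/32 + pos i, 0)` has first coordinate in `SS i` and at distance `> 1/8` from `pos i`: it is at distance `≥ 1/32` from all the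
`pos j` (for `i = 0`: `s < -3/8` or `-1/8 < s < -1/16`; for `i = 1`: `1/8 < |s| < 3/16`; `i = 2` symmetric), hence on the curve by MG_axis'.
-/

open scoped ContDiff unitInterval
open Topology Set

namespace LQ

open LK

noncomputable def SS : Fin 3 → Set ℝ := ![{s | s < -1 / 16}, {s | |s| < 3 / 16}, {s | 1 / 16 < s}]

/-- The open sets. -/
def OO (D : Tri) (i : Fin 3) : Set (MV (gS D)) := {x | x.1.1 ∈ SS i ∨ 1 / 4 < ‖x.1.2‖}

/-- The inverse of `Aff a`. -/
noncomputable def Afi (a : ℝ) (x : V) : V := (32 * (x.1 - a), 4 * x.2)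

theorem continuous_Afi (a : ℝ) : Continuous (Afi a) := by
  unfold Afi
  fun_prop

/-- The loop `r` of the sum carried to the complement of a summand. -/
noncomputable def sgi (a : ℝ) (r : Path xb xb) : Path xb xb :=
  (lineP xb (Afi a xb)).trans ((r.map (continuous_Afi a)).trans (lineP xb (Afi a xb)).symm)

theorem ME0_inv (a : ℝ) (x : V) : Afi a (Aff a x) = x ∧ Aff a (Afi a x) = x := by
  constructor
  · unfold Afi Aff
    apply Prod.ext
    · show 32 * (x.1 / 32 + a - a) = x.1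
      ring
    · show 4 * (x.2 / 4) = x.2
      ring
  · unfold Afi Aff
    apply Prod.ext
    · show 32 * (x.1 - a) / 32 + a = x.1
      ring
    · show 4 * x.2 / 4 = x.2
      ring

theorem MEd_SS_open (i : Fin 3) : IsOpen (SS i) := by
  fin_cases i
  · exact isOpen_lt continuous_id continuous_const
  · exact isOpen_lt continuous_abs continuous_const
  · exact isOpen_lt continuous_const continuous_id

theorem ME0_open (D : Tri) (i : Fin 3) : IsOpen (OO D i) := by
  have h1 : IsOpen {x : MV (gS D) | x.1.1 ∈ SS i} :=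
    (MEd_SS_open i).preimage (by fun_prop)
  have h2 : IsOpen {x : MV (gS D) | 1 / 4 < ‖x.1.2‖} :=
    isOpen_lt continuous_const (by fun_prop)
  exact h1.union h2

theorem ME0_cover (D : Tri) : ⋃ i, OO D i = univ := by
  apply eq_univ_of_forall
  intro x
  rw [mem_iUnion]
  rcases lt_or_ge x.1.1 (-1 / 16) with h | h
  · exact ⟨0, Or.inl h⟩
  · rcases lt_or_ge (1 / 16) x.1.1 with h' | h'
    · exact ⟨2, Or.inl h'⟩
    · refine ⟨1, Or.inl ?_⟩
      show |x.1.1| < 3 / 16
      rw [abs_lt]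
      constructor <;> linarith

theorem ME0_xb (D : Tri) (hS : VKnot (gS D)) (i : Fin 3) : xM hS ∈ OO D i := by
  refine Or.inr ?_
  show 1 / 4 < ‖(3 / 2 : ℂ)‖
  have h2 : ‖(3 / 2 : ℂ)‖ = 3 / 2 := by
    rw [show (3 / 2 : ℂ) = ((3 / 2 : ℝ) : ℂ) by push_cast; ring, Complex.norm_real]
    norm_num
  rw [h2]
  norm_num

theorem MEd_norm {c : ℝ → V} (hc : VKnot c) (u : ℝ) : ‖(c u).2‖ ≤ 1 := by
  by_cases h : |u| ≤ 1
  · have h1 := hc.inBall u h
    have h2 : ‖(c u).2‖ ^ 2 ≤ 1 := by nlinarith [sq_nonneg (c u).1]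
    nlinarith [norm_nonneg (c u).2]
  · rw [hc.standard u (le_of_lt (not_le.1 h))]
    simp

theorem MEd_pos (i : Fin 3) {s : ℝ} (hs : s ∈ SS i) (h : 1 / 8 < |s - pos i|) :
    ∀ j, 1 / 32 ≤ |s - pos j| := by
  intro j
  fin_cases i
  · have h1 : s < -1 / 16 := hs
    have h2 : 1 / 8 < |s - (-1 / 4)| := h
    fin_cases j
    · show 1 / 32 ≤ |s - (-1 / 4)|
      linarith
    · show 1 / 32 ≤ |s - 0|
      rw [le_abs]; right; linarith
    · show 1 / 32 ≤ |s - 1 / 4|
      rw [le_abs]; right; linarith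
  · have h1 : |s| < 3 / 16 := hs
    have h2 : 1 / 8 < |s - 0| := h
    rw [abs_lt] at h1
    fin_cases j
    · show 1 / 32 ≤ |s - (-1 / 4)|
      rw [le_abs]; left; linarith
    · show 1 / 32 ≤ |s - 0|
      linarith
    · show 1 / 32 ≤ |s - 1 / 4|
      rw [le_abs]; right; linarith
  · have h1 : 1 / 16 < s := hs
    have h2 : 1 / 8 < |s - 1 / 4| := h
    fin_cases j
    · show 1 / 32 ≤ |s - (-1 / 4)|
      rw [le_abs]; left; linarith
    · show 1 / 32 ≤ |s - 0|
      rw [le_abs]; left; linarith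
    · show 1 / 32 ≤ |s - 1 / 4|
      linarith

theorem ME2_av (D : Tri) (i : Fin 3) (x : MV (gS D)) (hx : x ∈ OO D i) :
    Afi (pos i) x.1 ∉ range (D.c i) := by
  rintro ⟨u, hu⟩
  have hy : x.1 = Aff (pos i) (D.c i u) := by
    rw [hu]
    exact (ME0_inv (pos i) x.1).2.symm
  have hn := MEd_norm (D.hc i) u
  rcases hx with h | h
  · by_cases h4 : |u| ≤ 4
    · apply x.2
      rw [hy]
      exact MG_mem' D i u h4
    · push Not at h4
      have h5 : D.c i u = (u, 0) := (D.hc i).standard u (by linarith)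
      rw [h5] at hy
      have h6 : x.1.1 = u / 32 + pos i := congrArg Prod.fst hy
      have h7 : x.1.2 = 0 := by
        have := congrArg Prod.snd hy
        rw [this]
        show (0 : ℂ) / 4 = 0
        simp
      apply x.2
      have h8 : 1 / 8 < |x.1.1 - pos i| := by
        rw [h6, add_sub_cancel_right, abs_div, abs_of_pos (by norm_num : (0 : ℝ) < 32)]
        linarith
      have h9 := MG_axis' D x.1.1 (MEd_pos i h h8)
      have h10 : (x.1.1, (0 : ℂ)) = x.1 := by
        apply Prod.ext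
        · rfl
        · exact h7.symm
      rwa [h10] at h9
  · have h1 : x.1.2 = (D.c i u).2 / 4 := congrArg Prod.snd hy
    rw [h1, norm_div] at h
    have h2 : ‖(4 : ℂ)‖ = 4 := by simp
    rw [h2] at h
    linarith

end LQ
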