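import Pool.Agent.H64.LQ.E0
import Pool.Agent.H64.LK.K4

/-!
# MG: geometry of the sum

`gS D t = Com F0 F1 F2 (-1/4) 0 (1/4) (t, 0)`. By E0_axis `Lj F a (t, 0) = Aff a (c (32 (t - a)))`, equal to `(t, 0)` if `|t - a| ≥ 1/32` (as `c` is a long knot); for
`|t - a| ≤ 1/8` its first coordinate is in `[a - 1/8, a + 1/8]`, so it is fixed by `Lj G b` for `|a - b| ≥ 1/4` (E0_std). So:
(1) for `|t - pos i| ≤ 1/8`: `gS D t = Aff (pos i) (D.c i (32 (t - pos i)))`; (2) if `|t - pos i| ≥ 1/32` for all `i`, `gS D t = (t, 0)`.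
(every `t` satisfies (1) for some `i`, or `|t| ≥ 3/8` and (2)). (3) `‖(gS D t).2‖ ≤ 1/4` (`‖(D.c i u).2‖ ≤ 1`). (4) it is a long knot of the model: LK.K4 with E0_const.
(5) if `x = gS D t` and `|x.1 - pos i| ≤ 1/8` then `x = Aff (pos i) (D.c i u)` for some `u` with `|u| ≤ 4`: first coordinates: for `|t - pos j| < 1/8` the first coordinate is in the open
interval of radius `1/8` around `pos j` (`|(c_j u).1| ≤ 1` for `|u| ≤ 1` and `= u` otherwise); otherwise `gS D t = (t, 0)`. (6) if `x = gS D t` and `x.2 ≠ 0` then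
`|x.1 - pos i| ≤ 1/32` for some `i` (`|t - pos i| < 1/32`, `|(c_i u).1| ≤ 1`).
(7) conversely `Aff (pos i) (D.c i u)` is on the curve if `|u| ≤ 4`.
-/

open scoped ContDiff unitInterval
open Topology Set

namespace LQ

open LK

theorem MG_pos0 : pos 0 = -1 / 4 := rfl

theorem MG_pos1 : pos 1 = 0 := rfl

theorem MG_pos2 : pos 2 = 1 / 4 := rfl

theorem MG_tube (t : ℝ) : ((t, 0) : V) ∈ tube := by
  simp [tube]

theorem MG_val (D : Tri) (t : ℝ) : gS D t =
    Lj (D.F 0) (-1 / 4) (Lj (D.F 1) 0 (Lj (D.F 2) (1 / 4) (t, 0))) := rfl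

theorem MG_near (D : Tri) (i : Fin 3) (t : ℝ) (h : |t - pos i| ≤ 1 / 8) :
    gS D t = Aff (pos i) (D.c i (32 * (t - pos i))) := by
  have hstd : ∀ (j : Fin 3) (a : ℝ) (x : V), 1 / 8 ≤ |x.1 - a| → Lj (D.F j) a x = x :=
    fun j a x hx => E0_std (D.hF j) a x hx
  rw [MG_val]
  fin_cases i
  · change |t - (-1 / 4)| ≤ 1 / 8 at h
    rw [abs_le] at h
    rw [hstd 2 (1 / 4) (t, 0) (by
        show 1 / 8 ≤ |t - 1 / 4|
        rw [le_abs]; right; linarith [h.2]),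
      hstd 1 0 (t, 0) (by
        show 1 / 8 ≤ |t - 0|
        rw [le_abs]; right; linarith [h.2])]
    exact E0_axis (D.hF 0) (-1 / 4) t
  · change |t - 0| ≤ 1 / 8 at h
    have h' := abs_le.1 h
    rw [hstd 2 (1 / 4) (t, 0) (by
        show 1 / 8 ≤ |t - 1 / 4|
        rw [le_abs]; right; linarith [h'.2])]
    have h1 := E0_near (D.hF 1) 0 (t, 0) (MG_tube t) h
    have h1' := abs_le.1 h1
    rw [hstd 0 (-1 / 4) _ (by
        rw [le_abs]; left; linarith [h1'.1])]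
    exact E0_axis (D.hF 1) 0 t
  · change |t - 1 / 4| ≤ 1 / 8 at h
    have h1 := E0_near (D.hF 2) (1 / 4) (t, 0) (MG_tube t) h
    have h1' := abs_le.1 h1
    rw [hstd 1 0 (Lj (D.F 2) (1 / 4) (t, 0)) (by
        rw [le_abs]; left; linarith [h1'.1]),
      hstd 0 (-1 / 4) (Lj (D.F 2) (1 / 4) (t, 0)) (by
        rw [le_abs]; left; linarith [h1'.1])]
    exact E0_axis (D.hF 2) (1 / 4) t

theorem MG_fix (D : Tri) (i : Fin 3) (a t : ℝ) (h : 1 / 32 ≤ |t - a|) :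
    Lj (D.F i) a (t, 0) = (t, 0) := by
  rw [E0_axis (D.hF i) a t, (D.hc i).standard (32 * (t - a)) (by
    rw [abs_mul, abs_of_pos (by norm_num : (0 : ℝ) < 32)]
    linarith)]
  unfold Aff
  ext <;> simp

theorem MG_away (D : Tri) (t : ℝ) (h : ∀ i, 1 / 32 ≤ |t - pos i|) : gS D t = (t, 0) := by
  have h0 := h 0
  have h1 := h 1
  have h2 := h 2
  rw [MG_pos0] at h0
  rw [MG_pos1] at h1
  rw [MG_pos2] at h2
  rw [MG_val, MG_fix D 2 (1 / 4) t h2, MG_fix D 1 0 t h1, MG_fix D 0 (-1 / 4) t h0]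

theorem MG_cases (D : Tri) (t : ℝ) : (∃ i, |t - pos i| < 1 / 32) ∨ gS D t = (t, 0) := by
  by_cases h : ∃ i, |t - pos i| < 1 / 32
  · exact Or.inl h
  · right
    push Not at h
    exact MG_away D t h

/-- the coordinates of a long knot -/
theorem MG_coord {c : ℝ → V} (hc : VKnot c) (u : ℝ) (hu : |u| ≤ 1) :
    |(c u).1| ≤ 1 ∧ ‖(c u).2‖ ≤ 1 := by
  have h := hc.inBall u hu
  constructor
  · rw [← sq_le_one_iff_abs_le_one]
    nlinarith [sq_nonneg ‖(c u).2‖]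
  · have h1 : ‖(c u).2‖ ^ 2 ≤ 1 := by nlinarith [sq_nonneg (c u).1]
    exact (sq_le_one_iff₀ (norm_nonneg _)).1 h1

theorem MG_snd (D : Tri) (t : ℝ) : ‖(gS D t).2‖ ≤ 1 / 4 := by
  rcases MG_cases D t with ⟨i, hi⟩ | h
  · rw [MG_near D i t (by linarith)]
    have h1 : |32 * (t - pos i)| ≤ 1 := by
      rw [abs_mul, abs_of_pos (by norm_num : (0 : ℝ) < 32)]
      linarith
    have h2 := (MG_coord (D.hc i) _ h1).2
    show ‖(D.c i (32 * (t - pos i))).2 / 4‖ ≤ 1 / 4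
    rw [norm_div]
    have h3 : ‖(4 : ℂ)‖ = 4 := by simp
    rw [h3]
    linarith
  · rw [h]
    simp

theorem MG_knot (D : Tri) : VKnot (gS D) := by
  have h := K4 (E0_const (D.hF 0) (D.hF 1) (D.hF 2) (a := -1 / 4) (b := 0) (c := 1 / 4)
    (by rw [abs_le]; constructor <;> norm_num) (by rw [abs_le]; constructor <;> norm_num)
    (by rw [abs_le]; constructor <;> norm_num)) (0, 0)
  exact h

theorem MG_sep {i j : Fin 3} (h : i ≠ j) : 1 / 4 ≤ |pos i - pos j| := by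
  fin_cases i <;> fin_cases j
  · exact absurd rfl h
  · show 1 / 4 ≤ |(-1 / 4 : ℝ) - 0|
    rw [le_abs]; right; norm_num
  · show 1 / 4 ≤ |(-1 / 4 : ℝ) - 1 / 4|
    rw [le_abs]; right; norm_num
  · show 1 / 4 ≤ |(0 : ℝ) - (-1 / 4)|
    rw [le_abs]; left; norm_num
  · exact absurd rfl h
  · show 1 / 4 ≤ |(0 : ℝ) - 1 / 4|
    rw [le_abs]; right; norm_num
  · show 1 / 4 ≤ |(1 / 4 : ℝ) - (-1 / 4)|
    rw [le_abs]; left; norm_num
  · show 1 / 4 ≤ |(1 / 4 : ℝ) - 0|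
    rw [le_abs]; left; norm_num
  · exact absurd rfl h

/-- near a position, the first coordinate stays near it -/
theorem MG_fst (D : Tri) (i : Fin 3) (t : ℝ) (h : |t - pos i| < 1 / 32) :
    |(gS D t).1 - pos i| ≤ 1 / 32 := by
  rw [MG_near D i t (by linarith)]
  have h1 : |32 * (t - pos i)| ≤ 1 := by
    rw [abs_mul, abs_of_pos (by norm_num : (0 : ℝ) < 32)]
    linarith
  have h2 := (MG_coord (D.hc i) _ h1).1
  show |(D.c i (32 * (t - pos i))).1 / 32 + pos i - pos i| ≤ 1 / 32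
  rw [add_sub_cancel_right, abs_div, abs_of_pos (by norm_num : (0 : ℝ) < 32)]
  linarith

theorem MG_mem (D : Tri) (i : Fin 3) (x : V) (hx : x ∈ range (gS D)) (h : |x.1 - pos i| ≤ 1 / 8) :
    ∃ u : ℝ, |u| ≤ 4 ∧ x = Aff (pos i) (D.c i u) := by
  obtain ⟨t, rfl⟩ := hx
  by_cases ht : |t - pos i| ≤ 1 / 8
  · refine ⟨32 * (t - pos i), ?_, MG_near D i t ht⟩
    rw [abs_mul, abs_of_pos (by norm_num : (0 : ℝ) < 32)]
    linarith
  · exfalso
    rcases MG_cases D t with ⟨j, hj⟩ | h0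
    · have hij : i ≠ j := by
        rintro rfl
        exact ht (by linarith)
      have h1 := MG_fst D j t hj
      have h2 := MG_sep hij
      have h3 : |pos i - pos j| ≤ |(gS D t).1 - pos i| + |(gS D t).1 - pos j| := by
        have h4 : pos i - pos j = -((gS D t).1 - pos i) + ((gS D t).1 - pos j) := by ring
        rw [h4]
        refine (abs_add_le _ _).trans ?_
        rw [abs_neg]
      linarith
    · rw [h0] at h
      exact ht h

theorem MG_mem' (D : Tri) (i : Fin 3) (u : ℝ) (hu : |u| ≤ 4) :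
    Aff (pos i) (D.c i u) ∈ range (gS D) := by
  refine ⟨u / 32 + pos i, ?_⟩
  rw [MG_near D i _ (by
    rw [add_sub_cancel_right, abs_div, abs_of_pos (by norm_num : (0 : ℝ) < 32)]
    linarith)]
  have h1 : 32 * (u / 32 + pos i - pos i) = u := by ring
  rw [h1]

theorem MG_axis (D : Tri) (x : V) (hx : x ∈ range (gS D)) (h : x.2 ≠ 0) :
    ∃ i, |x.1 - pos i| ≤ 1 / 32 := by
  obtain ⟨t, rfl⟩ := hx
  rcases MG_cases D t with ⟨j, hj⟩ | h0
  · exact ⟨j, MG_fst D j t hj⟩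
  · exfalso
    rw [h0] at h
    exact h rfl

theorem MG_axis' (D : Tri) (s : ℝ) (h : ∀ i, 1 / 32 ≤ |s - pos i|) : ((s, 0) : V) ∈ range (gS D) :=
  ⟨s, MG_away D s h⟩

end LQ
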