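import Pool.Agent.H64.LQ.Defs

/-!
# T7: paths of long knots are covered by ambient isotopies (homeomorphisms)

Same construction as LK.T3 with homeomorphisms. (1) For long knots `h, k` and `C ≥ 1` as in LK.T2a the map `Loc h k = id + D` where `D` is
`√3/2`-Lipschitz (see the proof of LK.T2a, file Pool/Agent/H64/LK/T2a.lean; reprove or reuse: `Dup`, `Ddn` are `1/2`-Lipschitz in `x`), so it is a
homeomorphism of `E 3`: bijective by the contraction principle (`x = y - D x`; in Mathlib `ApproximatesLinearOn.toHomeomorph` or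
`ContractingWith`), and with `x = Loc⁻¹ y`, `x0 = Loc_0⁻¹ y0`: `(1 - √3/2) ‖x - x0‖ ≤ ‖Loc_{h,k} x - Loc_{h,k} x0‖ ≤ ‖y - y0‖ + ‖Loc_{h0,k0} x0 - Loc_{h,k} x0‖`, so the
inverse `(h, k, y) ↦ Loc_{h,k}⁻¹ y` is jointly continuous on the set of admissible pairs (LK.T2b).
(2) As in LK.T3 for the family `θ ↦ α θ` (compact parameter space `I`): constants `C` (LK.T1) and `N`; put
`A_0 (θ, x) = x`, `A_{j+1}(θ, x) = Loc (α (min θ (j/N))) (α (min θ ((j+1)/N))) (A_j (θ, x))`, inverse `Ai_{j+1}(θ, y) = Ai_j (θ, Loc⁻¹ y)`. All the pairs used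
are admissible (`‖k' - h'‖ ≤ 1/(2C)`). `A = A_N`. Continuity of `Ai` : for each `j` the family `θ ↦ Loc_j(θ, ·)` is a continuous family of homeomorphisms
`id + (√3/2)-Lipschitz`, so by the estimate of (1) its inverse is jointly continuous.
Everything can be done first in `E 3` and then transported to `V` by the linear homeomorphism `toE`; the condition far is `2 ≤ ‖toE x‖`.
-/

open scoped ContDiff unitInterval
open Topology Set

namespace LQ

open LK

/-- `(A, Ai)` is an ambient isotopy of the model covering the path `α` of long knots. -/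
structure Amb {g g' : ℝ → V} (hg : VKnot g) (hg' : VKnot g') (α : Path (mkK hg) (mkK hg'))
    (A Ai : C(I × V, V)) : Prop where
  left : ∀ θ x, Ai (θ, A (θ, x)) = x
  right : ∀ θ x, A (θ, Ai (θ, x)) = x
  zero : ∀ x, A (0, x) = x
  cover : ∀ θ t, (α θ).1 t = toE (A (θ, g t))
  far : ∀ θ x, 2 ≤ ‖toE x‖ → A (θ, x) = x

private theorem T7_lip (h k : LongKnot 3) (C : ℝ) (hC : 1 ≤ C)
    (hd : ∀ t, ‖deriv k.1 t - deriv h.1 t‖ ≤ 1 / (2 * C)) (x y : E 3) :
    ‖(Loc h.1 k.1 x - x) - (Loc h.1 k.1 y - y)‖ ≤ 7 / 8 * ‖x - y‖ := by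
  have s2 := T2a_star2 h k C hC hd
  have s2' : ∀ i : Fin 3, ∀ t, |-(k.1 t i - h.1 t i)| ≤ 1 / 2 * max (2 - ‖h.1 t‖) 0 := by
    intro i t
    rw [abs_neg]; exact s2 i t
  have hD : ∀ i : Fin 3, |((Loc h.1 k.1 x - x) - (Loc h.1 k.1 y - y)) i| ≤
      1 / 2 * ‖x - y‖ := by
    intro i
    have e : ((Loc h.1 k.1 x - x) - (Loc h.1 k.1 y - y)) i =
        (Loc h.1 k.1 x i - x i) - (Loc h.1 k.1 y i - y i) := rfl
    rw [e, T2a_Loc, T2a_Loc]
    have h2 := abs_le.mp (T2a_up_lip _ _ (s2 i) x y)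
    have h3 := abs_le.mp (T2a_up_lip _ _ (s2' i) x y)
    rw [abs_le]
    constructor <;> linarith [h2.1, h2.2, h3.1, h3.2]
  have h6 : ‖(Loc h.1 k.1 x - x) - (Loc h.1 k.1 y - y)‖ ^ 2 ≤ 3 / 4 * ‖x - y‖ ^ 2 := by
    have h7 : ‖(Loc h.1 k.1 x - x) - (Loc h.1 k.1 y - y)‖ ^ 2 =
        ∑ i : Fin 3, |((Loc h.1 k.1 x - x) - (Loc h.1 k.1 y - y)) i| ^ 2 := by
      rw [EuclideanSpace.norm_eq, Real.sq_sqrt (by positivity)]
      simp
    rw [h7]
    calc ∑ i : Fin 3, |((Loc h.1 k.1 x - x) - (Loc h.1 k.1 y - y)) i| ^ 2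
        ≤ ∑ i : Fin 3, (1 / 2 * ‖x - y‖) ^ 2 :=
          Finset.sum_le_sum (fun i _ => pow_le_pow_left₀ (abs_nonneg _) (hD i) 2)
      _ = 3 / 4 * ‖x - y‖ ^ 2 := by
          simp only [Finset.sum_const, Finset.card_univ, Fintype.card_fin]
          simp only [nsmul_eq_mul]
          push_cast
          ring
  by_contra hcon
  push Not at hcon
  have h0 := norm_nonneg (x - y)
  nlinarith [norm_nonneg ((Loc h.1 k.1 x - x) - (Loc h.1 k.1 y - y))]

private theorem T7_surj (L : E 3 → E 3)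
    (hL : ∀ x y, ‖(L x - x) - (L y - y)‖ ≤ 7 / 8 * ‖x - y‖) : Function.Surjective L := by
  intro y
  have hK : (7 / 8 : NNReal) < 1 := by
    rw [← NNReal.coe_lt_coe]
    push_cast
    norm_num
  have hc : ContractingWith (7 / 8 : NNReal) (fun x => y - (L x - x)) := by
    refine ⟨hK, LipschitzWith.of_dist_le_mul fun a b => ?_⟩
    rw [dist_eq_norm, dist_eq_norm]
    have : (y - (L a - a)) - (y - (L b - b)) = -((L a - a) - (L b - b)) := by abel
    rw [this, norm_neg]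
    push_cast
    exact hL a b
  refine ⟨ContractingWith.fixedPoint _ hc, ?_⟩
  have h1 : y - (L (ContractingWith.fixedPoint _ hc) - ContractingWith.fixedPoint _ hc) =
      ContractingWith.fixedPoint _ hc := hc.fixedPoint_isFixedPt
  have h2 := sub_eq_iff_eq_add.1 h1
  rw [add_sub_cancel] at h2
  exact h2.symm

private theorem T7_inv {T : Type*} [TopologicalSpace T] (L : C(T × E 3, E 3))
    (h1 : ∀ θ x y, ‖(L (θ, x) - x) - (L (θ, y) - y)‖ ≤ 7 / 8 * ‖x - y‖) :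
    ∃ Li : C(T × E 3, E 3), (∀ θ x, Li (θ, L (θ, x)) = x) ∧ ∀ θ x, L (θ, Li (θ, x)) = x := by
  have hs : ∀ θ, Function.Surjective (fun x => L (θ, x)) := fun θ => T7_surj _ (h1 θ)
  have hlow : ∀ θ x y, ‖x - y‖ ≤ 8 * ‖L (θ, x) - L (θ, y)‖ := by
    intro θ x y
    have e : x - y = (L (θ, x) - L (θ, y)) - ((L (θ, x) - x) - (L (θ, y) - y)) := by abel
    have h2 := norm_sub_le (L (θ, x) - L (θ, y)) ((L (θ, x) - x) - (L (θ, y) - y))
    rw [← e] at h2
    linarith [h1 θ x y]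
  choose f hf using fun (p : T × E 3) => hs p.1 p.2
  have hf' : ∀ θ y, L (θ, f (θ, y)) = y := fun θ y => hf (θ, y)
  have hfl : ∀ θ x, f (θ, L (θ, x)) = x := by
    intro θ x
    have h2 := hlow θ (f (θ, L (θ, x))) x
    rw [hf', sub_self, norm_zero, mul_zero] at h2
    exact sub_eq_zero.1 (norm_le_zero_iff.1 h2)
  have hcont : Continuous f := by
    rw [continuous_iff_continuousAt]
    rintro ⟨θ0, y0⟩
    have h2 : Filter.Tendsto (fun p : T × E 3 => 8 * ‖p.2 - L (p.1, f (θ0, y0))‖) (𝓝 (θ0, y0))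
        (𝓝 0) := by
      have h3 : Continuous (fun p : T × E 3 => 8 * ‖p.2 - L (p.1, f (θ0, y0))‖) := by
        fun_prop
      have h4 := h3.tendsto (θ0, y0)
      simp only [hf', sub_self, norm_zero, mul_zero] at h4
      exact h4
    show Filter.Tendsto f (𝓝 (θ0, y0)) (𝓝 (f (θ0, y0)))
    rw [tendsto_iff_norm_sub_tendsto_zero]
    refine squeeze_zero (fun p => norm_nonneg _) (fun p => ?_) h2
    obtain ⟨θ, y⟩ := p
    have h5 := hlow θ (f (θ, y)) (f (θ0, y0))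
    rwa [hf'] at h5
  exact ⟨⟨f, hcont⟩, hfl, hf'⟩

private theorem T7_step (α : C(I, LongKnot 3)) (C : ℝ) (hC : 1 ≤ C)
    (hbi : ∀ p : I, ∀ t ∈ Icc (-2 : ℝ) 2, ∀ s ∈ Icc (-2 : ℝ) 2,
      |t - s| ≤ C * ‖(α p).1 t - (α p).1 s‖)
    (N : ℕ) (hN : ∀ t t' : I, |(t : ℝ) - t'| ≤ 1 / N → ∀ u : ℝ,
      ‖deriv (α t).1 u - deriv (α t').1 u‖ ≤ 1 / (2 * C)) (j : ℕ) :
    ∃ A Ai : C(I × E 3, E 3), (∀ θ x, Ai (θ, A (θ, x)) = x) ∧ (∀ θ x, A (θ, Ai (θ, x)) = x) ∧
      (∀ x, A (0, x) = x) ∧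
      (∀ θ u, A (θ, (α 0).1 u) = (α (min θ (T3_c N j))).1 u) ∧
      (∀ θ x, 2 ≤ ‖x‖ → A (θ, x) = x) := by
  induction j with
  | zero =>
    refine ⟨⟨fun q => q.2, continuous_snd⟩, ⟨fun q => q.2, continuous_snd⟩, fun _ _ => rfl,
      fun _ _ => rfl, fun _ => rfl, fun θ u => ?_, fun _ _ _ => rfl⟩
    have : min θ (0 : I) = 0 := min_eq_right unitInterval.nonneg'
    rw [T3_c_zero, this]
    rfl
  | succ j ih =>
    obtain ⟨A, Ai, i1, i2, i3, i4, i5⟩ := ih
    have hdd : ∀ θ : I, ∀ u, ‖deriv (α (min θ (T3_c N (j + 1)))).1 u -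
        deriv (α (min θ (T3_c N j))).1 u‖ ≤ 1 / (2 * C) := fun θ u => by
      rw [norm_sub_rev]
      exact hN _ _ (T3_c_step N j θ) u
    have hT : ∀ θ : I, _ := fun θ => T2a (α (min θ (T3_c N j)))
      (α (min θ (T3_c N (j + 1)))) C hC (hbi _) (hdd θ)
    have hm : ∀ c : I, Continuous (fun q : I × E 3 => α (min q.1 c)) := fun c => by
      refine α.continuous.comp ?_
      fun_prop
    let L : C(I × E 3, E 3) := ⟨fun q => Loc (α (min q.1 (T3_c N j))).1
      (α (min q.1 (T3_c N (j + 1)))).1 q.2,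
      T2b.comp (((hm _).prodMk (hm _)).prodMk continuous_snd)⟩
    have hL : ∀ θ x, L (θ, x) = Loc (α (min θ (T3_c N j))).1
      (α (min θ (T3_c N (j + 1)))).1 x := fun θ x => rfl
    obtain ⟨Li, l1, l2⟩ := T7_inv L (fun θ x y => by
      rw [hL, hL]
      exact T7_lip _ _ C hC (hdd θ) x y)
    refine ⟨⟨fun q => L (q.1, A q), by fun_prop⟩, ⟨fun q => Ai (q.1, Li q), by fun_prop⟩,
      fun θ x => ?_, fun θ x => ?_, fun x => ?_, fun θ u => ?_, fun θ x hx => ?_⟩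
    · show Ai (θ, Li (θ, L (θ, A (θ, x)))) = x
      rw [l1, i1]
    · show L (θ, A (θ, Ai (θ, Li (θ, x)))) = x
      rw [i2, l2]
    · show L (0, A (0, x)) = x
      have : ∀ c : I, min (0 : I) c = 0 := fun c => min_eq_left unitInterval.nonneg'
      rw [i3, hL, this, this]
      exact T2a_self _ _
    · show L (θ, A (θ, (α 0).1 u)) = _
      rw [i4, hL]
      exact (hT θ).1 u
    · show L (θ, A (θ, x)) = x
      rw [i5 θ x hx, hL]
      exact (hT θ).2.2 x hx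

theorem T7 {g g' : ℝ → V} (hg : VKnot g) (hg' : VKnot g') (α : Path (mkK hg) (mkK hg')) :
    ∃ A Ai, Amb hg hg' α A Ai := by
  let H : C(I × I, LongKnot 3) := ⟨fun p => α p.2, α.continuous.comp continuous_snd⟩
  have hH : ∀ s t, H (s, t) = α t := fun s t => rfl
  obtain ⟨C, hC, hbi⟩ := T1 H
  obtain ⟨N, hN0, hN⟩ := T3_unif H (1 / (2 * C)) (by positivity)
  obtain ⟨A, Ai, i1, i2, i3, i4, i5⟩ := T7_step (α : C(I, LongKnot 3)) C hC
    (fun p t ht s hs => hbi (0, p) t ht s hs) N (fun t t' htt u => hN 0 t t' htt u) N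
  refine ⟨⟨fun q => toE.symm (A (q.1, toE q.2)), by fun_prop⟩,
    ⟨fun q => toE.symm (Ai (q.1, toE q.2)), by fun_prop⟩, ⟨?_, ?_, ?_, ?_, ?_⟩⟩
  · intro θ x
    show toE.symm (Ai (θ, toE (toE.symm (A (θ, toE x))))) = x
    rw [ContinuousLinearEquiv.apply_symm_apply, i1, ContinuousLinearEquiv.symm_apply_apply]
  · intro θ x
    show toE.symm (A (θ, toE (toE.symm (Ai (θ, toE x))))) = x
    rw [ContinuousLinearEquiv.apply_symm_apply, i2, ContinuousLinearEquiv.symm_apply_apply]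
  · intro x
    show toE.symm (A (0, toE x)) = x
    rw [i3, ContinuousLinearEquiv.symm_apply_apply]
  · intro θ t
    show (α θ).1 t = toE (toE.symm (A (θ, toE (g t))))
    rw [ContinuousLinearEquiv.apply_symm_apply]
    have h1 := i4 θ t
    have h2 : min θ (1 : I) = θ := min_eq_left unitInterval.le_one'
    rw [T3_c_N N hN0, h2] at h1
    have h3 : ((α : C(I, LongKnot 3)) 0).1 t = toE (g t) := by
      have : (α : C(I, LongKnot 3)) 0 = mkK hg := α.source
      rw [this]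
      rfl
    rw [h3] at h1
    exact h1.symm
  · intro θ x hx
    show toE.symm (A (θ, toE x)) = x
    rw [i5 θ _ hx, ContinuousLinearEquiv.symm_apply_apply]

end LQ
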