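import Pool.Agent.H64.LQ.T7

/-!
# T8: the transport of a loop depends only on the homotopy class of the path of knots

As LK.T4 (Pool/Agent/H64/LK/T4.lean), for paths instead of loops: let `F` be the homotopy from `α` to `β`, `Φ` the lift given by LK.T3
(`F(s, 0) = mkK hg` for all `s`). (1) `u ↦ Ai(t, Φ((0,t), γ u))` (after conjugation by `toE`) is a homotopy in `MV g` from `γ` to `Ai_1 ∘ Φ_(0,1) ∘ γ`, so
`γ1 = A_1 ∘ γ ≃ Φ_(0,1) ∘ γ` in `MV g'`; (2) same with `A'` and `Φ_(1,1)`; (3) `s ↦ Φ_(s,1) ∘ γ` in `MV g'`.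
The base point `xb` has `‖toE xb‖² = 4 + 9/4 ≥ 4`, so it is fixed by all the maps.
-/

open scoped ContDiff unitInterval
open Topology Set

namespace LQ

open LK

theorem T8_norm : 2 ≤ ‖toE xb‖ := by
  have h1 := norm_toE_sq xb
  have h2 : ‖xb.2‖ = 3 / 2 := by
    show ‖(3 / 2 : ℂ)‖ = 3 / 2
    rw [show (3 / 2 : ℂ) = ((3 / 2 : ℝ) : ℂ) by push_cast; ring, Complex.norm_real]
    norm_num
  have h3 : xb.1 = -2 := rfl
  rw [h2, h3] at h1
  nlinarith [norm_nonneg (toE xb)]

theorem T8_mk {S : Set V} {x : V} {hx : x ∉ S}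
    (γ1 γ2 : Path (⟨x, hx⟩ : {y : V // y ∉ S}) ⟨x, hx⟩) (K : I × I → V)
    (hK : Continuous K) (hmem : ∀ p, K p ∉ S) (h0 : ∀ u, K (0, u) = (γ1 u).1)
    (h1 : ∀ u, K (1, u) = (γ2 u).1) (hb0 : ∀ t, K (t, 0) = x) (hb1 : ∀ t, K (t, 1) = x) :
    γ1.Homotopic γ2 := by
  refine ⟨{ toFun := fun p => ⟨K p, hmem p⟩
            continuous_toFun := hK.subtype_mk _
            map_zero_left := fun u => Subtype.ext (h0 u)
            map_one_left := fun u => Subtype.ext (h1 u)
            prop' := ?_ }⟩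
  intro t u hu
  apply Subtype.ext
  rcases hu with hu | hu
  · subst hu
    simp [hb0]
  · rw [mem_singleton_iff] at hu
    subst hu
    simp [hb1]

theorem T8_half {g g' : ℝ → V} (hg : VKnot g) (hg' : VKnot g') (α : Path (mkK hg) (mkK hg'))
    (A Ai : C(I × V, V)) (hA : Amb hg hg' α A Ai) (γ : Path (xM hg) (xM hg))
    (γ1 δ : Path (xM hg') (xM hg')) (h1 : ∀ u, (γ1 u).1 = A (1, (γ u).1))
    (Ψ : I × V → V) (hΨ : Continuous Ψ) (hΨ0 : ∀ y, Ψ (0, y) = y)
    (hΨg : ∀ t u, toE (Ψ (t, g u)) = (α t).1 u)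
    (hΨi : ∀ t, Function.Injective fun y => Ψ (t, y)) (hΨx : ∀ t, Ψ (t, xb) = xb)
    (hδ : ∀ u, (δ u).1 = Ψ (1, (γ u).1)) : γ1.Homotopic δ := by
  have hAxb : ∀ θ, A (θ, xb) = xb := fun θ => hA.far θ xb T8_norm
  have hAixb : ∀ θ, Ai (θ, xb) = xb := fun θ => by
    have := hA.left θ xb
    rwa [hAxb θ] at this
  have hA00 : ∀ y, Ai (0, y) = y := fun y => by
    have := hA.left 0 y
    rwa [hA.zero y] at this
  have hcov : ∀ t u, Ψ (t, g u) = A (t, g u) := fun t u => by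
    apply toE.injective
    rw [hΨg, hA.cover]
  have hg1 : ∀ v, g' v = A (1, g v) := fun v => by
    apply toE.injective
    have h := hA.cover 1 v
    rw [α.target] at h
    exact h
  have hγ0 : (γ 0).1 = xb := by rw [γ.source]; rfl
  have hγ1 : (γ 1).1 = xb := by rw [γ.target]; rfl
  refine T8_mk γ1 δ (fun p => A (1, Ai (p.1, Ψ (p.1, (γ p.2).1)))) ?_ ?_ ?_ ?_ ?_ ?_
  · fun_prop
  · rintro ⟨t, u⟩ ⟨v, hv⟩
    have hv' : g' v = A (1, Ai (t, Ψ (t, (γ u).1))) := hv
    have e2 : Ai (t, Ψ (t, (γ u).1)) = g v := by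
      have h2 := hA.left 1 (Ai (t, Ψ (t, (γ u).1)))
      have h3 := hA.left 1 (g v)
      rw [← h2, ← hv', hg1, h3]
    have e3 : Ψ (t, (γ u).1) = Ψ (t, g v) := by
      rw [hcov, ← e2, hA.right]
    exact (γ u).2 ⟨v, (hΨi t e3).symm⟩
  · intro u
    refine Eq.trans ?_ (h1 u).symm
    simp only [hΨ0, hA00]
  · intro u
    refine Eq.trans ?_ (hδ u).symm
    simp only [hA.right]
  · intro t
    simp only [hγ0, hΨx, hAixb, hAxb]
  · intro t
    simp only [hγ1, hΨx, hAixb, hAxb]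

theorem T8 {g g' : ℝ → V} (hg : VKnot g) (hg' : VKnot g') (α β : Path (mkK hg) (mkK hg'))
    (hαβ : α.Homotopic β) (A Ai A' Ai' : C(I × V, V)) (hA : Amb hg hg' α A Ai)
    (hA' : Amb hg hg' β A' Ai') (γ : Path (xM hg) (xM hg)) (γ1 γ2 : Path (xM hg') (xM hg'))
    (h1 : ∀ u, (γ1 u).1 = A (1, (γ u).1)) (h2 : ∀ u, (γ2 u).1 = A' (1, (γ u).1)) :
    γ1.Homotopic γ2 := by
  obtain ⟨F⟩ := hαβ
  obtain ⟨Φ, hΦ0, hΦg, hΦi, hΦx⟩ := T3 F.toContinuousMap (mkK hg) (fun s => by
    have := F.source s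
    exact this)
  have hF0 : ∀ t, F (0, t) = α t := fun t => F.map_zero_left t
  have hF1 : ∀ t, F (1, t) = β t := fun t => F.map_one_left t
  have hFt : ∀ s, F (s, 1) = mkK hg' := fun s => F.target s
  have hΦg' : ∀ p u, Φ (p, toE (g u)) = (F p).1 u := hΦg
  -- the maps in the model
  let φ : (I × I) × V → V := fun q => toE.symm (Φ (q.1, toE q.2))
  have hφ : Continuous φ := by
    have h1 : Continuous fun q : (I × I) × V => (q.1, toE q.2) :=
      continuous_fst.prodMk (toE.continuous.comp continuous_snd)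
    exact toE.symm.continuous.comp (Φ.continuous.comp h1)
  have hφE : ∀ p y, toE (φ (p, y)) = Φ (p, toE y) := fun p y => toE.apply_symm_apply _
  have hφi : ∀ p, Function.Injective fun y => φ (p, y) := by
    intro p y y' h
    apply toE.injective
    apply hΦi p
    show Φ (p, toE y) = Φ (p, toE y')
    rw [← hφE, ← hφE]
    exact congrArg toE h
  have hφ0 : ∀ s y, φ ((s, 0), y) = y := by
    intro s y
    apply toE.injective
    rw [hφE, hΦ0]
  have hφx : ∀ p, φ (p, xb) = xb := by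
    intro p
    apply toE.injective
    rw [hφE, hΦx _ _ T8_norm]
  have hφg : ∀ s u, φ ((s, 1), g u) = g' u := by
    intro s u
    apply toE.injective
    rw [hφE, hΦg', hFt]
    rfl
  -- the maps carry complements to complements
  have hmem : ∀ s : I, ∀ y, y ∉ range g → φ ((s, 1), y) ∉ range g' := by
    rintro s y hy ⟨v, hv⟩
    have e : φ ((s, 1), y) = φ ((s, 1), g v) := by rw [hφg, hv]
    exact hy ⟨v, (hφi (s, 1) e).symm⟩
  have hγ0 : (γ 0).1 = xb := by rw [γ.source]; rfl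
  have hγ1 : (γ 1).1 = xb := by rw [γ.target]; rfl
  have hcγ : Continuous fun u => (γ u).1 := continuous_subtype_val.comp γ.continuous
  have hcont : ∀ s : I, Continuous fun u => φ ((s, 1), (γ u).1) := fun s =>
    hφ.comp (continuous_const.prodMk hcγ)
  let δ : I → Path (xM hg') (xM hg') := fun s =>
    { toFun := fun u => ⟨φ ((s, 1), (γ u).1), hmem s _ (γ u).2⟩
      continuous_toFun := (hcont s).subtype_mk _
      source' := Subtype.ext (by
        show φ ((s, 1), (γ 0).1) = xb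
        rw [hγ0, hφx])
      target' := Subtype.ext (by
        show φ ((s, 1), (γ 1).1) = xb
        rw [hγ1, hφx]) }
  have hδ : ∀ s u, (δ s u).1 = φ ((s, 1), (γ u).1) := fun s u => rfl
  have hc0 : ∀ s : I, Continuous fun q : I × V => φ ((s, q.1), q.2) := fun s =>
    hφ.comp ((continuous_const.prodMk continuous_fst).prodMk continuous_snd)
  have k1 : γ1.Homotopic (δ 0) :=
    T8_half hg hg' α A Ai hA γ γ1 (δ 0) h1 (fun q => φ ((0, q.1), q.2)) (hc0 0)
      (fun y => hφ0 0 y)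
      (fun t u => by
        show toE (φ ((0, t), g u)) = _
        rw [hφE, hΦg', hF0])
      (fun t => hφi (0, t)) (fun t => hφx _) (fun u => hδ 0 u)
  have k2 : γ2.Homotopic (δ 1) :=
    T8_half hg hg' β A' Ai' hA' γ γ2 (δ 1) h2 (fun q => φ ((1, q.1), q.2)) (hc0 1)
      (fun y => hφ0 1 y)
      (fun t u => by
        show toE (φ ((1, t), g u)) = _
        rw [hφE, hΦg', hF1])
      (fun t => hφi (1, t)) (fun t => hφx _) (fun u => hδ 1 u)
  have k3 : (δ 0).Homotopic (δ 1) := by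
    refine T8_mk (δ 0) (δ 1) (fun p => φ ((p.1, 1), (γ p.2).1)) ?_ ?_ ?_ ?_ ?_ ?_
    · exact hφ.comp ((continuous_fst.prodMk continuous_const).prodMk
        (hcγ.comp continuous_snd))
    · rintro ⟨s, u⟩
      exact hmem s _ (γ u).2
    · intro u; exact (hδ 0 u).symm
    · intro u; exact (hδ 1 u).symm
    · intro s
      show φ ((s, 1), (γ 0).1) = xb
      rw [hγ0, hφx]
    · intro s
      show φ ((s, 1), (γ 1).1) = xb
      rw [hγ1, hφx]
  exact k1.trans (k3.trans k2.symm)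

end LQ
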