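import Pool.Agent.H64.LQ.GK
import Pool.Agent.H64.LQ.K2s
import Pool.Agent.H34.RQ.Final

/-!
# Tor: the data about the three torus knots, and the conclusion
-/

open scoped ContDiff unitInterval
open Topology Set

namespace LQ

open LK RQ Monoid

/-- The homomorphism `TG q → P` given by `a, b` with `a ^ q = b ^ 2`. -/
theorem Tor_lift {P : Type} [Group P] (q : ℤ) (a b : P) (h : a ^ q = b ^ 2) :
    ∃ Ψ : TG q →* P, Ψ (tA q) = a ∧ Ψ (tB q) = b := by
  refine ⟨PushoutI.lift (fun i => zpowersHom P (if i then b else a)) (zpowersHom P (b ^ 2)) ?_,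
    ?_, ?_⟩
  · intro i
    ext
    cases i
    · simp [torPhi, zpowersHom_apply, h]
    · simp [torPhi, zpowersHom_apply]
  · simp [tA, zpowersHom_apply]
  · simp [tB, zpowersHom_apply]

theorem Tor_rel (q : ℤ) : tA q ^ q = tB q ^ 2 := (tB_sq q).symm

theorem Tor_ext {P : Type} [Group P] (q : ℤ) (F G : TG q →* P) (hA : F (tA q) = G (tA q))
    (hB : F (tB q) = G (tB q)) : F = G := by
  apply PushoutI.hom_ext_nonempty
  intro i
  ext
  cases i
  · exact hA
  · exact hB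

theorem Tor_iso (q : ℕ) {P : Type} [Group P] (a b : P) (h : a ^ q = b ^ 2)
    (hgen : Subgroup.closure {a, b} = ⊤)
    (huniv : ∀ (Γ : Type) [Group Γ] (x y : Γ), x ^ q = y ^ 2 → ∃ F : P →* Γ, F a = x ∧ F b = y) :
    ∃ θ : P ≃* TG q, θ a = tA q ∧ θ b = tB q := by
  obtain ⟨F, hFa, hFb⟩ := huniv (TG q) (tA q) (tB q) (by
    rw [← Tor_rel, zpow_natCast])
  obtain ⟨G, hGa, hGb⟩ := Tor_lift (q : ℤ) a b (by rw [zpow_natCast, h])
  have h1 : G.comp F = MonoidHom.id P := by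
    apply MonoidHom.eq_of_eqOn_dense hgen
    intro x hx
    rcases hx with rfl | hx
    · show G (F x) = x
      rw [hFa, hGa]
    · rw [mem_singleton_iff] at hx
      subst hx
      show G (F x) = x
      rw [hFb, hGb]
  have h2 : F.comp G = MonoidHom.id _ := by
    apply Tor_ext
    · show F (G (tA q)) = tA q
      rw [hGa, hFa]
    · show F (G (tB q)) = tB q
      rw [hGb, hFb]
  exact ⟨MonoidHom.toMulEquiv F G h1 h2, hFa, hFb⟩

theorem Tor_one (q : ℕ) (hq : Odd q) (h3 : 3 ≤ q) : ∃ (c : ℝ → V) (hc : VKnot c)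
    (θ : PiM hc ≃* TG q), (∀ m : Path (xM hc) (xM hc), IsMer hc m → θ (cls m) = tMu q) ∧
    (∀ (F : V → V) (hF : Fat2 (cor c) F),
      ∃ e f : ℤ, e ≠ 0 ∧ θ (cls (ellM hF hc)) = tZ q ^ e * tMu q ^ f) := by
  obtain ⟨c, hc, a, b, hab, hgen, huniv, hmer, hell⟩ := GK q hq h3
  obtain ⟨θ, ha, hb⟩ := Tor_iso q a b hab hgen huniv
  have hm : ∀ m : Path (xM hc) (xM hc), IsMer hc m → θ (cls m) = tMu q := by
    intro m hm
    rw [← hmer m hm, map_mul, map_pow, map_inv, ha, hb, tMu]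
    congr 1
  refine ⟨c, hc, θ, hm, fun F hF => ?_⟩
  obtain ⟨m, hm'⟩ := MB_exMer hc
  obtain ⟨k, e, he, h⟩ := hell F hF m hm'
  refine ⟨e, k, ?_, ?_⟩
  · rcases he with rfl | rfl <;> norm_num
  · rw [h, map_mul, map_zpow, map_zpow, map_pow, hm m hm', ha]
    have hz : tA (q : ℤ) ^ q = tZ q := by rw [tZ, zpow_natCast]
    rw [hz]
    have c1 : Commute (tZ (q : ℤ)) (tA q) := by
      unfold tZ
      exact (Commute.refl (tA (q : ℤ))).zpow_left _
    have c2 : Commute (tZ (q : ℤ)) (tB q) := by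
      rw [← tB_sq]
      exact (Commute.refl (tB (q : ℤ))).pow_left _
    have c3 : Commute (tZ (q : ℤ)) (tMu q) := by
      unfold tMu
      exact (c1.zpow_right _).mul_right c2.inv_right
    exact ((c3.zpow_left e).zpow_right k).symm.eq

theorem Tor_each (i : Fin 3) : ∃ (c : ℝ → V) (hc : VKnot c)
    (θ : PiM hc ≃* TG (qq i)), (∀ m : Path (xM hc) (xM hc), IsMer hc m → θ (cls m) = tMu (qq i)) ∧
    (∀ (F : V → V) (hF : Fat2 (cor c) F),
      ∃ e f : ℤ, e ≠ 0 ∧ θ (cls (ellM hF hc)) = tZ (qq i) ^ e * tMu (qq i) ^ f) := by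
  fin_cases i
  · exact Tor_one 3 (by decide) (by norm_num)
  · exact Tor_one 5 (by decide) (by norm_num)
  · exact Tor_one 7 (by decide) (by norm_num)

theorem Tor_data : ∃ D : Tri, Nonempty (TorData D) := by
  choose c hc θ h1 h2 using Tor_each
  choose F hF using fun i => K2s (hc i)
  refine ⟨⟨c, F, hc, hF⟩, ?_⟩
  choose e f he h using fun i => h2 i (F i) (hF i)
  exact ⟨⟨θ, h1, e, f, he, h⟩⟩

end LQ
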