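import Pool.Agent.H64.LQ.Defs

/-!
# VK1: local labels of paths extend to all paths (arbitrary open cover)

`O` open cover of `X`; `φ` is multiplicative and homotopy invariant on paths (homotopies) contained in one `O i`. Then there is a
label `Φ` of all the paths, equal to `φ` on the paths contained in some `O i`, multiplicative and homotopy invariant.

Proof. For a path `p`, `n ≥ 1` and `k < n` let `p_k` be the piece of `p` over `[k/n, (k+1)/n]`, a path from `p(k/n)` to `p((k+1)/n)`
(convenient: for a continuous `f : ℝ → X` and reals `a, b` let `seg f a b : Path (f a) (f b)`, `t ↦ f (a + (b-a) t)`; a path `p` is extended to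
`ℝ` by `Path.extend`; Mathlib also has `Path.subpath`). Say `n` is good for `p` if every `p_k` is contained in some `O i`;
`Φ_n(p) = φ(p_{n-1}) ... φ(p_0)`.
(0) Every path has a good `n` and if `n` is good so are its multiples (Lebesgue number: `lebesgue_number_lemma_of_metric` or
`exists_monotone_Icc_subset_open_cover_unitInterval`).
(1) If `f([a,c]) ⊆ O i`, `a ≤ b ≤ c`: `φ (seg f a c) = φ (seg f b c) * φ (seg f a b)` because `seg f a c` is a reparametrisation of
`(seg f a b).trans (seg f b c)`, so the two are homotopic by a homotopy with values in `f([a,c]) ⊆ O i` (both are `f` composed with a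
path in the interval `[a,c]` from `a` to `c`: straight-line homotopy). Hence for `n` good, `Φ_{nm}(p) = Φ_n(p)`: `Φ_n(p)` does not depend on
the good `n` (compare `n` and `n'` with `n n'`); this is `Φ(p)`. If `p` is contained in some `O i`, `1` is good, so `Φ(p) = φ(p)` (`seg` of
the extension over `[0,1]` is `p`).
(2) `Φ(p.trans q) = Φ(q) Φ(p)`: take `n` good for both; `2n` is good for `p.trans q`, the first `n` pieces are those of `p` (same functions,
end points equal up to a cast), the last `n` those of `q`.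
(3) Homotopy invariance. Let `H` be a homotopy from `p` to `q` rel endpoints; by the Lebesgue number lemma on `I × I` there is `n ≥ 1` such that
each square `[j/n, (j+1)/n] × [k/n, (k+1)/n]` is mapped into some `O i`. Let `r_j = H(j/n, ·)`, `v_{j,k} = ` the path `s ↦ H(s, k/n)`,
`s ∈ [j/n, (j+1)/n]`. In one square, contained in `O i` say, the two boundary paths are homotopic inside `O i` (straight-line homotopy in the square), so
`φ(v_{j,k+1}) φ((r_j)_k) = φ((r_{j+1})_k) φ(v_{j,k})`. Multiply over `k`: `φ(v_{j,n}) Φ_n(r_j) = Φ_n(r_{j+1}) φ(v_{j,0})`. The paths `v_{j,0}`, `v_{j,n}`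
are constant and `φ(const) = 1` (`const.trans const` is homotopic to `const` in a point; group cancellation). So `Φ(r_{j+1}) = Φ(r_j)`,
and `Φ(p) = Φ(r_0) = Φ(r_n) = Φ(q)`.
-/

open scoped ContDiff unitInterval
open Topology Set

namespace LQ

open LK

section VK1aux

variable {X : Type*} [TopologicalSpace X] {Γ : Type*} [Group Γ]

/-- equal paths have equal labels (no condition on the end points) -/
theorem VK1_congr (φ : ∀ x y : X, Path x y → Γ) {x y x' y' : X} (p : Path x y) (q : Path x' y')
    (h : ∀ t, p t = q t) : φ x y p = φ x' y' q := by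
  have hx : x = x' := by rw [← p.source, h, q.source]
  have hy : y = y' := by rw [← p.target, h, q.target]
  subst hx
  subst hy
  have hpq : p = q := Path.ext (funext h)
  rw [hpq]

/-- the hypotheses -/
structure VK1_hyp {ι : Type*} (φ : ∀ x y : X, Path x y → Γ) (O : ι → Set X) : Prop where
  hO : ∀ i, IsOpen (O i)
  cov : ⋃ i, O i = univ
  mu : ∀ (i : ι) {x y z : X} (p : Path x y) (q : Path y z), range p ⊆ O i → range q ⊆ O i →
    φ x z (p.trans q) = φ y z q * φ x y p
  ho : ∀ (i : ι) {x y : X} (p q : Path x y) (H : p.Homotopy q), range H ⊆ O i → φ x y p = φ x y q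

/-- label of the image of a segment -/
noncomputable def VK1_psi (φ : ∀ x y : X, Path x y → Γ) {E : Type*} [NormedAddCommGroup E]
    [NormedSpace ℝ E] (F : C(E, X)) (a b : E) : Γ :=
  φ (F a) (F b) ((Path.segment a b).map F.continuous)

/-- affine homotopy of paths -/
noncomputable def VK1_hom {E : Type*} [NormedAddCommGroup E] [NormedSpace ℝ E] {a b : E}
    (α β : Path a b) : α.Homotopy β where
  toHomotopy := ContinuousMap.Homotopy.affine α.toContinuousMap β.toContinuousMap
  prop' := by
    intro t x hx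
    rcases hx with rfl | hx
    · simp
    · rw [Set.mem_singleton_iff] at hx
      subst hx
      simp

theorem VK1_hom_apply {E : Type*} [NormedAddCommGroup E] [NormedSpace ℝ E] {a b : E}
    (α β : Path a b) (r t : I) :
    VK1_hom α β (r, t) = AffineMap.lineMap (α t) (β t) (r : ℝ) := rfl

theorem VK1_tri (φ : ∀ x y : X, Path x y → Γ) {S : Set X}
    (m : ∀ {x y z : X} (p : Path x y) (q : Path y z), range p ⊆ S → range q ⊆ S →
      φ x z (p.trans q) = φ y z q * φ x y p)
    (ho : ∀ {x y : X} (p q : Path x y) (H : p.Homotopy q), range H ⊆ S → φ x y p = φ x y q)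
    {E : Type*} [NormedAddCommGroup E] [NormedSpace ℝ E] (F : C(E, X)) {C : Set E}
    (hC : Convex ℝ C) (hF : ∀ z ∈ C, F z ∈ S) {a b c : E} (ha : a ∈ C) (hb : b ∈ C) (hc : c ∈ C) :
    VK1_psi φ F a c = VK1_psi φ F b c * VK1_psi φ F a b := by
  have hseg : ∀ {u v : E}, u ∈ C → v ∈ C → ∀ t, (Path.segment u v) t ∈ C := by
    intro u v hu hv t
    rw [Path.segment_apply]
    exact hC.lineMap_mem hu hv t.2
  have hr : ∀ {u v : E}, u ∈ C → v ∈ C → range ((Path.segment u v).map F.continuous) ⊆ S := by
    rintro u v hu hv _ ⟨t, rfl⟩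
    exact hF _ (hseg hu hv t)
  have htr : ∀ t, ((Path.segment a b).trans (Path.segment b c)) t ∈ C := by
    intro t
    rw [Path.trans_apply]
    split_ifs
    · exact hseg ha hb _
    · exact hseg hb hc _
  have e1 := m _ _ (hr ha hb) (hr hb hc)
  rw [← Path.map_trans] at e1
  have e2 := ho _ _ ((VK1_hom (Path.segment a c)
    ((Path.segment a b).trans (Path.segment b c))).map F) (by
      rintro _ ⟨⟨r, t⟩, rfl⟩
      exact hF _ (hC.lineMap_mem (hseg ha hc t) (htr t) r.2))
  unfold VK1_psi
  rw [e2, e1]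

variable {φ : ∀ x y : X, Path x y → Γ} {ι : Type*} {O : ι → Set X}

theorem VK1_TR (h : VK1_hyp φ O) {E : Type*} [NormedAddCommGroup E] [NormedSpace ℝ E]
    (F : C(E, X)) {C : Set E} (hC : Convex ℝ C) (hF : ∃ i, ∀ z ∈ C, F z ∈ O i)
    {a b c : E} (ha : a ∈ C) (hb : b ∈ C) (hc : c ∈ C) :
    VK1_psi φ F a c = VK1_psi φ F b c * VK1_psi φ F a b := by
  obtain ⟨i, hF⟩ := hF
  exact VK1_tri φ (h.mu i) (h.ho i) F hC hF ha hb hc

theorem VK1_refl (h : VK1_hyp φ O) (x : X) : φ x x (Path.refl x) = 1 := by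
  have hx : x ∈ ⋃ i, O i := by rw [h.cov]; exact mem_univ x
  obtain ⟨i, hx⟩ := mem_iUnion.1 hx
  have e : φ x x (Path.refl x) = φ x x (Path.refl x) * φ x x (Path.refl x) := by
    have h1 := h.mu i (Path.refl x) (Path.refl x)
      (by rintro _ ⟨t, rfl⟩; exact hx) (by rintro _ ⟨t, rfl⟩; exact hx)
    rwa [Path.refl_trans_refl] at h1
  exact (left_eq_mul.1 e)

theorem VK1_self (h : VK1_hyp φ O) {E : Type*} [NormedAddCommGroup E] [NormedSpace ℝ E]
    (F : C(E, X)) {a b : E} (hab : ∀ t : I, F (AffineMap.lineMap a b (t : ℝ)) = F a) :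
    VK1_psi φ F a b = 1 := by
  rw [← VK1_refl h (F a)]
  apply VK1_congr
  intro t
  exact hab t

theorem VK1_leb (h : VK1_hyp φ O) {E : Type*} [NormedAddCommGroup E] [NormedSpace ℝ E]
    (F : C(E, X)) {K : Set E} (hK : IsCompact K) :
    ∃ δ > 0, ∀ x ∈ K, ∃ i, ∀ u ∈ Metric.ball x δ, F u ∈ O i := by
  obtain ⟨δ, hδ, hb⟩ := lebesgue_number_lemma_of_metric (c := fun i => F ⁻¹' (O i)) hK
    (fun i => (h.hO i).preimage F.continuous)
    (by
      intro x _
      have hx : F x ∈ ⋃ i, O i := by rw [h.cov]; exact mem_univ _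
      obtain ⟨i, hi⟩ := mem_iUnion.1 hx
      exact mem_iUnion.2 ⟨i, hi⟩)
  refine ⟨δ, hδ, fun x hx => ?_⟩
  obtain ⟨i, hi⟩ := hb x hx
  exact ⟨i, fun u hu => hi hu⟩

/-- developing functions -/
def VK1_dev {ι : Type*} (φ : ∀ x y : X, Path x y → Γ) (O : ι → Set X) (f : C(ℝ, X)) (b : ℝ)
    (L : ℝ → Γ) : Prop :=
  L 0 = 1 ∧ ∀ s t, 0 ≤ s → s ≤ t → t ≤ b →
    (∃ i, ∀ u ∈ Icc s t, f u ∈ O i) → L t = VK1_psi φ f s t * L s

theorem VK1_exists (h : VK1_hyp φ O) (f : C(ℝ, X)) : ∃ L, VK1_dev φ O f 1 L := by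
  obtain ⟨δ, hδ, hb⟩ := VK1_leb h f (isCompact_Icc (a := (0 : ℝ)) (b := 1))
  have key : ∀ k : ℕ, ∃ L, VK1_dev φ O f (min 1 (k * (δ / 2))) L := by
    intro k
    induction k with
    | zero =>
      refine ⟨fun _ => 1, rfl, fun s t hs hst ht _ => ?_⟩
      have ht0 : t ≤ 0 := by
        refine ht.trans ?_
        simp
      have hs0 : s = 0 := le_antisymm (hst.trans ht0) hs
      have ht1 : t = 0 := le_antisymm ht0 (hs.trans hst)
      subst hs0
      subst ht1
      rw [VK1_self h f (by simp), mul_one]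
    | succ k ih =>
      obtain ⟨L, hL0, hL⟩ := ih
      set b : ℝ := min 1 (k * (δ / 2)) with hbd
      have hb0 : 0 ≤ b := by
        rw [hbd]
        positivity
      have hb1 : b ≤ 1 := min_le_left _ _
      have hb2 : min 1 (((k + 1 : ℕ) : ℝ) * (δ / 2)) ≤ b + δ / 2 := by
        rw [hbd, ← min_add_add_right]
        push_cast
        refine min_le_min (by linarith) (le_of_eq (by ring))
      refine ⟨fun t => if t ≤ b then L t else VK1_psi φ f b t * L b, ?_, fun s t hs hst ht hg => ?_⟩
      · simp only [if_pos hb0, hL0]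
      · by_cases htb : t ≤ b
        · simp only [if_pos htb, if_pos (hst.trans htb)]
          exact hL s t hs hst htb hg
        · have htb' : b < t := lt_of_not_ge htb
          by_cases hsb : s ≤ b
          · simp only [if_neg htb, if_pos hsb]
            have e1 : L b = VK1_psi φ f s b * L s := by
              refine hL s b hs hsb le_rfl ?_
              obtain ⟨i, hg⟩ := hg
              exact ⟨i, fun u hu => hg u ⟨hu.1, hu.2.trans htb'.le⟩⟩
            rw [e1, ← mul_assoc, ← VK1_TR h f (convex_Icc s t) hg (left_mem_Icc.2 hst)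
              ⟨hsb, htb'.le⟩ (right_mem_Icc.2 hst)]
          · have hsb' : b < s := lt_of_not_ge hsb
            simp only [if_neg htb, if_neg hsb]
            have hsmall : ∀ u ∈ Icc b t, u ∈ Metric.ball b δ := by
              intro u hu
              rw [Metric.mem_ball, Real.dist_eq, abs_lt]
              constructor
              · linarith [hu.1]
              · linarith [hu.2, ht.trans hb2]
            have hg' : ∃ i, ∀ u ∈ Icc b t, f u ∈ O i := by
              obtain ⟨i, h1⟩ := hb b ⟨hb0, hb1⟩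
              exact ⟨i, fun u hu => h1 u (hsmall u hu)⟩
            rw [← mul_assoc, ← VK1_TR h f (convex_Icc b t) hg' (left_mem_Icc.2 htb'.le)
              ⟨hsb'.le, hst⟩ (right_mem_Icc.2 htb'.le)]
  obtain ⟨k, hk⟩ := exists_nat_ge (1 / (δ / 2))
  obtain ⟨L, hL⟩ := key k
  refine ⟨L, ?_⟩
  have h1 : min 1 ((k : ℝ) * (δ / 2)) = 1 := by
    apply min_eq_left
    rwa [div_le_iff₀ (by positivity)] at hk
  rwa [h1] at hL

/-- locally developing functions -/
def VK1_loc (φ : ∀ x y : X, Path x y → Γ) (f : C(ℝ, X)) (L : ℝ → Γ) : Prop :=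
  ∀ x ∈ Icc (0 : ℝ) 1, ∃ ε > 0, ∀ s t, s ∈ Icc (0 : ℝ) 1 → t ∈ Icc (0 : ℝ) 1 →
    |s - x| < ε → |t - x| < ε → s ≤ t → L t = VK1_psi φ f s t * L s

theorem VK1_loc_of_dev (h : VK1_hyp φ O) {f : C(ℝ, X)} {L : ℝ → Γ}
    (hL : VK1_dev φ O f 1 L) : VK1_loc φ f L := by
  obtain ⟨δ, hδ, hb⟩ := VK1_leb h f (isCompact_Icc (a := (0 : ℝ)) (b := 1))
  intro x hx
  refine ⟨δ, hδ, fun s t hs ht hsx htx hst => hL.2 s t hs.1 hst ht.2 ?_⟩
  have hsm : ∀ u ∈ Icc s t, u ∈ Metric.ball x δ := by
    intro u hu
    rw [Metric.mem_ball, Real.dist_eq, abs_lt]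
    have h1 := abs_lt.1 hsx
    have h2 := abs_lt.1 htx
    constructor
    · linarith [hu.1]
    · linarith [hu.2]
  obtain ⟨i, h1⟩ := hb x hx
  exact ⟨i, fun u hu => h1 u (hsm u hu)⟩

theorem VK1_const {G : ℝ → Γ}
    (hG : ∀ x ∈ Icc (0 : ℝ) 1, ∃ ε > 0, ∀ y ∈ Icc (0 : ℝ) 1, |y - x| < ε → G y = G x) :
    G 1 = G 0 := by
  let _ : TopologicalSpace Γ := ⊥
  have : DiscreteTopology Γ := ⟨rfl⟩
  have hc : ContinuousOn G (Icc 0 1) := by
    intro x hx
    obtain ⟨ε, hε, h1⟩ := hG x hx
    have h2 : ∀ᶠ y in 𝓝[Icc 0 1] x, G x = G y := by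
      refine Metric.mem_nhdsWithin_iff.2 ⟨ε, hε, fun y hy => (h1 y hy.2 ?_).symm⟩
      have := hy.1
      rwa [Metric.mem_ball, Real.dist_eq] at this
    exact tendsto_const_nhds.congr' h2
  exact isPreconnected_Icc.constant hc (right_mem_Icc.2 zero_le_one) (left_mem_Icc.2 zero_le_one)

theorem VK1_unique {f : C(ℝ, X)} {L L' : ℝ → Γ} (h1 : VK1_loc φ f L) (h2 : VK1_loc φ f L')
    (h0 : L 0 = L' 0) : L 1 = L' 1 := by
  have key : (L 1)⁻¹ * L' 1 = (L 0)⁻¹ * L' 0 := by
    refine VK1_const (G := fun t => (L t)⁻¹ * L' t) fun x hx => ?_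
    obtain ⟨ε, hε, e1⟩ := h1 x hx
    obtain ⟨ε', hε', e2⟩ := h2 x hx
    refine ⟨min ε ε', lt_min hε hε', fun y hy hyx => ?_⟩
    have hyε := lt_of_lt_of_le hyx (min_le_left _ _)
    have hyε' := lt_of_lt_of_le hyx (min_le_right _ _)
    have hxx : |x - x| < ε := by rw [sub_self, abs_zero]; exact hε
    have hxx' : |x - x| < ε' := by rw [sub_self, abs_zero]; exact hε'
    rcases le_total x y with hle | hle
    · rw [e1 x y hx hy hxx hyε hle, e2 x y hx hy hxx' hyε' hle]
      group
    · rw [e1 y x hy hx hyε hxx hle, e2 y x hy hx hyε' hxx' hle]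
      group
  rw [h0, inv_mul_cancel] at key
  exact (inv_mul_eq_one.1 key)

end VK1aux

theorem VK1 {X : Type*} [TopologicalSpace X] {ι : Type*} (O : ι → Set X) (hO : ∀ i, IsOpen (O i))
    (hc : ⋃ i, O i = univ) {Γ : Type*} [Group Γ] (φ : ∀ {x y : X}, Path x y → Γ)
    (mu : ∀ (i : ι) {x y z : X} (p : Path x y) (q : Path y z), range p ⊆ O i → range q ⊆ O i →
      φ (p.trans q) = φ q * φ p)
    (ho : ∀ (i : ι) {x y : X} (p q : Path x y) (H : p.Homotopy q), range H ⊆ O i → φ p = φ q) :
    ∃ Φ : ∀ {x y : X}, Path x y → Γ,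
      (∀ (i : ι) {x y : X} (p : Path x y), range p ⊆ O i → Φ p = φ p) ∧
      (∀ {x y z : X} (p : Path x y) (q : Path y z), Φ (p.trans q) = Φ q * Φ p) ∧
      (∀ {x y : X} (p q : Path x y), p.Homotopic q → Φ p = Φ q) := by
  let φ' : ∀ x y : X, Path x y → Γ := fun x y p => φ p
  have h : VK1_hyp φ' O := ⟨hO, hc, mu, ho⟩
  choose L hL using fun f : C(ℝ, X) => VK1_exists h f
  let ex : ∀ {x y : X}, Path x y → C(ℝ, X) := fun p => ⟨p.extend, p.continuous_extend⟩
  have hex : ∀ {x y : X} (p : Path x y) (t : ℝ), ex p t = p.extend t := fun p t => rfl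
  refine ⟨fun p => L (ex p) 1, ?_, ?_, ?_⟩
  · -- small paths
    intro i x y p hp
    have h1 := (hL (ex p)).2 0 1 le_rfl zero_le_one le_rfl (by
      refine ⟨i, fun u hu => hp ?_⟩
      rw [hex, Path.extend_apply p hu]
      exact mem_range_self _)
    simp only
    rw [h1, (hL (ex p)).1, mul_one]
    refine VK1_congr φ' _ p fun t => ?_
    change (ex p) ((Path.segment (0 : ℝ) 1) t) = p t
    rw [Path.segment_apply, hex, AffineMap.lineMap_apply]
    simp
  · -- products
    intro x y z p q
    simp only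
    have hr := hL (ex (p.trans q))
    have e1 : L (ex p) 1 = L (ex (p.trans q)) (1 / 2) := by
      have hd : VK1_dev φ' O (ex p) 1 (fun t => L (ex (p.trans q)) (t / 2)) := by
        refine ⟨?_, fun s t hs hst ht hg => ?_⟩
        · simp only [zero_div]
          exact hr.1
        · have hval : ∀ u ≤ 1 / 2, ex (p.trans q) u = ex p (2 * u) := fun u hu =>
            Path.extend_trans_of_le_half p q hu
          have hg' : ∃ i, ∀ u ∈ Icc (s / 2) (t / 2), ex (p.trans q) u ∈ O i := by
            obtain ⟨i, hg⟩ := hg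
            refine ⟨i, fun u hu => ?_⟩
            rw [hval u (by linarith [hu.2])]
            exact hg _ ⟨by linarith [hu.1], by linarith [hu.2]⟩
          simp only
          rw [hr.2 (s / 2) (t / 2) (by linarith) (by linarith) (by linarith) hg']
          congr 1
          refine VK1_congr φ' _ _ fun r => ?_
          change ex (p.trans q) ((Path.segment (s / 2) (t / 2)) r) = ex p ((Path.segment s t) r)
          have h3 : ((Path.segment (s / 2) (t / 2)) r : ℝ) ≤ 1 / 2 := by
            rw [Path.segment_apply, AffineMap.lineMap_apply]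
            simp only [vsub_eq_sub, smul_eq_mul, vadd_eq_add]
            nlinarith [r.2.1, r.2.2]
          rw [hval _ h3]
          congr 1
          rw [Path.segment_apply, Path.segment_apply, AffineMap.lineMap_apply,
            AffineMap.lineMap_apply]
          simp only [vsub_eq_sub, smul_eq_mul, vadd_eq_add]
          ring
      have h2 := VK1_unique (VK1_loc_of_dev h (hL (ex p))) (VK1_loc_of_dev h hd)
        ((hL (ex p)).1.trans hd.1.symm)
      exact h2
    have e2 : L (ex q) 1 = L (ex (p.trans q)) 1 * (L (ex (p.trans q)) (1 / 2))⁻¹ := by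
      have hd : VK1_dev φ' O (ex q) 1 (fun t => L (ex (p.trans q)) ((1 + t) / 2) *
          (L (ex (p.trans q)) (1 / 2))⁻¹) := by
        refine ⟨?_, fun s t hs hst ht hg => ?_⟩
        · simp only [add_zero]
          exact mul_inv_cancel _
        · have hval : ∀ u, 1 / 2 ≤ u → ex (p.trans q) u = ex q (2 * u - 1) := fun u hu =>
            Path.extend_trans_of_half_le p q hu
          have hg' : ∃ i, ∀ u ∈ Icc ((1 + s) / 2) ((1 + t) / 2), ex (p.trans q) u ∈ O i := by
            obtain ⟨i, hg⟩ := hg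
            refine ⟨i, fun u hu => ?_⟩
            rw [hval u (by linarith [hu.1])]
            exact hg _ ⟨by linarith [hu.1], by linarith [hu.2]⟩
          simp only
          rw [hr.2 ((1 + s) / 2) ((1 + t) / 2) (by linarith) (by linarith) (by linarith) hg',
            mul_assoc]
          congr 1
          refine VK1_congr φ' _ _ fun r => ?_
          change ex (p.trans q) ((Path.segment ((1 + s) / 2) ((1 + t) / 2)) r) =
            ex q ((Path.segment s t) r)
          have h3 : 1 / 2 ≤ ((Path.segment ((1 + s) / 2) ((1 + t) / 2)) r : ℝ) := by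
            rw [Path.segment_apply, AffineMap.lineMap_apply]
            simp only [vsub_eq_sub, smul_eq_mul, vadd_eq_add]
            nlinarith [r.2.1, r.2.2]
          rw [hval _ h3]
          congr 1
          rw [Path.segment_apply, Path.segment_apply, AffineMap.lineMap_apply,
            AffineMap.lineMap_apply]
          simp only [vsub_eq_sub, smul_eq_mul, vadd_eq_add]
          ring
      have h2 := VK1_unique (VK1_loc_of_dev h (hL (ex q))) (VK1_loc_of_dev h hd)
        ((hL (ex q)).1.trans hd.1.symm)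
      rw [h2]
      norm_num
    rw [e1, e2, inv_mul_cancel_right]
  · -- homotopies
    rintro x y p q ⟨H⟩
    simp only
    let pr : ℝ → I := projIcc 0 1 zero_le_one
    have hpr : Continuous pr := continuous_projIcc
    let F : C(ℝ × ℝ, X) := ⟨fun z => H (pr z.1, pr z.2), by fun_prop⟩
    let fs : ℝ → C(ℝ, X) := fun s1 => ⟨fun t => F (s1, t), by fun_prop⟩
    have hf0 : fs 0 = ex p := by
      ext t
      change H (pr 0, pr t) = p.extend t
      have h1 : pr 0 = 0 := projIcc_left (h := zero_le_one)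
      rw [h1, H.apply_zero]
      rfl
    have hf1 : fs 1 = ex q := by
      ext t
      change H (pr 1, pr t) = q.extend t
      have h1 : pr 1 = 1 := projIcc_right (h := zero_le_one)
      rw [h1, H.apply_one]
      rfl
    have hF0 : ∀ s1, F (s1, 0) = x := by
      intro s1
      change H (pr s1, pr 0) = x
      have h1 : pr 0 = 0 := projIcc_left (h := zero_le_one)
      rw [h1]
      exact H.source _
    have hF1 : ∀ s1, F (s1, 1) = y := by
      intro s1
      change H (pr s1, pr 1) = y
      have h1 : pr 1 = 1 := projIcc_right (h := zero_le_one)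
      rw [h1]
      exact H.target _
    have key : L (fs 1) 1 = L (fs 0) 1 := by
      refine VK1_const (G := fun s1 => L (fs s1) 1) fun s0 hs0 => ?_
      obtain ⟨ε, hε, hb⟩ := VK1_leb h F
        ((isCompact_singleton (x := s0)).prod (isCompact_Icc (a := (0 : ℝ)) (b := 1)))
      refine ⟨ε, hε, fun s1 hs1 hsig => ?_⟩
      have hver : ∀ t r : ℝ, (AffineMap.lineMap ((s0, t) : ℝ × ℝ) (s1, t)) r =
          (AffineMap.lineMap s0 s1 r, t) := by
        intro t r
        ext
        · simp [AffineMap.lineMap_apply]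
        · simp [AffineMap.lineMap_apply]
      have hhor : ∀ τ s t r : ℝ, (AffineMap.lineMap ((τ, s) : ℝ × ℝ) (τ, t)) r =
          (τ, AffineMap.lineMap s t r) := by
        intro τ s t r
        ext
        · simp [AffineMap.lineMap_apply]
        · simp [AffineMap.lineMap_apply]
      have hψ : ∀ τ s t, VK1_psi φ' (fs τ) s t = VK1_psi φ' F (τ, s) (τ, t) := by
        intro τ s t
        refine VK1_congr φ' _ _ fun r => ?_
        change F (τ, (Path.segment s t) r) = F ((Path.segment ((τ, s) : ℝ × ℝ) (τ, t)) r)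
        rw [Path.segment_apply, Path.segment_apply, hhor]
      have hv0 : VK1_psi φ' F (s0, 0) (s1, 0) = 1 :=
        VK1_self h F fun t => by rw [hver, hF0, hF0]
      have hv1 : VK1_psi φ' F (s0, 1) (s1, 1) = 1 :=
        VK1_self h F fun t => by rw [hver, hF1, hF1]
      have hloc : VK1_loc φ' (fs s1)
          (fun t => VK1_psi φ' F (s0, t) (s1, t) * L (fs s0) t) := by
        intro t0 ht0
        refine ⟨ε, hε, fun s t hs ht hst0 htt0 hst => ?_⟩
        have hg := hb (s0, t0) ⟨rfl, ht0⟩
        have hC : Convex ℝ (Metric.ball ((s0, t0) : ℝ × ℝ) ε) := convex_ball _ _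
        have hmem : ∀ a b : ℝ, |a - s0| < ε → |b - t0| < ε →
            ((a, b) : ℝ × ℝ) ∈ Metric.ball ((s0, t0) : ℝ × ℝ) ε := by
          intro a b ha hb
          rw [Metric.mem_ball, Prod.dist_eq, max_lt_iff, Real.dist_eq, Real.dist_eq]
          exact ⟨ha, hb⟩
        have h00 : |s0 - s0| < ε := by rw [sub_self, abs_zero]; exact hε
        have hIcc : ∀ u ∈ Icc s t, |u - t0| < ε := by
          intro u hu
          have h1 := abs_lt.1 hst0
          have h2 := abs_lt.1 htt0
          rw [abs_lt]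
          constructor
          · linarith [hu.1]
          · linarith [hu.2]
        have e1 : L (fs s0) t = VK1_psi φ' (fs s0) s t * L (fs s0) s := by
          refine (hL (fs s0)).2 s t hs.1 hst ht.2 ?_
          obtain ⟨i, hg⟩ := hg
          exact ⟨i, fun u hu => hg _ (hmem s0 u h00 (hIcc u hu))⟩
        simp only
        rw [e1, hψ, hψ, ← mul_assoc, ← mul_assoc,
          ← VK1_TR h F hC hg (hmem s0 s h00 hst0) (hmem s0 t h00 htt0) (hmem s1 t hsig htt0),
          ← VK1_TR h F hC hg (hmem s0 s h00 hst0) (hmem s1 s hsig hst0) (hmem s1 t hsig htt0)]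
      have h2 := VK1_unique (VK1_loc_of_dev h (hL (fs s1))) hloc (by
        rw [(hL (fs s1)).1, hv0, (hL (fs s0)).1, mul_one])
      rw [hv1, one_mul] at h2
      exact h2
    rw [hf0, hf1] at key
    exact key.symm


end LQ
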